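import Mathlib

set_option autoImplicit false

/-!
# Compensated Forrelation: the promise problem, Boolean circuits, quantum query algorithms

Definitions used in the statement.
-/

namespace Pool.Agent.Helper67.EQP

open Finset

/-! ### Constant depth circuits -/

/-- Decision trees reading bits indexed by `ι`; `node i t0 t1` reads the bit `i` and continues with
`t0` if it is 0 and with `t1` if it is 1. -/
inductive DTree (ι : Type) : Type
  | leaf : Bool → DTree ι
  | node : ι → DTree ι → DTree ι → DTree ι

/-- The output of the tree. -/
def DTree.eval {ι : Type} (x : ι → Bool) : DTree ι → Bool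
  | .leaf b => b
  | .node i t0 t1 => if x i then t1.eval x else t0.eval x

/-- The depth of the tree. -/
def DTree.depth {ι : Type} : DTree ι → ℕ
  | .leaf _ => 0
  | .node _ t0 t1 => max t0.depth t1.depth + 1

/-- A constant depth circuit with `s` gates over inputs indexed by `ι`. Every gate is an AND
(`isAnd`) or an OR of unbounded fan-in of an arbitrary set of decision trees of depth at most `d`
and of an arbitrary set of possibly negated outputs of gates of strictly smaller level, the levels
being `0, ..., h - 1`; so there are at most `h` layers of gates above the decision trees. For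
`d = 1` the decision trees are just the literals and the constants, and these are the usual
constant depth circuits. If `(g', b) ∈ wire g`, then the statement that the gate `g'` outputs `b` is
an input of the gate `g`. -/
structure Circuit (ι : Type) (h d s : ℕ) where
  level : Fin s → Fin h
  isAnd : Fin s → Bool
  inp : Fin s → Set (DTree ι)
  inp_depth : ∀ g, ∀ T ∈ inp g, T.depth ≤ d
  wire : Fin s → Set (Fin s × Bool)
  level_lt : ∀ g g' b, (g', b) ∈ wire g → level g' < level g
  out : Fin s

/-- Gate `g` outputs 1 on the input `x`. -/
def Circuit.Fires {ι : Type} {h d s : ℕ} (C : Circuit ι h d s) (x : ι → Bool) (g : Fin s) :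
    Prop :=
  if C.isAnd g = true then
    (∀ T ∈ C.inp g, T.eval x = true) ∧
      ∀ g' b, (_hw : (g', b) ∈ C.wire g) → (C.Fires x g' ↔ b = true)
  else
    (∃ T ∈ C.inp g, T.eval x = true) ∨
      ∃ g' b, ∃ _hw : (g', b) ∈ C.wire g, (C.Fires x g' ↔ b = true)
termination_by C.level g
decreasing_by all_goals exact C.level_lt _ _ _ _hw

/-- The circuit outputs 1 on the input `x`. -/
def Circuit.Accepts {ι : Type} {h d s : ℕ} (C : Circuit ι h d s) (x : ι → Bool) : Prop :=
  C.Fires x C.out

/-! ### The promise problem -/

/-- `(-1)^b`. -/
def spin (b : Bool) : ℤ := if b then -1 else 1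

/-- `(-1)^{⟨i, k⟩}`, the entries of the Sylvester-Hadamard matrix. -/
def had {n : ℕ} (i k : Fin n → Bool) : ℤ := ∏ l, if i l && k l then -1 else 1

/-- Positions of the input: the truth tables of two Boolean functions `u`, `v` on `{0,1}^{2m+4}`
and of one Boolean function `r` on `{0,1}^{3m}`; altogether `32 * 4^m + 8^m` bits. -/
abbrev Idx (m : ℕ) : Type :=
  ((Fin (2 * m + 4) → Bool) ⊕ (Fin (2 * m + 4) → Bool)) ⊕ (Fin (3 * m) → Bool)

/-- Unnormalised forrelation of `(-1)^u` and `(-1)^v`, plus the sum of the values of `(-1)^r`.
The absolute value of the first sum is at most `64 * 8^m`, that of the second at most `8^m`. -/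
def score (m : ℕ) (x : Idx m → Bool) : ℤ :=
  (∑ i, ∑ k, had i k * spin (x (Sum.inl (Sum.inl i))) * spin (x (Sum.inl (Sum.inr k)))) +
    ∑ j, spin (x (Sum.inr j))

/-- The yes-instances: the score is exactly one half of the maximum `65 * 8^m`. -/
def Yes (m : ℕ) (x : Idx m → Bool) : Prop := 2 * score m x = 65 * 8 ^ m

/-- The no-instances: the score is exactly one half of the minimum `-65 * 8^m`. -/
def No (m : ℕ) (x : Idx m → Bool) : Prop := 2 * score m x = -(65 * 8 ^ m)

/-- `μ` is a probability distribution. -/
def IsDist {Ω : Type} [Fintype Ω] (μ : Ω → ℝ) : Prop := (∀ x, 0 ≤ μ x) ∧ ∑ x, μ x = 1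

/-- The probability that the circuit accepts an input drawn from `μ`. -/
noncomputable def Circuit.accProb {ι : Type} [Fintype ι] [DecidableEq ι] {h d s : ℕ}
    (C : Circuit ι h d s) (μ : (ι → Bool) → ℝ) : ℝ :=
  open Classical in ∑ x, if C.Accepts x then μ x else 0

/-! ### Quantum query algorithms -/

/-- A quantum query algorithm for inputs `x : ι → Bool`: a finite set `B` of basis states, for every
basis state the input position (if any) which the query operator reads there, the number `T` of
queries, an initial unit vector, a unitary matrix to be applied after each query, and the set of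
accepting basis states. -/
structure QueryAlgorithm (ι : Type) where
  B : Type
  fintypeB : Fintype B
  decEqB : DecidableEq B
  pos : B → Option ι
  T : ℕ
  init : B → ℂ
  init_norm : ∑ b, ‖init b‖ ^ 2 = 1
  U : ℕ → Matrix B B ℂ
  unitary : ∀ k, U k ∈ Matrix.unitaryGroup B ℂ
  acc : Finset B

attribute [instance] QueryAlgorithm.fintypeB QueryAlgorithm.decEqB

/-- The phase `(-1)^{x_i}` applied by the query operator to a basis state reading position `i`. -/
def QueryAlgorithm.phase {ι : Type} (A : QueryAlgorithm ι) (x : ι → Bool) (b : A.B) : ℂ :=
  match A.pos b with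
  | none => 1
  | some i => if x i then -1 else 1

/-- The state after `k` queries. -/
noncomputable def QueryAlgorithm.state {ι : Type} (A : QueryAlgorithm ι) (x : ι → Bool) :
    ℕ → A.B → ℂ
  | 0 => A.init
  | k + 1 => (A.U k).mulVec (fun b => A.phase x b * A.state x k b)

/-- Probability that the algorithm accepts the input `x` (after `A.T` queries). -/
noncomputable def QueryAlgorithm.acceptProb {ι : Type} (A : QueryAlgorithm ι) (x : ι → Bool) : ℝ :=
  ∑ b ∈ A.acc, ‖A.state x A.T b‖ ^ 2

end Pool.Agent.Helper67.EQP
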