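import Pool.Agent.Helper67.EQP.QSim4

set_option autoImplicit false
set_option linter.unusedSectionVars false

/-!
Size of the circuits and their gates.
-/

namespace Pool.Agent.Helper67.EQP

open Finset Function

theorem orth_gH : Orth2 gH := by
  intro a b
  have h2 : Real.sqrt 2 * Real.sqrt 2 = 2 := sqrt2_mul
  rw [Fintype.sum_bool]
  unfold gH
  rw [div_mul_div_comm, div_mul_div_comm, h2]
  cases a <;> cases b <;> norm_num

theorem orth_gHt : Orth2 (fun a b => gH b a) := by
  have : (fun a b => gH b a) = gH := by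
    funext a b
    unfold gH
    rw [Bool.and_comm]
  rw [this]
  exact orth_gH

theorem orth_gR : Orth2 gR := by
  intro a b
  have h2 : Real.sqrt 65 * Real.sqrt 65 = 65 := Real.mul_self_sqrt (by norm_num)
  rw [Fintype.sum_bool]
  unfold gR
  rw [div_mul_div_comm, div_mul_div_comm, h2]
  cases a <;> cases b <;> norm_num

theorem orth_gRt : Orth2 (fun a b => gR b a) := by
  intro a b
  have h2 : Real.sqrt 65 * Real.sqrt 65 = 65 := Real.mul_self_sqrt (by norm_num)
  rw [Fintype.sum_bool]
  unfold gR
  rw [div_mul_div_comm, div_mul_div_comm, h2]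
  cases a <;> cases b <;> norm_num

theorem orth_gX : Orth2 gX := by
  intro a b
  rw [Fintype.sum_bool]
  cases a <;> cases b <;> norm_num [gX]

theorem orth_gN : Orth2 gN := by
  intro a b
  rw [Fintype.sum_bool]
  cases a <;> cases b <;> norm_num [gN]

/-- The one-qubit matrices which are used. -/
noncomputable def basic : Fin 6 → Bool → Bool → ℝ :=
  ![gH, fun a b => gH b a, gR, fun a b => gR b a, gX, gN]

/-- The gates which are used. -/
noncomputable def gateSet : Finset (Matrix (Fin 3 → Bool) (Fin 3 → Bool) ℂ) := by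
  classical
  exact (univ : Finset ((Bool → Bool → Bool) × Fin 6)).image (fun p => cg p.1 (basic p.2))

theorem gateSet_unitary : ∀ U ∈ gateSet, U ∈ Matrix.unitaryGroup (Fin 3 → Bool) ℂ := by
  classical
  intro U hU
  unfold gateSet at hU
  rw [mem_image] at hU
  obtain ⟨⟨f, i⟩, _, rfl⟩ := hU
  apply cg_unitary
  fin_cases i
  · exact orth_gH
  · exact orth_gHt
  · exact orth_gR
  · exact orth_gRt
  · exact orth_gX
  · exact orth_gN

/-- The matrix of the gate is one of the basic ones. -/
def CG.Bas {W : Type} (g : CG W) : Prop := ∃ i, g.G = basic i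

theorem CG.Bas.op {W : Type} {l : List (CG W)} (hl : ∀ g ∈ l, g.Bas)
    {U : Matrix (Fin 3 → Bool) (Fin 3 → Bool) ℂ} {e : Fin 3 ↪ W}
    (h : QOp.gate U e ∈ l.map CG.op) : U ∈ gateSet := by
  classical
  rw [List.mem_map] at h
  obtain ⟨g, hg, h2⟩ := h
  obtain ⟨i, hi⟩ := hl g hg
  have h3 : cg g.f g.G = U := by
    unfold CG.op at h2
    injection h2
  unfold gateSet
  rw [mem_image]
  exact ⟨(g.f, i), mem_univ _, by rw [← h3, hi]⟩

theorem bas_prep (m : ℕ) : ∀ g ∈ prep m, g.Bas := by
  intro g hg
  unfold prep at hg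
  simp only [List.mem_cons, List.mem_append, List.mem_map] at hg
  rcases hg with rfl | rfl | ⟨l, _, rfl⟩ | ⟨l, _, rfl⟩
  · exact ⟨2, rfl⟩
  · exact ⟨0, rfl⟩
  · exact ⟨0, rfl⟩
  · exact ⟨0, rfl⟩

theorem bas_prep_inv (m : ℕ) : ∀ g ∈ prep m, g.inv.Bas := by
  intro g hg
  unfold prep at hg
  simp only [List.mem_cons, List.mem_append, List.mem_map] at hg
  rcases hg with rfl | rfl | ⟨l, _, rfl⟩ | ⟨l, _, rfl⟩
  · exact ⟨3, rfl⟩
  · exact ⟨1, rfl⟩
  · exact ⟨1, rfl⟩
  · exact ⟨1, rfl⟩

theorem bas_trans (m : ℕ) : ∀ g ∈ trans m, g.Bas := by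
  intro g hg
  unfold trans at hg
  simp only [List.mem_map] at hg
  obtain ⟨l, _, rfl⟩ := hg
  exact ⟨0, rfl⟩

theorem bas_ladder (m : ℕ) : ∀ g ∈ ladder m, g.Bas := by
  intro g hg
  unfold ladder at hg
  simp only [List.mem_cons, List.mem_map] at hg
  rcases hg with rfl | ⟨l, _, rfl⟩
  · exact ⟨4, rfl⟩
  · exact ⟨4, rfl⟩

theorem bas_reflect (m : ℕ) : ∀ g ∈ reflect m, g.Bas := by
  intro g hg
  unfold reflect at hg
  simp only [List.mem_append, List.mem_cons, List.mem_map, List.mem_reverse] at hg
  rcases hg with (⟨g', hg', rfl⟩ | hg | rfl | hg) | hg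
  · exact bas_prep_inv m g' hg'
  · exact bas_ladder m g hg
  · exact ⟨5, rfl⟩
  · exact bas_ladder m g hg
  · exact bas_prep m g hg

theorem bas_one (m : ℕ) : ∀ g ∈ trans m ++ notc m :: trans m, g.Bas := by
  intro g hg
  simp only [List.mem_append, List.mem_cons] at hg
  rcases hg with hg | rfl | hg
  · exact bas_trans m g hg
  · exact ⟨4, rfl⟩
  · exact bas_trans m g hg

theorem bas_two (m : ℕ) : ∀ g ∈ trans m ++ [hadc m], g.Bas := by
  intro g hg
  simp only [List.mem_append, List.mem_singleton] at hg
  rcases hg with hg | rfl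
  · exact bas_trans m g hg
  · exact ⟨0, rfl⟩

theorem circOps_gates (m : ℕ) (U : Matrix (Fin 3 → Bool) (Fin 3 → Bool) ℂ)
    (e : Fin 3 ↪ Wire m) (h : QOp.gate U e ∈ circOps m) : U ∈ gateSet := by
  unfold circOps at h
  simp only [List.mem_append, List.mem_cons, reduceCtorEq, false_or] at h
  rcases h with h | h | h | h
  · exact CG.Bas.op (bas_prep _) h
  · exact CG.Bas.op (bas_one _) h
  · exact CG.Bas.op (bas_reflect _) h
  · exact CG.Bas.op (bas_two _) h

theorem circ_gates (n : ℕ) (U : Matrix (Fin 3 → Bool) (Fin 3 → Bool) ℂ)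
    (e : Fin 3 ↪ (circ n).W) (h : QOp.gate U e ∈ (circ n).ops) : U ∈ gateSet :=
  circOps_gates (n + 1) U e h

theorem length_prep (m : ℕ) : (prep m).length = 5 * m + 6 := by
  simp [prep]
  omega

theorem length_trans (m : ℕ) : (trans m).length = 2 * m + 4 := by
  simp [trans]

theorem length_ladder (m : ℕ) : (ladder m).length = 3 * m + 7 := by
  simp [ladder]

theorem length_reflect (m : ℕ) : (reflect m).length = 16 * m + 27 := by
  simp only [reflect, List.length_append, List.length_cons, List.length_map, List.length_reverse,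
    length_prep, length_ladder]
  omega

theorem circOps_length (m : ℕ) : (circOps m).length = 27 * m + 50 := by
  simp only [circOps, List.length_append, List.length_cons, List.length_map, List.length_nil,
    length_prep, length_trans, length_reflect]
  omega

theorem circ_length (n : ℕ) : (circ n).ops.length = 27 * n + 77 := by
  change (circOps (n + 1)).length = _
  rw [circOps_length]
  omega

theorem circ_card (n : ℕ) : Fintype.card (circ n).W = 6 * n + 20 := by
  change Fintype.card (Wire (n + 1)) = _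
  simp only [Fintype.card_sum, Fintype.card_fin]
  omega

theorem count_op {W : Type} (l : List (CG W)) : (l.map CG.op).countP QOp.isQuery = 0 := by
  rw [List.countP_eq_zero]
  intro a ha
  rw [List.mem_map] at ha
  obtain ⟨g, _, rfl⟩ := ha
  simp [CG.op, QOp.isQuery]

theorem circOps_queries (m : ℕ) : (circOps m).countP QOp.isQuery = 3 := by
  simp only [circOps, List.countP_append, List.countP_cons, count_op]
  simp [QOp.isQuery]

theorem circ_queries (n : ℕ) : (circ n).ops.countP QOp.isQuery = 3 := circOps_queries (n + 1)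

theorem circOps_query_eq (m : ℕ) (l : List (Wire m)) (h : QOp.query l ∈ circOps m) :
    l = wQ m := by
  have hno : ∀ L : List (CG (Wire m)), QOp.query l ∉ L.map CG.op := by
    intro L h
    rw [List.mem_map] at h
    obtain ⟨g, _, h2⟩ := h
    exact absurd h2 (by simp [CG.op])
  unfold circOps at h
  simp only [List.mem_append, List.mem_cons, QOp.query.injEq] at h
  rcases h with h | h | h | h | h | h | h
  · exact absurd h (hno _)
  · exact h
  · exact absurd h (hno _)
  · exact h
  · exact absurd h (hno _)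
  · exact h
  · exact absurd h (hno _)

theorem wQ_length (m : ℕ) : (wQ m).length = 3 * m + 7 := by
  simp [wQ]

theorem circ_query_length (n : ℕ) (l : List (circ n).W) (h : QOp.query l ∈ (circ n).ops) :
    l.length = 3 * n + 10 := by
  have h2 : l = wQ (n + 1) := circOps_query_eq (n + 1) l h
  rw [h2]
  refine (wQ_length (n + 1)).trans ?_
  omega

end Pool.Agent.Helper67.EQP
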