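import Pool.Agent.Helper67.EQP.CStage
import Pool.Agent.Helper67.EQP.QCount

set_option autoImplicit false
set_option linter.unusedSectionVars false

/-!
The circuits reading a code.
-/

namespace Pool.Agent.Helper67.EQP

open Finset Function

/-- The gate writing one symbol of the code. -/
def wgate (κ : List Bool) (l : Fin κ.length) : CG (CWire κ) :=
  ⟨fun _ _ => κ.get l, gX, wires (Sum.inr wZ) (Sum.inr wC) (Sum.inl l) (by simp [wZ, wC])⟩

theorem write_eq (κ : List Bool) : write κ = (List.finRange κ.length).map (wgate κ) := rfl

/-- The basis state with the code written. -/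
def bk (κ : List Bool) : CWire κ → Bool := Sum.elim κ.get (fun _ => false)

theorem write_foldr (κ : List Bool) (ls : List (Fin κ.length)) (hls : ls.Nodup)
    (b : CWire κ → Bool) : (ls.map (wgate κ)).foldr (fun g b => g.step b) b =
      Sum.elim (fun l => if l ∈ ls then xor (b (Sum.inl l)) (κ.get l) else b (Sum.inl l))
        (fun w => b (Sum.inr w)) := by
  induction ls with
  | nil =>
    funext w
    rcases w with l | w <;> simp
  | cons l ls ih =>
    rw [List.nodup_cons] at hls
    rw [List.map_cons, List.foldr_cons, ih hls.2]
    set E : CWire κ → Bool := Sum.elim (fun l =>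
      if l ∈ ls then xor (b (Sum.inl l)) (κ.get l) else b (Sum.inl l))
        (fun w => b (Sum.inr w)) with hE
    have hEl : E (Sum.inl l) = b (Sum.inl l) := by
      rw [hE, Sum.elim_inl, if_neg hls.1]
    change (if κ.get l = true then update E (Sum.inl l) (!(E (Sum.inl l))) else E) = _
    rw [hEl, hE]
    funext w
    rcases w with l' | w
    · by_cases hl : l' = l
      · subst hl
        cases hκ : κ.get l'
        · rw [if_neg (by simp)]
          simp only [Sum.elim_inl, hls.1, if_false, List.mem_cons, true_or, if_true]
          rw [hκ, Bool.xor_false]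
        · rw [if_pos rfl, update_self]
          simp only [Sum.elim_inl, List.mem_cons, true_or, if_true]
          rw [hκ, Bool.xor_true]
      · have h1 : (if κ.get l = true then update (Sum.elim (fun l =>
            if l ∈ ls then xor (b (Sum.inl l)) (κ.get l) else b (Sum.inl l))
            (fun w => b (Sum.inr w))) (Sum.inl l) (!(b (Sum.inl l))) else (Sum.elim (fun l =>
            if l ∈ ls then xor (b (Sum.inl l)) (κ.get l) else b (Sum.inl l))
            (fun w => b (Sum.inr w)))) (Sum.inl l') =
            if l' ∈ ls then xor (b (Sum.inl l')) (κ.get l') else b (Sum.inl l') := by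
          split_ifs with h2 h3 h3
          · rw [update_of_ne (by simpa using hl), Sum.elim_inl, if_pos h3]
          · rw [update_of_ne (by simpa using hl), Sum.elim_inl, if_neg h3]
          · rw [Sum.elim_inl, if_pos h3]
          · rw [Sum.elim_inl, if_neg h3]
        rw [h1]
        simp only [Sum.elim_inl, List.mem_cons, hl, false_or]
    · have h1 : (if κ.get l = true then update (Sum.elim (fun l =>
            if l ∈ ls then xor (b (Sum.inl l)) (κ.get l) else b (Sum.inl l))
            (fun w => b (Sum.inr w))) (Sum.inl l) (!(b (Sum.inl l))) else (Sum.elim (fun l =>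
            if l ∈ ls then xor (b (Sum.inl l)) (κ.get l) else b (Sum.inl l))
            (fun w => b (Sum.inr w)))) (Sum.inr w) = b (Sum.inr w) := by
          split_ifs with h2
          · rw [update_of_ne (by simp), Sum.elim_inr]
          · rw [Sum.elim_inr]
      rw [h1, Sum.elim_inr]

theorem aps_write (κ : List Bool) :
    aps (write κ) (dl (fun _ => false)) = dl (bk κ) := by
  funext b
  rw [aps_of_X (write κ) (by
    intro g hg
    rw [write_eq, List.mem_map] at hg
    obtain ⟨l, _, rfl⟩ := hg
    rfl), write_eq, write_foldr κ _ (List.nodup_finRange _)]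
  unfold dl
  have h : (Sum.elim (fun l => if l ∈ List.finRange κ.length then xor (b (Sum.inl l)) (κ.get l)
      else b (Sum.inl l)) (fun w => b (Sum.inr w)) = fun _ => false) ↔ b = bk κ := by
    constructor
    · intro h
      funext w
      have h1 := congrFun h w
      rcases w with l | w
      · simp only [Sum.elim_inl, List.mem_finRange, if_true] at h1
        change _ = κ.get l
        revert h1
        cases b (Sum.inl l) <;> cases κ.get l <;> simp
      · exact h1
    · rintro rfl
      funext w
      rcases w with l | w
      · simp only [Sum.elim_inl, List.mem_finRange, if_true]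
        change xor (κ.get l) (κ.get l) = false
        simp
      · rfl
  by_cases hb : b = bk κ
  · rw [if_pos hb, if_pos (h.mpr hb)]
  · rw [if_neg hb, if_neg (fun h' => hb (h.mp h'))]

theorem cfg_inr (κ : List Bool) (a : B0 (par κ) × Bool) (w : Wire (par κ)) :
    cfg (Embedding.inr : Wire (par κ) ↪ CWire κ) (bk κ) a (Sum.inr w) = cfg0 a w :=
  cfg_e (Embedding.inr : Wire (par κ) ↪ CWire κ) (bk κ) a w

theorem cfg_inl (κ : List Bool) (a : B0 (par κ) × Bool) (l : Fin κ.length) :
    cfg (Embedding.inr : Wire (par κ) ↪ CWire κ) (bk κ) a (Sum.inl l) = κ.get l := by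
  unfold cfg
  rw [extend_apply']
  · rfl
  · rintro ⟨w, hw⟩
    exact absurd hw (by simp)

theorem cQ_map (κ : List Bool) (a : B0 (par κ) × Bool) :
    (cQ κ).map (cfg (Embedding.inr : Wire (par κ) ↪ CWire κ) (bk κ) a) = bstr κ a := by
  unfold cQ bstr
  rw [List.map_cons, List.map_append, List.map_map, List.map_map, cfg_inr]
  have h1 : (cfg (Embedding.inr : Wire (par κ) ↪ CWire κ) (bk κ) a ∘ Sum.inl) = κ.get := by
    funext l
    exact cfg_inl κ a l
  have h2 : (cfg (Embedding.inr : Wire (par κ) ↪ CWire κ) (bk κ) a ∘ Sum.inr) = cfg0 a := by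
    funext w
    exact cfg_inr κ a w
  rw [h1, h2, List.map_get_finRange]
  rfl

/-- Acceptance probability of the circuits. -/
theorem kcirc_acceptProb (κ : List Bool) (B : List Bool → Bool) (x : Idx (par κ) → Bool)
    (hq : ∀ a : B0 (par κ) × Bool, B (bstr κ a) = true ↔
      ∃ i, posn (par κ) a = some i ∧ x i = true) :
    (kcirc κ).acceptProb B = (algo (par κ) 1 true).acceptProb x := by
  have h1 : (kcirc κ).state B = lift (Embedding.inr : Wire (par κ) ↪ CWire κ) (bk κ)
      (mH.mulVec ((mC (qmat (par κ))).mulVec
        (fun b => phr (par κ) x b * rs (qmat (par κ)) (psi0 (par κ)) (phr (par κ) x)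
          (2 * 1) b))) := by
    have h2 : (kcirc κ).state B = ((write κ).map CG.op ++
        core (par κ) (Embedding.inr : Wire (par κ) ↪ CWire κ) (cQ κ)).foldl
        (fun ψ o => o.run B ψ) (dl (fun _ => false)) := rfl
    rw [h2, List.foldl_append, foldl_ops, aps_write]
    exact core_state (fun _ => rfl) B (cQ κ) x (fun a => by rw [cQ_map]; exact hq a)
  unfold QCircuit.acceptProb
  rw [h1, algo_acceptProb]
  exact sum_accept (e := (Embedding.inr : Wire (par κ) ↪ CWire κ)) (β := bk κ) _

section count

theorem bas_map {W' W : Type} {e : W' ↪ W} {L : List (CG W')} (hL : ∀ g ∈ L, g.Bas) :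
    ∀ g ∈ L.map (CG.map e), g.Bas := by
  intro g hg
  rw [List.mem_map] at hg
  obtain ⟨g', hg', rfl⟩ := hg
  exact hL g' hg'

theorem bas_write (κ : List Bool) : ∀ g ∈ write κ, g.Bas := by
  intro g hg
  rw [write_eq, List.mem_map] at hg
  obtain ⟨l, _, rfl⟩ := hg
  exact ⟨4, rfl⟩

/-- The operations of the circuit. -/
noncomputable def kops (κ : List Bool) : List (QOp (CWire κ)) :=
  (write κ).map CG.op ++ core (par κ) Function.Embedding.inr (cQ κ)

theorem kops_gates (κ : List Bool) (U : Matrix (Fin 3 → Bool) (Fin 3 → Bool) ℂ)
    (e : Fin 3 ↪ CWire κ) (h : QOp.gate U e ∈ kops κ) : U ∈ gateSet := by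
  unfold kops core at h
  simp only [List.mem_append, List.mem_cons, reduceCtorEq, false_or] at h
  rcases h with h | h | h | h | h
  · exact CG.Bas.op (bas_write κ) h
  · exact CG.Bas.op (bas_map (bas_prep _)) h
  · exact CG.Bas.op (bas_map (bas_one _)) h
  · exact CG.Bas.op (bas_map (bas_reflect _)) h
  · exact CG.Bas.op (bas_map (bas_two _)) h

theorem kops_query (κ : List Bool) (l : List (CWire κ)) (h : QOp.query l ∈ kops κ) :
    l.length = 13 * κ.length + 20 := by
  have hno : ∀ L : List (CG (CWire κ)), QOp.query l ∉ L.map CG.op := by
    intro L h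
    rw [List.mem_map] at h
    obtain ⟨g, _, h2⟩ := h
    exact absurd h2 (by simp [CG.op])
  have h2 : l = cQ κ := by
    unfold kops core at h
    simp only [List.mem_append, List.mem_cons, QOp.query.injEq] at h
    rcases h with h | h | h | h | h | h | h | h
    · exact absurd h (hno _)
    · exact absurd h (hno _)
    · exact h
    · exact absurd h (hno _)
    · exact h
    · exact absurd h (hno _)
    · exact h
    · exact absurd h (hno _)
  rw [h2]
  unfold cQ
  rw [List.length_cons, List.length_append, List.length_map, List.length_map, wQ_length,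
    List.length_finRange]
  have : par κ = 4 * κ.length + 4 := rfl
  omega

theorem kops_queries (κ : List Bool) : (kops κ).countP QOp.isQuery = 3 := by
  simp only [kops, core, List.countP_append, List.countP_cons, count_op]
  simp [QOp.isQuery]

theorem kops_length (κ : List Bool) : (kops κ).length = 109 * κ.length + 158 := by
  simp only [kops, core, write_eq, List.length_append, List.length_cons, List.length_map,
    List.length_nil, length_prep, length_trans, length_reflect, List.length_finRange]
  have : par κ = 4 * κ.length + 4 := rfl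
  omega

theorem kcard (κ : List Bool) : Fintype.card (CWire κ) = 25 * κ.length + 38 := by
  simp only [Fintype.card_sum, Fintype.card_fin]
  have : par κ = 4 * κ.length + 4 := rfl
  omega

end count

end Pool.Agent.Helper67.EQP
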