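import Pool.Agent.Helper67.EQP.QDefs

set_option autoImplicit false

/-!
# The explicit circuits
-/

namespace Pool.Agent.Helper67.EQP

/-- Three distinct wires. -/
def wires {W : Type} (w1 w2 w3 : W) (h : w1 ≠ w2 ∧ w1 ≠ w3 ∧ w2 ≠ w3) : Fin 3 ↪ W :=
  ⟨![w1, w2, w3], by
    obtain ⟨h12, h13, h23⟩ := h
    intro i j h
    fin_cases i <;> fin_cases j <;> simp_all⟩

/-- A one-qubit matrix `G` on the third wire, controlled by the condition `f` on the first two. -/
structure CG (W : Type) where
  f : Bool → Bool → Bool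
  G : Bool → Bool → ℝ
  w : Fin 3 ↪ W

/-- The three-qubit matrix. -/
def cg (f : Bool → Bool → Bool) (G : Bool → Bool → ℝ) :
    Matrix (Fin 3 → Bool) (Fin 3 → Bool) ℂ := fun a b =>
  if a 0 = b 0 ∧ a 1 = b 1 then
    (if f (a 0) (a 1) then ((G (a 2) (b 2) : ℝ) : ℂ) else if a 2 = b 2 then 1 else 0) else 0

/-- The corresponding operation. -/
def CG.op {W : Type} (g : CG W) : QOp W := .gate (cg g.f g.G) g.w

/-- The transposed gate. -/
def CG.inv {W : Type} (g : CG W) : CG W := ⟨g.f, fun a b => g.G b a, g.w⟩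

/-- Hadamard matrix. -/
noncomputable def gH : Bool → Bool → ℝ := fun a b => (if a && b then -1 else 1) / Real.sqrt 2

/-- Negation. -/
def gX : Bool → Bool → ℝ := fun a b => if a = b then 0 else 1

/-- Rotation with cosine `8 / √65`. -/
noncomputable def gR : Bool → Bool → ℝ := fun a b =>
  (if a = b then 8 else if a then 1 else -1) / Real.sqrt 65

/-- The diagonal matrix `(-1, 1)`. -/
def gN : Bool → Bool → ℝ := fun a b => if a = b then (if a then 1 else -1) else 0

/-- The qubits: `wZ`, `wC`, `wP`, address qubits `wA`, and auxiliary qubits `wT`. -/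
abbrev Wire (m : ℕ) : Type := Fin 3 ⊕ (Fin (3 * m + 4) ⊕ Fin (3 * m + 7))

def wZ {m : ℕ} : Wire m := Sum.inl 0
def wC {m : ℕ} : Wire m := Sum.inl 1
def wP {m : ℕ} : Wire m := Sum.inl 2
def wA {m : ℕ} (l : Fin (3 * m + 4)) : Wire m := Sum.inr (Sum.inl l)
def wT {m : ℕ} (l : Fin (3 * m + 7)) : Wire m := Sum.inr (Sum.inr l)

/-- The first `2m + 4` address qubits. -/
def wA1 {m : ℕ} (l : Fin (2 * m + 4)) : Wire m := wA (l.castLE (by omega))

/-- The first `3m` address qubits. -/
def wA2 {m : ℕ} (l : Fin (3 * m)) : Wire m := wA (l.castLE (by omega))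

/-- `wC`, `wP` and the address qubits. -/
def wM {m : ℕ} : Fin (3 * m + 6) → Wire m := Fin.cons wC (Fin.cons wP wA)

/-- Negation of `wC`. -/
def notc (m : ℕ) : CG (Wire m) :=
  ⟨fun _ _ => true, gX, wires wZ wP wC (by simp [wZ, wC, wP])⟩

/-- Hadamard gate on `wC`. -/
noncomputable def hadc (m : ℕ) : CG (Wire m) :=
  ⟨fun _ _ => true, gH, wires wZ wP wC (by simp [wZ, wC, wP])⟩

/-- Rotation of `wP`. -/
noncomputable def rotp (m : ℕ) : CG (Wire m) :=
  ⟨fun _ _ => true, gR, wires wZ wC wP (by simp [wZ, wC, wP])⟩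

/-- Preparation of the initial state. -/
noncomputable def prep (m : ℕ) : List (CG (Wire m)) :=
  rotp m :: hadc m ::
  ((List.finRange (2 * m + 4)).map
    (fun l => ⟨fun _ b => !b, gH, wires wZ wP (wA1 l) (by simp [wZ, wP, wA1, wA])⟩) ++
  (List.finRange (3 * m)).map
    (fun l => ⟨fun _ b => b, gH, wires wZ wP (wA2 l) (by simp [wZ, wP, wA2, wA])⟩))

/-- Hadamard gates on the first `2m + 4` address qubits if `wC` is 1 and `wP` is 0. -/
noncomputable def trans (m : ℕ) : List (CG (Wire m)) :=
  (List.finRange (2 * m + 4)).map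
    (fun l => ⟨fun a b => a && !b, gH, wires wC wP (wA1 l) (by simp [wC, wP, wA1, wA])⟩)

/-- Computes on the auxiliary qubits whether `wC`, `wP` and the address qubits are all 0. -/
def ladder (m : ℕ) : List (CG (Wire m)) :=
  ⟨fun _ _ => true, gX, wires wZ wC (wT 0) (by simp [wZ, wC, wT])⟩ ::
  (List.finRange (3 * m + 6)).map
    (fun l => ⟨fun a b => a && !b, gX, wires (wT l.castSucc) (wM l) (wT l.succ) (by
      refine ⟨?_, ?_, ?_⟩
      · refine Fin.cases ?_ (Fin.cases ?_ ?_) l <;> simp [wT, wM, wC, wP, wA]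
      · simp [wT, Fin.ext_iff]
      · refine Fin.cases ?_ (Fin.cases ?_ ?_) l <;> simp [wT, wM, wC, wP, wA])⟩)

/-- The diagonal gate on the last auxiliary qubit. -/
def flip (m : ℕ) : CG (Wire m) :=
  ⟨fun _ _ => true, gN, wires wZ wC (wT (Fin.last _)) (by simp [wZ, wC, wT])⟩

/-- Reflection about the initial state. -/
noncomputable def reflect (m : ℕ) : List (CG (Wire m)) :=
  (prep m).reverse.map CG.inv ++ (ladder m ++ flip m :: (ladder m).reverse) ++ prep m

/-- The qubits from which the oracle gates read. -/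
def wQ (m : ℕ) : List (Wire m) := wZ :: wC :: wP :: (List.finRange (3 * m + 4)).map wA

/-- The operations of the circuit with parameter `m`. -/
noncomputable def circOps (m : ℕ) : List (QOp (Wire m)) :=
  (prep m).map CG.op ++ .query (wQ m) ::
    ((trans m ++ notc m :: trans m).map CG.op ++ .query (wQ m) ::
    ((reflect m).map CG.op ++ .query (wQ m) ::
    (trans m ++ [hadc m]).map CG.op))

/-- The circuit run on the input `1^n`. -/
noncomputable def circ (n : ℕ) : QCircuit where
  W := Wire (n + 1)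
  fintypeW := inferInstance
  decEqW := inferInstance
  ops := circOps (n + 1)
  out := wC

end Pool.Agent.Helper67.EQP
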