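import Pool.Agent.Helper67.EQP.Defs
import Pool.Agent.Helper67.EQP.QExp

set_option autoImplicit false

/-!
# Machines, codes, and the circuits reading a code
-/

namespace Pool.Agent.Helper67.EQP

/-- All labels of the decision tree satisfy `P`. -/
def DTree.All {ι : Type} (P : ι → Prop) : DTree ι → Prop
  | .leaf _ => True
  | .node i t0 t1 => P i ∧ t0.All P ∧ t1.All P

/-- A nondeterministic oracle machine: on an input `x` of length `n` it guesses a string of length
`time n` and then asks at most `time n` adaptive queries, each of length at most `time n`. (No
uniformity is required.) -/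
structure NMachine where
  time : ℕ → ℕ
  tree : (x : List Bool) → (Fin (time x.length) → Bool) → DTree (List Bool)
  depth_le : ∀ x y, (tree x y).depth ≤ time x.length
  short : ∀ x y, (tree x y).All (fun s => s.length ≤ time x.length)

/-- The machine accepts `x` relative to the oracle `B`. -/
def NMachine.Accepts (N : NMachine) (B : List Bool → Bool) (x : List Bool) : Prop :=
  ∃ y, (N.tree x y).eval B = true

/-- An arbitrary function of an oracle and an input `x` which depends only on the membership of the
strings of length at most `space x.length` in the oracle. -/
structure OFun where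
  space : ℕ → ℕ
  F : (List Bool → Bool) → List Bool → Bool
  loc : ∀ B B' x, (∀ s, s.length ≤ space x.length → B s = B' s) → F B x = F B' x

/-- A deterministic oracle machine, run on the inputs `1^n`: for some constant `c` it asks at most
`(t n)^c + c` adaptive queries, each of length at most `(t n)^c + c`. (No uniformity is required.)
For `t n = n` these are the machines which run in polynomial time. -/
structure DMachine (t : ℕ → ℕ) where
  c : ℕ
  tree : ℕ → DTree (List Bool)
  depth_le : ∀ n, (tree n).depth ≤ t n ^ c + c
  short : ∀ n, (tree n).All (fun s => s.length ≤ t n ^ c + c)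

/-- The machine accepts `1^n` relative to the oracle `B`. -/
def DMachine.Accepts {t : ℕ → ℕ} (M : DMachine t) (B : List Bool → Bool) (n : ℕ) : Prop :=
  (M.tree n).eval B = true

/-- The condition on the time bound `t`: for every constant `a` we have
`(t n + n)^{a log (t n + n)} < 2^n` for all large `n`; here `Nat.size` is the binary length. For
example `t n = 2^{o(√n)}`. -/
def VerySlow (t : ℕ → ℕ) : Prop :=
  ∀ a, ∃ n1, ∀ n ≥ n1, (t n + n) ^ (a * (t n + n).size) < 2 ^ n

/-- The string `1^i 0 1^T 0 x`. -/
def pcode (i T : ℕ) (x : List Bool) : List Bool :=
  List.replicate i true ++ false :: (List.replicate T true ++ false :: x)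

/-- The query which encodes the computation of the `i`-th nondeterministic machine `N` on `x`. -/
def NMachine.code (N : NMachine) (i : ℕ) (x : List Bool) : List Bool :=
  true :: pcode i (2 * N.time x.length) x

/-- The code of the computation of the `i`-th oracle function `F` on `x`. -/
def OFun.code (F : OFun) (i : ℕ) (x : List Bool) : List Bool :=
  pcode i (F.space x.length) x

/-- Transport of a gate along an embedding of the wires. -/
def CG.map {W' W : Type} (e : W' ↪ W) (g : CG W') : CG W := ⟨g.f, g.G, g.w.trans e⟩

/-- The operations of the circuits, transported along an embedding of the wires; the oracle gates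
read the wires in the list `q`. -/
noncomputable def core {W : Type} (m : ℕ) (e : Wire m ↪ W) (q : List W) : List (QOp W) :=
  ((prep m).map (CG.map e)).map CG.op ++ .query q ::
    (((trans m ++ notc m :: trans m).map (CG.map e)).map CG.op ++ .query q ::
    (((reflect m).map (CG.map e)).map CG.op ++ .query q ::
    ((trans m ++ [hadc m]).map (CG.map e)).map CG.op))

/-- The size parameter belonging to a code. -/
abbrev par (κ : List Bool) : ℕ := 4 * κ.length + 4

/-- Qubits of the circuit for the code `κ`: one for every symbol of the code, and the others. -/
abbrev CWire (κ : List Bool) : Type := Fin κ.length ⊕ Wire (par κ)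

/-- Writes the code `κ` on the first qubits. -/
def write (κ : List Bool) : List (CG (CWire κ)) :=
  (List.finRange κ.length).map (fun l => ⟨fun _ _ => κ.get l, gX,
    wires (Sum.inr wZ) (Sum.inr wC) (Sum.inl l) (by simp [wZ, wC])⟩)

/-- The qubits from which the oracle gates read. -/
def cQ (κ : List Bool) : List (CWire κ) :=
  Sum.inr wZ :: ((List.finRange κ.length).map Sum.inl ++ (wQ (par κ)).map Sum.inr)

/-- The circuit for the code `κ`. -/
noncomputable def kcirc (κ : List Bool) : QCircuit where
  W := CWire κ
  fintypeW := inferInstance
  decEqW := inferInstance
  ops := (write κ).map CG.op ++ core (par κ) Function.Embedding.inr (cQ κ)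
  out := Sum.inr wC

end Pool.Agent.Helper67.EQP
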