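import Pool.Agent.Helper67.EQP.Orac
import Pool.Agent.Helper67.EQP.CDefs

set_option autoImplicit false
set_option linter.unusedSectionVars false

/-!
Closure properties of constant depth circuits.
-/

namespace Pool.Agent.Helper67.EQP

open Finset Function Classical

section neg

variable {ι : Type} [DecidableEq ι]

theorem IsGate.neg {w : ℕ} {l : Set ((ι → Bool) → Bool)} {f : (ι → Bool) → Bool}
    (h : IsGate w l f) : IsGate w l (fun x => !f x) := by
  obtain ⟨W, hW, hg⟩ := h
  refine ⟨{a | (fun x => !a x) ∈ W}, ?_, ?_⟩
  · intro a ha
    have hnn : (fun x => !(fun x => !a x) x) = a := by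
      funext x
      simp
    rcases hW _ ha with h1 | h1 | h1
    · left
      have := h1.not
      rw [hnn] at this
      exact this
    · right; right
      exact h1
    · right; left
      rw [hnn] at h1
      exact h1
  · have hmem : ∀ a ∈ W, (fun x => !a x) ∈ {a | (fun x => !a x) ∈ W} := by
      intro a ha
      change (fun x => !(fun x => !a x) x) ∈ W
      have hnn : (fun x => !(fun x => !a x) x) = a := by
        funext x
        simp
      rw [hnn]
      exact ha
    rcases hg with hg | hg
    · right
      intro x
      constructor
      · intro hx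
        have h1 : ¬ ∀ a ∈ W, a x = true := by
          rw [← hg x]
          simpa using hx
        push Not at h1
        obtain ⟨a, ha, h2⟩ := h1
        exact ⟨_, hmem a ha, by simpa using h2⟩
      · rintro ⟨a, ha, hax⟩
        rw [Bool.not_eq_true', ← Bool.not_eq_true, hg x]
        intro h
        have := h _ ha
        simp [hax] at this
    · left
      intro x
      constructor
      · intro hx a ha
        by_contra hax
        have h1 : ¬ ∃ a ∈ W, a x = true := by
          rw [← hg x]
          simpa using hx
        apply h1
        exact ⟨_, ha, by simpa using hax⟩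
      · intro h
        rw [Bool.not_eq_true', ← Bool.not_eq_true, hg x]
        rintro ⟨a, ha, hax⟩
        have := h _ (hmem a ha)
        simp [hax] at this

theorem Comp.neg {w h s : ℕ} {f : (ι → Bool) → Bool} (hf : Comp w h s f) :
    Comp w h s (fun x => !f x) := by
  obtain ⟨s', level, g, h1, h2, h3, h4⟩ := hf
  rcases h4 with h4 | ⟨j, rfl⟩
  · exact ⟨s', level, g, h1, h2, h3, Or.inl h4.not⟩
  · refine ⟨s', level, fun j' => if j' = j then (fun x => !g j x) else g j', h1, ?_, h3,
      Or.inr ⟨j, if_pos rfl⟩⟩
    have key : ∀ j', IsGate w {a | ∃ j'', level j'' < level j' ∧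
        a = (if j'' = j then (fun x => !g j x) else g j'')} (g j') := by
      intro j'
      obtain ⟨W, hW, hg⟩ := h2 j'
      refine ⟨W, fun a ha => ?_, hg⟩
      have hnn : ∀ b : (ι → Bool) → Bool, (fun x => !(fun x => !b x) x) = b := by
        intro b
        funext x
        simp
      have hlow : ∀ b : (ι → Bool) → Bool, b ∈ {a | ∃ j'', level j'' < level j' ∧ a = g j''} →
          b ∈ {a | ∃ j'', level j'' < level j' ∧
            a = (if j'' = j then (fun x => !g j x) else g j'')} ∨
          (fun x => !b x) ∈ {a | ∃ j'', level j'' < level j' ∧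
            a = (if j'' = j then (fun x => !g j x) else g j'')} := by
        rintro b ⟨j'', hl, rfl⟩
        by_cases hj : j'' = j
        · subst hj
          right
          exact ⟨j'', hl, by rw [if_pos rfl]⟩
        · left
          exact ⟨j'', hl, by rw [if_neg hj]⟩
      rcases hW a ha with h5 | h5 | h5
      · exact Or.inl h5
      · exact Or.inr (hlow a h5)
      · right
        rcases hlow _ h5 with h6 | h6
        · exact Or.inr h6
        · rw [hnn] at h6
          exact Or.inl h6
    intro j'
    by_cases hj : j' = j
    · subst hj
      beta_reduce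
      rw [if_pos rfl]
      exact (key j').neg
    · beta_reduce
      rw [if_neg hj]
      exact key j'

theorem Comp.weak {w h s w' h' s' : ℕ} {f : (ι → Bool) → Bool} (hf : Comp w h s f) (hw : w ≤ w')
    (hh : h ≤ h') (hs : s ≤ s') : Comp w' h' s' f := by
  obtain ⟨s0, level, g, h1, h2, h3, h4⟩ := hf
  refine ⟨s0, level, g, h1.trans hs, h2.mono hw, fun j => (h3 j).trans_le hh, ?_⟩
  rcases h4 with h4 | h4
  · exact Or.inl (h4.mono hw)
  · exact Or.inr h4

end neg

section paths

/-- Decision trees as sets of accepting paths. -/
theorem DTree.paths {K : Type} (P : K → Prop) (T : DTree K) (d : ℕ) (hd : T.depth ≤ d)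
    (hP : T.All P) : ∃ (lab : (Fin d → Bool) → Fin d → Option (K × Bool))
      (acc : (Fin d → Bool) → Bool),
      (∀ b j p, lab b j = some p → P p.1) ∧
      ∀ A : K → Bool, T.eval A = true ↔
        ∃ b, acc b = true ∧ ∀ j p, lab b j = some p → A p.1 = p.2 := by
  induction T generalizing d with
  | leaf v =>
    refine ⟨fun _ _ => none, fun _ => v, fun b j p h => absurd h (by simp), fun A => ?_⟩
    simp [DTree.eval]
  | node i t0 t1 ih0 ih1 =>
    obtain ⟨d, rfl⟩ : ∃ d', d = d' + 1 := by
      simp only [DTree.depth] at hd
      exact ⟨d - 1, by omega⟩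
    simp only [DTree.depth] at hd
    obtain ⟨hPi, hP0, hP1⟩ := hP
    obtain ⟨lab0, acc0, hl0, he0⟩ := ih0 d (by omega) hP0
    obtain ⟨lab1, acc1, hl1, he1⟩ := ih1 d (by omega) hP1
    refine ⟨fun b => Fin.cases (some (i, b 0))
      (fun j => if b 0 then lab1 (Fin.tail b) j else lab0 (Fin.tail b) j),
      fun b => if b 0 then acc1 (Fin.tail b) else acc0 (Fin.tail b), ?_, ?_⟩
    · intro b j p
      refine Fin.cases ?_ (fun j => ?_) j
      · intro h
        simp only [Fin.cases_zero, Option.some.injEq] at h
        rw [← h]
        exact hPi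
      · intro h
        simp only [Fin.cases_succ] at h
        split_ifs at h
        · exact hl1 _ _ _ h
        · exact hl0 _ _ _ h
    · intro A
      simp only [DTree.eval]
      constructor
      · intro h
        by_cases hA : A i = true
        · rw [if_pos hA] at h
          obtain ⟨b, hb1, hb2⟩ := (he1 A).mp h
          refine ⟨Fin.cons true b, ?_, ?_⟩
          · simpa using hb1
          · intro j p
            refine Fin.cases ?_ (fun j => ?_) j
            · intro hp
              simp only [Fin.cases_zero, Fin.cons_zero, Option.some.injEq] at hp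
              rw [← hp]
              exact hA
            · intro hp
              simp only [Fin.cases_succ, Fin.cons_zero, if_true, Fin.tail_cons] at hp
              exact hb2 j p hp
        · rw [if_neg hA] at h
          obtain ⟨b, hb1, hb2⟩ := (he0 A).mp h
          refine ⟨Fin.cons false b, ?_, ?_⟩
          · simpa using hb1
          · intro j p
            refine Fin.cases ?_ (fun j => ?_) j
            · intro hp
              simp only [Fin.cases_zero, Fin.cons_zero, Option.some.injEq] at hp
              rw [← hp]
              simpa using hA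
            · intro hp
              simp only [Fin.cases_succ, Fin.cons_zero, Bool.false_eq_true, if_false,
                Fin.tail_cons] at hp
              exact hb2 j p hp
      · rintro ⟨b, hb1, hb2⟩
        have h0 := hb2 0 (i, b 0) (by simp)
        simp only at h0
        cases hb : b 0
        · rw [hb] at h0
          rw [if_neg (by simp [h0])]
          apply (he0 A).mpr
          refine ⟨Fin.tail b, by simpa [hb] using hb1, ?_⟩
          intro j p hp
          apply hb2 j.succ p
          simp only [Fin.cases_succ, hb, Bool.false_eq_true, if_false]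
          exact hp
        · rw [hb] at h0
          rw [if_pos h0]
          apply (he1 A).mpr
          refine ⟨Fin.tail b, by simpa [hb] using hb1, ?_⟩
          intro j p hp
          apply hb2 j.succ p
          simp only [Fin.cases_succ, hb, if_true]
          exact hp

variable {ι : Type} [DecidableEq ι]

/-- Existentially quantified decision trees over functions computed by circuits. -/
theorem Comp.np {K Y : Type} [Fintype Y] {w h s d : ℕ} (P : K → Prop) (T : Y → DTree K)
    (hd : ∀ y, (T y).depth ≤ d) (hT : ∀ y, (T y).All P) (A : (ι → Bool) → K → Bool)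
    (hA : ∀ k, P k → Comp w h s (fun x => A x k)) :
    Comp w (h + 2) (1 + Fintype.card Y * 2 ^ d * (1 + d * s))
      (fun x => decide (∃ y, (T y).eval (A x) = true)) := by
  choose lab acc hl he using fun y => DTree.paths P (T y) d (hd y) (hT y)
  have h1 : ∀ p : Y × (Fin d → Bool), Comp w (h + 1) (1 + d * s) (fun x =>
      decide (acc p.1 p.2 = true ∧ ∀ j q, lab p.1 p.2 j = some q → A x q.1 = q.2)) := by
    rintro ⟨y, b⟩
    by_cases hacc : acc y b = true
    · have h2 : ∀ j : Fin d, Comp w h s (fun x =>
          decide (∀ q, lab y b j = some q → A x q.1 = q.2)) := by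
        intro j
        rcases hlab : lab y b j with _ | ⟨k, v⟩
        · have : (fun x : ι → Bool => decide (∀ q : K × Bool, (none : Option (K × Bool)) = some q →
              A x q.1 = q.2)) = fun _ => true := by
            funext x
            simp
          rw [this]
          exact Comp.of_dtd (DTd.const w true) h s
        · have hPk : P k := hl y b j (k, v) hlab
          cases v
          · have : (fun x : ι → Bool => decide (∀ q : K × Bool, some (k, false) = some q →
              A x q.1 = q.2)) = fun x => !A x k := by
              funext x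
              cases h5 : A x k <;> simp [h5]
            rw [this]
            exact (hA k hPk).neg
          · have : (fun x : ι → Bool => decide (∀ q : K × Bool, some (k, true) = some q →
              A x q.1 = q.2)) = fun x => A x k := by
              funext x
              cases h5 : A x k <;> simp [h5]
            rw [this]
            exact hA k hPk
      have h3 := Comp.gate h2 (F := fun x => decide (acc y b = true ∧ ∀ j q, lab y b j = some q →
        A x q.1 = q.2)) (Or.inl (fun x => by simp [hacc]))
      rw [Fintype.card_fin] at h3
      exact h3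
    · have : (fun x : ι → Bool => decide (acc y b = true ∧ ∀ j q, lab y b j = some q →
          A x q.1 = q.2)) = fun _ => false := by
        funext x
        simp [hacc]
      rw [this]
      exact Comp.of_dtd (DTd.const w false) _ _
  have h4 := Comp.gate h1 (F := fun x => decide (∃ y, (T y).eval (A x) = true))
    (Or.inr (fun x => by
      simp only [decide_eq_true_eq, he, Prod.exists]))
  rw [Fintype.card_prod, Fintype.card_fun, Fintype.card_bool, Fintype.card_fin] at h4
  exact h4

/-- Decision trees over functions computed by circuits. -/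
theorem Comp.tree {K : Type} {w h s d : ℕ} (P : K → Prop) (T : DTree K)
    (hd : T.depth ≤ d) (hT : T.All P) (A : (ι → Bool) → K → Bool)
    (hA : ∀ k, P k → Comp w h s (fun x => A x k)) :
    Comp w (h + 2) (1 + 2 ^ d * (1 + d * s)) (fun x => T.eval (A x)) := by
  have h1 := Comp.np (Y := Unit) P (fun _ => T) (fun _ => hd) (fun _ => hT) A hA
  rw [Fintype.card_unit, one_mul] at h1
  have : (fun x => decide (∃ _y : Unit, T.eval (A x) = true)) = fun x => T.eval (A x) := by
    funext x
    simp
  rw [this] at h1
  exact h1

end paths

section avg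

/-- The average case lower bound, uniform over all small circuits. -/
theorem avg_comp (h m k w : ℕ) (hm : 0 < m) (hh : 0 < h) (hw : w ≤ k + 5 * m) :
    ∃ μ1 μ0 : (Idx m → Bool) → ℝ, IsDist μ1 ∧ IsDist μ0 ∧ (∀ x, ¬ Yes m x → μ1 x = 0) ∧
      (∀ x, ¬ No m x → μ0 x = 0) ∧
      ∀ f : (Idx m → Bool) → Bool, Comp w h (2 ^ k) f →
        |∑ x, μ1 x * b2 (f x) - ∑ x, μ0 x * b2 (f x)| ≤
          160 * (32 * (k + 5 * m)) ^ (h + 1) / Real.sqrt (2 ^ m) := by
  obtain ⟨μ1, μ0, h1, h0, hs1, hs0, hb⟩ := avg_fam h m k (2 ^ k) hm le_rfl
  refine ⟨μ1, μ0, h1, h0, hs1, hs0, fun f hf => ?_⟩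
  obtain ⟨s', level, g, j, a1, a2, a3, a4⟩ := hf.fam hh (by positivity)
  let level' : Fin (2 ^ k) → ℕ := fun j => if hj : (j : ℕ) < s' then level ⟨j, hj⟩ else 0
  let g' : Fin (2 ^ k) → (Idx m → Bool) → Bool := fun j =>
    if hj : (j : ℕ) < s' then g ⟨j, hj⟩ else fun _ => true
  have hfam : ACfam (k + 5 * m) level' g' := by
    intro j'
    by_cases hj : (j' : ℕ) < s'
    · have e1 : g' j' = g ⟨j', hj⟩ := dif_pos hj
      rw [e1]
      have h2 := (a2.mono hw) ⟨j', hj⟩
      apply h2.mono
      rintro _ ⟨j'', hl, rfl⟩
      have hj'' : (j'' : ℕ) < 2 ^ k := lt_of_lt_of_le j''.2 a1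
      refine ⟨⟨j'', hj''⟩, ?_, ?_⟩
      · have e2 : level' ⟨j'', hj''⟩ = level j'' := dif_pos j''.2
        have e3 : level' j' = level ⟨j', hj⟩ := dif_pos hj
        rw [e2, e3]
        exact hl
      · have e2 : g' ⟨j'', hj''⟩ = g j'' := dif_pos j''.2
        rw [e2]
    · have e1 : g' j' = fun _ => true := dif_neg hj
      rw [e1]
      exact ⟨∅, fun a ha => absurd ha (Set.notMem_empty a), Or.inl (fun x => by simp)⟩
  have hlev : ∀ j, level' j < h := by
    intro j'
    by_cases hj : (j' : ℕ) < s'
    · have e3 : level' j' = level ⟨j', hj⟩ := dif_pos hj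
      rw [e3]
      exact a3 _
    · have e3 : level' j' = 0 := dif_neg hj
      rw [e3]
      exact hh
  have hj2 : (j : ℕ) < 2 ^ k := lt_of_lt_of_le j.2 a1
  have := hb level' g' hfam hlev ⟨j, hj2⟩
  have e4 : g' ⟨j, hj2⟩ = f := (dif_pos j.2).trans a4
  rw [e4] at this
  exact this

end avg

end Pool.Agent.Helper67.EQP
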