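import Pool.Agent.Helper67.EQP.Defs

set_option autoImplicit false

/-!
# Alternating oracle machines
-/

namespace Pool.Agent.Helper67.EQP

/-- `k` alternating quantifiers over `Y`; the first one is existential if the flag is `true` and
universal if it is `false`. -/
def Alt {Y : Type} : (k : ℕ) → Bool → ((Fin k → Y) → Prop) → Prop
  | 0, _, P => P (fun i => i.elim0)
  | k + 1, true, P => ∃ y, Alt k false (fun ys => P (Fin.cons y ys))
  | k + 1, false, P => ∀ y, Alt k true (fun ys => P (Fin.cons y ys))

/-- The condition on the resource bounds `t` (time) and `k` (alternations): for every constant `a`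
we have `(t n + n)^{a (k n + 1)} < 2^n` for all large `n`. -/
def Slow (t k : ℕ → ℕ) : Prop := ∀ a, ∃ n1, ∀ n ≥ n1, (t n + n) ^ (a * (k n + 1)) < 2 ^ n

/-- An alternating oracle machine with resource bounds `t`, `k`, run on the inputs `1^n`: for some
constant `c` it guesses `c * k n` alternately quantified strings of length `(t n)^c + c`, the first
one existentially, and then asks at most `(t n)^c + c` adaptive queries to the oracle. (This is all
that matters about an alternating oracle machine whose running time is `(t n)^c + c`; no uniformity
is required, and the strings queried may be arbitrarily long.) For `t n = n` and `k n = 1` these are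
the `Σ_c`-machines which run in polynomial time. -/
structure PHMachine (t k : ℕ → ℕ) where
  c : ℕ
  tree : (n : ℕ) → (Fin (c * k n) → Fin (t n ^ c + c) → Bool) → DTree (List Bool)
  depth_le : ∀ n y, (tree n y).depth ≤ t n ^ c + c

/-- The machine accepts `1^n` relative to the oracle `A`. -/
def PHMachine.Accepts {t k : ℕ → ℕ} (M : PHMachine t k) (A : List Bool → Bool) (n : ℕ) : Prop :=
  Alt (M.c * k n) true (fun y => (M.tree n y).eval A = true)

end Pool.Agent.Helper67.EQP
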