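import Pool.Agent.Helper67.EQP.Lower
import Pool.Agent.Helper67.EQP.ODefs

set_option autoImplicit false
set_option linter.unusedSectionVars false

/-!
Building constant depth circuits from alternating quantifiers.
-/

namespace Pool.Agent.Helper67.EQP

open Finset Function Classical

variable {ι : Type} [DecidableEq ι]

theorem IsGate.mono {w : ℕ} {l1 l2 : Set ((ι → Bool) → Bool)} {f : (ι → Bool) → Bool}
    (h : IsGate w l1 f) (hl : l1 ⊆ l2) : IsGate w l2 f := by
  obtain ⟨W, hW, hg⟩ := h
  refine ⟨W, fun a ha => ?_, hg⟩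
  rcases hW a ha with h1 | h1 | h1
  · exact Or.inl h1
  · exact Or.inr (Or.inl (hl h1))
  · exact Or.inr (Or.inr (hl h1))

/-- `f` has a decision tree of depth `w` or is computed by a circuit of depth at most `h` with at
most `s` gates over decision trees of depth `w`. -/
def Comp (w h s : ℕ) (f : (ι → Bool) → Bool) : Prop :=
  ∃ (s' : ℕ) (level : Fin s' → ℕ) (g : Fin s' → (ι → Bool) → Bool), s' ≤ s ∧ ACfam w level g ∧
    (∀ j, level j < h) ∧ (DTd w f ∨ ∃ j, g j = f)

theorem Comp.of_dtd {w : ℕ} {f : (ι → Bool) → Bool} (hf : DTd w f) (h s : ℕ) : Comp w h s f :=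
  ⟨0, fun _ => 0, fun _ _ => false, Nat.zero_le _, fun j => j.elim0, fun j => j.elim0, Or.inl hf⟩

theorem Comp.mono {w h s h' s' : ℕ} {f : (ι → Bool) → Bool} (hf : Comp w h s f) (hh : h ≤ h')
    (hs : s ≤ s') : Comp w h' s' f := by
  obtain ⟨s0, level, g, h1, h2, h3, h4⟩ := hf
  exact ⟨s0, level, g, h1.trans hs, h2, fun j => (h3 j).trans_le hh, h4⟩

theorem Comp.gate {T : Type} [Fintype T] {w h s : ℕ} {f : T → (ι → Bool) → Bool}
    (hf : ∀ t, Comp w h s (f t)) {F : (ι → Bool) → Bool}
    (hF : (∀ x, F x = true ↔ ∀ t, f t x = true) ∨ (∀ x, F x = true ↔ ∃ t, f t x = true)) :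
    Comp w (h + 1) (1 + Fintype.card T * s) F := by
  choose s' level g h1 h2 h3 h4 using hf
  let G := Option (Σ t : T, Fin (s' t))
  let lev : G → ℕ := fun a => match a with
    | none => h
    | some p => level p.1 p.2
  let gg : G → (ι → Bool) → Bool := fun a => match a with
    | none => F
    | some p => g p.1 p.2
  have hcard : Fintype.card G ≤ 1 + Fintype.card T * s := by
    rw [Fintype.card_option, Fintype.card_sigma, add_comm]
    apply Nat.add_le_add_left
    calc ∑ t, Fintype.card (Fin (s' t)) ≤ ∑ _t : T, s := by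
          apply sum_le_sum
          intro t _
          rw [Fintype.card_fin]
          exact h1 t
      _ = _ := by rw [sum_const, card_univ, smul_eq_mul]
  have hgate : ∀ a : G, IsGate w {b | ∃ a', lev a' < lev a ∧ b = gg a'} (gg a) := by
    intro a
    rcases a with _ | ⟨t, j⟩
    · refine ⟨{b | ∃ t, b = f t}, ?_, ?_⟩
      · rintro _ ⟨t, rfl⟩
        rcases h4 t with h5 | ⟨j, hj⟩
        · exact Or.inl h5
        · exact Or.inr (Or.inl ⟨some ⟨t, j⟩, h3 t j, hj.symm⟩)
      · rcases hF with hF | hF
        · left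
          intro x
          change F x = true ↔ _
          rw [hF x]
          constructor
          · rintro hx _ ⟨t, rfl⟩
            exact hx t
          · intro hx t
            exact hx _ ⟨t, rfl⟩
        · right
          intro x
          change F x = true ↔ _
          rw [hF x]
          constructor
          · rintro ⟨t, ht⟩
            exact ⟨_, ⟨t, rfl⟩, ht⟩
          · rintro ⟨_, ⟨t, rfl⟩, ht⟩
            exact ⟨t, ht⟩
    · apply (h2 t j).mono
      rintro _ ⟨j', hj', rfl⟩
      exact ⟨some ⟨t, j'⟩, hj', rfl⟩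
  let e := Fintype.equivFin G
  refine ⟨Fintype.card G, fun j => lev (e.symm j), fun j => gg (e.symm j), hcard, ?_, ?_,
    Or.inr ⟨e none, ?_⟩⟩
  · intro j
    apply (hgate (e.symm j)).mono
    rintro _ ⟨a', ha', rfl⟩
    refine ⟨e a', ?_, ?_⟩
    · simpa using ha'
    · simp
  · intro j
    beta_reduce
    rcases e.symm j with _ | ⟨t, j'⟩
    · exact Nat.lt_succ_self h
    · exact (h3 t j').trans (Nat.lt_succ_self h)
  · simp [gg]

/-- Alternating quantifiers over decision trees. -/
theorem Comp.alt {Y : Type} [Fintype Y] {w : ℕ} (k : ℕ) (e : Bool)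
    (P : (Fin k → Y) → (ι → Bool) → Bool) (hP : ∀ ys, DTd w (P ys)) :
    Comp w k ((1 + Fintype.card Y) ^ k) (fun x => decide (Alt k e (fun ys => P ys x = true))) := by
  induction k generalizing e with
  | zero =>
    apply Comp.of_dtd
    have : (fun x => decide (Alt 0 e (fun ys => P ys x = true))) = P (fun i => i.elim0) := by
      funext x
      simp [Alt]
    rw [this]
    exact hP _
  | succ k ih =>
    have h1 : ∀ (e' : Bool) (y : Y), Comp w k ((1 + Fintype.card Y) ^ k)
        (fun x => decide (Alt k e' (fun ys => P (Fin.cons y ys) x = true))) := fun e' y =>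
      ih e' (fun ys => P (Fin.cons y ys)) (fun ys => hP _)
    have hsz : 1 + Fintype.card Y * (1 + Fintype.card Y) ^ k ≤ (1 + Fintype.card Y) ^ (k + 1) := by
      have : 1 ≤ (1 + Fintype.card Y) ^ k := Nat.one_le_pow _ _ (by omega)
      rw [pow_succ]
      nlinarith
    cases e with
    | true =>
      refine Comp.mono (Comp.gate (h1 false) (Or.inr ?_)) le_rfl hsz
      intro x
      simp [Alt]
    | false =>
      refine Comp.mono (Comp.gate (h1 true) (Or.inl ?_)) le_rfl hsz
      intro x
      simp [Alt]

end Pool.Agent.Helper67.EQP
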