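import Pool.Agent.Helper67.EQP.AC
import Pool.Agent.Helper67.JL.Signs

set_option autoImplicit false
set_option linter.unusedSectionVars false

/-!
Comparison of linear functionals on shallow decision trees; one small step of a random walk.
-/

namespace Pool.Agent.Helper67.EQP

open Finset Function Classical
open Pool.Agent.Helper67.JL (ex ex_mono ex_nonneg ex_add ex_mul_left ex_mul_right ex_sum ex_const)

/-- Real value of a bit. -/
def b2 (b : Bool) : ℝ := if b then 1 else 0

@[simp] theorem b2_true : b2 true = 1 := rfl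
@[simp] theorem b2_false : b2 false = 0 := rfl

theorem b2_nonneg (b : Bool) : 0 ≤ b2 b := by cases b <;> simp
theorem b2_le_one (b : Bool) : b2 b ≤ 1 := by cases b <;> simp

section functional

variable {ι : Type} [DecidableEq ι]

/-- `2^|P|` times the indicator of agreement with `σ` on `P`. -/
noncomputable def ind (P : Finset ι) (σ : ι → Bool) (z : ι → Bool) : ℝ :=
  if ∀ i ∈ P, z i = σ i then 2 ^ P.card else 0

theorem ind_insert {P : Finset ι} {i : ι} (hi : i ∉ P) (σ z : ι → Bool) (b : Bool) :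
    ind (insert i P) (update σ i b) z = if z i = b then 2 * ind P σ z else 0 := by
  unfold ind
  have h : (∀ j ∈ insert i P, z j = update σ i b j) ↔ z i = b ∧ ∀ j ∈ P, z j = σ j := by
    constructor
    · intro h
      refine ⟨by simpa using h i (mem_insert_self i P), ?_⟩
      intro j hj
      have hji : j ≠ i := fun e => hi (e ▸ hj)
      simpa [hji] using h j (mem_insert_of_mem hj)
    · rintro ⟨h1, h2⟩ j hj
      rcases mem_insert.mp hj with rfl | hj
      · simpa using h1
      · have hji : j ≠ i := fun e => hi (e ▸ hj)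
        simpa [hji] using h2 j hj
  rw [card_insert_of_notMem hi]
  by_cases hb : z i = b
  · by_cases hP : ∀ j ∈ P, z j = σ j
    · rw [if_pos (h.mpr ⟨hb, hP⟩), if_pos hb, if_pos hP, pow_succ]
      ring
    · rw [if_neg (fun h' => hP (h.mp h').2), if_pos hb, if_neg hP, mul_zero]
  · rw [if_neg (fun h' => hb (h.mp h').1), if_neg hb]

theorem dt_functional (D : ((ι → Bool) → ℝ) → ℝ)
    (hadd : ∀ F G, D (fun z => F z + G z) = D F + D G)
    (hmul : ∀ (c : ℝ) F, D (fun z => c * F z) = c * D F)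
    {κ : ℝ} {W : ℕ} (h : ∀ (P : Finset ι) (σ : ι → Bool), P.card ≤ W → |D (ind P σ)| ≤ κ)
    {w : ℕ} {f : (ι → Bool) → Bool} (hf : DTd w f) :
    ∀ (P : Finset ι) (σ : ι → Bool), P.card + w ≤ W →
      |D (fun z => ind P σ z * b2 (f z))| ≤ κ := by
  induction hf with
  | const w b =>
    intro P σ hP
    have e : (fun z => ind P σ z * b2 b) = (fun z => b2 b * ind P σ z) := by
      funext z; ring
    rw [e, hmul, abs_mul, abs_of_nonneg (b2_nonneg b)]
    have h1 := h P σ (by omega)
    calc b2 b * |D (ind P σ)| ≤ 1 * |D (ind P σ)| :=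
          mul_le_mul_of_nonneg_right (b2_le_one b) (abs_nonneg _)
      _ ≤ κ := by rw [one_mul]; exact h1
  | query w i f h0 h1 ih0 ih1 =>
    intro P σ hP
    by_cases hi : i ∈ P
    · have key : ∀ b, σ i = b → (fun z => ind P σ z * b2 (f z)) =
          (fun z => ind P σ z * b2 (f (update z i b))) := by
        intro b hb
        funext z
        unfold ind
        by_cases hz : ∀ j ∈ P, z j = σ j
        · rw [if_pos hz]
          have : update z i b = z := by
            rw [← hb, ← hz i hi, update_eq_self]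
          rw [this]
        · rw [if_neg hz, zero_mul, zero_mul]
      cases hb : σ i with
      | false =>
        rw [key false hb]
        exact ih0 P σ (by omega)
      | true =>
        rw [key true hb]
        exact ih1 P σ (by omega)
    · have e : (fun z => ind P σ z * b2 (f z)) =
          (fun z => (1 / 2 : ℝ) * (ind (insert i P) (update σ i false) z *
              b2 (f (update z i false)))
            + (1 / 2 : ℝ) * (ind (insert i P) (update σ i true) z *
              b2 (f (update z i true)))) := by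
        funext z
        rw [ind_insert hi, ind_insert hi]
        cases hz : z i with
        | false =>
          have : update z i false = z := by rw [← hz, update_eq_self]
          rw [this]
          simp
          ring
        | true =>
          have : update z i true = z := by rw [← hz, update_eq_self]
          rw [this]
          simp
          ring
      rw [e, hadd, hmul, hmul]
      have c : (insert i P).card = P.card + 1 := card_insert_of_notMem hi
      have a0 := ih0 (insert i P) (update σ i false) (by omega)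
      have a1 := ih1 (insert i P) (update σ i true) (by omega)
      rw [abs_le] at a0 a1 ⊢
      constructor <;> linarith [a0.1, a0.2, a1.1, a1.2]

theorem dt_functional' (D : ((ι → Bool) → ℝ) → ℝ)
    (hadd : ∀ F G, D (fun z => F z + G z) = D F + D G)
    (hmul : ∀ (c : ℝ) F, D (fun z => c * F z) = c * D F)
    {κ : ℝ} {w : ℕ} (h : ∀ (P : Finset ι) (σ : ι → Bool), P.card ≤ w → |D (ind P σ)| ≤ κ)
    {f : (ι → Bool) → Bool} (hf : DTd w f) : |D (fun z => b2 (f z))| ≤ κ := by
  have := dt_functional D hadd hmul h hf ∅ (fun _ => false) (by simp)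
  simpa [ind] using this

end functional

section third

/-- Third order expansion of a product. -/
theorem prod_expansion {ι : Type} [DecidableEq ι] (P : Finset ι) (t : ι → ℝ)
    (h : ∑ i ∈ P, |t i| ≤ 1 / 2) :
    |∏ i ∈ P, (1 + t i) - 1| ≤ 2 * ∑ i ∈ P, |t i| ∧
    |∏ i ∈ P, (1 + t i) - 1 - ∑ i ∈ P, t i| ≤ (∑ i ∈ P, |t i|) ^ 2 ∧
    |∏ i ∈ P, (1 + t i) - 1 - ∑ i ∈ P, t i -
      ((∑ i ∈ P, t i) ^ 2 - ∑ i ∈ P, t i ^ 2) / 2| ≤ (∑ i ∈ P, |t i|) ^ 3 := by
  induction P using Finset.induction_on with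
  | empty => simp
  | insert a P ha ih =>
    rw [sum_insert ha] at h
    have hA0 : 0 ≤ ∑ i ∈ P, |t i| := sum_nonneg fun i _ => abs_nonneg _
    obtain ⟨i1, i2, i3⟩ := ih (by linarith [abs_nonneg (t a)])
    rw [prod_insert ha, sum_insert ha, sum_insert ha, sum_insert ha]
    set Q := ∏ i ∈ P, (1 + t i)
    set A := ∑ i ∈ P, |t i|
    set e := ∑ i ∈ P, t i
    set q := ∑ i ∈ P, t i ^ 2
    have ht := abs_nonneg (t a)
    refine ⟨?_, ?_, ?_⟩
    · have : (1 + t a) * Q - 1 = (Q - 1) + t a + t a * (Q - 1) := by ring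
      rw [this]
      calc |(Q - 1) + t a + t a * (Q - 1)| ≤ |Q - 1| + |t a| + |t a| * |Q - 1| := by
            rw [← abs_mul]
            exact (abs_add_le _ _).trans (add_le_add (abs_add_le _ _) le_rfl)
        _ ≤ 2 * A + |t a| + |t a| * (2 * A) := by
            have := mul_le_mul_of_nonneg_left i1 ht
            linarith
        _ ≤ 2 * (|t a| + A) := by nlinarith
    · have : (1 + t a) * Q - 1 - (t a + e) = (Q - 1 - e) + t a * (Q - 1) := by ring
      rw [this]
      calc |(Q - 1 - e) + t a * (Q - 1)| ≤ |Q - 1 - e| + |t a| * |Q - 1| := by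
            rw [← abs_mul]
            exact abs_add_le _ _
        _ ≤ A ^ 2 + |t a| * (2 * A) := by
            have := mul_le_mul_of_nonneg_left i1 ht
            linarith
        _ ≤ (|t a| + A) ^ 2 := by nlinarith
    · have : (1 + t a) * Q - 1 - (t a + e) - ((t a + e) ^ 2 - (t a ^ 2 + q)) / 2 =
          (Q - 1 - e - (e ^ 2 - q) / 2) + t a * (Q - 1 - e) := by ring
      rw [this]
      calc |(Q - 1 - e - (e ^ 2 - q) / 2) + t a * (Q - 1 - e)|
          ≤ |Q - 1 - e - (e ^ 2 - q) / 2| + |t a| * |Q - 1 - e| := by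
            rw [← abs_mul]
            exact abs_add_le _ _
        _ ≤ A ^ 3 + |t a| * A ^ 2 := by
            have := mul_le_mul_of_nonneg_left i2 ht
            linarith
        _ ≤ (|t a| + A) ^ 3 := by
            have h3 : (|t a| + A) ^ 3 = A ^ 3 + 3 * |t a| * A ^ 2 + 3 * |t a| ^ 2 * A +
              |t a| ^ 3 := by ring
            rw [h3]
            have h4 : 0 ≤ |t a| * A ^ 2 := by positivity
            have h5 : 0 ≤ 3 * |t a| ^ 2 * A := by positivity
            have h6 : 0 ≤ |t a| ^ 3 := by positivity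
            linarith

end third

section noise

variable {ι X : Type} [Fintype ι] [DecidableEq ι] [Fintype X] [Nonempty X]

/-- A bounded, centred, almost uncorrelated random vector. -/
structure Noise (xh : X → ι → ℝ) (c2 B : ℝ) : Prop where
  mean : ∀ i, ex (fun x => xh x i) = 0
  cov : ∀ i j, i ≠ j → |ex (fun x => xh x i * xh x j)| ≤ c2
  bd : ∀ x i, |xh x i| ≤ B
  c2_nonneg : 0 ≤ c2
  B_nonneg : 0 ≤ B

theorem mext_ind (y : ι → ℝ) (P : Finset ι) (σ : ι → Bool) :
    mext y (ind P σ) = ∏ i ∈ P, (1 + sg (σ i) * y i) := by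
  have e : ind P σ = fun z => ∏ i, (if i ∈ P then (if z i = σ i then (2 : ℝ) else 0) else 1) := by
    funext z
    unfold ind
    rw [Finset.prod_ite_mem, univ_inter]
    by_cases h : ∀ i ∈ P, z i = σ i
    · rw [if_pos h, prod_congr rfl (fun i hi => if_pos (h i hi)), prod_const]
    · rw [if_neg h]
      push Not at h
      obtain ⟨i, hi, hne⟩ := h
      exact (prod_eq_zero hi (if_neg hne)).symm
  rw [e]
  unfold mext
  rw [pm_prod_fun (fun i b => (1 + sg b * y i) / 2)
    (fun i b => if i ∈ P then (if b = σ i then (2 : ℝ) else 0) else 1)]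
  have e2 : ∀ i, ∑ b : Bool, (1 + sg b * y i) / 2 *
      (if i ∈ P then (if b = σ i then (2 : ℝ) else 0) else 1) =
      if i ∈ P then (1 + sg (σ i) * y i) else 1 := by
    intro i
    rw [Fintype.sum_bool]
    by_cases hi : i ∈ P
    · simp only [if_pos hi]
      cases hs : σ i <;> simp <;> ring
    · simp only [if_neg hi]
      simp only [sg_true, sg_false]
      ring
  rw [prod_congr rfl (fun i _ => e2 i), Finset.prod_ite_mem, univ_inter]

theorem ex_abs_le (F : X → ℝ) {c : ℝ} (h : ∀ x, |F x| ≤ c) : |ex F| ≤ c := by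
  rw [abs_le]
  constructor
  · have := ex_mono (f := fun _ : X => -c) (g := F) (fun x => (abs_le.mp (h x)).1)
    rwa [ex_const] at this
  · have := ex_mono (f := F) (g := fun _ : X => c) (fun x => (abs_le.mp (h x)).2)
    rwa [ex_const] at this

/-- One small step of the noise, seen by products over few coordinates. -/
theorem noise_ind {xh : X → ι → ℝ} {c2 B : ℝ} (hN : Noise xh c2 B)
    {β : ℝ} (hβ : 0 ≤ β) {W : ℕ} (hW : W * (β * B) ≤ 1 / 2)
    (P : Finset ι) (σ : ι → Bool) (hP : P.card ≤ W) :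
    |ex (fun x => mext (fun i => β * xh x i) (ind P σ)) - 1| ≤
      W ^ 2 * (β ^ 2 * c2) + (W * (β * B)) ^ 3 := by
  simp_rw [mext_ind]
  have hPW : (P.card : ℝ) ≤ W := by exact_mod_cast hP
  have hB := hN.B_nonneg
  have hc2 := hN.c2_nonneg
  have habs : ∀ x i, |sg (σ i) * (β * xh x i)| ≤ β * B := by
    intro x i
    rw [abs_mul, abs_sg, one_mul, abs_mul, abs_of_nonneg hβ]
    exact mul_le_mul_of_nonneg_left (hN.bd x i) hβ
  have hsum : ∀ x, ∑ i ∈ P, |sg (σ i) * (β * xh x i)| ≤ W * (β * B) := by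
    intro x
    calc ∑ i ∈ P, |sg (σ i) * (β * xh x i)| ≤ ∑ i ∈ P, β * B := sum_le_sum fun i _ => habs x i
      _ = P.card * (β * B) := by rw [sum_const, nsmul_eq_mul]
      _ ≤ W * (β * B) := mul_le_mul_of_nonneg_right hPW (by positivity)
  have hR : ∀ x, |∏ i ∈ P, (1 + sg (σ i) * (β * xh x i)) - 1 - ∑ i ∈ P, sg (σ i) * (β * xh x i) -
      ((∑ i ∈ P, sg (σ i) * (β * xh x i)) ^ 2 -
        ∑ i ∈ P, (sg (σ i) * (β * xh x i)) ^ 2) / 2| ≤ (W * (β * B)) ^ 3 := by
    intro x
    refine (prod_expansion P _ ((hsum x).trans hW)).2.2.trans ?_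
    exact pow_le_pow_left₀ (sum_nonneg fun i _ => abs_nonneg _) (hsum x) 3
  have h1 : ex (fun x => ∑ i ∈ P, sg (σ i) * (β * xh x i)) = 0 := by
    rw [ex_sum]
    apply sum_eq_zero
    intro i _
    rw [ex_mul_left, ex_mul_left, hN.mean, mul_zero, mul_zero]
  have h2 : |ex (fun x => ((∑ i ∈ P, sg (σ i) * (β * xh x i)) ^ 2 -
        ∑ i ∈ P, (sg (σ i) * (β * xh x i)) ^ 2) / 2)| ≤ W ^ 2 * (β ^ 2 * c2) := by
    have e : ∀ x, ((∑ i ∈ P, sg (σ i) * (β * xh x i)) ^ 2 -
        ∑ i ∈ P, (sg (σ i) * (β * xh x i)) ^ 2) / 2 =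
        ∑ i ∈ P, ∑ j ∈ P.erase i,
          (sg (σ i) * sg (σ j) * β ^ 2 / 2) * (xh x i * xh x j) := by
      intro x
      have e1 : ∀ i ∈ P, ∑ j ∈ P.erase i,
          (sg (σ i) * sg (σ j) * β ^ 2 / 2) * (xh x i * xh x j) =
          ∑ j ∈ P, (sg (σ i) * (β * xh x i)) * (sg (σ j) * (β * xh x j)) / 2 -
            (sg (σ i) * (β * xh x i)) ^ 2 / 2 := by
        intro i hi
        rw [← add_sum_erase P _ hi]
        have : ∑ j ∈ P.erase i, (sg (σ i) * sg (σ j) * β ^ 2 / 2) * (xh x i * xh x j) =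
            ∑ j ∈ P.erase i, (sg (σ i) * (β * xh x i)) * (sg (σ j) * (β * xh x j)) / 2 := by
          apply sum_congr rfl
          intro j _
          ring
        rw [this]
        ring
      rw [sum_congr rfl e1, sum_sub_distrib, pow_two, sum_mul_sum, ← sum_div]
      simp_rw [← sum_div]
      ring
    simp_rw [e]
    rw [ex_sum]
    simp_rw [ex_sum, ex_mul_left]
    calc |∑ i ∈ P, ∑ j ∈ P.erase i, (sg (σ i) * sg (σ j) * β ^ 2 / 2) *
          ex (fun x => xh x i * xh x j)|
        ≤ ∑ i ∈ P, ∑ j ∈ P.erase i, (β ^ 2 * c2) := by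
          refine (abs_sum_le_sum_abs _ _).trans (sum_le_sum fun i _ => ?_)
          refine (abs_sum_le_sum_abs _ _).trans (sum_le_sum fun j hj => ?_)
          have hji : i ≠ j := (ne_of_mem_erase hj).symm
          rw [abs_mul, abs_div, abs_mul, abs_mul, abs_sg, abs_sg, one_mul, one_mul,
            abs_of_nonneg (by positivity : (0 : ℝ) ≤ β ^ 2), abs_of_pos (by norm_num : (0:ℝ) < 2)]
          have := hN.cov i j hji
          calc β ^ 2 / 2 * |ex fun x => xh x i * xh x j| ≤ β ^ 2 / 2 * c2 :=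
                mul_le_mul_of_nonneg_left this (by positivity)
            _ ≤ β ^ 2 * c2 := by
                have : 0 ≤ β ^ 2 * c2 := by positivity
                linarith
      _ ≤ ∑ i ∈ P, W * (β ^ 2 * c2) := by
          apply sum_le_sum
          intro i _
          rw [sum_const, nsmul_eq_mul]
          apply mul_le_mul_of_nonneg_right _ (by positivity)
          have : (P.erase i).card ≤ P.card := card_erase_le
          have : ((P.erase i).card : ℝ) ≤ P.card := by exact_mod_cast this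
          linarith
      _ = P.card * (W * (β ^ 2 * c2)) := by rw [sum_const, nsmul_eq_mul]
      _ ≤ W ^ 2 * (β ^ 2 * c2) := by
          have : (W : ℝ) ^ 2 * (β ^ 2 * c2) = W * (W * (β ^ 2 * c2)) := by ring
          rw [this]
          exact mul_le_mul_of_nonneg_right hPW (by positivity)
  have e : ∀ x, ∏ i ∈ P, (1 + sg (σ i) * (β * xh x i)) =
      (1 + ∑ i ∈ P, sg (σ i) * (β * xh x i)) +
      ((((∑ i ∈ P, sg (σ i) * (β * xh x i)) ^ 2 -
        ∑ i ∈ P, (sg (σ i) * (β * xh x i)) ^ 2) / 2) +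
      (∏ i ∈ P, (1 + sg (σ i) * (β * xh x i)) - 1 - ∑ i ∈ P, sg (σ i) * (β * xh x i) -
      ((∑ i ∈ P, sg (σ i) * (β * xh x i)) ^ 2 -
        ∑ i ∈ P, (sg (σ i) * (β * xh x i)) ^ 2) / 2)) := by
    intro x
    ring
  rw [show (fun x => ∏ i ∈ P, (1 + sg (σ i) * (β * xh x i))) = _ from funext e,
    ex_add, ex_add, ex_const, h1, ex_add]
  have h3 := ex_abs_le _ hR
  rw [add_zero, add_sub_cancel_left]
  exact (abs_add_le _ _).trans (add_le_add h2 h3)

/-- Uniform expectation. -/
theorem mext_zero_ind (P : Finset ι) (σ : ι → Bool) : mext (fun _ => 0) (ind P σ) = 1 := by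
  rw [mext_ind]
  simp

/-- One small step of the noise, seen by a shallow decision tree. -/
theorem noise_dt {xh : X → ι → ℝ} {c2 B : ℝ} (hN : Noise xh c2 B)
    {β : ℝ} (hβ : 0 ≤ β) {w : ℕ} (hW : w * (β * B) ≤ 1 / 2)
    {f : (ι → Bool) → Bool} (hf : DTd w f) :
    |ex (fun x => mext (fun i => β * xh x i) (fun z => b2 (f z))) -
      mext (fun _ => 0) (fun z => b2 (f z))| ≤ w ^ 2 * (β ^ 2 * c2) + (w * (β * B)) ^ 3 := by
  apply dt_functional' (fun F => ex (fun x => mext (fun i => β * xh x i) F) -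
    mext (fun _ => 0) F) _ _ _ hf
  · intro F G
    simp_rw [mext_add]
    rw [ex_add]
    ring
  · intro c F
    simp_rw [mext_mul_left]
    rw [ex_mul_left]
    ring
  · intro P σ hP
    rw [mext_zero_ind]
    exact noise_ind hN hβ hW P σ hP

theorem ex_pm_comm (θ : ι → Option Bool → ℝ) (F : X → (ι → Option Bool) → ℝ) :
    ex (fun x => pm θ (F x)) = pm θ (fun ρ => ex (fun x => F x ρ)) := by
  unfold pm
  rw [ex_sum]
  apply sum_congr rfl
  intro ρ _
  rw [ex_mul_left]

/-- The error of one small step for constant depth circuits. -/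
noncomputable def stepErr (h s w n : ℕ) (p c2 B β : ℝ) : ℝ :=
  (w ^ 2 * ((β / p ^ h) ^ 2 * c2) + (w * (β / p ^ h * B)) ^ 3) +
  (h * (s * (16 * p * w) ^ (w + 1))) *
    (n ^ 2 * ((β / p ^ h) ^ 2 * c2) + (n * (β / p ^ h * B)) ^ 3)

/-- One small step of the noise from the centre of the cube. -/
theorem noise_ac {xh : X → ι → ℝ} {c2 B : ℝ} (hN : Noise xh c2 B)
    {h s w : ℕ} {level : Fin s → ℕ} {g : Fin s → (ι → Bool) → Bool}
    (hAC : ACfam w level g) (hlev : ∀ j, level j < h) (hw : 0 < w) {p : ℝ} (hp : 0 < p)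
    (hpw : 16 * p * w ≤ 1)
    {β : ℝ} (hβ : 0 ≤ β) (hw2 : w * (β / p ^ h * B) ≤ 1 / 2)
    (hn2 : Fintype.card ι * (β / p ^ h * B) ≤ 1 / 2) (j : Fin s) :
    |ex (fun x => mext (fun i => β * xh x i) (fun z => b2 (g j z))) -
      mext (fun _ => 0) (fun z => b2 (g j z))| ≤ stepErr h s w (Fintype.card ι) p c2 B β := by
  have hw1 : (1 : ℝ) ≤ w := by exact_mod_cast hw
  have hp1 : p ≤ 1 := by nlinarith
  have hph : 0 < p ^ h := pow_pos hp h
  have hph1 : p ^ h ≤ 1 := pow_le_one₀ hp.le hp1
  have hβ' : 0 ≤ β / p ^ h := by positivity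
  have e1 : ∀ x, mext (fun i => β * xh x i) (fun z => b2 (g j z)) =
      pm (rw' (p ^ h)) (fun ρ => mext (fun i => (β / p ^ h) * xh x i)
        (fun z => b2 (g j (mrg ρ z)))) := by
    intro x
    refine Eq.trans ?_ (mext_scale (p ^ h) (fun i => β / p ^ h * xh x i) (fun z => b2 (g j z)))
    congr 1
    funext i
    field_simp
  have e2 : mext (fun _ => 0) (fun z => b2 (g j z)) =
      pm (rw' (p ^ h)) (fun ρ => mext (fun _ => 0) (fun z => b2 (g j (mrg ρ z)))) := by
    refine Eq.trans ?_ (mext_scale (p ^ h) (fun _ => 0) (fun z => b2 (g j z)))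
    simp
  simp_rw [e1]
  rw [e2, ex_pm_comm, ← pm_sub]
  have hnn : ∀ (i : ι) (r : Option Bool), 0 ≤ rw' (p ^ h) i r :=
    fun i r => rw'_nonneg hph.le hph1 i r
  refine (pm_abs_le _ hnn _).trans ?_
  set δ1 := (w : ℝ) ^ 2 * ((β / p ^ h) ^ 2 * c2) + (w * (β / p ^ h * B)) ^ 3 with hδ1
  set δ2 := (Fintype.card ι : ℝ) ^ 2 * ((β / p ^ h) ^ 2 * c2) +
    (Fintype.card ι * (β / p ^ h * B)) ^ 3 with hδ2
  have hB := hN.B_nonneg
  have hc2 := hN.c2_nonneg
  have hδ1n : 0 ≤ δ1 := by rw [hδ1]; positivity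
  have hδ2n : 0 ≤ δ2 := by rw [hδ2]; positivity
  have key : ∀ ρ : ι → Option Bool,
      |ex (fun x => mext (fun i => (β / p ^ h) * xh x i) (fun z => b2 (g j (mrg ρ z)))) -
        mext (fun _ => 0) (fun z => b2 (g j (mrg ρ z)))| ≤
      δ1 + δ2 * (if GoodUpTo w h level (fun j x => g j (mrg ρ x)) then 0 else 1) := by
    intro ρ
    by_cases hρ : GoodUpTo w h level (fun j x => g j (mrg ρ x))
    · rw [if_pos hρ, mul_zero, add_zero]
      exact noise_dt hN hβ' hw2 (hρ j (hlev j))
    · rw [if_neg hρ, mul_one]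
      have := noise_dt hN hβ' hn2 (DTd.all (fun z => g j (mrg ρ z)))
      linarith
  refine (pm_mono _ hnn key).trans ?_
  rw [pm_add, pm_const _ (fun i => rw'_sum _ i), pm_mul_left]
  have hs := ac_switch hAC hw hp hpw h
  unfold stepErr
  rw [← hδ1, ← hδ2]
  have := mul_le_mul_of_nonneg_left hs hδ2n
  linarith

/-- One small step of the noise from an arbitrary point of the cube. -/
theorem noise_ac_cube {xh : X → ι → ℝ} {c2 B : ℝ} (hN : Noise xh c2 B)
    {h s w : ℕ} {level : Fin s → ℕ} {g : Fin s → (ι → Bool) → Bool}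
    (hAC : ACfam w level g) (hlev : ∀ j, level j < h) (hw : 0 < w) {p : ℝ} (hp : 0 < p)
    (hpw : 16 * p * w ≤ 1)
    {β : ℝ} (hβ : 0 ≤ β) (hw2 : w * (β / p ^ h * B) ≤ 1 / 2)
    (hn2 : Fintype.card ι * (β / p ^ h * B) ≤ 1 / 2) (j : Fin s)
    (a : ι → ℝ) (ha : ∀ i, |a i| ≤ 1) :
    |ex (fun x => mext (fun i => a i + (1 - |a i|) * (β * xh x i)) (fun z => b2 (g j z))) -
      mext a (fun z => b2 (g j z))| ≤ stepErr h s w (Fintype.card ι) p c2 B β := by
  let θ : ι → Option Bool → ℝ := fun i r =>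
    match r with
    | none => 1 - |a i|
    | some b => (|a i| + sg b * a i) / 2
  have hθ0 : ∀ i r, 0 ≤ θ i r := by
    intro i r
    rcases r with _ | b
    · change 0 ≤ 1 - |a i|
      linarith [ha i]
    · change 0 ≤ (|a i| + sg b * a i) / 2
      have h1 := neg_abs_le (a i)
      have h2 := le_abs_self (a i)
      cases b <;> simp <;> linarith
  have hθ1 : ∀ i, ∑ r, θ i r = 1 := by
    intro i
    rw [Fintype.sum_option, Fintype.sum_bool]
    change 1 - |a i| + ((|a i| + sg true * a i) / 2 + (|a i| + sg false * a i) / 2) = 1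
    simp only [sg_true, sg_false]
    ring
  have e1 : ∀ x, mext (fun i => a i + (1 - |a i|) * (β * xh x i)) (fun z => b2 (g j z)) =
      pm θ (fun ρ => mext (fun i => β * xh x i) (fun z => b2 (g j (mrg ρ z)))) := by
    intro x
    apply mext_restrict
    intro i b
    change _ = (|a i| + sg b * a i) / 2 + (1 - |a i|) * ((1 + sg b * (β * xh x i)) / 2)
    ring
  have e2 : mext a (fun z => b2 (g j z)) =
      pm θ (fun ρ => mext (fun _ => 0) (fun z => b2 (g j (mrg ρ z)))) := by
    apply mext_restrict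
    intro i b
    change _ = (|a i| + sg b * a i) / 2 + (1 - |a i|) * ((1 + sg b * 0) / 2)
    ring
  simp_rw [e1]
  rw [e2, ex_pm_comm, ← pm_sub]
  refine (pm_abs_le _ hθ0 _).trans ?_
  refine (pm_mono _ hθ0 (fun ρ => noise_ac hN (hAC.restrict ρ) hlev hw hp hpw hβ hw2 hn2 j)).trans ?_
  rw [pm_const _ hθ1]

end noise

end Pool.Agent.Helper67.EQP
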