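import Pool.Agent.Helper67.EQP.CWorld

set_option autoImplicit false
set_option linter.unusedSectionVars false

/-!
The hybrid argument.
-/

namespace Pool.Agent.Helper67.EQP

open Finset Function Classical

section EE

/-- Average over the contents of the blocks with the codes in the list. -/
noncomputable def EE (μ : (κ : List Bool) → (Idx (par κ) → Bool) → ℝ) (g : Cont → ℝ) :
    List (List Bool) → Cont → ℝ
  | [], X => g X
  | κ :: ks, X => ∑ z, μ κ z * EE μ g ks (update X κ z)

variable {μ : (κ : List Bool) → (Idx (par κ) → Bool) → ℝ} {g : Cont → ℝ}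

theorem EE_congr {b : ℕ} (hg : ∀ X X' : Cont, (∀ κ, κ.length ≤ b → X κ = X' κ) → g X = g X')
    (ks : List (List Bool)) :
    ∀ X X' : Cont, (∀ κ, κ ∉ ks → κ.length ≤ b → X κ = X' κ) → EE μ g ks X = EE μ g ks X' := by
  induction ks with
  | nil =>
    intro X X' h
    exact hg X X' (fun κ hκ => h κ (by simp) hκ)
  | cons κ ks ih =>
    intro X X' h
    unfold EE
    apply sum_congr rfl
    intro z _
    rw [ih (update X κ z) (update X' κ z)]
    intro κ' hκ' hl
    by_cases hk : κ' = κ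
    · subst hk
      rw [update_self, update_self]
    · rw [update_of_ne hk, update_of_ne hk]
      exact h κ' (by simp [hk, hκ']) hl

theorem EE_diff (hμ : ∀ κ, IsDist (μ κ)) {κ : List Bool} {μ1 : (Idx (par κ) → Bool) → ℝ}
    {ε : ℝ} (hd : ∀ X : Cont, |∑ y, μ1 y * g (update X κ y) - ∑ z, μ κ z * g (update X κ z)| ≤ ε)
    (ks : List (List Bool)) (hks : κ ∉ ks) (X : Cont) :
    |∑ y, μ1 y * EE μ g ks (update X κ y) - ∑ z, μ κ z * EE μ g ks (update X κ z)| ≤ ε := by
  induction ks generalizing X with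
  | nil => exact hd X
  | cons κ' ks ih =>
    have hne : κ ≠ κ' := fun h => hks (by simp [h])
    have hks' : κ ∉ ks := fun h => hks (by simp [h])
    have hcomm : ∀ y z', update (update X κ y) κ' z' = update (update X κ' z') κ y :=
      fun y z' => update_comm hne y z' X
    have h1 : ∀ ν : (Idx (par κ) → Bool) → ℝ,
        ∑ y, ν y * EE μ g (κ' :: ks) (update X κ y) =
        ∑ z', μ κ' z' * ∑ y, ν y * EE μ g ks (update (update X κ' z') κ y) := by
      intro ν
      have : ∀ y, ν y * EE μ g (κ' :: ks) (update X κ y) =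
          ∑ z', μ κ' z' * (ν y * EE μ g ks (update (update X κ' z') κ y)) := by
        intro y
        change ν y * (∑ z', μ κ' z' * EE μ g ks (update (update X κ y) κ' z')) = _
        rw [mul_sum]
        apply sum_congr rfl
        intro z' _
        rw [hcomm]
        ring
      simp_rw [this]
      rw [sum_comm]
      apply sum_congr rfl
      intro z' _
      rw [mul_sum]
    rw [h1, h1, ← sum_sub_distrib]
    simp_rw [← mul_sub]
    calc |∑ z', μ κ' z' * (∑ y, μ1 y * EE μ g ks (update (update X κ' z') κ y) -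
          ∑ y, μ κ y * EE μ g ks (update (update X κ' z') κ y))|
        ≤ ∑ z', |μ κ' z' * (∑ y, μ1 y * EE μ g ks (update (update X κ' z') κ y) -
          ∑ y, μ κ y * EE μ g ks (update (update X κ' z') κ y))| := abs_sum_le_sum_abs _ _
      _ ≤ ∑ z', μ κ' z' * ε := by
          apply sum_le_sum
          intro z' _
          rw [abs_mul, abs_of_nonneg ((hμ κ').1 z')]
          exact mul_le_mul_of_nonneg_left (ih hks' _) ((hμ κ').1 z')
      _ = ε := by rw [← sum_mul, (hμ κ').2, one_mul]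

theorem dist_near {Ω : Type} [Fintype Ω] {ν : Ω → ℝ} (hν : IsDist ν) {P : Ω → Prop}
    (hP : ∀ x, ¬ P x → ν x = 0) {f : Ω → ℝ} {v S : ℝ} (hf : ∀ x, P x → |f x - v| ≤ S) :
    |∑ x, ν x * f x - v| ≤ S := by
  have h1 : ∑ x, ν x * f x - v = ∑ x, ν x * (f x - v) := by
    simp_rw [mul_sub]
    rw [sum_sub_distrib, ← sum_mul, hν.2, one_mul]
  rw [h1]
  calc |∑ x, ν x * (f x - v)| ≤ ∑ x, |ν x * (f x - v)| := abs_sum_le_sum_abs _ _
    _ ≤ ∑ x, ν x * S := by
        apply sum_le_sum
        intro x _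
        by_cases hx : P x
        · rw [abs_mul, abs_of_nonneg (hν.1 x)]
          exact mul_le_mul_of_nonneg_left (hf x hx) (hν.1 x)
        · rw [hP x hx, zero_mul, zero_mul, abs_zero]
    _ = S := by rw [← sum_mul, hν.2, one_mul]

end EE

section lists

/-- Lists of codes sorted by length and complete above. -/
def GoodL (n b : ℕ) : List (List Bool) → Prop
  | [] => True
  | κ :: ks => κ ∉ ks ∧ n ≤ κ.length ∧ (∀ κ', κ'.length ≤ b → κ' ∉ ks → κ'.length ≤ κ.length) ∧
      GoodL n b ks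

/-- All strings of length `l`. -/
noncomputable def allS (l : ℕ) : List (List Bool) :=
  (univ : Finset (Fin l → Bool)).toList.map List.ofFn

theorem mem_allS {l : ℕ} {κ : List Bool} : κ ∈ allS l ↔ κ.length = l := by
  unfold allS
  simp only [List.mem_map, mem_toList, mem_univ, true_and]
  constructor
  · rintro ⟨f, rfl⟩
    simp
  · rintro rfl
    exact ⟨κ.get, List.ofFn_get κ⟩

theorem nodup_allS (l : ℕ) : (allS l).Nodup :=
  List.Nodup.map List.ofFn_injective (nodup_toList _)

theorem length_allS (l : ℕ) : (allS l).length = 2 ^ l := by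
  unfold allS
  rw [List.length_map, length_toList, card_univ, Fintype.card_fun, Fintype.card_bool,
    Fintype.card_fin]

theorem goodL_append {n b l : ℕ} (hn : n ≤ l) (ms ks : List (List Bool)) (hms : ms.Nodup)
    (hml : ∀ κ ∈ ms, κ.length = l) (hks : GoodL n b ks) (hkl : ∀ κ ∈ ks, l < κ.length)
    (hc : ∀ κ, l < κ.length → κ.length ≤ b → κ ∈ ks) : GoodL n b (ms ++ ks) := by
  induction ms with
  | nil => exact hks
  | cons κ ms ih =>
    rw [List.nodup_cons] at hms
    have hκ : κ.length = l := hml κ (by simp)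
    refine ⟨?_, by omega, ?_, ih hms.2 (fun κ' h => hml κ' (by simp [h]))⟩
    · intro h
      rcases List.mem_append.mp h with h | h
      · exact hms.1 h
      · have := hkl κ h
        omega
    · intro κ' hb hκ'
      rw [hκ]
      by_contra hlt
      exact hκ' (List.mem_append.mpr (Or.inr (hc κ' (by omega) hb)))

theorem exists_L (n b : ℕ) {Q : ℝ} (hQ : 0 ≤ Q) (j n' : ℕ) (h : n' + j = b + 1) (hn : n ≤ n') :
    ∃ L, GoodL n b L ∧ (∀ κ ∈ L, n' ≤ κ.length ∧ κ.length ≤ b) ∧
      (∀ κ, n' ≤ κ.length → κ.length ≤ b → κ ∈ L) ∧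
      (L.map (fun κ => Q / 4 ^ κ.length)).sum ≤ 2 * Q / 2 ^ n' := by
  induction j generalizing n' with
  | zero =>
    refine ⟨[], trivial, fun κ hκ => absurd hκ (by simp), fun κ h1 h2 => by omega, ?_⟩
    simp only [List.map_nil, List.sum_nil]
    positivity
  | succ j ih =>
    obtain ⟨L, h1, h2, h3, h4⟩ := ih (n' + 1) (by omega) (by omega)
    refine ⟨allS n' ++ L, ?_, ?_, ?_, ?_⟩
    · apply goodL_append (l := n') hn _ _ (nodup_allS n') (fun κ hκ => mem_allS.mp hκ) h1
      · intro κ hκ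
        have := h2 κ hκ
        omega
      · intro κ hκ hb
        exact h3 κ (by omega) hb
    · intro κ hκ
      rcases List.mem_append.mp hκ with hκ | hκ
      · rw [mem_allS.mp hκ]
        omega
      · have := h2 κ hκ
        omega
    · intro κ hκ hb
      rw [List.mem_append]
      rcases Nat.eq_or_lt_of_le hκ with h5 | h5
      · exact Or.inl (mem_allS.mpr h5.symm)
      · exact Or.inr (h3 κ (by omega) hb)
    · rw [List.map_append, List.sum_append]
      have e1 : ((allS n').map (fun κ => Q / 4 ^ κ.length)).sum = Q / 2 ^ n' := by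
        have e2 : (allS n').map (fun κ => Q / 4 ^ κ.length) =
            List.replicate (2 ^ n') (Q / 4 ^ n') := by
          rw [← length_allS n']
          apply List.eq_replicate_iff.mpr
          refine ⟨by rw [List.length_map], ?_⟩
          intro x hx
          rw [List.mem_map] at hx
          obtain ⟨κ, hκ, rfl⟩ := hx
          rw [mem_allS.mp hκ]
        rw [e2, List.sum_replicate, nsmul_eq_mul]
        push_cast
        have e3 : (4 : ℝ) ^ n' = 2 ^ n' * 2 ^ n' := by
          rw [← mul_pow]; norm_num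
        rw [e3]
        have e4 : (2 : ℝ) ^ n' ≠ 0 := by positivity
        field_simp
      rw [e1]
      have e5 : 2 * Q / 2 ^ (n' + 1) = Q / 2 ^ n' := by
        rw [pow_succ]
        have e4 : (2 : ℝ) ^ n' ≠ 0 := by positivity
        field_simp
      rw [e5] at h4
      have e6 : 2 * Q / 2 ^ n' = Q / 2 ^ n' + Q / 2 ^ n' := by ring
      rw [e6]
      linarith

end lists

section hybrid

variable (N : ℕ → NMachine) (F : ℕ → OFun)

theorem hyb {μ1 μ0 : (κ : List Bool) → (Idx (par κ) → Bool) → ℝ} (h1 : ∀ κ, IsDist (μ1 κ))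
    (h0 : ∀ κ, IsDist (μ0 κ)) (hs1 : ∀ κ x, ¬ Yes (par κ) x → μ1 κ x = 0)
    (hs0 : ∀ κ x, ¬ No (par κ) x → μ0 κ x = 0) {g : Cont → ℝ} {n b : ℕ} {ε : List Bool → ℝ}
    (hg : ∀ X X' : Cont, (∀ κ, κ.length ≤ b → X κ = X' κ) → g X = g X')
    (hd : ∀ κ, κ.length ≤ b → ∀ X : Cont,
      |∑ y, μ1 κ y * g (update X κ y) - ∑ z, μ0 κ z * g (update X κ z)| ≤ ε κ)
    (δ0 : (κ : List Bool) → Pair κ) (β : ℕ → Bool) {v : ℝ}
    (hv : ∀ δ : (κ : List Bool) → Pair κ, (∀ κ, κ.length < n → δ κ = δ0 κ) →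
      g (XA N F δ β) = v) (ks : List (List Bool)) (hks : GoodL n b ks)
    (hb : ∀ κ ∈ ks, κ.length ≤ b) :
    ∀ δ : (κ : List Bool) → Pair κ, (∀ κ, κ.length < n → δ κ = δ0 κ) →
      |EE μ0 g ks (XA N F δ β) - v| ≤ (ks.map ε).sum := by
  induction ks with
  | nil =>
    intro δ hδ
    change |g (XA N F δ β) - v| ≤ 0
    rw [hv δ hδ, sub_self, abs_zero]
  | cons κ ks ih =>
    intro δ hδ
    obtain ⟨g1, g2, g3, g4⟩ := hks
    have hbκ : κ.length ≤ b := hb κ (by simp)
    have IH := ih g4 (fun κ' h => hb κ' (by simp [h]))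
    set X := XA N F δ β with hX
    set S := (ks.map ε).sum with hS
    have hεκ : 0 ≤ ε κ := (abs_nonneg _).trans (hd κ hbκ X)
    -- changing the data at κ
    have hrepl : ∀ p : Pair κ, |EE μ0 g ks (update X κ (if Bit N F β X κ then p.1.1 else p.2.1)) - v|
        ≤ S := by
      intro p
      set δ' := update δ κ p with hδ'
      have hne : ∀ κ', κ' ≠ κ → δ κ' = δ' κ' := by
        intro κ' hκ'
        rw [hδ', update_of_ne hκ']
      have h2 := IH δ' (by
        intro κ' hκ'
        rw [← hne κ' (by rintro rfl; omega)]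
        exact hδ κ' hκ')
      have h3 : EE μ0 g ks (XA N F δ' β) =
          EE μ0 g ks (update X κ (if Bit N F β X κ then p.1.1 else p.2.1)) := by
        apply EE_congr hg
        intro κ' hκ' hl
        have hlen := g3 κ' hl hκ'
        by_cases hk : κ' = κ
        · subst hk
          rw [update_self, XA_spec]
          have h4 := Bit_congr N F (β := β) (β' := β) (X := XA N F δ' β) (X' := X) (κ := κ')
            rfl (fun κ'' h'' => (XA_update N F hne κ'' (by rintro rfl; omega) (by omega)).symm)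
          have h5 : δ' κ' = p := by rw [hδ', update_self]
          rw [h5]
          simp only [h4]
        · rw [update_of_ne hk]
          exact (XA_update N F hne κ' hk hlen).symm
      rw [h3] at h2
      exact h2
    have hE : EE μ0 g (κ :: ks) X = ∑ z, μ0 κ z * EE μ0 g ks (update X κ z) := rfl
    rw [hE, List.map_cons, List.sum_cons, ← hS]
    by_cases ha : Bit N F β X κ
    · have h2 : |∑ y, μ1 κ y * EE μ0 g ks (update X κ y) - v| ≤ S := by
        apply dist_near (h1 κ) (hs1 κ)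
        intro y hy
        have := hrepl (⟨y, hy⟩, (δ κ).2)
        rw [if_pos ha] at this
        exact this
      have h3 := EE_diff h0 (hd κ hbκ) ks g1 X
      have h4 : ∑ z, μ0 κ z * EE μ0 g ks (update X κ z) - v =
          (∑ y, μ1 κ y * EE μ0 g ks (update X κ y) - v) -
          (∑ y, μ1 κ y * EE μ0 g ks (update X κ y) -
            ∑ z, μ0 κ z * EE μ0 g ks (update X κ z)) := by ring
      rw [h4]
      have h5 := abs_sub (∑ y, μ1 κ y * EE μ0 g ks (update X κ y) - v)
          (∑ y, μ1 κ y * EE μ0 g ks (update X κ y) -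
            ∑ z, μ0 κ z * EE μ0 g ks (update X κ z))
      linarith
    · have h2 : |∑ z, μ0 κ z * EE μ0 g ks (update X κ z) - v| ≤ S := by
        apply dist_near (h0 κ) (hs0 κ)
        intro z hz
        have := hrepl ((δ κ).1, ⟨z, hz⟩)
        rw [if_neg ha] at this
        exact this
      linarith

/-- The two worlds cannot be separated. -/
theorem hyb_main {μ1 μ0 : (κ : List Bool) → (Idx (par κ) → Bool) → ℝ} (h1 : ∀ κ, IsDist (μ1 κ))
    (h0 : ∀ κ, IsDist (μ0 κ)) (hs1 : ∀ κ x, ¬ Yes (par κ) x → μ1 κ x = 0)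
    (hs0 : ∀ κ x, ¬ No (par κ) x → μ0 κ x = 0) {g : Cont → ℝ} {n b : ℕ} {Q : ℝ} (hQ : 0 ≤ Q)
    (hQn : 4 * Q < 2 ^ n)
    (hg : ∀ X X' : Cont, (∀ κ, κ.length ≤ b → X κ = X' κ) → g X = g X')
    (hd : ∀ κ, κ.length ≤ b → ∀ X : Cont,
      |∑ y, μ1 κ y * g (update X κ y) - ∑ z, μ0 κ z * g (update X κ z)| ≤ Q / 4 ^ κ.length)
    (δ0 : (κ : List Bool) → Pair κ) (β1 β0 : ℕ → Bool) (hβ : ∀ n' < n, β1 n' = β0 n')
    (hv1 : ∀ δ : (κ : List Bool) → Pair κ, (∀ κ, κ.length < n → δ κ = δ0 κ) →
      g (XA N F δ β1) = 1)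
    (hv0 : ∀ δ : (κ : List Bool) → Pair κ, (∀ κ, κ.length < n → δ κ = δ0 κ) →
      g (XA N F δ β0) = 0) : False := by
  obtain ⟨L, a1, a2, a3, a4⟩ : ∃ L, GoodL n b L ∧ (∀ κ ∈ L, κ.length ≤ b) ∧
      (∀ κ, n ≤ κ.length → κ.length ≤ b → κ ∈ L) ∧
      (L.map (fun κ => Q / 4 ^ κ.length)).sum ≤ 2 * Q / 2 ^ n := by
    by_cases hnb : n ≤ b + 1
    · obtain ⟨L, a1, a2, a3, a4⟩ := exists_L n b hQ (b + 1 - n) n (by omega) le_rfl
      exact ⟨L, a1, fun κ hκ => (a2 κ hκ).2, a3, a4⟩
    · refine ⟨[], trivial, fun κ hκ => absurd hκ (by simp), fun κ h1 h2 => by omega, ?_⟩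
      simp only [List.map_nil, List.sum_nil]
      positivity
  have b1 := hyb N F h1 h0 hs1 hs0 hg hd δ0 β1 hv1 L a1 a2 δ0 (fun _ _ => rfl)
  have b0 := hyb N F h1 h0 hs1 hs0 hg hd δ0 β0 hv0 L a1 a2 δ0 (fun _ _ => rfl)
  have e : EE μ0 g L (XA N F δ0 β1) = EE μ0 g L (XA N F δ0 β0) := by
    apply EE_congr hg
    intro κ hκ hl
    apply XA_congr N F (l := n) (fun _ _ => rfl) hβ κ
    by_contra hlt
    exact hκ (a3 κ (by omega) hl)
  rw [e] at b1
  have h2n : (0 : ℝ) < 2 ^ n := by positivity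
  have h3 : 2 * (2 * Q / 2 ^ n) < 1 := by
    rw [← mul_div_assoc, div_lt_one h2n]
    linarith
  have c1 := abs_le.mp b1
  have c0 := abs_le.mp b0
  linarith [c1.1, c0.2]

end hybrid

end Pool.Agent.Helper67.EQP
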