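import Pool.Agent.Helper67.EQP.Switch

set_option autoImplicit false
set_option linter.unusedSectionVars false

/-!
Families of Boolean functions computed by constant depth circuits, and the switching lemma
iterated over the levels.
-/

namespace Pool.Agent.Helper67.EQP

open Finset Function Classical

section comp

variable {ι κ : Type} [DecidableEq ι] [DecidableEq κ]

theorem DTd.zero_const {f : (ι → Bool) → Bool} (h : DTd 0 f) : ∃ b, ∀ x, f x = b := by
  cases h with
  | const _ b => exact ⟨b, fun _ => rfl⟩

theorem DTd.one_cases {f : (ι → Bool) → Bool} (h : DTd 1 f) :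
    (∃ b, ∀ x, f x = b) ∨ ∃ j c0 c1, ∀ x, f x = if x j = true then c1 else c0 := by
  cases h with
  | const _ b => exact Or.inl ⟨b, fun _ => rfl⟩
  | query _ i _ h0 h1 =>
    obtain ⟨c0, hc0⟩ := h0.zero_const
    obtain ⟨c1, hc1⟩ := h1.zero_const
    refine Or.inr ⟨i, c0, c1, fun x => ?_⟩
    cases hx : x i with
    | false =>
      have := hc0 x
      rw [← hx, update_eq_self] at this
      simp [this]
    | true =>
      have := hc1 x
      rw [← hx, update_eq_self] at this
      simp [this]

theorem DTd.upd {w : ℕ} {f : (ι → Bool) → Bool} (h : DTd w f) (i : ι) (b : Bool) :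
    DTd w (fun x => f (update x i b)) := by
  have := h.restrict (fun j => if j = i then some b else none)
  convert this using 3 with x
  funext j
  by_cases hj : j = i
  · subst hj; simp [mrg]
  · simp [mrg, hj]

theorem DTd.comp {w : ℕ} {f : (ι → Bool) → Bool} (h : DTd w f) (φ : (κ → Bool) → (ι → Bool))
    (hφ : ∀ i, DTd 1 (fun x => φ x i)) : DTd w (fun x => f (φ x)) := by
  induction h with
  | const w b => exact DTd.const w b
  | query w i f h0 h1 ih0 ih1 =>
    have ih : ∀ b, DTd w (fun x => f (update (φ x) i b)) := by
      intro b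
      cases b
      · exact ih0
      · exact ih1
    rcases (hφ i).one_cases with ⟨b, hb⟩ | ⟨j, c0, c1, hc⟩
    · have : (fun x => f (φ x)) = (fun x => f (update (φ x) i b)) := by
        funext x
        rw [← hb x, update_eq_self]
      rw [this]
      exact (ih b).mono (by omega)
    · apply DTd.query w j
      · have : (fun x => f (φ (update x j false))) =
            (fun x => (fun y => f (update (φ y) i c0)) (update x j false)) := by
          funext x
          have := hc (update x j false)
          simp only [update_self, Bool.false_eq_true, if_false] at this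
          beta_reduce
          rw [← this, update_eq_self]
        rw [this]
        exact (ih c0).upd j false
      · have : (fun x => f (φ (update x j true))) =
            (fun x => (fun y => f (update (φ y) i c1)) (update x j true)) := by
          funext x
          have := hc (update x j true)
          simp only [update_self, if_true] at this
          beta_reduce
          rw [← this, update_eq_self]
        rw [this]
        exact (ih c1).upd j true

/-- `f` is an AND or an OR of functions with decision trees of depth `w` and (possibly negated)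
functions of the set `lower`. -/
def IsGate (w : ℕ) (lower : Set ((ι → Bool) → Bool)) (f : (ι → Bool) → Bool) : Prop :=
  ∃ W : Set ((ι → Bool) → Bool),
    (∀ a ∈ W, DTd w a ∨ a ∈ lower ∨ (fun x => !a x) ∈ lower) ∧
    ((∀ x, f x = true ↔ ∀ a ∈ W, a x = true) ∨ (∀ x, f x = true ↔ ∃ a ∈ W, a x = true))

/-- The functions computed by the gates of a constant depth circuit. -/
def ACfam (w : ℕ) {s : ℕ} (level : Fin s → ℕ) (g : Fin s → (ι → Bool) → Bool) : Prop :=
  ∀ j, IsGate w {a | ∃ j', level j' < level j ∧ a = g j'} (g j)

theorem ACfam.comp {w s : ℕ} {level : Fin s → ℕ} {g : Fin s → (ι → Bool) → Bool}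
    (h : ACfam w level g) (φ : (κ → Bool) → (ι → Bool)) (hφ : ∀ i, DTd 1 (fun x => φ x i)) :
    ACfam w level (fun j x => g j (φ x)) := by
  intro j
  obtain ⟨W, hW, hg⟩ := h j
  refine ⟨(fun a x => a (φ x)) '' W, ?_, ?_⟩
  · rintro _ ⟨a, ha, rfl⟩
    rcases hW a ha with h1 | ⟨j', hj', rfl⟩ | ⟨j', hj', he⟩
    · exact Or.inl (h1.comp φ hφ)
    · exact Or.inr (Or.inl ⟨j', hj', rfl⟩)
    · refine Or.inr (Or.inr ⟨j', hj', ?_⟩)
      funext x
      exact congrFun he (φ x)
  · rcases hg with hg | hg
    · left
      intro x
      rw [hg (φ x)]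
      simp
    · right
      intro x
      rw [hg (φ x)]
      simp

theorem ACfam.mono {w w' s : ℕ} {level : Fin s → ℕ} {g : Fin s → (ι → Bool) → Bool}
    (h : ACfam w level g) (hw : w ≤ w') : ACfam w' level g := by
  intro j
  obtain ⟨W, hW, hg⟩ := h j
  refine ⟨W, fun a ha => ?_, hg⟩
  rcases hW a ha with h1 | h1
  · exact Or.inl (h1.mono hw)
  · exact Or.inr h1

end comp

section switch

variable {ι : Type} [Fintype ι] [DecidableEq ι]

theorem ACfam.restrict {w s : ℕ} {level : Fin s → ℕ} {g : Fin s → (ι → Bool) → Bool}
    (h : ACfam w level g) (ρ : ι → Option Bool) : ACfam w level (fun j x => g j (mrg ρ x)) := by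
  apply h.comp
  intro i
  rcases hρ : ρ i with _ | b
  · simpa [mrg, hρ] using DTd.lit i
  · simpa [mrg, hρ] using DTd.const 1 b

/-- A gate over functions with depth-`w` trees: it or its negation is a width-`w` DNF. -/
theorem gate_dnf {w : ℕ} (hw : 0 < w) {lower : Set ((ι → Bool) → Bool)} {f : (ι → Bool) → Bool}
    (hl : ∀ a ∈ lower, DTd w a) (hf : IsGate w lower f) :
    ∃ F : List (Term ι w), IsDNF F f ∨ IsDNF F (fun x => !f x) := by
  obtain ⟨W, hW, hg⟩ := hf
  have hWd : ∀ a ∈ W, DTd w a := by
    intro a ha
    rcases hW a ha with h | h | h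
    · exact h
    · exact hl a h
    · have := (hl _ h).not
      simpa using this
  rcases hg with hg | hg
  · -- AND gate
    obtain ⟨F, hF⟩ := dnf_of_or (w := w) (univ.filter (fun a => a ∈ W)) (fun a x => !a x)
      (fun a ha => (hWd a (by simpa using ha)).not)
    refine ⟨F, Or.inr ?_⟩
    intro x
    rw [← hF x]
    have : (!f x) = true ↔ ¬ f x = true := by simp
    rw [this, hg x]
    push Not
    simp
  · obtain ⟨F, hF⟩ := dnf_of_or (w := w) (univ.filter (fun a => a ∈ W)) (fun a x => a x)
      (fun a ha => hWd a (by simpa using ha))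
    refine ⟨F, Or.inl ?_⟩
    intro x
    rw [← hF x, hg x]
    simp

/-- Switching lemma for one gate. -/
theorem gate_switch {w : ℕ} (hw : 0 < w) {lower : Set ((ι → Bool) → Bool)}
    {f : (ι → Bool) → Bool} (hl : ∀ a ∈ lower, DTd w a) (hf : IsGate w lower f)
    {p : ℝ} (hp : 0 < p) (hpw : 16 * p * w ≤ 1) (k : ℕ) :
    pm (rw' p) (fun ρ : ι → Option Bool => if DTd k (fun x => f (mrg ρ x)) then 0 else 1) ≤
      (16 * p * w) ^ (k + 1) := by
  obtain ⟨F, hF | hF⟩ := gate_dnf hw hl hf
  · exact switching hF hw hp hpw k
  · have := switching hF hw hp hpw k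
    refine le_trans (le_of_eq ?_) this
    congr 1
    funext ρ
    have : DTd k (fun x => f (mrg ρ x)) ↔ DTd k (fun x => !f (mrg ρ x)) := by
      constructor
      · exact fun h => h.not
      · intro h
        have := h.not
        simpa using this
    by_cases h : DTd k (fun x => f (mrg ρ x))
    · rw [if_pos h, if_pos (this.mp h)]
    · rw [if_neg h, if_neg (fun h' => h (this.mpr h'))]

/-- All gates of level `< k` have shallow trees. -/
def GoodUpTo {s : ℕ} (w k : ℕ) (level : Fin s → ℕ) (g : Fin s → (ι → Bool) → Bool) : Prop :=
  ∀ j, level j < k → DTd w (g j)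

/-- Iterated switching lemma. -/
theorem ac_switch {s : ℕ} {level : Fin s → ℕ} {g : Fin s → (ι → Bool) → Bool}
    {w : ℕ} (h : ACfam w level g) (hw : 0 < w) {p : ℝ} (hp : 0 < p) (hpw : 16 * p * w ≤ 1) (k : ℕ) :
    pm (rw' (p ^ k)) (fun ρ : ι → Option Bool =>
      if GoodUpTo w k level (fun j x => g j (mrg ρ x)) then 0 else 1) ≤
      k * (s * (16 * p * w) ^ (w + 1)) := by
  have hw1 : (1 : ℝ) ≤ w := by exact_mod_cast hw
  have hp1 : p ≤ 1 := by nlinarith
  induction k with
  | zero =>
    have : (fun ρ : ι → Option Bool =>
      if GoodUpTo w 0 level (fun j x => g j (mrg ρ x)) then (0 : ℝ) else 1) = fun _ => 0 := by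
      funext ρ
      rw [if_pos]
      intro j hj
      omega
    rw [this]
    unfold pm
    simp
  | succ k ih =>
    rw [pow_succ, ← pm_rw'_comp]
    have hnn : ∀ (q : ℝ) (_ : 0 ≤ q) (_ : q ≤ 1) (i : ι) (r : Option Bool), 0 ≤ rw' q i r :=
      fun q h0 h1 i r => rw'_nonneg h0 h1 i r
    have hpk0 : 0 ≤ p ^ k := pow_nonneg hp.le k
    have hpk1 : p ^ k ≤ 1 := pow_le_one₀ hp.le hp1
    have key : ∀ ρ : ι → Option Bool,
        pm (rw' p) (fun σ : ι → Option Bool =>
          if GoodUpTo w (k + 1) level (fun j x => g j (mrg (fun i => (ρ i).or (σ i)) x))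
            then (0 : ℝ) else 1) ≤
        (if GoodUpTo w k level (fun j x => g j (mrg ρ x)) then 0 else 1) +
          s * (16 * p * w) ^ (w + 1) := by
      intro ρ
      by_cases hρ : GoodUpTo w k level (fun j x => g j (mrg ρ x))
      · rw [if_pos hρ, zero_add]
        have hb : ∀ σ : ι → Option Bool,
            (if GoodUpTo w (k + 1) level (fun j x => g j (mrg (fun i => (ρ i).or (σ i)) x))
              then (0 : ℝ) else 1) ≤
            ∑ j ∈ univ.filter (fun j => level j = k),
              (if DTd w (fun x => g j (mrg ρ (mrg σ x))) then 0 else 1) := by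
          intro σ
          by_cases hσ : ∀ j ∈ univ.filter (fun j => level j = k),
              DTd w (fun x => g j (mrg ρ (mrg σ x)))
          · rw [if_pos]
            · apply sum_nonneg
              intro j _
              split_ifs <;> norm_num
            · intro j hj
              simp_rw [← mrg_or]
              rcases Nat.lt_succ_iff_lt_or_eq.mp hj with h1 | h1
              · exact (hρ j h1).restrict σ
              · exact hσ j (by simpa using h1)
          · push Not at hσ
            obtain ⟨j, hj, hjn⟩ := hσ
            refine le_trans (b := 1) (by split_ifs <;> norm_num) ?_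
            have := single_le_sum
              (f := fun j => if DTd w (fun x => g j (mrg ρ (mrg σ x))) then (0 : ℝ) else 1)
              (fun i _ => by split_ifs <;> norm_num) hj
            beta_reduce at this
            rw [if_neg hjn] at this
            exact this
        refine (pm_mono _ (hnn p hp.le hp1) hb).trans ?_
        rw [pm_sum]
        have hone : ∀ j ∈ univ.filter (fun j => level j = k),
            pm (rw' p) (fun σ : ι → Option Bool =>
              if DTd w (fun x => g j (mrg ρ (mrg σ x))) then (0 : ℝ) else 1) ≤
              (16 * p * w) ^ (w + 1) := by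
          intro j hj
          have hlev : level j = k := by simpa using hj
          apply gate_switch (f := fun x => g j (mrg ρ x)) hw _ ((h.restrict ρ) j) hp hpw w
          rintro _ ⟨j', hj', rfl⟩
          exact hρ j' (by omega)
        refine (sum_le_sum hone).trans ?_
        rw [sum_const, nsmul_eq_mul]
        apply mul_le_mul_of_nonneg_right _ (by positivity)
        have := card_le_univ (univ.filter (fun j => level j = k))
        rw [Fintype.card_fin] at this
        exact_mod_cast this
      · rw [if_neg hρ]
        refine (pm_mono _ (hnn p hp.le hp1) (G := fun _ => 1) ?_).trans ?_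
        · intro σ
          split_ifs <;> norm_num
        · rw [pm_const _ (fun i => rw'_sum p i)]
          have : (0 : ℝ) ≤ s * (16 * p * w) ^ (w + 1) := by positivity
          linarith
    refine (pm_mono _ (hnn _ hpk0 hpk1) key).trans ?_
    rw [pm_add, pm_const _ (fun i => rw'_sum _ i)]
    push_cast
    linarith

end switch

end Pool.Agent.Helper67.EQP
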