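import Pool.Agent.Helper67.EQP.ODefs
import Pool.Agent.Helper67.EQP.CDefs

set_option autoImplicit false

/-!
# Alternating oracle machines with advice
-/

namespace Pool.Agent.Helper67.EQP

/-- An alternating oracle machine with advice and resource bounds `t` (time) and `k` (alternations):
for some constant `c`, on an input `x` of length `n` and an advice string `α` of length
`(t n)^c + c`, it guesses `c * k n` alternately quantified strings of length `(t n)^c + c`, the
first one existentially, and then asks at most `(t n)^c + c` adaptive queries to the oracle. (No
uniformity is required, and the strings queried may be arbitrarily long.) For `t n = n` and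
`k n = 1` these are the `Σ_c`-machines with advice which run in polynomial time. -/
structure AMachine (t k : ℕ → ℕ) where
  c : ℕ
  tree : (n : ℕ) → (x : Fin n → Bool) → (α : Fin (t n ^ c + c) → Bool) →
    (y : Fin (c * k n) → Fin (t n ^ c + c) → Bool) → DTree (List Bool)
  depth_le : ∀ n x α y, (tree n x α y).depth ≤ t n ^ c + c

/-- The machine accepts the input `x` with the advice `α` relative to the oracle `A`. -/
def AMachine.Accepts {t k : ℕ → ℕ} (M : AMachine t k) (A : List Bool → Bool) {n : ℕ}
    (x : Fin n → Bool) (α : Fin (t n ^ M.c + M.c) → Bool) : Prop :=
  Alt (M.c * k n) true (fun y => (M.tree n x α y).eval A = true)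

end Pool.Agent.Helper67.EQP
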