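import Pool.Agent.Helper67.EQP.AWorld

set_option autoImplicit false
set_option linter.unusedSectionVars false

/-!
The oracle against machines with advice: assembly.
-/

namespace Pool.Agent.Helper67.EQP

open Finset Function Classical
open Pool.Agent.Helper67.JL (ex ex_mono ex_nonneg ex_add ex_mul_left ex_mul_right ex_sum ex_const
  ex_equiv ex_prod)

section small

/-- All answers on `Q` are correct: the circuit in the content of one block. -/
theorem agr_comp {X : Type} [Fintype X] [DecidableEq X] (cd : X → List Bool) (f : X → Om → Bool)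
    (Q : Finset X) {w h s : ℕ} (κ : List Bool) (ω : Om) (b : Bool)
    (hf : ∀ x, Comp w h s (fun z : Idx (par κ) → Bool => f x (update ω κ (b, z)))) :
    Comp w (h + 1) (1 + Q.card * s)
      (fun z : Idx (par κ) → Bool => decide (Agr cd f Q (update ω κ (b, z)))) := by
  have hbit : ∀ x (z : Idx (par κ) → Bool), (update ω κ (b, z) (cd x)).1 =
      (update ω κ (b, fun _ => false) (cd x)).1 := by
    intro x z
    by_cases h : cd x = κ
    · rw [h, update_self, update_self]
    · rw [update_of_ne h, update_of_ne h]
  have h1 : ∀ p : {x // x ∈ Q}, Comp w h s (fun z : Idx (par κ) → Bool =>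
      decide (f p.1 (update ω κ (b, z)) = (update ω κ (b, z) (cd p.1)).1)) := by
    intro p
    simp only [hbit p.1]
    cases (update ω κ (b, fun _ => false) (cd p.1)).1
    · have : (fun z : Idx (par κ) → Bool => decide (f p.1 (update ω κ (b, z)) = false)) =
          fun z => !f p.1 (update ω κ (b, z)) := by
        funext z
        cases f p.1 (update ω κ (b, z)) <;> simp
      rw [this]
      exact (hf p.1).neg
    · have : (fun z : Idx (par κ) → Bool => decide (f p.1 (update ω κ (b, z)) = true)) =
          fun z => f p.1 (update ω κ (b, z)) := by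
        funext z
        cases f p.1 (update ω κ (b, z)) <;> simp
      rw [this]
      exact hf p.1
  have h2 := Comp.gate h1 (F := fun z : Idx (par κ) → Bool =>
    decide (Agr cd f Q (update ω κ (b, z)))) (Or.inl (fun z => by
      unfold Agr
      simp only [decide_eq_true_eq, Subtype.forall]))
  rw [Fintype.card_coe] at h2
  exact h2

theorem bern (R L : ℕ) (hR : 1 ≤ R) : (2 : ℝ) ^ L ≤ (1 + 1 / (R : ℝ)) ^ (R * L) := by
  have hR0 : (0 : ℝ) < R := by exact_mod_cast hR
  rw [pow_mul]
  apply pow_le_pow_left₀ (by norm_num)
  have h1 := one_add_mul_le_pow (a := 1 / (R : ℝ)) (by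
    have : 0 < 1 / (R : ℝ) := by positivity
    linarith) R
  have h2 : (R : ℝ) * (1 / R) = 1 := by field_simp
  linarith

/-- From domination of the two distributions to domination of the kernel. -/
theorem kern_dom {bitf : List Bool → Om → Prop}
    {μ1 μ0 : (κ : List Bool) → (Idx (par κ) → Bool) → ℝ}
    (hb : ∀ κ ω ω', (∀ κ', κ'.length < κ.length → ω κ' = ω' κ') → (ω κ).1 = (ω' κ).1 →
      (bitf κ ω ↔ bitf κ ω')) (κ : List Bool) (ω : Om)
    {G : Bool × (Idx (par κ) → Bool) → Prop} {ε δ : ℝ}
    (hd : ∀ b : Bool, ∀ μ, (μ = μ1 κ ∨ μ = μ0 κ) →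
      ∑ z, μ z * b2 (decide (G (b, z))) ≤ (1 + ε) * ex (fun z => b2 (decide (G (b, z)))) + δ) :
    ∑ v, kern bitf μ1 μ0 κ ω v * (if G v then (1 : ℝ) else 0) ≤
      (1 + ε) * ∑ v : Bool × (Idx (par κ) → Bool),
        (1 / 2 * (1 / (Fintype.card (Idx (par κ) → Bool) : ℝ))) *
          (if G v then (1 : ℝ) else 0) + δ := by
  rw [Fintype.sum_prod_type, Fintype.sum_prod_type]
  have hG : ∀ v, (if G v then (1 : ℝ) else 0) = b2 (decide (G v)) := by
    intro v
    by_cases h : G v
    · simp [h, b2]
    · simp [h, b2]
  have hbz : ∀ b z, bitf κ (update ω κ (b, z)) ↔ bitf κ (update ω κ (b, fun _ => false)) := by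
    intro b z
    apply hb
    · intro κ' hκ'
      have : κ' ≠ κ := by
        rintro rfl
        exact lt_irrefl _ hκ'
      rw [update_of_ne this, update_of_ne this]
    · rw [update_self, update_self]
  have key : ∀ b : Bool, ∑ z, kern bitf μ1 μ0 κ ω (b, z) * (if G (b, z) then (1 : ℝ) else 0) ≤
      (1 + ε) * ∑ z, (1 / 2 * (1 / (Fintype.card (Idx (par κ) → Bool) : ℝ))) *
          (if G (b, z) then (1 : ℝ) else 0) + δ / 2 := by
    intro b
    simp only [hG]
    have e1 : ∑ z, (1 / 2 * (1 / (Fintype.card (Idx (par κ) → Bool) : ℝ))) *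
        b2 (decide (G (b, z))) = 1 / 2 * ex (fun z => b2 (decide (G (b, z)))) := by
      unfold ex
      rw [← mul_sum]
      ring
    rw [e1]
    unfold kern
    simp only [hbz b]
    by_cases hB : bitf κ (update ω κ (b, fun _ => false))
    · simp only [if_pos hB]
      have e2 : ∑ z, 1 / 2 * μ1 κ z * b2 (decide (G (b, z))) =
          1 / 2 * ∑ z, μ1 κ z * b2 (decide (G (b, z))) := by
        rw [mul_sum]
        apply sum_congr rfl
        intro z _
        ring
      rw [e2]
      have := hd b (μ1 κ) (Or.inl rfl)
      linarith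
    · simp only [if_neg hB]
      have e2 : ∑ z, 1 / 2 * μ0 κ z * b2 (decide (G (b, z))) =
          1 / 2 * ∑ z, μ0 κ z * b2 (decide (G (b, z))) := by
        rw [mul_sum]
        apply sum_congr rfl
        intro z _
        ring
      rw [e2]
      have := hd b (μ0 κ) (Or.inr rfl)
      linarith
  rw [Fintype.sum_bool, Fintype.sum_bool]
  have k1 := key true
  have k0 := key false
  linarith

theorem unif_isDist (κ : List Bool) : IsDist (fun _ : Bool × (Idx (par κ) → Bool) =>
    (1 / 2 * (1 / (Fintype.card (Idx (par κ) → Bool) : ℝ)))) := by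
  constructor
  · intro v
    positivity
  · rw [sum_const, card_univ, Fintype.card_prod, Fintype.card_bool, nsmul_eq_mul]
    have : (Fintype.card (Idx (par κ) → Bool) : ℝ) ≠ 0 :=
      Nat.cast_ne_zero.mpr Fintype.card_ne_zero
    push_cast
    field_simp

theorem cmax_le {c : ℕ → ℕ} {i j : ℕ} (h : i < j) : c i ≤ cmax c j :=
  Finset.le_sup (f := c) (mem_range.mpr h)

end small

section main

variable {t k : ℕ → ℕ}

theorem exists_advice (ht : Slow t k) (M : ℕ → AMachine t k) :
    ∃ ω : Om, (∀ κ, ((ω κ).1 = true → Yes (par κ) (ω κ).2) ∧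
        (¬ (ω κ).1 = true → No (par κ) (ω κ).2)) ∧
      ∀ i b, ∃ n0, ∀ n ≥ n0, ∀ α : Fin (t n ^ (M i).c + (M i).c) → Bool,
        ((univ.filter (fun x : Fin n → Bool =>
          decide ((M i).Accepts (AX (fun κ => (ω κ).2)) x α) =
            (ω (List.ofFn x)).1)).card : ℝ) ≤
          (1 / 2 + 1 / ((t n + n : ℕ) : ℝ) ^ b) * 2 ^ n := by
  set c : ℕ → ℕ := fun i => (M i).c with hc
  obtain ⟨J, -, hJ1, hJ2⟩ := exists_rate (NCond t k c) (ncond ht c)
  -- the distributions
  have hpos : ∀ κ : List Bool, 0 < par κ := fun κ => by
    have : par κ = 4 * κ.length + 4 := rfl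
    omega
  have hex : ∀ κ : List Bool, ∃ μ1 μ0 : (Idx (par κ) → Bool) → ℝ, IsDist μ1 ∧ IsDist μ0 ∧
      (∀ x, ¬ Yes (par κ) x → μ1 x = 0) ∧ (∀ x, ¬ No (par κ) x → μ0 x = 0) ∧
      (0 < J κ.length → ∀ f : (Idx (par κ) → Bool) → Bool,
        Comp (nW t k c (J κ.length) κ.length) (nh k c (J κ.length) κ.length)
          (2 ^ nk0 t k c (J κ.length) κ.length) f →
        ∀ μ, (μ = μ1 ∨ μ = μ0) → ∑ x, μ x * b2 (f x) ≤
          (1 + 1 / (2 * 2 ^ κ.length)) * ex (fun x => b2 (f x)) +
            4 / 2 ^ nK t c (J κ.length) κ.length) := by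
    intro κ
    by_cases hJκ : 0 < J κ.length
    · obtain ⟨c1, c2, c3, c4⟩ := hJ2 κ.length hJκ
      obtain ⟨μ1, μ0, h1, h0, hs1, hs0, hb⟩ := comp_dom
        (h := nh k c (J κ.length) κ.length) (w := nW t k c (J κ.length) κ.length)
        (m := par κ) (k := nk0 t k c (J κ.length) κ.length) (K := nK t c (J κ.length) κ.length)
        (X := 5000 * 2 ^ κ.length) rfl (hpos κ) (by unfold nh; omega)
        (by
          have : 1 ≤ 2 ^ κ.length := Nat.one_le_two_pow
          omega)
        (by
          have e1 : nW t k c (J κ.length) κ.length *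
              (32 * nW t k c (J κ.length) κ.length) ^ nh k c (J κ.length) κ.length *
              (5000 * 2 ^ κ.length) ≤ 2 ^ (κ.length + 2) * 2 ^ κ.length := by
            calc _ = (nW t k c (J κ.length) κ.length *
              (32 * nW t k c (J κ.length) κ.length) ^ nh k c (J κ.length) κ.length *
              5000) * 2 ^ κ.length := by ring
              _ ≤ _ := Nat.mul_le_mul_right _ c4
          calc _ ≤ (2 ^ (κ.length + 2) * 2 ^ κ.length) ^ 2 := Nat.pow_le_pow_left e1 2
            _ = 2 ^ par κ := by
                rw [← pow_add, ← pow_mul]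
                congr 1
                change (κ.length + 2 + κ.length) * 2 = 4 * κ.length + 4
                ring)
      refine ⟨μ1, μ0, h1, h0, hs1, hs0, fun _ f hf μ hμ => ?_⟩
      refine (hb f hf μ hμ).trans (le_of_eq ?_)
      congr 3
      push_cast
      have : (2 : ℝ) ^ κ.length ≠ 0 := by positivity
      field_simp
      norm_num
    · obtain ⟨y, hy⟩ := exists_yes (hpos κ)
      obtain ⟨z, hz⟩ := exists_no (hpos κ)
      refine ⟨fun x => if x = y then 1 else 0, fun x => if x = z then 1 else 0, isDist_single y,
        isDist_single z, ?_, ?_, fun h => absurd h hJκ⟩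
      · intro x hx
        beta_reduce
        rw [if_neg]
        rintro rfl
        exact hx hy
      · intro x hx
        beta_reduce
        rw [if_neg]
        rintro rfl
        exact hx hz
  choose μ1 μ0 h1 h0 hs1 hs0 hdom using hex
  let bitf : List Bool → Om → Prop := fun κ ω => (ω κ).1 = true
  have hbl : ∀ κ (ω ω' : Om), (∀ κ', κ'.length < κ.length → ω κ' = ω' κ') →
      (ω κ).1 = (ω' κ).1 → (bitf κ ω ↔ bitf κ ω') := by
    intro κ ω ω' _ h
    change (ω κ).1 = true ↔ (ω' κ).1 = true
    rw [h]
  have hkern : ∀ κ (ω : Om) v, kern bitf μ1 μ0 κ ω v =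
      1 / 2 * (if v.1 = true then μ1 κ v.2 else μ0 κ v.2) := by
    intro κ ω v
    unfold kern
    have : bitf κ (update ω κ v) ↔ v.1 = true := by
      change (update ω κ v κ).1 = true ↔ _
      rw [update_self]
    simp only [this]
  -- horizon
  let T : ℕ → ℕ := fun n => n + 1 + (range (J n)).sup (fun i => (M i).bd n)
  have hTbd : ∀ n, ∀ i < J n, (M i).bd n ≤ T n := by
    intro n i hi
    have := Finset.le_sup (f := fun i => (M i).bd n) (mem_range.mpr hi)
    change (M i).bd n ≤ n + 1 + _
    beta_reduce at this
    omega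
  let tst : ℕ → Type := fun n => Σ i : Fin (J n), (Fin (t n ^ (M i.1).c + (M i.1).c) → Bool)
  let f : (n : ℕ) → tst n → (Fin n → Bool) → Om → Bool := fun n p x ω =>
    decide ((M p.1.1).Accepts (AX (fun κ => (ω κ).2)) x p.2)
  let cd : (n : ℕ) → (Fin n → Bool) → List Bool := fun n x => List.ofFn x
  let μ : (n : ℕ) → (κ : List Bool) → Bool × (Idx (par κ) → Bool) → ℝ := fun n κ v =>
    if κ.length = n then 1 / 2 * (1 / (Fintype.card (Idx (par κ) → Bool) : ℝ))
      else 1 / 2 * (if v.1 = true then μ1 κ v.2 else μ0 κ v.2)
  let ε : ℕ → List Bool → ℝ := fun n κ => if κ.length = n then 1 / (2 * 2 ^ n) else 0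
  let δ : ℕ → List Bool → ℝ := fun n κ => if κ.length = n then 4 / 2 ^ nK t c (J n) n else 0
  let q : ℕ → ℕ := fun n => nq t c (J n) n
  let γ : ℕ → ℝ := fun n => if 0 < J n then 1 / (nR t (J n) n : ℝ) else 0
  have hJof : ∀ n, Nonempty (tst n) → 0 < J n := by
    rintro n ⟨p⟩
    exact lt_of_le_of_lt (Nat.zero_le _) p.1.2
  have hγdef : ∀ n, 0 < J n → γ n = 1 / (nR t (J n) n : ℝ) := fun n hn => if_pos hn
  have hR1 : ∀ n, 0 < J n → (1 : ℝ) ≤ nR t (J n) n := by
    intro n hn
    exact_mod_cast (hJ2 n hn).2.1
  have hfc : ∀ κ (ω : Om) v, (fun κ' => (update ω κ v κ').2) =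
      update (fun κ' => (ω κ').2) κ v.2 := by
    intro κ ω v
    funext κ'
    by_cases h : κ' = κ
    · subst h
      rw [update_self, update_self]
    · rw [update_of_ne h, update_of_ne h]
  have hdsum : ∀ n, ((cds n (T n - n)).map (δ n)).sum = 2 ^ n * (4 / 2 ^ nK t c (J n) n) := by
    intro n
    rw [sum_cds n (T n - n) (δ n) (fun l => if l = n then 4 / 2 ^ nK t c (J n) n else 0)
      (fun κ _ _ => rfl)]
    have hTn : 0 < T n - n := by
      change 0 < n + 1 + _ - n
      omega
    rw [sum_eq_single 0]
    · simp
    · intro j _ hj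
      rw [if_neg (by omega), mul_zero]
    · intro h
      exact absurd (mem_range.mpr hTn) h
  obtain ⟨ω, hω1, hω2⟩ := core_all (bitf := bitf) (μ1 := μ1) (μ0 := μ0) h1 h0 hs1 hs0 hbl T
    (fun n => by
      change n < n + 1 + _
      omega) tst f cd (fun n => List.ofFn_injective)
    (fun n x => by
      change n ≤ (List.ofFn x).length ∧ (List.ofFn x).length < n + 1 + _
      rw [List.length_ofFn]
      omega)
    (by
      intro n p x ω ω' h
      change decide _ = decide _
      congr 1
      apply propext
      apply (M p.1.1).accepts_congr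
      intro s hs
      apply AX_congr
      intro κ hκ
      apply h
      have := hTbd n p.1.1 p.1.2
      omega) μ
    (by
      intro n κ
      by_cases hκ : κ.length = n
      · have := unif_isDist κ
        have e : μ n κ = fun _ => (1 / 2 * (1 / (Fintype.card (Idx (par κ) → Bool) : ℝ))) := by
          funext v
          exact if_pos hκ
        rw [e]
        exact this
      · have e : μ n κ = kern bitf μ1 μ0 κ (fun _ => (false, fun _ => false)) := by
          funext v
          rw [hkern]
          exact if_neg hκ
        rw [e]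
        exact kern_isDist h1 h0 hbl κ _)
    (by
      intro n x v
      change (if (List.ofFn x).length = n then _ else _) = (if (List.ofFn x).length = n then _ else _)
      rw [if_pos (List.length_ofFn ..), if_pos (List.length_ofFn ..)])
    ε δ
    (by
      intro n κ
      change 0 ≤ if κ.length = n then _ else _
      split_ifs <;> positivity)
    (by
      intro n κ
      change 0 ≤ if κ.length = n then _ else _
      split_ifs <;> positivity) q γ
    (by
      intro n
      change 0 ≤ if 0 < J n then _ else _
      split_ifs <;> positivity)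
    (by
      intro n
      by_cases hn : 0 < J n
      · rw [hγdef n hn, div_le_one (by linarith [hR1 n hn])]
        exact hR1 n hn
      · have : γ n = 0 := if_neg hn
        rw [this]
        norm_num)
    (by
      intro n hn
      have hn := hJof n hn
      rw [hγdef n hn]
      have h3 := (hJ2 n hn).2.2.1
      have h4 : (2 : ℝ) * nR t (J n) n * nq t c (J n) n ≤ 2 ^ n := by exact_mod_cast h3
      have h5 := hR1 n hn
      change (nq t c (J n) n : ℝ) ≤ _
      rw [div_div, one_div_mul_eq_div, le_div_iff₀ (by linarith)]
      linarith)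
    (by
      intro n p Q hQ κ hκ1 hκ2 ω ω'
      have hn : 0 < J n := hJof n ⟨p⟩
      by_cases hκ : κ.length = n
      · have e1 : ε n κ = 1 / (2 * 2 ^ n) := if_pos hκ
        have e2 : δ n κ = 4 / 2 ^ nK t c (J n) n := if_pos hκ
        have e3 : ∀ v, μ n κ v = 1 / 2 * (1 / (Fintype.card (Idx (par κ) → Bool) : ℝ)) :=
          fun v => if_pos hκ
        rw [e1, e2]
        simp only [e3]
        apply kern_dom hbl κ ω (G := fun v => Agr (cd n) (f n p) Q (update ω' κ v))
        intro b ν hν
        have hdκ := hdom κ (by rw [hκ]; exact hn)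
          (fun z => decide (Agr (cd n) (f n p) Q (update ω' κ (b, z)))) (by
            have hcp := agr_comp (cd n) (f n p) Q κ ω' b
              (w := t n ^ (M p.1.1).c + (M p.1.1).c) (h := (M p.1.1).c * k n)
              (s := (1 + 2 ^ (t n ^ (M p.1.1).c + (M p.1.1).c)) ^ ((M p.1.1).c * k n))
              (by
                intro x
                have := (M p.1.1).comp (fun κ' => (ω' κ').2) κ x p.2
                have e4 : (fun z : Idx (par κ) → Bool => f n p x (update ω' κ (b, z))) =
                    fun z => decide ((M p.1.1).Accepts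
                      (AX (update (fun κ' => (ω' κ').2) κ z)) x p.2) := by
                  funext z
                  change decide ((M p.1.1).Accepts
                    (AX (fun κ' => (update ω' κ (b, z) κ').2)) x p.2) = _
                  rw [hfc]
                rw [e4]
                exact this)
            rw [hκ]
            have hci : (M p.1.1).c ≤ cmax c (J n) := cmax_le (c := c) p.1.2
            have hA : t n ^ (M p.1.1).c + (M p.1.1).c ≤ nA t c (J n) n := bound_mono _ hci
            have hQ' : Q.card = nq t c (J n) n := hQ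
            apply hcp.weak
            · refine hA.trans ?_
              unfold nW nK
              omega
            · unfold nh
              apply Nat.add_le_add_right
              exact Nat.mul_le_mul_right _ hci
            · rw [hQ']
              set a := nA t c (J n) n with ha
              set Cn := cmax c (J n) with hCn
              have s1 : (1 + 2 ^ (t n ^ (M p.1.1).c + (M p.1.1).c)) ^ ((M p.1.1).c * k n) ≤
                  2 ^ ((a + 1) * (Cn * k n)) := by
                calc _ ≤ (2 ^ (a + 1)) ^ ((M p.1.1).c * k n) := by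
                      apply Nat.pow_le_pow_left
                      have s2 : 2 ^ (t n ^ (M p.1.1).c + (M p.1.1).c) ≤ 2 ^ a :=
                        Nat.pow_le_pow_right (by norm_num) hA
                      have s3 : 1 ≤ 2 ^ a := Nat.one_le_two_pow
                      rw [pow_succ]
                      omega
                  _ = 2 ^ ((a + 1) * ((M p.1.1).c * k n)) := by rw [← pow_mul]
                  _ ≤ 2 ^ ((a + 1) * (Cn * k n)) := by
                      apply Nat.pow_le_pow_right (by norm_num)
                      apply Nat.mul_le_mul_left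
                      exact Nat.mul_le_mul_right _ hci
              have s4 : 1 + nq t c (J n) n * 2 ^ ((a + 1) * (Cn * k n)) ≤
                  2 ^ nq t c (J n) n * 2 ^ ((a + 1) * (Cn * k n)) := by
                have s5 : nq t c (J n) n + 1 ≤ 2 ^ nq t c (J n) n := Nat.lt_two_pow_self
                have s6 : 1 ≤ 2 ^ ((a + 1) * (Cn * k n)) := Nat.one_le_two_pow
                calc 1 + nq t c (J n) n * 2 ^ ((a + 1) * (Cn * k n)) ≤
                    (nq t c (J n) n + 1) * 2 ^ ((a + 1) * (Cn * k n)) := by
                      rw [Nat.add_mul (nq t c (J n) n) 1, one_mul, add_comm]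
                      exact Nat.add_le_add_left s6 _
                  _ ≤ _ := Nat.mul_le_mul_right _ s5
              calc 1 + nq t c (J n) n *
                  (1 + 2 ^ (t n ^ (M p.1.1).c + (M p.1.1).c)) ^ ((M p.1.1).c * k n)
                  ≤ 1 + nq t c (J n) n * 2 ^ ((a + 1) * (Cn * k n)) := by
                    apply Nat.add_le_add_left
                    exact Nat.mul_le_mul_left _ s1
                _ ≤ 2 ^ nq t c (J n) n * 2 ^ ((a + 1) * (Cn * k n)) := s4
                _ = 2 ^ nk0 t k c (J n) n := by
                    rw [← pow_add]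
                    rfl) ν hν
        rw [hκ] at hdκ
        exact hdκ
      · have e1 : ε n κ = 0 := if_neg hκ
        have e2 : δ n κ = 0 := if_neg hκ
        have e3 : ∀ v, μ n κ v = kern bitf μ1 μ0 κ ω v := by
          intro v
          rw [hkern]
          exact if_neg hκ
        rw [e1, e2]
        simp only [e3]
        rw [add_zero, add_zero, one_mul])
    (by
      intro n _
      rw [sum_cds n (T n - n) (ε n) (fun l => if l = n then 1 / (2 * 2 ^ n) else 0)
        (fun κ _ _ => rfl)]
      have hTn : 0 < T n - n := by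
        change 0 < n + 1 + _ - n
        omega
      rw [sum_eq_single 0]
      · simp only [add_zero, if_true]
        have : (2 : ℝ) ^ n ≠ 0 := by positivity
        apply le_of_eq
        field_simp
      · intro j _ hj
        rw [if_neg (by omega), mul_zero]
      · intro h
        exact absurd (mem_range.mpr hTn) h)
    (by
      intro n
      rcases Nat.eq_zero_or_pos (J n) with hn | hn
      · have : Fintype.card (tst n) = 0 := by
          rw [Fintype.card_eq_zero_iff]
          constructor
          rintro ⟨i, _⟩
          have := i.2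
          omega
        rw [this]
        push_cast
        rw [zero_mul]
        positivity
      · obtain ⟨c1, c2, c3, c4⟩ := hJ2 n hn
        rw [hdsum, hγdef n hn]
        set a := nA t c (J n) n with ha
        set R := nR t (J n) n with hR
        have hcard : (Fintype.card (tst n) : ℝ) ≤ 2 ^ n * 2 ^ a := by
          have h2 : Fintype.card (tst n) ≤ 2 ^ n * 2 ^ a := by
            rw [Fintype.card_sigma]
            calc ∑ i : Fin (J n), Fintype.card (Fin (t n ^ (M i.1).c + (M i.1).c) → Bool)
                ≤ ∑ _i : Fin (J n), 2 ^ a := by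
                  apply sum_le_sum
                  intro i _
                  rw [Fintype.card_fun, Fintype.card_bool, Fintype.card_fin]
                  apply Nat.pow_le_pow_right (by norm_num)
                  exact bound_mono _ (cmax_le (c := c) i.2)
              _ = J n * 2 ^ a := by
                  rw [sum_const, card_univ, Fintype.card_fin, smul_eq_mul]
              _ ≤ 2 ^ n * 2 ^ a := by
                  apply Nat.mul_le_mul_right
                  exact c1.trans Nat.lt_two_pow_self.le
          exact_mod_cast h2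
        have hq1 : (1 : ℝ) / (1 + 1 / (R : ℝ)) ^ q n ≤ 1 / 2 ^ (a + 2 * n + 5) := by
          apply one_div_le_one_div_of_le (by positivity)
          exact bern R (a + 2 * n + 5) c2
        have hq2 : (2 : ℝ) ^ q n * (2 ^ n * (4 / 2 ^ nK t c (J n) n)) =
            1 / 2 ^ (a + 2 * n + 8) := by
          have e1 : nK t c (J n) n = q n + n + (a + 2 * n + 8) + 2 := by
            change nq t c (J n) n + nA t c (J n) n + 3 * n + 10 = _
            change _ = nq t c (J n) n + n + (nA t c (J n) n + 2 * n + 8) + 2
            omega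
          rw [e1, pow_add, pow_add, pow_add]
          have e2 : (2 : ℝ) ^ q n ≠ 0 := by positivity
          have e3 : (2 : ℝ) ^ n ≠ 0 := by positivity
          have e4 : (2 : ℝ) ^ (a + 2 * n + 8) ≠ 0 := by positivity
          field_simp
          norm_num
        rw [hq2]
        have hfin : (2 : ℝ) ^ n * 2 ^ a * (2 * (1 / 2 ^ (a + 2 * n + 5) +
            1 / 2 ^ (a + 2 * n + 8))) ≤ (1 / 2) ^ n / 4 := by
          have e1 : (2 : ℝ) ^ (a + 2 * n + 5) = 2 ^ a * (2 ^ n * 2 ^ n) * 32 := by
            rw [pow_add, pow_add, two_mul, pow_add]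
            norm_num
          have e2 : (2 : ℝ) ^ (a + 2 * n + 8) = 2 ^ a * (2 ^ n * 2 ^ n) * 256 := by
            rw [pow_add, pow_add, two_mul, pow_add]
            norm_num
          rw [e1, e2, one_div_pow]
          have e3 : (2 : ℝ) ^ n ≠ 0 := by positivity
          have e4 : (2 : ℝ) ^ a ≠ 0 := by positivity
          have e5 : (2 : ℝ) ^ n * 2 ^ a * (2 * (1 / (2 ^ a * (2 ^ n * 2 ^ n) * 32) +
            1 / (2 ^ a * (2 ^ n * 2 ^ n) * 256))) = (9 / 128) * (1 / 2 ^ n) := by
            field_simp
            norm_num
          rw [e5]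
          have : (0 : ℝ) < 1 / 2 ^ n := by positivity
          linarith
        refine le_trans ?_ hfin
        apply mul_le_mul hcard _ (by positivity) (by positivity)
        linarith)
  refine ⟨ω, fun κ => ⟨fun h => (hω1 κ).1 h, fun h => (hω1 κ).2 h⟩, fun i b => ?_⟩
  obtain ⟨n0, hn0⟩ := hJ1 (max (i + 1) b)
  refine ⟨n0, fun n hn α => ?_⟩
  have hJn := hn0 n hn
  have hi : i < J n := by
    have := le_max_left (i + 1) b
    omega
  have hbn : b ≤ J n := (le_max_right _ _).trans hJn
  have hJpos : 0 < J n := by omega
  refine (hω2 n ⟨⟨i, hi⟩, α⟩).trans ?_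
  apply mul_le_mul_of_nonneg_right _ (by positivity)
  have hS1 : (1 : ℝ) ≤ ((t n + n : ℕ) : ℝ) := by
    have : n ≠ 0 := by
      rintro rfl
      have := (hJ2 0 hJpos).1
      omega
    exact_mod_cast (show 1 ≤ t n + n by omega)
  rw [hγdef n hJpos]
  have : (1 : ℝ) / (nR t (J n) n : ℝ) ≤ 1 / ((t n + n : ℕ) : ℝ) ^ b := by
    apply one_div_le_one_div_of_le (by positivity)
    unfold nR
    push_cast at hS1 ⊢
    exact pow_le_pow_right₀ hS1 hbn
  linarith

end main

end Pool.Agent.Helper67.EQP
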