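import Pool.Agent.Helper67.EQP.Core
import Pool.Agent.Helper67.EQP.ADefs

set_option autoImplicit false
set_option linter.unusedSectionVars false

/-!
The oracle against machines with advice.
-/

namespace Pool.Agent.Helper67.EQP

open Finset Function Classical
open Pool.Agent.Helper67.JL (ex ex_mono ex_nonneg ex_add ex_mul_left ex_mul_right ex_sum ex_const
  ex_equiv ex_prod)

section oracle

/-- The oracle defined by the contents of the blocks. -/
noncomputable def AX (X : Cont) (s : List Bool) : Bool := decide (Hit X s)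

theorem AX_bstr (X : Cont) (κ : List Bool) (a : B0 (par κ) × Bool) :
    AX X (bstr κ a) = true ↔ ∃ i, posn (par κ) a = some i ∧ X κ i = true := by
  rw [AX, decide_eq_true_eq, hit_bstr]

theorem AX_congr {X X' : Cont} {s : List Bool} (h : ∀ κ, κ.length < s.length → X κ = X' κ) :
    AX X s = AX X' s := by
  unfold AX Hit
  congr 1
  apply propext
  apply exists_congr
  intro κ
  apply exists_congr
  intro a
  apply exists_congr
  intro i
  apply and_congr_right
  intro h1
  rw [h κ (by rw [h1, bstr_length]; omega)]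

theorem AX_dtd (X : Cont) (κ : List Bool) (s : List Bool) :
    DTd 1 (fun z : Idx (par κ) → Bool => AX (update X κ z) s) := by
  by_cases h1 : ∃ (κ' : List Bool) (a : B0 (par κ') × Bool), s = bstr κ' a
  · obtain ⟨κ', a, h1⟩ := h1
    have h2 : (fun y : Idx (par κ) → Bool => AX (update X κ y) s) = fun y =>
        decide (∃ i, posn (par κ') a = some i ∧ update X κ y κ' i = true) := by
      funext y
      rw [Bool.eq_iff_iff, h1, AX_bstr, decide_eq_true_eq]
    rw [h2]
    by_cases hκ : κ' = κ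
    · subst hκ
      simp only [update_self]
      rcases hp : posn (par κ') a with _ | i
      · have : (fun y : Idx (par κ') → Bool => decide (∃ i, (none : Option (Idx (par κ'))) =
            some i ∧ y i = true)) = fun _ => false := by
          funext y
          simp
        rw [this]
        exact DTd.const 1 _
      · have : (fun y : Idx (par κ') → Bool => decide (∃ i', some i =
            some i' ∧ y i' = true)) = fun y => y i := by
          funext y
          simp
        rw [this]
        exact DTd.lit i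
    · simp only [update_of_ne hκ]
      exact DTd.const 1 _
  · have : (fun y : Idx (par κ) → Bool => AX (update X κ y) s) = fun _ => false := by
      funext y
      rw [AX, decide_eq_false_iff_not]
      rintro ⟨κ', a, i, h3, _⟩
      exact h1 ⟨κ', a, h3⟩
    rw [this]
    exact DTd.const 1 _

end oracle

section machines

variable {t k : ℕ → ℕ}

/-- All strings mentioned by the machine on inputs of length `n` are shorter. -/
noncomputable def AMachine.bd (M : AMachine t k) (n : ℕ) : ℕ :=
  univ.sup (fun p : (Fin n → Bool) × (Fin (t n ^ M.c + M.c) → Bool) ×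
    (Fin (M.c * k n) → Fin (t n ^ M.c + M.c) → Bool) => (M.tree n p.1 p.2.1 p.2.2).bd)

theorem AMachine.accepts_congr (M : AMachine t k) {A A' : List Bool → Bool} {n : ℕ}
    (x : Fin n → Bool) (α : Fin (t n ^ M.c + M.c) → Bool)
    (h : ∀ s, s.length < M.bd n → A s = A' s) : M.Accepts A x α ↔ M.Accepts A' x α := by
  unfold AMachine.Accepts
  have : (fun y => (M.tree n x α y).eval A = true) =
      (fun y => (M.tree n x α y).eval A' = true) := by
    funext y
    rw [DTree.eval_congr]
    intro s hs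
    apply h
    exact lt_of_lt_of_le hs (Finset.le_sup (f := fun p : (Fin n → Bool) ×
      (Fin (t n ^ M.c + M.c) → Bool) × (Fin (M.c * k n) → Fin (t n ^ M.c + M.c) → Bool) =>
        (M.tree n p.1 p.2.1 p.2.2).bd) (mem_univ (x, α, y)))
  rw [this]

theorem AMachine.comp (M : AMachine t k) (X : Cont) (κ : List Bool) {n : ℕ}
    (x : Fin n → Bool) (α : Fin (t n ^ M.c + M.c) → Bool) :
    Comp (t n ^ M.c + M.c) (M.c * k n) ((1 + 2 ^ (t n ^ M.c + M.c)) ^ (M.c * k n))
      (fun z : Idx (par κ) → Bool => decide (M.Accepts (AX (update X κ z)) x α)) := by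
  have h := Comp.alt (ι := Idx (par κ)) (w := t n ^ M.c + M.c) (M.c * k n) true
    (fun (ys : Fin (M.c * k n) → Fin (t n ^ M.c + M.c) → Bool) (z : Idx (par κ) → Bool) =>
      (M.tree n x α ys).eval (AX (update X κ z))) (by
      intro ys
      have h1 := ((M.tree n x α ys).dtd.mono (M.depth_le n x α ys)).comp
        (fun (z : Idx (par κ) → Bool) => AX (update X κ z)) (AX_dtd X κ)
      exact h1)
  have hc : Fintype.card (Fin (t n ^ M.c + M.c) → Bool) = 2 ^ (t n ^ M.c + M.c) := by
    rw [Fintype.card_fun, Fintype.card_bool, Fintype.card_fin]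
  rw [hc] at h
  exact h

end machines

section rate

theorem exists_rate (Cond : ℕ → ℕ → Prop) (h : ∀ j, ∃ n1, ∀ n ≥ n1, Cond j n) :
    ∃ J : ℕ → ℕ, Monotone J ∧ (∀ j, ∃ n1, ∀ n ≥ n1, j ≤ J n) ∧ ∀ n, 0 < J n → Cond (J n) n := by
  choose N hN using h
  refine ⟨fun n => Nat.findGreatest (fun j => N j ≤ n) n, ?_, ?_, ?_⟩
  · intro n n' hn
    beta_reduce
    rcases Nat.eq_zero_or_pos (Nat.findGreatest (fun j => N j ≤ n) n) with h0 | h0
    · rw [h0]
      exact Nat.zero_le _
    · have h1 : N (Nat.findGreatest (fun j => N j ≤ n) n) ≤ n :=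
        Nat.findGreatest_of_ne_zero (P := fun j => N j ≤ n) rfl (by omega)
      exact Nat.le_findGreatest ((Nat.findGreatest_le n).trans hn) (h1.trans hn)
  · intro j
    refine ⟨max j (N j), fun n hn => ?_⟩
    exact Nat.le_findGreatest ((le_max_left _ _).trans hn) ((le_max_right _ _).trans hn)
  · intro n hn
    beta_reduce at hn ⊢
    apply hN
    exact Nat.findGreatest_of_ne_zero (P := fun j => N j ≤ n) rfl (by omega)

end rate

section numbers

/-- Bound for the constants of the first `j` machines. -/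
noncomputable def cmax (c : ℕ → ℕ) (j : ℕ) : ℕ := (range j).sup c

/-- Length of the advice. -/
noncomputable def nA (t c : ℕ → ℕ) (j n : ℕ) : ℕ := t n ^ cmax c j + cmax c j

/-- Inverse of the advantage. -/
def nR (t : ℕ → ℕ) (j n : ℕ) : ℕ := (t n + n) ^ j

/-- Number of questions. -/
noncomputable def nq (t c : ℕ → ℕ) (j n : ℕ) : ℕ := nR t j n * (nA t c j n + 2 * n + 5)

/-- Exponent of the error. -/
noncomputable def nK (t c : ℕ → ℕ) (j n : ℕ) : ℕ := nq t c j n + nA t c j n + 3 * n + 10

/-- Exponent of the size. -/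
noncomputable def nk0 (t k c : ℕ → ℕ) (j n : ℕ) : ℕ :=
  nq t c j n + (nA t c j n + 1) * (cmax c j * k n)

/-- Depth. -/
noncomputable def nh (k c : ℕ → ℕ) (j n : ℕ) : ℕ := cmax c j * k n + 1

/-- Width. -/
noncomputable def nW (t k c : ℕ → ℕ) (j n : ℕ) : ℕ :=
  (nk0 t k c j n + nK t c j n) + 5 * (4 * n + 4)

/-- The numerical conditions. -/
def NCond (t k c : ℕ → ℕ) (j n : ℕ) : Prop :=
  j ≤ n ∧ 1 ≤ nR t j n ∧ 2 * nR t j n * nq t c j n ≤ 2 ^ n ∧
    (nW t k c j n * (32 * nW t k c j n) ^ nh k c j n * 5000) ≤ 2 ^ (n + 2)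

theorem ncond {t k : ℕ → ℕ} (hs : Slow t k) (c : ℕ → ℕ) (j : ℕ) :
    ∃ n1, ∀ n ≥ n1, NCond t k c j n := by
  set C := cmax c j with hC
  obtain ⟨n1, hn1⟩ := hs (1 + 2 * j + C + 5)
  obtain ⟨n2, hn2⟩ := hs 1
  obtain ⟨n3, hn3⟩ := hs ((j + C + 8) * (C + 2))
  set C1 := 4 * C + 100 with hC1
  refine ⟨max (max (max n1 n2) n3) (max j (5000 * C1)), fun n hn => ?_⟩
  have hn_1 : n1 ≤ n :=
    ((le_max_left _ _).trans ((le_max_left _ _).trans (le_max_left _ _))).trans hn
  have hn_2 : n2 ≤ n :=
    ((le_max_right _ _).trans ((le_max_left _ _).trans (le_max_left _ _))).trans hn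
  have hn_3 : n3 ≤ n := ((le_max_right _ _).trans (le_max_left _ _)).trans hn
  have hn_4 : j ≤ n := ((le_max_left _ _).trans (le_max_right _ _)).trans hn
  have hn_5 : 5000 * C1 ≤ n := ((le_max_right _ _).trans (le_max_right _ _)).trans hn
  have h1 := hn1 n hn_1
  have h2 := hn2 n hn_2
  have h3 := hn3 n hn_3
  set S := t n + n with hS
  set K := k n + 1 with hK
  have hSn : n ≤ S := by omega
  have hSC : 5000 * C1 ≤ S := hn_5.trans hSn
  have hS1 : 1 ≤ S := by omega
  have hKS : K ≤ S := by
    have h4 : 2 ^ K ≤ S ^ (1 * K) := by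
      rw [one_mul]
      exact Nat.pow_le_pow_left (by omega) K
    have h5 : 2 ^ K < 2 ^ n := lt_of_le_of_lt h4 h2
    have h6 : K < n := (Nat.pow_lt_pow_iff_right (by norm_num)).mp h5
    omega
  have hK1 : 1 ≤ K := by omega
  -- the advice
  have hA : nA t c j n ≤ S ^ (C + 1) := by
    unfold nA
    rw [← hC]
    have e1 : t n ^ C ≤ S ^ C := Nat.pow_le_pow_left (by omega) C
    have e2 : 1 ≤ S ^ C := Nat.one_le_pow _ _ hS1
    have e3 : C + 1 ≤ S := by omega
    calc t n ^ C + C ≤ S ^ C * (C + 1) := by nlinarith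
      _ ≤ S ^ C * S := Nat.mul_le_mul_left _ e3
      _ = S ^ (C + 1) := by ring
  have hR : nR t j n = S ^ j := rfl
  have hR1 : 1 ≤ S ^ j := Nat.one_le_pow _ _ hS1
  have hSC1 : S ≤ S ^ (C + 1) := Nat.le_self_pow (by omega) S
  have hA2 : nA t c j n + 2 * n + 5 ≤ S ^ (C + 2) := by
    have e1 : nA t c j n + 2 * n + 5 ≤ 8 * S ^ (C + 1) := by
      have : 1 ≤ S ^ (C + 1) := Nat.one_le_pow _ _ hS1
      omega
    calc nA t c j n + 2 * n + 5 ≤ 8 * S ^ (C + 1) := e1
      _ ≤ S * S ^ (C + 1) := Nat.mul_le_mul_right _ (by omega)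
      _ = S ^ (C + 2) := by ring
  have hq : nq t c j n ≤ S ^ (j + C + 2) := by
    unfold nq
    rw [hR]
    calc S ^ j * (nA t c j n + 2 * n + 5) ≤ S ^ j * S ^ (C + 2) := Nat.mul_le_mul_left _ hA2
      _ = S ^ (j + C + 2) := by rw [← pow_add]; ring_nf
  refine ⟨hn_4, by rw [hR]; exact hR1, ?_, ?_⟩
  · rw [hR]
    calc 2 * S ^ j * nq t c j n ≤ S * S ^ j * S ^ (j + C + 2) := by
          apply Nat.mul_le_mul _ hq
          exact Nat.mul_le_mul_right _ (by omega)
      _ = S ^ (2 * j + C + 3) := by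
          rw [← pow_succ', ← pow_add]
          congr 1
          omega
      _ ≤ S ^ ((1 + 2 * j + C + 5) * K) := by
          apply Nat.pow_le_pow_right hS1
          nlinarith
      _ ≤ 2 ^ n := h1.le
  · -- the width
    have hAS : (nA t c j n + 1) * (cmax c j * k n) ≤ C * S ^ (C + 3) := by
      rw [← hC]
      have e1 : nA t c j n + 1 ≤ S ^ (C + 2) := by omega
      have e2 : k n ≤ S := by omega
      calc (nA t c j n + 1) * (C * k n) ≤ S ^ (C + 2) * (C * S) :=
            Nat.mul_le_mul e1 (Nat.mul_le_mul_left _ e2)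
        _ = C * S ^ (C + 3) := by ring
    have hP1 : S ^ (j + C + 2) ≤ S ^ (j + C + 3) := Nat.pow_le_pow_right hS1 (by omega)
    have hP2 : S ^ (C + 3) ≤ S ^ (j + C + 3) := Nat.pow_le_pow_right hS1 (by omega)
    have hP3 : S ^ (C + 1) ≤ S ^ (j + C + 3) := Nat.pow_le_pow_right hS1 (by omega)
    have hP4 : S ≤ S ^ (j + C + 3) := Nat.le_self_pow (by omega) S
    set Q := S ^ (j + C + 3) with hQ
    have hQ1 : 1 ≤ Q := Nat.one_le_pow _ _ hS1
    have hCQ : C * S ^ (C + 3) ≤ C * Q := Nat.mul_le_mul_left _ hP2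
    have hW : nW t k c j n ≤ (C + 100) * Q := by
      unfold nW nk0 nK
      have e1 : n ≤ Q := by omega
      have : (C + 100) * Q = C * Q + 100 * Q := by ring
      omega
    have hW2 : 32 * nW t k c j n ≤ S ^ (j + C + 4) := by
      calc 32 * nW t k c j n ≤ 32 * ((C + 100) * Q) := Nat.mul_le_mul_left _ hW
        _ = (32 * (C + 100)) * Q := by ring
        _ ≤ S * Q := by
            apply Nat.mul_le_mul_right
            omega
        _ = S ^ (j + C + 4) := by rw [hQ, ← pow_succ']
    have hW3 : nW t k c j n * 5000 ≤ S ^ (j + C + 4) := by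
      calc nW t k c j n * 5000 ≤ ((C + 100) * Q) * 5000 := Nat.mul_le_mul_right _ hW
        _ = (5000 * (C + 100)) * Q := by ring
        _ ≤ S * Q := by
            apply Nat.mul_le_mul_right
            omega
        _ = S ^ (j + C + 4) := by rw [hQ, ← pow_succ']
    have hh : nh k c j n + 1 ≤ (C + 2) * K := by
      unfold nh
      rw [← hC, hK]
      nlinarith
    have hpos : 1 ≤ S ^ (j + C + 4) := Nat.one_le_pow _ _ hS1
    calc nW t k c j n * (32 * nW t k c j n) ^ nh k c j n * 5000
        = (nW t k c j n * 5000) * (32 * nW t k c j n) ^ nh k c j n := by ring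
      _ ≤ S ^ (j + C + 4) * (S ^ (j + C + 4)) ^ nh k c j n :=
          Nat.mul_le_mul hW3 (Nat.pow_le_pow_left hW2 _)
      _ = (S ^ (j + C + 4)) ^ (nh k c j n + 1) := by ring
      _ ≤ (S ^ (j + C + 4)) ^ ((C + 2) * K) := Nat.pow_le_pow_right hpos hh
      _ = S ^ ((j + C + 4) * (C + 2) * K) := by rw [← pow_mul, mul_assoc]
      _ ≤ S ^ ((j + C + 8) * (C + 2) * K) := by
          apply Nat.pow_le_pow_right hS1
          apply Nat.mul_le_mul_right
          apply Nat.mul_le_mul_right
          omega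
      _ ≤ 2 ^ n := h3.le
      _ ≤ 2 ^ (n + 2) := Nat.pow_le_pow_right (by norm_num) (by omega)

end numbers

end Pool.Agent.Helper67.EQP
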