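import Pool.Agent.Helper67.EQP.Quantum

set_option autoImplicit false
set_option linter.unusedSectionVars false

/-!
The exact quantum algorithm: amplitude amplification to the exact value.
-/

namespace Pool.Agent.Helper67.EQP

open Finset Matrix

section real

variable {B0 : Type} [Fintype B0] [DecidableEq B0]

/-- Flip of the control bit. -/
def mX : Matrix (B0 × Bool) (B0 × Bool) ℝ := fun a b => if b = (a.1, !a.2) then 1 else 0

/-- Hadamard gate on the control bit. -/
noncomputable def mH : Matrix (B0 × Bool) (B0 × Bool) ℝ := fun a b =>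
  if a.1 = b.1 then (if a.2 && b.2 then -1 else 1) / Real.sqrt 2 else 0

/-- `Q` controlled by the control bit. -/
def mC (Q : Matrix B0 B0 ℝ) : Matrix (B0 × Bool) (B0 × Bool) ℝ := fun a b =>
  if a.2 = b.2 then (if a.2 then Q a.1 b.1 else if a.1 = b.1 then 1 else 0) else 0

/-- Reflection about a vector. -/
def mR {B : Type} [DecidableEq B] (ψ : B → ℝ) : Matrix B B ℝ := fun a b =>
  2 * (ψ a * ψ b) - if a = b then 1 else 0

theorem eq_one_of {B : Type} [Fintype B] [DecidableEq B] {M : Matrix B B ℝ}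
    (h : ∀ v b, (M.mulVec v) b = v b) : M = 1 := by
  apply Matrix.ext_of_mulVec_single
  intro i
  rw [one_mulVec]
  funext b
  exact h _ b

theorem mX_mulVec (v : B0 × Bool → ℝ) (a : B0 × Bool) : (mX.mulVec v) a = v (a.1, !a.2) := by
  unfold mulVec dotProduct mX
  simp

theorem mH_mulVec (v : B0 × Bool → ℝ) (a : B0 × Bool) :
    (mH.mulVec v) a = (v (a.1, false) + (if a.2 then -1 else 1) * v (a.1, true)) / Real.sqrt 2 := by
  unfold mulVec dotProduct mH
  rw [Fintype.sum_prod_type]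
  simp only [Fintype.sum_bool, ite_mul, zero_mul]
  rw [sum_add_distrib, sum_ite_eq, sum_ite_eq]
  simp only [mem_univ, if_true, Bool.and_true, Bool.and_false, Bool.false_eq_true, if_false]
  cases a.2
  · simp only [Bool.false_eq_true, if_false]; ring
  · simp only [if_true]; ring

theorem mC_mulVec_false (Q : Matrix B0 B0 ℝ) (v : B0 × Bool → ℝ) (a : B0) :
    ((mC Q).mulVec v) (a, false) = v (a, false) := by
  unfold mulVec dotProduct mC
  rw [Fintype.sum_prod_type]
  simp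

theorem mC_mulVec_true (Q : Matrix B0 B0 ℝ) (v : B0 × Bool → ℝ) (a : B0) :
    ((mC Q).mulVec v) (a, true) = ∑ b, Q a b * v (b, true) := by
  unfold mulVec dotProduct mC
  rw [Fintype.sum_prod_type]
  simp

theorem mR_mulVec {B : Type} [Fintype B] [DecidableEq B] (ψ v : B → ℝ) (a : B) :
    ((mR ψ).mulVec v) a = 2 * (ψ ⬝ᵥ v) * ψ a - v a := by
  unfold mulVec dotProduct mR
  simp_rw [sub_mul, ite_mul, one_mul, zero_mul]
  rw [sum_sub_distrib, sum_ite_eq]
  simp only [mem_univ, if_true]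
  rw [mul_sum, sum_mul]
  congr 1
  apply sum_congr rfl
  intro b _
  ring

theorem mX_symm (a b : B0 × Bool) : (mX a b : ℝ) = mX b a := by
  unfold mX
  rcases a with ⟨a, c⟩
  rcases b with ⟨b, d⟩
  by_cases hab : a = b
  · subst hab
    cases c <;> cases d <;> simp
  · simp [hab, Ne.symm hab]

theorem mX_sq : (mX * mX : Matrix (B0 × Bool) (B0 × Bool) ℝ) = 1 := by
  apply eq_one_of
  intro v b
  rw [← mulVec_mulVec, mX_mulVec, mX_mulVec]
  simp

theorem mH_symm (a b : B0 × Bool) : (mH a b : ℝ) = mH b a := by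
  unfold mH
  rw [Bool.and_comm]
  by_cases hab : a.1 = b.1
  · rw [if_pos hab, if_pos hab.symm]
  · rw [if_neg hab, if_neg (Ne.symm hab)]

theorem sqrt2_mul : Real.sqrt 2 * Real.sqrt 2 = 2 := Real.mul_self_sqrt (by norm_num)

theorem mH_sq : (mH * mH : Matrix (B0 × Bool) (B0 × Bool) ℝ) = 1 := by
  apply eq_one_of
  intro v b
  rw [← mulVec_mulVec, mH_mulVec, mH_mulVec, mH_mulVec]
  have h2 : Real.sqrt 2 ≠ 0 := by positivity
  have h3 := sqrt2_mul
  rcases b with ⟨b, c⟩
  cases c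
  · simp only [if_false, Bool.false_eq_true, one_mul, if_true]
    rw [← add_div, div_div, h3]
    ring
  · simp only [if_false, Bool.false_eq_true, one_mul, if_true, neg_mul]
    rw [← sub_eq_add_neg, ← sub_div, div_div, h3]
    ring

theorem mC_symm {Q : Matrix B0 B0 ℝ} (hQ : ∀ a b, Q a b = Q b a) (a b : B0 × Bool) :
    mC Q a b = mC Q b a := by
  unfold mC
  rcases a with ⟨a, c⟩
  rcases b with ⟨b, d⟩
  cases c <;> cases d <;> simp [hQ a b, eq_comm]

theorem mC_sq {Q : Matrix B0 B0 ℝ} (hQ : Q * Q = 1) : mC Q * mC Q = 1 := by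
  apply eq_one_of
  intro v' b
  rw [← mulVec_mulVec]
  rcases b with ⟨b, c⟩
  cases c
  · rw [mC_mulVec_false, mC_mulVec_false]
  · rw [mC_mulVec_true]
    simp_rw [mC_mulVec_true]
    set v : B0 → ℝ := fun d => v' (d, true) with hv
    have h1 : ∑ x, Q b x * ∑ y, Q x y * v y = (Q.mulVec (Q.mulVec v)) b := rfl
    have h2 : (Q.mulVec (Q.mulVec v)) b = v b := by
      rw [mulVec_mulVec, hQ, one_mulVec]
    exact h1.trans h2

theorem mR_symm {B : Type} [DecidableEq B] (ψ : B → ℝ) (a b : B) : mR ψ a b = mR ψ b a := by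
  unfold mR
  rw [mul_comm (ψ a) (ψ b)]
  by_cases hab : a = b
  · rw [if_pos hab, if_pos hab.symm]
  · rw [if_neg hab, if_neg (Ne.symm hab)]

theorem mR_sq {B : Type} [Fintype B] [DecidableEq B] (ψ : B → ℝ) (hψ : ψ ⬝ᵥ ψ = 1) :
    mR ψ * mR ψ = 1 := by
  apply eq_one_of
  intro v b
  rw [← mulVec_mulVec]
  have h1 : (mR ψ).mulVec v = (2 * (ψ ⬝ᵥ v)) • ψ - v := by
    funext c
    rw [mR_mulVec]
    simp
  rw [mR_mulVec, h1, dotProduct_sub, dotProduct_smul, hψ]
  simp only [Pi.sub_apply, Pi.smul_apply, smul_eq_mul]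
  ring

/-- The recursion coefficients of the amplification. -/
noncomputable def pq (c : ℝ) : ℕ → ℝ × ℝ
  | 0 => (1, 0)
  | i + 1 => (2 * c * (pq c i).1 - (pq c i).2, (pq c i).1)

theorem pq_sin (θ : ℝ) (i : ℕ) :
    (pq (Real.cos θ) i).1 * Real.sin θ = Real.sin ((i + 1) * θ) ∧
      (pq (Real.cos θ) i).2 * Real.sin θ = Real.sin (i * θ) := by
  induction i with
  | zero => simp [pq]
  | succ i ih =>
    obtain ⟨h1, h2⟩ := ih
    constructor
    · change (2 * Real.cos θ * (pq (Real.cos θ) i).1 - (pq (Real.cos θ) i).2) * Real.sin θ = _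
      rw [sub_mul, mul_assoc, h1, h2]
      push_cast
      have e1 : ((i : ℝ) + 1 + 1) * θ = (i + 1) * θ + θ := by ring
      have e2 : (i : ℝ) * θ = (i + 1) * θ - θ := by ring
      rw [e1, e2, Real.sin_add, Real.sin_sub]
      ring
    · change (pq (Real.cos θ) i).1 * Real.sin θ = _
      rw [h1]
      push_cast
      rfl

/-- Exact hit, even multiple. -/
theorem pq_even {θ : ℝ} (hs : Real.sin θ ≠ 0) {j n : ℕ}
    (h : (2 * j + 1) * θ = 2 * n * Real.pi) :
    (pq (Real.cos θ) j).1 = -(pq (Real.cos θ) j).2 := by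
  obtain ⟨h1, h2⟩ := pq_sin θ j
  have e : ((j : ℝ) + 1) * θ = -(j * θ) + n * (2 * Real.pi) := by
    have : ((j : ℝ) + 1) * θ = (2 * j + 1) * θ - j * θ := by ring
    rw [this, h]; ring
  rw [e, Real.sin_add_nat_mul_two_pi, Real.sin_neg, ← h2] at h1
  apply mul_right_cancel₀ hs
  rw [h1]
  ring

/-- Exact hit, odd multiple. -/
theorem pq_odd {θ : ℝ} (hs : Real.sin θ ≠ 0) {j n : ℕ}
    (h : (2 * j + 1) * θ = (2 * n + 1) * Real.pi) :
    (pq (Real.cos θ) j).1 = (pq (Real.cos θ) j).2 := by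
  obtain ⟨h1, h2⟩ := pq_sin θ j
  have e : ((j : ℝ) + 1) * θ = (Real.pi - j * θ) + n * (2 * Real.pi) := by
    have : ((j : ℝ) + 1) * θ = (2 * j + 1) * θ - j * θ := by ring
    rw [this, h]; ring
  rw [e, Real.sin_add_nat_mul_two_pi, Real.sin_pi_sub, ← h2] at h1
  exact mul_right_cancel₀ hs h1

/-- Real evolution. -/
noncomputable def rs (Q : Matrix B0 B0 ℝ) (ψ ph : B0 × Bool → ℝ) : ℕ → B0 × Bool → ℝ
  | 0 => ψ
  | k + 1 => (if k % 2 = 0 then mC Q * mX * mC Q else mR ψ).mulVec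
      (fun b => ph b * rs Q ψ ph k b)

variable {Q : Matrix B0 B0 ℝ} {ψ ph : B0 × Bool → ℝ}

theorem dot_mulVec_symm {B : Type} [Fintype B] {M : Matrix B B ℝ} (hM : ∀ a b, M a b = M b a)
    (u v : B → ℝ) : u ⬝ᵥ (M.mulVec v) = (M.mulVec u) ⬝ᵥ v := by
  rw [dotProduct_mulVec]
  congr 1
  rw [← mulVec_transpose]
  congr 1
  ext a b
  exact hM b a

theorem rs_even (hQs : ∀ a b, Q a b = Q b a) (hQ : Q * Q = 1) (hψ : ψ ⬝ᵥ ψ = 1)
    (hph : ∀ b, ph b * ph b = 1) {c : ℝ}
    (hc : (mC Q).mulVec (fun b => ph b * ψ b) ⬝ᵥ mX.mulVec ((mC Q).mulVec (fun b => ph b * ψ b))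
      = c) (i : ℕ) :
    (mC Q).mulVec (fun b => ph b * rs Q ψ ph (2 * i) b) =
      (pq c i).1 • (mC Q).mulVec (fun b => ph b * ψ b) -
      (pq c i).2 • mX.mulVec ((mC Q).mulVec (fun b => ph b * ψ b)) := by
  set e := (mC Q).mulVec (fun b => ph b * ψ b) with he
  have hee : e ⬝ᵥ e = 1 := by
    rw [he, dot_mulVec_symm (mC_symm hQs), mulVec_mulVec, mC_sq hQ, one_mulVec]
    have : (fun b => ph b * ψ b) ⬝ᵥ (fun b => ph b * ψ b) = ψ ⬝ᵥ ψ := by
      unfold dotProduct
      apply sum_congr rfl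
      intro b _
      have := hph b
      calc ph b * ψ b * (ph b * ψ b) = (ph b * ph b) * (ψ b * ψ b) := by ring
        _ = ψ b * ψ b := by rw [this, one_mul]
    rw [this, hψ]
  have hXX : ∀ v : B0 × Bool → ℝ, mX.mulVec (mX.mulVec v) = v := by
    intro v
    rw [mulVec_mulVec, mX_sq, one_mulVec]
  induction i with
  | zero => simp [pq, rs, he]
  | succ i ih =>
    have e1 : 2 * (i + 1) = (2 * i + 1) + 1 := by ring
    rw [e1]
    have hodd : ¬ ((2 * i + 1) % 2 = 0) := by omega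
    have heven : (2 * i) % 2 = 0 := by omega
    have h1 : rs Q ψ ph (2 * i + 1 + 1) = (mR ψ).mulVec
        (fun b => ph b * rs Q ψ ph (2 * i + 1) b) := by
      change (if (2 * i + 1) % 2 = 0 then mC Q * mX * mC Q else mR ψ).mulVec _ = _
      rw [if_neg hodd]
    set t := (mC Q).mulVec (fun b => ph b * rs Q ψ ph (2 * i) b) with ht
    have h2 : rs Q ψ ph (2 * i + 1) = (mC Q).mulVec (mX.mulVec t) := by
      change (if (2 * i) % 2 = 0 then mC Q * mX * mC Q else mR ψ).mulVec _ = _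
      rw [if_pos heven, ← mulVec_mulVec, ← mulVec_mulVec]
    set y := (mC Q).mulVec (mX.mulVec t) with hy
    have h3 : rs Q ψ ph (2 * i + 1 + 1) =
        (2 * (e ⬝ᵥ mX.mulVec t)) • ψ - fun b => ph b * y b := by
      rw [h1, h2]
      funext b
      rw [mR_mulVec]
      simp only [Pi.sub_apply, Pi.smul_apply, smul_eq_mul]
      have : ψ ⬝ᵥ (fun b => ph b * y b) = e ⬝ᵥ mX.mulVec t := by
        rw [he, ← dot_mulVec_symm (mC_symm hQs)]
        unfold dotProduct
        apply sum_congr rfl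
        intro b _
        rw [← hy]
        ring
      rw [this]
    have h4 : (mC Q).mulVec (fun b => ph b * rs Q ψ ph (2 * i + 1 + 1) b) =
        (2 * (e ⬝ᵥ mX.mulVec t)) • e - mX.mulVec t := by
      rw [h3]
      have : (fun b => ph b * ((2 * (e ⬝ᵥ mX.mulVec t)) • ψ - fun b => ph b * y b) b) =
          (2 * (e ⬝ᵥ mX.mulVec t)) • (fun b => ph b * ψ b) - y := by
        funext b
        simp only [Pi.sub_apply, Pi.smul_apply, smul_eq_mul]
        have := hph b
        calc ph b * (2 * (e ⬝ᵥ mX.mulVec t) * ψ b - ph b * y b) =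
            2 * (e ⬝ᵥ mX.mulVec t) * (ph b * ψ b) - (ph b * ph b) * y b := by ring
          _ = _ := by rw [this, one_mul]
      rw [this, mulVec_sub, mulVec_smul, ← he, hy, mulVec_mulVec _ (mC Q) (mC Q), mC_sq hQ,
        one_mulVec]
    rw [h4, ih]
    have h5 : mX.mulVec ((pq c i).1 • e - (pq c i).2 • mX.mulVec e) =
        (pq c i).1 • mX.mulVec e - (pq c i).2 • e := by
      rw [mulVec_sub, mulVec_smul, mulVec_smul, hXX]
    rw [h5, dotProduct_sub, dotProduct_smul, dotProduct_smul, hee, hc]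
    funext b
    simp only [Pi.sub_apply, Pi.smul_apply, smul_eq_mul, pq]
    ring

end real

end Pool.Agent.Helper67.EQP
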