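import Pool.Agent.Helper67.EQP.DomHard

set_option autoImplicit false
set_option linter.unusedSectionVars false

/-!
Sequential averages, and the number of correct answers.
-/

namespace Pool.Agent.Helper67.EQP

open Finset Function Classical
open Pool.Agent.Helper67.JL (ex ex_mono ex_nonneg ex_add ex_mul_left ex_mul_right ex_sum ex_const
  ex_equiv ex_prod)

section EA

variable {C : Type} [DecidableEq C] {V : C → Type} [∀ c, Fintype (V c)]

/-- Sequential average: the values at the codes in the list are drawn one after the other, with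
distributions which may depend on the previous values. -/
noncomputable def EA (K : (c : C) → (∀ c, V c) → V c → ℝ) (g : (∀ c, V c) → ℝ) :
    List C → (∀ c, V c) → ℝ
  | [], ω => g ω
  | c :: ks, ω => ∑ v, K c ω v * EA K g ks (update ω c v)

variable {K : (c : C) → (∀ c, V c) → V c → ℝ}

theorem EA_append (g : (∀ c, V c) → ℝ) (ks1 ks2 : List C) (ω : ∀ c, V c) :
    EA K g (ks1 ++ ks2) ω = EA K (EA K g ks2) ks1 ω := by
  induction ks1 generalizing ω with
  | nil => rfl
  | cons c ks1 ih =>
    change ∑ v, K c ω v * EA K g (ks1 ++ ks2) (update ω c v) =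
      ∑ v, K c ω v * EA K (EA K g ks2) ks1 (update ω c v)
    simp_rw [ih]

theorem EA_mono (hK : ∀ c ω, IsDist (K c ω)) {g g' : (∀ c, V c) → ℝ} (h : ∀ ω, g ω ≤ g' ω)
    (ks : List C) (ω : ∀ c, V c) : EA K g ks ω ≤ EA K g' ks ω := by
  induction ks generalizing ω with
  | nil => exact h ω
  | cons c ks ih =>
    apply sum_le_sum
    intro v _
    exact mul_le_mul_of_nonneg_left (ih _) ((hK c ω).1 v)

theorem EA_const (hK : ∀ c ω, IsDist (K c ω)) (a : ℝ) (ks : List C) (ω : ∀ c, V c) :
    EA K (fun _ => a) ks ω = a := by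
  induction ks generalizing ω with
  | nil => rfl
  | cons c ks ih =>
    change ∑ v, K c ω v * EA K (fun _ => a) ks (update ω c v) = a
    simp_rw [ih]
    rw [← sum_mul, (hK c ω).2, one_mul]

theorem EA_sum {α : Type} (S : Finset α) (F : α → (∀ c, V c) → ℝ) (ks : List C)
    (ω : ∀ c, V c) : EA K (fun ω => ∑ s ∈ S, F s ω) ks ω = ∑ s ∈ S, EA K (F s) ks ω := by
  induction ks generalizing ω with
  | nil => rfl
  | cons c ks ih =>
    change ∑ v, K c ω v * EA K (fun ω => ∑ s ∈ S, F s ω) ks (update ω c v) =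
      ∑ s ∈ S, ∑ v, K c ω v * EA K (F s) ks (update ω c v)
    simp_rw [ih]
    rw [sum_comm]
    apply sum_congr rfl
    intro v _
    rw [mul_sum]

theorem EA_mul (a : ℝ) (g : (∀ c, V c) → ℝ) (ks : List C) (ω : ∀ c, V c) :
    EA K (fun ω => a * g ω) ks ω = a * EA K g ks ω := by
  induction ks generalizing ω with
  | nil => rfl
  | cons c ks ih =>
    change ∑ v, K c ω v * EA K (fun ω => a * g ω) ks (update ω c v) =
      a * ∑ v, K c ω v * EA K g ks (update ω c v)
    simp_rw [ih]
    rw [mul_sum]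
    apply sum_congr rfl
    intro v _
    ring

theorem EA_of_const_on (hK : ∀ c ω, IsDist (K c ω)) {g : (∀ c, V c) → ℝ} (ks : List C)
    (h : ∀ c ∈ ks, ∀ ω v, g (update ω c v) = g ω) (ω : ∀ c, V c) : EA K g ks ω = g ω := by
  induction ks generalizing ω with
  | nil => rfl
  | cons c ks ih =>
    change ∑ v, K c ω v * EA K g ks (update ω c v) = g ω
    have h1 : ∀ v, EA K g ks (update ω c v) = g ω := by
      intro v
      rw [ih (fun c' hc' => h c' (by simp [hc'])), h c (by simp)]
    simp_rw [h1]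
    rw [← sum_mul, (hK c ω).2, one_mul]

/-- Averages below a bound are attained at a point in the support. -/
theorem EA_exists (hK : ∀ c ω, IsDist (K c ω)) {g : (∀ c, V c) → ℝ} {a : ℝ}
    {R : C → C → Prop} {Valid : C → (∀ c, V c) → Prop}
    (hs : ∀ c ω v, 0 < K c ω v → Valid c (update ω c v))
    (hp : ∀ c c', R c c' → ∀ ω v, Valid c ω → Valid c (update ω c' v))
    (ks : List C) (hR : ks.Pairwise R) (ω : ∀ c, V c) (h : EA K g ks ω < a) :
    ∃ ω', g ω' < a ∧ (∀ c ∈ ks, Valid c ω') ∧
      ∀ W : (∀ c, V c) → Prop, (∀ c ∈ ks, ∀ ω v, W ω → W (update ω c v)) → W ω → W ω' := by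
  induction ks generalizing ω with
  | nil => exact ⟨ω, h, fun c hc => absurd hc (by simp), fun W _ hW => hW⟩
  | cons c ks ih =>
    rw [List.pairwise_cons] at hR
    obtain ⟨v, hv1, hv2⟩ : ∃ v, 0 < K c ω v ∧ EA K g ks (update ω c v) < a := by
      by_contra hcon
      push Not at hcon
      have h1 : ∑ v, K c ω v * a ≤ ∑ v, K c ω v * EA K g ks (update ω c v) := by
        apply sum_le_sum
        intro v _
        rcases ((hK c ω).1 v).eq_or_lt with h2 | h2
        · rw [← h2, zero_mul, zero_mul]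
        · exact mul_le_mul_of_nonneg_left (hcon v h2) h2.le
      rw [← sum_mul, (hK c ω).2, one_mul] at h1
      exact absurd h (not_lt.mpr h1)
    obtain ⟨ω', g1, g2, g3⟩ := ih hR.2 (update ω c v) hv2
    refine ⟨ω', g1, ?_, ?_⟩
    · intro c' hc'
      rcases List.mem_cons.mp hc' with rfl | hc'
      · exact g3 (Valid c') (fun c'' hc'' ω v hV => hp _ _ (hR.1 c'' hc'') ω v hV)
          (hs _ _ _ hv1)
      · exact g2 c' hc'
    · intro W hW h0
      exact g3 W (fun c' hc' => hW c' (by simp [hc'])) (hW c (by simp) _ _ h0)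

variable {μ : (c : C) → V c → ℝ}

theorem EM_swap {g : (∀ c, V c) → ℝ} {c c' : C} (hne : c ≠ c') (ν : V c → ℝ) (ks : List C)
    (ω : ∀ c, V c) :
    ∑ v, ν v * EA (fun c _ => μ c) g (c' :: ks) (update ω c v) =
      ∑ z, μ c' z * ∑ v, ν v * EA (fun c _ => μ c) g ks (update (update ω c' z) c v) := by
  have : ∀ v, ν v * EA (fun c _ => μ c) g (c' :: ks) (update ω c v) =
      ∑ z, μ c' z * (ν v * EA (fun c _ => μ c) g ks (update (update ω c' z) c v)) := by
    intro v
    change ν v * (∑ z, μ c' z * EA (fun c _ => μ c) g ks (update (update ω c v) c' z)) = _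
    rw [mul_sum]
    apply sum_congr rfl
    intro z _
    rw [update_comm hne v z ω]
    ring
  simp_rw [this]
  rw [sum_comm]
  apply sum_congr rfl
  intro z _
  rw [mul_sum]

theorem EM_step (hμ : ∀ c, IsDist (μ c)) {g : (∀ c, V c) → ℝ} {c : C} {ν : V c → ℝ} {ε δ : ℝ}
    (hd : ∀ ω : ∀ c, V c, ∑ v, ν v * g (update ω c v) ≤
      (1 + ε) * ∑ v, μ c v * g (update ω c v) + δ)
    (ks : List C) (hks : c ∉ ks) (ω : ∀ c, V c) :
    ∑ v, ν v * EA (fun c _ => μ c) g ks (update ω c v) ≤
      (1 + ε) * ∑ v, μ c v * EA (fun c _ => μ c) g ks (update ω c v) + δ := by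
  induction ks generalizing ω with
  | nil => exact hd ω
  | cons c' ks ih =>
    have hne : c ≠ c' := fun h => hks (by simp [h])
    have hks' : c ∉ ks := fun h => hks (by simp [h])
    rw [EM_swap hne, EM_swap hne]
    calc ∑ z, μ c' z * ∑ v, ν v * EA (fun c _ => μ c) g ks (update (update ω c' z) c v)
        ≤ ∑ z, μ c' z * ((1 + ε) *
            ∑ v, μ c v * EA (fun c _ => μ c) g ks (update (update ω c' z) c v) + δ) := by
          apply sum_le_sum
          intro z _
          exact mul_le_mul_of_nonneg_left (ih hks' _) ((hμ c').1 z)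
      _ = _ := by
          simp_rw [mul_add]
          rw [sum_add_distrib, ← sum_mul, (hμ c').2, one_mul, mul_sum]
          congr 1
          apply sum_congr rfl
          intro z _
          ring

/-- Domination by a product distribution. -/
theorem EA_dom (hK : ∀ c ω, IsDist (K c ω)) (hμ : ∀ c, IsDist (μ c)) {g : (∀ c, V c) → ℝ}
    (hg : ∀ ω, 0 ≤ g ω) {ε δ : C → ℝ} (hε : ∀ c, 0 ≤ ε c) (hδ : ∀ c, 0 ≤ δ c) (ks : List C)
    (hks : ks.Nodup)
    (hd : ∀ c ∈ ks, ∀ ω ω' : ∀ c, V c, ∑ v, K c ω v * g (update ω' c v) ≤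
      (1 + ε c) * ∑ v, μ c v * g (update ω' c v) + δ c) (ω : ∀ c, V c) :
    EA K g ks ω ≤ Real.exp ((ks.map ε).sum) *
      (EA (fun c _ => μ c) g ks ω + (ks.map δ).sum) := by
  induction ks generalizing ω with
  | nil => simp [EA]
  | cons c ks ih =>
    rw [List.nodup_cons] at hks
    have IH := fun ω => ih hks.2 (fun c' hc' => hd c' (by simp [hc'])) ω
    rw [List.map_cons, List.sum_cons, List.map_cons, List.sum_cons]
    set E := Real.exp ((ks.map ε).sum) with hE
    have hE0 : 0 < E := Real.exp_pos _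
    set S := (ks.map δ).sum with hS
    have hS0 : 0 ≤ S := by
      rw [hS]
      apply List.sum_nonneg
      intro x hx
      rw [List.mem_map] at hx
      obtain ⟨c', _, rfl⟩ := hx
      exact hδ c'
    have hstep := EM_step hμ (hd c (by simp) ω) ks hks.1 ω
    have hEM : EA (fun c _ => μ c) g (c :: ks) ω =
        ∑ v, μ c v * EA (fun c _ => μ c) g ks (update ω c v) := rfl
    have hEM0 : 0 ≤ EA (fun c _ => μ c) g (c :: ks) ω := by
      have := EA_mono (K := fun c _ => μ c) (fun c _ => hμ c) (g := fun _ => (0 : ℝ)) hg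
        (c :: ks) ω
      rwa [EA_const (fun c _ => hμ c)] at this
    calc EA K g (c :: ks) ω = ∑ v, K c ω v * EA K g ks (update ω c v) := rfl
      _ ≤ ∑ v, K c ω v * (E * (EA (fun c _ => μ c) g ks (update ω c v) + S)) := by
          apply sum_le_sum
          intro v _
          exact mul_le_mul_of_nonneg_left (IH _) ((hK c ω).1 v)
      _ = E * (∑ v, K c ω v * EA (fun c _ => μ c) g ks (update ω c v) + S) := by
          have : ∀ v, K c ω v * (E * (EA (fun c _ => μ c) g ks (update ω c v) + S)) =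
              E * (K c ω v * EA (fun c _ => μ c) g ks (update ω c v)) + K c ω v * (E * S) := by
            intro v
            ring
          simp_rw [this]
          rw [sum_add_distrib, ← sum_mul, (hK c ω).2, ← mul_sum]
          ring
      _ ≤ E * (((1 + ε c) * EA (fun c _ => μ c) g (c :: ks) ω + δ c) + S) := by
          apply mul_le_mul_of_nonneg_left _ hE0.le
          rw [hEM]
          linarith
      _ ≤ E * ((1 + ε c) * (EA (fun c _ => μ c) g (c :: ks) ω + (δ c + S))) := by
          apply mul_le_mul_of_nonneg_left _ hE0.le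
          have := mul_nonneg (hε c) (add_nonneg (hδ c) hS0)
          linarith
      _ ≤ E * (Real.exp (ε c) * (EA (fun c _ => μ c) g (c :: ks) ω + (δ c + S))) := by
          apply mul_le_mul_of_nonneg_left _ hE0.le
          apply mul_le_mul_of_nonneg_right _ (add_nonneg hEM0 (add_nonneg (hδ c) hS0))
          rw [add_comm]
          exact Real.add_one_le_exp _
      _ = _ := by
          rw [Real.exp_add]
          ring

theorem EM_map (π : ∀ c, V c ≃ V c) (hπ : ∀ c v, μ c (π c v) = μ c v) (g : (∀ c, V c) → ℝ)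
    (ks : List C) (ω : ∀ c, V c) :
    EA (fun c _ => μ c) (fun ω => g (fun c => π c (ω c))) ks ω =
      EA (fun c _ => μ c) g ks (fun c => π c (ω c)) := by
  induction ks generalizing ω with
  | nil => rfl
  | cons c ks ih =>
    change ∑ v, μ c v * EA (fun c _ => μ c) (fun ω => g (fun c => π c (ω c))) ks (update ω c v) =
      ∑ v, μ c v * EA (fun c _ => μ c) g ks (update (fun c => π c (ω c)) c v)
    conv_rhs => rw [← (π c).sum_comp]
    apply sum_congr rfl
    intro v _
    rw [ih, hπ]
    congr 2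
    funext c'
    by_cases hc : c' = c
    · subst hc
      rw [update_self, update_self]
    · rw [update_of_ne hc, update_of_ne hc]

theorem EM_congr (g : (∀ c, V c) → ℝ) (ks : List C) {ω ω' : ∀ c, V c}
    (h : ∀ c, c ∉ ks → ω c = ω' c) :
    EA (fun c _ => μ c) g ks ω = EA (fun c _ => μ c) g ks ω' := by
  induction ks generalizing ω ω' with
  | nil =>
    have : ω = ω' := funext fun c => h c (by simp)
    rw [this]
  | cons c ks ih =>
    apply sum_congr rfl
    intro v _
    rw [ih]
    intro c' hc'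
    by_cases hk : c' = c
    · subst hk
      rw [update_self, update_self]
    · rw [update_of_ne hk, update_of_ne hk]
      exact h c' (by simp [hk, hc'])

end EA

section agree

variable {C : Type} [DecidableEq C] {Z : C → Type} [∀ c, Fintype (Z c)]
  {X : Type} [Fintype X] [DecidableEq X]

/-- All answers on `Q` are correct. -/
def Agr (cd : X → C) (f : X → (∀ c, Bool × Z c) → Bool) (Q : Finset X) (ω : ∀ c, Bool × Z c) :
    Prop := ∀ x ∈ Q, f x ω = (ω (cd x)).1

/-- The permutation of a pair flipping the bit if `b`. -/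
def flipEquiv {A : Type} (b : Bool) : Bool × A ≃ Bool × A where
  toFun v := (xor v.1 b, v.2)
  invFun v := (xor v.1 b, v.2)
  left_inv v := by simp
  right_inv v := by simp

theorem ex_agree (Q : Finset X) (σ : X → Bool) :
    ex (fun b : X → Bool => if (∀ x ∈ Q, b x = σ x) then (1 : ℝ) else 0) = 1 / 2 ^ Q.card := by
  have h1 := mext_zero_ind Q σ
  rw [mext_zero_eq_ex] at h1
  have h2 : ind Q σ = fun b => (2 : ℝ) ^ Q.card * (if (∀ x ∈ Q, b x = σ x) then (1 : ℝ) else 0) := by
    funext b
    unfold ind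
    split_ifs <;> simp
  rw [h2, ex_mul_left] at h1
  have h3 : (2 : ℝ) ^ Q.card ≠ 0 := by positivity
  field_simp
  linarith

theorem EM_agree {μ : (c : C) → Bool × Z c → ℝ} (hμ : ∀ c, IsDist (μ c)) {cd : X → C}
    (hcd : Injective cd) {f : X → (∀ c, Bool × Z c) → Bool}
    (hf : ∀ x ω ω', (∀ c, (ω c).2 = (ω' c).2) → f x ω = f x ω')
    (hflip : ∀ x v, μ (cd x) (!v.1, v.2) = μ (cd x) v) (ks : List C) (hks : ∀ x, cd x ∈ ks)
    (Q : Finset X) (ω : ∀ c, Bool × Z c) :
    EA (fun c _ => μ c) (fun ω => if Agr cd f Q ω then (1 : ℝ) else 0) ks ω =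
      1 / 2 ^ Q.card := by
  let cb : (X → Bool) → C → Bool := fun b c => decide (∃ x, cd x = c ∧ b x = true)
  have hcb : ∀ b x, cb b (cd x) = b x := by
    intro b x
    simp only [cb]
    rw [Bool.eq_iff_iff, decide_eq_true_eq]
    constructor
    · rintro ⟨y, hy, h⟩
      rw [← hcd hy]
      exact h
    · intro h
      exact ⟨x, rfl, h⟩
  have hcb0 : ∀ b c, (∀ x, cd x ≠ c) → cb b c = false := by
    intro b c hc
    simp only [cb, decide_eq_false_iff_not]
    rintro ⟨x, hx, _⟩
    exact hc x hx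
  set g : (∀ c, Bool × Z c) → ℝ := fun ω => if Agr cd f Q ω then (1 : ℝ) else 0 with hg
  have h1 : ∀ b : X → Bool, EA (fun c _ => μ c) g ks ω =
      EA (fun c _ => μ c) (fun ω => g (fun c => flipEquiv (cb b c) (ω c))) ks ω := by
    intro b
    rw [EM_map (π := fun c => flipEquiv (cb b c))]
    · apply EM_congr
      intro c hc
      have : cb b c = false := hcb0 b c (fun x hx => hc (hx ▸ hks x))
      rw [this]
      simp [flipEquiv]
    · intro c v
      by_cases hc : ∃ x, cd x = c
      · obtain ⟨x, rfl⟩ := hc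
        rw [hcb]
        cases hb : b x
        · simp [flipEquiv]
        · have := hflip x v
          simpa [flipEquiv] using this
      · push Not at hc
        rw [hcb0 b c hc]
        simp [flipEquiv]
  have h2 : EA (fun c _ => μ c) g ks ω = ex (fun b : X → Bool =>
      EA (fun c _ => μ c) (fun ω => g (fun c => flipEquiv (cb b c) (ω c))) ks ω) := by
    simp_rw [← h1]
    rw [ex_const]
  have h3 : ex (fun b : X → Bool =>
      EA (fun c _ => μ c) (fun ω => g (fun c => flipEquiv (cb b c) (ω c))) ks ω) =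
      EA (fun c _ => μ c) (fun ω => ex (fun b : X → Bool =>
        g (fun c => flipEquiv (cb b c) (ω c)))) ks ω := by
    unfold ex
    have : ∀ ω : ∀ c, Bool × Z c, (∑ b : X → Bool, g (fun c => flipEquiv (cb b c) (ω c))) /
        (Fintype.card (X → Bool) : ℝ) = (1 / (Fintype.card (X → Bool) : ℝ)) *
        ∑ b : X → Bool, g (fun c => flipEquiv (cb b c) (ω c)) := by
      intro ω
      ring
    simp_rw [this]
    rw [EA_mul, EA_sum]
    ring
  have h4 : ∀ ω : ∀ c, Bool × Z c, ex (fun b : X → Bool =>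
      g (fun c => flipEquiv (cb b c) (ω c))) = 1 / 2 ^ Q.card := by
    intro ω
    rw [← ex_agree Q (fun x => xor (ω (cd x)).1 (f x ω))]
    congr 1
    funext b
    rw [hg]
    have e : Agr cd f Q (fun c => flipEquiv (cb b c) (ω c)) ↔
        ∀ x ∈ Q, b x = xor (ω (cd x)).1 (f x ω) := by
      unfold Agr
      apply forall_congr'
      intro x
      apply imp_congr_right
      intro _
      have e1 : f x (fun c => flipEquiv (cb b c) (ω c)) = f x ω := hf x _ _ (fun c => rfl)
      rw [e1]
      change f x ω = xor (ω (cd x)).1 (cb b (cd x)) ↔ _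
      rw [hcb]
      cases f x ω <;> cases (ω (cd x)).1 <;> cases b x <;> simp
    simp only [e]
  rw [h2, h3]
  simp_rw [h4]
  exact EA_const (fun c _ => hμ c) _ _ _

theorem choose_ratio {A N q : ℕ} {γ : ℝ} (hγ : 0 ≤ γ) (hA : (1 / 2 + γ) * N ≤ A)
    (hq : (q : ℝ) ≤ γ / 2 * N) : (N.choose q : ℝ) * ((1 + γ) / 2) ^ q ≤ A.choose q := by
  have hN0 : (0 : ℝ) ≤ N := Nat.cast_nonneg N
  have key : ∀ j ≤ q, (N.descFactorial j : ℝ) * ((1 + γ) / 2) ^ j ≤ A.descFactorial j := by
    intro j
    induction j with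
    | zero => intro _; simp
    | succ j ih =>
      intro hj
      have IH := ih (by omega)
      rw [Nat.descFactorial_succ, Nat.descFactorial_succ]
      push_cast
      have hjq : (j : ℝ) ≤ q := by exact_mod_cast (by omega : j ≤ q)
      have hjA : j ≤ A := by
        have : (j : ℝ) ≤ A := by nlinarith
        exact_mod_cast this
      rw [Nat.cast_sub hjA]
      have h1 : ((N - j : ℕ) : ℝ) * ((1 + γ) / 2) ≤ A - j := by
        have h2 : ((N - j : ℕ) : ℝ) ≤ N := by exact_mod_cast Nat.sub_le N j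
        have h3 : ((N - j : ℕ) : ℝ) * ((1 + γ) / 2) ≤ N * ((1 + γ) / 2) :=
          mul_le_mul_of_nonneg_right h2 (by linarith)
        linarith
      have h4 : 0 ≤ (N.descFactorial j : ℝ) * ((1 + γ) / 2) ^ j := by positivity
      have h5 : (0 : ℝ) ≤ A - j := by
        have : (j : ℝ) ≤ A := by exact_mod_cast hjA
        linarith
      calc ((N - j : ℕ) : ℝ) * (N.descFactorial j : ℝ) * ((1 + γ) / 2) ^ (j + 1)
          = (((N - j : ℕ) : ℝ) * ((1 + γ) / 2)) *
            ((N.descFactorial j : ℝ) * ((1 + γ) / 2) ^ j) := by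
            rw [pow_succ]
            ring
        _ ≤ (A - j) * (A.descFactorial j : ℝ) := mul_le_mul h1 IH h4 h5
  have h := key q le_rfl
  have hf : (0 : ℝ) < (q.factorial : ℝ) := by exact_mod_cast Nat.factorial_pos q
  rw [Nat.descFactorial_eq_factorial_mul_choose, Nat.descFactorial_eq_factorial_mul_choose] at h
  push_cast at h
  have h2 : (q.factorial : ℝ) * ((N.choose q : ℝ) * ((1 + γ) / 2) ^ q) ≤
      q.factorial * A.choose q := by linarith
  exact le_of_mul_le_mul_left h2 hf

theorem sum_agree (cd : X → C) (f : X → (∀ c, Bool × Z c) → Bool) (q : ℕ)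
    (ω : ∀ c, Bool × Z c) :
    ∑ Q ∈ powersetCard q (univ : Finset X), (if Agr cd f Q ω then (1 : ℝ) else 0) =
      ((univ.filter (fun x => f x ω = (ω (cd x)).1)).card.choose q : ℕ) := by
  rw [sum_boole, ← card_powersetCard]
  congr 2
  ext Q
  rw [mem_filter, mem_powersetCard, mem_powersetCard]
  constructor
  · rintro ⟨⟨_, h1⟩, h2⟩
    refine ⟨?_, h1⟩
    intro x hx
    rw [mem_filter]
    exact ⟨mem_univ x, h2 x hx⟩
  · rintro ⟨h1, h2⟩
    refine ⟨⟨subset_univ _, h2⟩, ?_⟩
    intro x hx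
    exact (mem_filter.mp (h1 hx)).2

/-- Many correct answers are unlikely. -/
theorem agree_bound {K : (c : C) → (∀ c, Bool × Z c) → Bool × Z c → ℝ}
    {μ : (c : C) → Bool × Z c → ℝ} (hK : ∀ c ω, IsDist (K c ω)) (hμ : ∀ c, IsDist (μ c))
    {cd : X → C} (hcd : Injective cd) {f : X → (∀ c, Bool × Z c) → Bool}
    (hf : ∀ x ω ω', (∀ c, (ω c).2 = (ω' c).2) → f x ω = f x ω')
    (hflip : ∀ x v, μ (cd x) (!v.1, v.2) = μ (cd x) v) (ks : List C) (hks : ∀ x, cd x ∈ ks)
    (hnd : ks.Nodup) {ε δ : C → ℝ} (hε : ∀ c, 0 ≤ ε c) (hδ : ∀ c, 0 ≤ δ c) {q : ℕ}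
    (hd : ∀ Q : Finset X, Q.card = q → ∀ c ∈ ks, ∀ ω ω' : ∀ c, Bool × Z c,
      ∑ v, K c ω v * (if Agr cd f Q (update ω' c v) then (1 : ℝ) else 0) ≤
      (1 + ε c) * ∑ v, μ c v * (if Agr cd f Q (update ω' c v) then (1 : ℝ) else 0) + δ c)
    (hεs : (ks.map ε).sum ≤ 1 / 2) {γ : ℝ} (hγ : 0 ≤ γ) (hγ1 : γ ≤ 1)
    (hq : (q : ℝ) ≤ γ / 2 * Fintype.card X) (ω : ∀ c, Bool × Z c) :
    EA K (fun ω => if (1 / 2 + γ) * Fintype.card X <
      ((univ.filter (fun x => f x ω = (ω (cd x)).1)).card : ℝ) then (1 : ℝ) else 0) ks ω ≤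
      2 * (1 / (1 + γ) ^ q + 2 ^ q * (ks.map δ).sum) := by
  set N := Fintype.card X with hN
  set S := (ks.map δ).sum with hS
  have hS0 : 0 ≤ S := by
    rw [hS]
    apply List.sum_nonneg
    intro x hx
    rw [List.mem_map] at hx
    obtain ⟨c', _, rfl⟩ := hx
    exact hδ c'
  have hQ : ∀ Q : Finset X, Q.card = q →
      EA K (fun ω => if Agr cd f Q ω then (1 : ℝ) else 0) ks ω ≤ 2 * (1 / 2 ^ q + S) := by
    intro Q hQq
    have h1 := EA_dom hK hμ (g := fun ω => if Agr cd f Q ω then (1 : ℝ) else 0)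
      (fun ω => by beta_reduce; split_ifs <;> norm_num) hε hδ ks hnd (hd Q hQq) ω
    rw [EM_agree hμ hcd hf hflip ks hks Q ω, hQq] at h1
    have h2 : Real.exp ((ks.map ε).sum) ≤ 2 := by
      calc Real.exp ((ks.map ε).sum) ≤ Real.exp (1 / 2) := Real.exp_le_exp.mpr hεs
        _ ≤ 2 := by
            have := Real.abs_exp_sub_one_le (x := 1 / 2) (by rw [abs_of_pos] <;> norm_num)
            rw [abs_of_pos (show (0 : ℝ) < 1 / 2 by norm_num)] at this
            have := (abs_le.mp this).2
            linarith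
    refine h1.trans ?_
    exact mul_le_mul_of_nonneg_right h2 (by positivity)
  have hqN : q ≤ N := by
    have h1 : (q : ℝ) ≤ N := by
      have : (0 : ℝ) ≤ N := Nat.cast_nonneg N
      nlinarith
    exact_mod_cast h1
  have hC : (0 : ℝ) < N.choose q := by exact_mod_cast Nat.choose_pos hqN
  have hr : (0 : ℝ) < ((1 + γ) / 2) ^ q := by positivity
  have hpt : ∀ ω : ∀ c, Bool × Z c, (if (1 / 2 + γ) * N <
      ((univ.filter (fun x => f x ω = (ω (cd x)).1)).card : ℝ) then (1 : ℝ) else 0) ≤
      (1 / (N.choose q * ((1 + γ) / 2) ^ q)) * ∑ Q ∈ powersetCard q (univ : Finset X),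
        (if Agr cd f Q ω then (1 : ℝ) else 0) := by
    intro ω
    rw [sum_agree]
    split_ifs with h
    · have := choose_ratio hγ h.le hq
      rw [one_div_mul_eq_div, le_div_iff₀ (by positivity), one_mul]
      exact this
    · positivity
  refine (EA_mono hK hpt ks ω).trans ?_
  rw [EA_mul, EA_sum]
  have h3 : ∑ Q ∈ powersetCard q (univ : Finset X),
      EA K (fun ω => if Agr cd f Q ω then (1 : ℝ) else 0) ks ω ≤
      N.choose q * (2 * (1 / 2 ^ q + S)) := by
    calc _ ≤ ∑ Q ∈ powersetCard q (univ : Finset X), 2 * (1 / 2 ^ q + S) := by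
          apply sum_le_sum
          intro Q hQm
          exact hQ Q (mem_powersetCard.mp hQm).2
      _ = _ := by
          rw [sum_const, card_powersetCard, card_univ, nsmul_eq_mul]
  calc _ ≤ (1 / (N.choose q * ((1 + γ) / 2) ^ q)) * (N.choose q * (2 * (1 / 2 ^ q + S))) :=
        mul_le_mul_of_nonneg_left h3 (by positivity)
    _ = 2 * (1 / (1 + γ) ^ q + 2 ^ q * S / (1 + γ) ^ q) := by
        rw [div_pow]
        have h1 : (2 : ℝ) ^ q ≠ 0 := by positivity
        have h2 : (1 + γ) ^ q ≠ 0 := by positivity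
        field_simp
    _ ≤ 2 * (1 / (1 + γ) ^ q + 2 ^ q * S) := by
        have h4 : 2 ^ q * S / (1 + γ) ^ q ≤ 2 ^ q * S := by
          apply div_le_self (by positivity)
          exact one_le_pow₀ (by linarith)
        linarith

end agree

section compact

theorem compact_choice {C : Type} {V : C → Type} [∀ c, Finite (V c)]
    (P : ℕ → (∀ c, V c) → Prop) (S : ℕ → Set C) (hS : ∀ j, (S j).Finite)
    (hloc : ∀ j ω ω', (∀ c ∈ S j, ω c = ω' c) → P j ω → P j ω')
    (hfin : ∀ L, ∃ ω, ∀ j < L, P j ω) : ∃ ω, ∀ j, P j ω := by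
  choose W hW using hfin
  let U : Ultrafilter ℕ := Filter.hyperfilter ℕ
  have h1 : ∀ c, ∃ v, ∀ᶠ L in (U : Filter ℕ), W L c = v := by
    intro c
    have h2 : ∀ᶠ L in (U : Filter ℕ), ∃ v, W L c = v := Filter.Eventually.of_forall fun L => ⟨_, rfl⟩
    have h3 := (Ultrafilter.eventually_exists_iff (f := U) (P := fun v L => W L c = v)).mp h2
    exact h3
  choose ω hω using h1
  refine ⟨ω, fun j => ?_⟩
  have h2 : ∀ᶠ L in (U : Filter ℕ), ∀ c ∈ S j, W L c = ω c := by
    rw [Filter.eventually_all_finite (hS j)]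
    exact fun c _ => hω c
  have h3 : ∀ᶠ L in (U : Filter ℕ), j < L := by
    have : ∀ᶠ L in (Filter.atTop : Filter ℕ), j < L := Filter.eventually_gt_atTop j
    rw [← Nat.cofinite_eq_atTop] at this
    exact Filter.hyperfilter_le_cofinite this
  obtain ⟨L, hL1, hL2⟩ := (h2.and h3).exists
  exact hloc j (W L) ω hL1 (hW L j hL2)

end compact

end Pool.Agent.Helper67.EQP
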