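import Pool.Agent.Helper67.EQP.Numeric
import Pool.Agent.Helper67.EQP.Defs

set_option autoImplicit false
set_option linter.unusedSectionVars false

/-!
From circuits to families of functions; the Sylvester-Hadamard matrix; the lower bound.
-/

namespace Pool.Agent.Helper67.EQP

open Finset Function Classical

section circuits

variable {ι : Type} [DecidableEq ι] {h d s : ℕ}

theorem DTree.dtd {ι : Type} [DecidableEq ι] (T : DTree ι) : DTd T.depth (fun x => T.eval x) := by
  induction T with
  | leaf b => exact DTd.const 0 b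
  | node i t0 t1 ih0 ih1 =>
    apply DTd.query _ i
    · have h1 := (ih0.mono (le_max_left t0.depth t1.depth)).upd i false
      have e : (fun x => (DTree.node i t0 t1).eval (update x i false)) =
          fun x => t0.eval (update x i false) := by
        funext x
        simp [DTree.eval]
      rw [e]
      exact h1
    · have h1 := (ih1.mono (le_max_right t0.depth t1.depth)).upd i true
      have e : (fun x => (DTree.node i t0 t1).eval (update x i true)) =
          fun x => t1.eval (update x i true) := by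
        funext x
        simp [DTree.eval]
      rw [e]
      exact h1

theorem Circuit.acfam (C : Circuit ι h d s) :
    ACfam d (fun j => (C.level j : ℕ)) (fun j x => decide (C.Fires x j)) := by
  intro j
  let W1 : Set ((ι → Bool) → Bool) := {a | ∃ T ∈ C.inp j, a = fun x => T.eval x}
  let W2 : Set ((ι → Bool) → Bool) :=
    {a | ∃ g' b, (g', b) ∈ C.wire j ∧ a = fun x => (decide (C.Fires x g') == b)}
  refine ⟨W1 ∪ W2, ?_, ?_⟩
  · rintro a (⟨T, hT, rfl⟩ | ⟨g', b, hw, rfl⟩)
    · left
      exact T.dtd.mono (C.inp_depth j T hT)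
    · right
      cases b
      · right
        refine ⟨g', C.level_lt _ _ _ hw, ?_⟩
        funext x
        change (!(decide (C.Fires x g') == false)) = decide (C.Fires x g')
        cases decide (C.Fires x g') <;> rfl
      · left
        refine ⟨g', C.level_lt _ _ _ hw, ?_⟩
        funext x
        change (decide (C.Fires x g') == true) = decide (C.Fires x g')
        cases decide (C.Fires x g') <;> rfl
  · have hval : ∀ x g' b, (decide (C.Fires x g') == b) = true ↔ (C.Fires x g' ↔ b = true) := by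
      intro x g' b
      by_cases hf : C.Fires x g' <;> cases b <;> simp [hf]
    by_cases hA : C.isAnd j = true
    · left
      intro x
      rw [decide_eq_true_eq, Circuit.Fires, if_pos hA]
      constructor
      · rintro ⟨h1, h2⟩ a (⟨T, hT, rfl⟩ | ⟨g', b, hw, rfl⟩)
        · exact h1 T hT
        · exact (hval x g' b).mpr (h2 g' b hw)
      · intro hall
        constructor
        · intro T hT
          exact hall _ (Or.inl ⟨T, hT, rfl⟩)
        · intro g' b hw
          exact (hval x g' b).mp (hall _ (Or.inr ⟨g', b, hw, rfl⟩))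
    · right
      intro x
      rw [decide_eq_true_eq, Circuit.Fires, if_neg hA]
      constructor
      · rintro (⟨T, hT, hx⟩ | ⟨g', b, hw, hx⟩)
        · exact ⟨_, Or.inl ⟨T, hT, rfl⟩, hx⟩
        · exact ⟨_, Or.inr ⟨g', b, hw, rfl⟩, (hval x g' b).mpr hx⟩
      · rintro ⟨a, (⟨T, hT, rfl⟩ | ⟨g', b, hw, rfl⟩), ha⟩
        · exact Or.inl ⟨T, hT, ha⟩
        · exact Or.inr ⟨g', b, hw, (hval x g' b).mp ha⟩

end circuits

section sylvester

theorem had_comm {n : ℕ} (i k : Fin n → Bool) : had i k = had k i := by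
  unfold had
  apply prod_congr rfl
  intro l _
  rw [Bool.and_comm]

theorem had_sq {n : ℕ} (i k : Fin n → Bool) : had i k ^ 2 = 1 := by
  unfold had
  rw [← prod_pow]
  apply prod_eq_one
  intro l _
  split_ifs <;> norm_num

theorem had_orth {n : ℕ} (i j : Fin n → Bool) :
    ∑ k, had i k * had j k = if i = j then 2 ^ n else 0 := by
  have h1 : ∀ k : Fin n → Bool, had i k * had j k =
      ∏ l, ((if i l && k l then (-1 : ℤ) else 1) * (if j l && k l then -1 else 1)) := by
    intro k
    unfold had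
    rw [← prod_mul_distrib]
  simp_rw [h1]
  have h2 := Finset.prod_univ_sum (fun _ : Fin n => (univ : Finset Bool))
    (fun l b => ((if i l && b then (-1 : ℤ) else 1) * (if j l && b then -1 else 1)))
  rw [Fintype.piFinset_univ] at h2
  rw [← h2]
  have h3 : ∀ l, ∑ b : Bool, ((if i l && b then (-1 : ℤ) else 1) * (if j l && b then -1 else 1)) =
      if i l = j l then 2 else 0 := by
    intro l
    rw [Fintype.sum_bool]
    cases i l <;> cases j l <;> simp
  simp_rw [h3]
  by_cases hij : i = j
  · subst hij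
    simp
  · rw [if_neg hij]
    have : ∃ l, i l ≠ j l := by
      by_contra hcon
      push Not at hcon
      exact hij (funext hcon)
    obtain ⟨l, hl⟩ := this
    exact prod_eq_zero (mem_univ l) (if_neg hl)

/-- The normalised Sylvester-Hadamard matrix. -/
noncomputable def hmat (m : ℕ) (i k : Fin (2 * m + 4) → Bool) : ℝ := (had i k : ℝ) / (4 * 2 ^ m)

theorem card_left (m : ℕ) : Fintype.card (Fin (2 * m + 4) → Bool) = 16 * 4 ^ m := by
  rw [Fintype.card_fun, Fintype.card_bool, Fintype.card_fin, pow_add, pow_mul]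
  norm_num
  ring

theorem card_right (m : ℕ) : Fintype.card (Fin (3 * m) → Bool) = 8 ^ m := by
  rw [Fintype.card_fun, Fintype.card_bool, Fintype.card_fin, pow_mul]
  norm_num

theorem four_pow_eq (m : ℕ) : (4 : ℝ) ^ m = 2 ^ m * 2 ^ m := by rw [← mul_pow]; norm_num

theorem hmat_orth (m : ℕ) : Orth (hmat m) where
  sq := by
    intro i k
    unfold hmat
    rw [div_pow, card_left]
    have : ((had i k : ℝ)) ^ 2 = 1 := by exact_mod_cast had_sq i k
    rw [this]
    push_cast
    rw [four_pow_eq]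
    ring
  row := by
    intro i j
    unfold hmat
    have h1 : ∀ k, (had i k : ℝ) / (4 * 2 ^ m) * ((had j k : ℝ) / (4 * 2 ^ m)) =
        ((had i k * had j k : ℤ) : ℝ) / (16 * 4 ^ m) := by
      intro k
      push_cast
      rw [four_pow_eq]
      field_simp
      try ring
    simp_rw [h1]
    rw [← sum_div, ← Int.cast_sum, had_orth]
    by_cases hij : i = j
    · rw [if_pos hij, if_pos hij]
      push_cast
      rw [pow_add, pow_mul]
      norm_num
      field_simp
    · rw [if_neg hij, if_neg hij]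
      simp
  col := by
    intro k l
    unfold hmat
    have h1 : ∀ i, (had i k : ℝ) / (4 * 2 ^ m) * ((had i l : ℝ) / (4 * 2 ^ m)) =
        ((had k i * had l i : ℤ) : ℝ) / (16 * 4 ^ m) := by
      intro i
      rw [had_comm i k, had_comm i l]
      push_cast
      rw [four_pow_eq]
      field_simp
      try ring
    simp_rw [h1]
    rw [← sum_div, ← Int.cast_sum, had_orth]
    by_cases hij : k = l
    · rw [if_pos hij, if_pos hij]
      push_cast
      rw [pow_add, pow_mul]
      norm_num
      field_simp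
    · rw [if_neg hij, if_neg hij]
      simp

/-- Integer forrelation part of the score. -/
def fsc (m : ℕ) (z : (Fin (2 * m + 4) → Bool) ⊕ (Fin (2 * m + 4) → Bool) → Bool) : ℤ :=
  ∑ i, ∑ k, had i k * spin (z (Sum.inl i)) * spin (z (Sum.inr k))

theorem spin_cast (b : Bool) : ((spin b : ℤ) : ℝ) = sg b := by
  cases b <;> simp [spin]

theorem eight_pow_eq (m : ℕ) : (8 : ℝ) ^ m = 2 ^ m * 4 ^ m := by rw [← mul_pow]; norm_num

theorem fsc_phi (m : ℕ) (z : (Fin (2 * m + 4) → Bool) ⊕ (Fin (2 * m + 4) → Bool) → Bool) :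
    (fsc m z : ℝ) = 64 * 8 ^ m * Phi (hmat m) (svec z) := by
  unfold fsc Phi hmat svec
  rw [card_left]
  push_cast
  simp_rw [spin_cast]
  rw [eight_pow_eq]
  have h4 : (4 : ℝ) ^ m ≠ 0 := by positivity
  have h2 : (2 : ℝ) ^ m ≠ 0 := by positivity
  rw [mul_div_assoc', eq_div_iff (by positivity), mul_sum, sum_mul]
  apply sum_congr rfl
  intro i _
  rw [mul_sum, sum_mul]
  apply sum_congr rfl
  intro k _
  field_simp
  ring

theorem fsc_even (m : ℕ) (z : (Fin (2 * m + 4) → Bool) ⊕ (Fin (2 * m + 4) → Bool) → Bool) :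
    (2 : ℤ) ∣ fsc m z := by
  have h1 : ((fsc m z : ℤ) : ZMod 2) = 0 := by
    unfold fsc
    push_cast
    have hs : ∀ b, ((spin b : ℤ) : ZMod 2) = 1 := by
      intro b
      cases b <;> decide
    have hh : ∀ i k : Fin (2 * m + 4) → Bool, ((had i k : ℤ) : ZMod 2) = 1 := by
      intro i k
      unfold had
      push_cast
      apply prod_eq_one
      intro l _
      split_ifs
      · decide
      · simp
    simp_rw [hs, hh]
    simp only [mul_one, sum_const, card_univ, card_left, nsmul_eq_mul]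
    push_cast
    have : (16 : ZMod 2) = 0 := by decide
    rw [this]
    ring
  exact (ZMod.intCast_zmod_eq_zero_iff_dvd _ 2).mp h1

theorem sum_spin {J : Type} [Fintype J] (r : J → Bool) :
    ∑ j, spin (r j) = Fintype.card J - 2 * ntrue r := by
  have h1 : ∀ j, spin (r j) = 1 - 2 * (if r j = true then 1 else 0) := by
    intro j
    cases r j <;> simp [spin]
  simp_rw [h1]
  rw [sum_sub_distrib, sum_const, card_univ, ← mul_sum, sum_boole]
  unfold ntrue
  simp

theorem fsc_negv (m : ℕ) (z : (Fin (2 * m + 4) → Bool) ⊕ (Fin (2 * m + 4) → Bool) → Bool) :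
    fsc m (negv z) = - fsc m z := by
  unfold fsc
  rw [← sum_neg_distrib]
  apply sum_congr rfl
  intro i _
  rw [← sum_neg_distrib]
  apply sum_congr rfl
  intro k _
  have : spin (negv z (Sum.inr k)) = - spin (z (Sum.inr k)) := by
    change spin (!z (Sum.inr k)) = _
    cases z (Sum.inr k) <;> simp [spin]
  rw [this]
  have : spin (negv z (Sum.inl i)) = spin (z (Sum.inl i)) := rfl
  rw [this]
  ring

theorem score_elim (m : ℕ) (z : (Fin (2 * m + 4) → Bool) ⊕ (Fin (2 * m + 4) → Bool) → Bool)
    (r : (Fin (3 * m) → Bool) → Bool) :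
    score m (Sum.elim z r) = fsc m z + (8 ^ m - 2 * ntrue r) := by
  unfold score fsc
  simp only [Sum.elim_inl, Sum.elim_inr]
  rw [sum_spin, card_right]
  push_cast
  rfl

theorem exists_ntrue {J : Type} [Fintype J] [DecidableEq J] {K : ℕ} (hK : K ≤ Fintype.card J) :
    ∃ r : J → Bool, ntrue r = K := by
  obtain ⟨t, -, ht⟩ := Finset.exists_subset_card_eq (s := (univ : Finset J)) (n := K)
    (by rw [card_univ]; exact hK)
  refine ⟨fun j => decide (j ∈ t), ?_⟩
  unfold ntrue
  rw [← ht]
  congr 1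
  ext j
  simp

end sylvester

theorem accProb_eq {ι : Type} [Fintype ι] [DecidableEq ι] {h d s : ℕ} (C : Circuit ι h d s)
    (μ : (ι → Bool) → ℝ) : C.accProb μ = ∑ x, μ x * b2 (decide (C.Fires x C.out)) := by
  unfold Circuit.accProb Circuit.Accepts
  apply sum_congr rfl
  intro x _
  by_cases hx : C.Fires x C.out
  · simp [hx, b2]
  · simp [hx, b2]

/-- The average case lower bound (with explicit parameters). -/
theorem avg_of {h s w m k X : ℕ} (hw : w = k + 5 * m) (hm : 0 < m) (hs : s ≤ 2 ^ k)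
    (hX : 2000 ≤ X) (H1 : (w * (32 * w) ^ h * X) ^ 2 ≤ 2 ^ m) :
    ∃ μ1 μ0 : (Idx m → Bool) → ℝ, IsDist μ1 ∧ IsDist μ0 ∧ (∀ x, ¬ Yes m x → μ1 x = 0) ∧
      (∀ x, ¬ No m x → μ0 x = 0) ∧
      ∀ (level : Fin s → ℕ) (g : Fin s → (Idx m → Bool) → Bool), ACfam w level g →
        (∀ j, level j < h) → ∀ j,
        |∑ x, μ1 x * b2 (g j x) - ∑ x, μ0 x * b2 (g j x)| ≤ 2458 / X := by
  obtain ⟨η, t, hP⟩ := params_ok hw hm hs hX H1
  set I := Fin (2 * m + 4) → Bool with hI
  set J := Fin (3 * m) → Bool with hJ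
  have hcI : ((Fintype.card I : ℕ) : ℝ) = 16 * 4 ^ m := by rw [card_left]; push_cast; ring
  have hcJ : ((Fintype.card J : ℕ) : ℝ) = 8 ^ m := by rw [card_right]; push_cast; ring
  rw [← hcI, ← hcJ] at hP
  have h128 : (128 : ℝ) * X ≤ 2 ^ m := by
    have h2 : 128 * X ≤ 2 ^ m := by
      have hw0 : 0 < w := by omega
      have h1 : 1 ≤ w * (32 * w) ^ h := by
        apply Nat.mul_pos hw0
        apply Nat.pow_pos
        omega
      calc 128 * X ≤ X * X := Nat.mul_le_mul_right _ (by omega)
        _ = (1 * X) ^ 2 := by ring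
        _ ≤ (w * (32 * w) ^ h * X) ^ 2 := by gcongr
        _ ≤ 2 ^ m := H1
    exact_mod_cast h2
  obtain ⟨m', hmdef⟩ : ∃ m', m = m' + 1 := ⟨m - 1, by omega⟩
  have hA : (8 : ℤ) ^ m = 8 * 8 ^ m' := by
    rw [hmdef, pow_add]; ring
  have hAr : (8 : ℝ) ^ m = 8 * 8 ^ m' := by exact_mod_cast hA
  have hfscR : ∀ z : I ⊕ I → Bool, Near (hmat m) (2 * X / 2 ^ m) z →
      |(fsc m z : ℝ) - 260 * 8 ^ m'| ≤ 128 * X * 4 ^ m := by
    intro z hz
    unfold Near at hz
    rw [fsc_phi]
    have e : 64 * (8 : ℝ) ^ m * Phi (hmat m) (svec z) - 260 * 8 ^ m' =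
        64 * 8 ^ m * (Phi (hmat m) (svec z) - 65 / 128) := by
      rw [mul_sub, hAr]; ring
    rw [e, abs_mul, abs_of_pos (by positivity)]
    calc 64 * (8 : ℝ) ^ m * |Phi (hmat m) (svec z) - 65 / 128| ≤ 64 * 8 ^ m * (2 * X / 2 ^ m) :=
          mul_le_mul_of_nonneg_left hz (by positivity)
      _ = 128 * X * 4 ^ m := by
          rw [eight_pow_eq]; field_simp; ring
  have h48 : (128 : ℝ) * X * 4 ^ m ≤ 8 ^ m := by
    rw [eight_pow_eq]
    exact mul_le_mul_of_nonneg_right h128 (by positivity)
  have hbnd : ∀ z : I ⊕ I → Bool, Near (hmat m) (2 * X / 2 ^ m) z →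
      |fsc m z - 260 * 8 ^ m'| ≤ 8 * 8 ^ m' := by
    intro z hz
    have h1 := (hfscR z hz).trans h48
    rw [hAr] at h1
    exact_mod_cast h1
  have hr1 : ∀ z : I ⊕ I → Bool, ∃ r : J → Bool, Near (hmat m) (2 * X / 2 ^ m) z →
      2 * (ntrue r : ℤ) = fsc m z - 252 * 8 ^ m' := by
    intro z
    by_cases hz : Near (hmat m) (2 * X / 2 ^ m) z
    · have h1 := abs_le.mp (hbnd z hz)
      obtain ⟨q, hq⟩ := fsc_even m z
      obtain ⟨r, hr⟩ := exists_ntrue (J := J) (K := (q - 126 * 8 ^ m').toNat) (by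
        rw [card_right, Int.toNat_le]
        push_cast
        rw [hA]
        linarith [h1.2])
      refine ⟨r, fun _ => ?_⟩
      rw [hr, Int.toNat_of_nonneg (by linarith [h1.1]), hq]
      ring
    · exact ⟨fun _ => false, fun h => absurd h hz⟩
  have hr0 : ∀ z : I ⊕ I → Bool, ∃ r : J → Bool, Near (hmat m) (2 * X / 2 ^ m) z →
      2 * (ntrue r : ℤ) = 268 * 8 ^ m' - fsc m z := by
    intro z
    by_cases hz : Near (hmat m) (2 * X / 2 ^ m) z
    · have h1 := abs_le.mp (hbnd z hz)
      obtain ⟨q, hq⟩ := fsc_even m z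
      obtain ⟨r, hr⟩ := exists_ntrue (J := J) (K := (134 * 8 ^ m' - q).toNat) (by
        rw [card_right, Int.toNat_le]
        push_cast
        rw [hA]
        linarith [h1.1])
      refine ⟨r, fun _ => ?_⟩
      rw [hr, Int.toNat_of_nonneg (by linarith [h1.2]), hq]
      ring
    · exact ⟨fun _ => false, fun h => absurd h hz⟩
  choose r1 hr1 using hr1
  choose r0 hr0 using hr0
  obtain ⟨μ1, μ0, hd1, hd0, hs1, hs0, hb⟩ := hard_core (hmat_orth m) hP
    (by rw [Fintype.card_sum, card_left]; ring) r1 r0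
    (by
      intro z hz
      rw [hcJ, hAr]
      have h1 : (2 : ℝ) * ntrue (r1 z) = fsc m z - 252 * 8 ^ m' := by exact_mod_cast hr1 z hz
      rw [h1]
      have : (fsc m z : ℝ) - 252 * 8 ^ m' - 8 * 8 ^ m' = fsc m z - 260 * 8 ^ m' := by ring
      rw [this]
      exact hfscR z hz)
    (by
      intro z hz
      rw [hcJ, hAr]
      have h1 : (2 : ℝ) * ntrue (r0 z) = 268 * 8 ^ m' - fsc m z := by exact_mod_cast hr0 z hz
      rw [h1]
      have : (268 : ℝ) * 8 ^ m' - fsc m z - 8 * 8 ^ m' = -(fsc m z - 260 * 8 ^ m') := by ring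
      rw [this, abs_neg]
      exact hfscR z hz)
    (Yes m) (No m)
    (by
      intro z hz r hr
      unfold Yes
      rw [score_elim, hr, hr1 z hz, hA]
      ring)
    (by
      intro z hz r hr
      unfold No
      rw [score_elim, fsc_negv, hr, hr0 z hz, hA]
      ring)
  refine ⟨μ1, μ0, hd1, hd0, hs1, hs0, fun level g hg hl j => ?_⟩
  refine (hb level g hg hl j).trans (le_of_eq ?_)
  ring

end Pool.Agent.Helper67.EQP
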