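import Pool.Agent.Helper67.EQP.CHyb

set_option autoImplicit false
set_option linter.unusedSectionVars false

/-!
The stages of the construction.
-/

namespace Pool.Agent.Helper67.EQP

open Finset Function Classical

section growth

theorem verySlow_id : VerySlow (fun n => n) := by
  intro a
  obtain ⟨s0, hs0⟩ := pow_lt_two_pow (4 * a) 2
  refine ⟨2 ^ s0, fun n hn => ?_⟩
  beta_reduce
  set S := n + n with hS
  set σ := S.size with hσ
  have h1 : S < 2 ^ σ := Nat.lt_size_self S
  have h2 : s0 ≤ σ := by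
    by_contra hlt
    push Not at hlt
    have h3 : 2 ^ σ ≤ 2 ^ s0 := Nat.pow_le_pow_right (by norm_num) hlt.le
    omega
  have hσ0 : 0 < σ := by
    rw [hσ, Nat.size_pos]
    have : 0 < 2 ^ s0 := by positivity
    omega
  have h3 := hs0 σ h2
  have h4 : 2 ^ (σ - 1) ≤ S := by
    by_contra hlt
    push Not at hlt
    have := Nat.size_le.mpr hlt
    omega
  have h5 : 2 ^ σ = 2 * 2 ^ (σ - 1) := by
    rw [← pow_succ']
    congr 1
    omega
  have h6 : a * σ ^ 2 < n := by
    have : 4 * a * σ ^ 2 < 2 * (n + n) := by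
      calc 4 * a * σ ^ 2 < 2 ^ σ := h3
        _ = 2 * 2 ^ (σ - 1) := h5
        _ ≤ 2 * (n + n) := Nat.mul_le_mul_left _ h4
    nlinarith
  calc S ^ (a * σ) ≤ (2 ^ σ) ^ (a * σ) := Nat.pow_le_pow_left h1.le _
    _ = 2 ^ (a * σ ^ 2) := by
        rw [← pow_mul]
        congr 1
        ring
    _ < 2 ^ n := Nat.pow_lt_pow_right (by norm_num) h6

theorem growth2 {t : ℕ → ℕ} (hs : VerySlow t) (c q : ℕ) : ∃ n1 : ℕ, ∀ n ≥ n1,
    4 * (160 * (32 * ((8 * (t n ^ c + c) + q + 2) + 20 * (t n ^ c + c) + 20)) ^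
      (2 * (t n ^ c + c).size + 4)) < 2 ^ n := by
  obtain ⟨n1, hn1⟩ := hs (1 + (c + 3) * (2 * (c + 1) + 4))
  refine ⟨max n1 (640 + 2 * c + 32 * (28 + q + 22)), fun n hn => ?_⟩
  have hn_1 : n1 ≤ n := le_trans (le_max_left _ _) hn
  have hn_2 : 640 + 2 * c + 32 * (28 + q + 22) ≤ n := le_trans (le_max_right _ _) hn
  have h1 := hn1 n hn_1
  set S := t n + n with hS
  set T := t n ^ c + c with hT
  have hSn : n ≤ S := by omega
  have hS1 : 1 ≤ S := by omega
  have hST : t n ≤ S := by omega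
  have htc : t n ^ c ≤ S ^ c := Nat.pow_le_pow_left hST c
  have hSc : 1 ≤ S ^ c := Nat.one_le_pow _ _ hS1
  have hT1 : T ≤ S ^ (c + 1) := by
    rw [hT, pow_succ]
    have h2 : c + 1 ≤ S := by omega
    have h3 : S ^ c * (c + 1) ≤ S ^ c * S := Nat.mul_le_mul_left _ h2
    have h4 : t n ^ c + c ≤ S ^ c * (c + 1) := by nlinarith
    omega
  have hsz : T.size ≤ (c + 1) * S.size := by
    rw [Nat.size_le]
    calc T ≤ S ^ (c + 1) := hT1
      _ < (2 ^ S.size) ^ (c + 1) := Nat.pow_lt_pow_left (Nat.lt_size_self S) (by omega)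
      _ = 2 ^ ((c + 1) * S.size) := by rw [← pow_mul, mul_comm]
  have hS0 : 1 ≤ S.size := by
    have := Nat.size_pos.mpr (show 0 < S by omega)
    omega
  have hbase : 32 * ((8 * T + q + 2) + 20 * T + 20) ≤ S ^ (c + 3) := by
    have h2 : 1 ≤ S ^ (c + 1) := Nat.one_le_pow _ _ hS1
    have h3 : 32 * ((8 * T + q + 2) + 20 * T + 20) ≤ 32 * (28 + q + 22) * S ^ (c + 1) := by
      nlinarith
    have h4 : 32 * (28 + q + 22) ≤ S := (Nat.le_add_left _ _).trans (hn_2.trans hSn)
    calc 32 * ((8 * T + q + 2) + 20 * T + 20) ≤ 32 * (28 + q + 22) * S ^ (c + 1) := h3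
      _ ≤ S * S ^ (c + 1) := Nat.mul_le_mul_right _ h4
      _ = S ^ (c + 2) := by ring
      _ ≤ S ^ (c + 3) := Nat.pow_le_pow_right hS1 (by omega)
  have hexp : 2 * T.size + 4 ≤ (2 * (c + 1) + 4) * S.size := by nlinarith
  have h640 : 4 * 160 ≤ S := by
    have h2 : 4 * 160 ≤ 640 + 2 * c + 32 * (28 + q + 22) := by
      rw [add_assoc]
      exact Nat.le_add_right _ _
    exact h2.trans (hn_2.trans hSn)
  calc 4 * (160 * (32 * ((8 * T + q + 2) + 20 * T + 20)) ^ (2 * T.size + 4))
      = (4 * 160) * (32 * ((8 * T + q + 2) + 20 * T + 20)) ^ (2 * T.size + 4) := by ring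
    _ ≤ S * (S ^ (c + 3)) ^ (2 * T.size + 4) := by gcongr
    _ ≤ S * (S ^ (c + 3)) ^ ((2 * (c + 1) + 4) * S.size) := by
        apply Nat.mul_le_mul_left
        exact Nat.pow_le_pow_right (Nat.one_le_pow _ _ hS1) hexp
    _ = S ^ (1 + (c + 3) * ((2 * (c + 1) + 4) * S.size)) := by
        rw [← pow_mul, pow_add, pow_one]
    _ ≤ S ^ ((1 + (c + 3) * (2 * (c + 1) + 4)) * S.size) := by
        apply Nat.pow_le_pow_right hS1
        nlinarith
    _ < 2 ^ n := h1

end growth

theorem DTree.All.mono {K : Type} {P P' : K → Prop} (hP : ∀ k, P k → P' k) {T : DTree K}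
    (hT : T.All P) : T.All P' := by
  induction T with
  | leaf b => trivial
  | node i t0 t1 ih0 ih1 => exact ⟨hP i hT.1, ih0 hT.2.1, ih1 hT.2.2⟩

section stage

variable (N : ℕ → NMachine) (F : ℕ → OFun)

/-- Some of the first `q` machines accepts. -/
def SomeAcc {t : ℕ → ℕ} (M : ℕ → DMachine t) (q : ℕ) (kl : Finset ℕ) (n : ℕ) (X : Cont) : Prop :=
  ∃ i : Fin q, i.1 ∉ kl ∧ (M i.1).Accepts (BX N X) n

theorem someAcc_comp {t : ℕ → ℕ} (M : ℕ → DMachine t) (q : ℕ) (kl : Finset ℕ) (n c : ℕ)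
    (hc : ∀ i < q, (M i).c ≤ c) (X : Cont) (κ : List Bool) :
    Comp 1 (2 * (t n ^ c + c).size + 3) (2 ^ (8 * (t n ^ c + c) + q + 2))
      (fun y : Idx (par κ) → Bool => decide (SomeAcc N M q kl n (update X κ y))) := by
  set T := t n ^ c + c with hT
  have h1 : ∀ i : Fin q, Comp 1 (2 * T.size + 2) (2 ^ (8 * T + 1))
      (fun y : Idx (par κ) → Bool =>
        decide (i.1 ∉ kl ∧ (M i.1).Accepts (BX N (update X κ y)) n)) := by
    intro i
    by_cases hi : i.1 ∈ kl
    · have : (fun y : Idx (par κ) → Bool =>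
        decide (i.1 ∉ kl ∧ (M i.1).Accepts (BX N (update X κ y)) n)) = fun _ => false := by
        funext y
        simp [hi]
      rw [this]
      exact Comp.of_dtd (DTd.const _ _) _ _
    · have : (fun y : Idx (par κ) → Bool =>
        decide (i.1 ∉ kl ∧ (M i.1).Accepts (BX N (update X κ y)) n)) =
          fun y => ((M i.1).tree n).eval (BX N (update X κ y)) := by
        funext y
        rw [Bool.eq_iff_iff, decide_eq_true_eq]
        simp only [hi, not_false_eq_true, true_and]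
        rfl
      rw [this]
      have hT' : t n ^ (M i.1).c + (M i.1).c ≤ T := bound_mono (t n) (hc i.1 i.2)
      have h2 := Comp.tree (ι := Idx (par κ)) (w := 1) (h := 2 * T.size) (s := 2 ^ (6 * T))
        (d := T) (fun s : List Bool => s.length ≤ T) ((M i.1).tree n)
        (((M i.1).depth_le n).trans hT')
        (((M i.1).short n).mono (fun s hs => hs.trans hT'))
        (fun y => BX N (update X κ y)) (by
          intro s hs
          apply (BX_comp N X κ s).mono
          · have := Nat.size_le_size hs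
            omega
          · exact Nat.pow_le_pow_right (by norm_num) (by omega))
      apply h2.mono le_rfl
      have a1 : 1 ≤ 2 ^ (6 * T) := Nat.one_le_two_pow
      have a2 : T + 1 ≤ 2 ^ T := Nat.lt_two_pow_self
      have a3 : 1 + T * 2 ^ (6 * T) ≤ 2 ^ T * 2 ^ (6 * T) := by nlinarith
      calc 1 + 2 ^ T * (1 + T * 2 ^ (6 * T)) ≤ 1 + 2 ^ T * (2 ^ T * 2 ^ (6 * T)) := by
            have := Nat.mul_le_mul_left (2 ^ T) a3
            omega
        _ = 1 + 2 ^ (8 * T) := by
            rw [← pow_add, ← pow_add]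
            congr 2
            ring
        _ ≤ 2 ^ (8 * T) + 2 ^ (8 * T) := by
            have : 1 ≤ 2 ^ (8 * T) := Nat.one_le_two_pow
            omega
        _ = 2 ^ (8 * T + 1) := by ring
  have h3 := Comp.gate h1 (F := fun y : Idx (par κ) → Bool =>
    decide (SomeAcc N M q kl n (update X κ y))) (Or.inr (fun y => by simp [SomeAcc]))
  rw [Fintype.card_fin] at h3
  apply h3.mono le_rfl
  have a1 : 1 ≤ 2 ^ (8 * T + 1) := Nat.one_le_two_pow
  have a2 : q + 1 ≤ 2 ^ q := Nat.lt_two_pow_self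
  calc 1 + q * 2 ^ (8 * T + 1) ≤ (q + 1) * 2 ^ (8 * T + 1) := by nlinarith
    _ ≤ 2 ^ q * 2 ^ (8 * T + 1) := Nat.mul_le_mul_right _ a2
    _ = 2 ^ (q + (8 * T + 1)) := (pow_add _ _ _).symm
    _ ≤ 2 ^ (8 * T + q + 2) := Nat.pow_le_pow_right (by norm_num) (by omega)

theorem DMachine.accepts_congr {t : ℕ → ℕ} (M : DMachine t) {B B' : List Bool → Bool} {n : ℕ}
    (h : ∀ s, s.length ≤ t n ^ M.c + M.c → B s = B' s) : M.Accepts B n ↔ M.Accepts B' n := by
  unfold DMachine.Accepts
  rw [tree_congr (M.short n) h]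

theorem someAcc_congr {t : ℕ → ℕ} (M : ℕ → DMachine t) (q : ℕ) (kl : Finset ℕ) (n c : ℕ)
    (hc : ∀ i < q, (M i).c ≤ c) {X X' : Cont}
    (h : ∀ κ, κ.length ≤ t n ^ c + c → X κ = X' κ) :
    SomeAcc N M q kl n X ↔ SomeAcc N M q kl n X' := by
  unfold SomeAcc
  apply exists_congr
  intro i
  apply and_congr_right
  intro _
  apply DMachine.accepts_congr
  intro s hs
  have hT' : t n ^ (M i.1).c + (M i.1).c ≤ t n ^ c + c := bound_mono (t n) (hc i.1 i.2)
  apply BX_congr N (l := t n ^ c + c) _ s (hs.trans hT')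
  intro κ hκ
  exact h κ (by omega)

/-- One stage of the construction. -/
theorem stage2 {t : ℕ → ℕ} (ht : VerySlow t) (M : ℕ → DMachine t) (q : ℕ) (kl : Finset ℕ)
    (n0 : ℕ) : ∃ n, n0 ≤ n ∧ ∀ (δ0 : (κ : List Bool) → Pair κ) (β1 β0 : ℕ → Bool),
      (∀ n' < n, β1 n' = β0 n') →
      ∃ δ : (κ : List Bool) → Pair κ, (∀ κ, κ.length < n → δ κ = δ0 κ) ∧
        (¬ SomeAcc N M q kl n (XA N F δ β1) ∨ SomeAcc N M q kl n (XA N F δ β0)) := by
  set c := (range q).sup (fun i => (M i).c) with hc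
  have hcq : ∀ i < q, (M i).c ≤ c := fun i hi =>
    Finset.le_sup (f := fun i => (M i).c) (mem_range.mpr hi)
  obtain ⟨n1, hn1⟩ := growth2 ht c q
  set n := max n1 n0 with hn
  refine ⟨n, le_max_right _ _, ?_⟩
  have hlt := hn1 n (le_max_left _ _)
  intro δ0 β1 β0 hβ
  by_contra hcon
  push Not at hcon
  set T := t n ^ c + c with hT
  set K := 8 * T + q + 2 with hK
  have hexist : ∀ κ : List Bool, ∃ μ1 μ0 : (Idx (par κ) → Bool) → ℝ, IsDist μ1 ∧ IsDist μ0 ∧
      (∀ x, ¬ Yes (par κ) x → μ1 x = 0) ∧ (∀ x, ¬ No (par κ) x → μ0 x = 0) ∧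
      ∀ f : (Idx (par κ) → Bool) → Bool, Comp 1 (2 * T.size + 3) (2 ^ K) f →
        |∑ x, μ1 x * b2 (f x) - ∑ x, μ0 x * b2 (f x)| ≤
          160 * (32 * (K + 5 * par κ)) ^ (2 * T.size + 3 + 1) / Real.sqrt (2 ^ par κ) :=
    fun κ => avg_comp (2 * T.size + 3) (par κ) K 1 (Nat.succ_pos _) (by omega)
      (by have : par κ = 4 * κ.length + 4 := rfl
          omega)
  choose μ1 μ0 h1 h0 hs1 hs0 hbd using hexist
  set Q : ℝ := 160 * (32 * ((K : ℝ) + 20 * T + 20)) ^ (2 * T.size + 4) with hQ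
  have hQ0 : 0 ≤ Q := by positivity
  have hQn : 4 * Q < 2 ^ n := by
    have : (4 * (160 * (32 * (K + 20 * T + 20)) ^ (2 * T.size + 4)) : ℕ) < 2 ^ n := hlt
    rw [hQ]
    exact_mod_cast this
  apply hyb_main N F h1 h0 hs1 hs0 (g := fun X => b2 (decide (SomeAcc N M q kl n X)))
    (n := n) (b := T) hQ0 hQn _ _ δ0 β1 β0 hβ
  · intro δ hδ
    have := (hcon δ hδ).1
    beta_reduce
    rw [decide_eq_true this]
    rfl
  · intro δ hδ
    have := (hcon δ hδ).2
    beta_reduce
    rw [decide_eq_false this]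
    rfl
  · intro X X' h
    have := someAcc_congr N M q kl n c hcq h
    simp only [this]
  · intro κ hκ X
    refine (hbd κ _ (someAcc_comp N M q kl n c hcq X κ)).trans ?_
    have e1 : Real.sqrt (2 ^ par κ) = 4 * 4 ^ κ.length := by
      rw [Real.sqrt_eq_iff_mul_self_eq (by positivity) (by positivity)]
      have : (4 : ℝ) ^ κ.length = 2 ^ (2 * κ.length) := by
        rw [pow_mul]; norm_num
      rw [this]
      rw [show par κ = 4 * κ.length + 4 from rfl]
      ring
    rw [e1]
    have e2 : (160 * (32 * ((K : ℝ) + 5 * (par κ : ℕ))) ^ (2 * T.size + 3 + 1) : ℝ) ≤ Q := by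
      rw [hQ]
      have h5 : ((κ.length : ℕ) : ℝ) ≤ T := by exact_mod_cast hκ
      have h6 : (32 * ((K : ℝ) + 5 * (par κ : ℕ)) : ℝ) ≤ 32 * ((K : ℝ) + 20 * T + 20) := by
        have : ((par κ : ℕ) : ℝ) = 4 * κ.length + 4 := by
          rw [show par κ = 4 * κ.length + 4 from rfl]
          push_cast
          ring
        rw [this]
        linarith
      have h7 : (0 : ℝ) ≤ 32 * ((K : ℝ) + 5 * (par κ : ℕ)) := by positivity
      have h8 := pow_le_pow_left₀ h7 h6 (2 * T.size + 4)
      linarith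
    have h4 : (0 : ℝ) < 4 ^ κ.length := by positivity
    calc (160 * (32 * ((K : ℝ) + 5 * (par κ : ℕ))) ^ (2 * T.size + 3 + 1) : ℝ) /
          (4 * 4 ^ κ.length) ≤ Q / (4 * 4 ^ κ.length) := by gcongr
      _ ≤ Q / 4 ^ κ.length := by
          apply div_le_div_of_nonneg_left hQ0 h4
          linarith

end stage

section main

variable (N : ℕ → NMachine) (F : ℕ → OFun)

/-- The oracle with all its properties. -/
theorem exists_world {t : ℕ → ℕ} (ht : VerySlow t) (M : ℕ → DMachine t) :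
    ∃ (δ : (κ : List Bool) → Pair κ) (β : ℕ → Bool), {n | β n = true}.Infinite ∧
      ∀ i, {n | (M i).Accepts (BX N (XA N F δ β)) n} ⊆ {n | β n = true} →
        {n | (M i).Accepts (BX N (XA N F δ β)) n}.Finite := by
  let D : ℕ → Type := fun n => ((κ : {κ : List Bool // κ.length = n}) → Pair κ.1) × Bool
  let fl : ((n : ℕ) → D n) → (κ : List Bool) → Pair κ := fun A κ => (A κ.length).1 ⟨κ, rfl⟩
  let bt : ((n : ℕ) → D n) → ℕ → Bool := fun A n => (A n).2
  let un : ((κ : List Bool) → Pair κ) → (ℕ → Bool) → (n : ℕ) → D n :=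
    fun δ β n => (fun κ => δ κ.1, β n)
  have hfl : ∀ δ β, fl (un δ β) = δ := fun δ β => rfl
  have hbt : ∀ δ β, bt (un δ β) = β := fun δ β => rfl
  have hpos : ∀ κ : List Bool, 0 < par κ := fun κ => by
    have : par κ = 4 * κ.length + 4 := rfl
    omega
  have hdef : ∀ κ, ∃ p : Pair κ, True := fun κ => by
    obtain ⟨y, hy⟩ := exists_yes (hpos κ)
    obtain ⟨z, hz⟩ := exists_no (hpos κ)
    exact ⟨(⟨y, hy⟩, ⟨z, hz⟩), trivial⟩
  choose δd _ using hdef
  obtain ⟨A, hA1, hA2⟩ := immune (D := D) (fun _ d => d.2 = true)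
    (fun i A n => (M i).Accepts (BX N (XA N F (fl A) (bt A))) n)
    (un δd (fun _ => false)) (by
      intro i n
      refine ⟨t n ^ (M i).c + (M i).c + 1, fun A A' h => ?_⟩
      apply DMachine.accepts_congr
      intro s hs
      apply BX_congr N (l := t n ^ (M i).c + (M i).c) _ s hs
      intro κ hκ
      apply XA_congr N F (l := t n ^ (M i).c + (M i).c + 1)
      · intro κ' hκ'
        simp only [fl, h κ'.length hκ']
      · intro n' hn'
        simp only [bt, h n' hn']
      · omega) (by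
      intro A q kl n0
      obtain ⟨n, hn, hst⟩ := stage2 N F ht M q kl n0
      let δ0 : (κ : List Bool) → Pair κ := fun κ => if κ.length < n0 then fl A κ else δd κ
      let β0 : ℕ → Bool := fun n' => if n' < n0 then bt A n' else false
      obtain ⟨δ, h1, h2⟩ := hst δ0 (update β0 n true) β0 (by
        intro n' hn'
        rw [update_of_ne (by omega)])
      have hδ : ∀ κ, κ.length < n0 → δ κ = fl A κ := by
        intro κ hκ
        rw [h1 κ (by omega)]
        simp only [δ0, if_pos hκ]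
      have hβn : β0 n = false := by
        simp only [β0, if_neg (not_lt.mpr hn)]
      have hagree : ∀ β : ℕ → Bool, (∀ n' < n0, β n' = bt A n') → ∀ n' < n0,
          un δ β n' = A n' := by
        intro β hβ n' hn'
        refine Prod.ext ?_ (hβ n' hn')
        funext κ
        obtain ⟨κ, hκ⟩ := κ
        subst hκ
        exact hδ κ hn'
      rcases h2 with h2 | h2
      · refine ⟨n, un δ (update β0 n true), hn, ?_, ?_, Or.inl ⟨?_, ?_⟩⟩
        · apply hagree
          intro n' hn'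
          rw [update_of_ne (by omega)]
          simp only [β0, if_pos hn']
        · intro n' hn' hne
          change ¬ (update β0 n true n' = true)
          rw [update_of_ne hne]
          simp only [β0, if_neg (not_lt.mpr hn')]
          simp
        · change update β0 n true n = true
          rw [update_self]
        · intro i hi hik hacc
          exact h2 ⟨⟨i, hi⟩, hik, hacc⟩
      · refine ⟨n, un δ β0, hn, ?_, ?_, Or.inr ⟨?_, ?_⟩⟩
        · apply hagree
          intro n' hn'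
          simp only [β0, if_pos hn']
        · intro n' hn' hne
          change ¬ (β0 n' = true)
          simp only [β0, if_neg (not_lt.mpr hn')]
          simp
        · change ¬ (β0 n = true)
          rw [hβn]
          simp
        · obtain ⟨i, hik, hacc⟩ := h2
          exact ⟨i.1, i.2, hik, hacc⟩)
  exact ⟨fl A, bt A, hA1, hA2⟩

end main

end Pool.Agent.Helper67.EQP
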