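import Pool.Agent.Helper67.EQP.CComp

set_option autoImplicit false
set_option linter.unusedSectionVars false

/-!
The oracle defined by the contents of the blocks, and the contents defined by the data.
-/

namespace Pool.Agent.Helper67.EQP

open Finset Function Classical

section fix

variable {K : Type} {V : K → Type}

/-- Fixed points of operators which look only at entries of smaller rank. -/
theorem exists_fix (r : K → ℕ) (Φ : (∀ k, V k) → ∀ k, V k) (X0 : ∀ k, V k)
    (hΦ : ∀ k X X', (∀ k', r k' < r k → X k' = X' k') → Φ X k = Φ X' k) :
    ∃ X : ∀ k, V k, ∀ k, X k = Φ X k := by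
  let f : ℕ → ∀ k, V k := fun n => Φ^[n] X0
  have hfs : ∀ n, f (n + 1) = Φ (f n) := fun n => Function.iterate_succ_apply' Φ n X0
  have hst : ∀ n k, r k < n → f n k = f (n + 1) k := by
    intro n
    induction n with
    | zero => intro k hk; exact absurd hk (Nat.not_lt_zero _)
    | succ n ih =>
      intro k hk
      rw [hfs n, hfs (n + 1)]
      apply hΦ
      intro k' hk'
      exact ih k' (by omega)
  have hst2 : ∀ n d k, r k < n → f n k = f (n + d) k := by
    intro n d k hk
    induction d with
    | zero => rfl
    | succ d ih => rw [ih, ← add_assoc]; exact hst (n + d) k (by omega)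
  refine ⟨fun k => f (r k + 1) k, fun k => ?_⟩
  change f (r k + 1) k = Φ (fun k => f (r k + 1) k) k
  rw [hfs]
  apply hΦ
  intro k' hk'
  obtain ⟨d, hd⟩ := Nat.exists_eq_add_of_le (show r k' + 1 ≤ r k by omega)
  rw [hd]
  exact (hst2 (r k' + 1) d k' (by omega)).symm

end fix

section codes

theorem rep_inj {a b : ℕ} {u v : List Bool}
    (h : List.replicate a true ++ false :: u = List.replicate b true ++ false :: v) :
    a = b ∧ u = v := by
  induction a generalizing b with
  | zero =>
    cases b with
    | zero => simpa using h
    | succ b => simp [List.replicate_succ] at h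
  | succ a ih =>
    cases b with
    | zero => simp [List.replicate_succ] at h
    | succ b =>
      simp only [List.replicate_succ, List.cons_append, List.cons.injEq, true_and] at h
      obtain ⟨h1, h2⟩ := ih h
      exact ⟨by rw [h1], h2⟩

theorem pcode_inj {i T i' T' : ℕ} {x x' : List Bool} (h : pcode i T x = pcode i' T' x') :
    i = i' ∧ x = x' := by
  unfold pcode at h
  obtain ⟨h1, h2⟩ := rep_inj h
  exact ⟨h1, (rep_inj h2).2⟩

theorem pcode_length (i T : ℕ) (x : List Bool) : (pcode i T x).length = i + T + x.length + 2 := by
  simp [pcode]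
  omega

theorem pcode_ne_ones {i T n : ℕ} {x : List Bool} : pcode i T x ≠ List.replicate n true := by
  intro h
  have h1 : false ∈ pcode i T x := by
    simp [pcode]
  rw [h] at h1
  simp at h1

/-- The strings which encode the content of the block with the code `κ`. -/
def bstr (κ : List Bool) (a : B0 (par κ) × Bool) : List Bool := false :: (κ ++ enc (par κ) a)

theorem bstr_length (κ : List Bool) (a : B0 (par κ) × Bool) :
    (bstr κ a).length = 13 * κ.length + 20 := by
  unfold bstr
  rw [List.length_cons, List.length_append, enc_length]
  have : par κ = 4 * κ.length + 4 := rfl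
  omega

/-- Contents of all blocks. -/
abbrev Cont : Type := (κ : List Bool) → Idx (par κ) → Bool

/-- The bit at a string of a block. -/
def Hit (X : Cont) (s : List Bool) : Prop :=
  ∃ (κ : List Bool) (a : B0 (par κ) × Bool) (i : Idx (par κ)),
    s = bstr κ a ∧ posn (par κ) a = some i ∧ X κ i = true

theorem bstr_inj {κ κ' : List Bool} {a : B0 (par κ) × Bool} {a' : B0 (par κ') × Bool}
    (h : bstr κ a = bstr κ' a') : κ = κ' := by
  have hl := congrArg List.length h
  rw [bstr_length, bstr_length] at hl
  unfold bstr at h
  rw [List.cons.injEq] at h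
  exact (List.append_inj h.2 (by omega)).1

theorem hit_bstr {X : Cont} {κ : List Bool} {a : B0 (par κ) × Bool} :
    Hit X (bstr κ a) ↔ ∃ i, posn (par κ) a = some i ∧ X κ i = true := by
  constructor
  · rintro ⟨κ', a', i, h1, h2, h3⟩
    have hκ : κ = κ' := bstr_inj h1
    subst hκ
    unfold bstr at h1
    rw [List.cons.injEq] at h1
    have h4 := (List.append_inj h1.2 rfl).2
    have h5 := enc_inj h4
    subst h5
    exact ⟨i, h2, h3⟩
  · rintro ⟨i, h2, h3⟩
    exact ⟨κ, a, i, rfl, h2, h3⟩

end codes

section oracle

variable (N : ℕ → NMachine)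

/-- The defining operator of the oracle. -/
noncomputable def ΦB (X : Cont) (B : List Bool → Bool) (s : List Bool) : Bool :=
  decide (Hit X s ∨ ∃ i x, s = (N i).code i x ∧ (N i).Accepts B x)

theorem tree_congr {K : Type} {P : K → Prop} {T : DTree K} (hT : T.All P) {A A' : K → Bool}
    (h : ∀ k, P k → A k = A' k) : T.eval A = T.eval A' := by
  induction T with
  | leaf b => rfl
  | node i t0 t1 ih0 ih1 =>
    obtain ⟨h1, h2, h3⟩ := hT
    simp only [DTree.eval, ih0 h2, ih1 h3, h i h1]

theorem NMachine.accepts_congr (M : NMachine) {B B' : List Bool → Bool} {x : List Bool}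
    (h : ∀ s, s.length ≤ M.time x.length → B s = B' s) : M.Accepts B x ↔ M.Accepts B' x := by
  unfold NMachine.Accepts
  apply exists_congr
  intro y
  rw [tree_congr (M.short x y) h]

theorem ncode_length (M : NMachine) (i : ℕ) (x : List Bool) :
    (M.code i x).length = i + 2 * M.time x.length + x.length + 3 := by
  unfold NMachine.code
  rw [List.length_cons, pcode_length]

theorem exists_B (X : Cont) : ∃ B : List Bool → Bool, ∀ s, B s = ΦB N X B s := by
  apply exists_fix (V := fun _ => Bool) List.length (ΦB N X) (fun _ => false)
  intro s B B' h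
  unfold ΦB
  congr 2
  apply propext
  apply exists_congr
  intro i
  apply exists_congr
  intro x
  apply and_congr_right
  intro hs
  apply NMachine.accepts_congr
  intro s' hs'
  apply h
  rw [hs, ncode_length]
  omega

/-- The oracle defined by the contents of the blocks. -/
noncomputable def BX (X : Cont) : List Bool → Bool := (exists_B N X).choose

theorem BX_spec (X : Cont) (s : List Bool) : BX N X s = ΦB N X (BX N X) s :=
  (exists_B N X).choose_spec s

theorem BX_bstr (X : Cont) (κ : List Bool) (a : B0 (par κ) × Bool) :
    BX N X (bstr κ a) = true ↔ ∃ i, posn (par κ) a = some i ∧ X κ i = true := by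
  rw [BX_spec, ΦB, decide_eq_true_eq, hit_bstr]
  constructor
  · rintro (h | ⟨i, x, h, _⟩)
    · exact h
    · unfold bstr NMachine.code at h
      simp at h
  · exact Or.inl

theorem BX_code (X : Cont) (i : ℕ) (x : List Bool) :
    BX N X ((N i).code i x) = true ↔ (N i).Accepts (BX N X) x := by
  rw [BX_spec, ΦB, decide_eq_true_eq]
  constructor
  · rintro (⟨κ, a, j, h, _⟩ | ⟨i', x', h, h2⟩)
    · unfold bstr NMachine.code at h
      simp at h
    · unfold NMachine.code at h
      rw [List.cons.injEq] at h
      obtain ⟨rfl, rfl⟩ := pcode_inj h.2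
      exact h2
  · intro h
    exact Or.inr ⟨i, x, rfl, h⟩

/-- The oracle on short strings depends only on the contents of blocks with short codes. -/
theorem BX_congr {X X' : Cont} {l : ℕ} (h : ∀ κ, 13 * κ.length + 20 ≤ l → X κ = X' κ) :
    ∀ s : List Bool, s.length ≤ l → BX N X s = BX N X' s := by
  have key : ∀ n, ∀ s : List Bool, s.length = n → s.length ≤ l → BX N X s = BX N X' s := by
    intro n
    induction n using Nat.strong_induction_on with
    | _ n ih =>
      intro s hs hsl
      rw [BX_spec, BX_spec, ΦB, ΦB]
      congr 1
      apply propext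
      apply or_congr
      · unfold Hit
        apply exists_congr
        intro κ
        apply exists_congr
        intro a
        apply exists_congr
        intro i
        apply and_congr_right
        intro h1
        rw [h κ (by rw [h1, bstr_length] at hsl; exact hsl)]
      · apply exists_congr
        intro i
        apply exists_congr
        intro x
        apply and_congr_right
        intro h1
        apply NMachine.accepts_congr
        intro s' hs'
        have h2 : s.length = i + 2 * (N i).time x.length + x.length + 3 := by
          rw [h1, ncode_length]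
        exact ih s'.length (by omega) s' rfl (by omega)
  exact fun s hs => key s.length s rfl hs

/-- Arithmetic for the size of the circuits. -/
theorem size_arith (T l : ℕ) (h : 2 * T + 3 ≤ l) :
    1 + 2 ^ T * 2 ^ T * (1 + T * 2 ^ (6 * T)) ≤ 2 ^ (6 * l) := by
  have h1 : 1 ≤ 2 ^ (6 * T) := Nat.one_le_two_pow
  have h2 : T + 1 ≤ 2 ^ T := Nat.lt_two_pow_self
  have h3 : 1 + T * 2 ^ (6 * T) ≤ 2 ^ T * 2 ^ (6 * T) := by nlinarith
  have h4 : 2 ^ T * 2 ^ T * (1 + T * 2 ^ (6 * T)) ≤ 2 ^ T * 2 ^ T * (2 ^ T * 2 ^ (6 * T)) :=
    Nat.mul_le_mul_left _ h3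
  have h5 : 2 ^ T * 2 ^ T * (2 ^ T * 2 ^ (6 * T)) = 2 ^ (9 * T) := by
    rw [← pow_add, ← pow_add, ← pow_add]
    congr 1
    ring
  have h6 : 1 ≤ 2 ^ (9 * T) := Nat.one_le_two_pow
  calc 1 + 2 ^ T * 2 ^ T * (1 + T * 2 ^ (6 * T)) ≤ 2 ^ (9 * T) + 2 ^ (9 * T) := by omega
    _ = 2 ^ (9 * T + 1) := by ring
    _ ≤ 2 ^ (6 * l) := Nat.pow_le_pow_right (by norm_num) (by omega)

theorem size_depth (T l : ℕ) (h : 2 * T + 3 ≤ l) : T.size + 1 ≤ l.size := by
  have h1 : (2 * T + 1).size = T.size + 1 := by
    have := Nat.size_bit (b := true) (n := T) (by simp [Nat.bit])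
    simpa [Nat.bit] using this
  rw [← h1]
  exact Nat.size_le_size (by omega)

/-- The oracle at a string, as a function of the content of one block, is computed by a circuit of
logarithmic depth and exponential size. -/
theorem BX_comp (X : Cont) (κ : List Bool) : ∀ s : List Bool,
    Comp 1 (2 * s.length.size) (2 ^ (6 * s.length))
      (fun y : Idx (par κ) → Bool => BX N (update X κ y) s) := by
  have key : ∀ n, ∀ s : List Bool, s.length = n → Comp 1 (2 * s.length.size) (2 ^ (6 * s.length))
      (fun y : Idx (par κ) → Bool => BX N (update X κ y) s) := by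
    intro n
    induction n using Nat.strong_induction_on with
    | _ n ih =>
      intro s hs
      by_cases h1 : ∃ (κ' : List Bool) (a : B0 (par κ') × Bool), s = bstr κ' a
      · obtain ⟨κ', a, h1⟩ := h1
        apply Comp.of_dtd
        have h2 : (fun y : Idx (par κ) → Bool => BX N (update X κ y) s) = fun y =>
            decide (∃ i, posn (par κ') a = some i ∧ update X κ y κ' i = true) := by
          funext y
          rw [Bool.eq_iff_iff, h1, BX_bstr, decide_eq_true_eq]
        rw [h2]
        by_cases hκ : κ' = κ
        · subst hκ
          simp only [update_self]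
          rcases hp : posn (par κ') a with _ | i
          · have : (fun y : Idx (par κ') → Bool => decide (∃ i, (none : Option (Idx (par κ'))) =
                some i ∧ y i = true)) = fun _ => false := by
              funext y
              simp
            rw [this]
            exact DTd.const 1 _
          · have : (fun y : Idx (par κ') → Bool => decide (∃ i', some i =
                some i' ∧ y i' = true)) = fun y => y i := by
              funext y
              simp
            rw [this]
            exact DTd.lit i
        · simp only [update_of_ne hκ]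
          exact DTd.const 1 _
      · by_cases h2 : ∃ i x, s = (N i).code i x
        · obtain ⟨i, x, h2⟩ := h2
          have hlen : s.length = i + 2 * (N i).time x.length + x.length + 3 := by
            rw [h2, ncode_length]
          set T := (N i).time x.length with hT
          have h3 : (fun y : Idx (par κ) → Bool => BX N (update X κ y) s) = fun y =>
              decide (∃ w, ((N i).tree x w).eval (BX N (update X κ y)) = true) := by
            funext y
            rw [Bool.eq_iff_iff, h2, BX_code, decide_eq_true_eq]
            rfl
          rw [h3]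
          have h4 := Comp.np (ι := Idx (par κ)) (w := 1) (h := 2 * T.size) (s := 2 ^ (6 * T))
            (fun s' : List Bool => s'.length ≤ T) (fun w => (N i).tree x w)
            (fun w => (N i).depth_le x w) (fun w => (N i).short x w)
            (fun y => BX N (update X κ y)) (by
              intro s' hs'
              have h5 := ih s'.length (by omega) s' rfl
              apply h5.mono
              · have := Nat.size_le_size hs'
                omega
              · exact Nat.pow_le_pow_right (by norm_num) (by omega))
          rw [Fintype.card_fun, Fintype.card_bool, Fintype.card_fin] at h4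
          apply h4.mono
          · have := size_depth T s.length (by omega)
            omega
          · exact size_arith T s.length (by omega)
        · apply Comp.of_dtd
          have : (fun y : Idx (par κ) → Bool => BX N (update X κ y) s) = fun _ => false := by
            funext y
            rw [BX_spec, ΦB, decide_eq_false_iff_not]
            rintro (⟨κ', a, i, h3, _⟩ | ⟨i, x, h3, _⟩)
            · exact h1 ⟨κ', a, h3⟩
            · exact h2 ⟨i, x, h3⟩
          rw [this]
          exact DTd.const 1 _
  exact fun s => key s.length s rfl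

end oracle

section data

variable (N : ℕ → NMachine) (F : ℕ → OFun)

/-- A yes-instance and a no-instance for the code `κ`. -/
abbrev Pair (κ : List Bool) : Type :=
  {y : Idx (par κ) → Bool // Yes (par κ) y} × {z : Idx (par κ) → Bool // No (par κ) z}

/-- The bit encoded by the block with the code `κ`. -/
def Bit (β : ℕ → Bool) (X : Cont) (κ : List Bool) : Prop :=
  (κ = List.replicate κ.length true ∧ β κ.length = true) ∨
    ∃ i x, κ = (F i).code i x ∧ (F i).F (BX N X) x = true

/-- The defining operator of the contents. -/
noncomputable def ΨX (δ : (κ : List Bool) → Pair κ) (β : ℕ → Bool) (X : Cont) : Cont := fun κ =>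
  if Bit N F β X κ then (δ κ).1.1 else (δ κ).2.1

theorem fcode_length (M : OFun) (i : ℕ) (x : List Bool) :
    (M.code i x).length = i + M.space x.length + x.length + 2 := by
  unfold OFun.code
  rw [pcode_length]

theorem Bit_congr {β β' : ℕ → Bool} {X X' : Cont} {κ : List Bool} (hβ : β κ.length = β' κ.length)
    (h : ∀ κ', κ'.length < κ.length → X κ' = X' κ') : Bit N F β X κ ↔ Bit N F β' X' κ := by
  unfold Bit
  rw [hβ]
  apply or_congr_right
  apply exists_congr
  intro i
  apply exists_congr
  intro x
  apply and_congr_right
  intro h1
  have hlen : κ.length = i + (F i).space x.length + x.length + 2 := by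
    rw [← fcode_length, ← h1]
  have h2 : (F i).F (BX N X) x = (F i).F (BX N X') x := by
    apply (F i).loc
    intro s hs
    apply BX_congr N (l := (F i).space x.length) _ s hs
    intro κ' hκ'
    apply h
    omega
  rw [h2]

theorem exists_X (δ : (κ : List Bool) → Pair κ) (β : ℕ → Bool) :
    ∃ X : Cont, ∀ κ, X κ = ΨX N F δ β X κ := by
  apply exists_fix (V := fun κ => Idx (par κ) → Bool) List.length (ΨX N F δ β)
    (fun κ _ => false)
  intro κ X X' h
  unfold ΨX
  have := Bit_congr N F (β := β) (β' := β) (X := X) (X' := X') (κ := κ) rfl h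
  simp only [this]

/-- The contents defined by the data. -/
noncomputable def XA (δ : (κ : List Bool) → Pair κ) (β : ℕ → Bool) : Cont :=
  (exists_X N F δ β).choose

theorem XA_spec (δ : (κ : List Bool) → Pair κ) (β : ℕ → Bool) (κ : List Bool) :
    XA N F δ β κ = if Bit N F β (XA N F δ β) κ then (δ κ).1.1 else (δ κ).2.1 :=
  (exists_X N F δ β).choose_spec κ

/-- The contents depend only on the data at shorter codes. -/
theorem XA_congr {δ δ' : (κ : List Bool) → Pair κ} {β β' : ℕ → Bool} {l : ℕ}
    (hδ : ∀ κ, κ.length < l → δ κ = δ' κ) (hβ : ∀ n, n < l → β n = β' n) :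
    ∀ κ, κ.length < l → XA N F δ β κ = XA N F δ' β' κ := by
  have key : ∀ n, ∀ κ : List Bool, κ.length = n → κ.length < l →
      XA N F δ β κ = XA N F δ' β' κ := by
    intro n
    induction n using Nat.strong_induction_on with
    | _ n ih =>
      intro κ hκ hl
      rw [XA_spec, XA_spec, hδ κ hl]
      have := Bit_congr N F (β := β) (β' := β') (X := XA N F δ β) (X' := XA N F δ' β') (κ := κ)
        (hβ _ hl) (fun κ' hκ' => ih κ'.length (by omega) κ' rfl (by omega))
      simp only [this]
  exact fun κ hκ => key κ.length κ rfl hκ

/-- Changing the data at one code changes only the contents there and at longer codes. -/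
theorem XA_update {δ δ' : (κ : List Bool) → Pair κ} {β : ℕ → Bool} {κ0 : List Bool}
    (hδ : ∀ κ, κ ≠ κ0 → δ κ = δ' κ) :
    ∀ κ, κ ≠ κ0 → κ.length ≤ κ0.length → XA N F δ β κ = XA N F δ' β κ := by
  have h1 : ∀ κ, κ.length < κ0.length → XA N F δ β κ = XA N F δ' β κ := by
    apply XA_congr
    · intro κ hκ
      apply hδ
      rintro rfl
      exact lt_irrefl _ hκ
    · intro n _
      rfl
  intro κ hκ hl
  rw [XA_spec, XA_spec, hδ κ hκ]
  have := Bit_congr N F (β := β) (β' := β) (X := XA N F δ β) (X' := XA N F δ' β) (κ := κ)
    rfl (fun κ' hκ' => h1 κ' (by omega))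
  simp only [this]

theorem Bit_code (β : ℕ → Bool) (X : Cont) (i : ℕ) (x : List Bool) :
    Bit N F β X ((F i).code i x) ↔ (F i).F (BX N X) x = true := by
  unfold Bit
  constructor
  · rintro (⟨h, _⟩ | ⟨i', x', h, h2⟩)
    · exact absurd h pcode_ne_ones
    · obtain ⟨rfl, rfl⟩ := pcode_inj h
      exact h2
  · intro h
    exact Or.inr ⟨i, x, rfl, h⟩

theorem Bit_free (β : ℕ → Bool) (X : Cont) (n : ℕ) :
    Bit N F β X (List.replicate n true) ↔ β n = true := by
  unfold Bit
  rw [List.length_replicate]
  constructor
  · rintro (⟨_, h⟩ | ⟨i', x', h, h2⟩)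
    · exact h
    · exact absurd h.symm pcode_ne_ones
  · intro h
    exact Or.inl ⟨rfl, h⟩

end data

end Pool.Agent.Helper67.EQP
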