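import Pool.Agent.Helper67.EQP.Avg
import Pool.Agent.Helper67.EQP.CHyb

set_option autoImplicit false
set_option linter.unusedSectionVars false

/-!
Existence of contents for which all small circuits answer almost half of the questions wrongly.
-/

namespace Pool.Agent.Helper67.EQP

open Finset Function Classical
open Pool.Agent.Helper67.JL (ex ex_mono ex_nonneg ex_add ex_mul_left ex_mul_right ex_sum ex_const
  ex_equiv ex_prod)

section lists

/-- All codes with lengths in `[a, a + d)`. -/
noncomputable def cds (a : ℕ) : ℕ → List (List Bool)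
  | 0 => []
  | d + 1 => cds a d ++ allS (a + d)

theorem mem_cds {a d : ℕ} {κ : List Bool} : κ ∈ cds a d ↔ a ≤ κ.length ∧ κ.length < a + d := by
  induction d with
  | zero =>
    constructor
    · intro h
      exact absurd h (by simp [cds])
    · rintro ⟨h1, h2⟩
      omega
  | succ d ih =>
    change κ ∈ cds a d ++ allS (a + d) ↔ _
    rw [List.mem_append, ih, mem_allS]
    omega

theorem cds_append (a d e : ℕ) : cds a (d + e) = cds a d ++ cds (a + d) e := by
  induction e with
  | zero => simp [cds]
  | succ e ih =>
    change cds a (d + e) ++ allS (a + (d + e)) = cds a d ++ (cds (a + d) e ++ allS (a + d + e))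
    rw [ih, List.append_assoc, add_assoc]

theorem pairwise_cds (a d : ℕ) :
    (cds a d).Pairwise (fun κ κ' => κ ≠ κ' ∧ κ.length ≤ κ'.length) := by
  induction d with
  | zero => exact List.Pairwise.nil
  | succ d ih =>
    change (cds a d ++ allS (a + d)).Pairwise _
    rw [List.pairwise_append]
    refine ⟨ih, ?_, ?_⟩
    · have h1 := nodup_allS (a + d)
      unfold List.Nodup at h1
      apply h1.imp_of_mem
      intro κ κ' hκ hκ' hne
      rw [mem_allS] at hκ hκ'
      exact ⟨hne, by omega⟩
    · intro κ hκ κ' hκ'
      rw [mem_cds] at hκ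
      rw [mem_allS] at hκ'
      refine ⟨?_, by omega⟩
      rintro rfl
      omega

theorem nodup_cds (a d : ℕ) : (cds a d).Nodup :=
  (pairwise_cds a d).imp (fun h => h.1)

/-- Sums over all codes, level by level. -/
theorem sum_cds (a d : ℕ) (F : List Bool → ℝ) (Fl : ℕ → ℝ)
    (h : ∀ κ, a ≤ κ.length → κ.length < a + d → F κ = Fl κ.length) :
    ((cds a d).map F).sum = ∑ j ∈ range d, 2 ^ (a + j) * Fl (a + j) := by
  induction d with
  | zero => simp [cds]
  | succ d ih =>
    change ((cds a d ++ allS (a + d)).map F).sum = _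
    rw [List.map_append, List.sum_append, ih (fun κ h1 h2 => h κ h1 (by omega)), sum_range_succ]
    congr 1
    have e2 : (allS (a + d)).map F = List.replicate (2 ^ (a + d)) (Fl (a + d)) := by
      rw [← length_allS (a + d)]
      apply List.eq_replicate_iff.mpr
      refine ⟨by rw [List.length_map], ?_⟩
      intro x hx
      rw [List.mem_map] at hx
      obtain ⟨κ, hκ, rfl⟩ := hx
      rw [mem_allS] at hκ
      rw [h κ (by omega) (by omega), hκ]
    rw [e2, List.sum_replicate, nsmul_eq_mul]
    push_cast
    ring

end lists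

section core

/-- For every code a free bit and the content of the block. -/
abbrev Om : Type := (κ : List Bool) → Bool × (Idx (par κ) → Bool)

/-- The kernel: a random bit, and a content drawn from the distribution belonging to the bit
encoded by the block. -/
noncomputable def kern (bitf : List Bool → Om → Prop)
    (μ1 μ0 : (κ : List Bool) → (Idx (par κ) → Bool) → ℝ) (κ : List Bool) (ω : Om)
    (v : Bool × (Idx (par κ) → Bool)) : ℝ :=
  1 / 2 * (if bitf κ (update ω κ v) then μ1 κ v.2 else μ0 κ v.2)

theorem kern_isDist {bitf : List Bool → Om → Prop}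
    {μ1 μ0 : (κ : List Bool) → (Idx (par κ) → Bool) → ℝ} (h1 : ∀ κ, IsDist (μ1 κ))
    (h0 : ∀ κ, IsDist (μ0 κ))
    (hb : ∀ κ ω ω', (∀ κ', κ'.length < κ.length → ω κ' = ω' κ') → (ω κ).1 = (ω' κ).1 →
      (bitf κ ω ↔ bitf κ ω')) (κ : List Bool) (ω : Om) : IsDist (kern bitf μ1 μ0 κ ω) := by
  constructor
  · intro v
    unfold kern
    split_ifs
    · exact mul_nonneg (by norm_num) ((h1 κ).1 _)
    · exact mul_nonneg (by norm_num) ((h0 κ).1 _)
  · rw [Fintype.sum_prod_type]
    have key : ∀ b : Bool, ∑ z, kern bitf μ1 μ0 κ ω (b, z) = 1 / 2 := by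
      intro b
      unfold kern
      rw [← mul_sum]
      have hbz : ∀ z, bitf κ (update ω κ (b, z)) ↔ bitf κ (update ω κ (b, fun _ => false)) := by
        intro z
        apply hb
        · intro κ' hκ'
          have : κ' ≠ κ := by
            rintro rfl
            exact lt_irrefl _ hκ'
          rw [update_of_ne this, update_of_ne this]
        · rw [update_self, update_self]
      simp only [hbz]
      by_cases hB : bitf κ (update ω κ (b, fun _ => false))
      · simp only [if_pos hB]
        rw [(h1 κ).2, mul_one]
      · simp only [if_neg hB]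
        rw [(h0 κ).2, mul_one]
    simp_rw [key]
    rw [Fintype.sum_bool]
    norm_num

/-- The content of the block encodes the right bit. -/
def Valid (bitf : List Bool → Om → Prop) (κ : List Bool) (ω : Om) : Prop :=
  (bitf κ ω → Yes (par κ) (ω κ).2) ∧ (¬ bitf κ ω → No (par κ) (ω κ).2)

theorem core_all {bitf : List Bool → Om → Prop}
    {μ1 μ0 : (κ : List Bool) → (Idx (par κ) → Bool) → ℝ} (h1 : ∀ κ, IsDist (μ1 κ))
    (h0 : ∀ κ, IsDist (μ0 κ)) (hs1 : ∀ κ x, ¬ Yes (par κ) x → μ1 κ x = 0)
    (hs0 : ∀ κ x, ¬ No (par κ) x → μ0 κ x = 0)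
    (hb : ∀ κ ω ω', (∀ κ', κ'.length < κ.length → ω κ' = ω' κ') → (ω κ).1 = (ω' κ).1 →
      (bitf κ ω ↔ bitf κ ω'))
    (T : ℕ → ℕ) (hT : ∀ n, n < T n) (tst : ℕ → Type) [∀ n, Fintype (tst n)]
    (f : (n : ℕ) → tst n → (Fin n → Bool) → Om → Bool)
    (cd : (n : ℕ) → (Fin n → Bool) → List Bool) (hcd : ∀ n, Injective (cd n))
    (hcl : ∀ n x, n ≤ (cd n x).length ∧ (cd n x).length < T n)
    (hf : ∀ n t x (ω ω' : Om), (∀ κ, κ.length < T n → (ω κ).2 = (ω' κ).2) →
      f n t x ω = f n t x ω')
    (μ : (n : ℕ) → (κ : List Bool) → Bool × (Idx (par κ) → Bool) → ℝ)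
    (hμ : ∀ n κ, IsDist (μ n κ)) (hflip : ∀ n x v, μ n (cd n x) (!v.1, v.2) = μ n (cd n x) v)
    (ε δ : ℕ → List Bool → ℝ) (hε : ∀ n κ, 0 ≤ ε n κ) (hδ : ∀ n κ, 0 ≤ δ n κ)
    (q : ℕ → ℕ) (γ : ℕ → ℝ) (hγ : ∀ n, 0 ≤ γ n) (hγ1 : ∀ n, γ n ≤ 1)
    (hq : ∀ n, Nonempty (tst n) → (q n : ℝ) ≤ γ n / 2 * 2 ^ n)
    (hd : ∀ n t, ∀ Q : Finset (Fin n → Bool), Q.card = q n →
      ∀ κ, n ≤ κ.length → κ.length < T n → ∀ ω ω' : Om,
      ∑ v, kern bitf μ1 μ0 κ ω v *
        (if Agr (cd n) (f n t) Q (update ω' κ v) then (1 : ℝ) else 0) ≤
      (1 + ε n κ) * ∑ v, μ n κ v *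
        (if Agr (cd n) (f n t) Q (update ω' κ v) then (1 : ℝ) else 0) + δ n κ)
    (hεs : ∀ n, Nonempty (tst n) → ((cds n (T n - n)).map (ε n)).sum ≤ 1 / 2)
    (hsum : ∀ n, (Fintype.card (tst n) : ℝ) * (2 * (1 / (1 + γ n) ^ q n +
      2 ^ q n * ((cds n (T n - n)).map (δ n)).sum)) ≤ (1 / 2) ^ n / 4) :
    ∃ ω : Om, (∀ κ, Valid bitf κ ω) ∧ ∀ n t,
      ((univ.filter (fun x => f n t x ω = (ω (cd n x)).1)).card : ℝ) ≤
        (1 / 2 + γ n) * 2 ^ n := by
  set K := kern bitf μ1 μ0 with hKdef
  have hK : ∀ κ ω, IsDist (K κ ω) := kern_isDist h1 h0 hb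
  -- a single event
  have hsingle : ∀ n (t : tst n) (e : ℕ) (ω : Om),
      EA K (fun ω => if (1 / 2 + γ n) * 2 ^ n <
        ((univ.filter (fun x => f n t x ω = (ω (cd n x)).1)).card : ℝ) then (1 : ℝ) else 0)
        (cds 0 (T n + e)) ω ≤ 2 * (1 / (1 + γ n) ^ q n +
          2 ^ q n * ((cds n (T n - n)).map (δ n)).sum) := by
    intro n t e ω
    set g : Om → ℝ := fun ω => if (1 / 2 + γ n) * 2 ^ n <
        ((univ.filter (fun x => f n t x ω = (ω (cd n x)).1)).card : ℝ) then (1 : ℝ) else 0
      with hg
    have e1 : cds 0 (T n + e) = cds 0 n ++ (cds n (T n - n) ++ cds (T n) e) := by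
      have h3 := hT n
      have h2 : T n + e = n + ((T n - n) + e) := by omega
      rw [h2, cds_append, cds_append, zero_add]
      have h4 : n + (T n - n) = T n := by omega
      rw [h4]
    have e3 : EA K g (cds n (T n - n) ++ cds (T n) e) =
        EA K (EA K g (cds (T n) e)) (cds n (T n - n)) := funext fun ω => EA_append _ _ _ ω
    rw [e1, EA_append, e3]
    have e2 : EA K g (cds (T n) e) = g := by
      funext ω
      apply EA_of_const_on hK
      intro κ hκ ω v
      rw [mem_cds] at hκ
      have a1 : ∀ x, f n t x (update ω κ v) = f n t x ω := by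
        intro x
        apply hf
        intro κ' hκ'
        have : κ' ≠ κ := by
          rintro rfl
          omega
        rw [update_of_ne this]
      have a2 : ∀ x, update ω κ v (cd n x) = ω (cd n x) := by
        intro x
        have : cd n x ≠ κ := by
          intro h
          have := (hcl n x).2
          rw [h] at this
          omega
        rw [update_of_ne this]
      simp only [hg, a1, a2]
    rw [e2]
    have hN : Fintype.card (Fin n → Bool) = 2 ^ n := by
      rw [Fintype.card_fun, Fintype.card_bool, Fintype.card_fin]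
    have hbound : ∀ ω, EA K g (cds n (T n - n)) ω ≤ 2 * (1 / (1 + γ n) ^ q n +
          2 ^ q n * ((cds n (T n - n)).map (δ n)).sum) := by
      intro ω
      have key := agree_bound (K := K) (μ := μ n) hK (hμ n) (hcd n) (f := f n t)
        (fun x ω ω' h => hf n t x ω ω' (fun κ _ => h κ)) (hflip n) (cds n (T n - n))
        (fun x => by
          rw [mem_cds]
          have := hcl n x
          have := hT n
          omega) (nodup_cds _ _) (hε n) (hδ n) (q := q n)
        (fun Q hQ κ hκ ω ω' => by
          rw [mem_cds] at hκ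
          have := hT n
          exact hd n t Q hQ κ hκ.1 (by omega) ω ω') (hεs n ⟨t⟩) (hγ n) (hγ1 n)
        (by
          rw [hN]
          push_cast
          exact hq n ⟨t⟩) ω
      rw [hN] at key
      push_cast at key
      exact key
    calc EA K (EA K g (cds n (T n - n))) (cds 0 n) ω
        ≤ EA K (fun _ => 2 * (1 / (1 + γ n) ^ q n +
          2 ^ q n * ((cds n (T n - n)).map (δ n)).sum)) (cds 0 n) ω :=
          EA_mono hK hbound _ _
      _ = _ := EA_const hK _ _ _
  -- compactness
  let P : ℕ → Om → Prop := fun l ω => (∀ κ, κ.length = l → Valid bitf κ ω) ∧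
    ∀ t : tst l, ((univ.filter (fun x => f l t x ω = (ω (cd l x)).1)).card : ℝ) ≤
        (1 / 2 + γ l) * 2 ^ l
  obtain ⟨ω, hω⟩ := compact_choice (V := fun κ => Bool × (Idx (par κ) → Bool)) P
    (fun l => {κ | κ.length < T l}) (fun l => List.finite_length_lt Bool (T l))
    (by
      rintro l ω ω' h ⟨hP1, hP2⟩
      refine ⟨?_, ?_⟩
      · intro κ hκ
        have hlt := hT l
        have a1 : bitf κ ω ↔ bitf κ ω' := by
          apply hb
          · intro κ' hκ'
            exact h κ' (by
              change κ'.length < T l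
              omega)
          · rw [h κ (by
              change κ.length < T l
              omega)]
        have a2 : ω κ = ω' κ := h κ (by
          change κ.length < T l
          omega)
        have := hP1 κ hκ
        unfold Valid at this ⊢
        rw [← a1, ← a2]
        exact this
      · intro t
        have a1 : ∀ x, f l t x ω' = f l t x ω := by
          intro x
          apply hf
          intro κ hκ
          rw [h κ hκ]
        have a2 : ∀ x, ω' (cd l x) = ω (cd l x) := by
          intro x
          exact (h _ (hcl l x).2).symm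
        simp only [a1, a2]
        exact hP2 t)
    (by
      intro L
      set b := ∑ n ∈ range L, T n with hbdef
      have hTb : ∀ n < L, T n ≤ b := by
        intro n hn
        exact single_le_sum (f := T) (fun _ _ => Nat.zero_le _) (mem_range.mpr hn)
      set g : Om → ℝ := fun ω => ∑ n ∈ range L, ∑ t : tst n, (if (1 / 2 + γ n) * 2 ^ n <
        ((univ.filter (fun x => f n t x ω = (ω (cd n x)).1)).card : ℝ) then (1 : ℝ) else 0)
        with hg
      have hlt : EA K g (cds 0 b) (fun κ => (false, fun _ => false)) < 1 := by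
        rw [hg, EA_sum]
        have c1 : ∀ n ∈ range L, EA K (fun ω => ∑ t : tst n, (if (1 / 2 + γ n) * 2 ^ n <
          ((univ.filter (fun x => f n t x ω = (ω (cd n x)).1)).card : ℝ) then (1 : ℝ) else 0))
          (cds 0 b) (fun κ => (false, fun _ => false)) ≤ (1 / 2) ^ n / 4 := by
          intro n hn
          rw [EA_sum]
          have hTn := hTb n (mem_range.mp hn)
          obtain ⟨e, he⟩ := Nat.exists_eq_add_of_le hTn
          rw [he]
          calc _ ≤ ∑ _t : tst n, 2 * (1 / (1 + γ n) ^ q n +
                2 ^ q n * ((cds n (T n - n)).map (δ n)).sum) :=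
                sum_le_sum fun t _ => hsingle n t e _
            _ = (Fintype.card (tst n) : ℝ) * (2 * (1 / (1 + γ n) ^ q n +
                2 ^ q n * ((cds n (T n - n)).map (δ n)).sum)) := by
                rw [sum_const, card_univ, nsmul_eq_mul]
            _ ≤ _ := hsum n
        calc _ ≤ ∑ n ∈ range L, ((1 : ℝ) / 2) ^ n / 4 := sum_le_sum c1
          _ = (∑ n ∈ range L, ((1 : ℝ) / 2) ^ n) / 4 := by rw [sum_div]
          _ < 1 := by
              have := sum_geometric_two_le L
              linarith
      obtain ⟨ω', g1, g2, _⟩ := EA_exists hK (g := g) (a := 1)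
        (R := fun κ κ' => κ ≠ κ' ∧ κ.length ≤ κ'.length) (Valid := Valid bitf)
        (by
          intro κ ω v hv
          rw [hKdef] at hv
          unfold kern at hv
          unfold Valid
          rw [update_self]
          by_cases hB : bitf κ (update ω κ v)
          · rw [if_pos hB] at hv
            refine ⟨fun _ => ?_, fun h => absurd hB h⟩
            by_contra hY
            rw [hs1 κ _ hY] at hv
            simp at hv
          · rw [if_neg hB] at hv
            refine ⟨fun h => absurd h hB, fun _ => ?_⟩
            by_contra hY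
            rw [hs0 κ _ hY] at hv
            simp at hv)
        (by
          rintro κ κ' ⟨hne, hle⟩ ω v hV
          have a1 : bitf κ (update ω κ' v) ↔ bitf κ ω := by
            apply hb
            · intro κ'' hκ''
              have : κ'' ≠ κ' := by
                rintro rfl
                omega
              rw [update_of_ne this]
            · rw [update_of_ne hne]
          unfold Valid at hV ⊢
          rw [a1, update_of_ne hne]
          exact hV)
        (cds 0 b) (pairwise_cds 0 b) _ hlt
      refine ⟨ω', fun l hl => ⟨?_, ?_⟩⟩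
      · intro κ hκ
        apply g2
        rw [mem_cds]
        have := hTb l hl
        have := hT l
        omega
      · intro t
        by_contra hcon
        push Not at hcon
        have c1 : (1 : ℝ) ≤ g ω' := by
          rw [hg]
          beta_reduce
          have c2 : ∀ n, 0 ≤ ∑ t : tst n, (if (1 / 2 + γ n) * 2 ^ n <
            ((univ.filter (fun x => f n t x ω' = (ω' (cd n x)).1)).card : ℝ)
              then (1 : ℝ) else 0) := by
            intro n
            apply sum_nonneg
            intro t _
            split_ifs <;> norm_num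
          have c3 := single_le_sum (f := fun n => ∑ t : tst n, (if (1 / 2 + γ n) * 2 ^ n <
            ((univ.filter (fun x => f n t x ω' = (ω' (cd n x)).1)).card : ℝ)
              then (1 : ℝ) else 0)) (fun n _ => c2 n) (mem_range.mpr hl)
          beta_reduce at c3
          have c4 := single_le_sum (f := fun t : tst l => (if (1 / 2 + γ l) * 2 ^ l <
            ((univ.filter (fun x => f l t x ω' = (ω' (cd l x)).1)).card : ℝ)
              then (1 : ℝ) else 0)) (fun t _ => by split_ifs <;> norm_num) (mem_univ t)
          beta_reduce at c4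
          rw [if_pos hcon] at c4
          linarith
        linarith)
  exact ⟨ω, fun κ => (hω κ.length).1 κ rfl, fun n t => (hω n).2 t⟩

end core

end Pool.Agent.Helper67.EQP
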