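import Pool.Agent.Helper67.EQP.PM

set_option autoImplicit false
set_option linter.unusedSectionVars false

/-!
Decision tree depth, width-`w` terms, conversion of decision trees to DNFs.
-/

namespace Pool.Agent.Helper67.EQP

open Finset Function

variable {ι : Type} [DecidableEq ι]

/-- `DTd w f`: the Boolean function `f` has a decision tree of depth at most `w`. -/
inductive DTd : ℕ → ((ι → Bool) → Bool) → Prop
  | const (w : ℕ) (b : Bool) : DTd w (fun _ => b)
  | query (w : ℕ) (i : ι) (f : (ι → Bool) → Bool)
      (h0 : DTd w (fun x => f (update x i false)))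
      (h1 : DTd w (fun x => f (update x i true))) : DTd (w + 1) f

theorem DTd.mono {w w' : ℕ} {f : (ι → Bool) → Bool} (h : DTd w f) (hw : w ≤ w') : DTd w' f := by
  induction h generalizing w' with
  | const w b => exact DTd.const w' b
  | query w i f h0 h1 ih0 ih1 =>
    obtain ⟨v, rfl⟩ : ∃ v, w' = v + 1 := ⟨w' - 1, by omega⟩
    exact DTd.query v i f (ih0 (by omega)) (ih1 (by omega))

theorem DTd.not {w : ℕ} {f : (ι → Bool) → Bool} (h : DTd w f) : DTd w (fun x => !f x) := by
  induction h with
  | const w b => exact DTd.const w (!b)
  | query w i f h0 h1 ih0 ih1 => exact DTd.query w i (fun x => !f x) ih0 ih1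

theorem DTd.lit (i : ι) : DTd 1 (fun x => x i) := by
  apply DTd.query 0 i
  · simpa using DTd.const 0 false
  · simpa using DTd.const 0 true

theorem mrg_update_none {ρ : ι → Option Bool} {i : ι} (h : ρ i = none) (x : ι → Bool) (b : Bool) :
    mrg ρ (update x i b) = update (mrg ρ x) i b := by
  funext j
  by_cases hj : j = i
  · subst hj
    simp [mrg, h]
  · simp [mrg, hj]

theorem mrg_update_some {ρ : ι → Option Bool} {i : ι} {b : Bool} (h : ρ i = some b)
    (x : ι → Bool) : update (mrg ρ x) i b = mrg ρ x := by
  funext j
  by_cases hj : j = i
  · subst hj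
    simp [mrg, h]
  · simp [hj]

theorem DTd.restrict {w : ℕ} {f : (ι → Bool) → Bool} (h : DTd w f) (ρ : ι → Option Bool) :
    DTd w (fun x => f (mrg ρ x)) := by
  induction h with
  | const w b => exact DTd.const w b
  | query w i f h0 h1 ih0 ih1 =>
    rcases hρ : ρ i with _ | b
    · apply DTd.query w i
      · simpa [mrg_update_none hρ] using ih0
      · simpa [mrg_update_none hρ] using ih1
    · cases b with
      | false =>
        have : (fun x => f (mrg ρ x)) = (fun x => f (update (mrg ρ x) i false)) := by
          funext x
          rw [mrg_update_some hρ]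
        rw [this]
        exact ih0.mono (by omega)
      | true =>
        have : (fun x => f (mrg ρ x)) = (fun x => f (update (mrg ρ x) i true)) := by
          funext x
          rw [mrg_update_some hρ]
        rw [this]
        exact ih1.mono (by omega)

/-- Every function of finitely many variables has a decision tree. -/
theorem DTd.of_subset (S : Finset ι) (w : ℕ) (f : (ι → Bool) → Bool)
    (h : ∀ β : ι → Bool, DTd w (fun x => f (fun i => if i ∈ S then β i else x i))) :
    DTd (w + S.card) f := by
  induction S using Finset.induction_on generalizing f with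
  | empty =>
    simpa using h (fun _ => false)
  | insert a S ha ih =>
    rw [card_insert_of_notMem ha, ← add_assoc]
    have key : ∀ b : Bool, DTd (w + S.card) (fun x => f (update x a b)) := by
      intro b
      apply ih
      intro β
      have := h (update β a b)
      convert this using 3 with x
      funext j
      by_cases hj : j = a
      · subst hj
        simp
      · by_cases hjS : j ∈ S
        · simp [hj, hjS]
        · simp [hj, hjS]
    exact DTd.query _ a f (key false) (key true)

theorem DTd.all [Fintype ι] (f : (ι → Bool) → Bool) : DTd (Fintype.card ι) f := by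
  have := DTd.of_subset (univ : Finset ι) 0 f (fun β => by
    simpa using DTd.const 0 (f β))
  simpa [card_univ] using this

/-- A term (conjunction of literals) with at most `w` literals. The literals are `x i = s i` for
the `i` listed by `v`. -/
structure Term (ι : Type) (w : ℕ) where
  v : Fin w → Option ι
  s : ι → Bool

/-- The term is satisfied by the assignment. -/
def Term.sat {w : ℕ} (T : Term ι w) (x : ι → Bool) : Prop := ∀ j i, T.v j = some i → x i = T.s i

/-- The function is the disjunction of the list of terms. -/
def IsDNF {w : ℕ} (F : List (Term ι w)) (f : (ι → Bool) → Bool) : Prop :=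
  ∀ x, f x = true ↔ ∃ T ∈ F, T.sat x

theorem DTd.dnf {w : ℕ} {f : (ι → Bool) → Bool} (h : DTd w f) :
    ∃ F : List (Term ι w), IsDNF F f := by
  induction h with
  | const w b =>
    cases b with
    | false => exact ⟨[], fun x => by simp⟩
    | true =>
      refine ⟨[⟨fun _ => none, fun _ => true⟩], fun x => ?_⟩
      simp [Term.sat]
  | query w i f h0 h1 ih0 ih1 =>
    obtain ⟨F0, hF0⟩ := ih0
    obtain ⟨F1, hF1⟩ := ih1
    let ext : Bool → Term ι w → Term ι (w + 1) := fun b T =>
      ⟨Fin.cons (some i) T.v, update T.s i b⟩
    have hext : ∀ b T x, (ext b T).sat x ↔ x i = b ∧ T.sat (update x i (T.s i)) := by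
      intro b T x
      constructor
      · intro hs
        refine ⟨?_, ?_⟩
        · have := hs 0 i rfl
          simpa [ext] using this
        · intro j k hjk
          by_cases hk : k = i
          · subst hk
            simp
          · have := hs j.succ k (by simpa [ext] using hjk)
            simpa [ext, hk] using this
      · rintro ⟨hb, hs⟩ j k hjk
        refine Fin.cases ?_ ?_ j hjk
        · intro h
          have : k = i := by
            have h2 : some i = some k := h
            exact (Option.some.inj h2).symm
          subst this
          simpa [ext] using hb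
        · intro j' h
          by_cases hk : k = i
          · subst hk
            simpa [ext] using hb
          · have h3 : T.v j' = some k := h
            have := hs j' k h3
            simpa [ext, hk] using this
    refine ⟨F0.map (ext false) ++ F1.map (ext true), fun x => ?_⟩
    have e0 : ∀ c, f (update (update x i c) i false) = f (update x i false) := by
      intro c; simp
    have e1 : ∀ c, f (update (update x i c) i true) = f (update x i true) := by
      intro c; simp
    have hx : f x = f (update x i (x i)) := by simp
    constructor
    · intro hf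
      cases hb : x i with
      | false =>
        rw [hx, hb] at hf
        have hall : ∃ T ∈ F0, T.sat x := (hF0 x).mp hf
        obtain ⟨T, hT, hs⟩ := hall
        refine ⟨ext false T, ?_, ?_⟩
        · simp only [List.mem_append, List.mem_map]
          exact Or.inl ⟨T, hT, rfl⟩
        · rw [hext]
          refine ⟨hb, ?_⟩
          intro j k hjk
          by_cases hk : k = i
          · subst hk; simp
          · simpa [hk] using hs j k hjk
      | true =>
        rw [hx, hb] at hf
        have hall : ∃ T ∈ F1, T.sat x := (hF1 x).mp hf
        obtain ⟨T, hT, hs⟩ := hall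
        refine ⟨ext true T, ?_, ?_⟩
        · simp only [List.mem_append, List.mem_map]
          exact Or.inr ⟨T, hT, rfl⟩
        · rw [hext]
          refine ⟨hb, ?_⟩
          intro j k hjk
          by_cases hk : k = i
          · subst hk; simp
          · simpa [hk] using hs j k hjk
    · rintro ⟨T', hT', hs⟩
      simp only [List.mem_append, List.mem_map] at hT'
      rcases hT' with ⟨T, hT, rfl⟩ | ⟨T, hT, rfl⟩
      · rw [hext] at hs
        have := (hF0 (update x i (T.s i))).mpr ⟨T, hT, hs.2⟩
        rw [hx, hs.1]
        simpa using this
      · rw [hext] at hs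
        have := (hF1 (update x i (T.s i))).mpr ⟨T, hT, hs.2⟩
        rw [hx, hs.1]
        simpa using this

/-- Disjunctions of functions with shallow decision trees are small-width DNFs. -/
theorem dnf_of_or {w : ℕ} {α : Type} (S : Finset α) (g : α → (ι → Bool) → Bool)
    (h : ∀ a ∈ S, DTd w (g a)) :
    ∃ F : List (Term ι w), ∀ x, (∃ a ∈ S, g a x = true) ↔ ∃ T ∈ F, T.sat x := by
  classical
  induction S using Finset.induction_on with
  | empty => exact ⟨[], fun x => by simp⟩
  | insert a S ha ih =>
    obtain ⟨F, hF⟩ := ih (fun b hb => h b (mem_insert_of_mem hb))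
    obtain ⟨G, hG⟩ := (h a (mem_insert_self a S)).dnf
    refine ⟨G ++ F, fun x => ?_⟩
    constructor
    · rintro ⟨b, hb, hx⟩
      rcases mem_insert.mp hb with rfl | hb
      · obtain ⟨T, hT, hs⟩ := (hG x).mp hx
        exact ⟨T, List.mem_append_left _ hT, hs⟩
      · obtain ⟨T, hT, hs⟩ := (hF x).mp ⟨b, hb, hx⟩
        exact ⟨T, List.mem_append_right _ hT, hs⟩
    · rintro ⟨T, hT, hs⟩
      rcases List.mem_append.mp hT with hT | hT
      · exact ⟨a, mem_insert_self a S, (hG x).mpr ⟨T, hT, hs⟩⟩
      · obtain ⟨b, hb, hx⟩ := (hF x).mpr ⟨T, hT, hs⟩
        exact ⟨b, mem_insert_of_mem hb, hx⟩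

end Pool.Agent.Helper67.EQP
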