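import Pool.Agent.Helper67.EQP.Hard

set_option autoImplicit false
set_option linter.unusedSectionVars false

/-!
One-sided domination: small circuits accept the walk not much more often than uniform bits.
-/

namespace Pool.Agent.Helper67.EQP

open Finset Function Classical
open Pool.Agent.Helper67.JL (ex ex_mono ex_nonneg ex_add ex_mul_left ex_mul_right ex_sum ex_const
  ex_equiv ex_prod)

section functional

variable {ι : Type} [DecidableEq ι]

theorem dt_functional_le (D : ((ι → Bool) → ℝ) → ℝ)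
    (hadd : ∀ F G, D (fun z => F z + G z) = D F + D G)
    (hmul : ∀ (c : ℝ) F, D (fun z => c * F z) = c * D F)
    {W : ℕ} (h : ∀ (P : Finset ι) (σ : ι → Bool), P.card ≤ W → D (ind P σ) ≤ 0)
    {w : ℕ} {f : (ι → Bool) → Bool} (hf : DTd w f) :
    ∀ (P : Finset ι) (σ : ι → Bool), P.card + w ≤ W →
      D (fun z => ind P σ z * b2 (f z)) ≤ 0 := by
  induction hf with
  | const w b =>
    intro P σ hP
    have e : (fun z => ind P σ z * b2 b) = (fun z => b2 b * ind P σ z) := by
      funext z; ring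
    rw [e, hmul]
    have h1 := h P σ (by omega)
    have h2 := b2_nonneg b
    nlinarith
  | query w i f h0 h1 ih0 ih1 =>
    intro P σ hP
    by_cases hi : i ∈ P
    · have key : ∀ b, σ i = b → (fun z => ind P σ z * b2 (f z)) =
          (fun z => ind P σ z * b2 (f (update z i b))) := by
        intro b hb
        funext z
        unfold ind
        by_cases hz : ∀ j ∈ P, z j = σ j
        · rw [if_pos hz]
          have : update z i b = z := by
            rw [← hb, ← hz i hi, update_eq_self]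
          rw [this]
        · rw [if_neg hz, zero_mul, zero_mul]
      cases hb : σ i with
      | false =>
        rw [key false hb]
        exact ih0 P σ (by omega)
      | true =>
        rw [key true hb]
        exact ih1 P σ (by omega)
    · have e : (fun z => ind P σ z * b2 (f z)) =
          (fun z => (1 / 2 : ℝ) * (ind (insert i P) (update σ i false) z *
              b2 (f (update z i false)))
            + (1 / 2 : ℝ) * (ind (insert i P) (update σ i true) z *
              b2 (f (update z i true)))) := by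
        funext z
        rw [ind_insert hi, ind_insert hi]
        cases hz : z i with
        | false =>
          have : update z i false = z := by rw [← hz, update_eq_self]
          rw [this]
          simp
          ring
        | true =>
          have : update z i true = z := by rw [← hz, update_eq_self]
          rw [this]
          simp
          ring
      rw [e, hadd, hmul, hmul]
      have c : (insert i P).card = P.card + 1 := card_insert_of_notMem hi
      have a0 := ih0 (insert i P) (update σ i false) (by omega)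
      have a1 := ih1 (insert i P) (update σ i true) (by omega)
      linarith

theorem dt_functional_le' (D : ((ι → Bool) → ℝ) → ℝ)
    (hadd : ∀ F G, D (fun z => F z + G z) = D F + D G)
    (hmul : ∀ (c : ℝ) F, D (fun z => c * F z) = c * D F)
    {w : ℕ} (h : ∀ (P : Finset ι) (σ : ι → Bool), P.card ≤ w → D (ind P σ) ≤ 0)
    {f : (ι → Bool) → Bool} (hf : DTd w f) : D (fun z => b2 (f z)) ≤ 0 := by
  have := dt_functional_le D hadd hmul h hf ∅ (fun _ => false) (by simp)
  simpa [ind] using this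

end functional

section noise

variable {ι X : Type} [Fintype ι] [DecidableEq ι] [Fintype X] [Nonempty X]

/-- One small step of the noise, seen by a shallow decision tree. -/
theorem noise_dt_dom {xh : X → ι → ℝ} {c2 B : ℝ} (hN : Noise xh c2 B)
    {β : ℝ} (hβ : 0 ≤ β) {w : ℕ} (hW : w * (β * B) ≤ 1 / 2)
    {f : (ι → Bool) → Bool} (hf : DTd w f) :
    ex (fun x => mext (fun i => β * xh x i) (fun z => b2 (f z))) ≤
      (1 + (w ^ 2 * (β ^ 2 * c2) + (w * (β * B)) ^ 3)) * mext (fun _ => 0) (fun z => b2 (f z)) := by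
  have key := dt_functional_le' (fun F => ex (fun x => mext (fun i => β * xh x i) F) +
    (-(1 + (w ^ 2 * (β ^ 2 * c2) + (w * (β * B)) ^ 3))) * mext (fun _ => 0) F)
    (by
      intro F G
      simp_rw [mext_add]
      rw [ex_add]
      ring)
    (by
      intro c F
      simp_rw [mext_mul_left]
      rw [ex_mul_left]
      ring)
    (by
      intro P σ hP
      rw [mext_zero_ind]
      have := (abs_le.mp (noise_ind hN hβ hW P σ hP)).2
      linarith) hf
  linarith

/-- One small step of the noise from the centre of the cube. -/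
theorem noise_ac_dom {xh : X → ι → ℝ} {c2 B : ℝ} (hN : Noise xh c2 B)
    {h s w : ℕ} {level : Fin s → ℕ} {g : Fin s → (ι → Bool) → Bool}
    (hAC : ACfam w level g) (hlev : ∀ j, level j < h) (hw : 0 < w) {p : ℝ} (hp : 0 < p)
    (hpw : 16 * p * w ≤ 1)
    {β : ℝ} (hβ : 0 ≤ β) (hw2 : w * (β / p ^ h * B) ≤ 1 / 2)
    (hn2 : Fintype.card ι * (β / p ^ h * B) ≤ 1 / 2) (j : Fin s) :
    ex (fun x => mext (fun i => β * xh x i) (fun z => b2 (g j z))) ≤
      (1 + (w ^ 2 * ((β / p ^ h) ^ 2 * c2) + (w * (β / p ^ h * B)) ^ 3)) *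
        mext (fun _ => 0) (fun z => b2 (g j z)) +
      (h * (s * (16 * p * w) ^ (w + 1))) *
        ((Fintype.card ι) ^ 2 * ((β / p ^ h) ^ 2 * c2) +
          (Fintype.card ι * (β / p ^ h * B)) ^ 3) := by
  have hw1 : (1 : ℝ) ≤ w := by exact_mod_cast hw
  have hp1 : p ≤ 1 := by nlinarith
  have hph : 0 < p ^ h := pow_pos hp h
  have hph1 : p ^ h ≤ 1 := pow_le_one₀ hp.le hp1
  have hβ' : 0 ≤ β / p ^ h := by positivity
  have e1 : ∀ x, mext (fun i => β * xh x i) (fun z => b2 (g j z)) =
      pm (rw' (p ^ h)) (fun ρ => mext (fun i => (β / p ^ h) * xh x i)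
        (fun z => b2 (g j (mrg ρ z)))) := by
    intro x
    refine Eq.trans ?_ (mext_scale (p ^ h) (fun i => β / p ^ h * xh x i) (fun z => b2 (g j z)))
    congr 1
    funext i
    field_simp
  have e2 : mext (fun _ => 0) (fun z => b2 (g j z)) =
      pm (rw' (p ^ h)) (fun ρ => mext (fun _ => 0) (fun z => b2 (g j (mrg ρ z)))) := by
    refine Eq.trans ?_ (mext_scale (p ^ h) (fun _ => 0) (fun z => b2 (g j z)))
    simp
  simp_rw [e1]
  rw [e2, ex_pm_comm]
  have hnn : ∀ (i : ι) (r : Option Bool), 0 ≤ rw' (p ^ h) i r :=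
    fun i r => rw'_nonneg hph.le hph1 i r
  set δ1 := (w : ℝ) ^ 2 * ((β / p ^ h) ^ 2 * c2) + (w * (β / p ^ h * B)) ^ 3 with hδ1
  set δ2 := (Fintype.card ι : ℝ) ^ 2 * ((β / p ^ h) ^ 2 * c2) +
    (Fintype.card ι * (β / p ^ h * B)) ^ 3 with hδ2
  have hB := hN.B_nonneg
  have hc2 := hN.c2_nonneg
  have hδ1n : 0 ≤ δ1 := by rw [hδ1]; positivity
  have hδ2n : 0 ≤ δ2 := by rw [hδ2]; positivity
  have key : ∀ ρ : ι → Option Bool,
      ex (fun x => mext (fun i => (β / p ^ h) * xh x i) (fun z => b2 (g j (mrg ρ z)))) ≤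
      (1 + δ1) * mext (fun _ => 0) (fun z => b2 (g j (mrg ρ z))) +
      δ2 * (if GoodUpTo w h level (fun j x => g j (mrg ρ x)) then 0 else 1) := by
    intro ρ
    by_cases hρ : GoodUpTo w h level (fun j x => g j (mrg ρ x))
    · rw [if_pos hρ, mul_zero, add_zero]
      exact noise_dt_dom hN hβ' hw2 (hρ j (hlev j))
    · rw [if_neg hρ, mul_one]
      have h1 := noise_dt_dom hN hβ' hn2 (DTd.all (fun z => g j (mrg ρ z)))
      rw [← hδ2] at h1
      set m0 := mext (fun _ => 0) (fun z => b2 (g j (mrg ρ z))) with hm0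
      have h2 : 0 ≤ m0 := by
        rw [hm0, mext_zero_eq_ex]
        exact ex_nonneg fun z => b2_nonneg _
      have h3 : m0 ≤ 1 := by
        rw [hm0, mext_zero_eq_ex]
        calc _ ≤ ex (fun _ : ι → Bool => (1 : ℝ)) := ex_mono fun z => b2_le_one _
          _ = 1 := ex_const 1
      have h4 : δ2 * m0 ≤ δ2 * 1 := mul_le_mul_of_nonneg_left h3 hδ2n
      have h5 : 0 ≤ δ1 * m0 := mul_nonneg hδ1n h2
      linarith
  refine (pm_mono _ hnn key).trans ?_
  rw [pm_add, pm_mul_left, pm_mul_left]
  have hs := ac_switch hAC hw hp hpw h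
  have := mul_le_mul_of_nonneg_left hs hδ2n
  linarith

/-- One small step of the noise from an arbitrary point of the cube. -/
theorem noise_ac_dom_cube {xh : X → ι → ℝ} {c2 B : ℝ} (hN : Noise xh c2 B)
    {h s w : ℕ} {level : Fin s → ℕ} {g : Fin s → (ι → Bool) → Bool}
    (hAC : ACfam w level g) (hlev : ∀ j, level j < h) (hw : 0 < w) {p : ℝ} (hp : 0 < p)
    (hpw : 16 * p * w ≤ 1)
    {β : ℝ} (hβ : 0 ≤ β) (hw2 : w * (β / p ^ h * B) ≤ 1 / 2)
    (hn2 : Fintype.card ι * (β / p ^ h * B) ≤ 1 / 2) (j : Fin s)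
    (a : ι → ℝ) (ha : ∀ i, |a i| ≤ 1) :
    ex (fun x => mext (fun i => a i + (1 - |a i|) * (β * xh x i)) (fun z => b2 (g j z))) ≤
      (1 + (w ^ 2 * ((β / p ^ h) ^ 2 * c2) + (w * (β / p ^ h * B)) ^ 3)) *
        mext a (fun z => b2 (g j z)) +
      (h * (s * (16 * p * w) ^ (w + 1))) *
        ((Fintype.card ι) ^ 2 * ((β / p ^ h) ^ 2 * c2) +
          (Fintype.card ι * (β / p ^ h * B)) ^ 3) := by
  let θ : ι → Option Bool → ℝ := fun i r =>
    match r with
    | none => 1 - |a i|
    | some b => (|a i| + sg b * a i) / 2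
  have hθ0 : ∀ i r, 0 ≤ θ i r := by
    intro i r
    rcases r with _ | b
    · change 0 ≤ 1 - |a i|
      linarith [ha i]
    · change 0 ≤ (|a i| + sg b * a i) / 2
      have h1 := neg_abs_le (a i)
      have h2 := le_abs_self (a i)
      cases b <;> simp <;> linarith
  have hθ1 : ∀ i, ∑ r, θ i r = 1 := by
    intro i
    rw [Fintype.sum_option, Fintype.sum_bool]
    change 1 - |a i| + ((|a i| + sg true * a i) / 2 + (|a i| + sg false * a i) / 2) = 1
    simp only [sg_true, sg_false]
    ring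
  have e1 : ∀ x, mext (fun i => a i + (1 - |a i|) * (β * xh x i)) (fun z => b2 (g j z)) =
      pm θ (fun ρ => mext (fun i => β * xh x i) (fun z => b2 (g j (mrg ρ z)))) := by
    intro x
    apply mext_restrict
    intro i b
    change _ = (|a i| + sg b * a i) / 2 + (1 - |a i|) * ((1 + sg b * (β * xh x i)) / 2)
    ring
  have e2 : mext a (fun z => b2 (g j z)) =
      pm θ (fun ρ => mext (fun _ => 0) (fun z => b2 (g j (mrg ρ z)))) := by
    apply mext_restrict
    intro i b
    change _ = (|a i| + sg b * a i) / 2 + (1 - |a i|) * ((1 + sg b * 0) / 2)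
    ring
  simp_rw [e1]
  rw [e2, ex_pm_comm]
  refine (pm_mono _ hθ0 (fun ρ => noise_ac_dom hN (hAC.restrict ρ) hlev hw hp hpw hβ hw2 hn2
    j)).trans ?_
  rw [pm_add, pm_const _ hθ1, pm_mul_left]

end noise

section walk

variable {ι X : Type} [Fintype X] [Nonempty X] {St : (ι → ℝ) → Prop} {η : ℝ} {xh : X → ι → ℝ}

theorem walk_dom_gen {K : (ι → ℝ) → Prop} (hK : ∀ a, K a → ∀ x, K (wstep St η xh a x))
    {G : (ι → ℝ) → ℝ} {δ e : ℝ} (hδ : 0 ≤ δ) (he : 0 ≤ e)
    (h : ∀ a, K a → ex (fun x => G (wstep St η xh a x)) ≤ (1 + δ) * G a + e)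
    (t : ℕ) {a : ι → ℝ} (ha : K a) :
    walk St η xh t G a ≤ (1 + δ) ^ t * (G a + t * e) := by
  induction t generalizing a with
  | zero => simp [walk]
  | succ t ih =>
    rw [walk_succ]
    calc ex (fun x => walk St η xh t G (wstep St η xh a x))
        ≤ ex (fun x => (1 + δ) ^ t * (G (wstep St η xh a x) + t * e)) :=
          ex_mono fun x => ih (hK a ha x)
      _ = (1 + δ) ^ t * (ex (fun x => G (wstep St η xh a x)) + t * e) := by
          rw [ex_mul_left, ex_add, ex_const]
      _ ≤ (1 + δ) ^ t * (((1 + δ) * G a + e) + t * e) := by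
          apply mul_le_mul_of_nonneg_left _ (by positivity)
          linarith [h a ha]
      _ ≤ (1 + δ) ^ t * ((1 + δ) * (G a + (t + 1) * e)) := by
          apply mul_le_mul_of_nonneg_left _ (by positivity)
          have : 0 ≤ δ * ((t + 1) * e) := by positivity
          linarith
      _ = _ := by
          push_cast
          ring

/-- The walk is dominated by uniform bits. -/
theorem walk_dom [Fintype ι] [DecidableEq ι] {c2 B : ℝ} (hN : Noise xh c2 B)
    {h s w : ℕ} {level : Fin s → ℕ} {g : Fin s → (ι → Bool) → Bool}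
    (hAC : ACfam w level g) (hlev : ∀ j, level j < h) (hw : 0 < w) {p : ℝ} (hp : 0 < p)
    (hpw : 16 * p * w ≤ 1)
    (hη : 0 ≤ η) (hηB : 3 * (η * B) ≤ 1) (hw2 : w * (η / p ^ h * (3 * B)) ≤ 1 / 2)
    (hn2 : Fintype.card ι * (η / p ^ h * (3 * B)) ≤ 1 / 2) (j : Fin s) (t : ℕ) :
    walk St η xh t (fun a => mext a (fun z => b2 (g j z))) (fun _ => 0) ≤
      (1 + (w ^ 2 * ((η / p ^ h) ^ 2 * (9 * c2)) + (w * (η / p ^ h * (3 * B))) ^ 3)) ^ t *
        (mext (fun _ => 0) (fun z => b2 (g j z)) +
      t * ((h * (s * (16 * p * w) ^ (w + 1))) *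
        ((Fintype.card ι) ^ 2 * ((η / p ^ h) ^ 2 * (9 * c2)) +
          (Fintype.card ι * (η / p ^ h * (3 * B))) ^ 3))) := by
  have hB := hN.B_nonneg
  have hc2 := hN.c2_nonneg
  apply walk_dom_gen (K := Cube) (cube_step hN.bd hη hηB) (by positivity) (by positivity)
  · intro a ha
    by_cases hSt : St a
    · have : (fun x => mext (wstep St η xh a x) (fun z => b2 (g j z))) =
          fun _ => mext a (fun z => b2 (g j z)) := by
        funext x
        rw [wstep_of_stop hSt]
      rw [this, ex_const]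
      have h1 : 0 ≤ mext a (fun z => b2 (g j z)) := by
        have := mext_mono ha (f := fun _ => 0) (g := fun z => b2 (g j z))
          (fun z => b2_nonneg _)
        rwa [mext_const] at this
      have h2 : 0 ≤ ((w : ℝ) ^ 2 * ((η / p ^ h) ^ 2 * (9 * c2)) +
          (w * (η / p ^ h * (3 * B))) ^ 3) * mext a (fun z => b2 (g j z)) := by positivity
      have h3 : 0 ≤ ((h : ℝ) * (s * (16 * p * w) ^ (w + 1))) *
        ((Fintype.card ι) ^ 2 * ((η / p ^ h) ^ 2 * (9 * c2)) +
          (Fintype.card ι * (η / p ^ h * (3 * B))) ^ 3) := by positivity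
      linarith
    · have : (fun x => mext (wstep St η xh a x) (fun z => b2 (g j z))) =
          fun x => mext (fun i => a i + (1 - |a i|) * (η * (kap (a i) * xh x i)))
            (fun z => b2 (g j z)) := by
        funext x
        unfold wstep
        rw [if_neg hSt]
      rw [this]
      exact noise_ac_dom_cube (noise_kap hN a ha) hAC hlev hw hp hpw hη hw2 hn2 j a ha
  · intro i
    simp

end walk

section distdom

variable {I : Type} [Fintype I] [DecidableEq I] [Nonempty I]
  {St : (I ⊕ I → ℝ) → Prop} {η : ℝ} {H : I → I → ℝ} {t : ℕ}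

/-- The rounded endpoint of the walk is dominated by uniform bits. -/
theorem dist_dom (hH : Orth H) {h s s0 w n : ℕ} {p δ δ' V ε D e1 e2 qf θ : ℝ} {M : ℝ}
    (hP : Params (Fintype.card I) M n h s w p δ δ' η V ε D e1 e2 qf t)
    (hn : Fintype.card (I ⊕ I) = n) (hθ : 0 ≤ θ) (hs0 : (s0 : ℝ) ≤ θ * s)
    {level : Fin s0 → ℕ} {g : Fin s0 → (I ⊕ I → Bool) → Bool} (hAC : ACfam w level g)
    (hlev : ∀ j, level j < h) (j : Fin s0) {i : ℕ} (hi : i < t) :
    dist St η H i (fun z => b2 (g j z)) ≤
      Real.exp e1 * (ex (fun z => b2 (g j z)) + θ * e1) := by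
  subst hn
  have hηB := hP.hηB
  have hη := hP.hη.le
  have hp := hP.hp
  have hw := hP.hw
  have key := walk_dom (St := St) (t := i) (fxh_noise hH) hAC hlev hP.hw hP.hp hP.hpw hP.hη.le
    (by linarith) hP.hw2 hP.hn2 j
  rw [mext_zero_eq_ex] at key
  have he1 := hP.he1
  unfold stepErr at he1
  set δ1 := (w : ℝ) ^ 2 * ((η / p ^ h) ^ 2 * (9 * (1 / Real.sqrt (Fintype.card I)))) +
    (w * (η / p ^ h * (3 * Real.sqrt (Fintype.card I)))) ^ 3 with hδ1
  set δ2 := (Fintype.card (I ⊕ I) : ℝ) ^ 2 *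
    ((η / p ^ h) ^ 2 * (9 * (1 / Real.sqrt (Fintype.card I)))) +
    (Fintype.card (I ⊕ I) * (η / p ^ h * (3 * Real.sqrt (Fintype.card I)))) ^ 3 with hδ2
  have h1n : 0 ≤ δ1 := by rw [hδ1]; positivity
  have h2n : 0 ≤ δ2 := by rw [hδ2]; positivity
  set c := (16 * p * w) ^ (w + 1) with hc
  have hc0 : 0 ≤ c := by rw [hc]; positivity
  have hit : (i : ℝ) ≤ t := by exact_mod_cast hi.le
  have hi0 : (0 : ℝ) ≤ i := Nat.cast_nonneg i
  have ht0 : (0 : ℝ) ≤ t := Nat.cast_nonneg t
  have hh0 : (0 : ℝ) ≤ h := Nat.cast_nonneg h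
  have hss : (0 : ℝ) ≤ s := Nat.cast_nonneg s
  have ha : (t : ℝ) * δ1 ≤ e1 := by
    have : 0 ≤ (t : ℝ) * ((h * (s * c)) * δ2) := by positivity
    linarith
  have hb : (t : ℝ) * ((h * (s * c)) * δ2) ≤ e1 := by
    have : 0 ≤ (t : ℝ) * δ1 := by positivity
    linarith
  have hc1 : (i : ℝ) * ((h * (s0 * c)) * δ2) ≤ θ * e1 := by
    calc (i : ℝ) * ((h * (s0 * c)) * δ2) ≤ t * ((h * (θ * s * c)) * δ2) := by gcongr
      _ = θ * (t * ((h * (s * c)) * δ2)) := by ring
      _ ≤ θ * e1 := mul_le_mul_of_nonneg_left hb hθ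
  have hd : (1 + δ1) ^ i ≤ Real.exp e1 := by
    calc (1 + δ1) ^ i ≤ (Real.exp δ1) ^ i := by
          apply pow_le_pow_left₀ (by linarith)
          rw [add_comm]
          exact Real.add_one_le_exp δ1
      _ = Real.exp (i * δ1) := by rw [Real.exp_nat_mul]
      _ ≤ Real.exp e1 := by
          apply Real.exp_le_exp.mpr
          exact (mul_le_mul_of_nonneg_right hit h1n).trans ha
  have hG : 0 ≤ ex (fun z : I ⊕ I → Bool => b2 (g j z)) := ex_nonneg fun z => b2_nonneg _
  refine key.trans ?_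
  have h5 : 0 ≤ (i : ℝ) * ((h * (s0 * c)) * δ2) := by positivity
  calc (1 + δ1) ^ i * (ex (fun z => b2 (g j z)) + i * ((h * (s0 * c)) * δ2))
      ≤ Real.exp e1 * (ex (fun z => b2 (g j z)) + i * ((h * (s0 * c)) * δ2)) :=
        mul_le_mul_of_nonneg_right hd (by linarith)
    _ ≤ Real.exp e1 * (ex (fun z => b2 (g j z)) + θ * e1) :=
        mul_le_mul_of_nonneg_left (by linarith) (Real.exp_pos _).le

end distdom

end Pool.Agent.Helper67.EQP
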