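import Pool.Agent.Helper67.EQP.DomSlice
import Pool.Agent.Helper67.EQP.CComp

set_option autoImplicit false
set_option linter.unusedSectionVars false

/-!
Distributions on the two sides of the promise which are dominated by uniform bits.
-/

namespace Pool.Agent.Helper67.EQP

open Finset Function Classical
open Pool.Agent.Helper67.JL (ex ex_mono ex_nonneg ex_add ex_mul_left ex_mul_right ex_sum ex_const
  ex_equiv ex_prod)

section

variable {I J : Type} [Fintype I] [DecidableEq I] [Nonempty I] [Fintype J] [DecidableEq J]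
  {η : ℝ} {H : I → I → ℝ} {t : ℕ}

/-- The hard distributions before normalisation, as functionals. -/
noncomputable def hc (P : ℝ) (H : I → I → ℝ) (δ' η : ℝ) (i : ℕ)
    (σ : (I ⊕ I → Bool) → (I ⊕ I → Bool)) (r0 : (I ⊕ I → Bool) → (J → Bool))
    (F : ((I ⊕ I) ⊕ J → Bool) → ℝ) : ℝ :=
  dist (StopAt H (65 / 128)) η H i (fun z => if Near H δ' z then
    sld P (r0 z) (fun r => F (Sum.elim (σ z) r)) else 0)

section hcprops

variable {P δ' : ℝ} {i : ℕ} {σ : (I ⊕ I → Bool) → (I ⊕ I → Bool)}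
  {r0 : (I ⊕ I → Bool) → (J → Bool)}

theorem hc_add (F G : ((I ⊕ I) ⊕ J → Bool) → ℝ) :
    hc P H δ' η i σ r0 (fun x => F x + G x) =
      hc P H δ' η i σ r0 F + hc P H δ' η i σ r0 G := by
  unfold hc
  rw [← dist_add]
  congr 1
  funext z
  split_ifs
  · exact sld_add _ _ _ _
  · simp

theorem hc_mul (c : ℝ) (F : ((I ⊕ I) ⊕ J → Bool) → ℝ) :
    hc P H δ' η i σ r0 (fun x => c * F x) = c * hc P H δ' η i σ r0 F := by
  unfold hc
  rw [← dist_mul]
  congr 1
  funext z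
  split_ifs
  · exact sld_mul _ _ _ _
  · simp

theorem hc_nonneg (hH : Orth H) (hη : 0 ≤ η) (hηB : η * Real.sqrt (Fintype.card I) ≤ 1 / 5)
    (hP0 : 0 ≤ P) (hP1 : P ≤ 1) {F : ((I ⊕ I) ⊕ J → Bool) → ℝ} (hF : ∀ x, 0 ≤ F x) :
    0 ≤ hc P H δ' η i σ r0 F := by
  unfold hc
  have h0 := dist_mono (St := StopAt H (65 / 128)) (t := i) hH hη hηB (F := fun _ => (0 : ℝ))
    (G := fun z => if Near H δ' z then
      sld P (r0 z) (fun r => F (Sum.elim (σ z) r)) else 0) (by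
      intro z
      beta_reduce
      split_ifs
      · exact sld_nonneg hP0 hP1 _ fun r => hF _
      · exact le_rfl)
  rwa [dist_const] at h0

theorem hc_zero {F : ((I ⊕ I) ⊕ J → Bool) → ℝ}
    (hF : ∀ z, Near H δ' z → ∀ r, ntrue r = ntrue (r0 z) → F (Sum.elim (σ z) r) = 0) :
    hc P H δ' η i σ r0 F = 0 := by
  unfold hc
  have e : (fun z => if Near H δ' z then
      sld P (r0 z) (fun r => F (Sum.elim (σ z) r)) else 0) = fun _ => 0 := by
    funext z
    split_ifs with hz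
    · exact sld_const_of _ _ (hF z hz)
    · rfl
  rw [e, dist_const]

theorem hc_one : hc P H δ' η i σ r0 (fun _ => 1) =
    1 - dist (StopAt H (65 / 128)) η H i (fun z => if Near H δ' z then 0 else 1) := by
  unfold hc
  have e : ∀ z : I ⊕ I → Bool, (if Near H δ' z then
      sld P (r0 z) (fun r => (fun _ : (I ⊕ I) ⊕ J → Bool => (1 : ℝ)) (Sum.elim (σ z) r)) else 0) =
      1 - (if Near H δ' z then 0 else 1) := by
    intro z
    split_ifs
    · rw [sld_const_of (c := 1) _ _ (fun _ _ => rfl)]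
      ring
    · ring
  simp_rw [e]
  rw [dist_sub, dist_const]

end hcprops

/-- Domination by uniform bits. -/
theorem hc_dom [Nonempty J] (hH : Orth H) {h s s0 w n : ℕ} {p δ δ' V ε D e1 e2 qf θ : ℝ}
    (hP : Params (Fintype.card I) (Fintype.card J) n h s w p δ δ' η V ε D e1 e2 qf t)
    (hn : Fintype.card (I ⊕ I) = n) (hθ : 0 ≤ θ) (hs0 : (s0 : ℝ) ≤ θ * s)
    {σ : (I ⊕ I → Bool) ≃ (I ⊕ I → Bool)} (hσ : ∀ i, DTd 1 (fun z => σ z i))
    {r0 : (I ⊕ I → Bool) → (J → Bool)}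
    (hK : ∀ z, Near H δ' z → |(2 : ℝ) * ntrue (r0 z) - Fintype.card J| ≤ D)
    {i : ℕ} (hi : i < t)
    {level : Fin s0 → ℕ} {g : Fin s0 → ((I ⊕ I) ⊕ J → Bool) → Bool} (hAC : ACfam w level g)
    (hlev : ∀ j, level j < h) (j : Fin s0) :
    hc (p ^ h) H δ' η i σ r0 (fun x => b2 (g j x)) ≤
      (1 + e2) * (Real.exp e1 *
        (ex (fun z => ex (fun r : J → Bool => b2 (g j (Sum.elim z r)))) + θ * e1)) +
      (θ * e2 + Real.exp (-(p ^ h * Fintype.card J / 8)) +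
        2 * Real.exp (-(V ^ 2 / (2 * Fintype.card J)))) := by
  have hJ : 0 < Fintype.card J := Fintype.card_pos
  have hw1 : (1 : ℝ) ≤ w := by exact_mod_cast hP.hw
  have hp := hP.hp
  have hp1 : p ≤ 1 := by
    have := hP.hpw
    nlinarith
  have hph0 : 0 ≤ p ^ h := by positivity
  have hph1 : p ^ h ≤ 1 := pow_le_one₀ hp.le hp1
  have hε0 := hP.hε0
  have hV := hP.hV
  have hse := hP.he2
  unfold sliceErr at hse
  set c := (16 * p * w) ^ (w + 1) with hcdef
  have hc0 : 0 ≤ c := by rw [hcdef]; positivity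
  have hh0 : (0 : ℝ) ≤ h := Nat.cast_nonneg h
  have hss : (0 : ℝ) ≤ s := Nat.cast_nonneg s
  have q1 : (0 : ℝ) ≤ h * (s * c) := by positivity
  have q2 : (0 : ℝ) ≤ 4 / (p ^ h * Fintype.card J) := by positivity
  have q3 : (0 : ℝ) ≤ Fintype.card J / V ^ 2 := by positivity
  have q4 : (0 : ℝ) ≤ 2 * (w * ε) := by positivity
  have r1 : 2 * (w * ε) ≤ e2 := by linarith
  have r2 : (h : ℝ) * (s0 * c) ≤ θ * e2 := by
    calc (h : ℝ) * (s0 * c) ≤ h * (θ * s * c) := by gcongr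
      _ = θ * (h * (s * c)) := by ring
      _ ≤ θ * e2 := mul_le_mul_of_nonneg_left (by linarith) hθ
  have he2 : 0 ≤ e2 := by linarith
  have hfamJ : ∀ z : I ⊕ I → Bool, ACfam w level (fun j (r : J → Bool) => g j (Sum.elim z r)) := by
    intro z
    apply hAC.comp
    intro i
    rcases i with i | i
    · simpa using DTd.const 1 (z i)
    · simpa using DTd.lit i
  have hfamI : ∀ r : J → Bool,
      ACfam w level (fun j (z : I ⊕ I → Bool) => g j (Sum.elim (σ z) r)) := by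
    intro r
    apply hAC.comp
    intro i
    rcases i with i | i
    · simpa using hσ i
    · simpa using DTd.const 1 (r i)
  set Bd := θ * e2 + Real.exp (-(p ^ h * Fintype.card J / 8)) +
        2 * Real.exp (-(V ^ 2 / (2 * Fintype.card J))) with hBd
  have hBd0 : 0 ≤ Bd := by
    rw [hBd]
    positivity
  set G : (I ⊕ I → Bool) → ℝ := fun z => ex (fun r : J → Bool => b2 (g j (Sum.elim (σ z) r)))
    with hG
  have hG0 : ∀ z, 0 ≤ G z := fun z => ex_nonneg fun r => b2_nonneg _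
  have h1 : ∀ z, (if Near H δ' z then sld (p ^ h) (r0 z)
      (fun r => b2 (g j (Sum.elim (σ z) r))) else 0) ≤ (1 + e2) * G z + Bd := by
    intro z
    have h0 := mul_nonneg (show 0 ≤ 1 + e2 by linarith) (hG0 z)
    split_ifs with hz
    · have := sld_dom (hfamJ (σ z)) hlev hP.hw hp hP.hpw hJ hV (r0 := r0 z) hP.hε1 hP.hwL
        (by linarith [hP.hε, hK z hz]) j
      rw [mext_zero_eq_ex] at this
      have h2 : (1 + 2 * (w * ε)) * G z ≤ (1 + e2) * G z :=
        mul_le_mul_of_nonneg_right (by linarith) (hG0 z)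
      linarith
    · linarith
  have h2 := dist_mono (St := StopAt H (65 / 128)) (t := i) hH hP.hη.le hP.hηB h1
  rw [dist_add, dist_const, dist_mul] at h2
  have h3 : dist (StopAt H (65 / 128)) η H i G ≤ Real.exp e1 * (ex G + θ * e1) := by
    have e1' : dist (StopAt H (65 / 128)) η H i G = ex (fun r => dist (StopAt H (65 / 128)) η H i
        (fun z => b2 (g j (Sum.elim (σ z) r)))) :=
      dist_ex (fun z r => b2 (g j (Sum.elim (σ z) r)))
    have e2' : ex G = ex (fun r => ex (fun z => b2 (g j (Sum.elim (σ z) r)))) :=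
      ex_ex_swap (fun z r => b2 (g j (Sum.elim (σ z) r)))
    rw [e1', e2']
    calc ex (fun r => dist (StopAt H (65 / 128)) η H i (fun z => b2 (g j (Sum.elim (σ z) r))))
        ≤ ex (fun r : J → Bool => Real.exp e1 *
            (ex (fun z => b2 (g j (Sum.elim (σ z) r))) + θ * e1)) :=
          ex_mono fun r => dist_dom hH hP hn hθ hs0 (hfamI r) hlev j hi
      _ = _ := by rw [ex_mul_left, ex_add, ex_const]
  have h4 : ex G = ex (fun z => ex (fun r : J → Bool => b2 (g j (Sum.elim z r)))) :=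
    (ex_equiv σ (fun z => ex (fun r : J → Bool => b2 (g j (Sum.elim z r))))).symm
  rw [h4] at h3
  unfold hc
  have h5 := mul_le_mul_of_nonneg_left h3 (show 0 ≤ 1 + e2 by linarith)
  linarith

/-- Two distributions, one on each side of the promise, dominated by uniform bits. -/
theorem hard_dom [Nonempty J] (hH : Orth H) {h s w n : ℕ} {p δ δ' V ε D e1 e2 qf θ : ℝ}
    (hP : Params (Fintype.card I) (Fintype.card J) n h s w p δ δ' η V ε D e1 e2 qf t)
    (hn : Fintype.card (I ⊕ I) = n) (hθ : 0 ≤ θ)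
    (r1 r0 : (I ⊕ I → Bool) → (J → Bool))
    (hK1 : ∀ z, Near H δ' z → |(2 : ℝ) * ntrue (r1 z) - Fintype.card J| ≤ D)
    (hK0 : ∀ z, Near H δ' z → |(2 : ℝ) * ntrue (r0 z) - Fintype.card J| ≤ D)
    (Y Z : ((I ⊕ I) ⊕ J → Bool) → Prop)
    (hY : ∀ z, Near H δ' z → ∀ r, ntrue r = ntrue (r1 z) → Y (Sum.elim z r))
    (hZ : ∀ z, Near H δ' z → ∀ r, ntrue r = ntrue (r0 z) → Z (Sum.elim (negv z) r)) :
    ∃ μ1 μ0 : ((I ⊕ I) ⊕ J → Bool) → ℝ, IsDist μ1 ∧ IsDist μ0 ∧ (∀ x, ¬ Y x → μ1 x = 0) ∧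
      (∀ x, ¬ Z x → μ0 x = 0) ∧
      ∀ (s0 : ℕ) (level : Fin s0 → ℕ) (g : Fin s0 → ((I ⊕ I) ⊕ J → Bool) → Bool),
        (s0 : ℝ) ≤ θ * s → ACfam w level g → (∀ j, level j < h) → ∀ j,
        ∀ μ, (μ = μ1 ∨ μ = μ0) → (1 - qf) * ∑ x, μ x * b2 (g j x) ≤
          (1 + e2) * (Real.exp e1 *
            (ex (fun z => ex (fun r : J → Bool => b2 (g j (Sum.elim z r)))) + θ * e1)) +
          (θ * e2 + Real.exp (-(p ^ h * Fintype.card J / 8)) +
            2 * Real.exp (-(V ^ 2 / (2 * Fintype.card J)))) := by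
  have hw1 : (1 : ℝ) ≤ w := by exact_mod_cast hP.hw
  have hp := hP.hp
  have hp1 : p ≤ 1 := by
    have := hP.hpw
    nlinarith
  have hph0 : 0 ≤ p ^ h := by positivity
  have hph1 : p ^ h ≤ 1 := pow_le_one₀ hp.le hp1
  obtain ⟨i, hi, hsuc⟩ := dist_success hH hP
  set Z0 := 1 - dist (StopAt H (65 / 128)) η H i (fun z => if Near H δ' z then 0 else 1)
    with hZ0
  have hZ1 : 1 - qf ≤ Z0 := by linarith
  have hZpos : 0 < Z0 := by linarith [hP.hq1]
  have hc1 : ∀ (σ : (I ⊕ I → Bool) → (I ⊕ I → Bool)) (r0 : (I ⊕ I → Bool) → (J → Bool))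
      (Y : ((I ⊕ I) ⊕ J → Bool) → Prop)
      (_ : ∀ z, Near H δ' z → ∀ r, ntrue r = ntrue (r0 z) → Y (Sum.elim (σ z) r)),
      ∃ μ : ((I ⊕ I) ⊕ J → Bool) → ℝ, IsDist μ ∧ (∀ x, ¬ Y x → μ x = 0) ∧
        ∀ F, (1 / Z0) * hc (p ^ h) H δ' η i σ r0 F = ∑ x, μ x * F x := by
    intro σ r0 Y hY
    apply exists_dist
    · intro F G
      rw [hc_add]
      ring
    · intro c F
      rw [hc_mul]
      ring
    · intro F hF
      have := hc_nonneg (i := i) (σ := σ) (r0 := r0) (δ' := δ') hH hP.hη.le hP.hηB hph0 hph1 hF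
      positivity
    · rw [hc_one, ← hZ0]
      field_simp
    · intro F hF
      rw [hc_zero, mul_zero]
      intro z hz r hr
      exact hF _ (hY z hz r hr)
  obtain ⟨μ1, hμ1, hs1, hr1⟩ := hc1 id r1 Y hY
  obtain ⟨μ0, hμ0, hs0, hr0⟩ := hc1 negv r0 Z hZ
  refine ⟨μ1, μ0, hμ1, hμ0, hs1, hs0, ?_⟩
  intro s0 level g hss hAC hlev j μ hμ
  have a1 := hc_dom (σ := Equiv.refl _) hH hP hn hθ hss
    (fun i => DTd.lit i) hK1 hi hAC hlev j
  have a2 := hc_dom (σ := negvEquiv) hH hP hn hθ hss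
    (by
      intro i
      rcases i with i | k
      · simpa [negvEquiv, Function.Involutive.toPerm, negv] using DTd.lit (Sum.inl i : I ⊕ I)
      · simpa [negvEquiv, Function.Involutive.toPerm, negv] using
          (DTd.lit (Sum.inr k : I ⊕ I)).not) hK0 hi hAC hlev j
  have e1' : (⇑(Equiv.refl (I ⊕ I → Bool))) = id := rfl
  have e2' : (⇑(negvEquiv (I := I))) = negv := rfl
  rw [e1'] at a1
  rw [e2'] at a2
  have key : ∀ (σ : (I ⊕ I → Bool) → (I ⊕ I → Bool)) (r0 : (I ⊕ I → Bool) → (J → Bool)),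
      (1 - qf) * ((1 / Z0) * hc (p ^ h) H δ' η i σ r0 (fun x => b2 (g j x))) ≤
        hc (p ^ h) H δ' η i σ r0 (fun x => b2 (g j x)) := by
    intro σ r0
    have h1 := hc_nonneg (i := i) (σ := σ) (r0 := r0) (δ' := δ') hH hP.hη.le hP.hηB hph0 hph1
      (F := fun x => b2 (g j x)) (fun x => b2_nonneg _)
    have h2 : (1 - qf) * (1 / Z0) ≤ 1 := by
      rw [mul_one_div, div_le_one hZpos]
      exact hZ1
    calc _ = ((1 - qf) * (1 / Z0)) * hc (p ^ h) H δ' η i σ r0 (fun x => b2 (g j x)) := by ring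
      _ ≤ 1 * hc (p ^ h) H δ' η i σ r0 (fun x => b2 (g j x)) :=
        mul_le_mul_of_nonneg_right h2 h1
      _ = _ := one_mul _
  rcases hμ with rfl | rfl
  · rw [← hr1]
    exact (key _ _).trans a1
  · rw [← hr0]
    exact (key _ _).trans a2

end

section final

/-- Domination with explicit parameters. -/
theorem avg_dom {h w m k K X : ℕ} (hw : w = (k + K) + 5 * m) (hm : 0 < m)
    (hX : 2000 ≤ X) (H1 : (w * (32 * w) ^ h * X) ^ 2 ≤ 2 ^ m) :
    ∃ μ1 μ0 : (Idx m → Bool) → ℝ, IsDist μ1 ∧ IsDist μ0 ∧ (∀ x, ¬ Yes m x → μ1 x = 0) ∧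
      (∀ x, ¬ No m x → μ0 x = 0) ∧
      ∀ (s0 : ℕ) (level : Fin s0 → ℕ) (g : Fin s0 → (Idx m → Bool) → Bool),
        s0 ≤ 2 ^ k → ACfam w level g → (∀ j, level j < h) → ∀ j,
        ∀ μ, (μ = μ1 ∨ μ = μ0) → ∑ x, μ x * b2 (g j x) ≤
          (1 + 2500 / X) * ex (fun x => b2 (g j x)) + 4 / 2 ^ K := by
  obtain ⟨η, t, hP⟩ := params_ok hw hm (s := 2 ^ (k + K)) le_rfl hX H1
  set I := Fin (2 * m + 4) → Bool with hI
  set J := Fin (3 * m) → Bool with hJ
  have hcI : ((Fintype.card I : ℕ) : ℝ) = 16 * 4 ^ m := by rw [card_left]; push_cast; ring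
  have hcJ : ((Fintype.card J : ℕ) : ℝ) = 8 ^ m := by rw [card_right]; push_cast; ring
  rw [← hcI, ← hcJ] at hP
  have hw0 : 0 < w := by omega
  have h128 : (128 : ℝ) * X ≤ 2 ^ m := by
    have h2 : 128 * X ≤ 2 ^ m := by
      have h1 : 1 ≤ w * (32 * w) ^ h := by
        apply Nat.mul_pos hw0
        apply Nat.pow_pos
        omega
      calc 128 * X ≤ X * X := Nat.mul_le_mul_right _ (by omega)
        _ = (1 * X) ^ 2 := by ring
        _ ≤ (w * (32 * w) ^ h * X) ^ 2 := by gcongr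
        _ ≤ 2 ^ m := H1
    exact_mod_cast h2
  obtain ⟨m', hmdef⟩ : ∃ m', m = m' + 1 := ⟨m - 1, by omega⟩
  have hA : (8 : ℤ) ^ m = 8 * 8 ^ m' := by
    rw [hmdef, pow_add]; ring
  have hAr : (8 : ℝ) ^ m = 8 * 8 ^ m' := by exact_mod_cast hA
  have hfscR : ∀ z : I ⊕ I → Bool, Near (hmat m) (2 * X / 2 ^ m) z →
      |(fsc m z : ℝ) - 260 * 8 ^ m'| ≤ 128 * X * 4 ^ m := by
    intro z hz
    unfold Near at hz
    rw [fsc_phi]
    have e : 64 * (8 : ℝ) ^ m * Phi (hmat m) (svec z) - 260 * 8 ^ m' =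
        64 * 8 ^ m * (Phi (hmat m) (svec z) - 65 / 128) := by
      rw [mul_sub, hAr]; ring
    rw [e, abs_mul, abs_of_pos (by positivity)]
    calc 64 * (8 : ℝ) ^ m * |Phi (hmat m) (svec z) - 65 / 128| ≤ 64 * 8 ^ m * (2 * X / 2 ^ m) :=
          mul_le_mul_of_nonneg_left hz (by positivity)
      _ = 128 * X * 4 ^ m := by
          rw [eight_pow_eq]; field_simp; ring
  have h48 : (128 : ℝ) * X * 4 ^ m ≤ 8 ^ m := by
    rw [eight_pow_eq]
    exact mul_le_mul_of_nonneg_right h128 (by positivity)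
  have hbnd : ∀ z : I ⊕ I → Bool, Near (hmat m) (2 * X / 2 ^ m) z →
      |fsc m z - 260 * 8 ^ m'| ≤ 8 * 8 ^ m' := by
    intro z hz
    have h1 := (hfscR z hz).trans h48
    rw [hAr] at h1
    exact_mod_cast h1
  have hr1 : ∀ z : I ⊕ I → Bool, ∃ r : J → Bool, Near (hmat m) (2 * X / 2 ^ m) z →
      2 * (ntrue r : ℤ) = fsc m z - 252 * 8 ^ m' := by
    intro z
    by_cases hz : Near (hmat m) (2 * X / 2 ^ m) z
    · have h1 := abs_le.mp (hbnd z hz)
      obtain ⟨q, hq⟩ := fsc_even m z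
      obtain ⟨r, hr⟩ := exists_ntrue (J := J) (K := (q - 126 * 8 ^ m').toNat) (by
        rw [card_right, Int.toNat_le]
        push_cast
        rw [hA]
        linarith [h1.2])
      refine ⟨r, fun _ => ?_⟩
      rw [hr, Int.toNat_of_nonneg (by linarith [h1.1]), hq]
      ring
    · exact ⟨fun _ => false, fun h => absurd h hz⟩
  have hr0 : ∀ z : I ⊕ I → Bool, ∃ r : J → Bool, Near (hmat m) (2 * X / 2 ^ m) z →
      2 * (ntrue r : ℤ) = 268 * 8 ^ m' - fsc m z := by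
    intro z
    by_cases hz : Near (hmat m) (2 * X / 2 ^ m) z
    · have h1 := abs_le.mp (hbnd z hz)
      obtain ⟨q, hq⟩ := fsc_even m z
      obtain ⟨r, hr⟩ := exists_ntrue (J := J) (K := (134 * 8 ^ m' - q).toNat) (by
        rw [card_right, Int.toNat_le]
        push_cast
        rw [hA]
        linarith [h1.1])
      refine ⟨r, fun _ => ?_⟩
      rw [hr, Int.toNat_of_nonneg (by linarith [h1.2]), hq]
      ring
    · exact ⟨fun _ => false, fun h => absurd h hz⟩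
  choose r1 hr1 using hr1
  choose r0 hr0 using hr0
  have hθ0 : (0 : ℝ) < 1 / 2 ^ K := by positivity
  obtain ⟨μ1, μ0, hd1, hd0, hs1, hs0, hb⟩ := hard_dom (hmat_orth m) hP
    (by rw [Fintype.card_sum, card_left]; ring) hθ0.le r1 r0
    (by
      intro z hz
      rw [hcJ, hAr]
      have h1 : (2 : ℝ) * ntrue (r1 z) = fsc m z - 252 * 8 ^ m' := by exact_mod_cast hr1 z hz
      rw [h1]
      have : (fsc m z : ℝ) - 252 * 8 ^ m' - 8 * 8 ^ m' = fsc m z - 260 * 8 ^ m' := by ring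
      rw [this]
      exact hfscR z hz)
    (by
      intro z hz
      rw [hcJ, hAr]
      have h1 : (2 : ℝ) * ntrue (r0 z) = 268 * 8 ^ m' - fsc m z := by exact_mod_cast hr0 z hz
      rw [h1]
      have : (268 : ℝ) * 8 ^ m' - fsc m z - 8 * 8 ^ m' = -(fsc m z - 260 * 8 ^ m') := by ring
      rw [this, abs_neg]
      exact hfscR z hz)
    (Yes m) (No m)
    (by
      intro z hz r hr
      unfold Yes
      rw [score_elim, hr, hr1 z hz, hA]
      ring)
    (by
      intro z hz r hr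
      unfold No
      rw [score_elim, fsc_negv, hr, hr0 z hz, hA]
      ring)
  refine ⟨μ1, μ0, hd1, hd0, hs1, hs0, fun s0 level g hss hg hl j μ hμ => ?_⟩
  have key := hb s0 level g (by
    have h1 : (s0 : ℝ) ≤ 2 ^ k := by exact_mod_cast hss
    push_cast
    rw [pow_add]
    have h2 : (2 : ℝ) ^ K ≠ 0 := by positivity
    field_simp
    exact h1) hg hl j μ hμ
  have eE : ex (fun z => ex (fun r : J → Bool => b2 (g j (Sum.elim z r)))) =
      ex (fun x : Idx m → Bool => b2 (g j x)) := by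
    have e1 := ex_equiv (Equiv.sumArrowEquivProdArrow (I ⊕ I) J Bool).symm
      (fun x : (I ⊕ I) ⊕ J → Bool => b2 (g j x))
    rw [e1, ex_prod]
    rfl
  rw [eE] at key
  set E := ex (fun x : Idx m → Bool => b2 (g j x)) with hE
  have hE0 : 0 ≤ E := ex_nonneg fun x => b2_nonneg _
  set S := ∑ x, μ x * b2 (g j x) with hS
  -- the numbers
  have hXr : (2000 : ℝ) ≤ X := by exact_mod_cast hX
  have hXpos : (0 : ℝ) < X := by linarith
  set u : ℝ := 1 / X with hu
  have hu0 : 0 < u := by positivity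
  have hu1 : u ≤ 1 / 2000 := one_div_le_one_div_of_le (by norm_num) hXr
  have f1 : (3 : ℝ) / X = 3 * u := by rw [hu]; ring
  have f2 : (1204 : ℝ) / X = 1204 * u := by rw [hu]; ring
  have f3 : (22 : ℝ) / X = 22 * u := by rw [hu]; ring
  have f4 : (2500 : ℝ) / X = 2500 * u := by rw [hu]; ring
  rw [f1, f2, f3] at key
  rw [f4]
  set θ : ℝ := 1 / 2 ^ K with hθ
  have f5 : (4 : ℝ) / 2 ^ K = 4 * θ := by rw [hθ]; ring
  rw [f5]
  -- tails
  have hQ1 : 1 ≤ (32 * w) ^ h := Nat.one_le_pow _ _ (by omega)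
  have hQm : (32 * w) ^ h ≤ 2 ^ m := by
    calc (32 * w) ^ h = 1 * (32 * w) ^ h * 1 := by ring
      _ ≤ w * (32 * w) ^ h * X := by gcongr <;> omega
      _ ≤ (w * (32 * w) ^ h * X) ^ 2 := Nat.le_self_pow (by norm_num) _
      _ ≤ 2 ^ m := H1
  have hKm : 8 * K ≤ 2 ^ m := by
    calc 8 * K ≤ w * X := by nlinarith
      _ = w * 1 * X := by ring
      _ ≤ w * (32 * w) ^ h * X := by gcongr
      _ ≤ (w * (32 * w) ^ h * X) ^ 2 := Nat.le_self_pow (by norm_num) _
      _ ≤ 2 ^ m := H1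
  have hKmr : 8 * (K : ℝ) ≤ 2 ^ m := by exact_mod_cast hKm
  have hQmr : (32 * (w : ℝ)) ^ h ≤ 2 ^ m := by exact_mod_cast hQm
  have hexp : ∀ y : ℝ, (K : ℝ) ≤ y → Real.exp (-y) ≤ θ := by
    intro y hy
    calc Real.exp (-y) ≤ Real.exp (-(K : ℝ)) := Real.exp_le_exp.mpr (by linarith)
      _ = Real.exp (-1) ^ K := by
          rw [← Real.exp_nat_mul]
          congr 1
          ring
      _ ≤ (1 / 2) ^ K := by
          apply pow_le_pow_left₀ (Real.exp_pos _).le
          linarith [exp_neg_one_le]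
      _ = θ := by rw [hθ, one_div_pow]
  have t1 : Real.exp (-((1 / (32 * (w : ℝ))) ^ h * (Fintype.card J : ℕ) / 8)) ≤ θ := by
    apply hexp
    rw [hcJ, one_div_pow]
    have hq0 : (0 : ℝ) < (32 * (w : ℝ)) ^ h := by
      have : (0 : ℝ) < w := by exact_mod_cast hw0
      positivity
    rw [one_div_mul_eq_div, div_div, le_div_iff₀ (by positivity)]
    have h8 : (8 : ℝ) ^ m = 2 ^ m * 2 ^ m * 2 ^ m := by
      rw [← mul_pow, ← mul_pow]; norm_num
    rw [h8]
    have hone : (1 : ℝ) ≤ 2 ^ m := one_le_pow₀ (by norm_num)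
    have h9 : (32 * (w : ℝ)) ^ h * (8 * K) ≤ 2 ^ m * 2 ^ m :=
      mul_le_mul hQmr hKmr (by positivity) (by positivity)
    have h10 : (2 : ℝ) ^ m * 2 ^ m * 1 ≤ 2 ^ m * 2 ^ m * 2 ^ m :=
      mul_le_mul_of_nonneg_left hone (by positivity)
    linarith
  have t2 : Real.exp (-(((4 : ℝ) ^ m) ^ 2 / (2 * (Fintype.card J : ℕ)))) ≤ θ := by
    apply hexp
    rw [hcJ]
    have h8 : (8 : ℝ) ^ m = 2 ^ m * 2 ^ m * 2 ^ m := by
      rw [← mul_pow, ← mul_pow]; norm_num
    have h4 : (4 : ℝ) ^ m = 2 ^ m * 2 ^ m := by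
      rw [← mul_pow]; norm_num
    rw [h8, h4]
    have ha : (0 : ℝ) < 2 ^ m := by positivity
    have : ((2 : ℝ) ^ m * 2 ^ m) ^ 2 / (2 * (2 ^ m * 2 ^ m * 2 ^ m)) = 2 ^ m / 2 := by
      field_simp
    rw [this]
    have : (0 : ℝ) ≤ K := Nat.cast_nonneg K
    linarith
  have t3 : Real.exp (3 * u) ≤ 1 + 6 * u := by
    have := Real.abs_exp_sub_one_le (x := 3 * u) (by rw [abs_of_pos (by positivity)]; linarith)
    rw [abs_of_pos (show 0 < 3 * u by positivity)] at this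
    have := (abs_le.mp this).2
    linarith
  have hθp : 0 < θ := hθ0
  have step1 : (1 + 1204 * u) * (Real.exp (3 * u) * (E + θ * (3 * u))) ≤
      (1 + 1204 * u) * ((1 + 6 * u) * (E + θ * (3 * u))) := by
    apply mul_le_mul_of_nonneg_left _ (by positivity)
    exact mul_le_mul_of_nonneg_right t3 (by positivity)
  have key2 : (1 - 22 * u) * S ≤ (1 + 1204 * u) * ((1 + 6 * u) * (E + θ * (3 * u))) +
      (θ * (1204 * u) + θ + 2 * θ) := by linarith
  have hcoef : (1 + 1204 * u) * (1 + 6 * u) ≤ (1 + 2500 * u) * (1 - 22 * u) := by nlinarith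
  have key3 : (1 - 22 * u) * S ≤ (1 - 22 * u) * ((1 + 2500 * u) * E + 4 * θ) := by
    have a1 := mul_le_mul_of_nonneg_right hcoef hE0
    have a2 : (1 + 1204 * u) * (1 + 6 * u) ≤ 2 := by nlinarith
    have a3 := mul_le_mul_of_nonneg_right a2 (show 0 ≤ θ * (3 * u) by positivity)
    have a4 : 2 * (θ * (3 * u)) + (θ * (1204 * u) + θ + 2 * θ) ≤ (1 - 22 * u) * (4 * θ) := by
      have : 2 * (3 * u) + (1204 * u + 1 + 2) ≤ (1 - 22 * u) * 4 := by linarith
      have := mul_le_mul_of_nonneg_left this hθp.le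
      linarith
    linarith
  exact le_of_mul_le_mul_left key3 (by linarith)

/-- Domination for functions computed by small circuits. -/
theorem comp_dom {h w m k K X : ℕ} (hw : w = (k + K) + 5 * m) (hm : 0 < m) (hh : 0 < h)
    (hX : 2000 ≤ X) (H1 : (w * (32 * w) ^ h * X) ^ 2 ≤ 2 ^ m) :
    ∃ μ1 μ0 : (Idx m → Bool) → ℝ, IsDist μ1 ∧ IsDist μ0 ∧ (∀ x, ¬ Yes m x → μ1 x = 0) ∧
      (∀ x, ¬ No m x → μ0 x = 0) ∧
      ∀ f : (Idx m → Bool) → Bool, Comp w h (2 ^ k) f →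
        ∀ μ, (μ = μ1 ∨ μ = μ0) → ∑ x, μ x * b2 (f x) ≤
          (1 + 2500 / X) * ex (fun x => b2 (f x)) + 4 / 2 ^ K := by
  obtain ⟨μ1, μ0, h1, h0, hs1, hs0, hb⟩ := avg_dom hw hm hX H1
  refine ⟨μ1, μ0, h1, h0, hs1, hs0, fun f hf μ hμ => ?_⟩
  obtain ⟨s', level, g, j, a1, a2, a3, a4⟩ := hf.fam hh (by positivity)
  have := hb s' level g a1 a2 a3 j μ hμ
  rw [a4] at this
  exact this

end final

end Pool.Agent.Helper67.EQP
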