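import Pool.Agent.Helper67.EQP.Dom

set_option autoImplicit false
set_option linter.unusedSectionVars false

/-!
Domination for slices, with exponentially small additive errors.
-/

namespace Pool.Agent.Helper67.EQP

open Finset Function Classical
open Pool.Agent.Helper67.JL (ex ex_mono ex_nonneg ex_add ex_mul_left ex_mul_right ex_sum ex_const
  ex_equiv ex_prod)

section slice

variable {J : Type} [Fintype J] [DecidableEq J]

theorem sl_ind_near {k w : ℕ} {ε : ℝ} (hε1 : w * ε ≤ 1 / 2) (hw : 0 < w)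
    (hwL : w < Fintype.card J)
    (hε : |(2 : ℝ) * k - Fintype.card J| + w ≤ ε * (Fintype.card J - w))
    (P : Finset J) (σ : J → Bool) (hP : P.card ≤ w) : sl k (ind P σ) ≤ 1 + 2 * (w * ε) := by
  have hw1 : (1 : ℝ) ≤ w := by exact_mod_cast hw
  have hLw : (0 : ℝ) < Fintype.card J - w := by
    have : (w : ℝ) < Fintype.card J := by exact_mod_cast hwL
    linarith
  have habs := abs_nonneg ((2 : ℝ) * k - Fintype.card J)
  have hε0 : 0 ≤ ε := by
    by_contra h
    push Not at h
    have : ε * (Fintype.card J - w) < 0 := mul_neg_of_neg_of_pos h hLw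
    linarith
  have hε1' : ε < 1 := by nlinarith
  have hlt : |(2 : ℝ) * k - Fintype.card J| + w < Fintype.card J - w := by
    have : ε * (Fintype.card J - w) < 1 * (Fintype.card J - w) :=
      mul_lt_mul_of_pos_right hε1' hLw
    linarith
  have hk1 : w < k := by
    have := neg_abs_le ((2 : ℝ) * k - Fintype.card J)
    have h2 : (w : ℝ) < k := by linarith
    exact_mod_cast h2
  have hcard : (P.filter (fun i => σ i = true)).card ≤ P.card := card_filter_le _ _
  rw [sl_ind P σ k (by omega)]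
  have h0 := (abs_le.mp (ratio_bound hε1' hwL hε P.card _ hcard hP)).2
  have h1 : (1 + ε) ^ P.card ≤ Real.exp (w * ε) := by
    calc (1 + ε) ^ P.card ≤ (Real.exp ε) ^ P.card := by
          apply pow_le_pow_left₀ (by linarith)
          rw [add_comm]
          exact Real.add_one_le_exp ε
      _ = Real.exp (P.card * ε) := by rw [Real.exp_nat_mul]
      _ ≤ Real.exp (w * ε) := by
          apply Real.exp_le_exp.mpr
          apply mul_le_mul_of_nonneg_right _ hε0
          exact_mod_cast hP
  have h2 : |Real.exp (w * ε) - 1| ≤ 2 * |(w : ℝ) * ε| := by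
    apply Real.abs_exp_sub_one_le
    rw [abs_of_nonneg (by positivity)]
    linarith
  rw [abs_of_nonneg (by positivity : (0 : ℝ) ≤ w * ε)] at h2
  have h3 := le_abs_self (Real.exp (w * ε) - 1)
  linarith

/-- Shallow decision trees accept a slice not much more often than the cube. -/
theorem slice_dom {k w : ℕ} {ε : ℝ} (hε1 : w * ε ≤ 1 / 2) (hw : 0 < w)
    (hwL : w < Fintype.card J)
    (hε : |(2 : ℝ) * k - Fintype.card J| + w ≤ ε * (Fintype.card J - w))
    {f : (J → Bool) → Bool} (hf : DTd w f) :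
    sl k (fun y => b2 (f y)) ≤ (1 + 2 * (w * ε)) * mext (fun _ => 0) (fun y => b2 (f y)) := by
  have key := dt_functional_le' (fun F => sl k F + (-(1 + 2 * (w * ε))) * mext (fun _ => 0) F)
    (by
      intro F G
      rw [sl_add, mext_add]
      ring)
    (by
      intro c F
      rw [sl_mul, mext_mul_left]
      ring)
    (by
      intro P σ hP
      rw [mext_zero_ind]
      have := sl_ind_near hε1 hw hwL hε P σ hP
      linarith) hf
  linarith

end slice

section tails

variable {ι : Type} [Fintype ι] [DecidableEq ι]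

theorem exp_neg_one_le : Real.exp (-1) ≤ 3 / 8 := by
  rw [Real.exp_neg, inv_eq_one_div, div_le_div_iff₀ (Real.exp_pos 1) (by norm_num)]
  have := Real.exp_one_gt_d9
  linarith

theorem pm_nfree_exp {P : ℝ} (hP0 : 0 < P) (hP1 : P ≤ 1) :
    pm (rw' P) (fun ρ : ι → Option Bool =>
      if P * Fintype.card ι / 2 ≤ nfree ρ then (0 : ℝ) else 1) ≤
      Real.exp (-(P * Fintype.card ι / 8)) := by
  set M : ℝ := (Fintype.card ι : ℝ) with hM
  have hnn : ∀ (i : ι) (r : Option Bool), 0 ≤ rw' P i r := fun i r => rw'_nonneg hP0.le hP1 i r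
  have h1 : ∀ ρ : ι → Option Bool, (if P * M / 2 ≤ nfree ρ then (0 : ℝ) else 1) ≤
      Real.exp (P * M / 2) * ∏ i, Real.exp (-(if ρ i = none then (1 : ℝ) else 0)) := by
    intro ρ
    rw [← Real.exp_sum, ← Real.exp_add]
    split_ifs with h
    · positivity
    · push Not at h
      apply Real.one_le_exp
      rw [sum_neg_distrib, sum_boole]
      unfold nfree at h
      linarith
  refine (pm_mono _ hnn h1).trans ?_
  rw [pm_mul_left, pm_prod_fun (rw' P) (fun _ r => Real.exp (-(if r = none then (1 : ℝ) else 0)))]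
  have h2 : ∀ i : ι, ∑ r, rw' P i r * Real.exp (-(if r = none then (1 : ℝ) else 0)) ≤
      Real.exp (-(5 / 8 * P)) := by
    intro i
    rw [Fintype.sum_option, Fintype.sum_bool]
    simp only [rw'_none, rw'_some, if_true, reduceCtorEq, if_false, neg_zero, Real.exp_zero,
      mul_one]
    have h3 := mul_le_mul_of_nonneg_left exp_neg_one_le hP0.le
    have h4 := Real.add_one_le_exp (-(5 / 8 * P))
    linarith
  have h3 : ∏ i : ι, ∑ r, rw' P i r * Real.exp (-(if r = none then (1 : ℝ) else 0)) ≤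
      Real.exp (-(5 / 8 * P)) ^ Fintype.card ι := by
    rw [← card_univ, ← prod_const]
    apply prod_le_prod
    · intro i _
      exact sum_nonneg fun r _ => mul_nonneg (hnn i r) (Real.exp_pos _).le
    · intro i _
      exact h2 i
  calc Real.exp (P * M / 2) * ∏ i : ι, ∑ r, rw' P i r *
        Real.exp (-(if r = none then (1 : ℝ) else 0))
      ≤ Real.exp (P * M / 2) * Real.exp (-(5 / 8 * P)) ^ Fintype.card ι :=
        mul_le_mul_of_nonneg_left h3 (Real.exp_pos _).le
    _ = Real.exp (-(P * M / 8)) := by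
        rw [← Real.exp_nat_mul, ← Real.exp_add, ← hM]
        congr 1
        ring

theorem pm_fixed_exp {P : ℝ} (hP0 : 0 < P) (hP1 : P ≤ 1) {V : ℝ} (hV : 0 < V)
    (hι : 0 < Fintype.card ι) :
    pm (rw' P) (fun ρ : ι → Option Bool =>
      if |(nfix0 ρ : ℝ) - nfix1 ρ| ≤ V then (0 : ℝ) else 1) ≤
      2 * Real.exp (-(V ^ 2 / (2 * Fintype.card ι))) := by
  set M : ℝ := (Fintype.card ι : ℝ) with hMdef
  have hM : 0 < M := by rw [hMdef]; exact_mod_cast hι
  have hnn : ∀ (i : ι) (r : Option Bool), 0 ≤ rw' P i r := fun i r => rw'_nonneg hP0.le hP1 i r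
  set l := V / M with hl
  have hl0 : 0 < l := div_pos hV hM
  let Y : Option Bool → ℝ := fun r =>
    (if r = some false then (1 : ℝ) else 0) - (if r = some true then 1 else 0)
  have hD : ∀ ρ : ι → Option Bool, (nfix0 ρ : ℝ) - nfix1 ρ = ∑ i, Y (ρ i) := by
    intro ρ
    simp only [Y]
    rw [sum_sub_distrib, sum_boole, sum_boole]
    rfl
  have hmgf : ∀ u : ℝ, |u| = l → pm (rw' P) (fun ρ : ι → Option Bool =>
      Real.exp (-(l * V)) * ∏ i, Real.exp (u * Y (ρ i))) ≤ Real.exp (-(V ^ 2 / (2 * M))) := by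
    intro u hu
    rw [pm_mul_left, pm_prod_fun (rw' P) (fun _ r => Real.exp (u * Y r))]
    have h2 : ∀ i : ι, ∑ r, rw' P i r * Real.exp (u * Y r) ≤ Real.exp (l ^ 2 / 2) := by
      intro i
      rw [Fintype.sum_option, Fintype.sum_bool]
      simp only [Y, rw'_none, rw'_some, if_true, reduceCtorEq, if_false, Option.some.injEq,
        Bool.true_eq_false, Bool.false_eq_true, sub_zero, zero_sub, mul_one, mul_zero,
        Real.exp_zero, mul_neg]
      have h3 : Real.cosh u ≤ Real.exp (u ^ 2 / 2) := Real.cosh_le_exp_half_sq u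
      have h4 : u ^ 2 = l ^ 2 := by rw [← sq_abs, hu]
      rw [h4, Real.cosh_eq] at h3
      have h5 : 1 ≤ Real.exp (l ^ 2 / 2) := Real.one_le_exp (by positivity)
      have h6 := mul_le_mul_of_nonneg_left h3 (sub_nonneg.mpr hP1)
      have h7 := mul_le_mul_of_nonneg_left h5 hP0.le
      linarith
    have h3 : ∏ i : ι, ∑ r, rw' P i r * Real.exp (u * Y r) ≤
        Real.exp (l ^ 2 / 2) ^ Fintype.card ι := by
      rw [← card_univ, ← prod_const]
      apply prod_le_prod
      · intro i _
        exact sum_nonneg fun r _ => mul_nonneg (hnn i r) (Real.exp_pos _).le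
      · intro i _
        exact h2 i
    calc _ ≤ Real.exp (-(l * V)) * Real.exp (l ^ 2 / 2) ^ Fintype.card ι :=
          mul_le_mul_of_nonneg_left h3 (Real.exp_pos _).le
      _ = Real.exp (-(V ^ 2 / (2 * M))) := by
          rw [← Real.exp_nat_mul, ← Real.exp_add, ← hMdef, hl]
          congr 1
          field_simp
          ring
  have h1 : ∀ ρ : ι → Option Bool, (if |(nfix0 ρ : ℝ) - nfix1 ρ| ≤ V then (0 : ℝ) else 1) ≤
      Real.exp (-(l * V)) * ∏ i, Real.exp (l * Y (ρ i)) +
      Real.exp (-(l * V)) * ∏ i, Real.exp (-l * Y (ρ i)) := by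
    intro ρ
    rw [← Real.exp_sum, ← Real.exp_sum, ← Real.exp_add, ← Real.exp_add, ← mul_sum, ← mul_sum,
      ← hD]
    set d := (nfix0 ρ : ℝ) - nfix1 ρ
    have p1 := Real.exp_pos (-(l * V) + l * d)
    have p2 := Real.exp_pos (-(l * V) + -l * d)
    split_ifs with h
    · positivity
    · push Not at h
      rcases lt_abs.mp h with h2 | h2
      · have : 1 ≤ Real.exp (-(l * V) + l * d) := by
          apply Real.one_le_exp
          have := mul_le_mul_of_nonneg_left h2.le hl0.le
          linarith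
        linarith
      · have : 1 ≤ Real.exp (-(l * V) + -l * d) := by
          apply Real.one_le_exp
          have := mul_le_mul_of_nonneg_left h2.le hl0.le
          linarith
        linarith
  refine (pm_mono _ hnn h1).trans ?_
  rw [pm_add]
  have a1 := hmgf l (abs_of_pos hl0)
  have a2 := hmgf (-l) (by rw [abs_neg]; exact abs_of_pos hl0)
  linarith

end tails

section slices

variable {ι : Type} [Fintype ι] [DecidableEq ι]

theorem restr_slice_dom {w : ℕ} {ε : ℝ} {f : (ι → Bool) → Bool} {ρ : ι → Option Bool}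
    {r0 : ι → Bool} (hf : DTd w (fun z => f (mrg ρ z)))
    (hε1 : w * ε ≤ 1 / 2) (hw : 0 < w) (hwL : w < nfree ρ)
    (hε : |(2 : ℝ) * ntrue r0 - Fintype.card ι| + |(nfix0 ρ : ℝ) - nfix1 ρ| + w ≤
      ε * (nfree ρ - w)) :
    rsl ρ r0 (fun r => b2 (f r)) ≤
      (1 + 2 * (w * ε)) * mext (fun _ => 0) (fun z => b2 (f (mrg ρ z))) := by
  have hw1 : (1 : ℝ) ≤ w := by exact_mod_cast hw
  have hwLr : (w : ℝ) < nfree ρ := by exact_mod_cast hwL
  set K := ntrue r0 with hK
  have hsum : (nfree ρ : ℝ) + nfix1 ρ + nfix0 ρ = Fintype.card ι := by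
    exact_mod_cast nfree_add ρ
  have hε0 : 0 ≤ ε := by
    by_contra h
    push Not at h
    have : ε * (nfree ρ - w) < 0 := mul_neg_of_neg_of_pos h (by linarith)
    have h1 := abs_nonneg ((2 : ℝ) * K - Fintype.card ι)
    have h2 := abs_nonneg ((nfix0 ρ : ℝ) - nfix1 ρ)
    linarith
  have hε1' : ε < 1 := by nlinarith
  have habs : |(2 : ℝ) * (K - nfix1 ρ) - nfree ρ| ≤
      |(2 : ℝ) * K - Fintype.card ι| + |(nfix0 ρ : ℝ) - nfix1 ρ| := by
    have e : (2 : ℝ) * (K - nfix1 ρ) - nfree ρ =
        (2 * K - Fintype.card ι) + (nfix0 ρ - nfix1 ρ) := by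
      rw [← hsum]; ring
    rw [e]
    exact abs_add_le _ _
  have hlt : |(2 : ℝ) * (K - nfix1 ρ) - nfree ρ| < nfree ρ := by
    have : ε * (nfree ρ - w) < 1 * (nfree ρ - w) :=
      mul_lt_mul_of_pos_right hε1' (by linarith)
    linarith
  rw [abs_lt] at hlt
  have hK1 : nfix1 ρ ≤ K := by
    have : (nfix1 ρ : ℝ) < K := by linarith [hlt.1]
    exact_mod_cast this.le
  have hK2 : K - nfix1 ρ ≤ nfree ρ := by
    have : ((K - nfix1 ρ : ℕ) : ℝ) ≤ nfree ρ := by
      rw [Nat.cast_sub hK1]
      linarith [hlt.2]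
    exact_mod_cast this
  have hf' : DTd w (fun y : {i // ρ i = none} → Bool => f (mrg ρ (extz ρ y))) := by
    apply hf.comp (extz ρ)
    intro i
    unfold extz
    by_cases h : ρ i = none
    · simp only [dif_pos h]
      exact DTd.lit _
    · simp only [dif_neg h]
      exact DTd.const 1 false
  have hkey := slice_dom (J := {i // ρ i = none}) (k := K - nfix1 ρ) hε1 hw
    (by rw [card_free]; exact hwL)
    (by
      rw [card_free, Nat.cast_sub hK1]
      linarith) hf'
  have hfeas : Feas ρ r0 := ⟨hK1, by omega⟩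
  unfold rsl
  rw [if_pos hfeas, ← hK]
  rw [mext_zero_eq_ex] at hkey ⊢
  rw [ex_marginal ρ (fun r => b2 (f r))]
  exact hkey

/-- Small circuits accept a near-central slice not much more often than the cube. -/
theorem sld_dom {h s w : ℕ} {level : Fin s → ℕ} {g : Fin s → (ι → Bool) → Bool}
    (hAC : ACfam w level g) (hlev : ∀ j, level j < h) (hw : 0 < w) {p : ℝ} (hp : 0 < p)
    (hpw : 16 * p * w ≤ 1) (hι : 0 < Fintype.card ι) {V : ℝ} (hV : 0 < V) {r0 : ι → Bool} {ε : ℝ}
    (hε1 : w * ε ≤ 1 / 2) (hwL : (w : ℝ) < p ^ h * Fintype.card ι / 2)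
    (hε : |(2 : ℝ) * ntrue r0 - Fintype.card ι| + V + w ≤ ε * (p ^ h * Fintype.card ι / 2 - w))
    (j : Fin s) :
    sld (p ^ h) r0 (fun r => b2 (g j r)) ≤
      (1 + 2 * (w * ε)) * mext (fun _ => 0) (fun z => b2 (g j z)) +
      (h * (s * (16 * p * w) ^ (w + 1)) + Real.exp (-(p ^ h * Fintype.card ι / 8)) +
        2 * Real.exp (-(V ^ 2 / (2 * Fintype.card ι)))) := by
  have hw1 : (1 : ℝ) ≤ w := by exact_mod_cast hw
  have hp1 : p ≤ 1 := by nlinarith
  have hph : 0 < p ^ h := pow_pos hp h
  have hph1 : p ^ h ≤ 1 := pow_le_one₀ hp.le hp1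
  have hM : (0 : ℝ) < Fintype.card ι := by exact_mod_cast hι
  set M : ℝ := (Fintype.card ι : ℝ) with hMdef
  have hnn : ∀ (i : ι) (r : Option Bool), 0 ≤ rw' (p ^ h) i r :=
    fun i r => rw'_nonneg hph.le hph1 i r
  have hε0 : 0 ≤ ε := by
    by_contra h'
    push Not at h'
    have : ε * (p ^ h * M / 2 - w) < 0 := mul_neg_of_neg_of_pos h' (by linarith)
    have h1 := abs_nonneg ((2 : ℝ) * ntrue r0 - M)
    linarith
  have e2 : mext (fun _ => 0) (fun z => b2 (g j z)) =
      pm (rw' (p ^ h)) (fun ρ => mext (fun _ => 0) (fun z => b2 (g j (mrg ρ z)))) := by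
    refine Eq.trans ?_ (mext_scale (p ^ h) (fun _ => 0) (fun z => b2 (g j z)))
    simp
  have hwe : 0 ≤ 2 * ((w : ℝ) * ε) := by positivity
  have key : ∀ ρ : ι → Option Bool, rsl ρ r0 (fun r => b2 (g j r)) ≤
      (1 + 2 * (w * ε)) * mext (fun _ => 0) (fun z => b2 (g j (mrg ρ z))) +
      ((if GoodUpTo w h level (fun j x => g j (mrg ρ x)) then 0 else 1) +
        ((if p ^ h * M / 2 ≤ nfree ρ then 0 else 1) +
        (if |(nfix0 ρ : ℝ) - nfix1 ρ| ≤ V then 0 else 1))) := by
    intro ρ
    have h1' : 0 ≤ mext (fun _ => 0) (fun z => b2 (g j (mrg ρ z))) := by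
      rw [mext_zero_eq_ex]
      exact ex_nonneg fun z => b2_nonneg _
    have h1 : 0 ≤ (1 + 2 * (w * ε)) * mext (fun _ => 0) (fun z => b2 (g j (mrg ρ z))) := by
      positivity
    have h4 : rsl ρ r0 (fun r => b2 (g j r)) ≤ 1 := by
      have h5 : 0 ≤ rsl ρ r0 (fun r => 1 + (-1) * b2 (g j r)) :=
        rsl_nonneg ρ r0 fun y => by linarith [b2_le_one (g j y)]
      rw [rsl_add, rsl_mul, rsl_const_of ρ r0 (F := fun _ => (1 : ℝ)) (c := 1)
        (fun _ _ => rfl)] at h5
      linarith
    by_cases g1 : GoodUpTo w h level (fun j x => g j (mrg ρ x))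
    · by_cases g2 : p ^ h * M / 2 ≤ nfree ρ
      · by_cases g3 : |(nfix0 ρ : ℝ) - nfix1 ρ| ≤ V
        · rw [if_pos g1, if_pos g2, if_pos g3]
          have := restr_slice_dom (r0 := r0) (g1 j (hlev j)) hε1 hw
            (by
              have : (w : ℝ) < nfree ρ := by linarith
              exact_mod_cast this)
            (by
              rw [← hMdef]
              have : ε * (p ^ h * M / 2 - w) ≤ ε * (nfree ρ - w) :=
                mul_le_mul_of_nonneg_left (by linarith) hε0
              linarith)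
          linarith
        · rw [if_neg g3]
          split_ifs <;> linarith
      · rw [if_neg g2]
        split_ifs <;> linarith
    · rw [if_neg g1]
      split_ifs <;> linarith
  unfold sld
  refine (pm_mono _ hnn key).trans ?_
  rw [pm_add, pm_mul_left, pm_add, pm_add, ← e2]
  have hs := ac_switch hAC hw hp hpw h
  have h2 := pm_nfree_exp (ι := ι) hph hph1
  have h3 := pm_fixed_exp (ι := ι) hph hph1 hV hι
  rw [← hMdef] at h2 h3
  linarith

end slices

end Pool.Agent.Helper67.EQP
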