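import Pool.Agent.Helper67.EQP.Alg
import Pool.Agent.Helper67.EQP.Bridge

set_option autoImplicit false
set_option linter.unusedSectionVars false

/-!
The quantum algorithms for the promise problem: one query with success probability `3/4`, three
queries with certainty.
-/

namespace Pool.Agent.Helper67.EQP

open Finset Matrix

/-- Workspace of the algorithm (without the control bit). -/
abbrev B0 (m : ℕ) : Type := (Fin (2 * m + 4) → Bool) ⊕ (Fin (3 * m) → Bool)

/-- Hadamard transform on the first register. -/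
noncomputable def qmat (m : ℕ) : Matrix (B0 m) (B0 m) ℝ := fun a b =>
  match a, b with
  | Sum.inl i, Sum.inl k => hmat m i k
  | Sum.inr i, Sum.inr k => if i = k then 1 else 0
  | _, _ => 0

theorem hmat_symm (m : ℕ) (i k : Fin (2 * m + 4) → Bool) : hmat m i k = hmat m k i := by
  unfold hmat
  rw [had_comm]

theorem qmat_symm (m : ℕ) (a b : B0 m) : qmat m a b = qmat m b a := by
  rcases a with i | i <;> rcases b with k | k
  · exact hmat_symm m i k
  · rfl
  · rfl
  · simp [qmat, eq_comm]

theorem qmat_mulVec_l (m : ℕ) (v : B0 m → ℝ) (i : Fin (2 * m + 4) → Bool) :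
    ((qmat m).mulVec v) (Sum.inl i) = ∑ k, hmat m i k * v (Sum.inl k) := by
  unfold mulVec dotProduct
  rw [Fintype.sum_sum_type]
  simp [qmat]

theorem qmat_mulVec_r (m : ℕ) (v : B0 m → ℝ) (j : Fin (3 * m) → Bool) :
    ((qmat m).mulVec v) (Sum.inr j) = v (Sum.inr j) := by
  unfold mulVec dotProduct
  rw [Fintype.sum_sum_type]
  simp [qmat]

theorem qmat_sq (m : ℕ) : qmat m * qmat m = 1 := by
  apply eq_one_of
  intro v b
  rw [← mulVec_mulVec]
  rcases b with i | j
  · rw [qmat_mulVec_l]
    simp_rw [qmat_mulVec_l, mul_sum]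
    rw [sum_comm]
    have h : ∀ k, ∑ l, hmat m i l * (hmat m l k * v (Sum.inl k)) =
        (if i = k then 1 else 0) * v (Sum.inl k) := by
      intro k
      rw [← (hmat_orth m).row i k, sum_mul]
      apply sum_congr rfl
      intro l _
      rw [hmat_symm m l k]
      ring
    simp_rw [h]
    simp
  · rw [qmat_mulVec_r, qmat_mulVec_r]

/-- Initial amplitudes. -/
noncomputable def psi0 (m : ℕ) : B0 m × Bool → ℝ
  | (Sum.inl _, _) => Real.sqrt (2 / (65 * 4 ^ m))
  | (Sum.inr _, _) => Real.sqrt (1 / (130 * 8 ^ m))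

/-- Which input bit is read. -/
def posn (m : ℕ) : B0 m × Bool → Option (Idx m)
  | (Sum.inl i, false) => some (Sum.inl (Sum.inl i))
  | (Sum.inl k, true) => some (Sum.inl (Sum.inr k))
  | (Sum.inr _, false) => none
  | (Sum.inr j, true) => some (Sum.inr j)

theorem psi0_norm (m : ℕ) : psi0 m ⬝ᵥ psi0 m = 1 := by
  unfold dotProduct
  rw [Fintype.sum_prod_type, Fintype.sum_sum_type]
  simp only [Fintype.sum_bool, psi0]
  rw [Real.mul_self_sqrt (by positivity), Real.mul_self_sqrt (by positivity)]
  simp only [sum_const, card_univ, nsmul_eq_mul, card_left, card_right]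
  push_cast
  have h4 : (4 : ℝ) ^ m ≠ 0 := by positivity
  have h8 : (8 : ℝ) ^ m ≠ 0 := by positivity
  field_simp
  ring

/-- The real phases. -/
def phr (m : ℕ) (x : Idx m → Bool) (b : B0 m × Bool) : ℝ :=
  match posn m b with
  | none => 1
  | some i => if x i then -1 else 1

theorem phr_sq (m : ℕ) (x : Idx m → Bool) (b : B0 m × Bool) : phr m x b * phr m x b = 1 := by
  unfold phr
  split
  · norm_num
  · split_ifs <;> norm_num

/-- The state after one query and the controlled Hadamard transform. -/
noncomputable def ev (m : ℕ) (x : Idx m → Bool) : B0 m × Bool → ℝ :=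
  (mC (qmat m)).mulVec (fun b => phr m x b * psi0 m b)

theorem dot_mX (m : ℕ) (e : B0 m × Bool → ℝ) :
    e ⬝ᵥ mX.mulVec e = 2 * ∑ a, e (a, false) * e (a, true) := by
  unfold dotProduct
  rw [Fintype.sum_prod_type, mul_sum]
  apply sum_congr rfl
  intro a _
  rw [Fintype.sum_bool, mX_mulVec, mX_mulVec]
  simp only [Bool.not_true, Bool.not_false]
  ring

/-- The overlap computed by one query. -/
theorem overlap (m : ℕ) (x : Idx m → Bool) :
    ev m x ⬝ᵥ mX.mulVec (ev m x) = score m x / (65 * 8 ^ m) := by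
  set e := ev m x with he
  rw [dot_mX, Fintype.sum_sum_type]
  have eF : ∀ a, e (a, false) = phr m x (a, false) * psi0 m (a, false) := by
    intro a
    rw [he, ev, mC_mulVec_false]
  have eT : ∀ a, e (a, true) = ((qmat m).mulVec
      (fun d => phr m x (d, true) * psi0 m (d, true))) a := by
    intro a
    rw [he, ev, mC_mulVec_true]
    rfl
  simp_rw [eF, eT, qmat_mulVec_l, qmat_mulVec_r]
  set s1 := Real.sqrt (2 / (65 * 4 ^ m)) with hs1
  set s2 := Real.sqrt (1 / (130 * 8 ^ m)) with hs2
  have q1 : s1 * s1 = 2 / (65 * 4 ^ m) := Real.mul_self_sqrt (by positivity)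
  have q2 : s2 * s2 = 1 / (130 * 8 ^ m) := Real.mul_self_sqrt (by positivity)
  have hsp : ∀ b : Bool, (if b = true then (-1 : ℝ) else 1) = ((spin b : ℤ) : ℝ) := by
    intro b
    cases b <;> simp [spin]
  have t1 : ∀ i, phr m x (Sum.inl i, false) * psi0 m (Sum.inl i, false) *
      ∑ k, hmat m i k * (phr m x (Sum.inl k, true) * psi0 m (Sum.inl k, true)) =
      (s1 * s1 / (4 * 2 ^ m)) * ∑ k, (had i k : ℝ) * (spin (x (Sum.inl (Sum.inl i))) : ℝ) *
        (spin (x (Sum.inl (Sum.inr k))) : ℝ) := by
    intro i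
    simp only [phr, posn, psi0, hsp]
    rw [← hs1, mul_sum, mul_sum]
    apply sum_congr rfl
    intro k _
    unfold hmat
    ring
  have t2 : ∀ j, phr m x (Sum.inr j, false) * psi0 m (Sum.inr j, false) *
      (phr m x (Sum.inr j, true) * psi0 m (Sum.inr j, true)) =
      (s2 * s2) * (spin (x (Sum.inr j)) : ℝ) := by
    intro j
    simp only [phr, posn, psi0, hsp]
    ring
  simp_rw [t1, t2]
  rw [← mul_sum, ← mul_sum, q1, q2]
  unfold score
  push_cast
  rw [eight_pow_eq]
  field_simp
  ring

/-- The unitaries of the algorithm. -/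
noncomputable def uni (m : ℕ) (j k : ℕ) : Matrix (B0 m × Bool) (B0 m × Bool) ℂ :=
  if k = 2 * j then (mH : Matrix (B0 m × Bool) (B0 m × Bool) ℝ).map (fun r : ℝ => (r : ℂ)) *
    (mC (qmat m)).map (fun r : ℝ => (r : ℂ))
  else if k % 2 = 0 then (mC (qmat m)).map (fun r : ℝ => (r : ℂ)) *
    (mX : Matrix (B0 m × Bool) (B0 m × Bool) ℝ).map (fun r : ℝ => (r : ℂ)) *
      (mC (qmat m)).map (fun r : ℝ => (r : ℂ))
  else (mR (psi0 m)).map (fun r : ℝ => (r : ℂ))

theorem map_mulVec {B : Type} [Fintype B] (M : Matrix B B ℝ) (v : B → ℝ) (b : B) :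
    ((M.map (fun r : ℝ => (r : ℂ))).mulVec (fun b => (v b : ℂ))) b = ((M.mulVec v) b : ℝ) := by
  unfold mulVec dotProduct
  push_cast
  simp

/-- The algorithm with `2j+1` queries, accepting if the control bit is `bb` at the end. -/
noncomputable def algo (m : ℕ) (j : ℕ) (bb : Bool) : QueryAlgorithm (Idx m) where
  B := B0 m × Bool
  fintypeB := inferInstance
  decEqB := inferInstance
  pos := posn m
  T := 2 * j + 1
  init := fun b => (psi0 m b : ℂ)
  init_norm := by
    have := psi0_norm m
    unfold dotProduct at this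
    rw [← this]
    apply sum_congr rfl
    intro b _
    rw [Complex.norm_real, Real.norm_eq_abs, sq_abs, pow_two]
  U := uni m j
  unitary := by
    intro k
    have hC := unitary_of_real (mC (qmat m)) (mC_symm (qmat_symm m)) (mC_sq (qmat_sq m))
    unfold uni
    split_ifs
    · exact Submonoid.mul_mem _ (unitary_of_real mH mH_symm mH_sq) hC
    · exact Submonoid.mul_mem _ (Submonoid.mul_mem _ hC (unitary_of_real mX mX_symm mX_sq)) hC
    · exact unitary_of_real _ (mR_symm _) (mR_sq _ (psi0_norm m))
  acc := univ.filter (fun b => b.2 = bb)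

theorem algo_phase (m : ℕ) (j : ℕ) (bb : Bool) (x : Idx m → Bool)
    (b : B0 m × Bool) : (algo m j bb).phase x b = (phr m x b : ℂ) := by
  unfold QueryAlgorithm.phase phr
  rw [show (algo m j bb).pos b = posn m b from rfl]
  rcases posn m b with _ | i
  · simp
  · beta_reduce
    by_cases hx : x i = true
    · simp [hx]
    · simp [hx]

theorem algo_state (m : ℕ) (j : ℕ) (bb : Bool) (x : Idx m → Bool)
    (k : ℕ) (hk : k ≤ 2 * j) :
    (algo m j bb).state x k =
      fun b => ((rs (qmat m) (psi0 m) (phr m x) k b : ℝ) : ℂ) := by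
  induction k with
  | zero => rfl
  | succ k ih =>
    rw [QueryAlgorithm.state, ih (by omega)]
    have e1 : (fun b => (algo m j bb).phase x b *
        ((rs (qmat m) (psi0 m) (phr m x) k b : ℝ) : ℂ)) =
        fun b => ((phr m x b * rs (qmat m) (psi0 m) (phr m x) k b : ℝ) : ℂ) := by
      funext b
      rw [algo_phase]
      push_cast
      rfl
    rw [e1]
    change (uni m j k).mulVec _ = _
    unfold uni
    rw [if_neg (by omega : ¬ k = 2 * j)]
    funext b
    rw [rs]
    split_ifs with hpar
    · rw [← Matrix.mulVec_mulVec, ← Matrix.mulVec_mulVec]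
      have a1 := funext (map_mulVec (mC (qmat m))
        (fun b => phr m x b * rs (qmat m) (psi0 m) (phr m x) k b))
      rw [a1]
      have a2 := funext (map_mulVec (mX : Matrix (B0 m × Bool) (B0 m × Bool) ℝ)
        ((mC (qmat m)).mulVec (fun b => phr m x b * rs (qmat m) (psi0 m) (phr m x) k b)))
      rw [a2, map_mulVec, Matrix.mulVec_mulVec, Matrix.mulVec_mulVec, Matrix.mul_assoc]
    · rw [map_mulVec]

/-- The final state. -/
theorem algo_final (m : ℕ) (j : ℕ) (bb : Bool) (x : Idx m → Bool) :
    (algo m j bb).state x (2 * j + 1) =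
      fun b => ((mH.mulVec ((mC (qmat m)).mulVec
        (fun b => phr m x b * rs (qmat m) (psi0 m) (phr m x) (2 * j) b)) b : ℝ) : ℂ) := by
  rw [QueryAlgorithm.state, algo_state m j bb x (2 * j) le_rfl]
  have e1 : (fun b => (algo m j bb).phase x b *
      ((rs (qmat m) (psi0 m) (phr m x) (2 * j) b : ℝ) : ℂ)) =
      fun b => ((phr m x b * rs (qmat m) (psi0 m) (phr m x) (2 * j) b : ℝ) : ℂ) := by
    funext b
    rw [algo_phase]
    push_cast
    rfl
  rw [e1]
  change (uni m j (2 * j)).mulVec _ = _
  unfold uni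
  rw [if_pos rfl, ← Matrix.mulVec_mulVec]
  have a1 := funext (map_mulVec (mC (qmat m))
    (fun b => phr m x b * rs (qmat m) (psi0 m) (phr m x) (2 * j) b))
  rw [a1]
  exact funext (map_mulVec mH _)

theorem algo_acceptProb (m : ℕ) (j : ℕ) (bb : Bool) (x : Idx m → Bool) :
    (algo m j bb).acceptProb x = ∑ a, (mH.mulVec ((mC (qmat m)).mulVec
        (fun b => phr m x b * rs (qmat m) (psi0 m) (phr m x) (2 * j) b)) (a, bb)) ^ 2 := by
  have h1 : (algo m j bb).acceptProb x = ∑ b ∈ univ.filter (fun b : B0 m × Bool => b.2 = bb),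
      ‖(algo m j bb).state x (2 * j + 1) b‖ ^ 2 := rfl
  rw [h1, algo_final, sum_filter, Fintype.sum_prod_type]
  apply sum_congr rfl
  intro a _
  rw [Fintype.sum_bool]
  cases bb
  · simp only [Bool.true_eq_false, if_false, if_true, zero_add]
    rw [Complex.norm_real, Real.norm_eq_abs, sq_abs]
  · simp only [Bool.false_eq_true, if_false, if_true, add_zero]
    rw [Complex.norm_real, Real.norm_eq_abs, sq_abs]

theorem ev_norm (m : ℕ) (x : Idx m → Bool) : ev m x ⬝ᵥ ev m x = 1 := by
  unfold ev
  rw [dot_mulVec_symm (mC_symm (qmat_symm m)), mulVec_mulVec, mC_sq (qmat_sq m), one_mulVec]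
  rw [← psi0_norm m]
  unfold dotProduct
  apply sum_congr rfl
  intro b _
  have := phr_sq m x b
  calc phr m x b * psi0 m b * (phr m x b * psi0 m b) =
      (phr m x b * phr m x b) * (psi0 m b * psi0 m b) := by ring
    _ = psi0 m b * psi0 m b := by rw [this, one_mul]

theorem sqrt2_sq : Real.sqrt 2 ^ 2 = 2 := by rw [pow_two]; exact sqrt2_mul

/-- One query computes the score in expectation. -/
theorem one_query (m : ℕ) (x : Idx m → Bool) :
    (algo m 0 false).acceptProb x = (1 + score m x / (65 * 8 ^ m)) / 2 := by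
  rw [algo_acceptProb]
  have h0 : (mC (qmat m)).mulVec
      (fun b => phr m x b * rs (qmat m) (psi0 m) (phr m x) (2 * 0) b) = ev m x := rfl
  rw [h0]
  have h1 : ∀ a, (mH.mulVec (ev m x) (a, false)) ^ 2 =
      ((ev m x (a, false) * ev m x (a, false) + ev m x (a, true) * ev m x (a, true)) +
        2 * (ev m x (a, false) * ev m x (a, true))) / 2 := by
    intro a
    rw [mH_mulVec, div_pow, sqrt2_sq]
    simp only [Bool.false_eq_true, if_false]
    ring
  simp_rw [h1]
  rw [← sum_div, sum_add_distrib, ← mul_sum, ← dot_mX, overlap]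
  have h2 : ∑ a, (ev m x (a, false) * ev m x (a, false) +
      ev m x (a, true) * ev m x (a, true)) = 1 := by
    rw [← ev_norm m x]
    unfold dotProduct
    rw [Fintype.sum_prod_type]
    apply sum_congr rfl
    intro a _
    rw [Fintype.sum_bool, add_comm]
  rw [h2]

/-- The state before the last Hadamard gate with three queries. -/
theorem three_state (m : ℕ) (x : Idx m → Bool) :
    (mC (qmat m)).mulVec (fun b => phr m x b * rs (qmat m) (psi0 m) (phr m x) (2 * 1) b) =
      (2 * (score m x / (65 * 8 ^ m) : ℝ)) • ev m x - mX.mulVec (ev m x) := by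
  have h := rs_even (qmat_symm m) (qmat_sq m) (psi0_norm m) (phr_sq m x) (overlap m x) 1
  rw [h]
  simp only [pq, mul_one, sub_zero, one_smul]
  rfl

/-- Three queries decide the promise problem with certainty. -/
theorem three_query (m : ℕ) :
    (∀ x, Yes m x → (algo m 1 true).acceptProb x = 1) ∧
      (∀ x, No m x → (algo m 1 true).acceptProb x = 0) := by
  have h8 : (8 : ℝ) ^ m ≠ 0 := by positivity
  constructor
  · intro x hx
    have hc : (score m x / (65 * 8 ^ m) : ℝ) = 1 / 2 := by
      have : (2 : ℝ) * score m x = 65 * 8 ^ m := by exact_mod_cast hx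
      rw [div_eq_div_iff (by positivity) (by norm_num)]
      linarith
    rw [algo_acceptProb, three_state, hc]
    have h1 : ∀ a, (mH.mulVec ((2 * (1 / 2) : ℝ) • ev m x - mX.mulVec (ev m x)) (a, true)) ^ 2 =
        2 * ((ev m x (a, false) * ev m x (a, false) + ev m x (a, true) * ev m x (a, true)) -
          2 * (ev m x (a, false) * ev m x (a, true))) := by
      intro a
      rw [mH_mulVec, div_pow, sqrt2_sq]
      simp only [if_true, Pi.sub_apply, Pi.smul_apply, smul_eq_mul, mX_mulVec, Bool.not_false,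
        Bool.not_true]
      ring
    simp_rw [h1]
    rw [← mul_sum, sum_sub_distrib, ← mul_sum, ← dot_mX, overlap, hc]
    have h2 : ∑ a, (ev m x (a, false) * ev m x (a, false) +
        ev m x (a, true) * ev m x (a, true)) = 1 := by
      rw [← ev_norm m x]
      unfold dotProduct
      rw [Fintype.sum_prod_type]
      apply sum_congr rfl
      intro a _
      rw [Fintype.sum_bool, add_comm]
    rw [h2]
    norm_num
  · intro x hx
    have hc : (score m x / (65 * 8 ^ m) : ℝ) = -(1 / 2) := by
      have : (2 : ℝ) * score m x = -(65 * 8 ^ m) := by exact_mod_cast hx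
      rw [div_eq_iff (by positivity)]
      linarith
    rw [algo_acceptProb, three_state, hc]
    apply sum_eq_zero
    intro a _
    rw [mH_mulVec]
    simp only [if_true, Pi.sub_apply, Pi.smul_apply, smul_eq_mul, mX_mulVec, Bool.not_false,
      Bool.not_true]
    have : ∀ u v w : ℝ, (2 * -(1 / 2) * u - v + -1 * (2 * -(1 / 2) * v - u)) / w = 0 := by
      intro u v w
      have : 2 * -(1 / 2) * u - v + -1 * (2 * -(1 / 2) * v - u) = 0 := by ring
      rw [this, zero_div]
    rw [this]
    norm_num

/-- The two algorithms. -/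
theorem algorithms (m : ℕ) :
    (∃ Q : QueryAlgorithm (Idx m), Q.T = 1 ∧ (∀ x, Yes m x → Q.acceptProb x = 3 / 4) ∧
      ∀ x, No m x → Q.acceptProb x = 1 / 4) ∧
    (∃ Q : QueryAlgorithm (Idx m), Q.T = 3 ∧ (∀ x, Yes m x → Q.acceptProb x = 1) ∧
      ∀ x, No m x → Q.acceptProb x = 0) := by
  refine ⟨⟨algo m 0 false, rfl, ?_, ?_⟩, ⟨algo m 1 true, rfl, three_query m⟩⟩
  · intro x hx
    rw [one_query]
    have : (2 : ℝ) * score m x = 65 * 8 ^ m := by exact_mod_cast hx
    have hc : (score m x / (65 * 8 ^ m) : ℝ) = 1 / 2 := by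
      rw [div_eq_div_iff (by positivity) (by norm_num)]
      linarith
    rw [hc]
    norm_num
  · intro x hx
    rw [one_query]
    have : (2 : ℝ) * score m x = -(65 * 8 ^ m) := by exact_mod_cast hx
    have hc : (score m x / (65 * 8 ^ m) : ℝ) = -(1 / 2) := by
      rw [div_eq_iff (by positivity)]
      linarith
    rw [hc]
    norm_num

end Pool.Agent.Helper67.EQP
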