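import Pool.Agent.Helper67.EQP.Walk

set_option autoImplicit false
set_option linter.unusedSectionVars false

/-!
The forrelation noise `(x, H x)` and the success probability of the stopped walk.
-/

namespace Pool.Agent.Helper67.EQP

open Finset Function Classical
open Pool.Agent.Helper67.JL (ex ex_mono ex_nonneg ex_add ex_mul_left ex_mul_right ex_sum ex_const
  ex_equiv)

variable {I : Type} [Fintype I] [DecidableEq I]

/-- Flip the bit `i`. -/
def flipAt (i : I) : (I → Bool) ≃ (I → Bool) :=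
  Function.Involutive.toPerm (fun x => update x i (!x i)) (by
    intro x
    simp)

theorem flipAt_apply (i : I) (x : I → Bool) : flipAt i x = update x i (!x i) := rfl

theorem ex_sg (i : I) : ex (fun x : I → Bool => sg (x i)) = 0 := by
  have h := ex_equiv (flipAt i) (fun x : I → Bool => sg (x i))
  have h2 : (fun x : I → Bool => sg (flipAt i x i)) = fun x => (-1) * sg (x i) := by
    funext x
    rw [flipAt_apply, update_self, sg_not]
    ring
  rw [h2, ex_mul_left] at h
  linarith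

theorem ex_sg_two (i j : I) :
    ex (fun x : I → Bool => sg (x i) * sg (x j)) = if i = j then 1 else 0 := by
  by_cases hij : i = j
  · subst hij
    simp_rw [sg_mul_self]
    rw [if_pos trivial, ex_const]
  · rw [if_neg hij]
    have h := ex_equiv (flipAt i) (fun x : I → Bool => sg (x i) * sg (x j))
    have h2 : (fun x : I → Bool => sg (flipAt i x i) * sg (flipAt i x j)) =
        fun x => (-1) * (sg (x i) * sg (x j)) := by
      funext x
      rw [flipAt_apply, update_self, sg_not, update_of_ne (Ne.symm hij)]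
      ring
    rw [h2, ex_mul_left] at h
    linarith

/-- A real orthogonal matrix with all entries of absolute value `1/√N`. -/
structure Orth (H : I → I → ℝ) : Prop where
  sq : ∀ i k, H i k ^ 2 = 1 / Fintype.card I
  row : ∀ i j, ∑ k, H i k * H j k = if i = j then 1 else 0
  col : ∀ k l, ∑ i, H i k * H i l = if k = l then 1 else 0

/-- The noise vector `(x, Hᵀ x)`. -/
noncomputable def fxh (H : I → I → ℝ) (x : I → Bool) : I ⊕ I → ℝ
  | Sum.inl i => sg (x i)
  | Sum.inr k => ∑ j, H j k * sg (x j)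

theorem fxh_cov_lr (H : I → I → ℝ) (i k : I) :
    ex (fun x => fxh H x (Sum.inl i) * fxh H x (Sum.inr k)) = H i k := by
  change ex (fun x : I → Bool => sg (x i) * ∑ j, H j k * sg (x j)) = H i k
  have : (fun x : I → Bool => sg (x i) * ∑ j, H j k * sg (x j)) =
      fun x => ∑ j, H j k * (sg (x i) * sg (x j)) := by
    funext x
    rw [mul_sum]
    apply sum_congr rfl
    intro j _
    ring
  rw [this, ex_sum]
  simp_rw [ex_mul_left, ex_sg_two]
  simp

theorem fxh_cov_rr {H : I → I → ℝ} (hH : Orth H) (k l : I) :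
    ex (fun x => fxh H x (Sum.inr k) * fxh H x (Sum.inr l)) = if k = l then 1 else 0 := by
  change ex (fun x : I → Bool => (∑ j, H j k * sg (x j)) * ∑ j, H j l * sg (x j)) = _
  have : (fun x : I → Bool => (∑ j, H j k * sg (x j)) * ∑ j, H j l * sg (x j)) =
      fun x => ∑ i, ∑ j, (H i k * H j l) * (sg (x i) * sg (x j)) := by
    funext x
    rw [sum_mul_sum]
    apply sum_congr rfl
    intro i _
    apply sum_congr rfl
    intro j _
    ring
  rw [this, ex_sum]
  simp_rw [ex_sum, ex_mul_left, ex_sg_two]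
  simp only [mul_ite, mul_one, mul_zero, sum_ite_eq, mem_univ, if_true]
  exact hH.col k l

theorem fxh_mean (H : I → I → ℝ) (i : I ⊕ I) : ex (fun x => fxh H x i) = 0 := by
  rcases i with i | k
  · exact ex_sg i
  · change ex (fun x : I → Bool => ∑ j, H j k * sg (x j)) = 0
    rw [ex_sum]
    apply sum_eq_zero
    intro j _
    rw [ex_mul_left, ex_sg, mul_zero]

theorem fxh_sq {H : I → I → ℝ} (hH : Orth H) (i : I ⊕ I) :
    ex (fun x => fxh H x i * fxh H x i) = 1 := by
  rcases i with i | k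
  · change ex (fun x : I → Bool => sg (x i) * sg (x i)) = 1
    rw [ex_sg_two, if_pos rfl]
  · rw [fxh_cov_rr hH, if_pos rfl]

variable [Nonempty I]

theorem card_pos' : (0 : ℝ) < Fintype.card I := by exact_mod_cast Fintype.card_pos

theorem abs_H {H : I → I → ℝ} (hH : Orth H) (i k : I) :
    |H i k| = 1 / Real.sqrt (Fintype.card I) := by
  have h := hH.sq i k
  rw [← Real.sqrt_sq_eq_abs, h, Real.sqrt_div zero_le_one, Real.sqrt_one]

theorem fxh_bd {H : I → I → ℝ} (hH : Orth H) (x : I → Bool) (i : I ⊕ I) :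
    |fxh H x i| ≤ Real.sqrt (Fintype.card I) := by
  have hN : (1 : ℝ) ≤ Fintype.card I := by exact_mod_cast Fintype.card_pos
  have hs : 0 < Real.sqrt (Fintype.card I) := Real.sqrt_pos.mpr card_pos'
  rcases i with i | k
  · change |sg (x i)| ≤ _
    rw [abs_sg]
    exact Real.one_le_sqrt.mpr hN
  · change |∑ j, H j k * sg (x j)| ≤ _
    calc |∑ j, H j k * sg (x j)| ≤ ∑ j, |H j k * sg (x j)| := abs_sum_le_sum_abs _ _
      _ = ∑ _j : I, 1 / Real.sqrt (Fintype.card I) := by
          apply sum_congr rfl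
          intro j _
          rw [abs_mul, abs_sg, mul_one, abs_H hH]
      _ = Fintype.card I * (1 / Real.sqrt (Fintype.card I)) := by
          rw [sum_const, card_univ, nsmul_eq_mul]
      _ = Real.sqrt (Fintype.card I) := by
          rw [mul_one_div, div_eq_iff hs.ne']
          exact (Real.mul_self_sqrt (Nat.cast_nonneg _)).symm

theorem fxh_noise {H : I → I → ℝ} (hH : Orth H) :
    Noise (fxh H) (1 / Real.sqrt (Fintype.card I)) (Real.sqrt (Fintype.card I)) where
  mean := fxh_mean H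
  bd := fxh_bd hH
  c2_nonneg := by positivity
  B_nonneg := Real.sqrt_nonneg _
  cov := by
    have hpos : 0 ≤ 1 / Real.sqrt (Fintype.card I : ℝ) := by positivity
    intro i j hij
    rcases i with i | k <;> rcases j with j | l
    · have hne : i ≠ j := fun h => hij (by rw [h])
      change |ex (fun x : I → Bool => sg (x i) * sg (x j))| ≤ _
      rw [ex_sg_two, if_neg hne, abs_zero]
      exact hpos
    · rw [fxh_cov_lr, abs_H hH]
    · have : (fun x => fxh H x (Sum.inr k) * fxh H x (Sum.inl j)) =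
          fun x => fxh H x (Sum.inl j) * fxh H x (Sum.inr k) := by
        funext x; ring
      rw [this, fxh_cov_lr, abs_H hH]
    · have hne : k ≠ l := fun h => hij (by rw [h])
      rw [fxh_cov_rr hH, if_neg hne, abs_zero]
      exact hpos

/-- Normalised forrelation of a pair of real vectors. -/
noncomputable def Phi (H : I → I → ℝ) (a : I ⊕ I → ℝ) : ℝ :=
  (∑ i, ∑ k, H i k * (a (Sum.inl i) * a (Sum.inr k))) / Fintype.card I

/-- Average speed of the coordinates in one half. -/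
noncomputable def avg (emb : I → I ⊕ I) (a : I ⊕ I → ℝ) : ℝ :=
  (∑ i : I, spd (a (emb i))) / Fintype.card I

/-- The unstopped step. -/
noncomputable def mv (η : ℝ) (H : I → I → ℝ) (a : I ⊕ I → ℝ) (x : I → Bool) : I ⊕ I → ℝ :=
  fun s => a s + spd (a s) * (η * fxh H x s)

omit [Nonempty I] in
theorem norm_left {H : I → I → ℝ} (hH : Orth H) (u : I → ℝ) :
    ∑ k, (∑ i, H i k * u i) ^ 2 = ∑ i, u i ^ 2 := by
  have e : ∀ k, (∑ i, H i k * u i) ^ 2 = ∑ i, ∑ j, (u i * u j) * (H i k * H j k) := by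
    intro k
    rw [pow_two, sum_mul_sum]
    apply sum_congr rfl
    intro i _
    apply sum_congr rfl
    intro j _
    ring
  simp_rw [e]
  rw [sum_comm]
  apply sum_congr rfl
  intro i _
  rw [sum_comm]
  simp_rw [← mul_sum, hH.row]
  simp [pow_two]

omit [Nonempty I] in
theorem norm_right {H : I → I → ℝ} (hH : Orth H) (v : I → ℝ) :
    ∑ i, (∑ k, H i k * v k) ^ 2 = ∑ k, v k ^ 2 := by
  have e : ∀ i, (∑ k, H i k * v k) ^ 2 = ∑ k, ∑ l, (v k * v l) * (H i k * H i l) := by
    intro i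
    rw [pow_two, sum_mul_sum]
    apply sum_congr rfl
    intro k _
    apply sum_congr rfl
    intro l _
    ring
  simp_rw [e]
  rw [sum_comm]
  apply sum_congr rfl
  intro k _
  rw [sum_comm]
  simp_rw [← mul_sum, hH.col]
  simp [pow_two]

omit [Nonempty I] in
/-- The bilinear form of an orthogonal matrix. -/
theorem bil_le {H : I → I → ℝ} (hH : Orth H) (u v : I → ℝ) :
    |∑ i, ∑ k, H i k * (u i * v k)| ≤ (∑ i, u i ^ 2 + ∑ k, v k ^ 2) / 2 := by
  have e : ∑ i, ∑ k, H i k * (u i * v k) = ∑ i, u i * ∑ k, H i k * v k := by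
    apply sum_congr rfl
    intro i _
    rw [mul_sum]
    apply sum_congr rfl
    intro k _
    ring
  rw [e, ← norm_right hH v, ← sum_add_distrib, sum_div]
  refine (abs_sum_le_sum_abs _ _).trans (sum_le_sum fun i _ => ?_)
  rw [abs_le]
  constructor
  · nlinarith [sq_nonneg (u i + ∑ k, H i k * v k)]
  · nlinarith [sq_nonneg (u i - ∑ k, H i k * v k)]

omit [DecidableEq I] [Nonempty I] in
theorem sum_sq_le_card {c : ℝ} {u : I → ℝ} (hu : ∀ i, |u i| ≤ c) :
    ∑ i, u i ^ 2 ≤ Fintype.card I * c ^ 2 := by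
  calc ∑ i, u i ^ 2 ≤ ∑ _i : I, c ^ 2 := by
        apply sum_le_sum
        intro i _
        rw [← sq_abs]
        exact pow_le_pow_left₀ (abs_nonneg _) (hu i) 2
    _ = _ := by rw [sum_const, card_univ, nsmul_eq_mul]

theorem abs_phi_le {H : I → I → ℝ} (hH : Orth H) {a : I ⊕ I → ℝ} (ha : Cube a) :
    |Phi H a| ≤ 1 := by
  have hN := card_pos' (I := I)
  unfold Phi
  rw [abs_div, abs_of_pos hN, div_le_iff₀ hN, one_mul]
  refine (bil_le hH (fun i => a (Sum.inl i)) (fun k => a (Sum.inr k))).trans ?_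
  have h1 := sum_sq_le_card (c := 1) (fun i => ha (Sum.inl i) : ∀ i : I, |a (Sum.inl i)| ≤ 1)
  have h2 := sum_sq_le_card (c := 1) (fun i => ha (Sum.inr i) : ∀ i : I, |a (Sum.inr i)| ≤ 1)
  linarith

theorem avg_nonneg {emb : I → I ⊕ I} {a : I ⊕ I → ℝ} (ha : Cube a) : 0 ≤ avg emb a := by
  unfold avg
  exact div_nonneg (sum_nonneg fun i _ => spd_nonneg (ha _)) (Nat.cast_nonneg _)

theorem avg_le {emb : I → I ⊕ I} {a : I ⊕ I → ℝ} (ha : Cube a) : avg emb a ≤ 1 := by
  have hN := card_pos' (I := I)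
  unfold avg
  rw [div_le_one hN]
  calc ∑ i : I, spd (a (emb i)) ≤ ∑ _i : I, (1 : ℝ) := sum_le_sum fun i _ => spd_le (ha _)
    _ = _ := by rw [sum_const, card_univ, nsmul_eq_mul, mul_one]

variable {η : ℝ}

/-- The noise on one half has orthonormal covariance. -/
structure GoodEmb (H : I → I → ℝ) (emb : I → I ⊕ I) : Prop where
  cov : ∀ i j, ex (fun x => fxh H x (emb i) * fxh H x (emb j)) = if i = j then 1 else 0

omit [Nonempty I] in
theorem goodEmb_inl (H : I → I → ℝ) : GoodEmb H (Sum.inl : I → I ⊕ I) := ⟨ex_sg_two⟩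

omit [Nonempty I] in
theorem goodEmb_inr {H : I → I → ℝ} (hH : Orth H) : GoodEmb H (Sum.inr : I → I ⊕ I) :=
  ⟨fxh_cov_rr hH⟩

omit [Nonempty I] in
theorem lin_mean (H : I → I → ℝ) (emb : I → I ⊕ I) (c : I → ℝ) :
    ex (fun x => ∑ i, c i * (η * fxh H x (emb i))) = 0 := by
  rw [ex_sum]
  apply sum_eq_zero
  intro i _
  rw [ex_mul_left, ex_mul_left, fxh_mean, mul_zero, mul_zero]

omit [Nonempty I] in
theorem lin_sq {H : I → I → ℝ} {emb : I → I ⊕ I} (he : GoodEmb H emb) (c : I → ℝ) :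
    ex (fun x => (∑ i, c i * (η * fxh H x (emb i))) ^ 2) = η ^ 2 * ∑ i, c i ^ 2 := by
  have : (fun x => (∑ i, c i * (η * fxh H x (emb i))) ^ 2) =
      fun x => ∑ i, ∑ j, (c i * c j * η ^ 2) * (fxh H x (emb i) * fxh H x (emb j)) := by
    funext x
    rw [pow_two, sum_mul_sum]
    apply sum_congr rfl
    intro i _
    apply sum_congr rfl
    intro j _
    ring
  rw [this, ex_sum]
  simp_rw [ex_sum, ex_mul_left, he.cov]
  simp only [mul_ite, mul_one, mul_zero, sum_ite_eq, mem_univ, if_true]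
  rw [mul_sum]
  apply sum_congr rfl
  intro i _
  ring

omit [Fintype I] [DecidableEq I] [Nonempty I] in
theorem spd_expand (y d : ℝ) : spd (y + d) = spd y + (-(9 / 5) * y - 2 / 5 * y ^ 3) * d -
    (9 / 10 + 3 / 5 * y ^ 2 + 2 / 5 * y * d + d ^ 2 / 10) * d ^ 2 := by
  unfold spd
  ring

theorem spd_step_near {y σ e em : ℝ} (hy : |y| ≤ 1) (hσ0 : 0 ≤ σ) (hσ1 : σ ≤ 1) (he : |e| ≤ em)
    (hem : em ≤ 1 / 5) :
    |spd (y + σ * e) - spd y - (-(9 / 5) * y - 2 / 5 * y ^ 3) * σ * e| ≤ 8 / 5 * em ^ 2 := by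
  have hem0 : 0 ≤ em := (abs_nonneg _).trans he
  set d := σ * e with hd
  have hdm : |d| ≤ em := by
    rw [hd, abs_mul, abs_of_nonneg hσ0]
    calc σ * |e| ≤ 1 * em := mul_le_mul hσ1 he (abs_nonneg _) zero_le_one
      _ = em := one_mul _
  have e1 : spd (y + d) - spd y - (-(9 / 5) * y - 2 / 5 * y ^ 3) * σ * e =
      -((9 / 10 + 3 / 5 * y ^ 2 + 2 / 5 * y * d + d ^ 2 / 10) * d ^ 2) := by
    rw [spd_expand, mul_assoc _ σ e, ← hd]
    ring
  rw [e1, abs_neg, abs_mul, abs_of_nonneg (sq_nonneg d)]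
  have hy2 : y ^ 2 ≤ 1 := by rw [← sq_abs]; nlinarith [abs_nonneg y]
  have hyd : |y * d| ≤ 1 / 5 := by
    rw [abs_mul]
    calc |y| * |d| ≤ 1 * em := mul_le_mul hy hdm (abs_nonneg _) zero_le_one
      _ ≤ 1 / 5 := by linarith
  have hd2 : d ^ 2 ≤ em ^ 2 := by
    rw [← sq_abs]
    exact pow_le_pow_left₀ (abs_nonneg _) hdm 2
  have hd2' : d ^ 2 ≤ 1 / 25 := by nlinarith
  have hc : |9 / 10 + 3 / 5 * y ^ 2 + 2 / 5 * y * d + d ^ 2 / 10| ≤ 8 / 5 := by
    rw [abs_le] at hyd ⊢
    constructor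
    · nlinarith [hyd.1, sq_nonneg y, sq_nonneg d]
    · nlinarith [hyd.2]
  exact mul_le_mul hc hd2 (sq_nonneg _) (by norm_num)

theorem spd_step_lower {y e em : ℝ} (hy : |y| ≤ 1) (he : |e| ≤ em) (hem : em ≤ 1 / 5) :
    spd y + (-(9 / 5) * y - 2 / 5 * y ^ 3) * spd y * e - 9 / 10 * spd y * e ^ 2 - 1 / 2 * em ^ 3 ≤
      spd (y + spd y * e) := by
  have hem0 : 0 ≤ em := (abs_nonneg _).trans he
  have hσ0 := spd_nonneg hy
  have hσ1 := spd_le hy
  rw [spd_expand]
  have hy2 : y ^ 2 ≤ 1 := by rw [← sq_abs]; nlinarith [abs_nonneg y]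
  have hy0 : 0 ≤ y ^ 2 := sq_nonneg y
  have he2 : e ^ 2 ≤ em ^ 2 := by
    rw [← sq_abs]
    exact pow_le_pow_left₀ (abs_nonneg _) he 2
  have he0 : 0 ≤ e ^ 2 := sq_nonneg e
  -- main quadratic term
  have h1 : (9 / 10 + 3 / 5 * y ^ 2) * spd y ≤ 9 / 10 := by
    unfold spd
    have : (9 / 10 + 3 / 5 * y ^ 2) * ((1 - y ^ 2) * (1 + y ^ 2 / 10)) =
        9 / 10 - 21 / 100 * y ^ 2 - 63 / 100 * (y ^ 2) ^ 2 - 6 / 100 * (y ^ 2) ^ 3 := by ring
    rw [this]
    have : 0 ≤ (y ^ 2) ^ 2 := by positivity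
    have : 0 ≤ (y ^ 2) ^ 3 := by positivity
    linarith
  have h2 : (9 / 10 + 3 / 5 * y ^ 2) * (spd y * e) ^ 2 ≤ 9 / 10 * spd y * e ^ 2 := by
    have := mul_le_mul_of_nonneg_right h1 (mul_nonneg hσ0 he0)
    nlinarith
  -- higher order terms
  have hdm : |spd y * e| ≤ em := by
    rw [abs_mul, abs_of_nonneg hσ0]
    calc spd y * |e| ≤ 1 * em := mul_le_mul hσ1 he (abs_nonneg _) zero_le_one
      _ = em := one_mul _
  set d := spd y * e with hd
  have hd2 : d ^ 2 ≤ em ^ 2 := by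
    rw [← sq_abs]
    exact pow_le_pow_left₀ (abs_nonneg _) hdm 2
  have hyd : |y * d| ≤ em := by
    rw [abs_mul]
    calc |y| * |d| ≤ 1 * em := mul_le_mul hy hdm (abs_nonneg _) zero_le_one
      _ = em := one_mul _
  have h3 : (2 / 5 * y * d + d ^ 2 / 10) * d ^ 2 ≤ 1 / 2 * em ^ 3 := by
    have h4 : 2 / 5 * y * d + d ^ 2 / 10 ≤ 1 / 2 * em := by
      rw [abs_le] at hyd
      nlinarith [hyd.2]
    calc (2 / 5 * y * d + d ^ 2 / 10) * d ^ 2 ≤ (1 / 2 * em) * d ^ 2 :=
          mul_le_mul_of_nonneg_right h4 (sq_nonneg d)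
      _ ≤ (1 / 2 * em) * em ^ 2 := mul_le_mul_of_nonneg_left hd2 (by positivity)
      _ = _ := by ring
  have e1 : (-(9 / 5) * y - 2 / 5 * y ^ 3) * spd y * e = (-(9 / 5) * y - 2 / 5 * y ^ 3) * d := by
    rw [hd]; ring
  rw [e1]
  nlinarith [h2, h3]

/-- First order change of the average speed. -/
noncomputable def a1 (emb : I → I ⊕ I) (η : ℝ) (H : I → I → ℝ) (a : I ⊕ I → ℝ) (x : I → Bool) :
    ℝ := (∑ i, ((-(9 / 5) * a (emb i) - 2 / 5 * a (emb i) ^ 3) * spd (a (emb i))) *
      (η * fxh H x (emb i))) / Fintype.card I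

omit [DecidableEq I] in
theorem avg_mean_le {f : I → ℝ} {c : ℝ} (h : ∀ i, |f i| ≤ c) :
    |(∑ i, f i) / (Fintype.card I : ℝ)| ≤ c := by
  have hN : (0 : ℝ) < Fintype.card I := by exact_mod_cast Fintype.card_pos
  rw [abs_div, abs_of_pos hN, div_le_iff₀ hN]
  calc |∑ i, f i| ≤ ∑ i, |f i| := abs_sum_le_sum_abs _ _
    _ ≤ ∑ _i : I, c := sum_le_sum fun i _ => h i
    _ = _ := by rw [sum_const, card_univ, nsmul_eq_mul, mul_comm]

theorem p1_le {y : ℝ} (hy : |y| ≤ 1) : |(-(9 / 5) * y - 2 / 5 * y ^ 3) * spd y| ≤ 11 / 5 := by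
  rw [abs_mul, abs_of_nonneg (spd_nonneg hy)]
  have h1 : |-(9 / 5) * y - 2 / 5 * y ^ 3| ≤ 11 / 5 := by
    have e : -(9 / 5) * y - 2 / 5 * y ^ 3 = y * (-(9 / 5 + 2 / 5 * y ^ 2)) := by ring
    have hy2 : y ^ 2 ≤ 1 := by rw [← sq_abs]; nlinarith [abs_nonneg y]
    have hy0 : 0 ≤ y ^ 2 := sq_nonneg y
    have hpos : 0 ≤ 9 / 5 + 2 / 5 * y ^ 2 := by linarith
    rw [e, abs_mul, abs_neg, abs_of_nonneg hpos]
    nlinarith [abs_nonneg y]
  calc _ ≤ 11 / 5 * 1 := mul_le_mul h1 (spd_le hy) (spd_nonneg hy) (by norm_num)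
    _ = _ := by ring

section step

variable {H : I → I → ℝ} {em : ℝ} {a : I ⊕ I → ℝ}

theorem noise_le (hH : Orth H) (hη : 0 ≤ η) (hem : η * Real.sqrt (Fintype.card I) = em)
    (x : I → Bool) (s : I ⊕ I) : |η * fxh H x s| ≤ em := by
  rw [abs_mul, abs_of_nonneg hη, ← hem]
  exact mul_le_mul_of_nonneg_left (fxh_bd hH x s) hη

theorem avg_near (hH : Orth H) (hη : 0 ≤ η) (hem : η * Real.sqrt (Fintype.card I) = em)
    (hem5 : em ≤ 1 / 5) (ha : Cube a) (emb : I → I ⊕ I) (x : I → Bool) :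
    |avg emb (mv η H a x) - avg emb a - a1 emb η H a x| ≤ 8 / 5 * em ^ 2 := by
  unfold avg a1
  rw [← sub_div, ← sub_div, ← sum_sub_distrib, ← sum_sub_distrib]
  apply avg_mean_le
  intro i
  unfold mv
  have := spd_step_near (ha (emb i)) (spd_nonneg (ha (emb i))) (spd_le (ha (emb i)))
    (noise_le hH hη hem x (emb i)) hem5
  exact this

theorem a1_le (hH : Orth H) (hη : 0 ≤ η) (hem : η * Real.sqrt (Fintype.card I) = em)
    (ha : Cube a) (emb : I → I ⊕ I) (x : I → Bool) : |a1 emb η H a x| ≤ 11 / 5 * em := by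
  unfold a1
  apply avg_mean_le
  intro i
  rw [abs_mul]
  exact mul_le_mul (p1_le (ha _)) (noise_le hH hη hem x (emb i)) (abs_nonneg _) (by norm_num)

theorem ex_div_card (F : (I → Bool) → ℝ) : ex (fun x => F x / (Fintype.card I : ℝ)) =
    ex F / Fintype.card I := by
  simp_rw [div_eq_mul_inv]
  exact ex_mul_right _ _

theorem a1_sq {emb : I → I ⊕ I} (he : GoodEmb H emb) (ha : Cube a) :
    ex (fun x => a1 emb η H a x ^ 2) ≤ 5 * (η ^ 2 / Fintype.card I) := by
  have hN := card_pos' (I := I)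
  unfold a1
  simp_rw [div_pow]
  have h1 : ex (fun x => (∑ i, ((-(9 / 5) * a (emb i) - 2 / 5 * a (emb i) ^ 3) *
      spd (a (emb i))) * (η * fxh H x (emb i))) ^ 2 / (Fintype.card I : ℝ) ^ 2) =
      ex (fun x => (∑ i, ((-(9 / 5) * a (emb i) - 2 / 5 * a (emb i) ^ 3) *
      spd (a (emb i))) * (η * fxh H x (emb i))) ^ 2) / (Fintype.card I : ℝ) ^ 2 := by
    simp_rw [div_eq_mul_inv]
    exact ex_mul_right _ _
  rw [h1, lin_sq he]
  have h2 := sum_sq_le_card (c := 11 / 5) (fun i : I => p1_le (ha (emb i)))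
  rw [div_le_iff₀ (by positivity)]
  have h3 : η ^ 2 * ∑ i, ((-(9 / 5) * a (emb i) - 2 / 5 * a (emb i) ^ 3) *
      spd (a (emb i))) ^ 2 ≤ η ^ 2 * (Fintype.card I * (11 / 5) ^ 2) :=
    mul_le_mul_of_nonneg_left h2 (sq_nonneg η)
  refine h3.trans ?_
  have e : 5 * (η ^ 2 / (Fintype.card I : ℝ)) * (Fintype.card I : ℝ) ^ 2 =
      η ^ 2 * (Fintype.card I * 5) := by
    field_simp
  rw [e]
  apply mul_le_mul_of_nonneg_left _ (sq_nonneg η)
  apply mul_le_mul_of_nonneg_left _ hN.le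
  norm_num

theorem avg_drift (hH : Orth H) (hη : 0 ≤ η) (hem : η * Real.sqrt (Fintype.card I) = em)
    (hem5 : em ≤ 1 / 5) (ha : Cube a) {emb : I → I ⊕ I} (he : GoodEmb H emb) :
    avg emb a - 9 / 10 * η ^ 2 * avg emb a - 1 / 2 * em ^ 3 ≤
      ex (fun x => avg emb (mv η H a x)) := by
  have hN := card_pos' (I := I)
  have hpt : ∀ x, (∑ i, ((spd (a (emb i)) + ((-(9 / 5) * a (emb i) - 2 / 5 * a (emb i) ^ 3) *
      spd (a (emb i))) * (η * fxh H x (emb i))) + ((-(9 / 10) * spd (a (emb i)) * η ^ 2) *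
      (fxh H x (emb i) * fxh H x (emb i)) + (-(1 / 2 * em ^ 3))))) / (Fintype.card I : ℝ) ≤
      avg emb (mv η H a x) := by
    intro x
    unfold avg
    apply div_le_div_of_nonneg_right _ hN.le
    apply sum_le_sum
    intro i _
    have := spd_step_lower (ha (emb i)) (noise_le hH hη hem x (emb i)) hem5
    unfold mv
    refine le_trans (le_of_eq ?_) this
    ring
  refine le_trans (le_of_eq ?_) (ex_mono hpt)
  rw [ex_div_card, ex_sum]
  simp_rw [ex_add, ex_mul_left, ex_const, fxh_mean, he.cov]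
  simp only [if_true, mul_zero, add_zero, mul_one]
  unfold avg
  rw [sum_add_distrib, sum_add_distrib, sum_const, card_univ, nsmul_eq_mul]
  have : ∑ i, -(9 / 10) * spd (a (emb i)) * η ^ 2 = -(9 / 10) * η ^ 2 * ∑ i, spd (a (emb i)) := by
    rw [mul_sum]
    apply sum_congr rfl
    intro i _
    ring
  rw [this]
  field_simp
  ring

theorem avg_diff_le (hH : Orth H) (hη : 0 ≤ η) (hem : η * Real.sqrt (Fintype.card I) = em)
    (hem5 : em ≤ 1 / 5) (ha : Cube a) (emb : I → I ⊕ I) (x : I → Bool) :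
    |avg emb (mv η H a x) - avg emb a| ≤ 13 / 5 * em := by
  have hem0 : 0 ≤ em := by rw [← hem]; positivity
  have h1 := avg_near hH hη hem hem5 ha emb x
  have h2 := a1_le hH hη hem ha emb x
  have e : avg emb (mv η H a x) - avg emb a =
      (avg emb (mv η H a x) - avg emb a - a1 emb η H a x) + a1 emb η H a x := by ring
  rw [e]
  refine (abs_add_le _ _).trans ?_
  nlinarith

theorem avg_diff_sq (hH : Orth H) (hη : 0 ≤ η) (hem : η * Real.sqrt (Fintype.card I) = em)
    (hem5 : em ≤ 1 / 5) (ha : Cube a) {emb : I → I ⊕ I} (he : GoodEmb H emb) :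
    ex (fun x => (avg emb (mv η H a x) - avg emb a) ^ 2) ≤
      10 * (η ^ 2 / Fintype.card I) + 11 / 10 * em ^ 3 := by
  have hem0 : 0 ≤ em := by rw [← hem]; positivity
  have hpt : ∀ x, (avg emb (mv η H a x) - avg emb a) ^ 2 ≤
      2 * a1 emb η H a x ^ 2 + 11 / 10 * em ^ 3 := by
    intro x
    have h1 := avg_near hH hη hem hem5 ha emb x
    set r := avg emb (mv η H a x) - avg emb a - a1 emb η H a x with hr
    have e : avg emb (mv η H a x) - avg emb a = r + a1 emb η H a x := by rw [hr]; ring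
    rw [e]
    have h3 : r ^ 2 ≤ (8 / 5 * em ^ 2) ^ 2 := by
      rw [← sq_abs]
      exact pow_le_pow_left₀ (abs_nonneg _) h1 2
    have h4 : (8 / 5 * em ^ 2) ^ 2 ≤ 11 / 20 * em ^ 3 := by
      have : em ^ 4 ≤ 1 / 5 * em ^ 3 := by
        have h5 : 0 ≤ em ^ 3 := by positivity
        nlinarith
      nlinarith
    nlinarith [sq_nonneg (r - a1 emb η H a x)]
  refine (ex_mono hpt).trans ?_
  rw [ex_add, ex_mul_left, ex_const]
  have := a1_sq (η := η) he ha
  linarith

/-- First order change of the forrelation, left part. -/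
noncomputable def fL (η : ℝ) (H : I → I → ℝ) (a : I ⊕ I → ℝ) (x : I → Bool) : ℝ :=
  (∑ i, ((∑ k, H i k * a (Sum.inr k)) * spd (a (Sum.inl i))) * (η * fxh H x (Sum.inl i))) /
    Fintype.card I

/-- First order change of the forrelation, right part. -/
noncomputable def fR (η : ℝ) (H : I → I → ℝ) (a : I ⊕ I → ℝ) (x : I → Bool) : ℝ :=
  (∑ k, ((∑ i, H i k * a (Sum.inl i)) * spd (a (Sum.inr k))) * (η * fxh H x (Sum.inr k))) /
    Fintype.card I

theorem phi_mv (x : I → Bool) : Phi H (mv η H a x) = Phi H a + fL η H a x + fR η H a x +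
    (∑ i, ∑ k, H i k * ((spd (a (Sum.inl i)) * (η * fxh H x (Sum.inl i))) *
      (spd (a (Sum.inr k)) * (η * fxh H x (Sum.inr k))))) / Fintype.card I := by
  unfold Phi fL fR mv
  rw [← add_div, ← add_div, ← add_div]
  congr 1
  have e1 : ∑ i, ((∑ k, H i k * a (Sum.inr k)) * spd (a (Sum.inl i))) *
      (η * fxh H x (Sum.inl i)) = ∑ i, ∑ k, H i k * (spd (a (Sum.inl i)) *
      (η * fxh H x (Sum.inl i)) * a (Sum.inr k)) := by
    apply sum_congr rfl
    intro i _
    rw [sum_mul, sum_mul]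
    apply sum_congr rfl
    intro k _
    ring
  have e2 : ∑ k, ((∑ i, H i k * a (Sum.inl i)) * spd (a (Sum.inr k))) *
      (η * fxh H x (Sum.inr k)) = ∑ i, ∑ k, H i k * (a (Sum.inl i) * (spd (a (Sum.inr k)) *
      (η * fxh H x (Sum.inr k)))) := by
    rw [sum_comm]
    apply sum_congr rfl
    intro k _
    rw [sum_mul, sum_mul]
    apply sum_congr rfl
    intro i _
    ring
  rw [e1, e2, ← sum_add_distrib, ← sum_add_distrib, ← sum_add_distrib]
  apply sum_congr rfl
  intro i _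
  rw [← sum_add_distrib, ← sum_add_distrib, ← sum_add_distrib]
  apply sum_congr rfl
  intro k _
  ring

theorem f2_le (hH : Orth H) (hη : 0 ≤ η) (hem : η * Real.sqrt (Fintype.card I) = em)
    (ha : Cube a) (x : I → Bool) :
    |(∑ i, ∑ k, H i k * ((spd (a (Sum.inl i)) * (η * fxh H x (Sum.inl i))) *
      (spd (a (Sum.inr k)) * (η * fxh H x (Sum.inr k))))) / (Fintype.card I : ℝ)| ≤ em ^ 2 := by
  have hN := card_pos' (I := I)
  have hb : ∀ s, |spd (a s) * (η * fxh H x s)| ≤ em := by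
    intro s
    rw [abs_mul, abs_of_nonneg (spd_nonneg (ha s))]
    calc _ ≤ 1 * em := mul_le_mul (spd_le (ha s)) (noise_le hH hη hem x s) (abs_nonneg _)
          zero_le_one
      _ = em := one_mul _
  rw [abs_div, abs_of_pos hN, div_le_iff₀ hN]
  refine (bil_le hH (fun i => spd (a (Sum.inl i)) * (η * fxh H x (Sum.inl i)))
    (fun k => spd (a (Sum.inr k)) * (η * fxh H x (Sum.inr k)))).trans ?_
  have h1 := sum_sq_le_card (c := em) (fun i : I => hb (Sum.inl i))
  have h2 := sum_sq_le_card (c := em) (fun i : I => hb (Sum.inr i))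
  linarith

theorem fLR_sq_aux {emb : I → I ⊕ I} (he : GoodEmb H emb) (ha : Cube a) (g : I → ℝ)
    (hg : ∑ i, g i ^ 2 ≤ Fintype.card I) :
    ex (fun x => ((∑ i, (g i * spd (a (emb i))) * (η * fxh H x (emb i))) /
      (Fintype.card I : ℝ)) ^ 2) ≤ η ^ 2 / Fintype.card I := by
  have hN := card_pos' (I := I)
  simp_rw [div_pow]
  have h1 : ex (fun x => (∑ i, (g i * spd (a (emb i))) * (η * fxh H x (emb i))) ^ 2 /
      (Fintype.card I : ℝ) ^ 2) =
      ex (fun x => (∑ i, (g i * spd (a (emb i))) * (η * fxh H x (emb i))) ^ 2) /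
      (Fintype.card I : ℝ) ^ 2 := by
    simp_rw [div_eq_mul_inv]
    exact ex_mul_right _ _
  rw [h1, lin_sq he]
  have h2 : ∑ i, (g i * spd (a (emb i))) ^ 2 ≤ Fintype.card I := by
    refine le_trans (sum_le_sum fun i _ => ?_) hg
    rw [mul_pow]
    have h3 := spd_nonneg (ha (emb i))
    have h4 := spd_le (ha (emb i))
    have h5 : spd (a (emb i)) ^ 2 ≤ 1 := by nlinarith
    nlinarith [sq_nonneg (g i)]
  rw [div_le_div_iff₀ (by positivity) hN]
  have h6 : η ^ 2 * ∑ i, (g i * spd (a (emb i))) ^ 2 ≤ η ^ 2 * Fintype.card I :=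
    mul_le_mul_of_nonneg_left h2 (sq_nonneg η)
  calc _ ≤ η ^ 2 * Fintype.card I * Fintype.card I := mul_le_mul_of_nonneg_right h6 hN.le
    _ = _ := by ring

theorem fL_sq (hH : Orth H) (ha : Cube a) :
    ex (fun x => fL η H a x ^ 2) ≤ η ^ 2 / Fintype.card I := by
  unfold fL
  apply fLR_sq_aux (goodEmb_inl H) ha
  rw [norm_right hH]
  have := sum_sq_le_card (c := 1) (fun i => ha (Sum.inr i) : ∀ i : I, |a (Sum.inr i)| ≤ 1)
  linarith

theorem fR_sq (hH : Orth H) (ha : Cube a) :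
    ex (fun x => fR η H a x ^ 2) ≤ η ^ 2 / Fintype.card I := by
  unfold fR
  apply fLR_sq_aux (goodEmb_inr hH) ha
  rw [norm_left hH]
  have := sum_sq_le_card (c := 1) (fun i => ha (Sum.inl i) : ∀ i : I, |a (Sum.inl i)| ≤ 1)
  linarith

theorem phi_mv_drift (hH : Orth H) (a : I ⊕ I → ℝ) :
    ex (fun x => Phi H (mv η H a x)) = Phi H a + η ^ 2 * (avg Sum.inl a * avg Sum.inr a) := by
  have hcell : ∀ i k, ex (fun x => (mv η H a x) (Sum.inl i) * (mv η H a x) (Sum.inr k)) =
      a (Sum.inl i) * a (Sum.inr k) +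
        spd (a (Sum.inl i)) * spd (a (Sum.inr k)) * (η ^ 2 * H i k) := by
    intro i k
    have : (fun x => (mv η H a x) (Sum.inl i) * (mv η H a x) (Sum.inr k)) =
      fun x => (a (Sum.inl i) * a (Sum.inr k) +
        (a (Sum.inl i) * spd (a (Sum.inr k)) * η) * fxh H x (Sum.inr k)) +
        ((a (Sum.inr k) * spd (a (Sum.inl i)) * η) * fxh H x (Sum.inl i) +
        (spd (a (Sum.inl i)) * spd (a (Sum.inr k)) * η ^ 2) *
          (fxh H x (Sum.inl i) * fxh H x (Sum.inr k))) := by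
      funext x
      unfold mv
      ring
    rw [this, ex_add, ex_add, ex_add, ex_const, ex_mul_left, ex_mul_left, ex_mul_left,
      fxh_mean, fxh_mean, fxh_cov_lr]
    ring
  unfold Phi
  have hN := card_pos' (I := I)
  rw [ex_div_card, ex_sum]
  simp_rw [ex_sum, ex_mul_left, hcell]
  have e2 : ∑ i, ∑ k, H i k * (a (Sum.inl i) * a (Sum.inr k) +
        spd (a (Sum.inl i)) * spd (a (Sum.inr k)) * (η ^ 2 * H i k)) =
      (∑ i, ∑ k, H i k * (a (Sum.inl i) * a (Sum.inr k))) +
      η ^ 2 / Fintype.card I * ((∑ i : I, spd (a (Sum.inl i))) *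
        ∑ k : I, spd (a (Sum.inr k))) := by
    rw [sum_mul_sum, mul_sum, ← sum_add_distrib]
    apply sum_congr rfl
    intro i _
    rw [mul_sum, ← sum_add_distrib]
    apply sum_congr rfl
    intro k _
    have : H i k * (a (Sum.inl i) * a (Sum.inr k) +
        spd (a (Sum.inl i)) * spd (a (Sum.inr k)) * (η ^ 2 * H i k)) =
        H i k * (a (Sum.inl i) * a (Sum.inr k)) +
        H i k ^ 2 * η ^ 2 * (spd (a (Sum.inl i)) * spd (a (Sum.inr k))) := by ring
    rw [this, hH.sq]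
    ring
  rw [e2]
  unfold avg
  field_simp

/-- The potential. -/
noncomputable def Psi (H : I → I → ℝ) (a : I ⊕ I → ℝ) : ℝ :=
  Phi H a + 5 / 9 * (avg Sum.inl a * avg Sum.inr a)

/-- The potential is almost a submartingale. -/
theorem psi_drift (hH : Orth H) (hη : 0 ≤ η) (hem : η * Real.sqrt (Fintype.card I) = em)
    (hem5 : em ≤ 1 / 5) (ha : Cube a) :
    -(6 * (η ^ 2 / Fintype.card I) + 2 * em ^ 3) ≤
      ex (fun x => Psi H (mv η H a x) - Psi H a) := by
  have hem0 : 0 ≤ em := by rw [← hem]; positivity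
  have hN := card_pos' (I := I)
  set A := avg Sum.inl a with hA
  set B := avg Sum.inr a with hB
  have hA0 : 0 ≤ A := avg_nonneg ha
  have hB0 : 0 ≤ B := avg_nonneg ha
  have hA1 : A ≤ 1 := avg_le ha
  have hB1 : B ≤ 1 := avg_le ha
  have hpt : ∀ x, (Phi H (mv η H a x) + (-(Phi H a))) +
      5 / 9 * ((A * avg Sum.inr (mv η H a x) + B * avg Sum.inl (mv η H a x)) +
        (-(2 * (A * B)) + (-(1 / 2)) * ((avg Sum.inl (mv η H a x) - A) ^ 2 +
          (avg Sum.inr (mv η H a x) - B) ^ 2))) ≤ Psi H (mv η H a x) - Psi H a := by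
    intro x
    unfold Psi
    rw [← hA, ← hB]
    set A' := avg Sum.inl (mv η H a x)
    set B' := avg Sum.inr (mv η H a x)
    nlinarith [sq_nonneg ((A' - A) + (B' - B))]
  refine le_trans ?_ (ex_mono hpt)
  rw [ex_add, ex_add, ex_const, ex_mul_left, ex_add, ex_add, ex_add, ex_const, ex_mul_left,
    ex_mul_left, ex_mul_left, ex_add, phi_mv_drift hH]
  have d1 := avg_drift hH hη hem hem5 ha (goodEmb_inl H)
  have d2 := avg_drift hH hη hem hem5 ha (goodEmb_inr hH)
  have s1 := avg_diff_sq hH hη hem hem5 ha (goodEmb_inl H)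
  have s2 := avg_diff_sq hH hη hem hem5 ha (goodEmb_inr hH)
  rw [← hA] at d1 s1
  rw [← hB] at d2 s2
  rw [← hA, ← hB]
  have m1 := mul_le_mul_of_nonneg_left d2 hA0
  have m2 := mul_le_mul_of_nonneg_left d1 hB0
  have hz : 0 ≤ η ^ 2 / (Fintype.card I : ℝ) := by positivity
  have h3 : 0 ≤ em ^ 3 := by positivity
  have h4 : A * em ^ 3 ≤ em ^ 3 := by nlinarith
  have h5 : B * em ^ 3 ≤ em ^ 3 := by nlinarith
  nlinarith

/-- Second moment of the change of the potential. -/
theorem psi_sq (hH : Orth H) (hη : 0 ≤ η) (hem : η * Real.sqrt (Fintype.card I) = em)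
    (hem5 : em ≤ 1 / 5) (ha : Cube a) :
    ex (fun x => (Psi H (mv η H a x) - Psi H a) ^ 2) ≤
      26 * (η ^ 2 / Fintype.card I) + 49 * em ^ 3 := by
  have hem0 : 0 ≤ em := by rw [← hem]; positivity
  have hN := card_pos' (I := I)
  set A := avg Sum.inl a with hA
  set B := avg Sum.inr a with hB
  have hA0 : 0 ≤ A := avg_nonneg ha
  have hB0 : 0 ≤ B := avg_nonneg ha
  have hA1 : A ≤ 1 := avg_le ha
  have hB1 : B ≤ 1 := avg_le ha
  have hpt : ∀ x, (Psi H (mv η H a x) - Psi H a) ^ 2 ≤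
      5 * (((fL η H a x ^ 2 + fR η H a x ^ 2) + 25 / 81 * (a1 Sum.inl η H a x ^ 2 +
        a1 Sum.inr η H a x ^ 2)) + 49 * em ^ 4) := by
    intro x
    set A' := avg Sum.inl (mv η H a x) with hA'
    set B' := avg Sum.inr (mv η H a x) with hB'
    set p := a1 Sum.inl η H a x with hp
    set q := a1 Sum.inr η H a x with hq
    set f2 := (∑ i, ∑ k, H i k * ((spd (a (Sum.inl i)) * (η * fxh H x (Sum.inl i))) *
      (spd (a (Sum.inr k)) * (η * fxh H x (Sum.inr k))))) / (Fintype.card I : ℝ) with hf2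
    have b1 : |A' - A - p| ≤ 8 / 5 * em ^ 2 := avg_near hH hη hem hem5 ha Sum.inl x
    have b2 : |B' - B - q| ≤ 8 / 5 * em ^ 2 := avg_near hH hη hem hem5 ha Sum.inr x
    have b3 : |A' - A| ≤ 13 / 5 * em := avg_diff_le hH hη hem hem5 ha Sum.inl x
    have b4 : |B' - B| ≤ 13 / 5 * em := avg_diff_le hH hη hem hem5 ha Sum.inr x
    have b5 : |f2| ≤ em ^ 2 := f2_le hH hη hem ha x
    set R := f2 + 5 / 9 * (A * (B' - B - q) + B * (A' - A - p) + (A' - A) * (B' - B)) with hR
    have hRle : |R| ≤ 7 * em ^ 2 := by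
      have c1 : |A * (B' - B - q)| ≤ 8 / 5 * em ^ 2 := by
        rw [abs_mul, abs_of_nonneg hA0]
        calc _ ≤ 1 * (8 / 5 * em ^ 2) := mul_le_mul hA1 b2 (abs_nonneg _) zero_le_one
          _ = _ := one_mul _
      have c2 : |B * (A' - A - p)| ≤ 8 / 5 * em ^ 2 := by
        rw [abs_mul, abs_of_nonneg hB0]
        calc _ ≤ 1 * (8 / 5 * em ^ 2) := mul_le_mul hB1 b1 (abs_nonneg _) zero_le_one
          _ = _ := one_mul _
      have c3 : |(A' - A) * (B' - B)| ≤ (13 / 5 * em) * (13 / 5 * em) := by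
        rw [abs_mul]
        exact mul_le_mul b3 b4 (abs_nonneg _) (by positivity)
      rw [abs_le] at c1 c2 c3 b5 ⊢
      rw [hR]
      constructor <;> nlinarith [c1.1, c1.2, c2.1, c2.2, c3.1, c3.2, b5.1, b5.2, sq_nonneg em]
    have hdec : Psi H (mv η H a x) - Psi H a = fL η H a x + fR η H a x + 5 / 9 * A * q +
        5 / 9 * B * p + R := by
      unfold Psi
      rw [phi_mv, ← hA, ← hB, ← hA', ← hB', ← hf2, hR]
      ring
    rw [hdec]
    have hR2 : R ^ 2 ≤ 49 * em ^ 4 := by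
      rw [← sq_abs]
      calc |R| ^ 2 ≤ (7 * em ^ 2) ^ 2 := pow_le_pow_left₀ (abs_nonneg _) hRle 2
        _ = _ := by ring
    have hA2 : (5 / 9 * A * q) ^ 2 ≤ 25 / 81 * q ^ 2 := by
      have : A ^ 2 ≤ 1 := by nlinarith
      have h2 : (5 / 9 * A * q) ^ 2 = 25 / 81 * (A ^ 2 * q ^ 2) := by ring
      rw [h2]
      nlinarith [sq_nonneg q]
    have hB2 : (5 / 9 * B * p) ^ 2 ≤ 25 / 81 * p ^ 2 := by
      have : B ^ 2 ≤ 1 := by nlinarith
      have h2 : (5 / 9 * B * p) ^ 2 = 25 / 81 * (B ^ 2 * p ^ 2) := by ring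
      rw [h2]
      nlinarith [sq_nonneg p]
    have hsum : ∀ u v w y z : ℝ, (u + v + w + y + z) ^ 2 ≤
        5 * (u ^ 2 + v ^ 2 + w ^ 2 + y ^ 2 + z ^ 2) := by
      intro u v w y z
      nlinarith [sq_nonneg (u - v), sq_nonneg (u - w), sq_nonneg (u - y), sq_nonneg (u - z),
        sq_nonneg (v - w), sq_nonneg (v - y), sq_nonneg (v - z), sq_nonneg (w - y),
        sq_nonneg (w - z), sq_nonneg (y - z)]
    refine (hsum _ _ _ _ _).trans ?_
    linarith
  refine (ex_mono hpt).trans ?_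
  rw [ex_mul_left, ex_add, ex_add, ex_add, ex_mul_left, ex_add, ex_const]
  have e1 := fL_sq (η := η) hH ha
  have e2 := fR_sq (η := η) hH ha
  have e3 := a1_sq (η := η) (goodEmb_inl H) ha
  have e4 := a1_sq (η := η) (goodEmb_inr hH) ha
  have hz : 0 ≤ η ^ 2 / (Fintype.card I : ℝ) := by positivity
  have h5 : em ^ 4 ≤ 1 / 5 * em ^ 3 := by
    have h6 : 0 ≤ em ^ 3 := by positivity
    nlinarith
  linarith

end step

/-- The squared deficit. -/
noncomputable def Zf (H : I → I → ℝ) (a : I ⊕ I → ℝ) : ℝ := (max 0 (5 / 9 - Psi H a)) ^ 2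

variable {St : (I ⊕ I → ℝ) → Prop}

omit [DecidableEq I] in
theorem wstep_eq_mv {H : I → I → ℝ} {a : I ⊕ I → ℝ} (h : ¬ St a) (x : I → Bool) :
    wstep St η (fxh H) a x = mv η H a x := by
  funext s
  rw [wstep_of_not_stop h]
  rfl

theorem zf_drift {H : I → I → ℝ} (hH : Orth H) (hη : 0 ≤ η) {em : ℝ}
    (hem : η * Real.sqrt (Fintype.card I) = em) (hem5 : em ≤ 1 / 5) (a : I ⊕ I → ℝ)
    (ha : Cube a) :
    ex (fun x => Zf H (wstep St η (fxh H) a x)) ≤
      Zf H a + 60 * (η ^ 2 / Fintype.card I + em ^ 3) := by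
  have hem0 : 0 ≤ em := by rw [← hem]; positivity
  have hz : 0 ≤ η ^ 2 / (Fintype.card I : ℝ) := by positivity
  have h3 : 0 ≤ em ^ 3 := by positivity
  by_cases hSt : St a
  · have : (fun x => Zf H (wstep St η (fxh H) a x)) = fun _ => Zf H a := by
      funext x
      rw [wstep_of_stop hSt]
    rw [this, ex_const]
    linarith
  · simp_rw [wstep_eq_mv hSt]
    set u := 5 / 9 - Psi H a with hu
    set M := max 0 u with hM
    have hM0 : 0 ≤ M := le_max_left _ _
    have hM2 : M ≤ 8 / 5 := by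
      have h1 := (abs_le.mp (abs_phi_le hH ha)).1
      have h2 : 0 ≤ avg Sum.inl a * avg Sum.inr a := mul_nonneg (avg_nonneg ha) (avg_nonneg ha)
      apply max_le (by norm_num)
      rw [hu]
      unfold Psi
      linarith
    have hpt : ∀ x, Zf H (mv η H a x) ≤
        (M ^ 2 + (-(2 * M)) * (Psi H (mv η H a x) - Psi H a)) +
          (Psi H (mv η H a x) - Psi H a) ^ 2 := by
      intro x
      unfold Zf
      set ξ := Psi H (mv η H a x) - Psi H a with hξ
      have e : 5 / 9 - Psi H (mv η H a x) = u - ξ := by rw [hu, hξ]; ring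
      rw [e]
      rcases le_total 0 (u - ξ) with h1 | h1
      · rw [max_eq_right h1]
        rcases le_total 0 u with h2 | h2
        · rw [hM, max_eq_right h2]
          nlinarith
        · rw [hM, max_eq_left h2]
          nlinarith
      · rw [max_eq_left h1]
        nlinarith [sq_nonneg (M - ξ)]
    refine (ex_mono hpt).trans ?_
    rw [ex_add, ex_add, ex_const, ex_mul_left]
    have d1 := psi_drift hH hη hem hem5 ha
    have d2 := psi_sq hH hη hem hem5 ha
    have e1 : M ^ 2 = Zf H a := rfl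
    rw [e1]
    have d3 := mul_le_mul_of_nonneg_left d1 (by linarith : 0 ≤ 2 * M)
    have d4 : M * (6 * (η ^ 2 / (Fintype.card I : ℝ)) + 2 * em ^ 3) ≤
        8 / 5 * (6 * (η ^ 2 / (Fintype.card I : ℝ)) + 2 * em ^ 3) :=
      mul_le_mul_of_nonneg_right hM2 (by positivity)
    nlinarith

/-- Change of the forrelation in one step. -/
theorem phi_step {H : I → I → ℝ} (hH : Orth H) (hη : 0 ≤ η) (hη1 : η ≤ 1) (a : I ⊕ I → ℝ)
    (ha : Cube a) (x : I → Bool) :
    |Phi H (wstep St η (fxh H) a x) - Phi H a| ≤ 3 * Fintype.card I * η := by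
  have hN1 : (1 : ℝ) ≤ Fintype.card I := by exact_mod_cast Fintype.card_pos
  set N : ℝ := (Fintype.card I : ℝ) with hN
  have hsN : 0 < Real.sqrt N := Real.sqrt_pos.mpr (by linarith)
  by_cases hSt : St a
  · rw [wstep_of_stop hSt, sub_self, abs_zero]
    positivity
  · unfold Phi
    rw [← hN, ← sub_div, ← sum_sub_distrib]
    simp_rw [← sum_sub_distrib, wstep_of_not_stop hSt]
    rw [abs_div, abs_of_pos (by linarith : 0 < N), div_le_iff₀ (by linarith)]
    have hcell : ∀ i k : I, |H i k * ((a (Sum.inl i) + spd (a (Sum.inl i)) *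
        (η * fxh H x (Sum.inl i))) *
        (a (Sum.inr k) + spd (a (Sum.inr k)) * (η * fxh H x (Sum.inr k)))) -
        H i k * (a (Sum.inl i) * a (Sum.inr k))| ≤ 3 * η := by
      intro i k
      have e : H i k * ((a (Sum.inl i) + spd (a (Sum.inl i)) * (η * fxh H x (Sum.inl i))) *
        (a (Sum.inr k) + spd (a (Sum.inr k)) * (η * fxh H x (Sum.inr k)))) -
        H i k * (a (Sum.inl i) * a (Sum.inr k)) =
        H i k * ((spd (a (Sum.inl i)) * (η * fxh H x (Sum.inl i))) * a (Sum.inr k) +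
          a (Sum.inl i) * (spd (a (Sum.inr k)) * (η * fxh H x (Sum.inr k))) +
          (spd (a (Sum.inl i)) * (η * fxh H x (Sum.inl i))) *
            (spd (a (Sum.inr k)) * (η * fxh H x (Sum.inr k)))) := by ring
      rw [e, abs_mul, abs_H hH]
      have hd : ∀ j, |spd (a j) * (η * fxh H x j)| ≤ η * |fxh H x j| := by
        intro j
        rw [abs_mul, abs_mul, abs_of_nonneg hη, abs_of_nonneg (spd_nonneg (ha j))]
        calc spd (a j) * (η * |fxh H x j|) ≤ 1 * (η * |fxh H x j|) :=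
              mul_le_mul_of_nonneg_right (spd_le (ha j)) (by positivity)
          _ = _ := one_mul _
      have hl := hd (Sum.inl i)
      have hr := hd (Sum.inr k)
      have e1 : |fxh H x (Sum.inl i)| = 1 := abs_sg _
      rw [e1, mul_one] at hl
      have hr2 : |spd (a (Sum.inr k)) * (η * fxh H x (Sum.inr k))| ≤ η * Real.sqrt N :=
        hr.trans (mul_le_mul_of_nonneg_left (fxh_bd hH x (Sum.inr k)) hη)
      have h1 := ha (Sum.inl i)
      have h2 := ha (Sum.inr k)
      have hsN1 : 1 ≤ Real.sqrt N := Real.one_le_sqrt.mpr hN1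
      have hb : |spd (a (Sum.inl i)) * (η * fxh H x (Sum.inl i)) * a (Sum.inr k) +
          a (Sum.inl i) * (spd (a (Sum.inr k)) * (η * fxh H x (Sum.inr k))) +
          spd (a (Sum.inl i)) * (η * fxh H x (Sum.inl i)) *
            (spd (a (Sum.inr k)) * (η * fxh H x (Sum.inr k)))| ≤
          3 * (η * Real.sqrt N) := by
        refine (abs_add_le _ _).trans ?_
        have t1 : |spd (a (Sum.inl i)) * (η * fxh H x (Sum.inl i)) * a (Sum.inr k)| ≤
            η * Real.sqrt N := by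
          rw [abs_mul]
          calc _ ≤ η * 1 := mul_le_mul hl h2 (abs_nonneg _) hη
            _ ≤ _ := mul_le_mul_of_nonneg_left hsN1 hη
        have t2 : |a (Sum.inl i) * (spd (a (Sum.inr k)) * (η * fxh H x (Sum.inr k)))| ≤
            η * Real.sqrt N := by
          rw [abs_mul]
          calc _ ≤ 1 * (η * Real.sqrt N) := mul_le_mul h1 hr2 (abs_nonneg _) zero_le_one
            _ = _ := one_mul _
        have t3 : |spd (a (Sum.inl i)) * (η * fxh H x (Sum.inl i)) *
            (spd (a (Sum.inr k)) * (η * fxh H x (Sum.inr k)))| ≤ η * Real.sqrt N := by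
          rw [abs_mul]
          calc _ ≤ 1 * (η * Real.sqrt N) :=
                mul_le_mul (hl.trans hη1) hr2 (abs_nonneg _) zero_le_one
            _ = _ := one_mul _
        have := abs_add_le (spd (a (Sum.inl i)) * (η * fxh H x (Sum.inl i)) * a (Sum.inr k))
          (a (Sum.inl i) * (spd (a (Sum.inr k)) * (η * fxh H x (Sum.inr k))))
        linarith
      calc 1 / Real.sqrt N * _ ≤ 1 / Real.sqrt N * (3 * (η * Real.sqrt N)) :=
            mul_le_mul_of_nonneg_left hb (by positivity)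
        _ = 3 * η := by field_simp
    calc |∑ i, ∑ k, _| ≤ ∑ _i : I, ∑ _k : I, (3 * η) := by
          refine (abs_sum_le_sum_abs _ _).trans (sum_le_sum fun i _ => ?_)
          exact (abs_sum_le_sum_abs _ _).trans (sum_le_sum fun k _ => hcell i k)
      _ = 3 * N * η * N := by
          simp only [sum_const, card_univ, nsmul_eq_mul]
          rw [← hN]
          ring

/-- The stopping rule. -/
def StopAt (H : I → I → ℝ) (α : ℝ) (a : I ⊕ I → ℝ) : Prop := α ≤ Phi H a

theorem phi_zero (H : I → I → ℝ) : Phi H (fun _ => (0 : ℝ)) = 0 := by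
  unfold Phi
  simp

theorem zf_zero (H : I → I → ℝ) : Zf H (fun _ => (0 : ℝ)) = 0 := by
  have hN := card_pos' (I := I)
  unfold Zf Psi avg
  rw [phi_zero]
  have : spd 0 = 1 := by unfold spd; norm_num
  simp only [this, sum_const, card_univ, nsmul_eq_mul, mul_one]
  rw [div_self hN.ne']
  norm_num

/-- At some time before `t` the walk has reached forrelation `65/128` with high probability. -/
theorem walk_success {H : I → I → ℝ} (hH : Orth H) (hη : 0 < η) {em : ℝ}
    (hem : η * Real.sqrt (Fintype.card I) = em) (hem5 : em ≤ 1 / 5) {t : ℕ} (ht : 0 < t) :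
    ∃ j, j < t ∧ walk (StopAt H (65 / 128)) η (fxh H) j
      (fun a => if StopAt H (65 / 128) a then 0 else 1) (fun _ => 0) ≤
      36 * ((65 / 128 + 3 * Fintype.card I * η) / (t * η ^ 2)) +
        1296 * (t * (60 * (η ^ 2 / Fintype.card I + em ^ 3))) := by
  have hN1 : (1 : ℝ) ≤ Fintype.card I := by exact_mod_cast Fintype.card_pos
  set N : ℝ := (Fintype.card I : ℝ) with hN
  have hsN1 : 1 ≤ Real.sqrt N := Real.one_le_sqrt.mpr hN1
  have hη0 : 0 ≤ η := hη.le
  have hη1 : η ≤ 1 := by nlinarith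
  have hem0 : 0 ≤ em := by rw [← hem]; positivity
  set St := StopAt H (65 / 128) with hSt
  let K : (I ⊕ I → ℝ) → Prop := fun a => Cube a ∧ Phi H a ≤ 65 / 128 + 3 * N * η
  have hKstep : ∀ a, K a → ∀ x, K (wstep St η (fxh H) a x) := by
    intro a ha x
    refine ⟨cube_step (fxh_bd hH) hη0 (by rw [hem]; linarith) a ha.1 x, ?_⟩
    by_cases hs : St a
    · rw [wstep_of_stop hs]
      exact ha.2
    · have h1 := phi_step (St := St) hH hη0 hη1 a ha.1 x
      rw [abs_le] at h1
      have h2 : Phi H a < 65 / 128 := by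
        by_contra hcon
        push Not at hcon
        exact hs hcon
      linarith [h1.2]
  have hK0 : K (fun _ => 0) := by
    refine ⟨fun i => by simp, ?_⟩
    rw [phi_zero]
    positivity
  have hdrift := walk_drift (St := St) (η := η) (xh := fxh H) (K := K) hKstep
    (G := Phi H) (D := fun a => η ^ 2 * (if St a then 0 else avg Sum.inl a * avg Sum.inr a))
    (fun a _ => by
      by_cases hs : St a
      · simp_rw [wstep_of_stop hs]
        rw [ex_const, if_pos hs, mul_zero, add_zero]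
      · simp_rw [wstep_eq_mv hs]
        rw [phi_mv_drift hH, if_neg hs]) t hK0
  rw [phi_zero, zero_add] at hdrift
  have hub : walk St η (fxh H) t (Phi H) (fun _ => 0) ≤ 65 / 128 + 3 * N * η := by
    have := walk_mono (St := St) (η := η) (xh := fxh H) (K := K) hKstep
      (F := Phi H) (G := fun _ => 65 / 128 + 3 * N * η) (fun a ha => ha.2) t hK0
    rwa [walk_const] at this
  rw [hdrift] at hub
  simp_rw [walk_mul] at hub
  rw [← mul_sum] at hub
  have htr : (0 : ℝ) < t := by exact_mod_cast ht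
  obtain ⟨j, hj, hjle⟩ : ∃ j ∈ range t, walk St η (fxh H) j
      (fun a => if St a then 0 else avg Sum.inl a * avg Sum.inr a) (fun _ => 0) ≤
      (65 / 128 + 3 * N * η) / (t * η ^ 2) := by
    by_contra hcon
    push Not at hcon
    have h1 : ∑ _j ∈ range t, (65 / 128 + 3 * N * η) / (t * η ^ 2) <
        ∑ j ∈ range t, walk St η (fxh H) j
      (fun a => if St a then 0 else avg Sum.inl a * avg Sum.inr a) (fun _ => 0) :=
      sum_lt_sum_of_nonempty (by simpa using ht.ne') hcon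
    rw [sum_const, card_range, nsmul_eq_mul] at h1
    have h2 : η ^ 2 * (t * ((65 / 128 + 3 * N * η) / (t * η ^ 2))) = 65 / 128 + 3 * N * η := by
      field_simp
    have h3 := mul_lt_mul_of_pos_left h1 (by positivity : 0 < η ^ 2)
    linarith
  have hjt : j < t := mem_range.mp hj
  refine ⟨j, hjt, ?_⟩
  have hZ := walk_drift_le (St := St) (η := η) (xh := fxh H) (K := K) hKstep
    (G := Zf H) (c := 60 * (η ^ 2 / N + em ^ 3))
    (fun a ha => zf_drift hH hη0 hem hem5 a ha.1) j hK0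
  rw [zf_zero, zero_add] at hZ
  have hZ' : walk St η (fxh H) j (Zf H) (fun _ => 0) ≤ t * (60 * (η ^ 2 / N + em ^ 3)) := by
    refine hZ.trans ?_
    apply mul_le_mul_of_nonneg_right _ (by positivity)
    exact_mod_cast hjt.le
  have hpt : walk St η (fxh H) j (fun a => if St a then 0 else 1) (fun _ => 0) ≤
      walk St η (fxh H) j (fun a => 36 * (if St a then 0 else avg Sum.inl a * avg Sum.inr a) +
        1296 * Zf H a) (fun _ => 0) := by
    apply walk_mono (K := K) hKstep _ j hK0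
    intro a ha
    have hZ0 : 0 ≤ Zf H a := sq_nonneg _
    by_cases hs : St a
    · rw [if_pos hs, if_pos hs]
      linarith
    · rw [if_neg hs, if_neg hs]
      have h2 : Phi H a < 65 / 128 := by
        by_contra hcon
        push Not at hcon
        exact hs hcon
      rcases le_or_gt (1 / 36) (avg Sum.inl a * avg Sum.inr a) with h3 | h3
      · linarith
      · have h0 : 0 ≤ avg Sum.inl a * avg Sum.inr a := mul_nonneg (avg_nonneg ha.1)
          (avg_nonneg ha.1)
        have h4 : 1 / 36 ≤ 5 / 9 - Psi H a := by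
          unfold Psi
          linarith
        have h5 : 1 / 36 ≤ max 0 (5 / 9 - Psi H a) := h4.trans (le_max_right _ _)
        have h6 : (1 / 36 : ℝ) ^ 2 ≤ Zf H a := pow_le_pow_left₀ (by norm_num) h5 2
        linarith
  rw [walk_add, walk_mul, walk_mul] at hpt
  linarith

end Pool.Agent.Helper67.EQP
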