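import Pool.Agent.Helper67.EQP.SliceAC
import Pool.Agent.Helper67.EQP.Defs

set_option autoImplicit false
set_option linter.unusedSectionVars false

/-!
Assembly of the lower bound: no constant depth circuit separates the two promise sets.
-/

namespace Pool.Agent.Helper67.EQP

open Finset Function Classical
open Pool.Agent.Helper67.JL (ex ex_mono ex_nonneg ex_add ex_mul_left ex_mul_right ex_sum ex_const
  ex_equiv ex_prod)

section

variable {I J : Type} [Fintype I] [DecidableEq I] [Nonempty I] [Fintype J] [DecidableEq J]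

/-- Negate the second half. -/
def negv (z : I ⊕ I → Bool) : I ⊕ I → Bool
  | Sum.inl i => z (Sum.inl i)
  | Sum.inr k => !z (Sum.inr k)

theorem negv_negv (z : I ⊕ I → Bool) : negv (negv z) = z := by
  funext i
  rcases i with i | k <;> simp [negv]

/-- `negv` as an equivalence. -/
def negvEquiv : (I ⊕ I → Bool) ≃ (I ⊕ I → Bool) :=
  Function.Involutive.toPerm negv negv_negv

/-- Expectation of a function of the rounded endpoint of the walk. -/
noncomputable def dist (St : (I ⊕ I → ℝ) → Prop) (η : ℝ) (H : I → I → ℝ) (t : ℕ)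
    (F : (I ⊕ I → Bool) → ℝ) : ℝ := walk St η (fxh H) t (fun a => mext a F) (fun _ => 0)

variable {St : (I ⊕ I → ℝ) → Prop} {η : ℝ} {H : I → I → ℝ} {t : ℕ}

theorem dist_add (F G : (I ⊕ I → Bool) → ℝ) :
    dist St η H t (fun z => F z + G z) = dist St η H t F + dist St η H t G := by
  unfold dist
  simp_rw [mext_add]
  exact walk_add _ _ _ _

theorem dist_mul (c : ℝ) (F : (I ⊕ I → Bool) → ℝ) :
    dist St η H t (fun z => c * F z) = c * dist St η H t F := by
  unfold dist
  simp_rw [mext_mul_left]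
  exact walk_mul _ _ _ _

theorem dist_const (c : ℝ) : dist St η H t (fun _ => c) = c := by
  unfold dist
  simp_rw [mext_const]
  exact walk_const _ _ _

theorem dist_sum {α : Type} (S : Finset α) (F : α → (I ⊕ I → Bool) → ℝ) :
    dist St η H t (fun z => ∑ s ∈ S, F s z) = ∑ s ∈ S, dist St η H t (F s) := by
  unfold dist
  simp_rw [mext_sum]
  exact walk_sum _ _ _ _

theorem dist_mono (hH : Orth H) (hη : 0 ≤ η) (hηB : η * Real.sqrt (Fintype.card I) ≤ 1 / 5)
    {F G : (I ⊕ I → Bool) → ℝ} (h : ∀ z, F z ≤ G z) : dist St η H t F ≤ dist St η H t G := by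
  unfold dist
  apply walk_mono (K := Cube) (cube_step (fxh_bd hH) hη (by linarith))
  · intro a ha
    exact mext_mono ha h
  · intro i
    simp

theorem dist_sub (F G : (I ⊕ I → Bool) → ℝ) :
    dist St η H t (fun z => F z - G z) = dist St η H t F - dist St η H t G := by
  have h1 := dist_add (St := St) (η := η) (H := H) (t := t) F (fun z => (-1) * G z)
  rw [dist_mul] at h1
  have e : (fun z => F z - G z) = fun z => F z + (-1) * G z := by
    funext z; ring
  rw [e, h1]
  ring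

theorem dist_abs_le (hH : Orth H) (hη : 0 ≤ η)
    (hηB : η * Real.sqrt (Fintype.card I) ≤ 1 / 5)
    {F G B : (I ⊕ I → Bool) → ℝ} (h : ∀ z, |F z - G z| ≤ B z) :
    |dist St η H t F - dist St η H t G| ≤ dist St η H t B := by
  rw [← dist_sub, abs_le]
  constructor
  · have h1 : ∀ z, (-1) * B z ≤ F z - G z := fun z => by linarith [(abs_le.mp (h z)).1]
    have h2 := dist_mono (St := St) (t := t) hH hη hηB h1
    rw [dist_mul] at h2
    linarith
  · exact dist_mono hH hη hηB fun z => (abs_le.mp (h z)).2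

theorem dist_ex [Nonempty J] (F : (I ⊕ I → Bool) → (J → Bool) → ℝ) :
    dist St η H t (fun z => ex (F z)) = ex (fun r => dist St η H t (fun z => F z r)) := by
  unfold ex
  have : (fun z : I ⊕ I → Bool => (∑ r, F z r) / (Fintype.card (J → Bool) : ℝ)) =
      fun z => (1 / (Fintype.card (J → Bool) : ℝ)) * ∑ r, F z r := by
    funext z; ring
  rw [this, dist_mul, dist_sum]
  ring

/-- Numerical data of the argument. -/
structure Params (N M : ℝ) (n h s w : ℕ) (p δ δ' η V ε D e1 e2 qf : ℝ) (t : ℕ) : Prop where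
  hw : 0 < w
  hp : 0 < p
  hpw : 16 * p * w ≤ 1
  hη : 0 < η
  hηB : η * Real.sqrt N ≤ 1 / 5
  hw2 : w * (η / p ^ h * (3 * Real.sqrt N)) ≤ 1 / 2
  hn2 : n * (η / p ^ h * (3 * Real.sqrt N)) ≤ 1 / 2
  he1 : t * stepErr h s w n p (9 * (1 / Real.sqrt N)) (3 * Real.sqrt N) η ≤ e1
  hV : 0 < V
  hε0 : 0 ≤ ε
  hε1 : w * ε ≤ 1 / 2
  hwL : (w : ℝ) < p ^ h * M / 2
  hε : D + V + w ≤ ε * (p ^ h * M / 2 - w)
  he2 : sliceErr h s w p M V ε ≤ e2
  hδ : 0 < δ
  hδ' : δ + 3 * N * η ≤ δ'
  ht : 0 < t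
  hqf : 36 * ((65 / 128 + 3 * N * η) / (t * η ^ 2)) +
    1296 * (t * (60 * (η ^ 2 / N + (η * Real.sqrt N) ^ 3))) + 2 / (N * δ ^ 2) ≤ qf
  hq1 : qf < 1

/-- The rounded points whose forrelation is close to `65/128`. -/
def Near (H : I → I → ℝ) (δ' : ℝ) (z : I ⊕ I → Bool) : Prop := |Phi H (svec z) - 65 / 128| ≤ δ'

theorem stepErr_nonneg {h s w n : ℕ} {p c2 B η : ℝ} (hp : 0 ≤ p) (hc2 : 0 ≤ c2) (hB : 0 ≤ B)
    (hη : 0 ≤ η) : 0 ≤ stepErr h s w n p c2 B η := by
  unfold stepErr
  positivity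

theorem dist_fools (hH : Orth H) {h s w n : ℕ} {p δ δ' V ε D e1 e2 qf : ℝ} {M : ℝ}
    (hP : Params (Fintype.card I) M n h s w p δ δ' η V ε D e1 e2 qf t)
    (hn : Fintype.card (I ⊕ I) = n)
    {level : Fin s → ℕ} {g : Fin s → (I ⊕ I → Bool) → Bool} (hAC : ACfam w level g)
    (hlev : ∀ j, level j < h) (j : Fin s) {i : ℕ} (hi : i < t) :
    |dist St η H i (fun z => b2 (g j z)) - ex (fun z => b2 (g j z))| ≤ e1 := by
  subst hn
  have hηB := hP.hηB
  have := walk_fools (St := St) (t := i) (fxh_noise hH) hAC hlev hP.hw hP.hp hP.hpw hP.hη.le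
    (by linarith) hP.hw2 hP.hn2 j
  rw [mext_zero_eq_ex] at this
  refine this.trans (le_trans ?_ hP.he1)
  apply mul_le_mul_of_nonneg_right
  · exact_mod_cast hi.le
  · exact stepErr_nonneg hP.hp.le (by positivity) (by positivity) hP.hη.le

/-- At some time the walk reaches the promise with high probability. -/
theorem dist_success (hH : Orth H) {h s w n : ℕ} {p δ δ' V ε D e1 e2 qf : ℝ} {M : ℝ}
    (hP : Params (Fintype.card I) M n h s w p δ δ' η V ε D e1 e2 qf t) :
    ∃ i, i < t ∧ dist (StopAt H (65 / 128)) η H i (fun z => if Near H δ' z then 0 else 1) ≤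
      qf := by
  have hN := card_pos' (I := I)
  set N : ℝ := (Fintype.card I : ℝ) with hNdef
  have hη := hP.hη
  have hηB := hP.hηB
  have hη1 : η ≤ 1 := by
    have hN1 : (1 : ℝ) ≤ N := by rw [hNdef]; exact_mod_cast Fintype.card_pos
    have hsN1 : 1 ≤ Real.sqrt N := Real.one_le_sqrt.mpr hN1
    nlinarith
  obtain ⟨i, hit, hsuc⟩ := walk_success hH hη rfl hηB hP.ht
  refine ⟨i, hit, ?_⟩
  rw [← hNdef] at hsuc
  have hδ := hP.hδ
  have hqf := hP.hqf
  -- invariant set
  let K : (I ⊕ I → ℝ) → Prop := fun a => Cube a ∧ Phi H a ≤ 65 / 128 + 3 * N * η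
  have hKstep : ∀ a, K a → ∀ x, K (wstep (StopAt H (65 / 128)) η (fxh H) a x) := by
    intro a ha x
    refine ⟨cube_step (fxh_bd hH) hη.le (by linarith) a ha.1 x, ?_⟩
    by_cases hs : StopAt H (65 / 128) a
    · rw [wstep_of_stop hs]
      exact ha.2
    · have h1 := phi_step (St := StopAt H (65 / 128)) hH hη.le hη1 a ha.1 x
      rw [abs_le] at h1
      have h2 : Phi H a < 65 / 128 := by
        by_contra hcon
        push Not at hcon
        exact hs hcon
      linarith [h1.2]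
  have hK0 : K (fun _ => 0) := by
    refine ⟨fun i => by simp, ?_⟩
    rw [phi_zero]
    positivity
  have hpt : dist (StopAt H (65 / 128)) η H i (fun z => if Near H δ' z then 0 else 1) ≤
      walk (StopAt H (65 / 128)) η (fxh H) i
      (fun a => 2 / (N * δ ^ 2) + (if StopAt H (65 / 128) a then 0 else 1)) (fun _ => 0) := by
    unfold dist
    apply walk_mono (K := K) hKstep _ i hK0
    intro a ha
    have hc2 : 0 ≤ 2 / (N * δ ^ 2) := by positivity
    by_cases hs : StopAt H (65 / 128) a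
    · rw [if_pos hs, add_zero]
      have h1 := round_prob hH a ha.1 hδ
      rw [← hNdef] at h1
      refine le_trans ?_ h1
      apply mext_mono ha.1
      intro z
      by_cases h3 : |Phi H (svec z) - Phi H a| ≤ δ
      · have h4 : Near H δ' z := by
          have h5 : 65 / 128 ≤ Phi H a := hs
          have h6 := ha.2
          have h7 := hP.hδ'
          unfold Near
          rw [abs_le] at h3 ⊢
          constructor
          · have : 0 ≤ 3 * N * η := by positivity
            linarith [h3.1]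
          · linarith [h3.2]
        rw [if_pos h3, if_pos h4]
      · rw [if_neg h3]
        split_ifs <;> norm_num
    · rw [if_neg hs]
      have h2 : mext a (fun z => if Near H δ' z then (0 : ℝ) else 1) ≤ 1 := by
        have := mext_mono ha.1 (g := fun _ => 1)
          (f := fun z => if Near H δ' z then (0 : ℝ) else 1)
          (fun z => by split_ifs <;> norm_num)
        rwa [mext_const] at this
      linarith
  rw [walk_add, walk_const] at hpt
  linarith

/-- From a positive linear functional to a probability distribution. -/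
theorem exists_dist {Ω : Type} [Fintype Ω] [DecidableEq Ω] (E : (Ω → ℝ) → ℝ)
    (hadd : ∀ F G, E (fun x => F x + G x) = E F + E G)
    (hmul : ∀ (c : ℝ) F, E (fun x => c * F x) = c * E F)
    (hpos : ∀ F, (∀ x, 0 ≤ F x) → 0 ≤ E F) (hone : E (fun _ => 1) = 1) (P : Ω → Prop)
    (hsupp : ∀ F, (∀ x, P x → F x = 0) → E F = 0) :
    ∃ μ : Ω → ℝ, IsDist μ ∧ (∀ x, ¬ P x → μ x = 0) ∧ ∀ F, E F = ∑ x, μ x * F x := by
  have h0 : E (fun _ => 0) = 0 := by
    have := hmul 0 (fun _ => 0)
    simpa using this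
  have hsum : ∀ (S : Finset Ω) (f : Ω → Ω → ℝ), E (fun x => ∑ s ∈ S, f s x) =
      ∑ s ∈ S, E (f s) := by
    intro S f
    induction S using Finset.induction_on with
    | empty => simpa using h0
    | insert a S ha ih =>
      rw [sum_insert ha, ← ih, ← hadd]
      congr 1
      funext x
      rw [sum_insert ha]
  have hrep : ∀ F, E F = ∑ y, E (fun x => if x = y then 1 else 0) * F y := by
    intro F
    have e : F = fun x => ∑ y, F y * (if x = y then 1 else 0) := by
      funext x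
      simp
    conv_lhs => rw [e]
    rw [hsum]
    apply sum_congr rfl
    intro y _
    rw [hmul, mul_comm]
  refine ⟨fun y => E (fun x => if x = y then 1 else 0), ⟨fun y => ?_, ?_⟩, ?_, hrep⟩
  · apply hpos
    intro x
    split_ifs <;> norm_num
  · have := hrep (fun _ => 1)
    rw [hone] at this
    simpa using this.symm
  · intro y hy
    apply hsupp
    intro x hx
    rw [if_neg]
    rintro rfl
    exact hy hx

/-- The hard distributions, as functionals. -/
noncomputable def hd (P : ℝ) (H : I → I → ℝ) (δ' η : ℝ) (i : ℕ)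
    (σ : (I ⊕ I → Bool) → (I ⊕ I → Bool)) (r0 : (I ⊕ I → Bool) → (J → Bool))
    (x1 : (I ⊕ I) ⊕ J → Bool) (F : ((I ⊕ I) ⊕ J → Bool) → ℝ) : ℝ :=
  dist (StopAt H (65 / 128)) η H i (fun z => if Near H δ' z then
    sld P (r0 z) (fun r => F (Sum.elim (σ z) r)) else F x1)

section hdprops

variable {P δ' : ℝ} {i : ℕ} {σ : (I ⊕ I → Bool) → (I ⊕ I → Bool)}
  {r0 : (I ⊕ I → Bool) → (J → Bool)} {x1 : (I ⊕ I) ⊕ J → Bool}

theorem hd_add (F G : ((I ⊕ I) ⊕ J → Bool) → ℝ) :
    hd P H δ' η i σ r0 x1 (fun x => F x + G x) =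
      hd P H δ' η i σ r0 x1 F + hd P H δ' η i σ r0 x1 G := by
  unfold hd
  rw [← dist_add]
  congr 1
  funext z
  split_ifs
  · exact sld_add _ _ _ _
  · rfl

theorem hd_mul (c : ℝ) (F : ((I ⊕ I) ⊕ J → Bool) → ℝ) :
    hd P H δ' η i σ r0 x1 (fun x => c * F x) = c * hd P H δ' η i σ r0 x1 F := by
  unfold hd
  rw [← dist_mul]
  congr 1
  funext z
  split_ifs
  · exact sld_mul _ _ _ _
  · rfl

theorem hd_nonneg (hH : Orth H) (hη : 0 ≤ η) (hηB : η * Real.sqrt (Fintype.card I) ≤ 1 / 5)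
    (hP0 : 0 ≤ P) (hP1 : P ≤ 1) {F : ((I ⊕ I) ⊕ J → Bool) → ℝ} (hF : ∀ x, 0 ≤ F x) :
    0 ≤ hd P H δ' η i σ r0 x1 F := by
  unfold hd
  rw [← dist_const (St := StopAt H (65 / 128)) (η := η) (H := H) (t := i) (0 : ℝ)]
  apply dist_mono hH hη hηB
  intro z
  split_ifs
  · exact sld_nonneg hP0 hP1 _ fun r => hF _
  · exact hF _

theorem hd_const_of {F : ((I ⊕ I) ⊕ J → Bool) → ℝ} {c : ℝ}
    (hF : ∀ z, Near H δ' z → ∀ r, ntrue r = ntrue (r0 z) → F (Sum.elim (σ z) r) = c)
    (hx1 : F x1 = c) : hd P H δ' η i σ r0 x1 F = c := by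
  unfold hd
  rw [← dist_const (St := StopAt H (65 / 128)) (η := η) (H := H) (t := i) c]
  congr 1
  funext z
  split_ifs with hz
  · exact sld_const_of _ _ (hF z hz)
  · exact hx1

end hdprops

theorem ex_ex_swap {A B : Type} [Fintype A] [Fintype B] (F : A → B → ℝ) :
    ex (fun a => ex (F a)) = ex (fun b => ex (fun a => F a b)) := by
  unfold ex
  simp_rw [← sum_div]
  rw [sum_comm]
  ring

/-- Constant depth circuits do not distinguish the hard distribution from the uniform one. -/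
theorem hd_fools [Nonempty J] (hH : Orth H) {h s w n : ℕ} {p δ δ' V ε D e1 e2 qf : ℝ}
    (hP : Params (Fintype.card I) (Fintype.card J) n h s w p δ δ' η V ε D e1 e2 qf t)
    (hn : Fintype.card (I ⊕ I) = n)
    {σ : (I ⊕ I → Bool) ≃ (I ⊕ I → Bool)} (hσ : ∀ i, DTd 1 (fun z => σ z i))
    {r0 : (I ⊕ I → Bool) → (J → Bool)} {x1 : (I ⊕ I) ⊕ J → Bool}
    (hK : ∀ z, Near H δ' z → |(2 : ℝ) * ntrue (r0 z) - Fintype.card J| ≤ D)
    {i : ℕ} (hi : i < t)
    (hsuc : dist (StopAt H (65 / 128)) η H i (fun z => if Near H δ' z then 0 else 1) ≤ qf)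
    {level : Fin s → ℕ} {g : Fin s → ((I ⊕ I) ⊕ J → Bool) → Bool} (hAC : ACfam w level g)
    (hlev : ∀ j, level j < h) (j : Fin s) :
    |hd (p ^ h) H δ' η i σ r0 x1 (fun x => b2 (g j x)) -
      ex (fun z => ex (fun r : J → Bool => b2 (g j (Sum.elim z r))))| ≤ e1 + e2 + qf := by
  have hJ : 0 < Fintype.card J := Fintype.card_pos
  have hw1 : (1 : ℝ) ≤ w := by exact_mod_cast hP.hw
  have hp := hP.hp
  have hp1 : p ≤ 1 := by
    have := hP.hpw
    nlinarith
  have hph0 : 0 ≤ p ^ h := by positivity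
  have hph1 : p ^ h ≤ 1 := pow_le_one₀ hp.le hp1
  -- families
  have hfamJ : ∀ z : I ⊕ I → Bool, ACfam w level (fun j (r : J → Bool) => g j (Sum.elim z r)) := by
    intro z
    apply hAC.comp
    intro i
    rcases i with i | i
    · simpa using DTd.const 1 (z i)
    · simpa using DTd.lit i
  have hfamI : ∀ r : J → Bool,
      ACfam w level (fun j (z : I ⊕ I → Bool) => g j (Sum.elim (σ z) r)) := by
    intro r
    apply hAC.comp
    intro i
    rcases i with i | i
    · simpa using hσ i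
    · simpa using DTd.const 1 (r i)
  have hε0 := hP.hε0
  have hV := hP.hV
  have he2 : 0 ≤ e2 := by
    refine le_trans ?_ hP.he2
    unfold sliceErr
    positivity
  set G : (I ⊕ I → Bool) → ℝ := fun z => ex (fun r : J → Bool => b2 (g j (Sum.elim (σ z) r)))
    with hG
  have hG0 : ∀ z, 0 ≤ G z := fun z => ex_nonneg fun r => b2_nonneg _
  have hG1 : ∀ z, G z ≤ 1 := by
    intro z
    calc _ ≤ ex (fun _ : J → Bool => (1 : ℝ)) := ex_mono fun r => b2_le_one _
      _ = 1 := ex_const 1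
  have h1 : ∀ z, |(if Near H δ' z then sld (p ^ h) (r0 z)
      (fun r => b2 (g j (Sum.elim (σ z) r))) else b2 (g j x1)) - G z| ≤
      e2 + (if Near H δ' z then 0 else 1) := by
    intro z
    by_cases hz : Near H δ' z
    · rw [if_pos hz, if_pos hz, add_zero]
      have := ac_slice (hfamJ (σ z)) hlev hP.hw hp hP.hpw hJ hV (r0 := r0 z) hP.hε1 hP.hwL
        (by linarith [hP.hε, hK z hz]) j
      rw [mext_zero_eq_ex, abs_sub_comm] at this
      exact this.trans hP.he2
    · rw [if_neg hz, if_neg hz]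
      have h3 := b2_nonneg (g j x1)
      have h4 := b2_le_one (g j x1)
      have h5 := hG0 z
      have h6 := hG1 z
      rw [abs_le]
      constructor <;> linarith
  have h2 := dist_abs_le (St := StopAt H (65 / 128)) (t := i) hH hP.hη.le hP.hηB h1
  rw [dist_add, dist_const] at h2
  have h3 : |dist (StopAt H (65 / 128)) η H i G - ex G| ≤ e1 := by
    have e1' : dist (StopAt H (65 / 128)) η H i G = ex (fun r => dist (StopAt H (65 / 128)) η H i
        (fun z => b2 (g j (Sum.elim (σ z) r)))) :=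
      dist_ex (fun z r => b2 (g j (Sum.elim (σ z) r)))
    have e2' : ex G = ex (fun r => ex (fun z => b2 (g j (Sum.elim (σ z) r)))) :=
      ex_ex_swap (fun z r => b2 (g j (Sum.elim (σ z) r)))
    rw [e1', e2']
    have : ex (fun r => dist (StopAt H (65 / 128)) η H i
        (fun z => b2 (g j (Sum.elim (σ z) r)))) -
        ex (fun r => ex (fun z => b2 (g j (Sum.elim (σ z) r)))) =
        ex (fun r => dist (StopAt H (65 / 128)) η H i
        (fun z => b2 (g j (Sum.elim (σ z) r))) - ex (fun z => b2 (g j (Sum.elim (σ z) r)))) := by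
      simp_rw [sub_eq_add_neg]
      rw [ex_add]
      congr 1
      have := ex_mul_left (-1) (fun r => ex (fun z => b2 (g j (Sum.elim (σ z) r))))
      simpa using this.symm
    rw [this]
    exact ex_abs_le _ fun r => dist_fools hH hP hn (hfamI r) hlev j hi
  have h4 : ex G = ex (fun z => ex (fun r : J → Bool => b2 (g j (Sum.elim z r)))) :=
    (ex_equiv σ (fun z => ex (fun r : J → Bool => b2 (g j (Sum.elim z r))))).symm
  rw [h4] at h3
  have e : hd (p ^ h) H δ' η i σ r0 x1 (fun x => b2 (g j x)) -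
      ex (fun z => ex (fun r : J → Bool => b2 (g j (Sum.elim z r)))) =
      (hd (p ^ h) H δ' η i σ r0 x1 (fun x => b2 (g j x)) -
        dist (StopAt H (65 / 128)) η H i G) + (dist (StopAt H (65 / 128)) η H i G -
      ex (fun z => ex (fun r : J → Bool => b2 (g j (Sum.elim z r))))) := by ring
  rw [e]
  refine (abs_add_le _ _).trans ?_
  have h5 : |hd (p ^ h) H δ' η i σ r0 x1 (fun x => b2 (g j x)) -
        dist (StopAt H (65 / 128)) η H i G| ≤ e2 + qf := by
    refine le_trans h2 ?_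
    linarith
  linarith

/-- Two distributions, one on each side of the promise, that constant depth circuits do not
distinguish. -/
theorem hard_core [Nonempty J] (hH : Orth H) {h s w n : ℕ} {p δ δ' V ε D e1 e2 qf : ℝ}
    (hP : Params (Fintype.card I) (Fintype.card J) n h s w p δ δ' η V ε D e1 e2 qf t)
    (hn : Fintype.card (I ⊕ I) = n)
    (r1 r0 : (I ⊕ I → Bool) → (J → Bool))
    (hK1 : ∀ z, Near H δ' z → |(2 : ℝ) * ntrue (r1 z) - Fintype.card J| ≤ D)
    (hK0 : ∀ z, Near H δ' z → |(2 : ℝ) * ntrue (r0 z) - Fintype.card J| ≤ D)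
    (Y Z : ((I ⊕ I) ⊕ J → Bool) → Prop)
    (hY : ∀ z, Near H δ' z → ∀ r, ntrue r = ntrue (r1 z) → Y (Sum.elim z r))
    (hZ : ∀ z, Near H δ' z → ∀ r, ntrue r = ntrue (r0 z) → Z (Sum.elim (negv z) r)) :
    ∃ μ1 μ0 : ((I ⊕ I) ⊕ J → Bool) → ℝ, IsDist μ1 ∧ IsDist μ0 ∧ (∀ x, ¬ Y x → μ1 x = 0) ∧
      (∀ x, ¬ Z x → μ0 x = 0) ∧
      ∀ (level : Fin s → ℕ) (g : Fin s → ((I ⊕ I) ⊕ J → Bool) → Bool), ACfam w level g →
        (∀ j, level j < h) → ∀ j,
        |∑ x, μ1 x * b2 (g j x) - ∑ x, μ0 x * b2 (g j x)| ≤ 2 * (e1 + e2 + qf) := by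
  have hw1 : (1 : ℝ) ≤ w := by exact_mod_cast hP.hw
  have hp := hP.hp
  have hp1 : p ≤ 1 := by
    have := hP.hpw
    nlinarith
  have hph0 : 0 ≤ p ^ h := by positivity
  have hph1 : p ^ h ≤ 1 := pow_le_one₀ hp.le hp1
  obtain ⟨i, hi, hsuc⟩ := dist_success hH hP
  -- a point near the promise
  obtain ⟨z0, hz0⟩ : ∃ z, Near H δ' z := by
    by_contra hcon
    push Not at hcon
    have e : (fun z => if Near H δ' z then (0 : ℝ) else 1) = fun _ => 1 := by
      funext z
      rw [if_neg (hcon z)]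
    rw [e, dist_const] at hsuc
    linarith [hP.hq1]
  have hc1 : ∀ (σ : (I ⊕ I → Bool) → (I ⊕ I → Bool)) (r0 : (I ⊕ I → Bool) → (J → Bool))
      (Y : ((I ⊕ I) ⊕ J → Bool) → Prop)
      (_ : ∀ z, Near H δ' z → ∀ r, ntrue r = ntrue (r0 z) → Y (Sum.elim (σ z) r)),
      ∃ μ : ((I ⊕ I) ⊕ J → Bool) → ℝ, IsDist μ ∧ (∀ x, ¬ Y x → μ x = 0) ∧
        ∀ F, hd (p ^ h) H δ' η i σ r0 (Sum.elim (σ z0) (r0 z0)) F = ∑ x, μ x * F x := by
    intro σ r0 Y hY
    apply exists_dist
    · exact hd_add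
    · exact hd_mul
    · intro F hF
      exact hd_nonneg hH hP.hη.le hP.hηB hph0 hph1 hF
    · apply hd_const_of
      · intros; rfl
      · rfl
    · intro F hF
      apply hd_const_of
      · intro z hz r hr
        exact hF _ (hY z hz r hr)
      · exact hF _ (hY z0 hz0 _ rfl)
  obtain ⟨μ1, hμ1, hs1, hr1⟩ := hc1 id r1 Y hY
  obtain ⟨μ0, hμ0, hs0, hr0⟩ := hc1 negv r0 Z hZ
  refine ⟨μ1, μ0, hμ1, hμ0, hs1, hs0, ?_⟩
  intro level g hAC hlev j
  rw [← hr1, ← hr0]
  have a1 := hd_fools (σ := Equiv.refl _) (x1 := Sum.elim (id z0) (r1 z0)) hH hP hn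
    (fun i => DTd.lit i) hK1 hi hsuc hAC hlev j
  have a2 := hd_fools (σ := negvEquiv) (x1 := Sum.elim (negv z0) (r0 z0)) hH hP hn
    (by
      intro i
      rcases i with i | k
      · simpa [negvEquiv, Function.Involutive.toPerm, negv] using DTd.lit (Sum.inl i : I ⊕ I)
      · simpa [negvEquiv, Function.Involutive.toPerm, negv] using
          (DTd.lit (Sum.inr k : I ⊕ I)).not) hK0 hi hsuc hAC hlev j
  have e1' : (⇑(Equiv.refl (I ⊕ I → Bool))) = id := rfl
  have e2' : (⇑(negvEquiv (I := I))) = negv := rfl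
  rw [e1'] at a1
  rw [e2'] at a2
  rw [abs_le] at a1 a2 ⊢
  constructor <;> linarith [a1.1, a1.2, a2.1, a2.2]

end

end Pool.Agent.Helper67.EQP
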