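import Mathlib

set_option autoImplicit false
set_option linter.unusedSectionVars false

/-!
The abstract stage construction of an oracle relative to which a language is immune.
-/

namespace Pool.Agent.Helper67.EQP

open Finset Function Classical

/-- State of the construction. -/
structure Stt (D : ℕ → Type) where
  A : (n : ℕ) → D n
  nn : ℕ
  cnt : ℕ
  kl : Finset ℕ

/-- The stage construction. -/
theorem immune {D : ℕ → Type} (L : (n : ℕ) → D n → Prop)
    (Acc : ℕ → ((n : ℕ) → D n) → ℕ → Prop) (A0 : (n : ℕ) → D n)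
    (loc : ∀ i n, ∃ b, ∀ A A' : (n : ℕ) → D n, (∀ n' < b, A n' = A' n') →
      (Acc i A n ↔ Acc i A' n))
    (stage : ∀ (A : (n : ℕ) → D n) (q : ℕ) (kl : Finset ℕ) (n0 : ℕ),
      ∃ (n : ℕ) (A' : (n : ℕ) → D n), n0 ≤ n ∧
      (∀ n' < n0, A' n' = A n') ∧ (∀ n', n0 ≤ n' → n' ≠ n → ¬ L n' (A' n')) ∧
      ((L n (A' n) ∧ ∀ i < q, i ∉ kl → ¬ Acc i A' n) ∨
        (¬ L n (A' n) ∧ ∃ i < q, i ∉ kl ∧ Acc i A' n))) :
    ∃ A : (n : ℕ) → D n, {n | L n (A n)}.Infinite ∧
      ∀ i, {n | Acc i A n} ⊆ {n | L n (A n)} → {n | Acc i A n}.Finite := by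
  choose bd hbd0 using loc
  let R : Stt D → ℕ → ℕ → Stt D → Prop := fun S i n S' =>
    S.nn ≤ n ∧ (∀ n' < S.nn, S'.A n' = S.A n') ∧ n < S'.nn ∧
      (∀ i < S.cnt, bd i n ≤ S'.nn) ∧
      (∀ n', S.nn ≤ n' → n' ≠ n → ¬ L n' (S'.A n')) ∧
      ((L n (S'.A n) ∧ S'.cnt = S.cnt + 1 ∧ S'.kl = S.kl ∧
          ∀ i < S.cnt, i ∉ S.kl → ¬ Acc i S'.A n) ∨
        (¬ L n (S'.A n) ∧ S'.cnt = S.cnt ∧ i < S.cnt ∧ i ∉ S.kl ∧ S'.kl = insert i S.kl ∧
          Acc i S'.A n))
  have htot : ∀ S : Stt D, ∃ (S' : Stt D) (i n : ℕ), R S i n S' := by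
    intro S
    obtain ⟨n, A', h1, h2, h3, h4⟩ := stage S.A S.cnt S.kl S.nn
    set B := max (n + 1) ((range S.cnt).sup (fun i => bd i n)) with hB
    have hB1 : n < B := lt_of_lt_of_le (Nat.lt_succ_self n) (le_max_left _ _)
    have hB2 : ∀ i < S.cnt, bd i n ≤ B := fun i hi =>
      le_trans (Finset.le_sup (f := fun i => bd i n) (mem_range.mpr hi)) (le_max_right _ _)
    rcases h4 with ⟨h4, h5⟩ | ⟨h4, i, hi, hik, hacc⟩
    · exact ⟨⟨A', B, S.cnt + 1, S.kl⟩, 0, n, h1, h2, hB1, hB2, h3, Or.inl ⟨h4, rfl, rfl, h5⟩⟩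
    · exact ⟨⟨A', B, S.cnt, insert i S.kl⟩, i, n, h1, h2, hB1, hB2, h3,
        Or.inr ⟨h4, rfl, hi, hik, rfl, hacc⟩⟩
  choose nx hnx using htot
  let S0 : Stt D := ⟨A0, 0, 0, ∅⟩
  let f : ℕ → Stt D := fun t => nx^[t] S0
  have hf0 : f 0 = S0 := rfl
  have hfs : ∀ t, f (t + 1) = nx (f t) := fun t => Function.iterate_succ_apply' nx t S0
  have hstep : ∀ t, ∃ (i n : ℕ), R (f t) i n (f (t + 1)) := by
    intro t
    rw [hfs]
    exact hnx (f t)
  choose ki ns hR using hstep
  have hnn1 : ∀ t, (f t).nn ≤ ns t := fun t => (hR t).1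
  have hAt : ∀ t, ∀ n' < (f t).nn, (f (t + 1)).A n' = (f t).A n' := fun t => (hR t).2.1
  have hnn2 : ∀ t, ns t < (f (t + 1)).nn := fun t => (hR t).2.2.1
  have hbd : ∀ t, ∀ i < (f t).cnt, bd i (ns t) ≤ (f (t + 1)).nn := fun t => (hR t).2.2.2.1
  have hLno : ∀ t, ∀ n', (f t).nn ≤ n' → n' ≠ ns t → ¬ L n' ((f (t + 1)).A n') :=
    fun t => (hR t).2.2.2.2.1
  have hcase := fun t => (hR t).2.2.2.2.2
  have hmono : ∀ t, (f t).nn < (f (t + 1)).nn := fun t => (hnn1 t).trans_lt (hnn2 t)
  have hnn_ge : ∀ t, t ≤ (f t).nn := by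
    intro t
    induction t with
    | zero => exact Nat.zero_le _
    | succ t ih => exact Nat.succ_le_of_lt (ih.trans_lt (hmono t))
  have hnn_mono : ∀ t d, (f t).nn ≤ (f (t + d)).nn := by
    intro t d
    induction d with
    | zero => exact le_rfl
    | succ d ih => exact ih.trans (hmono (t + d)).le
  have hstab : ∀ t d n, n < (f t).nn → (f (t + d)).A n = (f t).A n := by
    intro t d n hn
    induction d with
    | zero => rfl
    | succ d ih =>
      rw [← add_assoc, hAt (t + d) n (hn.trans_le (hnn_mono t d))]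
      exact ih
  let A : (n : ℕ) → D n := fun n => (f (n + 1)).A n
  have hA : ∀ t n, n < (f t).nn → A n = (f t).A n := by
    intro t n hn
    rcases Nat.le_total t (n + 1) with h | h
    · obtain ⟨d, hd⟩ := Nat.exists_eq_add_of_le h
      change (f (n + 1)).A n = _
      rw [hd]
      exact hstab t d n hn
    · obtain ⟨d, hd⟩ := Nat.exists_eq_add_of_le h
      have h1 : n < (f (n + 1)).nn := lt_of_lt_of_le (Nat.lt_succ_self n) (hnn_ge (n + 1))
      rw [hd]
      exact (hstab (n + 1) d n h1).symm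
  have hAns : ∀ t, A (ns t) = (f (t + 1)).A (ns t) := fun t => hA (t + 1) (ns t) (hnn2 t)
  have hyes' : ∀ t n, n < (f t).nn → L n (A n) → ∃ s, n = ns s := by
    intro t
    induction t with
    | zero =>
      intro n hn _
      exact absurd hn (Nat.not_lt_zero n)
    | succ t ih =>
      intro n hn hy
      by_cases h : n < (f t).nn
      · exact ih n h hy
      · by_cases h' : n = ns t
        · exact ⟨t, h'⟩
        · exfalso
          apply hLno t n (by omega) h'
          rw [← hA (t + 1) n hn]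
          exact hy
  have hyes : ∀ n, L n (A n) → ∃ s, n = ns s := fun n hy =>
    hyes' (n + 1) n (lt_of_lt_of_le (Nat.lt_succ_self n) (hnn_ge (n + 1))) hy
  have hcong : ∀ t, ∀ i < (f t).cnt, (Acc i A (ns t) ↔ Acc i (f (t + 1)).A (ns t)) := by
    intro t i hi
    apply hbd0
    intro n' hn'
    exact hA (t + 1) n' (hn'.trans_le (hbd t i hi))
  have hcntmono : ∀ t, (f t).cnt ≤ (f (t + 1)).cnt := by
    intro t
    rcases hcase t with ⟨_, h, _⟩ | ⟨_, h, _⟩ <;> omega
  -- infinitely many yes-stages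
  have hinf : ∀ T, ∃ t, T ≤ t ∧ L (ns t) (A (ns t)) := by
    intro T
    by_contra hcon
    push Not at hcon
    have hN : ∀ t, T ≤ t → ((f (t + 1)).cnt = (f t).cnt ∧ ki t < (f t).cnt ∧ ki t ∉ (f t).kl ∧
        (f (t + 1)).kl = insert (ki t) (f t).kl) := by
      intro t ht
      rcases hcase t with h1 | ⟨_, h1, h2, h3, h4, _⟩
      · exact absurd (by rw [hAns]; exact h1.1) (hcon t ht)
      · exact ⟨h1, h2, h3, h4⟩
    have hcnt : ∀ d, (f (T + d)).cnt = (f T).cnt := by
      intro d
      induction d with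
      | zero => rfl
      | succ d ih =>
        rw [← add_assoc, (hN (T + d) (by omega)).1]
        exact ih
    have hcard : ∀ d, d ≤ ((f (T + d)).kl ∩ range (f T).cnt).card := by
      intro d
      induction d with
      | zero => exact Nat.zero_le _
      | succ d ih =>
        obtain ⟨_, h2, h3, h4⟩ := hN (T + d) (by omega)
        rw [hcnt d] at h2
        have e : (f (T + (d + 1))).kl ∩ range (f T).cnt =
            insert (ki (T + d)) ((f (T + d)).kl ∩ range (f T).cnt) := by
          rw [← add_assoc, h4]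
          ext a
          simp only [mem_inter, mem_insert, mem_range]
          constructor
          · rintro ⟨rfl | h, h'⟩
            · exact Or.inl rfl
            · exact Or.inr ⟨h, h'⟩
          · rintro (rfl | ⟨h, h'⟩)
            · exact ⟨Or.inl rfl, h2⟩
            · exact ⟨Or.inr h, h'⟩
        rw [e, card_insert_of_notMem]
        · omega
        · intro h
          exact h3 (mem_inter.mp h).1
    have h1 := hcard ((f T).cnt + 1)
    have h2 : ((f (T + ((f T).cnt + 1))).kl ∩ range (f T).cnt).card ≤ (range (f T).cnt).card :=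
      card_le_card inter_subset_right
    rw [card_range] at h2
    omega
  have hcntmono' : ∀ t d, (f t).cnt ≤ (f (t + d)).cnt := by
    intro t d
    induction d with
    | zero => exact le_rfl
    | succ d ih => exact ih.trans (hcntmono (t + d))
  have hcntinf : ∀ i, ∃ T, ∀ t, T ≤ t → i < (f t).cnt := by
    intro i
    induction i with
    | zero =>
      obtain ⟨t, _, ht⟩ := hinf 0
      refine ⟨t + 1, fun t' ht' => ?_⟩
      obtain ⟨d, rfl⟩ := Nat.exists_eq_add_of_le ht'
      have h1 : (f (t + 1)).cnt = (f t).cnt + 1 := by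
        rcases hcase t with h | h
        · exact h.2.1
        · exact absurd (by rw [← hAns]; exact ht) h.1
      have := hcntmono' (t + 1) d
      omega
    | succ i ih =>
      obtain ⟨T, hT⟩ := ih
      obtain ⟨t, htT, ht⟩ := hinf T
      refine ⟨t + 1, fun t' ht' => ?_⟩
      obtain ⟨d, rfl⟩ := Nat.exists_eq_add_of_le ht'
      have h1 : (f (t + 1)).cnt = (f t).cnt + 1 := by
        rcases hcase t with h | h
        · exact h.2.1
        · exact absurd (by rw [← hAns]; exact ht) h.1
      have := hcntmono' (t + 1) d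
      have := hT t htT
      omega
  have hkl : ∀ t, ∀ i ∈ (f t).kl, ∃ s, ki s = i ∧ ¬ L (ns s) (A (ns s)) ∧ i < (f s).cnt ∧
      Acc i (f (s + 1)).A (ns s) := by
    intro t
    induction t with
    | zero =>
      intro i hi
      rw [hf0] at hi
      exact absurd hi (Finset.notMem_empty i)
    | succ t ih =>
      intro i hi
      rcases hcase t with ⟨_, _, h, _⟩ | ⟨h1, _, h2, _, h3, h4⟩
      · rw [h] at hi
        exact ih i hi
      · rw [h3] at hi
        rcases mem_insert.mp hi with rfl | hi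
        · refine ⟨t, rfl, ?_, h2, h4⟩
          rw [hAns]
          exact h1
        · exact ih i hi
  refine ⟨A, ?_, ?_⟩
  · intro hfin
    obtain ⟨b, hb⟩ := hfin.bddAbove
    obtain ⟨t, hbt, ht⟩ := hinf (b + 1)
    have h1 : ns t ∈ {n | L n (A n)} := ht
    have h2 := hb h1
    have h3 := hnn_ge t
    have h4 := hnn1 t
    omega
  · intro i hsub
    obtain ⟨T, hT⟩ := hcntinf i
    by_cases hkilled : ∃ t, i ∈ (f t).kl
    · exfalso
      obtain ⟨t, ht⟩ := hkilled
      obtain ⟨s, _, hno, hi, hacc⟩ := hkl t i ht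
      have h1 : ns s ∈ {n | Acc i A n} := (hcong s i hi).mpr hacc
      exact hno (hsub h1)
    · push Not at hkilled
      apply Set.Finite.subset (Set.finite_le_nat ((range T).sup ns))
      intro n hacc
      obtain ⟨s, rfl⟩ := hyes n (hsub hacc)
      rcases Nat.lt_or_ge s T with hs | hs
      · exact Finset.le_sup (f := ns) (mem_range.mpr hs)
      · exfalso
        rcases hcase s with ⟨_, _, _, h⟩ | h
        · exact h i (hT s hs) (hkilled s) ((hcong s i (hT s hs)).mp hacc)
        · have h2 : L (ns s) (A (ns s)) := hsub hacc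
          rw [hAns] at h2
          exact h.1 h2

end Pool.Agent.Helper67.EQP
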