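import Pool.Agent.Helper67.EQP.Bridge

set_option autoImplicit false
set_option linter.unusedSectionVars false

/-!
Explicit instances.
-/

namespace Pool.Agent.Helper67.EQP

open Finset Function Classical

theorem spin_xor (a b : Bool) : spin (xor a b) = spin a * spin b := by
  cases a <;> cases b <;> simp [spin]

theorem spin_sq (a : Bool) : spin a * spin a = 1 := by
  cases a <;> simp [spin]

/-- The inner product bent function. -/
def ub : (n : ℕ) → (Fin n → Bool) → Bool
  | 0, _ => false
  | 1, _ => false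
  | n + 2, x => xor (x 0 && x 1) (ub n (fun i => x i.succ.succ))

theorem sum_cons {n : ℕ} (F : (Fin (n + 1) → Bool) → ℤ) :
    ∑ x, F x = ∑ b : Bool, ∑ y : Fin n → Bool, F (Fin.cons b y) := by
  rw [← Fintype.sum_prod_type' (fun (b : Bool) (y : Fin n → Bool) => F (Fin.cons b y))]
  exact (Fintype.sum_equiv (Fin.consEquiv fun _ : Fin (n + 1) => Bool) _ _ (fun p => rfl)).symm

theorem had_cons {n : ℕ} (a b : Bool) (x y : Fin n → Bool) :
    had (Fin.cons a x) (Fin.cons b y) = (if a && b then -1 else 1) * had x y := by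
  unfold had
  rw [Fin.prod_univ_succ]
  simp

theorem ub_cons {n : ℕ} (a b : Bool) (x : Fin n → Bool) :
    ub (n + 2) (Fin.cons a (Fin.cons b x)) = xor (a && b) (ub n x) := by
  rw [ub]
  rfl

/-- Forrelation sum of the bent function with itself. -/
theorem bent_sum (n : ℕ) :
    ∑ i : Fin (n + 2) → Bool, ∑ k : Fin (n + 2) → Bool,
      had i k * spin (ub (n + 2) i) * spin (ub (n + 2) k) =
    8 * ∑ i : Fin n → Bool, ∑ k : Fin n → Bool, had i k * spin (ub n i) * spin (ub n k) := by
  have h : ∀ (a b c d : Bool), ∑ x : Fin n → Bool, ∑ y : Fin n → Bool,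
      had (Fin.cons a (Fin.cons b x) : Fin (n + 2) → Bool) (Fin.cons c (Fin.cons d y)) *
        spin (ub (n + 2) (Fin.cons a (Fin.cons b x))) *
        spin (ub (n + 2) (Fin.cons c (Fin.cons d y))) =
      ((if a && c then -1 else 1) * (if b && d then -1 else 1) * spin (a && b) * spin (c && d)) *
        ∑ x : Fin n → Bool, ∑ y : Fin n → Bool, had x y * spin (ub n x) * spin (ub n y) := by
    intro a b c d
    rw [mul_sum]
    apply sum_congr rfl
    intro x _
    rw [mul_sum]
    apply sum_congr rfl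
    intro y _
    rw [had_cons, had_cons, ub_cons, ub_cons, spin_xor, spin_xor]
    ring
  rw [sum_cons]
  simp_rw [sum_cons (n := n)]
  have e : ∀ a b : Bool, ∑ x : Fin n → Bool, ∑ k : Fin (n + 2) → Bool,
      had (Fin.cons a (Fin.cons b x) : Fin (n + 2) → Bool) k *
        spin (ub (n + 2) (Fin.cons a (Fin.cons b x))) * spin (ub (n + 2) k) =
      ∑ c : Bool, ∑ d : Bool, ∑ x : Fin n → Bool, ∑ y : Fin n → Bool,
      had (Fin.cons a (Fin.cons b x) : Fin (n + 2) → Bool) (Fin.cons c (Fin.cons d y)) *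
        spin (ub (n + 2) (Fin.cons a (Fin.cons b x))) *
        spin (ub (n + 2) (Fin.cons c (Fin.cons d y))) := by
    intro a b
    simp_rw [sum_cons (n := n + 1)]
    rw [sum_comm]
    apply sum_congr rfl
    intro c _
    simp_rw [sum_cons (n := n)]
    rw [sum_comm]
  simp_rw [e, h]
  simp only [Fintype.sum_bool, spin, Bool.and_true, Bool.and_false, Bool.false_eq_true, if_true,
    if_false]
  ring

theorem last_sum (n : ℕ) :
    ∑ i : Fin (n + 2) → Bool, ∑ k : Fin (n + 2) → Bool,
      had i k * spin (ub (n + 2) i) * spin (ub n (fun j => k j.succ.succ)) =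
    4 * ∑ i : Fin n → Bool, ∑ k : Fin n → Bool, had i k * spin (ub n i) * spin (ub n k) := by
  have h : ∀ (a b c d : Bool), ∑ x : Fin n → Bool, ∑ y : Fin n → Bool,
      had (Fin.cons a (Fin.cons b x) : Fin (n + 2) → Bool) (Fin.cons c (Fin.cons d y)) *
        spin (ub (n + 2) (Fin.cons a (Fin.cons b x))) *
        spin (ub n (fun j => (Fin.cons c (Fin.cons d y) : Fin (n + 2) → Bool) j.succ.succ)) =
      ((if a && c then -1 else 1) * (if b && d then -1 else 1) * spin (a && b)) *
        ∑ x : Fin n → Bool, ∑ y : Fin n → Bool, had x y * spin (ub n x) * spin (ub n y) := by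
    intro a b c d
    rw [mul_sum]
    apply sum_congr rfl
    intro x _
    rw [mul_sum]
    apply sum_congr rfl
    intro y _
    rw [had_cons, had_cons, ub_cons, spin_xor]
    have : (fun j : Fin n => (Fin.cons c (Fin.cons d y) : Fin (n + 2) → Bool) j.succ.succ) = y := by
      funext j
      rfl
    rw [this]
    ring
  rw [sum_cons]
  simp_rw [sum_cons (n := n)]
  have e : ∀ a b : Bool, ∑ x : Fin n → Bool, ∑ k : Fin (n + 2) → Bool,
      had (Fin.cons a (Fin.cons b x) : Fin (n + 2) → Bool) k *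
        spin (ub (n + 2) (Fin.cons a (Fin.cons b x))) *
        spin (ub n (fun j => k j.succ.succ)) =
      ∑ c : Bool, ∑ d : Bool, ∑ x : Fin n → Bool, ∑ y : Fin n → Bool,
      had (Fin.cons a (Fin.cons b x) : Fin (n + 2) → Bool) (Fin.cons c (Fin.cons d y)) *
        spin (ub (n + 2) (Fin.cons a (Fin.cons b x))) *
        spin (ub n (fun j => (Fin.cons c (Fin.cons d y) : Fin (n + 2) → Bool) j.succ.succ)) := by
    intro a b
    simp_rw [sum_cons (n := n + 1)]
    rw [sum_comm]
    apply sum_congr rfl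
    intro c _
    simp_rw [sum_cons (n := n)]
    rw [sum_comm]
  simp_rw [e, h]
  simp only [Fintype.sum_bool, spin, Bool.and_true, Bool.and_false, Bool.false_eq_true, if_true,
    if_false]
  ring

theorem bent_even (m : ℕ) :
    ∑ i : Fin (2 * m) → Bool, ∑ k : Fin (2 * m) → Bool,
      had i k * spin (ub (2 * m) i) * spin (ub (2 * m) k) = 8 ^ m := by
  induction m with
  | zero =>
    simp [had, ub, spin]
  | succ m ih =>
    have := bent_sum (2 * m)
    rw [ih] at this
    refine Eq.trans this ?_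
    rw [pow_succ]
    ring

/-- A pair of functions of forrelation exactly `1/2`. -/
theorem exists_half (m : ℕ) :
    ∃ z : (Fin (2 * m + 4) → Bool) ⊕ (Fin (2 * m + 4) → Bool) → Bool, fsc m z = 32 * 8 ^ m := by
  refine ⟨Sum.elim (ub (2 * m + 4)) (fun k => ub (2 * m + 2) (fun j => k j.succ.succ)), ?_⟩
  unfold fsc
  simp only [Sum.elim_inl, Sum.elim_inr]
  refine Eq.trans (last_sum (2 * m + 2)) ?_
  have := bent_even (m + 1)
  refine Eq.trans (congrArg (fun t => 4 * t) this) ?_
  rw [pow_succ]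
  ring

theorem exists_yes {m : ℕ} (hm : 0 < m) : ∃ x, Yes m x := by
  obtain ⟨m', rfl⟩ : ∃ m', m = m' + 1 := ⟨m - 1, by omega⟩
  obtain ⟨z, hz⟩ := exists_half (m' + 1)
  obtain ⟨r, hr⟩ := exists_ntrue (J := Fin (3 * (m' + 1)) → Bool) (K := 2 * 8 ^ m') (by
    rw [card_right, pow_succ]
    have : 0 < 8 ^ m' := by positivity
    omega)
  refine ⟨Sum.elim z r, ?_⟩
  unfold Yes
  rw [score_elim, hz, hr]
  push_cast
  rw [pow_succ]
  ring

theorem exists_no {m : ℕ} (hm : 0 < m) : ∃ x, No m x := by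
  obtain ⟨m', rfl⟩ : ∃ m', m = m' + 1 := ⟨m - 1, by omega⟩
  obtain ⟨z, hz⟩ := exists_half (m' + 1)
  obtain ⟨r, hr⟩ := exists_ntrue (J := Fin (3 * (m' + 1)) → Bool) (K := 6 * 8 ^ m') (by
    rw [card_right, pow_succ]
    have : 0 < 8 ^ m' := by positivity
    omega)
  refine ⟨Sum.elim (negv z) r, ?_⟩
  unfold No
  rw [score_elim, fsc_negv, hz, hr]
  push_cast
  rw [pow_succ]
  ring

end Pool.Agent.Helper67.EQP
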