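import Pool.Agent.Helper67.EQP.Inst

set_option autoImplicit false
set_option linter.unusedSectionVars false

/-!
The lower bound in its final form.
-/

namespace Pool.Agent.Helper67.EQP

open Finset Function Classical

/-- The point mass. -/
theorem isDist_single {Ω : Type} [Fintype Ω] [DecidableEq Ω] (a : Ω) :
    IsDist (fun x => if x = a then (1 : ℝ) else 0) := by
  refine ⟨fun x => ?_, by simp⟩
  beta_reduce
  split_ifs <;> norm_num

theorem dist_diff_le_one {Ω : Type} [Fintype Ω] {μ1 μ0 : Ω → ℝ} (h1 : IsDist μ1)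
    (h0 : IsDist μ0) (f : Ω → Bool) : |∑ x, μ1 x * b2 (f x) - ∑ x, μ0 x * b2 (f x)| ≤ 1 := by
  have key : ∀ μ : Ω → ℝ, IsDist μ → 0 ≤ ∑ x, μ x * b2 (f x) ∧ ∑ x, μ x * b2 (f x) ≤ 1 := by
    intro μ hμ
    constructor
    · exact sum_nonneg fun x _ => mul_nonneg (hμ.1 x) (b2_nonneg _)
    · rw [← hμ.2]
      apply sum_le_sum
      intro x _
      have := mul_le_mul_of_nonneg_left (b2_le_one (f x)) (hμ.1 x)
      linarith
  have k1 := key μ1 h1
  have k0 := key μ0 h0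
  rw [abs_le]
  constructor <;> linarith [k1.1, k1.2, k0.1, k0.2]

/-- The average case lower bound, for families of functions. -/
theorem avg_fam (h m k s : ℕ) (hm : 0 < m) (hs : s ≤ 2 ^ k) :
    ∃ μ1 μ0 : (Idx m → Bool) → ℝ, IsDist μ1 ∧ IsDist μ0 ∧ (∀ x, ¬ Yes m x → μ1 x = 0) ∧
      (∀ x, ¬ No m x → μ0 x = 0) ∧
      ∀ (level : Fin s → ℕ) (g : Fin s → (Idx m → Bool) → Bool), ACfam (k + 5 * m) level g →
        (∀ j, level j < h) → ∀ j,
        |∑ x, μ1 x * b2 (g j x) - ∑ x, μ0 x * b2 (g j x)| ≤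
          160 * (32 * (k + 5 * m)) ^ (h + 1) / Real.sqrt (2 ^ m) := by
  set w := k + 5 * m with hw
  have hw0 : 0 < w := by omega
  set A := w * (32 * w) ^ h with hA
  have hA0 : 0 < A := Nat.mul_pos hw0 (Nat.pow_pos (by omega))
  set X := Nat.sqrt (2 ^ m / A ^ 2) with hX
  have hX1 : (A * X) ^ 2 ≤ 2 ^ m := by
    have h1 : X ^ 2 ≤ 2 ^ m / A ^ 2 := Nat.sqrt_le' _
    calc (A * X) ^ 2 = A ^ 2 * X ^ 2 := by ring
      _ ≤ A ^ 2 * (2 ^ m / A ^ 2) := Nat.mul_le_mul_left _ h1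
      _ ≤ 2 ^ m := Nat.mul_div_le _ _
  have hX2 : 2 ^ m < (A * (X + 1)) ^ 2 := by
    have h1 : 2 ^ m / A ^ 2 < (X + 1) ^ 2 := Nat.lt_succ_sqrt' _
    have h2 : 2 ^ m < (X + 1) ^ 2 * A ^ 2 :=
      (Nat.div_lt_iff_lt_mul (by positivity)).mp h1
    calc 2 ^ m < (X + 1) ^ 2 * A ^ 2 := h2
      _ = _ := by ring
  set q := Real.sqrt (2 ^ m) with hq
  have hq0 : 0 < q := Real.sqrt_pos.mpr (by positivity)
  have hqX : q < A * (X + 1) := by
    rw [hq, Real.sqrt_lt' (by positivity)]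
    exact_mod_cast hX2
  have hbound : 160 * (32 * ((k : ℝ) + 5 * m)) ^ (h + 1) / q = 5120 * A / q := by
    rw [hA, hw]
    push_cast
    ring
  have hAr : (0 : ℝ) < A := by exact_mod_cast hA0
  rcases Nat.lt_or_ge X 2000 with hX3 | hX3
  · obtain ⟨y, hy⟩ := exists_yes hm
    obtain ⟨n, hn⟩ := exists_no hm
    refine ⟨fun x => if x = y then 1 else 0, fun x => if x = n then 1 else 0, isDist_single y,
      isDist_single n, ?_, ?_, ?_⟩
    · intro x hx
      beta_reduce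
      rw [if_neg]
      rintro rfl
      exact hx hy
    · intro x hx
      beta_reduce
      rw [if_neg]
      rintro rfl
      exact hx hn
    · intro level g _ _ j
      refine (dist_diff_le_one (isDist_single y) (isDist_single n) (g j)).trans ?_
      rw [hbound, one_le_div hq0]
      have h2 : (X : ℝ) + 1 ≤ 2000 := by exact_mod_cast hX3
      have h3 : (A : ℝ) * (X + 1) ≤ A * 2000 := mul_le_mul_of_nonneg_left h2 hAr.le
      linarith
  · obtain ⟨μ1, μ0, h1, h0, hs1, hs0, hb⟩ := avg_of (h := h) (s := s) hw hm hs hX3 hX1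
    refine ⟨μ1, μ0, h1, h0, hs1, hs0, fun level g hg hl j => (hb level g hg hl j).trans ?_⟩
    rw [hbound]
    have hXr : (2000 : ℝ) ≤ X := by exact_mod_cast hX3
    rw [div_le_div_iff₀ (by linarith) hq0]
    have h3 : 2458 * q ≤ 2458 * (A * (X + 1)) := by linarith
    have h4 : (2458 : ℝ) * (X + 1) ≤ 5120 * X := by linarith
    have h5 := mul_le_mul_of_nonneg_left h4 hAr.le
    linarith

/-- The average case lower bound. -/
theorem average_case (h d m k s : ℕ) (hm : 0 < m) (hd : d ≤ k + 5 * m) (hs : s ≤ 2 ^ k) :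
    ∃ μ1 μ0 : (Idx m → Bool) → ℝ, IsDist μ1 ∧ IsDist μ0 ∧ (∀ x, ¬ Yes m x → μ1 x = 0) ∧
      (∀ x, ¬ No m x → μ0 x = 0) ∧
      ∀ C : Circuit (Idx m) h d s, |C.accProb μ1 - C.accProb μ0| ≤
        160 * (32 * (k + 5 * m)) ^ (h + 1) / Real.sqrt (2 ^ m) := by
  obtain ⟨μ1, μ0, h1, h0, hs1, hs0, hb⟩ := avg_fam h m k s hm hs
  refine ⟨μ1, μ0, h1, h0, hs1, hs0, fun C => ?_⟩
  rw [accProb_eq, accProb_eq]
  exact hb (fun j => (C.level j : ℕ)) (fun j x => decide (C.Fires x j)) (C.acfam.mono hd)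
    (fun j => (C.level j).isLt) C.out

/-- The worst case lower bound, for families of functions. -/
theorem worst_fam {h m k s : ℕ} (hm : 0 < m) (hs : s ≤ 2 ^ k)
    (hlt : (160 * (32 * (k + 5 * m)) ^ (h + 1)) ^ 2 < 2 ^ m)
    {level : Fin s → ℕ} {g : Fin s → (Idx m → Bool) → Bool} (hg : ACfam (k + 5 * m) level g)
    (hl : ∀ j, level j < h) (j : Fin s) :
    ¬ ((∀ x, Yes m x → g j x = true) ∧ ∀ x, No m x → g j x = false) := by
  rintro ⟨hy, hn⟩
  obtain ⟨μ1, μ0, h1, h0, hs1, hs0, hb⟩ := avg_fam h m k s hm hs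
  have := hb level g hg hl j
  have e1 : ∑ x, μ1 x * b2 (g j x) = 1 := by
    rw [← h1.2]
    apply sum_congr rfl
    intro x _
    by_cases hx : Yes m x
    · rw [hy x hx]
      simp [b2]
    · rw [hs1 x hx, zero_mul]
  have e0 : ∑ x, μ0 x * b2 (g j x) = 0 := by
    apply sum_eq_zero
    intro x _
    by_cases hx : No m x
    · rw [hn x hx]
      simp [b2]
    · rw [hs0 x hx, zero_mul]
  rw [e1, e0, sub_zero, abs_one, one_le_div (Real.sqrt_pos.mpr (by positivity))] at this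
  have h2 : ((160 * (32 * ((k : ℝ) + 5 * m)) ^ (h + 1)) ^ 2 : ℝ) < 2 ^ m := by exact_mod_cast hlt
  have h3 := Real.lt_sqrt_of_sq_lt h2
  linarith

end Pool.Agent.Helper67.EQP
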