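import Pool.Agent.Helper67.EQP.Hard

set_option autoImplicit false
set_option linter.unusedSectionVars false

/-!
Choice of the parameters.
-/

namespace Pool.Agent.Helper67.EQP

open Finset Function Classical

/-- The real numbers entering the estimates. -/
structure NC (a W Q x T y z c : ℝ) : Prop where
  W1 : 1 ≤ W
  Q1 : 1 ≤ Q
  x1 : 2000 ≤ x
  big : (W * Q * x) * (W * Q * x) ≤ a
  y0 : 0 ≤ y
  z0 : 0 ≤ z
  c0 : 0 ≤ c
  c1 : c ≤ 1
  yzc : y * (z * c) ≤ Q / a ^ 5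
  T_eq : T = 10 ^ 12 * x ^ 2 * (a ^ 3) ^ 3 * (W * Q) ^ 3 * (1 + y * z)

/-- Derived facts. -/
structure ND (a W Q x T y z : ℝ) : Prop where
  R1 : 1 ≤ W * Q
  QR : Q ≤ W * Q
  WR : W ≤ W * Q
  Rx : x ≤ W * Q * x
  Rx2000 : W * Q * x * 2000 ≤ a
  Rxx : W * Q * x * x ≤ a
  R2 : (W * Q) ^ 2 * x * x ≤ a
  xx : x * x ≤ a
  R4 : W * Q * 4000000 ≤ a
  a6 : 4000000 ≤ a
  Qx : Q * x ≤ a
  QxQx : (Q * x) * (Q * x) ≤ a
  a3 : 4 * a ≤ a ^ 3
  a23 : a ^ 2 ≤ a ^ 3
  a15 : a ≤ a ^ 5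
  a2 : 1 ≤ a ^ 2
  T1 : 10 ^ 12 * x ^ 2 * (a ^ 3) ^ 3 * (W * Q) ^ 3 * (y * z) ≤ T
  T3 : 10 ^ 12 * (x ^ 2 * a ^ 3 * (W * Q) ^ 3) ≤ T
  T4 : 10 ^ 12 * (a ^ 3 * (W * Q)) ≤ T
  T5 : 10 ^ 12 * (x ^ 2 * a ^ 3) ≤ T
  T6 : 10 ^ 12 * a ^ 3 ≤ T
  T0 : 0 < T

theorem NC.nd {a W Q x T y z c : ℝ} (N : NC a W Q x T y z c) : ND a W Q x T y z := by
  obtain ⟨W1, Q1, x1, big, y0, z0, c0, c1, yzc, T_eq⟩ := N
  have R1 : 1 ≤ W * Q := one_le_mul_of_one_le_of_one_le W1 Q1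
  have QR : Q ≤ W * Q := by nlinarith only [W1, Q1]
  have WR : W ≤ W * Q := by nlinarith only [W1, Q1]
  clear yzc c0 c1
  set R := W * Q with hR
  have hx0 : 0 < x := by linarith
  have Rx : x ≤ R * x := by nlinarith only [R1, hx0]
  have h2000 : 2000 ≤ R * x := by linarith
  have Rx2000 : R * x * 2000 ≤ a := by nlinarith only [h2000, big]
  have Rxx : R * x * x ≤ a := by
    have : R * x * x ≤ R * x * (R * x) := mul_le_mul_of_nonneg_left Rx (by linarith)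
    linarith
  have xx : x * x ≤ a := by
    have : x * x ≤ R * x * x := mul_le_mul_of_nonneg_right Rx hx0.le
    linarith
  have hxx : 4000000 ≤ x * x := by nlinarith only [x1]
  have R4 : R * 4000000 ≤ a := by
    have : R * 4000000 ≤ R * (x * x) := mul_le_mul_of_nonneg_left hxx (by linarith)
    linarith
  have a6 : 4000000 ≤ a := by linarith
  have ha0 : 0 < a := by linarith
  have ha1 : 1 ≤ a := by linarith
  have hQ0 : 0 < Q := by linarith
  have Qx1 : Q * x ≤ R * x := mul_le_mul_of_nonneg_right QR hx0.le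
  have Qx : Q * x ≤ a := by nlinarith only [Qx1, Rx2000, h2000]
  have QxQx : (Q * x) * (Q * x) ≤ a := by
    have : (Q * x) * (Q * x) ≤ (R * x) * (R * x) :=
      mul_le_mul Qx1 Qx1 (by positivity) (by linarith)
    linarith
  have a22 : 4 ≤ a ^ 2 := by nlinarith only [a6]
  have a3 : 4 * a ≤ a ^ 3 := by
    have h3 := mul_le_mul_of_nonneg_right a22 ha0.le
    linarith [show a ^ 2 * a = a ^ 3 by ring]
  have a23 : a ^ 2 ≤ a ^ 3 := pow_le_pow_right₀ ha1 (by norm_num)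
  have a15 : a ≤ a ^ 5 := by
    have : a ^ 1 ≤ a ^ 5 := pow_le_pow_right₀ ha1 (by norm_num)
    simpa using this
  have hR0 : 0 ≤ R := by linarith
  have ha3 : 0 ≤ a ^ 3 := by positivity
  have ha33 : a ^ 3 ≤ (a ^ 3) ^ 3 := by
    have : (a ^ 3) ^ 1 ≤ (a ^ 3) ^ 3 := pow_le_pow_right₀ (one_le_pow₀ ha1) (by norm_num)
    simpa using this
  have hyz : 0 ≤ y * z := by positivity
  have hbase : 0 ≤ 10 ^ 12 * x ^ 2 * (a ^ 3) ^ 3 * R ^ 3 := by positivity
  have hT0 : 10 ^ 12 * x ^ 2 * (a ^ 3) ^ 3 * R ^ 3 ≤ T := by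
    rw [T_eq]
    have := mul_le_mul_of_nonneg_left (show 1 ≤ 1 + y * z by linarith) hbase
    linarith
  have T1 : 10 ^ 12 * x ^ 2 * (a ^ 3) ^ 3 * R ^ 3 * (y * z) ≤ T := by
    rw [T_eq]
    exact mul_le_mul_of_nonneg_left (show y * z ≤ 1 + y * z by linarith) hbase
  have T3 : 10 ^ 12 * (x ^ 2 * a ^ 3 * R ^ 3) ≤ T := by
    refine le_trans ?_ hT0
    calc 10 ^ 12 * (x ^ 2 * a ^ 3 * R ^ 3) ≤ 10 ^ 12 * (x ^ 2 * (a ^ 3) ^ 3 * R ^ 3) := by gcongr
      _ = _ := by ring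
  have hx2 : 1 ≤ x ^ 2 := by nlinarith only [hxx]
  have hR31 : 1 ≤ R ^ 3 := one_le_pow₀ R1
  have hRR3 : R ≤ R ^ 3 := by
    have : R ^ 1 ≤ R ^ 3 := pow_le_pow_right₀ R1 (by norm_num)
    simpa using this
  have T4 : 10 ^ 12 * (a ^ 3 * R) ≤ T := by
    refine le_trans ?_ T3
    have h1 : a ^ 3 * R ≤ a ^ 3 * R ^ 3 := mul_le_mul_of_nonneg_left hRR3 ha3
    have h2 : 0 ≤ a ^ 3 * R ^ 3 := by positivity
    have h3 := mul_le_mul_of_nonneg_right hx2 h2
    linarith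
  have T5 : 10 ^ 12 * (x ^ 2 * a ^ 3) ≤ T := by
    refine le_trans ?_ T3
    have h2 : 0 ≤ x ^ 2 * a ^ 3 := by positivity
    have h3 := mul_le_mul_of_nonneg_left hR31 h2
    linarith
  have T6 : 10 ^ 12 * a ^ 3 ≤ T := by
    have h3 := mul_le_mul_of_nonneg_left R1 ha3
    linarith
  have R2 : R ^ 2 * x * x ≤ a := by
    have : R ^ 2 * x * x = R * x * (R * x) := by ring
    linarith
  exact ⟨R1, QR, WR, Rx, Rx2000, Rxx, R2, xx, R4, a6, Qx, QxQx, a3, a23, a15,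
    by linarith, T1, T3, T4, T5, T6, by
      have : 0 < 10 ^ 12 * a ^ 3 := by positivity
      linarith⟩

section

variable {a W Q x T y z c : ℝ}

theorem num_he1 (N : NC a W Q x T y z c) :
    x * T ^ 2 * (W ^ 2 * ((1 / T / (1 / Q)) ^ 2 * (9 * (1 / (4 * a)))) +
        (W * (1 / T / (1 / Q) * (3 * (4 * a)))) ^ 3 + y * (z * c) *
        ((32 * a ^ 2) ^ 2 * ((1 / T / (1 / Q)) ^ 2 * (9 * (1 / (4 * a)))) +
          (32 * a ^ 2 * (1 / T / (1 / Q) * (3 * (4 * a)))) ^ 3)) ≤ 3 / x := by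
  have D := N.nd
  have hx0 : 0 < x := by linarith [N.x1]
  have ha0 : 0 < a := by linarith [D.a6]
  have hT := D.T0
  have hQ0 : 0 < Q := by linarith [N.Q1]
  have hW0 : 0 < W := by linarith [N.W1]
  have hy := N.y0
  have hz := N.z0
  have hc := N.c0
  have etot : x * T ^ 2 * (W ^ 2 * ((1 / T / (1 / Q)) ^ 2 * (9 * (1 / (4 * a)))) +
        (W * (1 / T / (1 / Q) * (3 * (4 * a)))) ^ 3 + y * (z * c) *
        ((32 * a ^ 2) ^ 2 * ((1 / T / (1 / Q)) ^ 2 * (9 * (1 / (4 * a)))) +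
          (32 * a ^ 2 * (1 / T / (1 / Q) * (3 * (4 * a)))) ^ 3)) =
        9 * ((W * Q) ^ 2 * x) / (4 * a) + 1728 * (x * (W * Q) ^ 3 * a ^ 3) / T +
        ((y * (z * c)) * (2304 * x * a ^ 3 * Q ^ 2) +
        c * (56623104 * (x * (a ^ 3) ^ 3 * Q ^ 3 * (y * z))) / T) := by
    field_simp
    ring
  rw [etot]
  have b1 : 9 * ((W * Q) ^ 2 * x) / (4 * a) ≤ (9 / 4) / x := by
    rw [div_le_div_iff₀ (by positivity) hx0]
    linarith [D.R2]
  have b2 : 1728 * (x * (W * Q) ^ 3 * a ^ 3) / T ≤ (1 / 100) / x := by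
    rw [div_le_div_iff₀ (by positivity) hx0]
    have h0 : 0 ≤ x ^ 2 * a ^ 3 * (W * Q) ^ 3 := by positivity
    have h1 : 1728 * (x * (W * Q) ^ 3 * a ^ 3) * x = 1728 * (x ^ 2 * a ^ 3 * (W * Q) ^ 3) := by
      ring
    rw [h1]
    linarith [D.T3]
  have b3 : (y * (z * c)) * (2304 * x * a ^ 3 * Q ^ 2) ≤ (1 / 2) / x := by
    calc (y * (z * c)) * (2304 * x * a ^ 3 * Q ^ 2)
        ≤ Q / a ^ 5 * (2304 * x * a ^ 3 * Q ^ 2) :=
          mul_le_mul_of_nonneg_right N.yzc (by positivity)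
      _ = 2304 * (x * Q ^ 3) / a ^ 2 := by
          field_simp
      _ ≤ (1 / 2) / x := by
          rw [div_le_div_iff₀ (by positivity) hx0]
          have h3 : 2304 * (x * Q ^ 3) * x = 2304 * ((Q * x) * (Q * x)) * Q := by ring
          rw [h3]
          have h5 : (Q * x) * (Q * x) * Q ≤ a * Q := mul_le_mul_of_nonneg_right D.QxQx hQ0.le
          have h6 : Q * 4000000 ≤ a := by linarith [D.R4, D.QR]
          have h7 := mul_le_mul_of_nonneg_left h6 ha0.le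
          have h8 : 0 ≤ a * Q := by positivity
          linarith [show a * a = a ^ 2 by ring]
  have b4 : c * (56623104 * (x * (a ^ 3) ^ 3 * Q ^ 3 * (y * z))) / T ≤ (1 / 100) / x := by
    have h1 : x * (a ^ 3) ^ 3 * Q ^ 3 * (y * z) ≤ x * (a ^ 3) ^ 3 * (W * Q) ^ 3 * (y * z) := by
      have := D.QR
      gcongr
    have h2 : c * (56623104 * (x * (a ^ 3) ^ 3 * Q ^ 3 * (y * z))) ≤
        1 * (56623104 * (x * (a ^ 3) ^ 3 * (W * Q) ^ 3 * (y * z))) :=
      mul_le_mul N.c1 (by linarith) (by positivity) zero_le_one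
    rw [div_le_div_iff₀ hT hx0]
    have h3 := mul_le_mul_of_nonneg_right h2 hx0.le
    have h4 : 0 ≤ x ^ 2 * (a ^ 3) ^ 3 * (W * Q) ^ 3 * (y * z) := by positivity
    have h5 : 1 * (56623104 * (x * (a ^ 3) ^ 3 * (W * Q) ^ 3 * (y * z))) * x =
        56623104 * (x ^ 2 * (a ^ 3) ^ 3 * (W * Q) ^ 3 * (y * z)) := by ring
    have h6 := D.T1
    have h7 : 10 ^ 12 * x ^ 2 * (a ^ 3) ^ 3 * (W * Q) ^ 3 * (y * z) =
      10 ^ 12 * (x ^ 2 * (a ^ 3) ^ 3 * (W * Q) ^ 3 * (y * z)) := by ring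
    rw [h5] at h3
    rw [h7] at h6
    linarith
  have e5 : 3 / x = (9 / 4) / x + (1 / 100) / x + ((1 / 2) / x + (1 / 100) / x) +
      (23 / 100) / x := by ring
  have e6 : 0 ≤ (23 / 100) / x := by positivity
  linarith

theorem num_hε (N : NC a W Q x T y z c) :
    128 * x * a ^ 2 + a ^ 2 + W ≤ 600 * Q * x / a * (1 / Q * a ^ 3 / 2 - W) := by
  have D := N.nd
  have hx0 : 0 < x := by linarith [N.x1]
  have ha0 : 0 < a := by linarith [D.a6]
  have hQ0 : 0 < Q := by linarith [N.Q1]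
  have e : 600 * Q * x / a * (1 / Q * a ^ 3 / 2 - W) =
      300 * (x * a ^ 2) - 600 * (W * Q * x) / a := by
    field_simp
    ring
  rw [e]
  have h1 : 600 * (W * Q * x) / a ≤ 1 := by
    rw [div_le_one ha0]
    have : 0 ≤ W * Q * x := by linarith [D.Rx]
    linarith [D.Rx2000]
  have h2 : W ≤ a ^ 2 := by
    have h3 : W ≤ a := by linarith [D.WR, D.R4, D.R1]
    have h4 : a ≤ a ^ 2 := by nlinarith only [D.a6]
    linarith
  have h3 : a ^ 2 ≤ x * a ^ 2 := by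
    have h4 : 0 ≤ a ^ 2 := by positivity
    have := mul_le_mul_of_nonneg_right (show 1 ≤ x by linarith [N.x1]) h4
    linarith
  have h5 := D.a2
  linarith

theorem num_he2 (N : NC a W Q x T y z c) :
    2 * (W * (600 * Q * x / a)) + (y * (z * c) + 4 / (1 / Q * a ^ 3) + a ^ 3 / (a ^ 2) ^ 2) ≤
      1204 / x := by
  have D := N.nd
  have hx0 : 0 < x := by linarith [N.x1]
  have ha0 : 0 < a := by linarith [D.a6]
  have hQ0 : 0 < Q := by linarith [N.Q1]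
  have e1 : 2 * (W * (600 * Q * x / a)) = 1200 * ((W * Q * x) / a) := by
    ring
  have e2 : 4 / (1 / Q * a ^ 3) = 4 * Q / a ^ 3 := by field_simp
  have e3 : a ^ 3 / (a ^ 2) ^ 2 = 1 / a := by field_simp
  rw [e1, e2, e3]
  have b0 : W * Q * x / a ≤ 1 / x := by
    rw [div_le_div_iff₀ ha0 hx0]
    linarith [D.Rxx]
  have b1 : y * (z * c) ≤ 1 / x := by
    refine N.yzc.trans ?_
    rw [div_le_div_iff₀ (by positivity) hx0]
    linarith [D.Qx, D.a15]
  have b2 : 4 * Q / a ^ 3 ≤ 1 / x := by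
    rw [div_le_div_iff₀ (by positivity) hx0]
    linarith [D.Qx, D.a3]
  have b3 : 1 / a ≤ 1 / x := by
    rw [div_le_div_iff₀ (by positivity) hx0]
    linarith [D.Rx, D.Rx2000]
  have e5 : 1204 / x = 1200 * (1 / x) + (1 / x + 1 / x + 1 / x) + 1 / x := by ring
  have e6 : 0 ≤ 1 / x := by positivity
  linarith

theorem num_hδ' (N : NC a W Q x T y z c) :
    x / a + 3 * (16 * a ^ 2) * (1 / T) ≤ 2 * x / a := by
  have D := N.nd
  have hx0 : 0 < x := by linarith [N.x1]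
  have ha0 : 0 < a := by linarith [D.a6]
  have hT := D.T0
  have : 3 * (16 * a ^ 2) * (1 / T) ≤ x / a := by
    rw [mul_one_div, div_le_div_iff₀ hT ha0]
    have h1 : 48 * a ^ 3 ≤ T := by
      have : 0 ≤ a ^ 3 := by positivity
      linarith [D.T6]
    have h2 := mul_le_mul_of_nonneg_right (show 1 ≤ x by linarith [N.x1]) hT.le
    linarith [show 3 * (16 * a ^ 2) * a = 48 * a ^ 3 by ring]
  have e : 2 * x / a = x / a + x / a := by ring
  rw [e]
  linarith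

theorem num_hqf (N : NC a W Q x T y z c) :
    36 * ((65 / 128 + 3 * (16 * a ^ 2) * (1 / T)) / x) +
      1296 * (x * T ^ 2 * (60 * ((1 / T) ^ 2 / (16 * a ^ 2) + (1 / T * (4 * a)) ^ 3))) +
      2 / (16 * a ^ 2 * (x / a) ^ 2) ≤ 22 / x := by
  have D := N.nd
  have hx0 : 0 < x := by linarith [N.x1]
  have ha0 : 0 < a := by linarith [D.a6]
  have hT := D.T0
  have e : 36 * ((65 / 128 + 3 * (16 * a ^ 2) * (1 / T)) / x) +
      1296 * (x * T ^ 2 * (60 * ((1 / T) ^ 2 / (16 * a ^ 2) + (1 / T * (4 * a)) ^ 3))) +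
      2 / (16 * a ^ 2 * (x / a) ^ 2) =
      (2340 / 128) / x + 1728 * a ^ 2 / (T * x) + (4860 * x / a ^ 2 + 4976640 * (x * a ^ 3) / T) +
        1 / (8 * x ^ 2) := by
    field_simp
    ring
  rw [e]
  have c1 : 1728 * a ^ 2 / (T * x) ≤ 1 / x := by
    rw [div_le_div_iff₀ (by positivity) hx0]
    have h1 : 1728 * a ^ 2 ≤ T := by
      have : 0 ≤ a ^ 3 := by positivity
      linarith [D.T6, D.a23]
    have := mul_le_mul_of_nonneg_right h1 hx0.le
    linarith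
  have c2 : 4860 * x / a ^ 2 ≤ 1 / x := by
    rw [div_le_div_iff₀ (by positivity) hx0]
    have h1 : 4860 * (x * x) ≤ 4860 * a := by linarith [D.xx]
    have h2 : 4860 * a ≤ a * a := mul_le_mul_of_nonneg_right (by linarith [D.a6]) ha0.le
    linarith [show a * a = a ^ 2 by ring]
  have c3 : 4976640 * (x * a ^ 3) / T ≤ (1 / 2) / x := by
    rw [div_le_div_iff₀ hT hx0]
    have h1 : 0 ≤ x ^ 2 * a ^ 3 := by positivity
    linarith [D.T5, show 4976640 * (x * a ^ 3) * x = 4976640 * (x ^ 2 * a ^ 3) by ring]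
  have c4 : 1 / (8 * x ^ 2) ≤ (1 / 2) / x := by
    rw [div_le_div_iff₀ (by positivity) hx0]
    have := N.x1
    nlinarith only [this]
  have e5 : 22 / x = (2340 / 128) / x + 1 / x + (1 / x + (1 / 2) / x) + (1 / 2) / x +
      (92 / 128) / x := by ring
  have e6 : 0 ≤ (92 / 128) / x := by positivity
  linarith

end

theorem params_ok {h s w m k X : ℕ} (hw : w = k + 5 * m) (hm : 0 < m) (hs : s ≤ 2 ^ k)
    (hX : 2000 ≤ X) (H1 : (w * (32 * w) ^ h * X) ^ 2 ≤ 2 ^ m) :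
    ∃ (η : ℝ) (t : ℕ), Params (16 * 4 ^ m) (8 ^ m) (32 * 4 ^ m) h s w (1 / (32 * w))
      (X / 2 ^ m) (2 * X / 2 ^ m) η (4 ^ m) (600 * (32 * w) ^ h * X / 2 ^ m) (128 * X * 4 ^ m)
      (3 / X) (1204 / X) (22 / X) t := by
  have hw0 : 0 < w := by omega
  set a : ℝ := 2 ^ m with ha
  set Qn : ℕ := (32 * w) ^ h with hQn
  have hQ1n : 1 ≤ Qn := Nat.one_le_pow _ _ (by omega)
  have hhQ : h ≤ Qn := by
    calc h ≤ 2 ^ h := Nat.lt_two_pow_self.le
      _ ≤ (32 * w) ^ h := Nat.pow_le_pow_left (by omega) h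
  set Q : ℝ := (Qn : ℝ) with hQ
  have hQcast : (32 * (w : ℝ)) ^ h = Q := by
    rw [hQ, hQn]
    push_cast
    rfl
  rw [hQcast]
  set W : ℝ := (w : ℝ) with hW
  set x : ℝ := (X : ℝ) with hx
  have hW1 : 1 ≤ W := by rw [hW]; exact_mod_cast hw0
  have hQ1 : 1 ≤ Q := by rw [hQ]; exact_mod_cast hQ1n
  have hx1 : 2000 ≤ x := by rw [hx]; exact_mod_cast hX
  have hhr : (h : ℝ) ≤ Q := by rw [hQ]; exact_mod_cast hhQ
  have hRx : (W * Q * x) * (W * Q * x) ≤ a := by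
    have : (W * Q * x) ^ 2 ≤ a := by
      rw [hW, hQ, ha, hx]
      exact_mod_cast H1
    linarith [show (W * Q * x) ^ 2 = (W * Q * x) * (W * Q * x) by ring]
  have ha0 : 0 < a := by positivity
  have hx0 : 0 < x := by linarith
  have h4 : (4 : ℝ) ^ m = a ^ 2 := by
    rw [ha, ← pow_mul, mul_comm, pow_mul]; norm_num
  have h8 : (8 : ℝ) ^ m = a ^ 3 := by
    rw [ha, ← pow_mul, mul_comm, pow_mul]; norm_num
  have hsq : Real.sqrt (16 * a ^ 2) = 4 * a := by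
    have : 16 * a ^ 2 = (4 * a) ^ 2 := by ring
    rw [this, Real.sqrt_sq (by positivity)]
  have hph : (1 / (32 * W)) ^ h = 1 / Q := by
    rw [one_div_pow, hQcast]
  have h16 : 16 * (1 / (32 * W)) * W = 1 / 2 := by
    have : W ≠ 0 := by linarith
    field_simp
    norm_num
  -- the size bound
  have hs2 : (s : ℝ) * (1 / 2) ^ (w + 1) ≤ 1 / a ^ 5 := by
    have hs' : (s : ℝ) ≤ 2 ^ k := by exact_mod_cast hs
    have e : (1 / 2 : ℝ) ^ (w + 1) = 1 / (2 ^ k * a ^ 5 * 2) := by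
      rw [hw, one_div_pow, pow_succ, pow_add, ha, ← pow_mul, mul_comm m 5]
    rw [e, mul_one_div, div_le_div_iff₀ (by positivity) (by positivity)]
    have h1 : 0 < (2 : ℝ) ^ k := by positivity
    have h5 : 0 < a ^ 5 := by positivity
    have h6 := mul_le_mul_of_nonneg_right hs' h5.le
    have h7 := mul_pos h1 h5
    linarith
  have hs0 : 0 ≤ (s : ℝ) * (1 / 2) ^ (w + 1) := by positivity
  have hh0 : (0 : ℝ) ≤ h := Nat.cast_nonneg h
  have hhs : (h : ℝ) * (s * (1 / 2) ^ (w + 1)) ≤ Q / a ^ 5 := by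
    calc (h : ℝ) * (s * (1 / 2) ^ (w + 1)) ≤ Q * (1 / a ^ 5) := mul_le_mul hhr hs2 hs0 (by linarith)
      _ = Q / a ^ 5 := by ring
  -- the step size
  set Tn : ℕ := 10 ^ 12 * X ^ 2 * ((2 ^ m) ^ 3) ^ 3 * (w * Qn) ^ 3 * (1 + h * s) with hTn
  set T : ℝ := (Tn : ℝ) with hT
  have hTval : T = 10 ^ 12 * x ^ 2 * (a ^ 3) ^ 3 * (W * Q) ^ 3 * (1 + h * s) := by
    rw [hT, hTn, hW, hQ, hx, ha]
    push_cast
    norm_num
  have N : NC a W Q x T h s ((1 / 2) ^ (w + 1)) :=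
    ⟨hW1, hQ1, hx1, hRx, hh0, Nat.cast_nonneg s, by positivity,
      pow_le_one₀ (by norm_num) (by norm_num), hhs, hTval⟩
  have D := N.nd
  have hT0 := D.T0
  have ha3 : 0 ≤ a ^ 3 := by positivity
  have htη : ((X * Tn ^ 2 : ℕ) : ℝ) * (1 / T) ^ 2 = x := by
    push_cast
    rw [← hT, ← hx]
    field_simp
  refine ⟨1 / T, X * Tn ^ 2, ?_⟩
  rw [h4, h8]
  constructor
  · exact hw0
  · positivity
  · rw [h16]; norm_num
  · positivity
  · rw [hsq, one_div_mul_eq_div, div_le_div_iff₀ (by positivity) (by norm_num)]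
    linarith [D.T6, D.a3]
  · rw [hph, hsq]
    have e : W * (1 / T / (1 / Q) * (3 * (4 * a))) = 12 * (W * Q * a) / T := by
      field_simp
      try ring
    rw [e, div_le_div_iff₀ (by positivity) (by norm_num)]
    have h1 : a ≤ a ^ 3 := by linarith [D.a3]
    have h2 : W * Q * a ≤ W * Q * a ^ 3 := mul_le_mul_of_nonneg_left h1 (by positivity)
    have h3 : 0 ≤ W * Q * a := by positivity
    linarith [D.T4]
  · rw [hph, hsq]
    push_cast
    rw [h4]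
    have e : 32 * a ^ 2 * (1 / T / (1 / Q) * (3 * (4 * a))) = 384 * (a ^ 3 * Q) / T := by
      field_simp
      try ring
    rw [e, div_le_div_iff₀ (by positivity) (by norm_num)]
    have : a ^ 3 * Q ≤ a ^ 3 * (W * Q) := mul_le_mul_of_nonneg_left D.QR ha3
    have h3 : 0 ≤ a ^ 3 * Q := by positivity
    linarith [D.T4]
  · unfold stepErr
    rw [hph, hsq, h16]
    push_cast
    rw [← hT, ← hW, ← hx, h4]
    exact num_he1 N
  · positivity
  · positivity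
  · have e : W * (600 * Q * x / a) = 600 * (W * Q * x) / a := by ring
    rw [e, div_le_div_iff₀ ha0 (by norm_num)]
    have : 0 ≤ W * Q * x := by positivity
    linarith [D.Rx2000]
  · rw [hph]
    have : 1 / Q * a ^ 3 / 2 = a ^ 3 / (2 * Q) := by field_simp
    rw [this, lt_div_iff₀ (by positivity)]
    linarith [D.a3, D.R4, D.R1, show W * (2 * Q) = 2 * (W * Q) by ring]
  · rw [hph]
    exact num_hε N
  · unfold sliceErr
    rw [hph, h16]
    exact num_he2 N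
  · positivity
  · exact num_hδ' N
  · have hTn0 : 0 < Tn := by
      have : (0 : ℝ) < (Tn : ℝ) := hT0
      exact_mod_cast this
    have : 0 < X := by omega
    positivity
  · rw [htη, hsq]
    push_cast
    rw [← hT, ← hx]
    exact num_hqf N
  · rw [div_lt_one hx0]
    linarith

end Pool.Agent.Helper67.EQP
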