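import Pool.Agent.Helper67.EQP.QSim4

set_option autoImplicit false
set_option linter.unusedSectionVars false

/-!
The circuits simulate the query algorithm: conclusion.
-/

namespace Pool.Agent.Helper67.EQP

open Finset Function

section core

variable {m : ℕ} {W : Type} [DecidableEq W] [Fintype W] {e : Wire m ↪ W} {β : W → Bool}

theorem query_lift (A : List Bool → Bool) (q : List W) (x : Idx m → Bool)
    (hq : ∀ a : B0 m × Bool, A (q.map (cfg e β a)) = true ↔ ∃ i, posn m a = some i ∧ x i = true)
    (v : B0 m × Bool → ℝ) :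
    (QOp.query q).run A (lift e β v) = lift e β (fun a => phr m x a * v a) := by
  apply eq_lift
  · intro a
    change (if A (q.map (cfg e β a)) = true then (-1 : ℂ) else 1) * lift e β v (cfg e β a) = _
    rw [lift_cfg]
    push_cast
    congr 1
    unfold phr
    rcases hp : posn m a with _ | i
    · rw [if_neg (fun h => by
        obtain ⟨i, hi, _⟩ := (hq a).mp h
        rw [hp] at hi
        exact absurd hi (by simp))]
      simp
    · by_cases hx : x i = true
      · rw [if_pos ((hq a).mpr ⟨i, hp, hx⟩)]
        simp [hx]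
      · rw [if_neg (fun h => by
          obtain ⟨i', hi, h'⟩ := (hq a).mp h
          rw [hp, Option.some.injEq] at hi
          rw [← hi] at h'
          exact hx h')]
        simp [hx]
  · intro b hb
    change (if A (q.map b) = true then (-1 : ℂ) else 1) * lift e β v b = _
    rw [lift_not hb, mul_zero]

theorem core_state (hβ : ∀ w, β (e w) = false) (A : List Bool → Bool) (q : List W)
    (x : Idx m → Bool)
    (hq : ∀ a : B0 m × Bool, A (q.map (cfg e β a)) = true ↔ ∃ i, posn m a = some i ∧ x i = true) :
    (core m e q).foldl (fun ψ o => o.run A ψ) (dl β) =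
      lift e β (mH.mulVec ((mC (qmat m)).mulVec
        (fun b => phr m x b * rs (qmat m) (psi0 m) (phr m x) (2 * 1) b))) := by
  unfold core
  rw [List.foldl_append, foldl_ops, aps_prep hβ, List.foldl_cons, query_lift A q x hq,
    List.foldl_append, foldl_ops, List.map_append, List.map_cons, aps_append, aps_cons, aps_trans,
    ap_notc, aps_trans, List.foldl_cons, query_lift A q x hq, List.foldl_append, foldl_ops,
    aps_reflect hβ, List.foldl_cons, query_lift A q x hq, foldl_ops, List.map_append,
    aps_append, aps_trans]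
  change (CG.map e (hadc m)).ap _ = _
  rw [ap_hadc]
  congr 4
  funext b
  congr 1
  have h1 : rs (qmat m) (psi0 m) (phr m x) (2 * 1) = (mR (psi0 m)).mulVec
      (fun b => phr m x b * rs (qmat m) (psi0 m) (phr m x) 1 b) := by
    change (if 1 % 2 = 0 then mC (qmat m) * mX * mC (qmat m) else mR (psi0 m)).mulVec _ = _
    rw [if_neg (by norm_num)]
  have h2 : rs (qmat m) (psi0 m) (phr m x) 1 = (mC (qmat m)).mulVec (mX.mulVec
      ((mC (qmat m)).mulVec (fun b => phr m x b * psi0 m b))) := by
    change (if 0 % 2 = 0 then mC (qmat m) * mX * mC (qmat m) else mR (psi0 m)).mulVec _ = _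
    rw [if_pos (by norm_num), ← Matrix.mulVec_mulVec, ← Matrix.mulVec_mulVec]
    rfl
  rw [h1, h2]

theorem sum_accept (u : B0 m × Bool → ℝ) :
    ∑ b, (if b (e wC) = true then ‖lift e β u b‖ ^ 2 else 0) = ∑ a : B0 m, u (a, true) ^ 2 := by
  have h1 : ∀ b, (if b (e wC) = true then ‖lift e β u b‖ ^ 2 else 0) =
      ∑ a, if b = cfg e β a then (if a.2 = true then u a ^ 2 else 0) else 0 := by
    intro b
    by_cases hb : ∃ a, b = cfg e β a
    · obtain ⟨a, rfl⟩ := hb
      rw [sum_eq_single a]
      · rw [if_pos rfl, lift_cfg, cfg_e, Complex.norm_real, Real.norm_eq_abs, sq_abs]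
        rfl
      · intro a' _ ha'
        rw [if_neg (fun h => ha' (cfg_inj h).symm)]
      · intro h; exact absurd (mem_univ _) h
    · push Not at hb
      rw [lift_not hb, sum_eq_zero (fun a _ => if_neg (hb a))]
      simp
  simp_rw [h1]
  rw [sum_comm]
  simp_rw [sum_ite_eq' univ, if_pos (mem_univ _)]
  rw [Fintype.sum_prod_type]
  apply sum_congr rfl
  intro a _
  rw [Fintype.sum_bool]
  simp

end core

/-- The string read on a basis state. -/
def enc (m : ℕ) (a : B0 m × Bool) : List Bool := (wQ m).map (cfg0 a)

theorem enc_length (m : ℕ) (a : B0 m × Bool) : (enc m a).length = 3 * m + 7 := by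
  simp [enc, wQ]

theorem enc_inj {m : ℕ} {a a' : B0 m × Bool} (h : enc m a = enc m a') : a = a' := by
  unfold enc wQ at h
  simp only [List.map_cons, List.map_map, List.cons.injEq] at h
  obtain ⟨_, h2, h3, h4⟩ := h
  have h5 : adr a.1 = adr a'.1 := by
    funext l
    have := List.map_inj_left.mp h4 l (List.mem_finRange l)
    exact this
  exact Prod.ext (adr_inj h3 h5) h2

theorem circOps_eq (m : ℕ) : circOps m = core m (Embedding.refl (Wire m)) (wQ m) := by
  have h : (CG.map (Embedding.refl (Wire m))) = id := by
    funext g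
    exact CG.map_refl g
  unfold core circOps
  simp only [h, List.map_id]

/-- Acceptance probability of the circuits. -/
theorem circ_acceptProb (n : ℕ) (A : List Bool → Bool) (x : Idx (n + 1) → Bool)
    (hq : ∀ a : B0 (n + 1) × Bool, A (enc (n + 1) a) = true ↔
      ∃ i, posn (n + 1) a = some i ∧ x i = true) :
    (circ n).acceptProb A = (algo (n + 1) 1 true).acceptProb x := by
  have hcfg : ∀ a : B0 (n + 1) × Bool, cfg (Embedding.refl (Wire (n + 1))) (fun _ => false) a =
      cfg0 a := by
    intro a
    funext w
    exact cfg_e (Embedding.refl (Wire (n + 1))) _ a w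
  have hq' : ∀ a : B0 (n + 1) × Bool, A ((wQ (n + 1)).map
      (cfg (Embedding.refl (Wire (n + 1))) (fun _ : Wire (n + 1) => false) a)) = true ↔
      ∃ i, posn (n + 1) a = some i ∧ x i = true := by
    intro a
    rw [hcfg]
    exact hq a
  have h1 : (circ n).state A = lift (Embedding.refl (Wire (n + 1))) (fun _ => false)
      (mH.mulVec ((mC (qmat (n + 1))).mulVec
        (fun b => phr (n + 1) x b * rs (qmat (n + 1)) (psi0 (n + 1)) (phr (n + 1) x) (2 * 1) b))) := by
    change (circOps (n + 1)).foldl (fun ψ o => o.run A ψ) _ = _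
    rw [circOps_eq]
    exact core_state (β := fun _ : Wire (n + 1) => false) (fun _ => rfl) A (wQ (n + 1)) x hq'
  unfold QCircuit.acceptProb
  rw [h1, algo_acceptProb]
  exact sum_accept (e := Embedding.refl (Wire (n + 1))) (β := fun _ => false) _

end Pool.Agent.Helper67.EQP
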