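import Pool.Agent.Helper67.EQP.Comp
import Pool.Agent.Helper67.EQP.Immune
import Pool.Agent.Helper67.EQP.QCirc

set_option autoImplicit false
set_option linter.unusedSectionVars false

/-!
The oracle.
-/

namespace Pool.Agent.Helper67.EQP

open Finset Function Classical

section mention

/-- All strings mentioned by the tree are shorter. -/
def DTree.bd : DTree (List Bool) → ℕ
  | .leaf _ => 0
  | .node i t0 t1 => max (i.length + 1) (max t0.bd t1.bd)

theorem DTree.eval_congr {A A' : List Bool → Bool} (T : DTree (List Bool))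
    (h : ∀ s, s.length < T.bd → A s = A' s) : T.eval A = T.eval A' := by
  induction T with
  | leaf b => rfl
  | node i t0 t1 ih0 ih1 =>
    have h0 := ih0 (fun n hn => h n (by simp only [DTree.bd]; omega))
    have h1 := ih1 (fun n hn => h n (by simp only [DTree.bd]; omega))
    have h2 := h i (by simp only [DTree.bd]; omega)
    simp only [DTree.eval, h0, h1, h2]

/-- All strings mentioned by the machine on `1^n` are shorter. -/
noncomputable def PHMachine.bd {t k : ℕ → ℕ} (M : PHMachine t k) (n : ℕ) : ℕ :=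
  univ.sup (fun y => (M.tree n y).bd)

theorem PHMachine.accepts_congr {t k : ℕ → ℕ} (M : PHMachine t k) {A A' : List Bool → Bool}
    {n : ℕ} (h : ∀ s, s.length < M.bd n → A s = A' s) : M.Accepts A n ↔ M.Accepts A' n := by
  unfold PHMachine.Accepts
  have : (fun y => (M.tree n y).eval A = true) =
      (fun y => (M.tree n y).eval A' = true) := by
    funext y
    rw [DTree.eval_congr]
    intro n' hn'
    apply h
    exact lt_of_lt_of_le hn' (Finset.le_sup (f := fun y => (M.tree n y).bd) (mem_univ y))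
  rw [this]

end mention

section strings

/-- Inputs of the promise problem, one for every `n`. -/
abbrev Blocks : Type := (n : ℕ) → Idx (n + 1) → Bool

/-- The set of strings encoding the blocks. -/
noncomputable def strA (X : Blocks) (s : List Bool) : Bool :=
  decide (∃ n a i, s = enc (n + 1) a ∧ posn (n + 1) a = some i ∧ X n i = true)

theorem strA_enc (X : Blocks) (n : ℕ) (a : B0 (n + 1) × Bool) :
    strA X (enc (n + 1) a) = true ↔ ∃ i, posn (n + 1) a = some i ∧ X n i = true := by
  unfold strA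
  rw [decide_eq_true_eq]
  constructor
  · rintro ⟨n', a', i, h1, h2, h3⟩
    have h4 : n = n' := by
      have := congrArg List.length h1
      rw [enc_length, enc_length] at this
      omega
    subst h4
    have h5 := enc_inj h1
    subst h5
    exact ⟨i, h2, h3⟩
  · rintro ⟨i, h2, h3⟩
    exact ⟨n, a, i, rfl, h2, h3⟩

theorem strA_congr {X X' : Blocks} {s : List Bool} (h : ∀ n < s.length, X n = X' n) :
    strA X s = strA X' s := by
  have hn : ∀ n a, s = enc (n + 1) a → X n = X' n := by
    intro n a hs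
    apply h
    rw [hs, enc_length]
    omega
  unfold strA
  congr 1
  apply propext
  constructor
  · rintro ⟨n, a, i, h1, h2, h3⟩
    exact ⟨n, a, i, h1, h2, by rw [← hn n a h1]; exact h3⟩
  · rintro ⟨n, a, i, h1, h2, h3⟩
    exact ⟨n, a, i, h1, h2, by rw [hn n a h1]; exact h3⟩

theorem strA_dtd (X : Blocks) (n : ℕ) (s : List Bool) :
    DTd 1 (fun x : Idx (n + 1) → Bool => strA (update X n x) s) := by
  by_cases h : ∃ a i, s = enc (n + 1) a ∧ posn (n + 1) a = some i
  · obtain ⟨a, i, h1, h2⟩ := h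
    have : (fun x : Idx (n + 1) → Bool => strA (update X n x) s) = fun x => x i := by
      funext x
      rw [Bool.eq_iff_iff, h1, strA_enc, update_self]
      constructor
      · rintro ⟨i', h3, h4⟩
        rw [h2, Option.some.injEq] at h3
        rw [h3]
        exact h4
      · intro h3
        exact ⟨i, h2, h3⟩
    rw [this]
    exact DTd.lit i
  · have : (fun x : Idx (n + 1) → Bool => strA (update X n x) s) = fun _ => strA X s := by
      funext x
      unfold strA
      congr 1
      apply propext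
      constructor
      · rintro ⟨n', a, i, h1, h2, h3⟩
        by_cases hn : n' = n
        · subst hn
          exact absurd ⟨a, i, h1, h2⟩ h
        · rw [update_of_ne hn] at h3
          exact ⟨n', a, i, h1, h2, h3⟩
      · rintro ⟨n', a, i, h1, h2, h3⟩
        by_cases hn : n' = n
        · subst hn
          exact absurd ⟨a, i, h1, h2⟩ h
        · refine ⟨n', a, i, h1, h2, ?_⟩
          rw [update_of_ne hn]
          exact h3
    rw [this]
    exact DTd.const 1 _

end strings

section circuits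

theorem Comp.fam {ι : Type} [DecidableEq ι] {w h s : ℕ} {f : (ι → Bool) → Bool}
    (hf : Comp w h s f) (hh : 0 < h) (hs : 0 < s) :
    ∃ (s' : ℕ) (level : Fin s' → ℕ) (g : Fin s' → (ι → Bool) → Bool) (j : Fin s'), s' ≤ s ∧
      ACfam w level g ∧ (∀ j, level j < h) ∧ g j = f := by
  obtain ⟨s', level, g, h1, h2, h3, h4 | ⟨j, hj⟩⟩ := hf
  · refine ⟨1, fun _ => 0, fun _ => f, 0, hs, ?_, fun _ => hh, rfl⟩
    intro j
    refine ⟨{f}, ?_, Or.inl ?_⟩
    · intro a ha
      rw [Set.mem_singleton_iff] at ha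
      rw [ha]
      exact Or.inl h4
    · intro x
      simp
  · exact ⟨s', level, g, j, h1, h2, h3, hj⟩

/-- No small circuit separates the two sides of the promise. -/
theorem no_sep {w h s m k : ℕ} (hm : 0 < m) {F : (Idx m → Bool) → Bool} (hF : Comp w h s F)
    (hh : 0 < h) (hs0 : 0 < s) (hw : w ≤ k + 5 * m) (hs : s ≤ 2 ^ k)
    (hlt : (160 * (32 * (k + 5 * m)) ^ (h + 1)) ^ 2 < 2 ^ m) :
    ¬ ((∀ x, Yes m x → F x = true) ∧ ∀ x, No m x → F x = false) := by
  obtain ⟨s', level, g, j, h1, h2, h3, h4⟩ := hF.fam hh hs0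
  have := worst_fam hm (h1.trans hs) hlt (h2.mono hw) h3 j
  rw [h4] at this
  exact this

/-- A machine is a constant depth circuit in one block of the oracle. -/
theorem machine_comp {t k : ℕ → ℕ} (M : PHMachine t k) (X : Blocks) (n : ℕ) :
    Comp (t n ^ M.c + M.c) (M.c * k n) ((1 + 2 ^ (t n ^ M.c + M.c)) ^ (M.c * k n))
      (fun x : Idx (n + 1) → Bool => decide (M.Accepts (strA (update X n x)) n)) := by
  have h := Comp.alt (ι := Idx (n + 1)) (w := t n ^ M.c + M.c) (M.c * k n) true
    (fun (ys : Fin (M.c * k n) → Fin (t n ^ M.c + M.c) → Bool) (x : Idx (n + 1) → Bool) =>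
      (M.tree n ys).eval (strA (update X n x))) (by
      intro ys
      have h1 := ((M.tree n ys).dtd.mono (M.depth_le n ys)).comp
        (fun (x : Idx (n + 1) → Bool) => strA (update X n x)) (strA_dtd X n)
      exact h1)
  have hc : Fintype.card (Fin (t n ^ M.c + M.c) → Bool) = 2 ^ (t n ^ M.c + M.c) := by
    rw [Fintype.card_fun, Fintype.card_bool, Fintype.card_fin]
  rw [hc] at h
  exact h

end circuits

section growth

theorem pow_lt_two_pow (C a : ℕ) : ∃ n1 : ℕ, ∀ n ≥ n1, C * n ^ a < 2 ^ n := by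
  have ht := tendsto_pow_const_div_const_pow_of_one_lt a (by norm_num : (1 : ℝ) < 2)
  have hev := ht.eventually (gt_mem_nhds (show (0 : ℝ) < 1 / (C + 1) by positivity))
  obtain ⟨m2, hm2⟩ := Filter.eventually_atTop.mp hev
  refine ⟨m2, fun m hm => ?_⟩
  have h := hm2 m hm
  have hp : (0 : ℝ) < 2 ^ m := by positivity
  rw [div_lt_div_iff₀ hp (by positivity), one_mul] at h
  have h2 : ((C * m ^ a : ℕ) : ℝ) < ((2 ^ m : ℕ) : ℝ) := by
    push_cast
    have : 0 ≤ (m : ℝ) ^ a := by positivity
    linarith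
  exact_mod_cast h2

/-- Polynomial time and a constant number of alternations are slow. -/
theorem slow_poly : Slow (fun n => n) (fun _ => 1) := by
  intro a
  obtain ⟨n1, h⟩ := pow_lt_two_pow (2 ^ (a * 2)) (a * 2)
  refine ⟨n1, fun n hn => ?_⟩
  have := h n hn
  calc (n + n) ^ (a * (1 + 1)) = 2 ^ (a * 2) * n ^ (a * 2) := by
        rw [← mul_pow]; ring_nf
    _ < 2 ^ n := this

theorem growth {t k : ℕ → ℕ} (hs : Slow t k) (c q : ℕ) : ∃ n1 : ℕ, ∀ n ≥ n1,
    (160 * (32 * (((t n ^ c + c + 1) * (c * k n + 1) + q + 1) + 5 * (n + 1))) ^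
      (c * k n + 1 + 1)) ^ 2 < 2 ^ (n + 1) := by
  obtain ⟨n1, hn1⟩ := hs (2 + 2 * (c + 3) * (c + 2))
  obtain ⟨n2, hn2⟩ := hs 1
  set C1 := (c + 2) * (c + 1) + q + 11 with hC1
  refine ⟨max (max n1 n2) (160 + 32 * C1), fun n hn => ?_⟩
  have hn_1 : n1 ≤ n := le_trans (le_trans (le_max_left _ _) (le_max_left _ _)) hn
  have hn_2 : n2 ≤ n := le_trans (le_trans (le_max_right _ _) (le_max_left _ _)) hn
  have hn_3 : 160 + 32 * C1 ≤ n := le_trans (le_max_right _ _) hn
  have h1 := hn1 n hn_1
  have h2 := hn2 n hn_2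
  set T := t n + n with hT
  set K := k n + 1 with hK
  have hTn : n ≤ T := by omega
  have hT1 : 160 ≤ T := by omega
  have hT2 : 32 * C1 ≤ T := by
    have h160 : 32 * C1 ≤ 160 + 32 * C1 := Nat.le_add_left _ _
    exact (h160.trans hn_3).trans hTn
  have hT0 : 1 ≤ T := by omega
  -- the number of alternations is at most T
  have hKT : K ≤ T := by
    have h3 : 2 ^ K ≤ T ^ (1 * K) := by
      rw [one_mul]
      exact Nat.pow_le_pow_left (by omega) K
    have h4 : 2 ^ K < 2 ^ n := lt_of_le_of_lt h3 h2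
    have h5 : K < n := (Nat.pow_lt_pow_iff_right (by norm_num)).mp h4
    omega
  have htc : t n ^ c ≤ T ^ c := Nat.pow_le_pow_left (by omega) c
  have hTc : 1 ≤ T ^ c := Nat.one_le_pow _ _ hT0
  have hTT : T ≤ T ^ c * T := by nlinarith
  have hb : ((t n ^ c + c + 1) * (c * k n + 1) + q + 1) + 5 * (n + 1) ≤ C1 * (T ^ c * T) := by
    have e1 : t n ^ c + c + 1 ≤ (c + 2) * T ^ c := by nlinarith
    have e2 : c * k n + 1 ≤ (c + 1) * K := by
      rw [hK]
      nlinarith
    have e3 : (t n ^ c + c + 1) * (c * k n + 1) ≤ ((c + 2) * T ^ c) * ((c + 1) * T) := by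
      apply Nat.mul_le_mul e1
      exact e2.trans (Nat.mul_le_mul_left _ hKT)
    have e4 : 1 ≤ T ^ c * T := by nlinarith
    rw [hC1]
    nlinarith
  have hb2 : 32 * (((t n ^ c + c + 1) * (c * k n + 1) + q + 1) + 5 * (n + 1)) ≤ T ^ (c + 3) := by
    calc 32 * (((t n ^ c + c + 1) * (c * k n + 1) + q + 1) + 5 * (n + 1))
        ≤ 32 * (C1 * (T ^ c * T)) := Nat.mul_le_mul_left _ hb
      _ = (32 * C1) * (T ^ c * T) := by ring
      _ ≤ T * (T ^ c * T) := Nat.mul_le_mul_right _ hT2
      _ = T ^ (c + 2) := by ring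
      _ ≤ T ^ (c + 3) := Nat.pow_le_pow_right hT0 (by omega)
  have hexp : c * k n + 1 + 1 ≤ (c + 2) * K := by
    rw [hK]
    nlinarith
  calc (160 * (32 * (((t n ^ c + c + 1) * (c * k n + 1) + q + 1) + 5 * (n + 1))) ^
      (c * k n + 1 + 1)) ^ 2 ≤ (T * (T ^ (c + 3)) ^ (c * k n + 1 + 1)) ^ 2 := by gcongr
    _ ≤ (T * (T ^ (c + 3)) ^ ((c + 2) * K)) ^ 2 := by
        have : 1 ≤ T ^ (c + 3) := Nat.one_le_pow _ _ hT0
        gcongr
    _ = T ^ (2 + 2 * (c + 3) * (c + 2) * K) := by
        rw [mul_pow, ← pow_mul, ← pow_mul, ← pow_add]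
        congr 1
        ring
    _ ≤ T ^ ((2 + 2 * (c + 3) * (c + 2)) * K) := by
        apply Nat.pow_le_pow_right hT0
        have : 1 ≤ K := by omega
        nlinarith
    _ < 2 ^ n := h1
    _ ≤ 2 ^ (n + 1) := Nat.pow_le_pow_right (by norm_num) (by omega)

end growth

theorem not_yes_of_no {m : ℕ} {x : Idx m → Bool} (h : No m x) : ¬ Yes m x := by
  intro h'
  unfold Yes at h'
  unfold No at h
  rw [h'] at h
  have : (0 : ℤ) < 8 ^ m := by positivity
  linarith

theorem bound_mono (t : ℕ) {c c' : ℕ} (h : c ≤ c') : t ^ c + c ≤ t ^ c' + c' := by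
  rcases Nat.eq_zero_or_pos t with ht | ht
  · subst ht
    rcases Nat.eq_zero_or_pos c with hc | hc
    · subst hc
      rcases Nat.eq_zero_or_pos c' with hc' | hc'
      · subst hc'
        rfl
      · rw [pow_zero, zero_pow (by omega)]
        omega
    · rw [zero_pow (by omega), zero_pow (by omega)]
      omega
  · have := Nat.pow_le_pow_right ht h
    omega

/-- One stage of the construction. -/
theorem stage {t k : ℕ → ℕ} (hs : Slow t k) (M : ℕ → PHMachine t k) (X : Blocks) (q : ℕ)
    (kl : Finset ℕ) (n0 : ℕ) :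
    ∃ (n : ℕ) (x : Idx (n + 1) → Bool), n0 ≤ n ∧
      ((Yes (n + 1) x ∧ ∀ i < q, i ∉ kl → ¬ (M i).Accepts (strA (update X n x)) n) ∨
        (No (n + 1) x ∧ ∃ i < q, i ∉ kl ∧ (M i).Accepts (strA (update X n x)) n)) := by
  set c := (range q).sup (fun i => (M i).c) with hc
  obtain ⟨n1, hn1⟩ := growth hs c q
  set n := max n1 n0 with hn
  have hn0 : n0 ≤ n := le_max_right _ _
  have hlt := hn1 n (le_max_left _ _)
  by_contra hcon
  push Not at hcon
  have hno := hcon n
  set p := t n ^ c + c with hp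
  set κ := c * k n with hκ
  set K := (p + 1) * (κ + 1) + q + 1 with hK
  have hcomp : ∀ t' : Fin q, Comp p κ (2 ^ ((p + 1) * κ)) (fun x : Idx (n + 1) → Bool =>
      decide (t'.1 ∉ kl ∧ (M t'.1).Accepts (strA (update X n x)) n)) := by
    intro t'
    by_cases ht : t'.1 ∈ kl
    · have : (fun x : Idx (n + 1) → Bool =>
          decide (t'.1 ∉ kl ∧ (M t'.1).Accepts (strA (update X n x)) n)) =
          fun _ => false := by
        funext x
        simp [ht]
      rw [this]
      exact Comp.of_dtd (DTd.const _ _) _ _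
    · have : (fun x : Idx (n + 1) → Bool =>
          decide (t'.1 ∉ kl ∧ (M t'.1).Accepts (strA (update X n x)) n)) =
          fun x => decide ((M t'.1).Accepts (strA (update X n x)) n) := by
        funext x
        simp [ht]
      rw [this]
      have htq : t'.1 ∈ range q := mem_range.mpr t'.2
      have hc1 : (M t'.1).c ≤ c := Finset.le_sup (f := fun i => (M i).c) htq
      have hk1 : (M t'.1).c * k n ≤ κ := Nat.mul_le_mul_right _ hc1
      have hp1 : t n ^ (M t'.1).c + (M t'.1).c ≤ p := bound_mono (t n) hc1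
      have h1 := (machine_comp (M t'.1) X n)
      obtain ⟨s', level, g, a1, a2, a3, a4⟩ := h1
      have hbig : (1 + 2 ^ (t n ^ (M t'.1).c + (M t'.1).c)) ^ ((M t'.1).c * k n) ≤
          2 ^ ((p + 1) * κ) := by
        have b1 : 1 + 2 ^ (t n ^ (M t'.1).c + (M t'.1).c) ≤ 2 ^ (p + 1) := by
          have : 2 ^ (t n ^ (M t'.1).c + (M t'.1).c) ≤ 2 ^ p :=
            Nat.pow_le_pow_right (by norm_num) hp1
          have h3 : 1 ≤ 2 ^ p := Nat.one_le_two_pow
          rw [pow_succ]
          omega
        calc (1 + 2 ^ (t n ^ (M t'.1).c + (M t'.1).c)) ^ ((M t'.1).c * k n) ≤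
              (2 ^ (p + 1)) ^ ((M t'.1).c * k n) :=
              Nat.pow_le_pow_left b1 _
          _ ≤ (2 ^ (p + 1)) ^ κ := Nat.pow_le_pow_right (by positivity) hk1
          _ = _ := by rw [← pow_mul]
      refine ⟨s', level, g, a1.trans hbig, a2.mono hp1, fun j => (a3 j).trans_le hk1, ?_⟩
      rcases a4 with a4 | a4
      · exact Or.inl (a4.mono hp1)
      · exact Or.inr a4
  have hF := Comp.gate hcomp (F := fun x => decide (∃ t' : Fin q, t'.1 ∉ kl ∧
    (M t'.1).Accepts (strA (update X n x)) n)) (Or.inr (fun x => by simp))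
  rw [Fintype.card_fin] at hF
  have hs : 1 + q * 2 ^ ((p + 1) * κ) ≤ 2 ^ K := by
    have h1 : 1 ≤ 2 ^ ((p + 1) * κ) := Nat.one_le_two_pow
    have h2 : q + 1 ≤ 2 ^ q := Nat.lt_two_pow_self
    calc 1 + q * 2 ^ ((p + 1) * κ) ≤ (q + 1) * 2 ^ ((p + 1) * κ) := by nlinarith
      _ ≤ 2 ^ q * 2 ^ ((p + 1) * κ) := Nat.mul_le_mul_right _ h2
      _ = 2 ^ (q + (p + 1) * κ) := (pow_add _ _ _).symm
      _ ≤ 2 ^ K := by
          apply Nat.pow_le_pow_right (by norm_num)
          rw [hK]
          nlinarith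
  have hpK : p ≤ K + 5 * (n + 1) := by
    rw [hK]
    nlinarith
  apply no_sep (k := K) (by omega) hF (by omega) (by omega) hpK hs hlt
  constructor
  · intro x hx
    have := (hno x hn0).1 hx
    obtain ⟨i, hi, hik, hacc⟩ := this
    rw [decide_eq_true_eq]
    exact ⟨⟨i, hi⟩, hik, hacc⟩
  · intro x hx
    have := (hno x hn0).2 hx
    rw [decide_eq_false_iff_not]
    rintro ⟨t', ht, hacc⟩
    exact this t'.1 t'.2 ht hacc

/-- The oracle. -/
theorem exists_oracle {t k : ℕ → ℕ} (hs : Slow t k) (M : ℕ → PHMachine t k) :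
    ∃ X : Blocks, (∀ n, Yes (n + 1) (X n) ∨ No (n + 1) (X n)) ∧
      {n | Yes (n + 1) (X n)}.Infinite ∧
      ∀ i, {n | (M i).Accepts (strA X) n} ⊆ {n | Yes (n + 1) (X n)} →
        {n | (M i).Accepts (strA X) n}.Finite := by
  let D : ℕ → Type := fun n => {x : Idx (n + 1) → Bool // Yes (n + 1) x ∨ No (n + 1) x}
  have hdef : ∀ n, ∃ x : Idx (n + 1) → Bool, No (n + 1) x := fun n => exists_no (by omega)
  choose A0 hA0 using hdef
  obtain ⟨A, h1, h2⟩ := immune (D := D) (fun n x => Yes (n + 1) x.1)
    (fun i A n => (M i).Accepts (strA (fun n => (A n).1)) n)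
    (fun n => ⟨A0 n, Or.inr (hA0 n)⟩) (by
      intro i n
      refine ⟨(M i).bd n, fun A A' hAA => ?_⟩
      apply PHMachine.accepts_congr
      intro s hs
      apply strA_congr
      intro n' hn'
      beta_reduce
      rw [hAA n' (by omega)]) (by
      intro A q kl n0
      let X : Blocks := fun n => if n < n0 then (A n).1 else A0 n
      have hX : ∀ n, Yes (n + 1) (X n) ∨ No (n + 1) (X n) := by
        intro n
        by_cases h : n < n0
        · simp only [X, if_pos h]
          exact (A n).2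
        · simp only [X, if_neg h]
          exact Or.inr (hA0 n)
      obtain ⟨n, x, h1, h2⟩ := stage hs M X q kl n0
      have hx : Yes (n + 1) x ∨ No (n + 1) x := by
        rcases h2 with h2 | h2
        · exact Or.inl h2.1
        · exact Or.inr h2.1
      have hprom : ∀ n', Yes (n' + 1) (update X n x n') ∨ No (n' + 1) (update X n x n') := by
        intro n'
        by_cases h : n' = n
        · subst h
          rw [update_self]
          exact hx
        · rw [update_of_ne h]
          exact hX n'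
      refine ⟨n, fun n' => ⟨update X n x n', hprom n'⟩, h1, ?_, ?_, ?_⟩
      · intro n' hn'
        apply Subtype.ext
        change update X n x n' = (A n').1
        rw [update_of_ne (by omega)]
        simp only [X, if_pos hn']
      · intro n' hn' hne
        change ¬ Yes (n' + 1) (update X n x n')
        rw [update_of_ne hne]
        simp only [X, if_neg (not_lt.mpr hn')]
        exact not_yes_of_no (hA0 n')
      · change (Yes (n + 1) (update X n x n) ∧ ∀ i < q, i ∉ kl →
          ¬ (M i).Accepts (strA (update X n x)) n) ∨ (¬ Yes (n + 1) (update X n x n) ∧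
          ∃ i < q, i ∉ kl ∧ (M i).Accepts (strA (update X n x)) n)
        rw [update_self]
        rcases h2 with h2 | h2
        · exact Or.inl h2
        · exact Or.inr ⟨not_yes_of_no h2.1, h2.2⟩)
  exact ⟨fun n => (A n).1, fun n => (A n).2, h1, h2⟩

end Pool.Agent.Helper67.EQP
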