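import Mathlib

set_option autoImplicit false
set_option linter.unusedSectionVars false

/-!
Product measures on finite products, restrictions, multilinear extension.
-/

namespace Pool.Agent.Helper67.EQP

open Finset

section pm

variable {ι A B C : Type} [Fintype ι] [DecidableEq ι] [Fintype A] [Fintype B] [Fintype C]

/-- Expectation of `F` under the product of the weights `θ i`. -/
noncomputable def pm (θ : ι → A → ℝ) (F : (ι → A) → ℝ) : ℝ := ∑ a : ι → A, (∏ i, θ i (a i)) * F a

theorem pm_add (θ : ι → A → ℝ) (F G : (ι → A) → ℝ) :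
    pm θ (fun a => F a + G a) = pm θ F + pm θ G := by
  unfold pm
  simp_rw [mul_add]
  rw [sum_add_distrib]

theorem pm_sub (θ : ι → A → ℝ) (F G : (ι → A) → ℝ) :
    pm θ (fun a => F a - G a) = pm θ F - pm θ G := by
  unfold pm
  simp_rw [mul_sub]
  rw [sum_sub_distrib]

theorem pm_mul_left (θ : ι → A → ℝ) (c : ℝ) (F : (ι → A) → ℝ) :
    pm θ (fun a => c * F a) = c * pm θ F := by
  unfold pm
  rw [mul_sum]
  apply sum_congr rfl
  intro a _
  ring

theorem pm_sum {α : Type} (S : Finset α) (θ : ι → A → ℝ) (F : α → (ι → A) → ℝ) :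
    pm θ (fun a => ∑ s ∈ S, F s a) = ∑ s ∈ S, pm θ (F s) := by
  unfold pm
  simp_rw [mul_sum]
  rw [sum_comm]

theorem sum_prod_eq (θ : ι → A → ℝ) : ∑ a : ι → A, ∏ i, θ i (a i) = ∏ i, ∑ b, θ i b := by
  classical
  rw [Finset.prod_univ_sum, Fintype.piFinset_univ]

theorem pm_const (θ : ι → A → ℝ) (h : ∀ i, ∑ b, θ i b = 1) (c : ℝ) : pm θ (fun _ => c) = c := by
  unfold pm
  rw [← sum_mul, sum_prod_eq]
  simp [h]

theorem pm_mono (θ : ι → A → ℝ) (h0 : ∀ i b, 0 ≤ θ i b) {F G : (ι → A) → ℝ}
    (h : ∀ a, F a ≤ G a) : pm θ F ≤ pm θ G := by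
  unfold pm
  apply sum_le_sum
  intro a _
  exact mul_le_mul_of_nonneg_left (h a) (prod_nonneg fun i _ => h0 i (a i))

theorem pm_nonneg (θ : ι → A → ℝ) (h0 : ∀ i b, 0 ≤ θ i b) {F : (ι → A) → ℝ}
    (h : ∀ a, 0 ≤ F a) : 0 ≤ pm θ F := by
  unfold pm
  apply sum_nonneg
  intro a _
  exact mul_nonneg (prod_nonneg fun i _ => h0 i (a i)) (h a)

theorem pm_abs_le (θ : ι → A → ℝ) (h0 : ∀ i b, 0 ≤ θ i b) (F : (ι → A) → ℝ) :
    |pm θ F| ≤ pm θ (fun a => |F a|) := by
  unfold pm
  refine (abs_sum_le_sum_abs _ _).trans (le_of_eq ?_)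
  apply sum_congr rfl
  intro a _
  rw [abs_mul, abs_of_nonneg (prod_nonneg fun i _ => h0 i (a i))]

/-- Functions that factor: the expectation is the product. -/
theorem pm_prod_fun (θ : ι → A → ℝ) (g : ι → A → ℝ) :
    pm θ (fun a => ∏ i, g i (a i)) = ∏ i, ∑ b, θ i b * g i b := by
  unfold pm
  simp_rw [← prod_mul_distrib]
  exact sum_prod_eq (fun i b => θ i b * g i b)

/-- Two independent product measures combined coordinatewise. -/
theorem pm_comp [DecidableEq C] (θ : ι → A → ℝ) (φ : ι → B → ℝ) (ψ : ι → C → ℝ)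
    (m : ι → A → B → C)
    (h : ∀ i c, ψ i c = ∑ a, ∑ b, if m i a b = c then θ i a * φ i b else 0)
    (F : (ι → C) → ℝ) :
    pm θ (fun a => pm φ (fun b => F (fun i => m i (a i) (b i)))) = pm ψ F := by
  classical
  unfold pm
  have key : ∀ c : ι → C, (∏ i, ψ i (c i)) =
      ∑ a : ι → A, ∑ b : ι → B,
        if (fun i => m i (a i) (b i)) = c then (∏ i, θ i (a i)) * ∏ i, φ i (b i) else 0 := by
    intro c
    have h1 : ∀ i, ψ i (c i) =
        ∑ ab : A × B, if m i ab.1 ab.2 = c i then θ i ab.1 * φ i ab.2 else 0 := by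
      intro i
      rw [h, Fintype.sum_prod_type]
    simp_rw [h1]
    rw [← sum_prod_eq (fun i (ab : A × B) =>
      if m i ab.1 ab.2 = c i then θ i ab.1 * φ i ab.2 else 0)]
    rw [← Fintype.sum_prod_type' (fun (a : ι → A) (b : ι → B) =>
      if (fun i => m i (a i) (b i)) = c then (∏ i, θ i (a i)) * ∏ i, φ i (b i) else 0)]
    refine Fintype.sum_equiv (Equiv.arrowProdEquivProdArrow ι (fun _ => A) (fun _ => B)) _ _ ?_
    intro ab
    simp only [Equiv.arrowProdEquivProdArrow, Equiv.coe_fn_mk]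
    by_cases hc : (fun i => m i (ab i).1 (ab i).2) = c
    · rw [if_pos hc, ← prod_mul_distrib]
      apply prod_congr rfl
      intro i _
      rw [if_pos (congrFun hc i)]
    · rw [if_neg hc]
      have : ∃ i, m i (ab i).1 (ab i).2 ≠ c i := by
        by_contra hcon
        push Not at hcon
        exact hc (funext hcon)
      obtain ⟨i, hi⟩ := this
      exact prod_eq_zero (mem_univ i) (if_neg hi)
  symm
  simp_rw [key, sum_mul]
  rw [sum_comm]
  apply sum_congr rfl
  intro a _
  rw [sum_comm, mul_sum]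
  apply sum_congr rfl
  intro b _
  simp_rw [ite_mul, zero_mul]
  rw [sum_ite_eq]
  simp [mul_assoc]

end pm

section restr

variable {ι : Type} [Fintype ι] [DecidableEq ι]

/-- `(-1)^b`. -/
def sg (b : Bool) : ℝ := if b then -1 else 1

@[simp] theorem sg_true : sg true = -1 := rfl
@[simp] theorem sg_false : sg false = 1 := rfl

theorem sg_mul_self (b : Bool) : sg b * sg b = 1 := by cases b <;> simp

theorem abs_sg (b : Bool) : |sg b| = 1 := by cases b <;> simp

theorem sg_not (b : Bool) : sg (!b) = - sg b := by cases b <;> simp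

/-- A restriction applied to an assignment. -/
def mrg (ρ : ι → Option Bool) (z : ι → Bool) : ι → Bool := fun i => (ρ i).getD (z i)

/-- The product distribution on bits with means `y` (a bit `b` counts as `(-1)^b`). -/
noncomputable def mext (y : ι → ℝ) (f : (ι → Bool) → ℝ) : ℝ :=
  pm (fun i b => (1 + sg b * y i) / 2) f

theorem mext_def (y : ι → ℝ) (f : (ι → Bool) → ℝ) :
    mext y f = ∑ z : ι → Bool, (∏ i, (1 + sg (z i) * y i) / 2) * f z := rfl

theorem sum_bool_mean (y : ℝ) : ∑ b : Bool, (1 + sg b * y) / 2 = 1 := by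
  rw [Fintype.sum_bool]
  simp only [sg_true, sg_false]
  ring

theorem mext_const (y : ι → ℝ) (c : ℝ) : mext y (fun _ => c) = c := by
  apply pm_const
  intro i
  exact sum_bool_mean (y i)

theorem mext_weight_nonneg {y : ℝ} (h : |y| ≤ 1) (b : Bool) : 0 ≤ (1 + sg b * y) / 2 := by
  rw [abs_le] at h
  cases b <;> simp <;> linarith [h.1, h.2]

theorem mext_mono {y : ι → ℝ} (hy : ∀ i, |y i| ≤ 1) {f g : (ι → Bool) → ℝ}
    (h : ∀ z, f z ≤ g z) : mext y f ≤ mext y g :=
  pm_mono _ (fun i b => mext_weight_nonneg (hy i) b) h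

theorem mext_add (y : ι → ℝ) (f g : (ι → Bool) → ℝ) :
    mext y (fun z => f z + g z) = mext y f + mext y g := pm_add _ _ _

theorem mext_sub (y : ι → ℝ) (f g : (ι → Bool) → ℝ) :
    mext y (fun z => f z - g z) = mext y f - mext y g := pm_sub _ _ _

theorem mext_mul_left (y : ι → ℝ) (c : ℝ) (f : (ι → Bool) → ℝ) :
    mext y (fun z => c * f z) = c * mext y f := pm_mul_left _ _ _

theorem mext_sum {α : Type} (S : Finset α) (y : ι → ℝ) (F : α → (ι → Bool) → ℝ) :
    mext y (fun a => ∑ s ∈ S, F s a) = ∑ s ∈ S, mext y (F s) := pm_sum _ _ _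

/-- A product distribution as a mixture over restrictions. -/
theorem mext_restrict (θ : ι → Option Bool → ℝ) (y y' : ι → ℝ)
    (h : ∀ i b, (1 + sg b * y i) / 2 = θ i (some b) + θ i none * ((1 + sg b * y' i) / 2))
    (f : (ι → Bool) → ℝ) :
    mext y f = pm θ (fun ρ => mext y' (fun z => f (mrg ρ z))) := by
  symm
  unfold mext mrg
  apply pm_comp θ (fun i b => (1 + sg b * y' i) / 2) _ (fun i r b => r.getD b)
  intro i c
  rw [h]
  have e : ∀ g : Option Bool → ℝ, ∑ r, g r = g none + (g (some true) + g (some false)) := by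
    intro g
    rw [Fintype.sum_option, Fintype.sum_bool]
  rw [e]
  simp only [Option.getD_none, Option.getD_some, Fintype.sum_bool]
  cases c <;> simp <;> ring

/-- Weights of the `p`-random restriction (`none` = the variable stays free). -/
noncomputable def rw' (p : ℝ) (_ : ι) (r : Option Bool) : ℝ :=
  match r with
  | none => p
  | some _ => (1 - p) / 2

theorem rw'_none (p : ℝ) (i : ι) : rw' p i none = p := rfl
theorem rw'_some (p : ℝ) (i : ι) (b : Bool) : rw' p i (some b) = (1 - p) / 2 := rfl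

theorem rw'_sum (p : ℝ) (i : ι) : ∑ r, rw' p i r = 1 := by
  rw [Fintype.sum_option, Fintype.sum_bool]
  simp only [rw'_none, rw'_some]
  ring

theorem rw'_nonneg {p : ℝ} (h0 : 0 ≤ p) (h1 : p ≤ 1) (i : ι) (r : Option Bool) : 0 ≤ rw' p i r := by
  cases r with
  | none => exact h0
  | some b => rw [rw'_some]; linarith

/-- Scaling down the mean = random restriction. -/
theorem mext_scale (p : ℝ) (y : ι → ℝ) (f : (ι → Bool) → ℝ) :
    mext (fun i => p * y i) f = pm (rw' p) (fun ρ => mext y (fun z => f (mrg ρ z))) := by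
  apply mext_restrict
  intro i b
  rw [rw'_none, rw'_some]
  ring

/-- Composition of random restrictions. -/
theorem pm_rw'_comp (p q : ℝ) (G : (ι → Option Bool) → ℝ) :
    pm (rw' p) (fun ρ => pm (rw' q) (fun σ => G (fun i => (ρ i).or (σ i)))) =
      pm (rw' (p * q)) G := by
  apply pm_comp (rw' p) (rw' q) (rw' (p * q)) (fun _ r s => r.or s)
  intro i c
  have e : ∀ g : Option Bool → ℝ, ∑ r, g r = g none + (g (some true) + g (some false)) := by
    intro g
    rw [Fintype.sum_option, Fintype.sum_bool]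
  simp_rw [e]
  rcases c with _ | _ | _ <;> simp [rw'_none, rw'_some] <;> ring

theorem mrg_or (ρ σ : ι → Option Bool) (z : ι → Bool) :
    mrg ρ (mrg σ z) = mrg (fun i => (ρ i).or (σ i)) z := by
  funext i
  unfold mrg
  cases h : ρ i <;> simp [h]

end restr

end Pool.Agent.Helper67.EQP
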