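import Mathlib

set_option autoImplicit false

/-!
# Quantum oracle circuits
-/

namespace Pool.Agent.Helper67.EQP

open Finset

/-- Operations of a quantum oracle circuit with qubits indexed by `W`: a matrix acting on three
distinct qubits, or an oracle gate reading the string of the listed qubits. -/
inductive QOp (W : Type) : Type
  | gate : Matrix (Fin 3 → Bool) (Fin 3 → Bool) ℂ → (Fin 3 ↪ W) → QOp W
  | query : List W → QOp W

/-- The operation is an oracle gate. -/
def QOp.isQuery {W : Type} : QOp W → Bool
  | .gate _ _ => false
  | .query _ => true

/-- The effect of an operation on a vector of amplitudes. An oracle gate multiplies the amplitude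
of a basis state by `-1` if the string read from it belongs to the oracle. -/
noncomputable def QOp.run {W : Type} (A : List Bool → Bool) :
    QOp W → ((W → Bool) → ℂ) → (W → Bool) → ℂ
  | .gate U e, ψ => fun b => ∑ c : Fin 3 → Bool, U (fun i => b (e i)) c * ψ (Function.extend e c b)
  | .query l, ψ => fun b => (if A (l.map b) then -1 else 1) * ψ b

/-- A quantum oracle circuit: the finite set of its qubits, its operations in the order of their
application, and the output qubit. -/
structure QCircuit where
  W : Type
  fintypeW : Fintype W
  decEqW : DecidableEq W
  ops : List (QOp W)
  out : W

attribute [instance] QCircuit.fintypeW QCircuit.decEqW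

/-- The final state, starting with all qubits 0. -/
noncomputable def QCircuit.state (C : QCircuit) (A : List Bool → Bool) : (C.W → Bool) → ℂ :=
  C.ops.foldl (fun ψ o => o.run A ψ) (fun b => if b = (fun _ => false) then 1 else 0)

/-- The probability that measuring the output qubit gives 1. -/
noncomputable def QCircuit.acceptProb (C : QCircuit) (A : List Bool → Bool) : ℝ :=
  ∑ b, if b C.out = true then ‖C.state A b‖ ^ 2 else 0

end Pool.Agent.Helper67.EQP
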