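import Pool.Agent.Helper67.EQP.QExp

set_option autoImplicit false
set_option linter.unusedSectionVars false

/-!
Doubly controlled one-qubit gates.
-/

namespace Pool.Agent.Helper67.EQP

open Finset Function

theorem sum_fin3 {M : Type} [AddCommMonoid M] (F : (Fin 3 → Bool) → M) :
    ∑ c, F c = ∑ x : Bool, ∑ y : Bool, ∑ z : Bool, F ![x, y, z] := by
  have h1 : ∀ {n : ℕ} (F : (Fin (n + 1) → Bool) → M),
      ∑ c, F c = ∑ x : Bool, ∑ y : Fin n → Bool, F (Fin.cons x y) := by
    intro n F
    rw [← Fintype.sum_prod_type' (fun (b : Bool) (y : Fin n → Bool) => F (Fin.cons b y))]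
    exact (Fintype.sum_equiv (Fin.consEquiv fun _ : Fin (n + 1) => Bool) _ _ (fun p => rfl)).symm
  rw [h1]
  apply sum_congr rfl
  intro x _
  rw [h1]
  apply sum_congr rfl
  intro y _
  rw [h1]
  apply sum_congr rfl
  intro z _
  rw [Fintype.sum_unique]
  congr 1

theorem cg_mul (f : Bool → Bool → Bool) (G G' : Bool → Bool → ℝ) :
    cg f G * cg f G' = cg f (fun a b => ∑ z : Bool, G a z * G' z b) := by
  ext a b
  rw [Matrix.mul_apply, sum_fin3]
  unfold cg
  simp only [Fintype.sum_bool, Matrix.cons_val_zero, Matrix.cons_val_one, Matrix.cons_val]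
  generalize ha0 : a 0 = a0
  generalize ha1 : a 1 = a1
  generalize ha2 : a 2 = a2
  generalize hb0 : b 0 = b0
  generalize hb1 : b 1 = b1
  generalize hb2 : b 2 = b2
  cases hf : f a0 a1
  · cases a0 <;> cases a1 <;> cases a2 <;> cases b0 <;> cases b1 <;> cases b2 <;> simp [hf]
  · cases a0 <;> cases a1 <;> cases b0 <;> cases b1 <;> simp [hf]

theorem cg_one (f : Bool → Bool → Bool) : cg f (fun a b => if a = b then 1 else 0) = 1 := by
  ext a b
  unfold cg
  by_cases hab : a = b
  · subst hab
    simp
  · rw [Matrix.one_apply_ne hab]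
    by_cases h01 : a 0 = b 0 ∧ a 1 = b 1
    · rw [if_pos h01]
      have h2 : a 2 ≠ b 2 := by
        intro h
        apply hab
        funext i
        fin_cases i
        · exact h01.1
        · exact h01.2
        · exact h
      rw [if_neg h2]
      beta_reduce
      rw [if_neg h2]
      simp
    · rw [if_neg h01]

theorem cg_star (f : Bool → Bool → Bool) (G : Bool → Bool → ℝ) :
    star (cg f G) = cg f (fun a b => G b a) := by
  ext a b
  rw [Matrix.star_apply]
  unfold cg
  by_cases h01 : b 0 = a 0 ∧ b 1 = a 1
  · rw [if_pos h01, if_pos (show a 0 = b 0 ∧ a 1 = b 1 from ⟨h01.1.symm, h01.2.symm⟩)]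
    rw [h01.1, h01.2]
    by_cases hf : f (a 0) (a 1) = true
    · rw [if_pos hf, if_pos hf]
      simp
    · rw [if_neg hf, if_neg hf]
      by_cases h2 : a 2 = b 2
      · rw [if_pos h2, if_pos h2.symm, star_one]
      · rw [if_neg h2, if_neg (Ne.symm h2), star_zero]
  · rw [if_neg h01, if_neg (fun h => h01 ⟨h.1.symm, h.2.symm⟩), star_zero]

/-- `G` is an orthogonal matrix. -/
def Orth2 (G : Bool → Bool → ℝ) : Prop :=
  ∀ a b, ∑ z : Bool, G a z * G b z = if a = b then 1 else 0

theorem cg_unitary {f : Bool → Bool → Bool} {G : Bool → Bool → ℝ} (hG : Orth2 G) :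
    cg f G ∈ Matrix.unitaryGroup (Fin 3 → Bool) ℂ := by
  rw [Matrix.mem_unitaryGroup_iff, cg_star, cg_mul, ← cg_one f]
  congr 1
  funext a b
  exact hG a b

variable {W : Type} [DecidableEq W]

/-- Effect of the doubly controlled gate. -/
noncomputable def cop (f : Bool → Bool → Bool) (G : Bool → Bool → ℝ) (w1 w2 w3 : W)
    (ψ : (W → Bool) → ℂ) : (W → Bool) → ℂ := fun b =>
  if f (b w1) (b w2) then ∑ z : Bool, ((G (b w3) z : ℝ) : ℂ) * ψ (update b w3 z) else ψ b

theorem run_cg (A : List Bool → Bool) (f : Bool → Bool → Bool) (G : Bool → Bool → ℝ)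
    (e : Fin 3 ↪ W) (ψ : (W → Bool) → ℂ) :
    (QOp.gate (cg f G) e).run A ψ = cop f G (e 0) (e 1) (e 2) ψ := by
  funext b
  change (∑ c : Fin 3 → Bool, cg f G (fun i => b (e i)) c * ψ (Function.extend e c b)) = _
  unfold cop
  have h13 : e 0 ≠ e 2 := fun h => absurd (e.injective h) (by decide)
  have h23 : e 1 ≠ e 2 := fun h => absurd (e.injective h) (by decide)
  have hext : ∀ z : Bool, Function.extend e ![b (e 0), b (e 1), z] b =
      update b (e 2) z := by
    intro z
    funext w
    by_cases h1 : w = e 0
    · subst h1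
      rw [update_of_ne h13]
      exact e.injective.extend_apply ![b (e 0), b (e 1), z] b 0
    · by_cases h2 : w = e 1
      · subst h2
        rw [update_of_ne h23]
        exact e.injective.extend_apply ![b (e 0), b (e 1), z] b 1
      · by_cases h3 : w = e 2
        · subst h3
          rw [update_self]
          exact e.injective.extend_apply ![b (e 0), b (e 1), z] b 2
        · rw [update_of_ne h3, Function.extend_apply']
          rintro ⟨i, hi⟩
          fin_cases i
          · exact h1 hi.symm
          · exact h2 hi.symm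
          · exact h3 hi.symm
  rw [sum_fin3]
  have hcg : ∀ x y z : Bool, cg f G (fun i => b (e i)) ![x, y, z] =
      if b (e 0) = x ∧ b (e 1) = y then
        (if f (b (e 0)) (b (e 1)) then ((G (b (e 2)) z : ℝ) : ℂ) else
          if b (e 2) = z then 1 else 0) else 0 := by
    intro x y z
    rfl
  simp_rw [hcg]
  have hsum : ∑ x : Bool, ∑ y : Bool, ∑ z : Bool, (if b (e 0) = x ∧ b (e 1) = y then
        (if f (b (e 0)) (b (e 1)) then ((G (b (e 2)) z : ℝ) : ℂ) else
          if b (e 2) = z then 1 else 0) else 0) *
        ψ (Function.extend e ![x, y, z] b) =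
      ∑ z : Bool, (if f (b (e 0)) (b (e 1)) then ((G (b (e 2)) z : ℝ) : ℂ) else
        if b (e 2) = z then 1 else 0) *
        ψ (Function.extend e ![b (e 0), b (e 1), z] b) := by
    rw [sum_eq_single (b (e 0)), sum_eq_single (b (e 1))]
    · simp
    · intro y _ hy
      apply sum_eq_zero
      intro z _
      rw [if_neg (fun h => hy h.2.symm), zero_mul]
    · intro h; exact absurd (mem_univ _) h
    · intro x _ hx
      apply sum_eq_zero
      intro y _
      apply sum_eq_zero
      intro z _
      rw [if_neg (fun h => hx h.1.symm), zero_mul]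
    · intro h; exact absurd (mem_univ _) h
  rw [hsum]
  simp_rw [hext]
  by_cases hf : f (b (e 0)) (b (e 1)) = true
  · simp only [hf, if_true]
  · simp only [hf, if_false, Bool.false_eq_true]
    rw [sum_eq_single (b (e 2))]
    · simp
    · intro z _ hz
      rw [if_neg (Ne.symm hz), zero_mul]
    · intro h; exact absurd (mem_univ _) h

theorem cop_inv {f : Bool → Bool → Bool} {G : Bool → Bool → ℝ} (hG : Orth2 (fun a b => G b a))
    {w1 w2 w3 : W} (h13 : w1 ≠ w3) (h23 : w2 ≠ w3) (ψ : (W → Bool) → ℂ) :
    cop f (fun a b => G b a) w1 w2 w3 (cop f G w1 w2 w3 ψ) = ψ := by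
  funext b
  unfold cop
  by_cases hf : f (b w1) (b w2) = true
  · have h1 : ∀ z, update b w3 z w1 = b w1 := fun z => update_of_ne h13 _ _
    have h2 : ∀ z, update b w3 z w2 = b w2 := fun z => update_of_ne h23 _ _
    simp only [h1, h2, hf, if_true, update_self, update_idem, Fintype.sum_bool]
    have e := fun a b => hG a b
    simp only [Fintype.sum_bool] at e
    have e1 := e true true
    have e2 := e true false
    have e3 := e false false
    have e4 := e false true
    simp only [if_true, Bool.true_eq_false, Bool.false_eq_true, if_false] at e1 e2 e3 e4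
    have c1 : ((G true true : ℝ) : ℂ) * G true true + (G false true : ℝ) * (G false true : ℝ) = 1 := by
      exact_mod_cast e1
    have c2 : ((G true true : ℝ) : ℂ) * G true false + (G false true : ℝ) * (G false false : ℝ) = 0 := by
      exact_mod_cast e2
    have c3 : ((G true false : ℝ) : ℂ) * G true false + (G false false : ℝ) * (G false false : ℝ) =
        1 := by
      exact_mod_cast e3
    cases hb : b w3
    · have hu : update b w3 false = b := by rw [← hb, update_eq_self]
      rw [hu]
      linear_combination (ψ (update b w3 true)) * c2 + (ψ b) * c3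
    · have hu : update b w3 true = b := by rw [← hb, update_eq_self]
      rw [hu]
      linear_combination (ψ b) * c1 + (ψ (update b w3 false)) * c2
  · simp only [hf, if_false, Bool.false_eq_true]

variable [Fintype W]

theorem cop_adj {f : Bool → Bool → Bool} {G : Bool → Bool → ℝ} {w1 w2 w3 : W} (h13 : w1 ≠ w3)
    (h23 : w2 ≠ w3) (φ ψ : (W → Bool) → ℂ) :
    ∑ b, cop f G w1 w2 w3 φ b * ψ b = ∑ b, φ b * cop f (fun a b => G b a) w1 w2 w3 ψ b := by
  let e : (W → Bool) × Bool ≃ (W → Bool) × Bool :=
    ⟨fun p => (update p.1 w3 p.2, p.1 w3), fun p => (update p.1 w3 p.2, p.1 w3), by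
      intro p; simp, by intro p; simp⟩
  have h1 : ∀ (b : W → Bool) z, update b w3 z w1 = b w1 := fun b z => update_of_ne h13 _ _
  have h2 : ∀ (b : W → Bool) z, update b w3 z w2 = b w2 := fun b z => update_of_ne h23 _ _
  have key : ∑ p : (W → Bool) × Bool, (if f (p.1 w1) (p.1 w2) then
      ((G (p.1 w3) p.2 : ℝ) : ℂ) * φ (update p.1 w3 p.2) * ψ p.1 else 0) =
      ∑ p : (W → Bool) × Bool, (if f (p.1 w1) (p.1 w2) then
      φ p.1 * (((G p.2 (p.1 w3) : ℝ) : ℂ) * ψ (update p.1 w3 p.2)) else 0) := by
    refine Fintype.sum_equiv e _ _ ?_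
    intro p
    simp only [e, Equiv.coe_fn_mk, h1, h2, update_self, update_idem, update_eq_self]
    split_ifs
    · ring
    · rfl
  rw [Fintype.sum_prod_type, Fintype.sum_prod_type] at key
  have hL : ∀ b, cop f G w1 w2 w3 φ b * ψ b = (∑ z : Bool, (if f (b w1) (b w2) then
      ((G (b w3) z : ℝ) : ℂ) * φ (update b w3 z) * ψ b else 0)) +
      (if f (b w1) (b w2) then 0 else φ b * ψ b) := by
    intro b
    unfold cop
    by_cases hf : f (b w1) (b w2) = true
    · simp only [hf, if_true, sum_mul, add_zero]
    · simp [hf]
  have hR : ∀ b, φ b * cop f (fun a b => G b a) w1 w2 w3 ψ b =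
      (∑ z : Bool, (if f (b w1) (b w2) then
      φ b * (((G z (b w3) : ℝ) : ℂ) * ψ (update b w3 z)) else 0)) +
      (if f (b w1) (b w2) then 0 else φ b * ψ b) := by
    intro b
    unfold cop
    by_cases hf : f (b w1) (b w2) = true
    · simp only [hf, if_true, mul_sum, add_zero]
    · simp [hf]
  simp_rw [hL, hR]
  rw [sum_add_distrib, sum_add_distrib, key]

/-- Applying the gate to many wires. -/
theorem cop_many {f : Bool → Bool → Bool} {G : Bool → Bool → ℝ} {w1 w2 : W} (L : List W)
    (hL : L.Nodup) (h1 : w1 ∉ L) (h2 : w2 ∉ L) (ψ : (W → Bool) → ℂ) (b : W → Bool) :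
    L.foldl (fun φ l => cop f G w1 w2 l φ) ψ b =
      if f (b w1) (b w2) then ∑ y : W → Bool, (if ∀ w, w ∉ L → y w = b w then
        ((∏ w ∈ L.toFinset, G (b w) (y w) : ℝ) : ℂ) * ψ y else 0) else ψ b := by
  induction L using List.reverseRecOn generalizing b with
  | nil =>
    simp only [List.foldl_nil, List.not_mem_nil, not_false_eq_true, forall_const,
      List.toFinset_nil, prod_empty, Complex.ofReal_one, one_mul]
    split_ifs with hf
    · rw [sum_eq_single b]
      · simp
      · intro y _ hy
        rw [if_neg]
        intro h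
        exact hy (funext h)
      · intro h; exact absurd (mem_univ _) h
    · rfl
  | append_singleton L l ih =>
    rw [List.foldl_append, List.foldl_cons, List.foldl_nil]
    have hnd := List.nodup_append.mp hL
    have hl : l ∉ L := fun h => hnd.2.2 l h l (by simp) rfl
    have hw1 : w1 ∉ L := fun h => h1 (by simp [h])
    have hw2 : w2 ∉ L := fun h => h2 (by simp [h])
    have hl1 : w1 ≠ l := fun h => h1 (by simp [h])
    have hl2 : w2 ≠ l := fun h => h2 (by simp [h])
    change (if f (b w1) (b w2) then ∑ z : Bool, ((G (b l) z : ℝ) : ℂ) *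
      L.foldl (fun φ l => cop f G w1 w2 l φ) ψ (update b l z) else
      L.foldl (fun φ l => cop f G w1 w2 l φ) ψ b) = _
    split_ifs with hf
    · simp_rw [ih hnd.1 hw1 hw2, update_of_ne hl1, update_of_ne hl2, hf, if_true, mul_sum]
      rw [sum_comm]
      apply sum_congr rfl
      intro y _
      rw [sum_eq_single (y l)]
      · by_cases hy : ∀ w, w ∉ L ++ [l] → y w = b w
        · rw [if_pos hy, if_pos, List.toFinset_append]
          · have e1 : L.toFinset ∪ [l].toFinset = insert l L.toFinset := by
              ext w; simp [or_comm]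
            rw [e1, prod_insert (by simpa using hl)]
            have e2 : ∏ w ∈ L.toFinset, G (update b l (y l) w) (y w) =
                ∏ w ∈ L.toFinset, G (b w) (y w) := by
              apply prod_congr rfl
              intro w hw
              rw [update_of_ne]
              rintro rfl
              exact hl (by simpa using hw)
            rw [e2]
            push_cast
            ring
          · intro w hw
            by_cases hwl : w = l
            · subst hwl; simp
            · rw [update_of_ne hwl]
              exact hy w (by simp [hw, hwl])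
        · rw [if_neg hy, if_neg, mul_zero]
          intro h
          apply hy
          intro w hw
          simp only [List.mem_append, List.mem_singleton, not_or] at hw
          have := h w hw.1
          rwa [update_of_ne hw.2] at this
      · intro z _ hz
        rw [if_neg, mul_zero]
        intro h
        have := h l hl
        rw [update_self] at this
        exact hz this.symm
      · intro h; exact absurd (mem_univ _) h
    · rw [ih hnd.1 hw1 hw2, if_neg hf]

end Pool.Agent.Helper67.EQP
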