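import Pool.Agent.Helper67.EQP.QGate

set_option autoImplicit false
set_option linter.unusedSectionVars false

/-!
Lists of controlled one-qubit gates.
-/

namespace Pool.Agent.Helper67.EQP

open Finset Function

section lists

variable {W : Type} [DecidableEq W]

/-- Effect of a gate. -/
noncomputable def CG.ap (g : CG W) (ψ : (W → Bool) → ℂ) : (W → Bool) → ℂ :=
  cop g.f g.G (g.w 0) (g.w 1) (g.w 2) ψ

theorem CG.ne02 (g : CG W) : g.w 0 ≠ g.w 2 := fun h => absurd (g.w.injective h) (by decide)

theorem CG.ne12 (g : CG W) : g.w 1 ≠ g.w 2 := fun h => absurd (g.w.injective h) (by decide)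

theorem CG.run_op (A : List Bool → Bool) (g : CG W) (ψ : (W → Bool) → ℂ) :
    g.op.run A ψ = g.ap ψ := run_cg A g.f g.G g.w ψ

/-- Effect of a list of gates. -/
noncomputable def aps (l : List (CG W)) (ψ : (W → Bool) → ℂ) : (W → Bool) → ℂ :=
  l.foldl (fun φ g => g.ap φ) ψ

theorem aps_cons (g : CG W) (l : List (CG W)) (ψ : (W → Bool) → ℂ) :
    aps (g :: l) ψ = aps l (g.ap ψ) := rfl

theorem aps_nil (ψ : (W → Bool) → ℂ) : aps [] ψ = ψ := rfl

theorem aps_append (l l' : List (CG W)) (ψ : (W → Bool) → ℂ) :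
    aps (l ++ l') ψ = aps l' (aps l ψ) := List.foldl_append

theorem foldl_ops (A : List Bool → Bool) (l : List (CG W)) (ψ : (W → Bool) → ℂ) :
    (l.map CG.op).foldl (fun ψ o => o.run A ψ) ψ = aps l ψ := by
  induction l generalizing ψ with
  | nil => rfl
  | cons g l ih =>
    rw [List.map_cons, List.foldl_cons, CG.run_op, ih]
    rfl

theorem CG.inv_inv (g : CG W) : g.inv.inv = g := rfl

theorem CG.ap_inv (g : CG W) (hG : Orth2 g.G) (ψ : (W → Bool) → ℂ) : g.ap (g.inv.ap ψ) = ψ :=
  cop_inv (G := g.inv.G) hG g.ne02 g.ne12 ψ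

theorem aps_inv (l : List (CG W)) (hl : ∀ g ∈ l, Orth2 g.G) (ψ : (W → Bool) → ℂ) :
    aps l (aps (l.reverse.map CG.inv) ψ) = ψ := by
  induction l generalizing ψ with
  | nil => rfl
  | cons g l ih =>
    rw [aps_cons, List.reverse_cons, List.map_append, aps_append]
    change aps l (g.ap (g.inv.ap (aps (l.reverse.map CG.inv) ψ))) = ψ
    rw [CG.ap_inv g (hl g (by simp))]
    exact ih (fun g' hg' => hl g' (by simp [hg'])) ψ

theorem CG.ap_lin (g : CG W) (x : ℂ) (φ ψ : (W → Bool) → ℂ) :
    g.ap (fun b => x * φ b - ψ b) = fun b => x * g.ap φ b - g.ap ψ b := by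
  funext b
  unfold CG.ap cop
  split_ifs
  · rw [mul_sum, ← sum_sub_distrib]
    apply sum_congr rfl
    intro z _
    ring
  · rfl

theorem aps_lin (l : List (CG W)) (x : ℂ) (φ ψ : (W → Bool) → ℂ) :
    aps l (fun b => x * φ b - ψ b) = fun b => x * aps l φ b - aps l ψ b := by
  induction l generalizing φ ψ with
  | nil => rfl
  | cons g l ih => rw [aps_cons, CG.ap_lin, ih]; rfl

/-- A state vanishing unless the wire `w` has the value `x`. -/
theorem aps_supp (l : List (CG W)) (w : W) (x : Bool) (hl : ∀ g ∈ l, g.w 2 ≠ w)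
    (ψ : (W → Bool) → ℂ) (hψ : ∀ b, b w ≠ x → ψ b = 0) : ∀ b, b w ≠ x → aps l ψ b = 0 := by
  induction l generalizing ψ with
  | nil => exact hψ
  | cons g l ih =>
    rw [aps_cons]
    apply ih (fun g' hg' => hl g' (by simp [hg']))
    intro b hb
    have hg := hl g (by simp)
    unfold CG.ap cop
    split_ifs
    · apply sum_eq_zero
      intro z _
      rw [hψ, mul_zero]
      rw [update_of_ne hg.symm]
      exact hb
    · exact hψ b hb

variable [Fintype W]

theorem CG.ap_adj (g : CG W) (φ ψ : (W → Bool) → ℂ) :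
    ∑ b, g.ap φ b * ψ b = ∑ b, φ b * g.inv.ap ψ b := cop_adj g.ne02 g.ne12 φ ψ

theorem aps_adj (l : List (CG W)) (φ ψ : (W → Bool) → ℂ) :
    ∑ b, aps l φ b * ψ b = ∑ b, φ b * aps (l.reverse.map CG.inv) ψ b := by
  induction l generalizing φ with
  | nil => rfl
  | cons g l ih =>
    rw [aps_cons, ih, List.reverse_cons, List.map_append, aps_append, CG.ap_adj]
    rfl

end lists

section ladder

variable {W : Type} [DecidableEq W]

/-- Action on basis states of a controlled negation. -/
def CG.step (g : CG W) (b : W → Bool) : W → Bool :=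
  if g.f (b (g.w 0)) (b (g.w 1)) then update b (g.w 2) (!b (g.w 2)) else b

theorem CG.step_step (g : CG W) (b : W → Bool) : g.step (g.step b) = b := by
  unfold CG.step
  by_cases h : g.f (b (g.w 0)) (b (g.w 1)) = true
  · rw [if_pos h, update_of_ne g.ne02, update_of_ne g.ne12, if_pos h, update_self, update_idem,
      Bool.not_not, update_eq_self]
  · rw [if_neg h, if_neg h]

theorem CG.ap_of_X (g : CG W) (hg : g.G = gX) (ψ : (W → Bool) → ℂ) (b : W → Bool) :
    g.ap ψ b = ψ (g.step b) := by
  unfold CG.ap cop CG.step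
  rw [hg]
  split_ifs
  · rw [Fintype.sum_bool]
    cases h : b (g.w 2) <;> simp [gX]
  · rfl

theorem aps_of_X (l : List (CG W)) (hl : ∀ g ∈ l, g.G = gX) (ψ : (W → Bool) → ℂ)
    (b : W → Bool) : aps l ψ b = ψ (l.foldr (fun g b => g.step b) b) := by
  induction l generalizing ψ with
  | nil => rfl
  | cons g l ih =>
    rw [aps_cons, ih (fun g' hg' => hl g' (by simp [hg'])), CG.ap_of_X g (hl g (by simp))]
    rfl

theorem fold_back (l : List (CG W)) (b : W → Bool) :
    l.foldr (fun g b => g.step b) (l.foldl (fun b g => g.step b) b) = b := by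
  induction l generalizing b with
  | nil => rfl
  | cons g l ih => rw [List.foldl_cons, List.foldr_cons, ih, CG.step_step]

theorem aps_sandwich (l : List (CG W)) (hl : ∀ g ∈ l, g.G = gX) (g : CG W) (hg : g.G = gN)
    (hgf : ∀ a b, g.f a b = true) (ψ : (W → Bool) → ℂ) (b : W → Bool) :
    aps (l ++ g :: l.reverse) ψ b =
      (if (l.foldl (fun b g => g.step b) b) (g.w 2) then 1 else -1) * ψ b := by
  rw [aps_append, aps_cons, aps_of_X l.reverse (fun g' hg' => hl g' (by simpa using hg')),
    List.foldr_reverse]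
  set c := l.foldl (fun b g => g.step b) b with hc
  have h1 : g.ap (aps l ψ) c = (if c (g.w 2) then 1 else -1) * aps l ψ c := by
    unfold CG.ap cop
    rw [hg, if_pos (hgf _ _), Fintype.sum_bool]
    cases h : c (g.w 2)
    · have : update c (g.w 2) false = c := by rw [← h, update_eq_self]
      rw [this]
      simp [gN]
    · have : update c (g.w 2) true = c := by rw [← h, update_eq_self]
      rw [this]
      simp [gN]
  rw [h1, aps_of_X l hl, hc, fold_back]

/-- The conjunction computed by the ladder. -/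
theorem ladder_fold (K : ℕ) (an : Fin (K + 1) → W) (mn : Fin K → W) (gs : Fin K → CG W)
    (hf : ∀ l, (gs l).f = fun a b => a && !b) (h0 : ∀ l, (gs l).w 0 = an l.castSucc)
    (h1 : ∀ l, (gs l).w 1 = mn l) (h2 : ∀ l, (gs l).w 2 = an l.succ)
    (han : Injective an) (hmn : ∀ k l, an k ≠ mn l) (b : W → Bool)
    (hb : ∀ k, k ≠ 0 → b (an k) = false) :
    ((List.finRange K).map gs).foldl (fun b g => g.step b) b (an (Fin.last K)) =
      (b (an 0) && decide (∀ l, b (mn l) = false)) := by
  induction K generalizing b with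
  | zero => simp
  | succ K ih =>
    rw [List.finRange_succ, List.map_cons, List.map_map, List.foldl_cons]
    have hne : ∀ l, mn l ≠ an (Fin.succ 0) := fun l h => hmn _ l h.symm
    have hstep : ((gs 0).step b) = update b (an (Fin.succ 0)) (b (an 0) && !b (mn 0)) := by
      unfold CG.step
      rw [hf, h0, h1, h2, hb (Fin.succ 0) (Fin.succ_ne_zero 0)]
      have e0 : (0 : Fin (K + 1)).castSucc = 0 := rfl
      rw [e0]
      by_cases h : (b (an 0) && !b (mn 0)) = true
      · rw [if_pos h, h]
        rfl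
      · rw [if_neg h]
        rw [Bool.not_eq_true] at h
        rw [h, ← hb (Fin.succ 0) (Fin.succ_ne_zero 0), update_eq_self]
    rw [hstep]
    have hlast : (Fin.last (K + 1)) = Fin.succ (Fin.last K) := rfl
    rw [hlast]
    have := ih (fun k => an k.succ) (fun l => mn l.succ) (gs ∘ Fin.succ)
      (fun l => hf _) (fun l => by rw [comp_apply, h0]; rfl) (fun l => h1 _) (fun l => h2 _)
      (fun a b h => Fin.succ_injective _ (han h)) (fun k l => hmn _ _)
      (update b (an (Fin.succ 0)) (b (an 0) && !b (mn 0))) (by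
        intro k hk
        rw [update_of_ne (fun h => hk (Fin.succ_injective _ (han h)))]
        exact hb _ (Fin.succ_ne_zero k))
    rw [this, update_self]
    have h5 : (∀ l : Fin K, update b (an (Fin.succ 0)) (b (an 0) && !b (mn 0)) (mn l.succ) = false) ↔
        ∀ l : Fin K, b (mn l.succ) = false := by
      apply forall_congr'
      intro l
      rw [update_of_ne (hne _)]
    have h6 : (∀ l : Fin (K + 1), b (mn l) = false) ↔ b (mn 0) = false ∧
        ∀ l : Fin K, b (mn l.succ) = false := by
      rw [Fin.forall_fin_succ]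
    simp only [h5, h6, Bool.decide_and, Bool.and_assoc]
    cases b (mn 0) <;> simp

end ladder

end Pool.Agent.Helper67.EQP
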