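import Pool.Agent.Helper67.EQP.QLift
import Pool.Agent.Helper67.EQP.Exact

set_option autoImplicit false
set_option linter.unusedSectionVars false

/-!
The circuits simulate the query algorithm.
-/

namespace Pool.Agent.Helper67.EQP

open Finset Function

section fam

variable {W : Type} [DecidableEq W] [Fintype W]

theorem cop_fam {f : Bool → Bool → Bool} {G : Bool → Bool → ℝ} {w1 w2 : W} {N : ℕ}
    (q : Fin N → W) (hq : Injective q) (h1 : ∀ l, w1 ≠ q l) (h2 : ∀ l, w2 ≠ q l)
    (ψ : (W → Bool) → ℂ) (b : W → Bool) :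
    ((List.finRange N).map q).foldl (fun φ l => cop f G w1 w2 l φ) ψ b =
      if f (b w1) (b w2) then ∑ k : Fin N → Bool,
        ((∏ l, G (b (q l)) (k l) : ℝ) : ℂ) * ψ (extend q k b) else ψ b := by
  rw [cop_many ((List.finRange N).map q) (List.Nodup.map hq (List.nodup_finRange N))
    (by simp only [List.mem_map, List.mem_finRange, true_and, not_exists]
        exact fun l h => h1 l h.symm)
    (by simp only [List.mem_map, List.mem_finRange, true_and, not_exists]
        exact fun l h => h2 l h.symm)]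
  split_ifs with hf
  · have hmem : ∀ w, w ∉ (List.finRange N).map q ↔ ∀ l, q l ≠ w := by
      intro w
      simp
    simp_rw [hmem]
    rw [← sum_filter]
    have hprod : ∀ y : W → Bool, ∏ w ∈ ((List.finRange N).map q).toFinset, G (b w) (y w) =
        ∏ l, G (b (q l)) (y (q l)) := by
      intro y
      have : ((List.finRange N).map q).toFinset = univ.image q := by
        ext w
        simp
      rw [this, prod_image (fun a _ b _ h => hq h)]
    simp_rw [hprod]
    refine sum_bij' (fun y _ => y ∘ q) (fun k _ => extend q k b) ?_ ?_ ?_ ?_ ?_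
    · intro y _
      exact mem_univ _
    · intro k _
      rw [mem_filter]
      refine ⟨mem_univ _, ?_⟩
      intro w hw
      exact extend_apply' _ _ _ (fun ⟨l, hl⟩ => hw l hl)
    · intro y hy
      rw [mem_filter] at hy
      funext w
      by_cases h : ∃ l, q l = w
      · obtain ⟨l, rfl⟩ := h
        rw [hq.extend_apply]
        rfl
      · rw [extend_apply' _ _ _ h]
        exact (hy.2 w (fun l hl => h ⟨l, hl⟩)).symm
    · intro k _
      funext l
      exact hq.extend_apply _ _ _
    · intro y hy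
      rw [mem_filter] at hy
      have : extend q (y ∘ q) b = y := by
        funext w
        by_cases h : ∃ l, q l = w
        · obtain ⟨l, rfl⟩ := h
          rw [hq.extend_apply]
          rfl
        · rw [extend_apply' _ _ _ h]
          exact (hy.2 w (fun l hl => h ⟨l, hl⟩)).symm
      rw [this]
      rfl
  · rfl

end fam

section cfg

/-- Padding by zeros. -/
def pad {a N : ℕ} (i : Fin a → Bool) : Fin N → Bool :=
  fun l => if h : (l : ℕ) < a then i ⟨l, h⟩ else false

/-- Address of a basis state. -/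
def adr {m : ℕ} (a : B0 m) : Fin (3 * m + 4) → Bool := Sum.elim (fun i => pad i) (fun j => pad j) a

/-- Wire values of a basis state. -/
def cfg0 {m : ℕ} (a : B0 m × Bool) : Wire m → Bool :=
  Sum.elim ![false, a.2, a.1.isRight] (Sum.elim (adr a.1) (fun _ => false))

variable {m : ℕ} {W : Type} [DecidableEq W] [Fintype W]

/-- Values of all wires. -/
noncomputable def cfg (e : Wire m ↪ W) (β : W → Bool) (a : B0 m × Bool) : W → Bool :=
  extend e (cfg0 a) β

theorem cfg_e (e : Wire m ↪ W) (β : W → Bool) (a : B0 m × Bool) (w : Wire m) :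
    cfg e β a (e w) = cfg0 a w := e.injective.extend_apply _ _ _

theorem eq_cfg {e : Wire m ↪ W} {β : W → Bool} {a : B0 m × Bool} {b : W → Bool} :
    b = cfg e β a ↔ (∀ w, (∀ w', e w' ≠ w) → b w = β w) ∧ b (e wZ) = false ∧ b (e wC) = a.2 ∧
      b (e wP) = a.1.isRight ∧ (∀ l, b (e (wA l)) = adr a.1 l) ∧ ∀ l, b (e (wT l)) = false := by
  constructor
  · rintro rfl
    refine ⟨fun w hw => extend_apply' _ _ _ (fun ⟨w', h⟩ => hw w' h), ?_, ?_, ?_, ?_, ?_⟩
    · rw [cfg_e]; rfl
    · rw [cfg_e]; rfl
    · rw [cfg_e]; rfl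
    · intro l; rw [cfg_e]; rfl
    · intro l; rw [cfg_e]; rfl
  · rintro ⟨h1, h2, h3, h4, h5, h6⟩
    funext w
    by_cases hw : ∃ w', e w' = w
    · obtain ⟨w', rfl⟩ := hw
      rw [cfg_e]
      rcases w' with i | (l | l)
      · fin_cases i
        · exact h2
        · exact h3
        · exact h4
      · exact h5 l
      · exact h6 l
    · rw [cfg, extend_apply' _ _ _ hw]
      exact h1 w (fun w' h => hw ⟨w', h⟩)

theorem pad_lt {a N : ℕ} (i : Fin a → Bool) (l : Fin a) (h : a ≤ N) :
    (pad i : Fin N → Bool) (l.castLE h) = i l := by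
  unfold pad
  rw [dif_pos (show ((l.castLE h : Fin N) : ℕ) < a from l.2)]
  rfl

theorem adr_inj {a a' : B0 m} (h1 : a.isRight = a'.isRight) (h2 : adr a = adr a') : a = a' := by
  rcases a with i | i <;> rcases a' with k | k
  · congr 1
    funext l
    have := congrFun h2 (l.castLE (by omega))
    simpa [adr, pad_lt] using this
  · simp at h1
  · simp at h1
  · congr 1
    funext l
    have := congrFun h2 (l.castLE (by omega))
    simpa [adr, pad_lt] using this

theorem cfg_inj {e : Wire m ↪ W} {β : W → Bool} {a a' : B0 m × Bool}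
    (h : cfg e β a = cfg e β a') : a = a' := by
  have h0 := eq_cfg.mp h
  obtain ⟨h1, h2, h3, h4, h5, h6⟩ := h0
  rw [cfg_e] at h3 h4
  have h7 : a.2 = a'.2 := h3
  have h8 : a.1.isRight = a'.1.isRight := h4
  have h9 : adr a.1 = adr a'.1 := by
    funext l
    rw [← h5 l, cfg_e]
    rfl
  exact Prod.ext (adr_inj h8 h9) h7

/-- Embedding of a state of the algorithm. -/
noncomputable def lift (e : Wire m ↪ W) (β : W → Bool) (v : B0 m × Bool → ℝ) :
    (W → Bool) → ℂ := fun b => ∑ a, if b = cfg e β a then ((v a : ℝ) : ℂ) else 0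

theorem lift_cfg (e : Wire m ↪ W) (β : W → Bool) (v : B0 m × Bool → ℝ) (a : B0 m × Bool) :
    lift e β v (cfg e β a) = v a := by
  unfold lift
  rw [sum_eq_single a]
  · rw [if_pos rfl]
  · intro a' _ ha'
    rw [if_neg (fun h => ha' (cfg_inj h).symm)]
  · intro h; exact absurd (mem_univ _) h

theorem lift_not {e : Wire m ↪ W} {β : W → Bool} {v : B0 m × Bool → ℝ} {b : W → Bool}
    (h : ∀ a, b ≠ cfg e β a) : lift e β v b = 0 := by
  unfold lift
  apply sum_eq_zero
  intro a _
  rw [if_neg (h a)]

/-- Criterion for equality with an embedded state. -/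
theorem eq_lift {e : Wire m ↪ W} {β : W → Bool} {v : B0 m × Bool → ℝ} {ψ : (W → Bool) → ℂ}
    (h1 : ∀ a, ψ (cfg e β a) = v a) (h2 : ∀ b, (∀ a, b ≠ cfg e β a) → ψ b = 0) :
    ψ = lift e β v := by
  funext b
  by_cases hb : ∃ a, b = cfg e β a
  · obtain ⟨a, rfl⟩ := hb
    rw [h1, lift_cfg]
  · push Not at hb
    rw [h2 b hb, lift_not hb]

end cfg

end Pool.Agent.Helper67.EQP
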