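import Pool.Agent.Helper67.EQP.QSim
import Pool.Agent.Helper67.EQP.CDefs

set_option autoImplicit false
set_option linter.unusedSectionVars false

/-!
The circuits simulate the query algorithm: the gates.
-/

namespace Pool.Agent.Helper67.EQP

open Finset Function

theorem CG.map_refl {W : Type} (g : CG W) : g.map (Embedding.refl W) = g := rfl

section ops

variable {m : ℕ} {W : Type} [DecidableEq W] [Fintype W] {e : Wire m ↪ W} {β : W → Bool}

theorem ewne {w w' : Wire m} (h : w ≠ w') : e w ≠ e w' := fun h' => h (e.injective h')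

theorem upd_cfg (a : B0 m × Bool) (z : Bool) :
    update (cfg e β a) (e wC) z = cfg e β (a.1, z) := by
  rw [eq_cfg]
  obtain ⟨h1, h2, h3, h4, h5, h6⟩ := eq_cfg.mp (rfl : cfg e β a = cfg e β a)
  refine ⟨fun w hw => ?_, ?_, update_self _ _ _, ?_, fun l => ?_, fun l => ?_⟩
  · rw [update_of_ne (fun h => hw wC h.symm)]
    exact h1 w hw
  · rw [update_of_ne (ewne (by simp [wZ, wC]))]
    exact h2
  · rw [update_of_ne (ewne (by simp [wP, wC]))]
    exact h4
  · rw [update_of_ne (ewne (by simp [wA, wC]))]
    exact h5 l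
  · rw [update_of_ne (ewne (by simp [wT, wC]))]
    exact h6 l

/-- A gate on the control wire. -/
theorem ap_c (G : Bool → Bool → ℝ) (h : (wZ : Wire m) ≠ wP ∧ (wZ : Wire m) ≠ wC ∧
    (wP : Wire m) ≠ wC) (v : B0 m × Bool → ℝ) :
    (CG.map e ⟨fun _ _ => true, G, wires wZ wP wC h⟩).ap (lift e β v) =
      lift e β (fun a => ∑ z, G a.2 z * v (a.1, z)) := by
  apply eq_lift
  · intro a
    have h1 : (CG.map e ⟨fun _ _ => true, G, wires wZ wP wC h⟩).ap (lift e β v) (cfg e β a) =
        ∑ z : Bool, ((G (cfg e β a (e wC)) z : ℝ) : ℂ) *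
          lift e β v (update (cfg e β a) (e wC) z) := rfl
    rw [h1]
    simp_rw [upd_cfg, lift_cfg]
    rw [cfg_e]
    push_cast
    rfl
  · intro b hb
    have h1 : (CG.map e ⟨fun _ _ => true, G, wires wZ wP wC h⟩).ap (lift e β v) b =
        ∑ z : Bool, ((G (b (e wC)) z : ℝ) : ℂ) * lift e β v (update b (e wC) z) := rfl
    rw [h1]
    apply sum_eq_zero
    intro z _
    rw [lift_not, mul_zero]
    intro a ha
    apply hb (a.1, b (e wC))
    rw [← upd_cfg, ← ha, update_idem, update_eq_self]

theorem ap_hadc (v : B0 m × Bool → ℝ) :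
    (CG.map e (hadc m)).ap (lift e β v) = lift e β (mH.mulVec v) := by
  unfold hadc
  rw [ap_c]
  congr 1
  funext a
  rw [mH_mulVec, Fintype.sum_bool]
  rcases a with ⟨a, c⟩
  cases c
  · simp [gH]
    ring
  · simp [gH]
    ring

theorem ap_notc (v : B0 m × Bool → ℝ) :
    (CG.map e (notc m)).ap (lift e β v) = lift e β (mX.mulVec v) := by
  unfold notc
  rw [ap_c]
  congr 1
  funext a
  rw [mX_mulVec, Fintype.sum_bool]
  rcases a with ⟨a, c⟩
  cases c
  · simp [gX]
  · simp [gX]

theorem wA1_inj : Injective (wA1 : Fin (2 * m + 4) → Wire m) := by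
  intro a b h
  unfold wA1 wA at h
  have := Sum.inl_injective (Sum.inr_injective h)
  exact Fin.castLE_injective _ this

theorem wA2_inj : Injective (wA2 : Fin (3 * m) → Wire m) := by
  intro a b h
  unfold wA2 wA at h
  have := Sum.inl_injective (Sum.inr_injective h)
  exact Fin.castLE_injective _ this

theorem ext1_cfg (i k : Fin (2 * m + 4) → Bool) (c : Bool) :
    extend (fun l => e (wA1 l)) k (cfg e β (Sum.inl i, c)) = cfg e β (Sum.inl k, c) := by
  have hq : Injective (fun l => e (wA1 l) : Fin (2 * m + 4) → W) :=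
    e.injective.comp wA1_inj
  rw [eq_cfg]
  obtain ⟨h1, h2, h3, h4, h5, h6⟩ := eq_cfg.mp
    (rfl : cfg e β (Sum.inl i, c) = cfg e β (Sum.inl i, c))
  refine ⟨fun w hw => ?_, ?_, ?_, ?_, fun l => ?_, fun l => ?_⟩
  · rw [extend_apply' _ _ _ (fun ⟨l, h⟩ => hw _ h)]
    exact h1 w hw
  · rw [extend_apply' _ _ _ (fun ⟨l, h⟩ => absurd h (ewne (by simp [wA1, wA, wZ])))]
    exact h2
  · rw [extend_apply' _ _ _ (fun ⟨l, h⟩ => absurd h (ewne (by simp [wA1, wA, wC])))]
    exact h3
  · rw [extend_apply' _ _ _ (fun ⟨l, h⟩ => absurd h (ewne (by simp [wA1, wA, wP])))]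
    exact h4
  · change _ = pad k l
    by_cases hl : (l : ℕ) < 2 * m + 4
    · have e1 : e (wA l) = e (wA1 ⟨l, hl⟩) := rfl
      rw [e1]
      rw [hq.extend_apply (g := k) (e' := cfg e β (Sum.inl i, c)) ⟨l, hl⟩]
      unfold pad
      rw [dif_pos hl]
    · have hnr : ¬ ∃ l', e (wA1 l') = e (wA l) := by
        rintro ⟨l', h⟩
        have h7 := Sum.inl_injective (Sum.inr_injective (e.injective h))
        apply hl
        rw [← h7]
        exact l'.2
      rw [extend_apply' _ _ _ hnr, h5 l]
      change pad i l = _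
      unfold pad
      rw [dif_neg hl, dif_neg hl]
  · rw [extend_apply' _ _ _ (fun ⟨l, h⟩ => absurd h (ewne (by simp [wA1, wA, wT])))]
    exact h6 l

theorem prod_gH {N : ℕ} (i k : Fin N → Bool) :
    ∏ l, gH (i l) (k l) = (had i k : ℝ) / Real.sqrt 2 ^ N := by
  unfold gH had
  rw [prod_div_distrib, prod_const, card_univ, Fintype.card_fin]
  push_cast
  congr 1

theorem sqrt2_pow (m : ℕ) : Real.sqrt 2 ^ (2 * m + 4) = 4 * 2 ^ m := by
  have h : Real.sqrt 2 ^ 2 = 2 := sqrt2_sq
  calc Real.sqrt 2 ^ (2 * m + 4) = (Real.sqrt 2 ^ 2) ^ (m + 2) := by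
        rw [← pow_mul]; congr 1
    _ = _ := by rw [h]; ring

/-- The controlled Hadamard transform. -/
theorem aps_trans (v : B0 m × Bool → ℝ) :
    aps ((trans m).map (CG.map e)) (lift e β v) = lift e β ((mC (qmat m)).mulVec v) := by
  have hq : Injective (fun l => e (wA1 l) : Fin (2 * m + 4) → W) :=
    e.injective.comp wA1_inj
  have h0 : aps ((trans m).map (CG.map e)) (lift e β v) =
      ((List.finRange (2 * m + 4)).map (fun l => e (wA1 l))).foldl
        (fun φ l => cop (fun a b => a && !b) gH (e wC) (e wP) l φ) (lift e β v) := by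
    unfold aps trans
    rw [List.map_map, List.foldl_map, List.foldl_map]
    rfl
  rw [h0]
  have hformula := fun b => cop_fam (f := fun a b => a && !b) (G := gH) (w1 := e wC) (w2 := e wP)
    (fun l => e (wA1 l)) hq (fun l => ewne (by simp [wA1, wA, wC]))
    (fun l => ewne (by simp [wA1, wA, wP])) (lift e β v) b
  apply eq_lift
  · rintro ⟨a, c⟩
    rw [hformula, cfg_e, cfg_e]
    rcases a with i | j
    · cases c
      · rw [mC_mulVec_false, if_neg (by simp [cfg0, wC, wP]), lift_cfg]
      · rw [mC_mulVec_true, if_pos (by simp [cfg0, wC, wP])]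
        have h1 : ∀ k, lift e β v (extend (fun l => e (wA1 l)) k
            (cfg e β (Sum.inl i, true))) = v (Sum.inl k, true) := by
          intro k
          rw [ext1_cfg, lift_cfg]
        simp_rw [h1]
        have h2 : ∀ l, cfg e β ((Sum.inl i : B0 m), true) (e (wA1 l)) = i l := by
          intro l
          rw [cfg_e]
          change (pad i : Fin (3 * m + 4) → Bool) (l.castLE (by omega)) = i l
          exact pad_lt i l _
        simp_rw [h2, prod_gH, sqrt2_pow]
        rw [Fintype.sum_sum_type]
        have h3 : ∑ x, qmat m (Sum.inl i) (Sum.inr x) * v (Sum.inr x, true) = 0 := by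
          apply sum_eq_zero
          intro x _
          simp [qmat]
        rw [h3, add_zero]
        push_cast
        apply sum_congr rfl
        intro k _
        congr 1
        change _ = ((hmat m i k : ℝ) : ℂ)
        unfold hmat
        push_cast
        rfl
    · rw [if_neg (by simp [cfg0, wC, wP]), lift_cfg]
      cases c
      · rw [mC_mulVec_false]
      · rw [mC_mulVec_true]
        have := qmat_mulVec_r m (fun b => v (b, true)) j
        rw [← this]
        rfl
  · intro b hb
    rw [hformula]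
    split_ifs with hc
    · apply sum_eq_zero
      intro k _
      rw [lift_not, mul_zero]
      intro a ha
      obtain ⟨a, c⟩ := a
      have hw : ∀ w : Wire m, (∀ l, wA1 l ≠ w) →
          extend (fun l => e (wA1 l)) k b (e w) = b (e w) := by
        intro w hw
        exact extend_apply' _ _ _ (fun ⟨l, h⟩ => hw l (e.injective h))
      have h1 := hw wP (fun l => by simp [wA1, wA, wP])
      rw [ha, cfg_e] at h1
      simp only [Bool.and_eq_true, Bool.not_eq_true'] at hc
      rcases a with i | j
      · apply hb (Sum.inl (fun l => b (e (wA1 l))), c)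
        rw [← ext1_cfg i, ← ha]
        funext w
        by_cases hw' : ∃ l, e (wA1 l) = w
        · obtain ⟨l, rfl⟩ := hw'
          exact (hq.extend_apply (fun l => b (e (wA1 l))) _ l).symm
        · rw [extend_apply' _ _ _ hw', extend_apply' _ _ _ hw']
      · rw [hc.2] at h1
        simp [cfg0, wP] at h1
    · exact lift_not hb

end ops

end Pool.Agent.Helper67.EQP
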