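import Pool.Agent.Helper67.EQP.QSim2

set_option autoImplicit false
set_option linter.unusedSectionVars false

/-!
The circuits simulate the query algorithm: state preparation and reflection.
-/

namespace Pool.Agent.Helper67.EQP

open Finset Function

section prep

variable {m : ℕ} {W : Type} [DecidableEq W] [Fintype W] {e : Wire m ↪ W} {β : W → Bool}

/-- The state concentrated on the background. -/
noncomputable def dl (β : W → Bool) : (W → Bool) → ℂ := fun b => if b = β then 1 else 0

/-- Membership condition of the state after two gates. -/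
def QQ (e : Wire m ↪ W) (β : W → Bool) (b : W → Bool) : Prop :=
  update (update b (e wC) false) (e wP) false = β

instance (e : Wire m ↪ W) (β : W → Bool) (b : W → Bool) : Decidable (QQ e β b) := by
  unfold QQ
  infer_instance

theorem adr_inl (i : Fin (2 * m + 4) → Bool) (l : Fin (3 * m + 4)) :
    adr (Sum.inl i : B0 m) l = pad i l := rfl

theorem adr_inr (j : Fin (3 * m) → Bool) (l : Fin (3 * m + 4)) :
    adr (Sum.inr j : B0 m) l = pad j l := rfl

theorem wC_ne_wP : (wC : Wire m) ≠ wP := by simp [wC, wP]

theorem two_steps (hβ : ∀ w, β (e w) = false) (b : W → Bool) :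
    (CG.map e (hadc m)).ap ((CG.map e (rotp m)).ap (dl β)) b =
      if QQ e β b then ((gH (b (e wC)) false * gR (b (e wP)) false : ℝ) : ℂ) else 0 := by
  have h1 : (CG.map e (hadc m)).ap ((CG.map e (rotp m)).ap (dl β)) b =
      ∑ z : Bool, ((gH (b (e wC)) z : ℝ) : ℂ) * ∑ z' : Bool,
        ((gR (update b (e wC) z (e wP)) z' : ℝ) : ℂ) *
          dl β (update (update b (e wC) z) (e wP) z') := rfl
  rw [h1]
  have hne : e wP ≠ e wC := ewne wC_ne_wP.symm
  have key : ∀ z z', dl β (update (update b (e wC) z) (e wP) z') =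
      if z = false ∧ z' = false ∧ QQ e β b then 1 else 0 := by
    intro z z'
    unfold dl
    by_cases hz : z = false ∧ z' = false
    · obtain ⟨rfl, rfl⟩ := hz
      simp [QQ]
    · rw [if_neg, if_neg]
      · rintro ⟨h1, h2, _⟩
        exact hz ⟨h1, h2⟩
      · intro h
        apply hz
        constructor
        · have := congrFun h (e wC)
          rw [update_of_ne hne.symm, update_self, hβ] at this
          exact this
        · have := congrFun h (e wP)
          rw [update_self, hβ] at this
          exact this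
  simp_rw [key, update_of_ne hne]
  rw [Fintype.sum_bool, Fintype.sum_bool, Fintype.sum_bool]
  by_cases hQ : QQ e β b
  · simp [hQ]
  · simp [hQ]

theorem gH_false (c : Bool) : gH c false = 1 / Real.sqrt 2 := by
  simp [gH]

/-- Sum over a family of wires. -/
theorem fam_sum (hβ : ∀ w, β (e w) = false) {N : ℕ} (q : Fin N → Wire m) (hq : Injective q)
    (hC : ∀ l, q l ≠ wC) (hP : ∀ l, q l ≠ wP) (ψ : (W → Bool) → ℂ) (b : W → Bool)
    (hψ : ∀ k, ψ (extend (fun l => e (q l)) k b) =
      if QQ e β (extend (fun l => e (q l)) k b) then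
        ((gH (b (e wC)) false * gR (b (e wP)) false : ℝ) : ℂ) else 0) :
    ∑ k : Fin N → Bool, ((∏ l, gH (b (e (q l))) (k l) : ℝ) : ℂ) *
      ψ (extend (fun l => e (q l)) k b) =
      if QQ e β (extend (fun l => e (q l)) (fun _ => false) b) then
        ((1 / Real.sqrt 2 ^ N * (1 / Real.sqrt 2 * gR (b (e wP)) false) : ℝ) : ℂ) else 0 := by
  have hq' : Injective (fun l => e (q l)) := e.injective.comp hq
  rw [sum_eq_single (fun _ => false)]
  · rw [hψ]
    have : ∏ l, gH (b (e (q l))) false = 1 / Real.sqrt 2 ^ N := by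
      simp_rw [gH_false]
      rw [prod_const, card_univ, Fintype.card_fin, one_div, one_div, inv_pow]
    rw [this, gH_false]
    split_ifs
    · push_cast
      ring
    · rw [mul_zero]
  · intro k _ hk
    rw [hψ, if_neg, mul_zero]
    intro h
    apply hk
    funext l
    have h2 := congrFun h (e (q l))
    rw [update_of_ne (ewne (hP l)), update_of_ne (ewne (hC l)), hβ,
      hq'.extend_apply k b l] at h2
    exact h2
  · intro h; exact absurd (mem_univ _) h

theorem ex_e_of_ne {N : ℕ} {q : Fin N → Wire m} {w : Wire m} (hw : ∀ l, q l ≠ w)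
    (k : Fin N → Bool) (b : W → Bool) : extend (fun l => e (q l)) k b (e w) = b (e w) :=
  extend_apply' _ _ _ (fun ⟨l, h⟩ => hw l (e.injective h))

/-- Characterisation of the support, first case. -/
theorem QQ_iff1 (hβ : ∀ w, β (e w) = false) {b : W → Bool} (hb : b (e wP) = false) :
    QQ e β (extend (fun l => e (wA1 l)) (fun _ => false) b) ↔
      b = cfg e β (Sum.inl (fun l => b (e (wA1 l))), b (e wC)) := by
  constructor
  · intro h
    have hw : ∀ w, w ≠ e wC → w ≠ e wP → (∀ l, e (wA1 l) ≠ w) → b w = β w := by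
      intro w h1 h2 h3
      have := congrFun h w
      rw [update_of_ne h2, update_of_ne h1, extend_apply' _ _ _ (fun ⟨l, h⟩ => h3 l h)] at this
      exact this
    rw [eq_cfg]
    refine ⟨?_, ?_, rfl, hb, ?_, ?_⟩
    · intro w hw'
      exact hw w (fun h => hw' _ h.symm) (fun h => hw' _ h.symm) (fun l => hw' _)
    · rw [hw (e wZ) (ewne (by simp [wZ, wC])) (ewne (by simp [wZ, wP]))
        (fun l => ewne (by simp [wA1, wA, wZ])), hβ]
    · intro l
      rw [adr_inl]
      unfold pad
      by_cases hl : (l : ℕ) < 2 * m + 4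
      · rw [dif_pos hl]
        rfl
      · rw [dif_neg hl, hw (e (wA l)) (ewne (by simp [wA, wC])) (ewne (by simp [wA, wP])), hβ]
        intro l' h
        have h7 := Sum.inl_injective (Sum.inr_injective (e.injective h))
        apply hl
        rw [← h7]
        exact l'.2
    · intro l
      rw [hw (e (wT l)) (ewne (by simp [wT, wC])) (ewne (by simp [wT, wP]))
        (fun l => ewne (by simp [wA1, wA, wT])), hβ]
  · intro h
    rw [h, ext1_cfg]
    unfold QQ
    rw [upd_cfg]
    obtain ⟨h1, h2, h3, h4, h5, h6⟩ := eq_cfg.mp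
      (rfl : cfg e β (Sum.inl (fun _ => false), false) =
        cfg e β (Sum.inl (fun _ => false), false))
    funext w
    by_cases hw : w = e wP
    · subst hw
      rw [update_self, hβ]
    · rw [update_of_ne hw]
      by_cases hw' : ∃ w', e w' = w
      · obtain ⟨w', rfl⟩ := hw'
        rw [hβ]
        rcases w' with i | (l | l)
        · fin_cases i
          · exact h2
          · exact h3
          · exact h4
        · have := h5 l
          change cfg e β (Sum.inl fun _ => false, false) (e (Sum.inr (Sum.inl l))) = _ at this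
          rw [this]
          simp [adr, pad]
        · exact h6 l
      · push Not at hw'
        exact h1 w hw'

/-- Characterisation of the support, second case. -/
theorem QQ_iff2 (hβ : ∀ w, β (e w) = false) {b : W → Bool} (hb : b (e wP) = true) :
    QQ e β (extend (fun l => e (wA2 l)) (fun _ => false) b) ↔
      b = cfg e β (Sum.inr (fun l => b (e (wA2 l))), b (e wC)) := by
  have hq : Injective (fun l => e (wA2 l) : Fin (3 * m) → W) :=
    e.injective.comp wA2_inj
  constructor
  · intro h
    have hw : ∀ w, w ≠ e wC → w ≠ e wP → (∀ l, e (wA2 l) ≠ w) → b w = β w := by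
      intro w h1 h2 h3
      have := congrFun h w
      rw [update_of_ne h2, update_of_ne h1, extend_apply' _ _ _ (fun ⟨l, h⟩ => h3 l h)] at this
      exact this
    rw [eq_cfg]
    refine ⟨?_, ?_, rfl, hb, ?_, ?_⟩
    · intro w hw'
      exact hw w (fun h => hw' _ h.symm) (fun h => hw' _ h.symm) (fun l => hw' _)
    · rw [hw (e wZ) (ewne (by simp [wZ, wC])) (ewne (by simp [wZ, wP]))
        (fun l => ewne (by simp [wA2, wA, wZ])), hβ]
    · intro l
      rw [adr_inr]
      unfold pad
      by_cases hl : (l : ℕ) < 3 * m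
      · rw [dif_pos hl]
        rfl
      · rw [dif_neg hl, hw (e (wA l)) (ewne (by simp [wA, wC])) (ewne (by simp [wA, wP])), hβ]
        intro l' h
        have h7 := Sum.inl_injective (Sum.inr_injective (e.injective h))
        apply hl
        rw [← h7]
        exact l'.2
    · intro l
      rw [hw (e (wT l)) (ewne (by simp [wT, wC])) (ewne (by simp [wT, wP]))
        (fun l => ewne (by simp [wA2, wA, wT])), hβ]
  · intro h
    obtain ⟨h1, h2, h3, h4, h5, h6⟩ := eq_cfg.mp h
    unfold QQ
    funext w
    by_cases hwP : w = e wP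
    · subst hwP
      rw [update_self, hβ]
    · rw [update_of_ne hwP]
      by_cases hwC : w = e wC
      · subst hwC
        rw [update_self, hβ]
      · rw [update_of_ne hwC]
        by_cases hwA : ∃ l, e (wA2 l) = w
        · obtain ⟨l, rfl⟩ := hwA
          rw [hq.extend_apply (fun _ => false) b l, hβ]
        · rw [extend_apply' _ _ _ hwA]
          by_cases hw' : ∃ w', e w' = w
          · obtain ⟨w', rfl⟩ := hw'
            rw [hβ]
            rcases w' with i | (l | l)
            · fin_cases i
              · exact h2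
              · exact absurd rfl hwC
              · exact absurd rfl hwP
            · have := h5 l
              rw [adr_inr] at this
              change b (e (wA l)) = false
              rw [this]
              unfold pad
              rw [dif_neg]
              intro hl
              exact hwA ⟨⟨l, hl⟩, rfl⟩
            · exact h6 l
          · push Not at hw'
            exact h1 w hw'

theorem num1 (m : ℕ) : 1 / Real.sqrt 2 ^ (2 * m + 4) * (1 / Real.sqrt 2 * gR false false) =
    Real.sqrt (2 / (65 * 4 ^ m)) := by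
  symm
  rw [Real.sqrt_eq_iff_mul_self_eq (by positivity) (by simp [gR]; positivity), sqrt2_pow]
  have h2 : Real.sqrt 2 * Real.sqrt 2 = 2 := sqrt2_mul
  have h65 : Real.sqrt 65 * Real.sqrt 65 = 65 := Real.mul_self_sqrt (by norm_num)
  have e1 : gR false false = 8 / Real.sqrt 65 := by simp [gR]
  rw [e1]
  have e2 : (4 : ℝ) ^ m = 2 ^ m * 2 ^ m := by
    rw [← mul_pow]; norm_num
  symm
  calc 1 / (4 * 2 ^ m) * (1 / Real.sqrt 2 * (8 / Real.sqrt 65)) *
      (1 / (4 * 2 ^ m) * (1 / Real.sqrt 2 * (8 / Real.sqrt 65)))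
      = 4 / ((Real.sqrt 2 * Real.sqrt 2) * (Real.sqrt 65 * Real.sqrt 65) * (2 ^ m * 2 ^ m)) := by
        ring
    _ = _ := by rw [h2, h65, e2]; ring

theorem num2 (m : ℕ) : 1 / Real.sqrt 2 ^ (3 * m) * (1 / Real.sqrt 2 * gR true false) =
    Real.sqrt (1 / (130 * 8 ^ m)) := by
  symm
  rw [Real.sqrt_eq_iff_mul_self_eq (by positivity) (by simp [gR])]
  have h2 : Real.sqrt 2 * Real.sqrt 2 = 2 := sqrt2_mul
  have h65 : Real.sqrt 65 * Real.sqrt 65 = 65 := Real.mul_self_sqrt (by norm_num)
  have e1 : gR true false = 1 / Real.sqrt 65 := by simp [gR]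
  rw [e1]
  have e2 : Real.sqrt 2 ^ (3 * m) * Real.sqrt 2 ^ (3 * m) = 8 ^ m := by
    rw [← mul_pow, h2, pow_mul]
    norm_num
  symm
  calc 1 / Real.sqrt 2 ^ (3 * m) * (1 / Real.sqrt 2 * (1 / Real.sqrt 65)) *
      (1 / Real.sqrt 2 ^ (3 * m) * (1 / Real.sqrt 2 * (1 / Real.sqrt 65)))
      = 1 / ((Real.sqrt 2 * Real.sqrt 2) * (Real.sqrt 65 * Real.sqrt 65) *
        (Real.sqrt 2 ^ (3 * m) * Real.sqrt 2 ^ (3 * m))) := by
        ring
    _ = _ := by rw [h2, h65, e2]; ring

/-- Preparation of the initial state. -/
theorem aps_prep (hβ : ∀ w, β (e w) = false) :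
    aps ((prep m).map (CG.map e)) (dl β) = lift e β (psi0 m) := by
  have hq1 : Injective (fun l => e (wA1 l) : Fin (2 * m + 4) → W) :=
    e.injective.comp wA1_inj
  have hq2 : Injective (fun l => e (wA2 l) : Fin (3 * m) → W) :=
    e.injective.comp wA2_inj
  set ψ2 := (CG.map e (hadc m)).ap ((CG.map e (rotp m)).ap (dl β)) with hψ2
  set ψ3 := ((List.finRange (2 * m + 4)).map (fun l => e (wA1 l))).foldl
        (fun φ l => cop (fun _ b => !b) gH (e wZ) (e wP) l φ) ψ2 with hψ3
  have h0 : aps ((prep m).map (CG.map e)) (dl β) =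
      ((List.finRange (3 * m)).map (fun l => e (wA2 l))).foldl
        (fun φ l => cop (fun _ b => b) gH (e wZ) (e wP) l φ) ψ3 := by
    unfold prep
    rw [List.map_cons, List.map_cons, List.map_append, aps_cons, aps_cons, aps_append]
    rw [hψ3]
    unfold aps
    rw [List.map_map, List.map_map, List.foldl_map, List.foldl_map, List.foldl_map,
      List.foldl_map]
    rfl
  rw [h0]
  have f3 := fun b => cop_fam (f := fun _ b => !b) (G := gH) (w1 := e wZ) (w2 := e wP)
    (fun l => e (wA1 l)) hq1 (fun l => ewne (by simp [wA1, wA, wZ]))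
    (fun l => ewne (by simp [wA1, wA, wP])) ψ2 b
  rw [← hψ3] at f3
  have f4 := fun b => cop_fam (f := fun _ b => b) (G := gH) (w1 := e wZ) (w2 := e wP)
    (fun l => e (wA2 l)) hq2 (fun l => ewne (by simp [wA2, wA, wZ]))
    (fun l => ewne (by simp [wA2, wA, wP])) ψ3 b
  have g3 : ∀ b, b (e wP) = false → ψ3 b =
      if b = cfg e β (Sum.inl (fun l => b (e (wA1 l))), b (e wC)) then
        ((Real.sqrt (2 / (65 * 4 ^ m)) : ℝ) : ℂ) else 0 := by
    intro b hb
    rw [f3, if_pos (by simp [hb])]
    have := fam_sum hβ wA1 wA1_inj (fun l => by simp [wA1, wA, wC])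
      (fun l => by simp [wA1, wA, wP]) ψ2 b (by
        intro k
        rw [hψ2, two_steps hβ, ex_e_of_ne (fun l => by simp [wA1, wA, wC]),
          ex_e_of_ne (fun l => by simp [wA1, wA, wP])])
    rw [this]
    simp only [QQ_iff1 hβ hb]
    rw [hb, num1]
  have g4 : ∀ b, b (e wP) = true → ((List.finRange (3 * m)).map (fun l => e (wA2 l))).foldl
        (fun φ l => cop (fun _ b => b) gH (e wZ) (e wP) l φ) ψ3 b =
      if b = cfg e β (Sum.inr (fun l => b (e (wA2 l))), b (e wC)) then
        ((Real.sqrt (1 / (130 * 8 ^ m)) : ℝ) : ℂ) else 0 := by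
    intro b hb
    rw [f4, if_pos hb]
    have := fam_sum hβ wA2 wA2_inj (fun l => by simp [wA2, wA, wC])
      (fun l => by simp [wA2, wA, wP]) ψ3 b (by
        intro k
        have hP : extend (fun l => e (wA2 l)) k b (e wP) = b (e wP) :=
          ex_e_of_ne (fun l => by simp [wA2, wA, wP]) k b
        rw [f3, if_neg (by rw [hP, hb]; simp), hψ2, two_steps hβ, hP,
          ex_e_of_ne (fun l => by simp [wA2, wA, wC])])
    rw [this]
    simp only [QQ_iff2 hβ hb]
    rw [hb, num2]
  apply eq_lift
  · rintro ⟨a, c⟩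
    rcases a with i | j
    · have hP : cfg e β ((Sum.inl i : B0 m), c) (e wP) = false := by rw [cfg_e]; rfl
      have hC : cfg e β ((Sum.inl i : B0 m), c) (e wC) = c := by rw [cfg_e]; rfl
      have hA : (fun l => cfg e β ((Sum.inl i : B0 m), c) (e (wA1 l))) = i := by
        funext l
        rw [cfg_e]
        change (pad i : Fin (3 * m + 4) → Bool) (l.castLE (by omega)) = i l
        exact pad_lt i l _
      rw [f4, if_neg (by rw [hP]; simp), g3 _ hP, hA, hC, if_pos rfl]
      rfl
    · have hP : cfg e β ((Sum.inr j : B0 m), c) (e wP) = true := by rw [cfg_e]; rfl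
      have hC : cfg e β ((Sum.inr j : B0 m), c) (e wC) = c := by rw [cfg_e]; rfl
      have hA : (fun l => cfg e β ((Sum.inr j : B0 m), c) (e (wA2 l))) = j := by
        funext l
        rw [cfg_e]
        change (pad j : Fin (3 * m + 4) → Bool) (l.castLE (by omega)) = j l
        exact pad_lt j l _
      rw [g4 _ hP, hA, hC, if_pos rfl]
      rfl
  · intro b hb
    cases hP : b (e wP)
    · rw [f4, if_neg (by rw [hP]; simp), g3 _ hP, if_neg (hb _)]
    · rw [g4 _ hP, if_neg (hb _)]

end prep

end Pool.Agent.Helper67.EQP
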