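import Pool.Agent.Helper67.EQP.QSim3

set_option autoImplicit false
set_option linter.unusedSectionVars false

/-!
The circuits simulate the query algorithm: reflection and conclusion.
-/

namespace Pool.Agent.Helper67.EQP

open Finset Function

section refl

variable {m : ℕ} {W : Type} [DecidableEq W] [Fintype W] {e : Wire m ↪ W} {β : W → Bool}

theorem forall_wM {P : Wire m → Prop} :
    (∀ l, P (wM l)) ↔ P wC ∧ P wP ∧ ∀ l, P (wA l) := by
  unfold wM
  rw [Fin.forall_fin_succ]
  apply and_congr_right
  intro _
  simp only [Fin.cons_succ]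
  rw [Fin.forall_fin_succ]
  simp only [Fin.cons_succ, Fin.cons_zero]

theorem wM_ne_wT (l : Fin (3 * m + 6)) (k : Fin (3 * m + 7)) : (wM l : Wire m) ≠ wT k := by
  have h : ∀ l, (wM l : Wire m) ≠ wT k := by
    rw [forall_wM (P := fun w => w ≠ wT k)]
    simp [wC, wP, wA, wT]
  exact h l

theorem wT_inj : Injective (wT : Fin (3 * m + 7) → Wire m) := by
  intro a b h
  exact Sum.inr_injective (Sum.inr_injective h)

/-- The value computed by the ladder. -/
theorem ladder_val (b : W → Bool) (hb : ∀ l, b (e (wT l)) = false) :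
    ((ladder m).map (CG.map e)).foldl (fun b g => g.step b) b (e (wT (Fin.last _))) =
      decide (∀ l, b (e (wM l)) = false) := by
  have h0 : (ladder m).map (CG.map e) =
      (CG.map e ⟨fun _ _ => true, gX, wires wZ wC (wT 0) (by simp [wZ, wC, wT])⟩) ::
      (List.finRange (3 * m + 6)).map (fun l => CG.map e
      ⟨fun a b => a && !b, gX, wires (wT l.castSucc) (wM l) (wT l.succ) (by
      refine ⟨?_, ?_, ?_⟩
      · refine Fin.cases ?_ (Fin.cases ?_ ?_) l <;> simp [wT, wM, wC, wP, wA]
      · simp [wT, Fin.ext_iff]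
      · refine Fin.cases ?_ (Fin.cases ?_ ?_) l <;> simp [wT, wM, wC, wP, wA])⟩) := by
    unfold ladder
    rw [List.map_cons, List.map_map]
    rfl
  rw [h0, List.foldl_cons]
  have hstep : (CG.map e ⟨fun _ _ => true, gX, wires wZ wC (wT 0)
      (by simp [wZ, wC, wT])⟩).step b = update b (e (wT 0)) true := by
    unfold CG.step
    change (if (true : Bool) = true then update b (e (wT 0)) (!b (e (wT 0))) else b) = _
    rw [if_pos rfl, hb, Bool.not_false]
  rw [hstep]
  have h1 := ladder_fold (3 * m + 6) (fun k => e (wT k)) (fun l => e (wM l))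
    (fun l => CG.map e
      ⟨fun a b => a && !b, gX, wires (wT l.castSucc) (wM l) (wT l.succ) (by
      refine ⟨?_, ?_, ?_⟩
      · refine Fin.cases ?_ (Fin.cases ?_ ?_) l <;> simp [wT, wM, wC, wP, wA]
      · simp [wT, Fin.ext_iff]
      · refine Fin.cases ?_ (Fin.cases ?_ ?_) l <;> simp [wT, wM, wC, wP, wA])⟩)
    (fun l => rfl) (fun l => rfl) (fun l => rfl) (fun l => rfl)
    (e.injective.comp wT_inj) (fun k l => ewne (wM_ne_wT l k).symm)
    (update b (e (wT 0)) true) (by
      intro k hk
      rw [update_of_ne (fun h => hk (wT_inj (e.injective h)))]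
      exact hb k)
  rw [h1, update_self, Bool.true_and]
  have h2 : ∀ l, update b (e (wT 0)) true (e (wM l)) = b (e (wM l)) := by
    intro l
    rw [update_of_ne (ewne (wM_ne_wT l 0))]
  simp_rw [h2]

theorem ladder_X : ∀ g ∈ (ladder m).map (CG.map e), g.G = gX := by
  intro g hg
  unfold ladder at hg
  simp only [List.map_cons, List.map_map, List.mem_cons, List.mem_map] at hg
  rcases hg with rfl | ⟨l, _, rfl⟩
  · rfl
  · rfl

theorem prep_orth : ∀ g ∈ (prep m).map (CG.map e), Orth2 g.G := by
  have hH : Orth2 gH := by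
    intro a b
    have h2 : Real.sqrt 2 * Real.sqrt 2 = 2 := sqrt2_mul
    have h3 : Real.sqrt 2 ≠ 0 := by positivity
    rw [Fintype.sum_bool]
    unfold gH
    rw [div_mul_div_comm, div_mul_div_comm, h2]
    cases a <;> cases b <;> norm_num
  have hR : Orth2 gR := by
    intro a b
    have h2 : Real.sqrt 65 * Real.sqrt 65 = 65 := Real.mul_self_sqrt (by norm_num)
    rw [Fintype.sum_bool]
    unfold gR
    rw [div_mul_div_comm, div_mul_div_comm, h2]
    cases a <;> cases b <;> norm_num
  intro g hg
  unfold prep at hg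
  simp only [List.map_cons, List.map_append, List.map_map, List.mem_cons, List.mem_append,
    List.mem_map] at hg
  rcases hg with rfl | rfl | ⟨l, _, rfl⟩ | ⟨l, _, rfl⟩
  · exact hR
  · exact hH
  · exact hH
  · exact hH

theorem prep_target {w : W} (h1 : w ≠ e wC) (h2 : w ≠ e wP) (h3 : ∀ l, w ≠ e (wA l)) :
    ∀ g ∈ ((prep m).map (CG.map e)).reverse.map CG.inv, g.w 2 ≠ w := by
  intro g hg
  unfold prep at hg
  simp only [List.map_cons, List.map_append, List.map_map, List.mem_cons, List.mem_append,
    List.mem_map, List.mem_reverse] at hg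
  obtain ⟨g', hg', rfl⟩ := hg
  rcases hg' with rfl | rfl | ⟨l, _, rfl⟩ | ⟨l, _, rfl⟩
  · exact fun h => h2 h.symm
  · exact fun h => h1 h.symm
  · exact fun h => h3 _ h.symm
  · exact fun h => h3 _ h.symm

theorem sum_lift (u v : B0 m × Bool → ℝ) :
    ∑ b, lift e β u b * lift e β v b = ((∑ a, u a * v a : ℝ) : ℂ) := by
  have h1 : ∀ b, lift e β u b * lift e β v b =
      ∑ a, if b = cfg e β a then (u a : ℂ) * lift e β v b else 0 := by
    intro b
    conv_lhs => rw [lift, sum_mul]
    apply sum_congr rfl
    intro a _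
    split_ifs <;> simp
  simp_rw [h1]
  rw [sum_comm]
  push_cast
  apply sum_congr rfl
  intro a _
  rw [sum_ite_eq' univ (cfg e β a) (fun b => (u a : ℂ) * lift e β v b), if_pos (mem_univ _),
    lift_cfg]

/-- The reflection. -/
theorem aps_reflect (hβ : ∀ w, β (e w) = false) (v : B0 m × Bool → ℝ) :
    aps ((reflect m).map (CG.map e)) (lift e β v) =
      lift e β ((mR (psi0 m)).mulVec v) := by
  set P := (prep m).map (CG.map e) with hP
  set ψ := aps (P.reverse.map CG.inv) (lift e β v) with hψ
  set fl := CG.map e (flip m) with hfl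
  have h0 : aps ((reflect m).map (CG.map e)) (lift e β v) =
      aps P (aps ((ladder m).map (CG.map e) ++ fl :: ((ladder m).map (CG.map e)).reverse) ψ) := by
    have e1 : (reflect m).map (CG.map e) = (P.reverse.map CG.inv ++
        ((ladder m).map (CG.map e) ++ fl :: ((ladder m).map (CG.map e)).reverse)) ++ P := by
      unfold reflect
      rw [List.map_append, List.map_append, List.map_append, List.map_cons, hP, List.map_reverse,
        List.map_reverse, List.map_reverse]
      congr 2
      simp only [← List.map_reverse, List.map_map]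
      rfl
    rw [e1, aps_append, aps_append]
  rw [h0]
  have hsupp : ∀ b, ψ b ≠ 0 → ∀ w, w ≠ e wC → w ≠ e wP → (∀ l, w ≠ e (wA l)) → b w = β w := by
    intro b hb w h1 h2 h3
    by_contra hbw
    apply hb
    rw [hψ]
    apply aps_supp _ w (β w) (prep_target h1 h2 h3) _ _ b hbw
    intro b' hb'
    apply lift_not
    intro a ha
    apply hb'
    obtain ⟨g1, g2, g3, g4, g5, g6⟩ := eq_cfg.mp ha
    by_cases hw : ∃ w', e w' = w
    · obtain ⟨w', rfl⟩ := hw
      rw [hβ]
      rcases w' with i | (l | l)
      · fin_cases i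
        · exact g2
        · exact absurd rfl h1
        · exact absurd rfl h2
      · exact absurd rfl (h3 l)
      · exact g6 l
    · push Not at hw
      exact g1 w hw
  have hD : aps ((ladder m).map (CG.map e) ++ fl :: ((ladder m).map (CG.map e)).reverse) ψ =
      fun b => (2 * ψ β) * dl β b - ψ b := by
    funext b
    rw [aps_sandwich _ ladder_X fl rfl (fun _ _ => rfl)]
    have e2 : fl.w 2 = e (wT (Fin.last _)) := rfl
    rw [e2]
    by_cases hb : ψ b = 0
    · rw [hb, mul_zero]
      unfold dl
      split_ifs with h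
      · rw [← h, hb]; ring
      · ring
    · have hs := hsupp b hb
      rw [ladder_val b (fun l => by
        rw [hs (e (wT l)) (ewne (by simp [wT, wC])) (ewne (by simp [wT, wP]))
          (fun l' => ewne (by simp [wT, wA])), hβ])]
      have h3 : (∀ l, b (e (wM l)) = false) ↔ b = β := by
        rw [forall_wM (P := fun w => b (e w) = false)]
        constructor
        · rintro ⟨h1, h2, h3⟩
          funext w
          by_cases hw1 : w = e wC
          · rw [hw1, h1, hβ]
          · by_cases hw2 : w = e wP
            · rw [hw2, h2, hβ]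
            · by_cases hw3 : ∃ l, w = e (wA l)
              · obtain ⟨l, rfl⟩ := hw3
                rw [h3, hβ]
              · push Not at hw3
                exact hs w hw1 hw2 hw3
        · rintro rfl
          exact ⟨hβ _, hβ _, fun l => hβ _⟩
      unfold dl
      by_cases hbβ : b = β
      · rw [if_pos hbβ, decide_eq_true (h3.mpr hbβ), if_pos rfl, hbβ]
        ring
      · rw [if_neg hbβ, decide_eq_false (fun h => hbβ (h3.mp h)), if_neg (by simp)]
        ring
  rw [hD, aps_lin, hψ, aps_inv P prep_orth, aps_prep hβ]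
  have hψβ : aps (P.reverse.map CG.inv) (lift e β v) β = ((∑ a, psi0 m a * v a : ℝ) : ℂ) := by
    rw [← sum_lift (e := e) (β := β), ← aps_prep hβ, aps_adj]
    unfold dl
    simp only [ite_mul, one_mul, zero_mul]
    rw [sum_ite_eq' univ β, if_pos (mem_univ _)]
  rw [hψβ]
  apply eq_lift
  · intro a
    rw [lift_cfg, lift_cfg, mR_mulVec]
    unfold dotProduct
    push_cast
    rfl
  · intro b hb
    rw [lift_not hb, lift_not hb]
    ring

end refl

end Pool.Agent.Helper67.EQP
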