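import Pool.Agent.Helper67.EQP.Defs

set_option autoImplicit false
set_option linter.unusedSectionVars false

/-!
The exact quantum algorithm.
-/

namespace Pool.Agent.Helper67.EQP

open Finset Matrix

section norm

variable {B : Type} [Fintype B] [DecidableEq B]

/-- Squared norm. -/
noncomputable def nsq (v : B → ℂ) : ℝ := ∑ b, ‖v b‖ ^ 2

theorem nsq_eq (v : B → ℂ) : ((nsq v : ℝ) : ℂ) = star v ⬝ᵥ v := by
  unfold nsq dotProduct
  push_cast
  apply sum_congr rfl
  intro b _
  rw [Pi.star_apply, RCLike.star_def, ← Complex.normSq_eq_conj_mul_self,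
    Complex.normSq_eq_norm_sq]
  push_cast
  rfl

theorem nsq_unitary {U : Matrix B B ℂ} (hU : U ∈ unitaryGroup B ℂ) (v : B → ℂ) :
    nsq (U.mulVec v) = nsq v := by
  have h1 : ((nsq (U.mulVec v) : ℝ) : ℂ) = ((nsq v : ℝ) : ℂ) := by
    rw [nsq_eq, nsq_eq, star_mulVec, dotProduct_mulVec, vecMul_vecMul]
    rw [show Uᴴ * U = 1 from mem_unitaryGroup_iff'.mp hU, vecMul_one]
  exact_mod_cast h1

theorem nsq_phase (c v : B → ℂ) (hc : ∀ b, ‖c b‖ = 1) : nsq (fun b => c b * v b) = nsq v := by
  unfold nsq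
  apply sum_congr rfl
  intro b _
  rw [norm_mul, hc, one_mul]

theorem norm_phase {ι : Type} (A : QueryAlgorithm ι) (x : ι → Bool) (b : A.B) :
    ‖A.phase x b‖ = 1 := by
  unfold QueryAlgorithm.phase
  split
  · simp
  · split_ifs <;> simp

theorem nsq_state {ι : Type} (A : QueryAlgorithm ι) (x : ι → Bool) (k : ℕ) :
    nsq (A.state x k) = 1 := by
  induction k with
  | zero => exact A.init_norm
  | succ k ih =>
    rw [QueryAlgorithm.state, nsq_unitary (A.unitary k), nsq_phase _ _ (norm_phase A x), ih]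

end norm

/-- A real symmetric involution is unitary. -/
theorem unitary_of_real {B : Type} [Fintype B] [DecidableEq B] (M : Matrix B B ℝ)
    (hs : ∀ a b, M a b = M b a) (hi : M * M = 1) :
    M.map (fun r : ℝ => (r : ℂ)) ∈ unitaryGroup B ℂ := by
  rw [mem_unitaryGroup_iff, star_eq_conjTranspose]
  have h1 : (M.map (fun r : ℝ => (r : ℂ)))ᴴ = M.map (fun r : ℝ => (r : ℂ)) := by
    ext a b
    simp [conjTranspose_apply, hs a b]
  rw [h1]
  have h2 : M.map (fun r : ℝ => (r : ℂ)) * M.map (fun r : ℝ => (r : ℂ)) =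
      (M * M).map (fun r : ℝ => (r : ℂ)) := by
    ext a b
    simp [Matrix.mul_apply]
  rw [h2, hi]
  ext a b
  by_cases hab : a = b
  · subst hab; simp
  · simp [hab]

end Pool.Agent.Helper67.EQP
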