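import Pool.Agent.Helper67.EQP.Forr

set_option autoImplicit false
set_option linter.unusedSectionVars false

/-!
Second moments under product measures; rounding a point of the cube to a random sign vector
hardly changes the forrelation.
-/

namespace Pool.Agent.Helper67.EQP

open Finset Function Classical

section moments

variable {ι A : Type} [Fintype ι] [DecidableEq ι] [Fintype A]

theorem pm_coord (θ : ι → A → ℝ) (hθ : ∀ i, ∑ b, θ i b = 1) (i : ι) (Y : A → ℝ) :
    pm θ (fun a => Y (a i)) = ∑ b, θ i b * Y b := by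
  have e : (fun a : ι → A => Y (a i)) = fun a => ∏ k, (if k = i then Y (a k) else 1) := by
    funext a
    rw [prod_ite_eq']
    simp
  rw [e]
  have := pm_prod_fun θ (fun k b => if k = i then Y b else 1)
  rw [this]
  have e2 : ∀ k, ∑ b, θ k b * (if k = i then Y b else 1) =
      if k = i then ∑ b, θ i b * Y b else 1 := by
    intro k
    by_cases hk : k = i
    · subst hk
      simp
    · simp [hk, hθ]
  rw [prod_congr rfl (fun k _ => e2 k), prod_ite_eq']
  simp

theorem pm_two_coord (θ : ι → A → ℝ) (i j : ι) (hij : i ≠ j) (Y Z : A → ℝ)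
    (hY : ∑ b, θ i b * Y b = 0) :
    pm θ (fun a => Y (a i) * Z (a j)) = 0 := by
  have e : (fun a : ι → A => Y (a i) * Z (a j)) =
      fun a => ∏ k, (if k = i then Y (a k) else if k = j then Z (a k) else 1) := by
    funext a
    rw [Finset.prod_eq_mul (s := univ)
      (f := fun k => if k = i then Y (a k) else if k = j then Z (a k) else 1) i j hij]
    · rw [if_pos rfl, if_neg (Ne.symm hij), if_pos rfl]
    · intro c _ hc
      rw [if_neg hc.1, if_neg hc.2]
    · intro h; exact absurd (mem_univ i) h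
    · intro h; exact absurd (mem_univ j) h
  rw [e]
  have := pm_prod_fun θ (fun k b => if k = i then Y b else if k = j then Z b else 1)
  rw [this]
  apply prod_eq_zero (mem_univ i)
  simpa using hY

/-- Second moment of a sum of independent centred variables. -/
theorem pm_sq (θ : ι → A → ℝ) (hθ : ∀ i, ∑ b, θ i b = 1) (Y : ι → A → ℝ)
    (hY : ∀ i, ∑ b, θ i b * Y i b = 0) (D : ℝ) :
    pm θ (fun a => (∑ i, Y i (a i) + D) ^ 2) = ∑ i, ∑ b, θ i b * Y i b ^ 2 + D ^ 2 := by
  have e : (fun a : ι → A => (∑ i, Y i (a i) + D) ^ 2) =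
      fun a => ((∑ i, ∑ j, Y i (a i) * Y j (a j)) + 2 * D * ∑ i, Y i (a i)) + D ^ 2 := by
    funext a
    rw [← sum_mul_sum]
    ring
  rw [e, pm_add, pm_add, pm_const θ hθ, pm_mul_left, pm_sum, pm_sum]
  have h1 : ∀ i ∈ (univ : Finset ι), pm θ (fun a => Y i (a i)) = 0 := by
    intro i _
    rw [pm_coord θ hθ i (Y i)]
    exact hY i
  rw [sum_eq_zero h1, mul_zero, add_zero]
  congr 1
  apply sum_congr rfl
  intro i _
  rw [pm_sum, sum_eq_single i]
  · have : (fun a : ι → A => Y i (a i) * Y i (a i)) = fun a => (fun b => Y i b ^ 2) (a i) := by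
      funext a; ring
    rw [this, pm_coord θ hθ i (fun b => Y i b ^ 2)]
  · intro j _ hj
    exact pm_two_coord θ i j (Ne.symm hj) (Y i) (Y j) (hY i)
  · intro h; exact absurd (mem_univ i) h

/-- Chebyshev. -/
theorem pm_cheb (θ : ι → A → ℝ) (h0 : ∀ i b, 0 ≤ θ i b) (X : (ι → A) → ℝ) {δ : ℝ} (hδ : 0 < δ) :
    pm θ (fun a => if |X a| ≤ δ then 0 else 1) ≤ pm θ (fun a => X a ^ 2) / δ ^ 2 := by
  rw [le_div_iff₀ (by positivity), mul_comm, ← pm_mul_left]
  apply pm_mono θ h0
  intro a
  by_cases h : |X a| ≤ δ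
  · rw [if_pos h, mul_zero]
    positivity
  · rw [if_neg h, mul_one]
    push Not at h
    rw [← sq_abs (X a)]
    exact pow_le_pow_left₀ hδ.le h.le 2

theorem sum_sg_center (y : ℝ) : ∑ b : Bool, (1 + sg b * y) / 2 * (sg b - y) = 0 := by
  rw [Fintype.sum_bool]
  simp only [sg_true, sg_false]
  ring

theorem sum_sg_center_sq (y : ℝ) :
    ∑ b : Bool, (1 + sg b * y) / 2 * (sg b - y) ^ 2 = 1 - y ^ 2 := by
  rw [Fintype.sum_bool]
  simp only [sg_true, sg_false]
  ring

/-- Second moment of an affine function of independent signs with means `y`. -/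
theorem mext_sq (y c : ι → ℝ) (D : ℝ) :
    mext y (fun z => (∑ i, c i * (sg (z i) - y i) + D) ^ 2) =
      ∑ i, c i ^ 2 * (1 - y i ^ 2) + D ^ 2 := by
  have h := pm_sq (fun i b => (1 + sg b * y i) / 2) (fun i => sum_bool_mean (y i))
    (fun i b => c i * (sg b - y i)) (by
      intro i
      have : ∑ b : Bool, (1 + sg b * y i) / 2 * (c i * (sg b - y i)) =
          c i * ∑ b : Bool, (1 + sg b * y i) / 2 * (sg b - y i) := by
        rw [mul_sum]
        apply sum_congr rfl
        intro b _
        ring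
      rw [this, sum_sg_center, mul_zero]) D
  unfold mext
  rw [h]
  congr 1
  apply sum_congr rfl
  intro i _
  have : ∑ b : Bool, (1 + sg b * y i) / 2 * (c i * (sg b - y i)) ^ 2 =
      c i ^ 2 * ∑ b : Bool, (1 + sg b * y i) / 2 * (sg b - y i) ^ 2 := by
    rw [mul_sum]
    apply sum_congr rfl
    intro b _
    ring
  rw [this, sum_sg_center_sq]

end moments

section sumtype

variable {ι κ : Type} [Fintype ι] [DecidableEq ι] [Fintype κ] [DecidableEq κ]

theorem mext_sumtype (y : ι ⊕ κ → ℝ) (F : (ι ⊕ κ → Bool) → ℝ) :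
    mext y F = mext (fun i => y (Sum.inl i))
      (fun u => mext (fun k => y (Sum.inr k)) (fun v => F (Sum.elim u v))) := by
  unfold mext pm
  simp_rw [mul_sum]
  rw [← Fintype.sum_prod_type' (fun (u : ι → Bool) (v : κ → Bool) =>
    (∏ i, (1 + sg (u i) * y (Sum.inl i)) / 2) *
      ((∏ k, (1 + sg (v k) * y (Sum.inr k)) / 2) * F (Sum.elim u v)))]
  refine Fintype.sum_equiv (Equiv.sumArrowEquivProdArrow ι κ Bool) _ _ ?_
  intro z
  rw [Fintype.prod_sum_type, mul_assoc]
  have : Sum.elim ((Equiv.sumArrowEquivProdArrow ι κ Bool) z).1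
      ((Equiv.sumArrowEquivProdArrow ι κ Bool) z).2 = z := by
    funext s
    rcases s with s | s <;> rfl
  rw [this]
  rfl

end sumtype

section rounding

variable {I : Type} [Fintype I] [DecidableEq I]

/-- The sign vector of a bit string. -/
def svec {ι : Type} (z : ι → Bool) : ι → ℝ := fun i => sg (z i)

variable [Nonempty I]

theorem round_sq {H : I → I → ℝ} (hH : Orth H) (a : I ⊕ I → ℝ) (ha : Cube a) :
    mext a (fun z => (Phi H (svec z) - Phi H a) ^ 2) ≤ 2 / Fintype.card I := by
  have hN := card_pos' (I := I)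
  set N : ℝ := (Fintype.card I : ℝ) with hNdef
  set α : I → ℝ := fun i => a (Sum.inl i) with hα
  set b : I → ℝ := fun k => a (Sum.inr k) with hb
  rw [mext_sumtype]
  -- inner expectation
  have hdec : ∀ u v : I → Bool, Phi H (svec (Sum.elim u v)) - Phi H a =
      (1 / N) * (∑ k, (∑ i, H i k * sg (u i)) * (sg (v k) - b k) +
        ∑ i, (∑ k, H i k * b k) * (sg (u i) - α i)) := by
    intro u v
    unfold Phi svec
    simp only [Sum.elim_inl, Sum.elim_inr]
    rw [← hNdef, ← sub_div]
    have e1 : ∑ k, (∑ i, H i k * sg (u i)) * (sg (v k) - b k) =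
        ∑ i, ∑ k, (H i k * (sg (u i) * sg (v k)) - H i k * (sg (u i) * b k)) := by
      rw [sum_comm]
      apply sum_congr rfl
      intro k _
      rw [sum_mul]
      apply sum_congr rfl
      intro i _
      ring
    have e2 : ∑ i, (∑ k, H i k * b k) * (sg (u i) - α i) =
        ∑ i, ∑ k, (H i k * (sg (u i) * b k) - H i k * (α i * b k)) := by
      apply sum_congr rfl
      intro i _
      rw [sum_mul]
      apply sum_congr rfl
      intro k _
      ring
    rw [e1, e2, ← sum_add_distrib]
    simp_rw [← sum_add_distrib, sub_add_sub_cancel, sum_sub_distrib]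
    rw [one_div, ← div_eq_inv_mul]
  have hinner : ∀ u : I → Bool, mext b
      (fun v => (Phi H (svec (Sum.elim u v)) - Phi H a) ^ 2) ≤
      (1 / N ^ 2) * (N + (∑ i, (∑ k, H i k * b k) * (sg (u i) - α i) + 0) ^ 2) := by
    intro u
    have : (fun v : I → Bool => (Phi H (svec (Sum.elim u v)) - Phi H a) ^ 2) =
        fun v => (1 / N ^ 2) * (∑ k, (∑ i, H i k * sg (u i)) * (sg (v k) - b k) +
        ∑ i, (∑ k, H i k * b k) * (sg (u i) - α i)) ^ 2 := by
      funext v
      rw [hdec, mul_pow]
      ring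
    rw [this, mext_mul_left, mext_sq, add_zero]
    apply mul_le_mul_of_nonneg_left _ (by positivity)
    apply add_le_add _ le_rfl
    calc ∑ k, (∑ i, H i k * sg (u i)) ^ 2 * (1 - b k ^ 2)
        ≤ ∑ k, (∑ i, H i k * sg (u i)) ^ 2 := by
          apply sum_le_sum
          intro k _
          nlinarith [mul_nonneg (sq_nonneg (∑ i, H i k * sg (u i))) (sq_nonneg (b k))]
      _ = ∑ i, sg (u i) ^ 2 := norm_left hH _
      _ = N := by
          have : ∀ i, sg (u i) ^ 2 = 1 := fun i => by rw [pow_two]; exact sg_mul_self _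
          simp_rw [this]
          rw [sum_const, card_univ, nsmul_eq_mul, mul_one]
  refine (mext_mono (fun i => ha (Sum.inl i)) hinner).trans ?_
  rw [mext_mul_left, mext_add, mext_const, mext_sq]
  have h2 : ∑ i, (∑ k, H i k * b k) ^ 2 * (1 - α i ^ 2) ≤ N := by
    calc ∑ i, (∑ k, H i k * b k) ^ 2 * (1 - α i ^ 2)
        ≤ ∑ i, (∑ k, H i k * b k) ^ 2 := by
          apply sum_le_sum
          intro i _
          nlinarith [mul_nonneg (sq_nonneg (∑ k, H i k * b k)) (sq_nonneg (α i))]
      _ = ∑ k, b k ^ 2 := norm_right hH _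
      _ ≤ ∑ _k : I, (1 : ℝ) := by
          apply sum_le_sum
          intro k _
          have := ha (Sum.inr k)
          rw [← sq_abs]
          have h0 := abs_nonneg (a (Sum.inr k))
          nlinarith
      _ = N := by rw [sum_const, card_univ, nsmul_eq_mul, mul_one]
  calc 1 / N ^ 2 * (N + (∑ i, (∑ k, H i k * b k) ^ 2 * (1 - α i ^ 2) + 0 ^ 2))
      ≤ 1 / N ^ 2 * (N + N) := by
        apply mul_le_mul_of_nonneg_left _ (by positivity)
        linarith
    _ = 2 / N := by field_simp; ring

/-- Rounding preserves the forrelation up to `δ`, except with probability `2 / (N δ²)`. -/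
theorem round_prob {H : I → I → ℝ} (hH : Orth H) (a : I ⊕ I → ℝ) (ha : Cube a) {δ : ℝ}
    (hδ : 0 < δ) :
    mext a (fun z => if |Phi H (svec z) - Phi H a| ≤ δ then 0 else 1) ≤
      2 / (Fintype.card I * δ ^ 2) := by
  have h := pm_cheb (fun i b => (1 + sg b * a i) / 2)
    (fun i b => mext_weight_nonneg (ha i) b) (fun z => Phi H (svec z) - Phi H a) hδ
  unfold mext
  refine h.trans ?_
  have h2 := round_sq hH a ha
  unfold mext at h2
  calc _ ≤ 2 / (Fintype.card I : ℝ) / δ ^ 2 := by gcongr
    _ = _ := by rw [div_div]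

end rounding

end Pool.Agent.Helper67.EQP
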