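import Pool.Agent.Helper67.EQP.Round

set_option autoImplicit false
set_option linter.unusedSectionVars false

/-!
Constant depth circuits do not distinguish a slice of the cube from the whole cube.
-/

namespace Pool.Agent.Helper67.EQP

open Finset Function Classical
open Pool.Agent.Helper67.JL (ex ex_mono ex_nonneg ex_add ex_mul_left ex_mul_right ex_sum ex_const
  ex_equiv ex_prod)

section count

variable {J : Type} [Fintype J] [DecidableEq J]

/-- Number of coordinates equal to `true`. -/
def ntrue {J : Type} [Fintype J] (y : J → Bool) : ℕ := (univ.filter (fun i => y i = true)).card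

/-- Number of points of the slice agreeing with `σ` on `P`. -/
noncomputable def cnt (P : Finset J) (σ : J → Bool) (k : ℕ) : ℕ :=
  (univ.filter (fun y : J → Bool => (∀ i ∈ P, y i = σ i) ∧ ntrue y = k)).card

open Polynomial in
theorem cnt_eq (P : Finset J) (σ : J → Bool) (k : ℕ)
    (hk : (P.filter (fun i => σ i = true)).card ≤ k) :
    cnt P σ k = (Fintype.card J - P.card).choose (k - (P.filter (fun i => σ i = true)).card) := by
  -- generating function
  have h1 : ∑ y : J → Bool, (∏ i, (if i ∈ P ∧ y i ≠ σ i then (0 : ℤ[X]) else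
      (if y i = true then X else 1))) =
      ∏ i, ∑ b : Bool, (if i ∈ P ∧ b ≠ σ i then (0 : ℤ[X]) else
      (if b = true then X else 1)) := by
    rw [Finset.prod_univ_sum, Fintype.piFinset_univ]
  have h2 : ∀ y : J → Bool, (∏ i, (if i ∈ P ∧ y i ≠ σ i then (0 : ℤ[X]) else
      (if y i = true then X else 1))) =
      if (∀ i ∈ P, y i = σ i) then X ^ (ntrue y) else 0 := by
    intro y
    by_cases h : ∀ i ∈ P, y i = σ i
    · rw [if_pos h]
      have : ∀ i ∈ (univ : Finset J), (if i ∈ P ∧ y i ≠ σ i then (0 : ℤ[X]) else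
          (if y i = true then X else 1)) = (if y i = true then X else 1) := by
        intro i _
        rw [if_neg]
        rintro ⟨h3, h4⟩
        exact h4 (h i h3)
      rw [prod_congr rfl this, Finset.prod_ite, prod_const_one, mul_one, prod_const]
      rfl
    · rw [if_neg h]
      push Not at h
      obtain ⟨i, hi, hne⟩ := h
      exact prod_eq_zero (mem_univ i) (if_pos ⟨hi, hne⟩)
  have h3 : ∀ i : J, ∑ b : Bool, (if i ∈ P ∧ b ≠ σ i then (0 : ℤ[X]) else
      (if b = true then X else 1)) =
      if i ∈ P then (if σ i = true then X else 1) else (1 + X) := by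
    intro i
    rw [Fintype.sum_bool]
    by_cases hi : i ∈ P
    · cases hs : σ i <;> simp [hi]
    · simp [hi, add_comm]
  simp_rw [h2, h3] at h1
  have h4 : ∏ i, (if i ∈ P then (if σ i = true then X else 1) else (1 + X) : ℤ[X]) =
      X ^ (P.filter (fun i => σ i = true)).card * (1 + X) ^ (Fintype.card J - P.card) := by
    rw [Finset.prod_ite]
    congr 1
    · rw [Finset.prod_ite, prod_const_one, mul_one, prod_const]
      congr 2
      ext i
      simp
    · rw [prod_const]
      congr 1
      rw [← card_compl]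
      congr 1
      ext i
      simp
  rw [h4] at h1
  have h5 := congrArg (fun q : ℤ[X] => q.coeff k) h1
  simp only [finset_sum_coeff] at h5
  have h6 : ∀ y : J → Bool, (if (∀ i ∈ P, y i = σ i) then (X : ℤ[X]) ^ (ntrue y) else 0).coeff k =
      if (∀ i ∈ P, y i = σ i) ∧ ntrue y = k then 1 else 0 := by
    intro y
    by_cases h : ∀ i ∈ P, y i = σ i
    · by_cases h7 : ntrue y = k
      · rw [if_pos h, if_pos ⟨h, h7⟩, coeff_X_pow, if_pos h7.symm]
      · rw [if_pos h, if_neg (fun h8 => h7 h8.2), coeff_X_pow, if_neg (fun h8 => h7 h8.symm)]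
    · rw [if_neg h, if_neg (fun h8 => h h8.1), coeff_zero]
  simp_rw [h6] at h5
  rw [sum_boole, coeff_X_pow_mul', if_pos hk, coeff_one_add_X_pow] at h5
  unfold cnt
  exact_mod_cast h5

theorem ratio_bound {L k w : ℕ} {ε : ℝ} (hε1 : ε < 1) (hwL : w < L)
    (hε : |(2 : ℝ) * k - L| + w ≤ ε * (L - w)) :
    ∀ j a : ℕ, a ≤ j → j ≤ w →
      |(2 : ℝ) ^ j * ((L - j).choose (k - a)) / (L.choose k) - 1| ≤ (1 + ε) ^ j - 1 := by
  have hLw : (0 : ℝ) < L - w := by
    have : (w : ℝ) < L := by exact_mod_cast hwL
    linarith
  have habs := abs_nonneg ((2 : ℝ) * k - L)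
  have hw0 : (0 : ℝ) ≤ w := Nat.cast_nonneg w
  have hε0 : 0 ≤ ε := by
    by_contra h
    push Not at h
    have : ε * (L - w) < 0 := mul_neg_of_neg_of_pos h hLw
    linarith
  have hlt : |(2 : ℝ) * k - L| + w < L - w := by
    have : ε * (L - w) < 1 * (L - w) := mul_lt_mul_of_pos_right hε1 hLw
    linarith
  have hk1 : w < k := by
    have := neg_abs_le ((2 : ℝ) * k - L)
    have h2 : (w : ℝ) < k := by linarith
    exact_mod_cast h2
  have hk2 : k + w < L := by
    have := le_abs_self ((2 : ℝ) * k - L)
    have h2 : ((k + w : ℕ) : ℝ) < L := by push_cast; linarith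
    exact_mod_cast h2
  have hC : (0 : ℝ) < L.choose k := by
    exact_mod_cast Nat.choose_pos (by omega)
  intro j
  induction j with
  | zero =>
    intro a ha _
    have : a = 0 := by omega
    subst this
    simp [hC.ne']
  | succ j ih =>
    intro a ha hjw
    have hjL : (0 : ℝ) < (L : ℝ) - j := by
      have : (j : ℝ) < L := by exact_mod_cast (by omega : j < L)
      linarith
    have hjw' : ((j : ℝ)) + 1 ≤ w := by exact_mod_cast hjw
    have step : ∀ a' (f : ℝ), a' ≤ j → |f - 1| ≤ ε →
        (2 : ℝ) ^ (j + 1) * ((L - (j + 1)).choose (k - a)) / (L.choose k) =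
          ((2 : ℝ) ^ j * ((L - j).choose (k - a')) / (L.choose k)) * f →
        |(2 : ℝ) ^ (j + 1) * ((L - (j + 1)).choose (k - a)) / (L.choose k) - 1| ≤
          (1 + ε) ^ (j + 1) - 1 := by
      intro a' f ha' hf heq
      rw [heq]
      set R := (2 : ℝ) ^ j * ((L - j).choose (k - a')) / (L.choose k)
      have hR : |R - 1| ≤ (1 + ε) ^ j - 1 := ih a' ha' (by omega)
      have e : R * f - 1 = (R - 1) * f + (f - 1) := by ring
      rw [e]
      have hf2 : |f| ≤ 1 + ε := by
        have : f = (f - 1) + 1 := by ring
        calc |f| = |(f - 1) + 1| := by rw [← this]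
          _ ≤ |f - 1| + |(1 : ℝ)| := abs_add_le _ _
          _ ≤ 1 + ε := by rw [abs_one]; linarith
      calc |(R - 1) * f + (f - 1)| ≤ |R - 1| * |f| + |f - 1| := by
            rw [← abs_mul]; exact abs_add_le _ _
        _ ≤ ((1 + ε) ^ j - 1) * (1 + ε) + ε := by
            apply add_le_add _ hf
            exact mul_le_mul hR hf2 (abs_nonneg _) ((abs_nonneg _).trans hR)
        _ = (1 + ε) ^ (j + 1) - 1 := by ring
    rcases Nat.lt_or_ge j a with haj | haj
    · -- `a = j + 1`: the new coordinate is `true`
      have haj' : a = j + 1 := by omega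
      subst haj'
      apply step j (2 * ((k : ℝ) - j) / (L - j)) le_rfl
      · have e : 2 * ((k : ℝ) - j) / (L - j) - 1 = (2 * k - L - j) / (L - j) := by
          field_simp
          ring
        rw [e, abs_div, abs_of_pos hjL, div_le_iff₀ hjL]
        calc |(2 : ℝ) * k - L - j| ≤ |(2 : ℝ) * k - L| + |(j : ℝ)| := abs_sub _ _
          _ ≤ |(2 : ℝ) * k - L| + w := by
              rw [abs_of_nonneg (Nat.cast_nonneg j : (0 : ℝ) ≤ (j : ℝ))]
              linarith
          _ ≤ ε * (L - w) := hε
          _ ≤ ε * (L - j) := by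
              apply mul_le_mul_of_nonneg_left _ hε0
              linarith
      · obtain ⟨n, hn⟩ : ∃ n, L - j = n + 1 := ⟨L - j - 1, by omega⟩
        obtain ⟨m, hm⟩ : ∃ m, k - j = m + 1 := ⟨k - j - 1, by omega⟩
        have hn' : L - (j + 1) = n := by omega
        have hm' : k - (j + 1) = m := by omega
        rw [hn, hm, hn', hm']
        have hid : ((n : ℝ) + 1) * n.choose m = (n + 1).choose (m + 1) * (m + 1) := by
          exact_mod_cast Nat.add_one_mul_choose_eq n m
        have hnr : (L : ℝ) - j = n + 1 := by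
          have : L = n + 1 + j := by omega
          rw [this]; push_cast; ring
        have hmr : (k : ℝ) - j = m + 1 := by
          have : k = m + 1 + j := by omega
          rw [this]; push_cast; ring
        rw [hnr, hmr, pow_succ]
        have hn0 : (n : ℝ) + 1 ≠ 0 := by positivity
        field_simp
        linarith
    · -- the new coordinate is `false`
      apply step a (2 * ((L : ℝ) - j - (k - a)) / (L - j)) haj
      · have e : 2 * ((L : ℝ) - j - (k - a)) / (L - j) - 1 = (-(2 * k - L) - (j - 2 * a)) / (L - j) := by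
          field_simp
          ring
        rw [e, abs_div, abs_of_pos hjL, div_le_iff₀ hjL]
        have hja : |(j : ℝ) - 2 * a| ≤ w := by
          have : (a : ℝ) ≤ j := by exact_mod_cast haj
          have h0 : (0 : ℝ) ≤ a := Nat.cast_nonneg a
          rw [abs_le]
          constructor <;> linarith
        calc |-((2 : ℝ) * k - L) - (j - 2 * a)| ≤ |-((2 : ℝ) * k - L)| + |(j : ℝ) - 2 * a| :=
              abs_sub _ _
          _ ≤ |(2 : ℝ) * k - L| + w := by
              rw [abs_neg]
              linarith
          _ ≤ ε * (L - w) := hε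
          _ ≤ ε * (L - j) := by
              apply mul_le_mul_of_nonneg_left _ hε0
              linarith
      · obtain ⟨n, hn⟩ : ∃ n, L - j = n + 1 := ⟨L - j - 1, by omega⟩
        have hn' : L - (j + 1) = n := by omega
        rw [hn, hn']
        have hid : (n.choose (k - a) : ℝ) * (n + 1) =
            (n + 1).choose (k - a) * ((n + 1 - (k - a) : ℕ) : ℝ) := by
          exact_mod_cast Nat.choose_mul_succ_eq n (k - a)
        have hsub : ((n + 1 - (k - a) : ℕ) : ℝ) = (L : ℝ) - j - (k - a) := by
          have h1 : n + 1 - (k - a) = L - j - (k - a) := by omega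
          rw [h1, Nat.cast_sub (by omega), Nat.cast_sub (by omega), Nat.cast_sub (by omega)]
        have hnr : (L : ℝ) - j = n + 1 := by
          have : L = n + 1 + j := by omega
          rw [this]; push_cast; ring
        rw [hsub] at hid
        have hn0 : (n : ℝ) + 1 ≠ 0 := by positivity
        rw [pow_succ]
        have hgoal : (2 : ℝ) ^ j * 2 * (n.choose (k - a)) / (L.choose k) =
            (2 : ℝ) ^ j * ((n + 1).choose (k - a)) / (L.choose k) *
              (2 * ((L : ℝ) - j - (k - a)) / (L - j)) := by
          rw [hnr] at hid ⊢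
          field_simp
          linarith
        exact hgoal

/-- Average over the slice with `k` coordinates `true`. -/
noncomputable def sl (k : ℕ) (F : (J → Bool) → ℝ) : ℝ :=
  (∑ y : J → Bool, if ntrue y = k then F y else 0) / ((Fintype.card J).choose k)

theorem sl_ind (P : Finset J) (σ : J → Bool) (k : ℕ)
    (hk : (P.filter (fun i => σ i = true)).card ≤ k) :
    sl k (ind P σ) = (2 : ℝ) ^ P.card * ((Fintype.card J - P.card).choose
      (k - (P.filter (fun i => σ i = true)).card)) / ((Fintype.card J).choose k) := by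
  rw [← cnt_eq P σ k hk]
  unfold sl cnt ind
  congr 1
  rw [← nsmul_eq_mul', Finset.card_filter]
  rw [nsmul_eq_mul]
  push_cast
  rw [sum_mul]
  apply sum_congr rfl
  intro y _
  by_cases h1 : ntrue y = k
  · by_cases h2 : ∀ i ∈ P, y i = σ i
    · rw [if_pos h1, if_pos h2, if_pos ⟨h2, h1⟩, one_mul]
    · rw [if_pos h1, if_neg h2, if_neg (fun h => h2 h.1), zero_mul]
  · rw [if_neg h1, if_neg (fun h => h1 h.2), zero_mul]

theorem sl_add (k : ℕ) (F G : (J → Bool) → ℝ) :
    sl k (fun y => F y + G y) = sl k F + sl k G := by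
  unfold sl
  rw [← add_div, ← sum_add_distrib]
  congr 1
  apply sum_congr rfl
  intro y _
  split_ifs <;> simp

theorem sl_mul (k : ℕ) (c : ℝ) (F : (J → Bool) → ℝ) :
    sl k (fun y => c * F y) = c * sl k F := by
  unfold sl
  rw [← mul_div_assoc, mul_sum]
  congr 1
  apply sum_congr rfl
  intro y _
  split_ifs <;> simp

theorem sl_const_of (k : ℕ) (hk : k ≤ Fintype.card J) (F : (J → Bool) → ℝ) (c : ℝ)
    (hF : ∀ y, ntrue y = k → F y = c) : sl k F = c := by
  have h0 := sl_ind (J := J) ∅ (fun _ => false) k (by simp)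
  have hC : (0 : ℝ) < (Fintype.card J).choose k := by
    exact_mod_cast Nat.choose_pos hk
  have h1 : sl k (ind (∅ : Finset J) (fun _ => false)) = 1 := by
    rw [h0]
    simp [hC.ne']
  have : sl k F = sl k (fun y => c * ind (∅ : Finset J) (fun _ => false) y) := by
    unfold sl
    congr 1
    apply sum_congr rfl
    intro y _
    by_cases hy : ntrue y = k
    · rw [if_pos hy, if_pos hy, hF y hy]
      simp [ind]
    · rw [if_neg hy, if_neg hy]
  rw [this, sl_mul, h1, mul_one]

/-- Slices look uniform to shallow decision trees. -/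
theorem slice_dt {k w : ℕ} {ε : ℝ} (hε1 : w * ε ≤ 1 / 2) (hw : 0 < w)
    (hwL : w < Fintype.card J)
    (hε : |(2 : ℝ) * k - Fintype.card J| + w ≤ ε * (Fintype.card J - w))
    {f : (J → Bool) → Bool} (hf : DTd w f) :
    |sl k (fun y => b2 (f y)) - mext (fun _ => 0) (fun y => b2 (f y))| ≤ 2 * (w * ε) := by
  have hw1 : (1 : ℝ) ≤ w := by exact_mod_cast hw
  have hLw : (0 : ℝ) < Fintype.card J - w := by
    have : (w : ℝ) < Fintype.card J := by exact_mod_cast hwL
    linarith
  have habs := abs_nonneg ((2 : ℝ) * k - Fintype.card J)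
  have hε0 : 0 ≤ ε := by
    by_contra h
    push Not at h
    have : ε * (Fintype.card J - w) < 0 := mul_neg_of_neg_of_pos h hLw
    linarith
  have hε1' : ε < 1 := by nlinarith
  have hlt : |(2 : ℝ) * k - Fintype.card J| + w < Fintype.card J - w := by
    have : ε * (Fintype.card J - w) < 1 * (Fintype.card J - w) :=
      mul_lt_mul_of_pos_right hε1' hLw
    linarith
  have hk1 : w < k := by
    have := neg_abs_le ((2 : ℝ) * k - Fintype.card J)
    have h2 : (w : ℝ) < k := by linarith
    exact_mod_cast h2
  apply dt_functional' (fun F => sl k F - mext (fun _ => 0) F) _ _ _ hf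
  · intro F G
    rw [sl_add, mext_add]
    ring
  · intro c F
    rw [sl_mul, mext_mul_left]
    ring
  · intro P σ hP
    have hcard : (P.filter (fun i => σ i = true)).card ≤ P.card := card_filter_le _ _
    rw [mext_zero_ind, sl_ind P σ k (by omega)]
    refine (ratio_bound hε1' hwL hε P.card _ hcard hP).trans ?_
    have h1 : (1 + ε) ^ P.card ≤ Real.exp (w * ε) := by
      calc (1 + ε) ^ P.card ≤ (Real.exp ε) ^ P.card := by
            apply pow_le_pow_left₀ (by linarith)
            rw [add_comm]
            exact Real.add_one_le_exp ε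
        _ = Real.exp (P.card * ε) := by rw [Real.exp_nat_mul]
        _ ≤ Real.exp (w * ε) := by
            apply Real.exp_le_exp.mpr
            apply mul_le_mul_of_nonneg_right _ hε0
            exact_mod_cast hP
    have h2 : |Real.exp (w * ε) - 1| ≤ 2 * |(w : ℝ) * ε| := by
      apply Real.abs_exp_sub_one_le
      rw [abs_of_nonneg (by positivity)]
      linarith
    rw [abs_of_nonneg (by positivity : (0 : ℝ) ≤ w * ε)] at h2
    have h3 := le_abs_self (Real.exp (w * ε) - 1)
    linarith

end count

end Pool.Agent.Helper67.EQP
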