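import Pool.Agent.Helper67.EQP.Slice

set_option autoImplicit false
set_option linter.unusedSectionVars false

/-!
Constant depth circuits that are constant on a near-central slice are almost constant on the
whole cube.
-/

namespace Pool.Agent.Helper67.EQP

open Finset Function Classical
open Pool.Agent.Helper67.JL (ex ex_mono ex_nonneg ex_add ex_mul_left ex_mul_right ex_sum ex_const
  ex_equiv ex_prod)

section slices

variable {ι : Type} [Fintype ι] [DecidableEq ι]

theorem mext_zero_eq_ex (F : (ι → Bool) → ℝ) : mext (fun _ => 0) F = ex F := by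
  rw [mext_def]
  unfold ex
  have : ∀ z : ι → Bool, ∏ i, (1 + sg (z i) * (fun _ : ι => (0 : ℝ)) i) / 2 =
      1 / (Fintype.card (ι → Bool) : ℝ) := by
    intro z
    simp only [mul_zero, add_zero, prod_const, card_univ, Fintype.card_fun, Fintype.card_bool]
    push_cast
    rw [one_div_pow]
  simp_rw [this]
  rw [← mul_sum]
  ring

/-- Number of free variables. -/
noncomputable def nfree (ρ : ι → Option Bool) : ℕ := (univ.filter (fun i => ρ i = none)).card

/-- Number of variables fixed to `true`. -/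
noncomputable def nfix1 (ρ : ι → Option Bool) : ℕ := (univ.filter (fun i => ρ i = some true)).card

/-- Number of variables fixed to `false`. -/
noncomputable def nfix0 (ρ : ι → Option Bool) : ℕ := (univ.filter (fun i => ρ i = some false)).card

theorem nfree_add (ρ : ι → Option Bool) : nfree ρ + nfix1 ρ + nfix0 ρ = Fintype.card ι := by
  unfold nfree nfix1 nfix0
  rw [← card_univ (α := ι)]
  have h1 : (univ : Finset ι) = (univ.filter (fun i => ρ i = none) ∪
      univ.filter (fun i => ρ i = some true)) ∪ univ.filter (fun i => ρ i = some false) := by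
    ext i
    simp only [mem_univ, mem_union, mem_filter, true_and, true_iff]
    rcases h : ρ i with _ | _ | _ <;> simp
  conv_rhs => rw [h1]
  rw [card_union_of_disjoint, card_union_of_disjoint]
  · rw [disjoint_filter]
    intro i _ h h'
    rw [h] at h'
    simp at h'
  · rw [disjoint_union_left]
    constructor
    · rw [disjoint_filter]
      intro i _ h h'
      rw [h] at h'
      simp at h'
    · rw [disjoint_filter]
      intro i _ h h'
      rw [h] at h'
      simp at h'

/-- Extend a bit string on the free variables arbitrarily. -/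
noncomputable def extz (ρ : ι → Option Bool) (y : {i // ρ i = none} → Bool) : ι → Bool :=
  fun i => if h : ρ i = none then y ⟨i, h⟩ else false

theorem mrg_extz_congr (ρ : ι → Option Bool) (z : ι → Bool) :
    mrg ρ (extz ρ (fun i => z i.1)) = mrg ρ z := by
  funext i
  unfold mrg extz
  by_cases h : ρ i = none
  · rw [dif_pos h]
  · obtain ⟨b, hb⟩ := Option.ne_none_iff_exists'.mp h
    rw [dif_neg h, hb]
    rfl

theorem ntrue_mrg (ρ : ι → Option Bool) (y : {i // ρ i = none} → Bool) :
    ntrue (mrg ρ (extz ρ y)) = ntrue y + nfix1 ρ := by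
  unfold ntrue nfix1
  have h1 : (univ.filter (fun i => mrg ρ (extz ρ y) i = true)) =
      ((univ.filter (fun i : {i // ρ i = none} => y i = true)).map
        ⟨Subtype.val, Subtype.val_injective⟩) ∪ univ.filter (fun i => ρ i = some true) := by
    ext i
    simp only [mem_filter, mem_univ, true_and, mem_union, mem_map, Embedding.coeFn_mk,
      Subtype.exists, exists_and_right, exists_eq_right]
    unfold mrg extz
    by_cases h : ρ i = none
    · rw [dif_pos h]
      simp [h]
    · obtain ⟨b, hb⟩ := Option.ne_none_iff_exists'.mp h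
      rw [dif_neg h]
      simp [hb]
  rw [h1, card_union_of_disjoint, card_map]
  rw [disjoint_left]
  intro i hi hi2
  simp only [mem_filter, mem_univ, true_and, mem_map, Embedding.coeFn_mk,
    Subtype.exists, exists_and_right, exists_eq_right] at hi hi2
  obtain ⟨h, _⟩ := hi
  rw [h] at hi2
  simp at hi2

/-- Averages of functions of the free variables. -/
theorem ex_marginal (ρ : ι → Option Bool) (F : (ι → Bool) → ℝ) :
    ex (fun z => F (mrg ρ z)) = ex (fun y : {i // ρ i = none} → Bool => F (mrg ρ (extz ρ y))) := by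
  have h1 : (fun z => F (mrg ρ z)) = fun z : ι → Bool =>
      (fun yz : ({i // ρ i = none} → Bool) × ({i // ¬ ρ i = none} → Bool) =>
        F (mrg ρ (extz ρ yz.1))) ((Equiv.piEquivPiSubtypeProd (fun i => ρ i = none)
          (fun _ => Bool)) z) := by
    funext z
    rw [← mrg_extz_congr ρ z]
    rfl
  have h2 := ex_equiv (Equiv.piEquivPiSubtypeProd (fun i => ρ i = none) (fun _ : ι => Bool))
    (fun yz : ({i // ρ i = none} → Bool) × ({i // ¬ ρ i = none} → Bool) =>
        F (mrg ρ (extz ρ yz.1)))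
  rw [h1, ← h2, ex_prod]
  congr 1
  funext y
  exact ex_const (Ω := {i // ¬ ρ i = none} → Bool) (F (mrg ρ (extz ρ y)))

theorem card_free (ρ : ι → Option Bool) : Fintype.card {i // ρ i = none} = nfree ρ := by
  rw [Fintype.card_subtype]
  unfold nfree
  congr!

/-- The slice through `r0` is compatible with the restriction `ρ`. -/
def Feas (ρ : ι → Option Bool) (r0 : ι → Bool) : Prop :=
  nfix1 ρ ≤ ntrue r0 ∧ ntrue r0 ≤ nfix1 ρ + nfree ρ

/-- Average over the points of the slice through `r0` that extend `ρ` (if there are any; otherwise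
the value at `r0`). -/
noncomputable def rsl (ρ : ι → Option Bool) (r0 : ι → Bool) (F : (ι → Bool) → ℝ) : ℝ :=
  if Feas ρ r0 then sl (ntrue r0 - nfix1 ρ)
    (fun y : {i // ρ i = none} → Bool => F (mrg ρ (extz ρ y))) else F r0

theorem rsl_add (ρ : ι → Option Bool) (r0 : ι → Bool) (F G : (ι → Bool) → ℝ) :
    rsl ρ r0 (fun r => F r + G r) = rsl ρ r0 F + rsl ρ r0 G := by
  unfold rsl
  split_ifs
  · exact sl_add _ _ _
  · rfl

theorem rsl_mul (ρ : ι → Option Bool) (r0 : ι → Bool) (c : ℝ) (F : (ι → Bool) → ℝ) :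
    rsl ρ r0 (fun r => c * F r) = c * rsl ρ r0 F := by
  unfold rsl
  split_ifs
  · exact sl_mul _ _ _
  · rfl

theorem sl_nonneg {J : Type} [Fintype J] [DecidableEq J] (k : ℕ) {F : (J → Bool) → ℝ}
    (hF : ∀ y, 0 ≤ F y) : 0 ≤ sl k F := by
  unfold sl
  apply div_nonneg _ (Nat.cast_nonneg _)
  apply sum_nonneg
  intro y _
  split_ifs
  · exact hF y
  · exact le_rfl

theorem rsl_nonneg (ρ : ι → Option Bool) (r0 : ι → Bool) {F : (ι → Bool) → ℝ}
    (hF : ∀ y, 0 ≤ F y) : 0 ≤ rsl ρ r0 F := by
  unfold rsl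
  split_ifs
  · exact sl_nonneg _ fun y => hF _
  · exact hF r0

/-- The value depends only on the values of `F` on the slice through `r0`. -/
theorem rsl_const_of (ρ : ι → Option Bool) (r0 : ι → Bool) {F : (ι → Bool) → ℝ} {c : ℝ}
    (hF : ∀ r, ntrue r = ntrue r0 → F r = c) : rsl ρ r0 F = c := by
  unfold rsl
  split_ifs with h
  · have h1 := h.1
    have h2 := h.2
    apply sl_const_of
    · rw [card_free]
      omega
    · intro y hy
      apply hF
      rw [ntrue_mrg, hy]
      omega
  · exact hF r0 rfl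

/-- A function with a shallow tree after restriction has nearly the same average over a
near-central slice and over the cube. -/
theorem restr_slice {w : ℕ} {ε : ℝ} {f : (ι → Bool) → Bool} {ρ : ι → Option Bool}
    {r0 : ι → Bool} (hf : DTd w (fun z => f (mrg ρ z)))
    (hε1 : w * ε ≤ 1 / 2) (hw : 0 < w) (hwL : w < nfree ρ)
    (hε : |(2 : ℝ) * ntrue r0 - Fintype.card ι| + |(nfix0 ρ : ℝ) - nfix1 ρ| + w ≤
      ε * (nfree ρ - w)) :
    |mext (fun _ => 0) (fun z => b2 (f (mrg ρ z))) - rsl ρ r0 (fun r => b2 (f r))| ≤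
      2 * (w * ε) := by
  have hw1 : (1 : ℝ) ≤ w := by exact_mod_cast hw
  have hwLr : (w : ℝ) < nfree ρ := by exact_mod_cast hwL
  set K := ntrue r0 with hK
  have hsum : (nfree ρ : ℝ) + nfix1 ρ + nfix0 ρ = Fintype.card ι := by
    exact_mod_cast nfree_add ρ
  have hε0 : 0 ≤ ε := by
    by_contra h
    push Not at h
    have : ε * (nfree ρ - w) < 0 := mul_neg_of_neg_of_pos h (by linarith)
    have h1 := abs_nonneg ((2 : ℝ) * K - Fintype.card ι)
    have h2 := abs_nonneg ((nfix0 ρ : ℝ) - nfix1 ρ)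
    linarith
  have hε1' : ε < 1 := by nlinarith
  have habs : |(2 : ℝ) * (K - nfix1 ρ) - nfree ρ| ≤
      |(2 : ℝ) * K - Fintype.card ι| + |(nfix0 ρ : ℝ) - nfix1 ρ| := by
    have e : (2 : ℝ) * (K - nfix1 ρ) - nfree ρ =
        (2 * K - Fintype.card ι) + (nfix0 ρ - nfix1 ρ) := by
      rw [← hsum]; ring
    rw [e]
    exact abs_add_le _ _
  have hlt : |(2 : ℝ) * (K - nfix1 ρ) - nfree ρ| < nfree ρ := by
    have : ε * (nfree ρ - w) < 1 * (nfree ρ - w) :=
      mul_lt_mul_of_pos_right hε1' (by linarith)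
    linarith
  rw [abs_lt] at hlt
  have hK1 : nfix1 ρ ≤ K := by
    have : (nfix1 ρ : ℝ) < K := by linarith [hlt.1]
    exact_mod_cast this.le
  have hK2 : K - nfix1 ρ ≤ nfree ρ := by
    have : ((K - nfix1 ρ : ℕ) : ℝ) ≤ nfree ρ := by
      rw [Nat.cast_sub hK1]
      linarith [hlt.2]
    exact_mod_cast this
  -- pass to the free variables
  have hf' : DTd w (fun y : {i // ρ i = none} → Bool => f (mrg ρ (extz ρ y))) := by
    apply hf.comp (extz ρ)
    intro i
    unfold extz
    by_cases h : ρ i = none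
    · simp only [dif_pos h]
      exact DTd.lit _
    · simp only [dif_neg h]
      exact DTd.const 1 false
  have hkey := slice_dt (J := {i // ρ i = none}) (k := K - nfix1 ρ) hε1 hw
    (by rw [card_free]; exact hwL)
    (by
      rw [card_free, Nat.cast_sub hK1]
      linarith) hf'
  have hfeas : Feas ρ r0 := ⟨hK1, by omega⟩
  unfold rsl
  rw [if_pos hfeas, ← hK]
  rw [mext_zero_eq_ex] at hkey ⊢
  rw [ex_marginal ρ (fun r => b2 (f r))]
  rw [abs_sub_comm]
  exact hkey

theorem pm_nfree {P : ℝ} (hP0 : 0 < P) (hP1 : P ≤ 1) (hι : 0 < Fintype.card ι) :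
    pm (rw' P) (fun ρ : ι → Option Bool =>
      if |(nfree ρ : ℝ) - P * Fintype.card ι| ≤ P * Fintype.card ι / 2 then 0 else 1) ≤
      4 / (P * Fintype.card ι) := by
  have hM : (0 : ℝ) < Fintype.card ι := by exact_mod_cast hι
  set M : ℝ := (Fintype.card ι : ℝ) with hMdef
  have h := pm_cheb (ι := ι) (rw' P) (fun i r => rw'_nonneg hP0.le hP1 i r)
    (fun ρ => (nfree ρ : ℝ) - P * M) (δ := P * M / 2) (by positivity)
  refine h.trans ?_
  let Y : ι → Option Bool → ℝ := fun _ r => (if r = none then (1 : ℝ) else 0) - P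
  have e : pm (rw' P) (fun ρ : ι → Option Bool => ((nfree ρ : ℝ) - P * M) ^ 2) =
      pm (rw' P) (fun ρ => (∑ i, Y i (ρ i) + 0) ^ 2) := by
    congr 1
    funext ρ
    simp only [Y]
    rw [sum_sub_distrib, sum_const, card_univ, nsmul_eq_mul, add_zero, sum_boole]
    unfold nfree
    rw [mul_comm P M]
  rw [e, pm_sq (rw' P) (fun i => rw'_sum P i) Y]
  · have h2 : ∀ i : ι, ∑ b : Option Bool, rw' P i b * Y i b ^ 2 = P * (1 - P) := by
      intro i
      rw [Fintype.sum_option, Fintype.sum_bool]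
      simp only [Y, rw'_none, rw'_some, if_true, reduceCtorEq, if_false]
      ring
    simp_rw [h2]
    rw [sum_const, card_univ, nsmul_eq_mul, ← hMdef, div_le_div_iff₀ (by positivity) (by positivity)]
    have : 0 ≤ P * P * M ^ 2 * P := by positivity
    nlinarith
  · intro i
    rw [Fintype.sum_option, Fintype.sum_bool]
    simp only [Y, rw'_none, rw'_some, if_true, reduceCtorEq, if_false]
    ring

theorem pm_fixed {P : ℝ} (hP0 : 0 < P) (hP1 : P ≤ 1) {V : ℝ} (hV : 0 < V) :
    pm (rw' P) (fun ρ : ι → Option Bool =>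
      if |(nfix0 ρ : ℝ) - nfix1 ρ| ≤ V then 0 else 1) ≤ Fintype.card ι / V ^ 2 := by
  set M : ℝ := (Fintype.card ι : ℝ) with hMdef
  have hM0 : 0 ≤ M := Nat.cast_nonneg _
  have h := pm_cheb (ι := ι) (rw' P) (fun i r => rw'_nonneg hP0.le hP1 i r)
    (fun ρ => (nfix0 ρ : ℝ) - nfix1 ρ) (δ := V) hV
  refine h.trans ?_
  let Y : ι → Option Bool → ℝ := fun _ r =>
    (if r = some false then (1 : ℝ) else 0) - (if r = some true then 1 else 0)
  have e : pm (rw' P) (fun ρ : ι → Option Bool => ((nfix0 ρ : ℝ) - nfix1 ρ) ^ 2) =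
      pm (rw' P) (fun ρ => (∑ i, Y i (ρ i) + 0) ^ 2) := by
    congr 1
    funext ρ
    simp only [Y]
    rw [sum_sub_distrib, add_zero, sum_boole, sum_boole]
    unfold nfix0 nfix1
    rfl
  rw [e, pm_sq (rw' P) (fun i => rw'_sum P i) Y]
  · have h2 : ∀ i : ι, ∑ b : Option Bool, rw' P i b * Y i b ^ 2 = 1 - P := by
      intro i
      rw [Fintype.sum_option, Fintype.sum_bool]
      simp [Y, rw'_none, rw'_some]
    simp_rw [h2]
    rw [sum_const, card_univ, nsmul_eq_mul, ← hMdef]
    apply div_le_div_of_nonneg_right _ (by positivity)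
    nlinarith
  · intro i
    rw [Fintype.sum_option, Fintype.sum_bool]
    simp [Y, rw'_none, rw'_some]

/-- The error in the slice lemma. -/
noncomputable def sliceErr (h s w : ℕ) (p M V ε : ℝ) : ℝ :=
  2 * (w * ε) + (h * (s * (16 * p * w) ^ (w + 1)) + 4 / (p ^ h * M) + M / V ^ 2)

/-- The distribution on the slice through `r0`: choose a restriction, and then a random point of the
slice extending it. -/
noncomputable def sld (P : ℝ) (r0 : ι → Bool) (F : (ι → Bool) → ℝ) : ℝ :=
  pm (rw' P) (fun ρ => rsl ρ r0 F)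

theorem sld_add (P : ℝ) (r0 : ι → Bool) (F G : (ι → Bool) → ℝ) :
    sld P r0 (fun r => F r + G r) = sld P r0 F + sld P r0 G := by
  unfold sld
  simp_rw [rsl_add]
  exact pm_add _ _ _

theorem sld_mul (P : ℝ) (r0 : ι → Bool) (c : ℝ) (F : (ι → Bool) → ℝ) :
    sld P r0 (fun r => c * F r) = c * sld P r0 F := by
  unfold sld
  simp_rw [rsl_mul]
  exact pm_mul_left _ _ _

theorem sld_nonneg {P : ℝ} (hP0 : 0 ≤ P) (hP1 : P ≤ 1) (r0 : ι → Bool) {F : (ι → Bool) → ℝ}
    (hF : ∀ y, 0 ≤ F y) : 0 ≤ sld P r0 F :=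
  pm_nonneg _ (fun i r => rw'_nonneg hP0 hP1 i r) fun ρ => rsl_nonneg ρ r0 hF

theorem sld_const_of (P : ℝ) (r0 : ι → Bool) {F : (ι → Bool) → ℝ} {c : ℝ}
    (hF : ∀ r, ntrue r = ntrue r0 → F r = c) : sld P r0 F = c := by
  unfold sld
  simp_rw [rsl_const_of _ r0 hF]
  exact pm_const _ (fun i => rw'_sum _ i) c

theorem sld_mono {P : ℝ} (hP0 : 0 ≤ P) (hP1 : P ≤ 1) (r0 : ι → Bool) {F G : (ι → Bool) → ℝ}
    (h : ∀ y, F y ≤ G y) : sld P r0 F ≤ sld P r0 G := by
  have h1 := sld_nonneg hP0 hP1 r0 (F := fun y => G y + (-1) * F y) (fun y => by linarith [h y])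
  rw [sld_add, sld_mul] at h1
  linarith

/-- Constant depth circuits do not distinguish a near-central slice from the cube. -/
theorem ac_slice {h s w : ℕ} {level : Fin s → ℕ} {g : Fin s → (ι → Bool) → Bool}
    (hAC : ACfam w level g) (hlev : ∀ j, level j < h) (hw : 0 < w) {p : ℝ} (hp : 0 < p)
    (hpw : 16 * p * w ≤ 1) (hι : 0 < Fintype.card ι) {V : ℝ} (hV : 0 < V) {r0 : ι → Bool} {ε : ℝ}
    (hε1 : w * ε ≤ 1 / 2) (hwL : (w : ℝ) < p ^ h * Fintype.card ι / 2)
    (hε : |(2 : ℝ) * ntrue r0 - Fintype.card ι| + V + w ≤ ε * (p ^ h * Fintype.card ι / 2 - w))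
    (j : Fin s) :
    |mext (fun _ => 0) (fun z => b2 (g j z)) - sld (p ^ h) r0 (fun r => b2 (g j r))| ≤
      sliceErr h s w p (Fintype.card ι) V ε := by
  have hw1 : (1 : ℝ) ≤ w := by exact_mod_cast hw
  have hp1 : p ≤ 1 := by nlinarith
  have hph : 0 < p ^ h := pow_pos hp h
  have hph1 : p ^ h ≤ 1 := pow_le_one₀ hp.le hp1
  have hM : (0 : ℝ) < Fintype.card ι := by exact_mod_cast hι
  set M : ℝ := (Fintype.card ι : ℝ) with hMdef
  have hnn : ∀ (i : ι) (r : Option Bool), 0 ≤ rw' (p ^ h) i r :=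
    fun i r => rw'_nonneg hph.le hph1 i r
  have hε0 : 0 ≤ ε := by
    by_contra h'
    push Not at h'
    have : ε * (p ^ h * M / 2 - w) < 0 := mul_neg_of_neg_of_pos h' (by linarith)
    have h1 := abs_nonneg ((2 : ℝ) * ntrue r0 - M)
    linarith
  have e2 : mext (fun _ => 0) (fun z => b2 (g j z)) - sld (p ^ h) r0 (fun r => b2 (g j r)) =
      pm (rw' (p ^ h)) (fun ρ => mext (fun _ => 0) (fun z => b2 (g j (mrg ρ z))) -
        rsl ρ r0 (fun r => b2 (g j r))) := by
    rw [pm_sub]
    congr 1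
    refine Eq.trans ?_ (mext_scale (p ^ h) (fun _ => 0) (fun z => b2 (g j z)))
    simp
  rw [e2]
  refine (pm_abs_le _ hnn _).trans ?_
  have key : ∀ ρ : ι → Option Bool,
      |mext (fun _ => 0) (fun z => b2 (g j (mrg ρ z))) - rsl ρ r0 (fun r => b2 (g j r))| ≤
      2 * (w * ε) + ((if GoodUpTo w h level (fun j x => g j (mrg ρ x)) then 0 else 1) +
        ((if |(nfree ρ : ℝ) - p ^ h * M| ≤ p ^ h * M / 2 then 0 else 1) +
        (if |(nfix0 ρ : ℝ) - nfix1 ρ| ≤ V then 0 else 1))) := by
    intro ρ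
    have htriv : |mext (fun _ => 0) (fun z => b2 (g j (mrg ρ z))) -
        rsl ρ r0 (fun r => b2 (g j r))| ≤ 1 := by
      have h1 : 0 ≤ mext (fun _ => 0) (fun z => b2 (g j (mrg ρ z))) := by
        rw [mext_zero_eq_ex]
        exact ex_nonneg fun z => b2_nonneg _
      have h2 : mext (fun _ => 0) (fun z => b2 (g j (mrg ρ z))) ≤ 1 := by
        rw [mext_zero_eq_ex]
        calc _ ≤ ex (fun _ : ι → Bool => (1 : ℝ)) := ex_mono fun z => b2_le_one _
          _ = 1 := ex_const 1
      have h3 : 0 ≤ rsl ρ r0 (fun r => b2 (g j r)) := rsl_nonneg ρ r0 fun y => b2_nonneg _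
      have h4 : rsl ρ r0 (fun r => b2 (g j r)) ≤ 1 := by
        have h5 : 0 ≤ rsl ρ r0 (fun r => 1 + (-1) * b2 (g j r)) :=
          rsl_nonneg ρ r0 fun y => by linarith [b2_le_one (g j y)]
        rw [rsl_add, rsl_mul, rsl_const_of ρ r0 (F := fun _ => (1 : ℝ)) (c := 1)
          (fun _ _ => rfl)] at h5
        linarith
      rw [abs_le]
      constructor <;> linarith
    have hwe : 0 ≤ 2 * ((w : ℝ) * ε) := by positivity
    by_cases h1 : GoodUpTo w h level (fun j x => g j (mrg ρ x))
    · by_cases h2 : |(nfree ρ : ℝ) - p ^ h * M| ≤ p ^ h * M / 2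
      · by_cases h3 : |(nfix0 ρ : ℝ) - nfix1 ρ| ≤ V
        · rw [if_pos h1, if_pos h2, if_pos h3]
          have hL : p ^ h * M / 2 ≤ nfree ρ := by
            have := (abs_le.mp h2).1
            linarith
          have := restr_slice (r0 := r0) (h1 j (hlev j)) hε1 hw
            (by
              have : (w : ℝ) < nfree ρ := by linarith
              exact_mod_cast this)
            (by
              rw [← hMdef]
              have : ε * (p ^ h * M / 2 - w) ≤ ε * (nfree ρ - w) :=
                mul_le_mul_of_nonneg_left (by linarith) hε0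
              linarith)
          linarith
        · rw [if_neg h3]
          split_ifs <;> linarith
      · rw [if_neg h2]
        split_ifs <;> linarith
    · rw [if_neg h1]
      split_ifs <;> linarith
  refine (pm_mono _ hnn key).trans ?_
  rw [pm_add, pm_const _ (fun i => rw'_sum _ i), pm_add, pm_add]
  have hs := ac_switch hAC hw hp hpw h
  have h2 := pm_nfree (ι := ι) hph hph1 hι
  have h3 := pm_fixed (ι := ι) hph hph1 hV
  rw [← hMdef] at h2 h3
  unfold sliceErr
  linarith

end slices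

end Pool.Agent.Helper67.EQP
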