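import Pool.Agent.Helper67.EQP.DT

set_option autoImplicit false
set_option linter.unusedSectionVars false

/-!
Håstad's switching lemma, Razborov-style encoding, organised as an induction over good partial
maps on restrictions.
-/

namespace Pool.Agent.Helper67.EQP

open Finset Function Classical

variable {ι : Type} [Fintype ι] [DecidableEq ι] {w : ℕ}

/-- The term is falsified by the restriction. -/
def Term.fals (T : Term ι w) (ρ : ι → Option Bool) : Prop :=
  ∃ j i, T.v j = some i ∧ ρ i = some (!T.s i)

/-- The variables of the term left free by the restriction. -/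
noncomputable def Term.stars (T : Term ι w) (ρ : ι → Option Bool) : Finset ι :=
  univ.filter (fun i => (∃ j, T.v j = some i) ∧ ρ i = none)

/-- The term is satisfied by the restriction. -/
def Term.satR (T : Term ι w) (ρ : ι → Option Bool) : Prop :=
  ∀ j i, T.v j = some i → ρ i = some (T.s i)

/-- First term of the list which is not falsified. -/
noncomputable def first (F : List (Term ι w)) (ρ : ι → Option Bool) : Option (Term ι w) :=
  F.find? (fun T => decide (¬ T.fals ρ))

/-- `τ'` extends `τ`. -/
def Ext (τ τ' : ι → Option Bool) : Prop := ∀ i b, τ i = some b → τ' i = some b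

theorem Term.fals_ext {T : Term ι w} {τ τ' : ι → Option Bool} (h : Ext τ τ') (hf : T.fals τ) :
    T.fals τ' := by
  obtain ⟨j, i, h1, h2⟩ := hf
  exact ⟨j, i, h1, h i _ h2⟩

theorem Term.satR_ext {T : Term ι w} {τ τ' : ι → Option Bool} (h : Ext τ τ') (hf : T.satR τ) :
    T.satR τ' := fun j i hji => h i _ (hf j i hji)

theorem Term.not_fals_of_satR {T : Term ι w} {τ : ι → Option Bool} (h : T.satR τ) :
    ¬ T.fals τ := by
  rintro ⟨j, i, h1, h2⟩
  rw [h j i h1] at h2
  simp at h2

theorem first_ext {F : List (Term ι w)} {ρ ρ' : ι → Option Bool} {T : Term ι w}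
    (h : first F ρ = some T) (he : Ext ρ ρ') (hT : ¬ T.fals ρ') : first F ρ' = some T := by
  unfold first at h ⊢
  rw [List.find?_eq_some_iff_append] at h ⊢
  obtain ⟨_, as, bs, hF, has⟩ := h
  refine ⟨by simpa using hT, as, bs, hF, ?_⟩
  intro a ha
  have := has a ha
  simp only [decide_not, Bool.not_not, decide_eq_true_eq] at this ⊢
  exact Term.fals_ext he this

theorem first_not_fals {F : List (Term ι w)} {ρ : ι → Option Bool} {T : Term ι w}
    (h : first F ρ = some T) : ¬ T.fals ρ := by
  unfold first at h
  have := List.find?_some h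
  simpa using this

theorem first_mem {F : List (Term ι w)} {ρ : ι → Option Bool} {T : Term ι w}
    (h : first F ρ = some T) : T ∈ F := by
  unfold first at h
  exact List.mem_of_find?_eq_some h

theorem first_none {F : List (Term ι w)} {ρ : ι → Option Bool}
    (h : first F ρ = none) : ∀ T ∈ F, T.fals ρ := by
  unfold first at h
  rw [List.find?_eq_none] at h
  intro T hT
  have := h T hT
  simpa using this

/-- Depth of the restricted function is at least `k`. -/
def Deep (f : (ι → Bool) → Bool) (ρ : ι → Option Bool) : ℕ → Prop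
  | 0 => True
  | (k + 1) => ¬ DTd k (fun x => f (mrg ρ x))

/-- Assign the variables in `S`. -/
def asg (ρ : ι → Option Bool) (S : Finset ι) (β : ι → Bool) : ι → Option Bool :=
  fun i => if i ∈ S then some (β i) else ρ i

theorem deep_step {F : List (Term ι w)} {f : (ι → Bool) → Bool} (hF : IsDNF F f)
    {ρ : ι → Option Bool} {k : ℕ} (h : Deep f ρ (k + 1)) :
    ∃ T, first F ρ = some T ∧ (T.stars ρ).Nonempty ∧
      ∃ β, Deep f (asg ρ (T.stars ρ) β) (k + 1 - (T.stars ρ).card) := by
  have hD : ¬ DTd k (fun x => f (mrg ρ x)) := h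
  rcases hT : first F ρ with _ | T
  · exfalso
    apply hD
    have hall := first_none hT
    have : (fun x => f (mrg ρ x)) = fun _ => false := by
      funext x
      by_contra hne
      have hx : f (mrg ρ x) = true := by simpa using hne
      obtain ⟨T, hTF, hs⟩ := (hF _).mp hx
      obtain ⟨j, i, h1, h2⟩ := hall T hTF
      have := hs j i h1
      unfold mrg at this
      rw [h2] at this
      simp at this
    rw [this]
    exact DTd.const k false
  · refine ⟨T, rfl, ?_, ?_⟩
    · by_contra hne
      rw [not_nonempty_iff_eq_empty] at hne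
      apply hD
      have : (fun x => f (mrg ρ x)) = fun _ => true := by
        funext x
        rw [hF]
        refine ⟨T, first_mem hT, ?_⟩
        intro j i hji
        have hnf := first_not_fals hT
        unfold mrg
        rcases hρ : ρ i with _ | b
        · exfalso
          have : i ∈ T.stars ρ := by
            unfold Term.stars
            simp only [mem_filter, mem_univ, true_and]
            exact ⟨⟨j, hji⟩, hρ⟩
          rw [hne] at this
          simp at this
        · simp only [Option.getD_some]
          by_contra hb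
          apply hnf
          refine ⟨j, i, hji, ?_⟩
          rw [hρ]
          congr 1
          cases b <;> cases hh : T.s i <;> simp_all
      rw [this]
      exact DTd.const k true
    · by_contra hcon
      push Not at hcon
      obtain ⟨k', hk'⟩ : ∃ k', k + 1 - (T.stars ρ).card = k' + 1 := by
        refine ⟨k + 1 - (T.stars ρ).card - 1, ?_⟩
        by_contra hne
        have h0 : k + 1 - (T.stars ρ).card = 0 := by omega
        have := hcon (fun _ => false)
        rw [h0] at this
        exact this trivial
      apply hD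
      have hk : k = k' + (T.stars ρ).card := by omega
      rw [hk]
      apply DTd.of_subset
      intro β
      have := hcon β
      rw [hk'] at this
      have h2 : DTd k' (fun x => f (mrg (asg ρ (T.stars ρ) β) x)) := by
        by_contra hh
        exact this hh
      convert h2 using 3 with x
      funext i
      unfold mrg asg
      by_cases hi : i ∈ T.stars ρ
      · have : ρ i = none := by
          unfold Term.stars at hi
          simp only [mem_filter, mem_univ, true_and] at hi
          exact hi.2
        simp [hi, this]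
      · simp [hi]

/-- Partial maps on restrictions that keep the free variables and commute with extensions. -/
structure GoodMap (m : (ι → Option Bool) → Option (ι → Option Bool)) : Prop where
  star : ∀ τ ρ, m τ = some ρ → ∀ i, ρ i = none ↔ τ i = none
  ext : ∀ τ ρ τ', m τ = some ρ → Ext τ τ' →
    m τ' = some (fun i => if τ i = none then τ' i else ρ i)

theorem goodMap_some : GoodMap (some : (ι → Option Bool) → Option (ι → Option Bool)) where
  star := by
    intro τ ρ h i
    rw [Option.some.inj h]
  ext := by
    intro τ ρ τ' h he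
    congr 1
    funext i
    rw [← Option.some.inj h]
    by_cases hi : τ i = none
    · simp [hi]
    · simp only [hi, if_false]
      obtain ⟨b, hb⟩ := Option.ne_none_iff_exists'.mp hi
      rw [he i b hb, hb]

/-- Overwrite the variables of `T` selected by the code `c`. -/
noncomputable def asgc (ρ : ι → Option Bool) (T : Term ι w) (c : Fin w → Option Bool) :
    ι → Option Bool :=
  fun i => if h : ∃ j, T.v j = some i ∧ c j ≠ none then c (choose h) else ρ i

/-- The decoding step. -/
noncomputable def dec (F : List (Term ι w)) (c : Fin w → Option Bool)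
    (m : (ι → Option Bool) → Option (ι → Option Bool)) (τ : ι → Option Bool) :
    Option (ι → Option Bool) :=
  (m τ).bind (fun ρ => (first F ρ).bind (fun T => if T.satR ρ then some (asgc ρ T c) else none))

theorem dec_eq_some {F : List (Term ι w)} {c : Fin w → Option Bool}
    {m : (ι → Option Bool) → Option (ι → Option Bool)} {τ : ι → Option Bool}
    {σ : ι → Option Bool} :
    dec F c m τ = some σ ↔ ∃ ρ T, m τ = some ρ ∧ first F ρ = some T ∧ T.satR ρ ∧
      σ = asgc ρ T c := by
  unfold dec
  constructor
  · intro h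
    rw [Option.bind_eq_some_iff] at h
    obtain ⟨ρ, hρ, h⟩ := h
    rw [Option.bind_eq_some_iff] at h
    obtain ⟨T, hT, h⟩ := h
    by_cases hs : T.satR ρ
    · rw [if_pos hs] at h
      exact ⟨ρ, T, hρ, hT, hs, (Option.some.inj h).symm⟩
    · rw [if_neg hs] at h
      simp at h
  · rintro ⟨ρ, T, hρ, hT, hs, rfl⟩
    rw [hρ, Option.bind_some, hT, Option.bind_some, if_pos hs]

theorem goodMap_dec {F : List (Term ι w)} {c : Fin w → Option Bool}
    {m : (ι → Option Bool) → Option (ι → Option Bool)} (hm : GoodMap m) :
    GoodMap (dec F c m) where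
  star := by
    intro τ σ h i
    rw [dec_eq_some] at h
    obtain ⟨ρ, T, hρ, hT, hs, rfl⟩ := h
    unfold asgc
    by_cases hh : ∃ j, T.v j = some i ∧ c j ≠ none
    · rw [dif_pos hh]
      have h1 := (choose_spec hh).2
      have h2 := hs _ _ (choose_spec hh).1
      have h3 := hm.star τ ρ hρ i
      constructor
      · intro h; exact absurd h h1
      · intro h
        rw [← h3, h2] at h
        simp at h
    · rw [dif_neg hh]
      exact hm.star τ ρ hρ i
  ext := by
    intro τ σ τ' h he
    rw [dec_eq_some] at h
    obtain ⟨ρ, T, hρ, hT, hs, rfl⟩ := h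
    rw [dec_eq_some]
    have hext := hm.ext τ ρ τ' hρ he
    have hE : Ext ρ (fun i => if τ i = none then τ' i else ρ i) := by
      intro i b hb
      have h3 := hm.star τ ρ hρ i
      have : τ i ≠ none := by
        intro hn
        rw [← h3, hb] at hn
        simp at hn
      simp [this, hb]
    have hs' := Term.satR_ext hE hs
    refine ⟨_, T, hext, first_ext hT hE (Term.not_fals_of_satR hs'), hs', ?_⟩
    funext i
    unfold asgc
    by_cases hh : ∃ j, T.v j = some i ∧ c j ≠ none
    · rw [dif_pos hh]
      have h2 := hs _ _ (choose_spec hh).1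
      have h3 := hm.star τ ρ hρ i
      have : τ i ≠ none := by
        intro hn
        rw [← h3, h2] at hn
        simp at hn
      rw [if_neg this, dif_pos hh]
    · rw [dif_neg hh, dif_neg hh]

/-- Number of selected positions. -/
noncomputable def csz (c : Fin w → Option Bool) : ℕ := (univ.filter (fun j => c j ≠ none)).card

/-- weight of a restriction -/
noncomputable def wt (p : ℝ) (ρ : ι → Option Bool) : ℝ := ∏ i, rw' p i (ρ i)

theorem wt_nonneg {p : ℝ} (h0 : 0 ≤ p) (h1 : p ≤ 1) (ρ : ι → Option Bool) : 0 ≤ wt p ρ :=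
  prod_nonneg fun i _ => rw'_nonneg h0 h1 i _

theorem wt_asg {p : ℝ} (h1 : p < 1) (ρ : ι → Option Bool) (S : Finset ι) (β : ι → Bool)
    (hS : ∀ i ∈ S, ρ i = none) :
    wt p ρ = (2 * p / (1 - p)) ^ S.card * wt p (asg ρ S β) := by
  unfold wt
  have e1 : (2 * p / (1 - p)) ^ S.card = ∏ i : ι, (if i ∈ S then (2 * p / (1 - p)) else 1) := by
    rw [Finset.prod_ite_mem, univ_inter, prod_const]
  rw [e1, ← prod_mul_distrib]
  apply prod_congr rfl
  intro i _
  unfold asg
  by_cases hi : i ∈ S
  · rw [if_pos hi, if_pos hi, hS i hi, rw'_none, rw'_some]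
    have : (1 - p) ≠ 0 := by linarith
    field_simp
  · rw [if_neg hi, if_neg hi, one_mul]

/-- Encoding of a deep restriction. -/
theorem encode {F : List (Term ι w)} {f : (ι → Bool) → Bool} (hF : IsDNF F f)
    {m : (ι → Option Bool) → Option (ι → Option Bool)} (hm : GoodMap m) {k : ℕ}
    {τ : ι → Option Bool} (h : ∃ ρ, m τ = some ρ ∧ Deep f ρ (k + 1)) :
    ∃ (c : Fin w → Option Bool) (S : Finset ι) (T : Term ι w),
      0 < csz c ∧ S.card = csz c ∧ (∀ i ∈ S, τ i = none) ∧
      (∃ ρ', m (asg τ S T.s) = some ρ' ∧ first F ρ' = some T) ∧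
      (∀ i, i ∈ S ↔ ∃ j, T.v j = some i ∧ c j ≠ none) ∧
      (∃ σ, dec F c m (asg τ S T.s) = some σ ∧ Deep f σ (k + 1 - csz c)) := by
  obtain ⟨ρ, hρ, hD⟩ := h
  obtain ⟨T, hT, hne, β, hβ⟩ := deep_step hF hD
  set S := T.stars ρ with hS
  have hSmem : ∀ i, i ∈ S ↔ (∃ j, T.v j = some i) ∧ ρ i = none := by
    intro i
    rw [hS]
    unfold Term.stars
    simp
  have hstar : ∀ i ∈ S, τ i = none := by
    intro i hi
    rw [← hm.star τ ρ hρ i]
    exact ((hSmem i).mp hi).2
  -- position selector
  have hsel : ∃ g : ι → Option (Fin w), ∀ i ∈ S, ∃ j, g i = some j ∧ T.v j = some i := by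
    refine ⟨fun i => if h : ∃ j, T.v j = some i then some (choose h) else none, ?_⟩
    intro i hi
    have h := ((hSmem i).mp hi).1
    exact ⟨choose h, dif_pos h, choose_spec h⟩
  obtain ⟨g, hg⟩ := hsel
  let c : Fin w → Option Bool := fun j =>
    if h : ∃ i ∈ S, g i = some j then some (β (choose h)) else none
  have hc1 : ∀ j, c j ≠ none ↔ ∃ i ∈ S, g i = some j := by
    intro j
    by_cases h : ∃ i ∈ S, g i = some j
    · simp [c, h]
    · simp [c, h]
  have hc2 : ∀ j i, i ∈ S → g i = some j → c j = some (β i) := by
    intro j i hi hgi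
    have h : ∃ i ∈ S, g i = some j := ⟨i, hi, hgi⟩
    have : c j = some (β (choose h)) := by simp only [c, dif_pos h]
    rw [this]
    obtain ⟨h1, h2⟩ := choose_spec h
    obtain ⟨j1, hj1, hv1⟩ := hg _ h1
    obtain ⟨j2, hj2, hv2⟩ := hg i hi
    have e1 : j1 = j := Option.some.inj (hj1.symm.trans h2)
    have e2 : j2 = j := Option.some.inj (hj2.symm.trans hgi)
    subst e1
    subst e2
    have := Option.some.inj (hv1.symm.trans hv2)
    rw [this]
  have hc3 : ∀ j i, T.v j = some i → c j ≠ none → i ∈ S ∧ g i = some j := by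
    intro j i hji hcj
    obtain ⟨i', hi', hg'⟩ := (hc1 j).mp hcj
    obtain ⟨j1, hj1, hv1⟩ := hg i' hi'
    have e1 : j1 = j := Option.some.inj (hj1.symm.trans hg')
    subst e1
    have : i' = i := Option.some.inj (hv1.symm.trans hji)
    subst this
    exact ⟨hi', hg'⟩
  have hSc : ∀ i, i ∈ S ↔ ∃ j, T.v j = some i ∧ c j ≠ none := by
    intro i
    constructor
    · intro hi
      obtain ⟨j, hj, hv⟩ := hg i hi
      exact ⟨j, hv, (hc1 j).mpr ⟨i, hi, hj⟩⟩
    · rintro ⟨j, hj, hcj⟩
      exact (hc3 j i hj hcj).1
  have hcard : S.card = csz c := by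
    unfold csz
    apply Finset.card_bij (fun i hi => choose (hg i hi))
    · intro i hi
      simp only [mem_filter, mem_univ, true_and]
      have := choose_spec (hg i hi)
      exact (hc1 _).mpr ⟨i, hi, this.1⟩
    · intro i1 h1 i2 h2 heq
      have s1 := choose_spec (hg i1 h1)
      have s2 := choose_spec (hg i2 h2)
      rw [heq] at s1
      exact Option.some.inj (s1.2.symm.trans s2.2)
    · intro j hj
      simp only [mem_filter, mem_univ, true_and] at hj
      obtain ⟨i, hi, hgi⟩ := (hc1 j).mp hj
      refine ⟨i, hi, ?_⟩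
      have s := choose_spec (hg i hi)
      exact Option.some.inj (s.1.symm.trans hgi)
  have hext : Ext τ (asg τ S T.s) := by
    intro i b hb
    unfold asg
    have : i ∉ S := by
      intro hi
      rw [hstar i hi] at hb
      simp at hb
    rw [if_neg this]
    exact hb
  have hmext := hm.ext τ ρ _ hρ hext
  have hρ' : (fun i => if τ i = none then asg τ S T.s i else ρ i) = asg ρ S T.s := by
    funext i
    by_cases hi : i ∈ S
    · simp [asg, hi, hstar i hi]
    · by_cases hn : τ i = none
      · have hn' := (hm.star τ ρ hρ i).mpr hn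
        simp [asg, hi, hn, hn']
      · simp [asg, hi, hn]
  rw [hρ'] at hmext
  have hextρ : Ext ρ (asg ρ S T.s) := by
    intro i b hb
    unfold asg
    have : i ∉ S := by
      intro hi
      rw [((hSmem i).mp hi).2] at hb
      simp at hb
    rw [if_neg this]
    exact hb
  have hsat : T.satR (asg ρ S T.s) := by
    intro j i hji
    unfold asg
    by_cases hi : i ∈ S
    · rw [if_pos hi]
    · rw [if_neg hi]
      have hnf := first_not_fals hT
      rcases hρi : ρ i with _ | b
      · exfalso
        exact hi ((hSmem i).mpr ⟨⟨j, hji⟩, hρi⟩)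
      · congr 1
        by_contra hb
        apply hnf
        refine ⟨j, i, hji, ?_⟩
        rw [hρi]
        congr 1
        cases b <;> cases hh : T.s i <;> simp_all
  have hfirst : first F (asg ρ S T.s) = some T :=
    first_ext hT hextρ (Term.not_fals_of_satR hsat)
  refine ⟨c, S, T, ?_, hcard, hstar, ⟨_, hmext, hfirst⟩, hSc, ?_⟩
  · rw [← hcard]
    exact card_pos.mpr hne
  · refine ⟨asgc (asg ρ S T.s) T c, ?_, ?_⟩
    · rw [dec_eq_some]
      exact ⟨_, T, hmext, hfirst, hsat, rfl⟩
    · have : asgc (asg ρ S T.s) T c = asg ρ S β := by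
        funext i
        unfold asgc
        by_cases hi : i ∈ S
        · have hh := (hSc i).mp hi
          rw [dif_pos hh]
          obtain ⟨h1, h2⟩ := choose_spec hh
          obtain ⟨_, h4⟩ := hc3 _ i h1 h2
          rw [hc2 _ i hi h4]
          simp [asg, hi]
        · have hh : ¬ ∃ j, T.v j = some i ∧ c j ≠ none := fun h => hi ((hSc i).mpr h)
          rw [dif_neg hh]
          simp [asg, hi]
      rw [this, ← hcard]
      exact hβ

theorem sum_code_le (hw : 0 < w) :
    ∑ c : Fin w → Option Bool, ((1 : ℝ) / (4 * w)) ^ csz c ≤ 2 := by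
  have h1 : ∀ c : Fin w → Option Bool, ((1 : ℝ) / (4 * w)) ^ csz c =
      ∏ j, (if c j = none then 1 else ((1 : ℝ) / (4 * w))) := by
    intro c
    unfold csz
    rw [Finset.prod_ite, prod_const_one, one_mul, prod_const]
  simp_rw [h1]
  rw [sum_prod_eq (fun (_ : Fin w) (r : Option Bool) =>
    if r = none then (1 : ℝ) else ((1 : ℝ) / (4 * w)))]
  have h2 : ∀ j : Fin w, (∑ b : Option Bool, if b = none then (1 : ℝ) else ((1 : ℝ) / (4 * w))) =
      1 + 1 / (2 * w) := by
    intro j
    rw [Fintype.sum_option, Fintype.sum_bool]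
    simp only [if_true, reduceCtorEq, if_false]
    have : (w : ℝ) ≠ 0 := by positivity
    field_simp
    ring
  rw [prod_congr rfl (fun j _ => h2 j), prod_const, card_univ, Fintype.card_fin]
  have h3 : (1 : ℝ) + 1 / (2 * w) ≤ Real.exp (1 / (2 * w)) := by
    rw [add_comm]
    exact Real.add_one_le_exp _
  have hwpos : (0 : ℝ) < w := by exact_mod_cast hw
  calc (1 + 1 / (2 * (w : ℝ))) ^ w ≤ (Real.exp (1 / (2 * w))) ^ w := by
        apply pow_le_pow_left₀ (by positivity) h3
    _ = Real.exp (1 / 2) := by
        rw [← Real.exp_nat_mul]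
        congr 1
        field_simp
    _ ≤ 2 := by
        have h4 : Real.exp (1 / 2) * Real.exp (1 / 2) = Real.exp 1 := by
          rw [← Real.exp_add]; norm_num
        have h5 := Real.exp_one_lt_d9
        have h6 := Real.exp_pos (1 / 2 : ℝ)
        nlinarith

/-- The counting induction. -/
theorem switching_aux {F : List (Term ι w)} {f : (ι → Bool) → Bool} (hF : IsDNF F f)
    (hw : 0 < w) {p : ℝ} (hp : 0 < p) (hpw : 16 * p * w ≤ 1) (k : ℕ) :
    ∀ m : (ι → Option Bool) → Option (ι → Option Bool), GoodMap m →
      ∑ τ : ι → Option Bool, (if ∃ ρ, m τ = some ρ ∧ Deep f ρ k then wt p τ else 0) ≤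
        (16 * p * w) ^ k := by
  have hw1 : (1 : ℝ) ≤ w := by exact_mod_cast hw
  have hp2 : p ≤ 1 / 16 := by nlinarith
  have hnn : ∀ τ : ι → Option Bool, 0 ≤ wt p τ := fun τ => wt_nonneg hp.le (by linarith) τ
  induction k using Nat.strong_induction_on with
  | _ k ih =>
  intro m hm
  rcases k with _ | k
  · rw [pow_zero]
    calc _ ≤ ∑ τ : ι → Option Bool, wt p τ := by
          apply sum_le_sum
          intro τ _
          split_ifs
          · exact le_rfl
          · exact hnn τ
      _ = 1 := by
          unfold wt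
          rw [sum_prod_eq (fun i r => rw' p i r)]
          exact prod_eq_one fun i _ => rw'_sum p i
  · set lam : ℝ := 2 * p / (1 - p) with hlam
    have hlam0 : 0 ≤ lam := by
      rw [hlam]; apply div_nonneg <;> linarith
    have hlam4 : lam ≤ 4 * p := by
      rw [hlam, div_le_iff₀ (by linarith)]
      nlinarith
    set B : Finset (ι → Option Bool) :=
      univ.filter (fun τ => ∃ ρ, m τ = some ρ ∧ Deep f ρ (k + 1)) with hB
    have henc : ∀ τ ∈ B, ∃ (c : Fin w → Option Bool) (S : Finset ι) (T : Term ι w),
      0 < csz c ∧ S.card = csz c ∧ (∀ i ∈ S, τ i = none) ∧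
      (∃ ρ', m (asg τ S T.s) = some ρ' ∧ first F ρ' = some T) ∧
      (∀ i, i ∈ S ↔ ∃ j, T.v j = some i ∧ c j ≠ none) ∧
      (∃ σ, dec F c m (asg τ S T.s) = some σ ∧ Deep f σ (k + 1 - csz c)) := by
      intro τ hτ
      rw [hB] at hτ
      simp only [mem_filter, mem_univ, true_and] at hτ
      exact encode hF hm hτ
    have : Nonempty (Term ι w) := ⟨⟨fun _ => none, fun _ => true⟩⟩
    choose! cd Sd Td h1 h2 h3 h4 h5 h6 using henc
    have hsum : ∑ τ : ι → Option Bool, (if ∃ ρ, m τ = some ρ ∧ Deep f ρ (k + 1) then wt p τ else 0)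
        = ∑ τ ∈ B, lam ^ csz (cd τ) * wt p (asg τ (Sd τ) (Td τ).s) := by
      rw [hB, sum_filter]
      apply sum_congr rfl
      intro τ _
      by_cases hτ : ∃ ρ, m τ = some ρ ∧ Deep f ρ (k + 1)
      · rw [if_pos hτ, if_pos hτ]
        have hτB : τ ∈ B := by rw [hB]; simpa using hτ
        rw [← h2 τ hτB]
        exact wt_asg (by linarith) τ (Sd τ) (Td τ).s (h3 τ hτB)
      · rw [if_neg hτ, if_neg hτ]
    rw [hsum]
    rw [← Finset.sum_fiberwise B cd]
    have hfib : ∀ c : Fin w → Option Bool,
        ∑ τ ∈ B with cd τ = c, lam ^ csz (cd τ) * wt p (asg τ (Sd τ) (Td τ).s) ≤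
          if csz c = 0 then 0 else ((1 : ℝ) / (4 * w)) ^ csz c * (16 * p * w) ^ (k + 1) := by
      intro c
      by_cases hc : csz c = 0
      · rw [if_pos hc]
        apply le_of_eq
        apply sum_eq_zero
        intro τ hτ
        rw [mem_filter] at hτ
        have := h1 τ hτ.1
        rw [hτ.2, hc] at this
        exact absurd this (lt_irrefl 0)
      · rw [if_neg hc]
        have hinj : ∀ τ1 ∈ B.filter (fun τ => cd τ = c), ∀ τ2 ∈ B.filter (fun τ => cd τ = c),
            asg τ1 (Sd τ1) (Td τ1).s = asg τ2 (Sd τ2) (Td τ2).s → τ1 = τ2 := by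
          intro τ1 ht1 τ2 ht2 heq
          rw [mem_filter] at ht1 ht2
          obtain ⟨ρ1, hρ1, hf1⟩ := h4 τ1 ht1.1
          obtain ⟨ρ2, hρ2, hf2⟩ := h4 τ2 ht2.1
          rw [heq, hρ2] at hρ1
          have hρ : ρ2 = ρ1 := Option.some.inj hρ1
          rw [hρ, hf1] at hf2
          have hTT : Td τ1 = Td τ2 := Option.some.inj hf2
          have hSS : ∀ i, i ∈ Sd τ1 ↔ i ∈ Sd τ2 := by
            intro i
            rw [h5 τ1 ht1.1, h5 τ2 ht2.1, hTT, ht1.2, ht2.2]
          funext i
          by_cases hi : i ∈ Sd τ1
          · rw [h3 τ1 ht1.1 i hi, h3 τ2 ht2.1 i ((hSS i).mp hi)]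
          · have hi2 : i ∉ Sd τ2 := fun h => hi ((hSS i).mpr h)
            have := congrFun heq i
            unfold asg at this
            rw [if_neg hi, if_neg hi2] at this
            exact this
        have hstep : ∑ τ ∈ B with cd τ = c, lam ^ csz (cd τ) * wt p (asg τ (Sd τ) (Td τ).s) ≤
            lam ^ csz c * (16 * p * w) ^ (k + 1 - csz c) := by
          calc _ = ∑ τ ∈ B with cd τ = c, lam ^ csz c * wt p (asg τ (Sd τ) (Td τ).s) := by
                apply sum_congr rfl
                intro τ hτ
                rw [mem_filter] at hτ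
                rw [hτ.2]
            _ = lam ^ csz c * ∑ τ ∈ B with cd τ = c, wt p (asg τ (Sd τ) (Td τ).s) := by
                rw [mul_sum]
            _ ≤ lam ^ csz c * ∑ τ' : ι → Option Bool,
                (if ∃ ρ, dec F c m τ' = some ρ ∧ Deep f ρ (k + 1 - csz c) then wt p τ' else 0) := by
                apply mul_le_mul_of_nonneg_left _ (pow_nonneg hlam0 _)
                rw [← sum_filter]
                rw [← sum_image (f := fun τ' => wt p τ') hinj]
                apply sum_le_sum_of_subset_of_nonneg
                · intro τ' hτ'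
                  rw [mem_image] at hτ'
                  obtain ⟨τ, hτ, rfl⟩ := hτ'
                  rw [mem_filter] at hτ
                  simp only [mem_filter, mem_univ, true_and]
                  have := h6 τ hτ.1
                  rw [hτ.2] at this
                  exact this
                · intro τ' _ _
                  exact hnn τ'
            _ ≤ lam ^ csz c * (16 * p * w) ^ (k + 1 - csz c) := by
                apply mul_le_mul_of_nonneg_left _ (pow_nonneg hlam0 _)
                exact ih (k + 1 - csz c) (by omega) _ (goodMap_dec hm)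
        refine hstep.trans ?_
        have hq : lam ≤ (1 / (4 * w)) * (16 * p * w) := by
          have : (1 / (4 * (w : ℝ))) * (16 * p * w) = 4 * p := by
            have : (w : ℝ) ≠ 0 := by positivity
            field_simp
            norm_num
          rw [this]
          exact hlam4
        have hmu0 : 0 < 16 * p * w := by positivity
        have hmu : (16 * p * (w : ℝ)) ^ csz c * (16 * p * w) ^ (k + 1 - csz c) ≤
            (16 * p * w) ^ (k + 1) := by
          rw [← pow_add]
          exact pow_le_pow_of_le_one hmu0.le hpw (by omega)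
        calc lam ^ csz c * (16 * p * w) ^ (k + 1 - csz c)
            ≤ ((1 / (4 * w)) * (16 * p * w)) ^ csz c * (16 * p * w) ^ (k + 1 - csz c) := by
              apply mul_le_mul_of_nonneg_right _ (by positivity)
              exact pow_le_pow_left₀ hlam0 hq _
          _ = (1 / (4 * w)) ^ csz c * ((16 * p * w) ^ csz c * (16 * p * w) ^ (k + 1 - csz c)) := by
              rw [mul_pow]; ring
          _ ≤ _ := mul_le_mul_of_nonneg_left hmu (by positivity)
    refine (sum_le_sum (fun c _ => hfib c)).trans ?_
    have hsplit : ∑ c : Fin w → Option Bool,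
        (if csz c = 0 then (0 : ℝ) else ((1 : ℝ) / (4 * w)) ^ csz c * (16 * p * w) ^ (k + 1)) ≤
        (∑ c : Fin w → Option Bool, ((1 : ℝ) / (4 * w)) ^ csz c - 1) * (16 * p * w) ^ (k + 1) := by
      have hz : csz (fun _ : Fin w => (none : Option Bool)) = 0 := by
        unfold csz; simp
      have hpos : 0 ≤ (16 * p * (w : ℝ)) ^ (k + 1) := by positivity
      have : ∀ c : Fin w → Option Bool,
          (if csz c = 0 then (0 : ℝ) else ((1 : ℝ) / (4 * w)) ^ csz c * (16 * p * w) ^ (k + 1)) ≤
          (((1 : ℝ) / (4 * w)) ^ csz c - (if c = fun _ => none then 1 else 0)) *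
            (16 * p * w) ^ (k + 1) := by
        intro c
        by_cases hc : c = fun _ => none
        · rw [hc, hz]; simp
        · rw [if_neg hc, sub_zero]
          split_ifs
          · positivity
          · exact le_rfl
      refine (sum_le_sum (fun c _ => this c)).trans (le_of_eq ?_)
      rw [← sum_mul, sum_sub_distrib, sum_ite_eq' univ]
      simp
    refine hsplit.trans ?_
    have := sum_code_le hw
    have hpos : 0 ≤ (16 * p * (w : ℝ)) ^ (k + 1) := by positivity
    calc _ ≤ (1 : ℝ) * (16 * p * w) ^ (k + 1) := by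
          apply mul_le_mul_of_nonneg_right _ hpos
          linarith
      _ = _ := one_mul _

/-- Switching lemma. -/
theorem switching {F : List (Term ι w)} {f : (ι → Bool) → Bool} (hF : IsDNF F f)
    (hw : 0 < w) {p : ℝ} (hp : 0 < p) (hpw : 16 * p * w ≤ 1) (k : ℕ) :
    pm (rw' p) (fun ρ : ι → Option Bool => if DTd k (fun x => f (mrg ρ x)) then 0 else 1) ≤
      (16 * p * w) ^ (k + 1) := by
  have := switching_aux hF hw hp hpw (k + 1) some goodMap_some
  refine le_trans (le_of_eq ?_) this
  unfold pm
  apply sum_congr rfl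
  intro ρ _
  beta_reduce
  by_cases h : DTd k (fun x => f (mrg ρ x))
  · rw [if_pos h, mul_zero, if_neg]
    rintro ⟨ρ', h1, h2⟩
    rw [← Option.some.inj h1] at h2
    exact h2 h
  · rw [if_neg h, mul_one, if_pos ⟨ρ, rfl, h⟩]
    rfl

end Pool.Agent.Helper67.EQP
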