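import Pool.Agent.Helper67.EQP.Lin

set_option autoImplicit false
set_option linter.unusedSectionVars false

/-!
The adaptive random walk in the cube with stopping.
-/

namespace Pool.Agent.Helper67.EQP

open Finset Function Classical
open Pool.Agent.Helper67.JL (ex ex_mono ex_nonneg ex_add ex_mul_left ex_mul_right ex_sum ex_const)

section general

variable {ι X : Type} [Fintype X] [Nonempty X]

/-- Ratio of the speed of a coordinate and its distance to the boundary of the cube. -/
noncomputable def kap (y : ℝ) : ℝ := (1 + |y|) * (1 + y ^ 2 / 10)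

/-- Speed of a coordinate. -/
noncomputable def spd (y : ℝ) : ℝ := (1 - y ^ 2) * (1 + y ^ 2 / 10)

theorem spd_eq (y : ℝ) : (1 - |y|) * kap y = spd y := by
  unfold kap spd
  rw [← sq_abs]
  ring

theorem kap_nonneg (y : ℝ) : 0 ≤ kap y := by
  unfold kap
  positivity

theorem kap_le {y : ℝ} (hy : |y| ≤ 1) : kap y ≤ 3 := by
  unfold kap
  have h0 := abs_nonneg y
  have h2 : y ^ 2 ≤ 1 := by rw [← sq_abs]; nlinarith
  have h3 : 0 ≤ y ^ 2 := sq_nonneg y
  nlinarith

theorem spd_nonneg {y : ℝ} (hy : |y| ≤ 1) : 0 ≤ spd y := by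
  rw [← spd_eq]
  exact mul_nonneg (by linarith) (kap_nonneg y)

theorem spd_le {y : ℝ} (hy : |y| ≤ 1) : spd y ≤ 1 := by
  unfold spd
  have h3 : 0 ≤ y ^ 2 := sq_nonneg y
  nlinarith

/-- One step of the walk: do nothing if stopped, otherwise move every coordinate by the noise
scaled with the speed of the coordinate. -/
noncomputable def wstep (St : (ι → ℝ) → Prop) (η : ℝ) (xh : X → ι → ℝ) (a : ι → ℝ) (x : X) :
    ι → ℝ := if St a then a else fun i => a i + (1 - |a i|) * (η * (kap (a i) * xh x i))

theorem wstep_of_stop {St : (ι → ℝ) → Prop} {η : ℝ} {xh : X → ι → ℝ} {a : ι → ℝ} (h : St a)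
    (x : X) : wstep St η xh a x = a := if_pos h

theorem wstep_of_not_stop {St : (ι → ℝ) → Prop} {η : ℝ} {xh : X → ι → ℝ} {a : ι → ℝ} (h : ¬ St a)
    (x : X) (i : ι) : wstep St η xh a x i = a i + spd (a i) * (η * xh x i) := by
  unfold wstep
  rw [if_neg h, ← spd_eq]
  ring

/-- Expectation of `G` after `t` steps of the walk from `a`. -/
noncomputable def walk (St : (ι → ℝ) → Prop) (η : ℝ) (xh : X → ι → ℝ) :
    ℕ → ((ι → ℝ) → ℝ) → (ι → ℝ) → ℝ
  | 0, G, a => G a
  | (t + 1), G, a => ex (fun x => walk St η xh t G (wstep St η xh a x))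

variable {St : (ι → ℝ) → Prop} {η : ℝ} {xh : X → ι → ℝ}

theorem walk_succ (t : ℕ) (G : (ι → ℝ) → ℝ) (a : ι → ℝ) :
    walk St η xh (t + 1) G a = ex (fun x => walk St η xh t G (wstep St η xh a x)) := rfl

theorem walk_add (t : ℕ) (F G : (ι → ℝ) → ℝ) (a : ι → ℝ) :
    walk St η xh t (fun b => F b + G b) a = walk St η xh t F a + walk St η xh t G a := by
  induction t generalizing a with
  | zero => rfl
  | succ t ih =>
    rw [walk_succ, walk_succ, walk_succ, ← ex_add]
    congr 1
    funext x
    exact ih _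

theorem walk_mul (t : ℕ) (c : ℝ) (G : (ι → ℝ) → ℝ) (a : ι → ℝ) :
    walk St η xh t (fun b => c * G b) a = c * walk St η xh t G a := by
  induction t generalizing a with
  | zero => rfl
  | succ t ih =>
    rw [walk_succ, walk_succ, ← ex_mul_left]
    congr 1
    funext x
    exact ih _

theorem walk_const (t : ℕ) (c : ℝ) (a : ι → ℝ) :
    walk St η xh t (fun _ => c) a = c := by
  induction t generalizing a with
  | zero => rfl
  | succ t ih =>
    rw [walk_succ]
    simp_rw [ih]
    exact ex_const c

theorem walk_sum {α : Type} (S : Finset α) (t : ℕ) (F : α → (ι → ℝ) → ℝ) (a : ι → ℝ) :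
    walk St η xh t (fun b => ∑ s ∈ S, F s b) a = ∑ s ∈ S, walk St η xh t (F s) a := by
  induction t generalizing a with
  | zero => rfl
  | succ t ih =>
    rw [walk_succ]
    simp_rw [ih]
    rw [ex_sum]
    rfl

theorem walk_mono {K : (ι → ℝ) → Prop} (hK : ∀ a, K a → ∀ x, K (wstep St η xh a x))
    {F G : (ι → ℝ) → ℝ} (h : ∀ a, K a → F a ≤ G a) (t : ℕ) {a : ι → ℝ} (ha : K a) :
    walk St η xh t F a ≤ walk St η xh t G a := by
  induction t generalizing a with
  | zero => exact h a ha
  | succ t ih =>
    rw [walk_succ, walk_succ]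
    exact ex_mono fun x => ih (hK a ha x)

theorem walk_err {K : (ι → ℝ) → Prop} (hK : ∀ a, K a → ∀ x, K (wstep St η xh a x))
    {G : (ι → ℝ) → ℝ} {ε : ℝ} (h : ∀ a, K a → |ex (fun x => G (wstep St η xh a x)) - G a| ≤ ε)
    (t : ℕ) {a : ι → ℝ} (ha : K a) :
    |walk St η xh t G a - G a| ≤ t * ε := by
  induction t generalizing a with
  | zero => simp [walk]
  | succ t ih =>
    rw [walk_succ]
    have h1 : |ex (fun x => walk St η xh t G (wstep St η xh a x) - G (wstep St η xh a x))| ≤
        t * ε := ex_abs_le _ fun x => ih (hK a ha x)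
    have h2 := h a ha
    have e : ex (fun x => walk St η xh t G (wstep St η xh a x)) - G a =
        ex (fun x => walk St η xh t G (wstep St η xh a x) - G (wstep St η xh a x)) +
        (ex (fun x => G (wstep St η xh a x)) - G a) := by
      have : (fun x => walk St η xh t G (wstep St η xh a x)) =
          fun x => (walk St η xh t G (wstep St η xh a x) - G (wstep St η xh a x)) +
            G (wstep St η xh a x) := by
        funext x; ring
      rw [this, ex_add]
      ring
    rw [e]
    push_cast
    refine (abs_add_le _ _).trans ?_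
    linarith

theorem walk_drift {K : (ι → ℝ) → Prop} (hK : ∀ a, K a → ∀ x, K (wstep St η xh a x))
    {G D : (ι → ℝ) → ℝ} (h : ∀ a, K a → ex (fun x => G (wstep St η xh a x)) = G a + D a)
    (t : ℕ) {a : ι → ℝ} (ha : K a) :
    walk St η xh t G a = G a + ∑ j ∈ range t, walk St η xh j D a := by
  induction t generalizing a with
  | zero => simp [walk]
  | succ t ih =>
    rw [walk_succ, sum_range_succ']
    have : (fun x => walk St η xh t G (wstep St η xh a x)) =
        fun x => G (wstep St η xh a x) + ∑ j ∈ range t, walk St η xh j D (wstep St η xh a x) := by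
      funext x
      exact ih (hK a ha x)
    rw [this, ex_add, ex_sum, h a ha]
    have e0 : walk St η xh 0 D a = D a := rfl
    rw [e0]
    have : ∑ j ∈ range t, walk St η xh (j + 1) D a =
        ∑ j ∈ range t, ex (fun x => walk St η xh j D (wstep St η xh a x)) := rfl
    rw [this]
    ring

theorem walk_drift_le {K : (ι → ℝ) → Prop} (hK : ∀ a, K a → ∀ x, K (wstep St η xh a x))
    {G : (ι → ℝ) → ℝ} {c : ℝ} (h : ∀ a, K a → ex (fun x => G (wstep St η xh a x)) ≤ G a + c)
    (t : ℕ) {a : ι → ℝ} (ha : K a) :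
    walk St η xh t G a ≤ G a + t * c := by
  induction t generalizing a with
  | zero => simp [walk]
  | succ t ih =>
    rw [walk_succ]
    calc ex (fun x => walk St η xh t G (wstep St η xh a x))
        ≤ ex (fun x => G (wstep St η xh a x) + t * c) := ex_mono fun x => ih (hK a ha x)
      _ = ex (fun x => G (wstep St η xh a x)) + t * c := by
          rw [ex_add, ex_const]
      _ ≤ G a + c + t * c := by linarith [h a ha]
      _ = _ := by push_cast; ring

theorem walk_antitone {G : (ι → ℝ) → ℝ}
    (h : ∀ a, ex (fun x => G (wstep St η xh a x)) ≤ G a) {s t : ℕ} (hst : s ≤ t) (a : ι → ℝ) :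
    walk St η xh t G a ≤ walk St η xh s G a := by
  obtain ⟨d, rfl⟩ := Nat.exists_eq_add_of_le hst
  induction s generalizing a with
  | zero =>
    have := walk_drift_le (St := St) (η := η) (xh := xh) (K := fun _ => True) (fun _ _ _ => trivial)
      (G := G) (c := 0) (fun a _ => by simpa using h a) d (a := a) trivial
    simpa [walk] using this
  | succ s ih =>
    have e : s + 1 + d = (s + d) + 1 := by ring
    rw [e, walk_succ, walk_succ]
    exact ex_mono fun x => ih _ (by omega)

/-- The cube. -/
def Cube (a : ι → ℝ) : Prop := ∀ i, |a i| ≤ 1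

theorem cube_step {B : ℝ} (hbd : ∀ x i, |xh x i| ≤ B) (hη : 0 ≤ η) (hηB : 3 * (η * B) ≤ 1)
    (a : ι → ℝ) (ha : Cube a) (x : X) : Cube (wstep St η xh a x) := by
  unfold wstep
  split_ifs
  · exact ha
  · intro i
    have hk0 := kap_nonneg (a i)
    have hk3 := kap_le (ha i)
    have h1 : |η * (kap (a i) * xh x i)| ≤ 1 := by
      rw [abs_mul, abs_of_nonneg hη, abs_mul, abs_of_nonneg hk0]
      have hB : 0 ≤ B := (abs_nonneg _).trans (hbd x i)
      have h2 : kap (a i) * |xh x i| ≤ 3 * B := mul_le_mul hk3 (hbd x i) (abs_nonneg _) (by norm_num)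
      calc η * (kap (a i) * |xh x i|) ≤ η * (3 * B) := mul_le_mul_of_nonneg_left h2 hη
        _ ≤ 1 := by linarith
    have h2 := ha i
    have h3 : 0 ≤ 1 - |a i| := by linarith
    calc |a i + (1 - |a i|) * (η * (kap (a i) * xh x i))|
        ≤ |a i| + (1 - |a i|) * |η * (kap (a i) * xh x i)| := by
          refine (abs_add_le _ _).trans ?_
          rw [abs_mul, abs_of_nonneg h3]
      _ ≤ |a i| + (1 - |a i|) * 1 := by
          have := mul_le_mul_of_nonneg_left h1 h3
          linarith
      _ = 1 := by ring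

theorem noise_kap {c2 B : ℝ} (hN : Noise xh c2 B) (a : ι → ℝ) (ha : Cube a) :
    Noise (fun x i => kap (a i) * xh x i) (9 * c2) (3 * B) where
  mean := by
    intro i
    rw [ex_mul_left, hN.mean, mul_zero]
  cov := by
    intro i j hij
    have : (fun x => kap (a i) * xh x i * (kap (a j) * xh x j)) =
        fun x => (kap (a i) * kap (a j)) * (xh x i * xh x j) := by
      funext x; ring
    rw [this, ex_mul_left, abs_mul, abs_of_nonneg (mul_nonneg (kap_nonneg _) (kap_nonneg _))]
    have h1 : kap (a i) * kap (a j) ≤ 3 * 3 :=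
      mul_le_mul (kap_le (ha i)) (kap_le (ha j)) (kap_nonneg _) (by norm_num)
    calc _ ≤ (3 * 3) * c2 := mul_le_mul h1 (hN.cov i j hij) (abs_nonneg _) (by norm_num)
      _ = 9 * c2 := by ring
  bd := by
    intro x i
    rw [abs_mul, abs_of_nonneg (kap_nonneg _)]
    exact mul_le_mul (kap_le (ha i)) (hN.bd x i) (abs_nonneg _) (by norm_num)
  c2_nonneg := by have := hN.c2_nonneg; positivity
  B_nonneg := by have := hN.B_nonneg; positivity

/-- The walk fools constant depth circuits. -/
theorem walk_fools [Fintype ι] [DecidableEq ι] {c2 B : ℝ} (hN : Noise xh c2 B)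
    {h s w : ℕ} {level : Fin s → ℕ} {g : Fin s → (ι → Bool) → Bool}
    (hAC : ACfam w level g) (hlev : ∀ j, level j < h) (hw : 0 < w) {p : ℝ} (hp : 0 < p)
    (hpw : 16 * p * w ≤ 1)
    (hη : 0 ≤ η) (hηB : 3 * (η * B) ≤ 1) (hw2 : w * (η / p ^ h * (3 * B)) ≤ 1 / 2)
    (hn2 : Fintype.card ι * (η / p ^ h * (3 * B)) ≤ 1 / 2) (j : Fin s) (t : ℕ) :
    |walk St η xh t (fun a => mext a (fun z => b2 (g j z))) (fun _ => 0) -
      mext (fun _ => 0) (fun z => b2 (g j z))| ≤
      t * stepErr h s w (Fintype.card ι) p (9 * c2) (3 * B) η := by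
  apply walk_err (K := Cube) (cube_step hN.bd hη hηB)
  · intro a ha
    by_cases hSt : St a
    · have : (fun x => mext (wstep St η xh a x) (fun z => b2 (g j z))) =
          fun _ => mext a (fun z => b2 (g j z)) := by
        funext x
        rw [wstep_of_stop hSt]
      rw [this, ex_const, sub_self, abs_zero]
      have hB := hN.B_nonneg
      have hc2 := hN.c2_nonneg
      unfold stepErr
      positivity
    · have : (fun x => mext (wstep St η xh a x) (fun z => b2 (g j z))) =
          fun x => mext (fun i => a i + (1 - |a i|) * (η * (kap (a i) * xh x i)))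
            (fun z => b2 (g j z)) := by
        funext x
        unfold wstep
        rw [if_neg hSt]
      rw [this]
      exact noise_ac_cube (noise_kap hN a ha) hAC hlev hw hp hpw hη hw2 hn2 j a ha
  · intro i
    simp

end general

end Pool.Agent.Helper67.EQP
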